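import Mathlib

/-!
# `Proj` of a surjective graded ring homomorphism is a closed immersion
-/

open AlgebraicGeometry CategoryTheory Limits

universe u
namespace Pool.Agent.FL

open HomogeneousIdeal Graded HomogeneousLocalization

theorem away_map_surjective {A B σ τ : Type u} [CommRing A] [SetLike σ A] [AddSubgroupClass σ A]
    [CommRing B] [SetLike τ B] [AddSubgroupClass τ B]
    {𝒜 : ℕ → σ} {ℬ : ℕ → τ} [GradedRing 𝒜] [GradedRing ℬ]
    (f : 𝒜 →+*ᵍ ℬ) (hsurj : Function.Surjective f) {i : ℕ} (s : A) (hs : s ∈ 𝒜 i) :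
    Function.Surjective (Away.map f s : Away 𝒜 s →+* Away ℬ (f s)) := by
  intro y
  obtain ⟨n, b, hb, rfl⟩ := Away.mk_surjective ℬ (map_mem f hs) y
  obtain ⟨a, rfl⟩ := hsurj b
  refine ⟨Away.mk 𝒜 hs n (DirectSum.decompose 𝒜 a (n • i) : A) (SetLike.coe_mem _), ?_⟩
  rw [Away.map_mk]
  have h : f (DirectSum.decompose 𝒜 a (n • i) : A) = f a := by
    rw [GradedRingHom.map_directSumDecompose]
    exact DirectSum.decompose_of_mem_same ℬ hb
  simp only [h]

theorem appLE_surjective {A B σ τ : Type u} [CommRing A] [SetLike σ A] [AddSubgroupClass σ A]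
    [CommRing B] [SetLike τ B] [AddSubgroupClass τ B]
    {𝒜 : ℕ → σ} {ℬ : ℕ → τ} [GradedRing 𝒜] [GradedRing ℬ]
    (f : 𝒜 →+*ᵍ ℬ) (hf : ℬ₊ ≤ 𝒜₊.map f) (hsurj : Function.Surjective f)
    {i : ℕ} (hi : 0 < i) (s : A) (hs : s ∈ 𝒜 i) :
    Function.Surjective (Scheme.Hom.appLE (Proj.map f hf) (Proj.basicOpen 𝒜 s)
        (Proj.basicOpen ℬ (f s)) (by rfl)) := by
  have h1 := Proj.awayToSection_comp_appLE f hf hs
  have h4 : Function.Surjective (Proj.awayToSection ℬ (f s)) := by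
    have h5 : Proj.awayToSection ℬ (f s) =
      (Proj.basicOpenIsoAway ℬ (f s) (map_mem f hs) hi).hom := rfl
    rw [h5]
    exact (ConcreteCategory.bijective_of_isIso _).2
  intro y
  obtain ⟨z, hz⟩ := h4 y
  obtain ⟨w, hw⟩ := away_map_surjective f hsurj s hs z
  refine ⟨Proj.awayToSection 𝒜 s w, ?_⟩
  rw [← hz, ← hw]
  exact ConcreteCategory.congr_hom h1 w

/-- OFFER A -/
theorem isClosedImmersion_projMap {A B σ τ : Type u} [CommRing A] [SetLike σ A] [AddSubgroupClass σ A]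
    [CommRing B] [SetLike τ B] [AddSubgroupClass τ B]
    {𝒜 : ℕ → σ} {ℬ : ℕ → τ} [GradedRing 𝒜] [GradedRing ℬ]
    (f : 𝒜 →+*ᵍ ℬ) (hf : ℬ₊ ≤ 𝒜₊.map f) (hsurj : Function.Surjective f) :
    IsClosedImmersion (Proj.map f hf) := by
  have hcov : ⨆ s : (Σ i : ℕ+, 𝒜 i), Proj.basicOpen 𝒜 (s.2 : A) = ⊤ := by
    have h := (Proj.affineOpenCover 𝒜).openCover.iSup_opensRange
    rw [← h]
    refine iSup_congr fun s => ?_
    exact (Proj.opensRange_awayι 𝒜 _ _ _).symm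
  refine ((IsClosedImmersion.hasAffineProperty).iff_of_iSup_eq_top
    (fun s : (Σ i : ℕ+, 𝒜 i) => (⟨Proj.basicOpen 𝒜 (s.2 : A),
      Proj.isAffineOpen_basicOpen 𝒜 (s.2 : A) s.2.2 s.1.2⟩ : (Proj 𝒜).affineOpens)) hcov).2 ?_
  intro s
  constructor
  · exact Proj.isAffineOpen_basicOpen ℬ (f (s.2 : A)) (map_mem f s.2.2) s.1.2
  · have h2 := appLE_surjective f hf hsurj s.1.2 (s.2 : A) s.2.2
    have key : ∀ (U : (Proj 𝒜).Opens) (V : (Proj ℬ).Opens) (e : V ≤ (Proj.map f hf) ⁻¹ᵁ U),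
        U = Proj.basicOpen 𝒜 (s.2 : A) → V = Proj.basicOpen ℬ (f (s.2 : A)) →
        Function.Surjective (Scheme.Hom.appLE (Proj.map f hf) U V e) := by
      rintro _ _ _ rfl rfl
      exact h2
    rw [Scheme.Hom.appTop, morphismRestrict_app']
    apply key
    · simp
    · simp

end Pool.Agent.FL
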