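import Mathlib
open AlgebraicGeometry CategoryTheory Limits

universe u
namespace Pool.Agent.FL

/-- the polynomial ring in two variables is standard smooth of relative dimension two -/
theorem stdSmooth_mvPolynomial (A : Type u) [CommRing A] :
    Algebra.IsStandardSmoothOfRelativeDimension 2 A (MvPolynomial (Fin 2) A) := by
  let P' : Algebra.PreSubmersivePresentation A (MvPolynomial (Fin 2) A) (Fin 2) PEmpty.{1} :=
  { toGenerators := Algebra.Generators.mvPolynomial A (Fin 2)
    relation := PEmpty.elim
    span_range_relation_eq_ker := by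
      rw [Set.range_eq_empty, Ideal.span_empty]
      exact (Algebra.Generators.ker_mvPolynomial (R := A) (ι := Fin 2)).symm
    map := PEmpty.elim
    map_inj := fun a => a.elim }
  let P : Algebra.SubmersivePresentation A (MvPolynomial (Fin 2) A) (Fin 2) PEmpty.{1} :=
  { __ := P'
    jacobian_isUnit := by
      rw [Algebra.PreSubmersivePresentation.jacobian_eq_jacobiMatrix_det, Matrix.det_isEmpty,
        map_one]
      exact isUnit_one }
  exact ⟨_, _, inferInstance, inferInstance, P, by simp [Algebra.Presentation.dimension]⟩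

theorem stdSmooth_comp_C {A B : Type u} [CommRing A] [CommRing B] (h : MvPolynomial (Fin 2) A)
    (φ : MvPolynomial (Fin 2) A →+* B)
    (hφ : @IsLocalization.Away _ _ h B _ φ.toAlgebra) :
    (φ.comp (MvPolynomial.C : A →+* MvPolynomial (Fin 2) A)).IsStandardSmoothOfRelativeDimension 2 := by
  have h1 : (MvPolynomial.C : A →+* MvPolynomial (Fin 2) A).IsStandardSmoothOfRelativeDimension 2 := by
    have := stdSmooth_mvPolynomial A
    exact (RingHom.isStandardSmoothOfRelativeDimension_algebraMap 2).2 this
  have h2 : φ.IsStandardSmoothOfRelativeDimension 0 := by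
    let := φ.toAlgebra
    have : IsLocalization.Away h B := hφ
    exact Algebra.IsStandardSmoothOfRelativeDimension.localization_away (R := MvPolynomial (Fin 2) A) h
  exact h2.comp h1

/-- OFFER B: charts that are localised polynomial rings give smoothness -/
theorem smooth_of_charts {A : Type u} [CommRing A] {X : Scheme.{u}} (f : X ⟶ Spec (.of A))
    {ι : Type} (U : ι → X.Opens) (hU : ∀ i, IsAffineOpen (U i)) (hcov : ⨆ i, U i = ⊤)
    (h : ι → MvPolynomial (Fin 2) A)
    (φ : ∀ i, MvPolynomial (Fin 2) A →+* Γ(X, U i))
    (hφ : ∀ i, @IsLocalization.Away _ _ (h i) Γ(X, U i) _ (φ i).toAlgebra)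
    (hφf : ∀ i a, φ i (MvPolynomial.C a) =
      (f.appLE ⊤ (U i) le_top).hom ((Scheme.ΓSpecIso (.of A)).inv.hom a)) :
    SmoothOfRelativeDimension 2 f := by
  refine ⟨fun x => ?_⟩
  have hx : x ∈ ⨆ i, U i := by rw [hcov]; trivial
  obtain ⟨i, hxi⟩ := TopologicalSpace.Opens.mem_iSup.1 hx
  refine ⟨⊤, isAffineOpen_top _, U i, hU i, hxi, le_top, ?_⟩
  have h1 := stdSmooth_comp_C (h i) (φ i) (hφ i)
  have h2 : f.appLE ⊤ (U i) le_top =
      (Scheme.ΓSpecIso (.of A)).hom ≫
        CommRingCat.ofHom ((φ i).comp (MvPolynomial.C : A →+* MvPolynomial (Fin 2) A)) := by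
    rw [← Iso.inv_comp_eq]
    ext a
    exact (hφf i a).symm
  rw [h2, CommRingCat.hom_comp, RingHom.isStandardSmoothOfRelativeDimension_respectsIso.cancel_left_isIso]
  exact h1

/-- OFFER C. Witt vectors: a complete DVR of characteristic zero with residue field k. -/
theorem exists_wittLift (p : ℕ) [Fact p.Prime] (k : Type u) [Field k] [CharP k p] [PerfectRing k p] :
    ∃ (R : Type u) (_ : CommRing R) (_ : IsDomain R) (_ : IsDiscreteValuationRing R) (_ : CharZero R)
      (_ : IsAdicComplete (IsLocalRing.maximalIdeal R) R) (red : R →+* k),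
      Function.Surjective red ∧ RingHom.ker red = IsLocalRing.maximalIdeal R := by
  have hp : p.Prime := Fact.out
  have hirr : Irreducible (p : WittVector p k) := WittVector.irreducible p
  have hmax : IsLocalRing.maximalIdeal (WittVector p k) = Ideal.span {(p : WittVector p k)} :=
    hirr.maximalIdeal_eq
  have hker : RingHom.ker (WittVector.constantCoeff : WittVector p k →+* k) =
      Ideal.span {(p : WittVector p k)} := WittVector.ker_constantCoeff
  have hch : CharZero (WittVector p k) := by
    obtain ⟨q, hq⟩ := CharP.exists (WittVector p k)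
    rcases CharP.char_is_prime_or_zero (WittVector p k) q with h | h
    · exfalso
      have h0 : ((q : ℕ) : WittVector p k) = 0 := CharP.cast_eq_zero _ q
      have h1 : ((q : ℕ) : k) = 0 := by
        have := congrArg (WittVector.constantCoeff : WittVector p k →+* k) h0
        rwa [map_natCast, map_zero] at this
      have h2 : p ∣ q := (CharP.cast_eq_zero_iff k p q).1 h1
      have h3 : p = q := (Nat.prime_dvd_prime_iff_eq hp h).1 h2
      subst h3
      exact hirr.ne_zero h0
    · subst h
      exact CharP.charP_to_charZero _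
  refine ⟨WittVector p k, inferInstance, inferInstance, inferInstance, hch, ?_,
    WittVector.constantCoeff, WittVector.constantCoeff_surjective p, ?_⟩
  · rw [hmax]; infer_instance
  · rw [hker, hmax]

end Pool.Agent.FL
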