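import Mathlib

/-!
# Base change of Proj checked on charts (MP_b2373b_ag, offer D)
-/

open AlgebraicGeometry CategoryTheory Limits

universe u
namespace Pool.Agent.FL

/-- OFFER D: the square of an affine chart of `Proj.map` is a pull-back. -/
theorem isPullback_awayι_map {A B σ τ : Type u} [CommRing A] [SetLike σ A] [AddSubgroupClass σ A]
    [CommRing B] [SetLike τ B] [AddSubgroupClass τ B]
    {𝒜 : ℕ → σ} {ℬ : ℕ → τ} [GradedRing 𝒜] [GradedRing ℬ]
    (f : 𝒜 →+*ᵍ ℬ) (hf : HomogeneousIdeal.irrelevant ℬ ≤ (HomogeneousIdeal.irrelevant 𝒜).map f)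
    {i : ℕ} (hi : 0 < i) (s : A) (hs : s ∈ 𝒜 i) :
    IsPullback (Proj.awayι ℬ (f s) (f.2 hs) hi)
      (Spec.map (CommRingCat.ofHom (HomogeneousLocalization.Away.map f s)))
      (Proj.map f hf) (Proj.awayι 𝒜 s hs hi) := by
  refine (IsOpenImmersion.isPullback _ _ _ _ (Proj.awayι_comp_map f hf hi s hs) ?_).flip
  rw [Proj.opensRange_awayι, Proj.opensRange_awayι, Proj.map_preimage_basicOpen]

/-- structure morphism of `Proj` of a graded algebra -/
noncomputable def projStr {R A : Type u} [CommRing R] [CommRing A] [Algebra R A]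
    (𝒜 : ℕ → Submodule R A) [GradedAlgebra 𝒜] : Proj 𝒜 ⟶ Spec (.of R) :=
  Proj.toSpecZero 𝒜 ≫ Spec.map (CommRingCat.ofHom (algebraMap R (𝒜 0)))

theorem awayι_projStr {R A : Type u} [CommRing R] [CommRing A] [Algebra R A]
    (𝒜 : ℕ → Submodule R A) [GradedAlgebra 𝒜] {n : ℕ} (hn : 0 < n) (s : A) (hs : s ∈ 𝒜 n) :
    Proj.awayι 𝒜 s hs hn ≫ projStr 𝒜 = Spec.map (CommRingCat.ofHom
      ((HomogeneousLocalization.fromZeroRingHom 𝒜 (Submonoid.powers s)).comp
        (algebraMap R (𝒜 0)))) := by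
  rw [projStr, Proj.awayι_toSpecZero_assoc, ← Spec.map_comp, ← CommRingCat.ofHom_comp]

/-- OFFER D (second half): base change of `Proj` checked on charts. -/
theorem isPullback_projMap {R k A B : Type u} [CommRing R] [CommRing k] [Algebra R k] [CommRing A]
    [CommRing B] [Algebra R A] [Algebra k B]
    {𝒜 : ℕ → Submodule R A} {ℬ : ℕ → Submodule k B} [GradedAlgebra 𝒜] [GradedAlgebra ℬ]
    (f : 𝒜 →+*ᵍ ℬ) (hf : HomogeneousIdeal.irrelevant ℬ ≤ (HomogeneousIdeal.irrelevant 𝒜).map f)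
    {ι : Type} (s : ι → A) (n : ι → ℕ) (hs : ∀ i, s i ∈ 𝒜 (n i)) (hn : ∀ i, 0 < n i)
    (hcov : ⨆ i, Proj.basicOpen 𝒜 (s i) = ⊤)
    (hpush : ∀ i, IsPushout (CommRingCat.ofHom (algebraMap R k))
      (CommRingCat.ofHom ((HomogeneousLocalization.fromZeroRingHom 𝒜 (Submonoid.powers (s i))).comp
        (algebraMap R (𝒜 0))))
      (CommRingCat.ofHom ((HomogeneousLocalization.fromZeroRingHom ℬ (Submonoid.powers (f (s i)))).comp
        (algebraMap k (ℬ 0))))
      (CommRingCat.ofHom (HomogeneousLocalization.Away.map f (s i)))) :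
    IsPullback (Proj.map f hf) (projStr ℬ) (projStr 𝒜)
      (Spec.map (CommRingCat.ofHom (algebraMap R k))) := by
  let 𝒰 : (Proj 𝒜).AffineOpenCover :=
    { I₀ := ι
      X := fun i => .of (HomogeneousLocalization.Away 𝒜 (s i))
      f := fun i => Proj.awayι 𝒜 (s i) (hs i) (hn i)
      idx := fun x => (TopologicalSpace.Opens.mem_iSup.mp (hcov.ge (Set.mem_univ x))).choose
      covers := fun x => by
        change x ∈ (Proj.awayι 𝒜 _ _ _).opensRange
        rw [Proj.opensRange_awayι]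
        exact (TopologicalSpace.Opens.mem_iSup.mp (hcov.ge (Set.mem_univ x))).choose_spec }
  refine Scheme.isPullback_of_openCover _ _ _ _ 𝒰.openCover fun (i : ι) => ?_
  have P1 := isPullback_awayι_map f hf (hn i) (s i) (hs i)
  have P2 := (isPullback_SpecMap_of_isPushout _ _ _ _ (hpush i)).flip
  refine IsPullback.of_iso P2 P1.isoPullback (Iso.refl _) (Iso.refl _) (Iso.refl _) ?_ ?_ ?_ ?_
  · exact (Category.comp_id _).trans P1.isoPullback_hom_snd.symm
  · refine (Category.comp_id _).trans ?_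
    change _ = P1.isoPullback.hom ≫ pullback.fst _ _ ≫ projStr ℬ
    refine Eq.trans ?_ (P1.isoPullback_hom_fst_assoc _).symm
    exact (awayι_projStr ℬ (hn i) (f (s i)) (f.2 (hs i))).symm
  · exact (Category.comp_id _).trans
      ((awayι_projStr 𝒜 (hn i) (s i) (hs i)).symm.trans (Category.id_comp _).symm)
  · exact (Category.comp_id _).trans (Category.id_comp _).symm

end Pool.Agent.FL
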