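import Pool.Agent.Helper66.FL.ArrDefs

open MvPolynomial AlgebraicGeometry HomogeneousLocalization CategoryTheory

universe u

namespace Pool.Agent.FL

namespace FLE

section General

variable {A B : Type u} [CommRing A] [CommRing B] [Algebra A B]

/-- elements of degree `n` of the graded ring lying in the ideal -/
def degPart (M : Submodule A B) (I : Ideal (coneRing M)) (n : ℕ) : Submodule A B where
  carrier := {b | ∃ hb : b ∈ M ^ n, hom n b hb ∈ I}
  add_mem' := by
    rintro x y ⟨hx, h1⟩ ⟨hy, h2⟩
    refine ⟨Submodule.add_mem _ hx hy, ?_⟩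
    have : hom n (x + y) (Submodule.add_mem _ hx hy) = hom n x hx + hom n y hy := by
      apply Subtype.ext
      change Polynomial.monomial n (x + y) = Polynomial.monomial n x + Polynomial.monomial n y
      rw [map_add]
    rw [this]
    exact I.add_mem h1 h2
  zero_mem' := by
    refine ⟨Submodule.zero_mem _, ?_⟩
    have : hom n (0 : B) (Submodule.zero_mem (M ^ n)) = 0 := by
      apply Subtype.ext
      change Polynomial.monomial n (0 : B) = 0
      rw [map_zero]
    rw [this]
    exact I.zero_mem
  smul_mem' := by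
    rintro a x ⟨hx, h1⟩
    refine ⟨Submodule.smul_mem _ _ hx, ?_⟩
    have : hom n (a • x) (Submodule.smul_mem _ a hx) = algebraMap A (coneRing M) a * hom n x hx := by
      rw [← Algebra.smul_def]
      apply Subtype.ext
      change Polynomial.monomial n (a • x) = a • Polynomial.monomial n x
      rw [Polynomial.smul_monomial]
    rw [this]
    exact I.mul_mem_left _ h1

lemma mem_degPart {M : Submodule A B} {I : Ideal (coneRing M)} {n : ℕ} {b : B} (hb : b ∈ M ^ n) :
    b ∈ degPart M I n ↔ hom n b hb ∈ I := ⟨fun ⟨_, h⟩ => h, fun h => ⟨hb, h⟩⟩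

lemma irrelevant_le {M : Submodule A B} {I : Ideal (coneRing M)}
    (h : M ≤ degPart M I 1) : (HomogeneousIdeal.irrelevant (coneGr M)).toIdeal ≤ I := by
  have key : ∀ n, M ^ (n + 1) ≤ degPart M I (n + 1) := by
    intro n
    induction n with
    | zero => rw [zero_add, pow_one]; exact h
    | succ n ih =>
      rw [pow_succ, Submodule.mul_le]
      intro x hx y hy
      obtain ⟨hx', h1⟩ := ih hx
      obtain ⟨hy', h2⟩ := h hy
      refine ⟨by rw [pow_succ]; exact Submodule.mul_mem_mul hx hy, ?_⟩
      have := hom_mul hx' hy'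
      rw [← this]
      exact I.mul_mem_left _ h2
  rw [HomogeneousIdeal.toIdeal_irrelevant_le]
  intro i hi p hp
  obtain ⟨n, rfl⟩ : ∃ n, i = n + 1 := ⟨i - 1, by omega⟩
  have hp' : p ∈ coneGr M (n + 1) := hp
  rw [eq_hom hp']
  exact (mem_degPart _).1 (key n (p.2 (n + 1)))

/-- comparison of products in degree two -/
lemma degPart_mul {M : Submodule A B} {I : Ideal (coneRing M)} (hI : I.IsPrime) {a b c d : B}
    (ha : a ∈ M) (hb : b ∈ M) (hc : c ∈ M) (hd : d ∈ M)
    (h : a * b = c * d) (h1 : a ∈ degPart M I 1) : c ∈ degPart M I 1 ∨ d ∈ degPart M I 1 := by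
  have e : ∀ {x : B}, x ∈ M → x ∈ M ^ 1 := fun hx => by rw [pow_one]; exact hx
  rw [mem_degPart (e hc), mem_degPart (e hd)]
  rw [mem_degPart (e ha)] at h1
  apply hI.mem_or_mem
  rw [hom_mul]
  have h2 := I.mul_mem_right (hom 1 b (e hb)) h1
  rw [hom_mul] at h2
  convert h2 using 2
  exact h.symm

lemma prod_mem_pow_card {M : Submodule A B} {ι : Type*}
    (f : ι → B) (hf : ∀ i, f i ∈ M) (S : Finset ι) : ∏ i ∈ S, f i ∈ M ^ S.card := by
  classical
  induction S using Finset.induction_on with
  | empty =>
    rw [Finset.prod_empty, Finset.card_empty, pow_zero]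
    exact Submodule.one_le.1 le_rfl
  | insert a S ha ih =>
    rw [Finset.prod_insert ha, Finset.card_insert_of_notMem ha, pow_succ']
    exact Submodule.mul_mem_mul (hf a) ih

lemma degPart_prod {M : Submodule A B} {I : Ideal (coneRing M)} (hI : I.IsPrime) {ι : Type*}
    (f : ι → B) (hf : ∀ i, f i ∈ M) (S : Finset ι) (h : ∀ i ∈ S, f i ∉ degPart M I 1) :
    ∏ i ∈ S, f i ∉ degPart M I S.card := by
  classical
  induction S using Finset.induction_on with
  | empty =>
    rintro ⟨h0, h1⟩
    apply hI.ne_top
    rw [Ideal.eq_top_iff_one]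
    convert h1 using 1
    apply Subtype.ext
    rw [hom_val, Finset.prod_empty, Finset.card_empty]
    rfl
  | insert a S ha ih =>
    rw [Finset.prod_insert ha, Finset.card_insert_of_notMem ha, add_comm]
    rintro ⟨h0, h1⟩
    have hS : ∏ i ∈ S, f i ∈ M ^ S.card := prod_mem_pow_card f hf S
    have ha1 : f a ∈ M ^ 1 := by rw [pow_one]; exact hf a
    rw [← hom_mul ha1 hS] at h1
    rcases hI.mem_or_mem h1 with h2 | h2
    · exact h a (Finset.mem_insert_self _ _) ⟨ha1, h2⟩
    · exact ih (fun i hi => h i (Finset.mem_insert_of_mem hi)) ⟨hS, h2⟩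

end General

end FLE

section Arr

variable {A : Type u} [CommRing A] {r : ℕ}

open FLE

theorem irrelevant_le_span (α β : Fin r → A) :
    (HomogeneousIdeal.irrelevant (coneGr (arrMod α β))).toIdeal ≤
      Ideal.span (Set.range fun x => hom (M := arrMod α β) 1 (gen α β x)
        (by rw [pow_one]; exact gen_mem α β x)) := by
  apply FLE.irrelevant_le
  conv_lhs => unfold arrMod
  rw [Submodule.span_le]
  rintro _ ⟨x, rfl⟩
  exact ⟨by rw [pow_one]; exact gen_mem α β x, Ideal.subset_span ⟨x, rfl⟩⟩

namespace FLE

/-- the coordinate used by the linear forms `lin l t` -/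
noncomputable def xB (A : Type u) [CommRing A] (t : Bool) : MvPolynomial (Fin 2) A :=
  bif t then X 1 else X 0

lemma xB_eq (t : Bool) : xB A t = coordW A (chartJ (r := r) (.inr t)) := by
  cases t <;> rfl

/-- the coordinate of the point in the direction `t` -/
def cB (α β : Fin r → A) (t : Bool) (l : Fin r) : A := bif t then β l else α l

lemma lin_eq (α β : Fin r → A) (l : Fin r) (t : Bool) : lin α β l t = xB A t - C (cB α β t l) := by
  cases t <;> rfl

lemma gen_zero (α β : Fin r → A) (c : Fin r → Bool) : gen α β (0, c) = prodLin α β c := by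
  simp [gen, coordW]

lemma prodLin_mem (α β : Fin r → A) (c : Fin r → Bool) : prodLin α β c ∈ arrMod α β := by
  rw [← gen_zero]; exact gen_mem _ _ _

lemma xB_mul_mem (α β : Fin r → A) (t : Bool) (c : Fin r → Bool) :
    xB A t * prodLin α β c ∈ arrMod α β := by
  rw [xB_eq (r := r)]
  exact gen_mem α β (_, c)

/-- exchanging one linear form -/
lemma lin_mul_prodLin (α β : Fin r → A) (c : Fin r → Bool) (l : Fin r) (t : Bool) :
    lin α β l t * prodLin α β c = lin α β l (c l) * prodLin α β (Function.update c l t) := by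
  classical
  unfold prodLin
  rw [← Finset.mul_prod_erase Finset.univ _ (Finset.mem_univ l),
    ← Finset.mul_prod_erase Finset.univ (fun i => lin α β i (Function.update c l t i))
      (Finset.mem_univ l), Function.update_self]
  have : ∏ i ∈ Finset.univ.erase l, lin α β i (Function.update c l t i) =
      ∏ i ∈ Finset.univ.erase l, lin α β i (c i) := by
    refine Finset.prod_congr rfl fun i hi => ?_
    rw [Function.update_of_ne (Finset.ne_of_mem_erase hi)]
  rw [this]
  ring

variable {α β : Fin r → A} {I : Ideal (coneRing (arrMod α β))}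

lemma chartElt_notMem (hI : I.IsPrime) (x : ChartIx r)
    (h1 : gen α β (chartJ x, chartC x) ∉ degPart (arrMod α β) I 1)
    (h2 : ∀ l ∈ chartD x, lin α β l (chartC x l) * prodLin α β (chartC x) ∉
      degPart (arrMod α β) I 1) : chartElt α β x ∉ I := by
  intro h
  unfold chartElt at h
  have e1 : chartF1 α β x ∈ arrMod α β ^ 1 := by rw [pow_one]; exact chartF1_mem _ _ _
  have e : hom ((chartD x).card + 1) (chartF1 α β x * chartF2 α β x) (chartF_mem α β x) =
      hom 1 (chartF1 α β x) e1 * hom (chartD x).card (chartF2 α β x) (chartF2_mem α β x) := by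
    rw [hom_mul]
    apply Subtype.ext
    rw [hom_val, hom_val, add_comm]
  rw [e] at h
  rcases hI.mem_or_mem h with h | h
  · exact h1 ⟨e1, h⟩
  · exact degPart_prod hI (fun l => lin α β l (chartC x l) * prodLin α β (chartC x))
      (fun l => lin_mul_mem _ _ _ _ _) (chartD x) h2 ⟨chartF2_mem α β x, h⟩

/-- a unit multiple of an element of `N` -/
lemma unit_smul {N : Submodule A (MvPolynomial (Fin 2) A)} {a : A} (ha : IsUnit a)
    {b : MvPolynomial (Fin 2) A} (h : C a * b ∈ N) : b ∈ N := by
  obtain ⟨a', ha'⟩ := ha.exists_left_inv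
  have h2 := N.smul_mem a' h
  rw [← C_mul', ← mul_assoc, ← C_mul, ha', C_1, one_mul] at h2
  exact h2

lemma caseA (hI : I.IsPrime) (hr : 0 < r)
    (hd : ∀ i j, i ≠ j → IsUnit (α i - α j) ∨ IsUnit (β i - β j))
    (c : Fin r → Bool) (hc : prodLin α β c ∉ degPart (arrMod α β) I 1) :
    ∃ i, chartElt α β (.inl (i, c)) ∉ I := by
  classical
  have hboth : ∀ l, lin α β l (c l) * prodLin α β c ∈ degPart (arrMod α β) I 1 →
      ∀ t, lin α β l t * prodLin α β c ∈ degPart (arrMod α β) I 1 := by
    intro l hl t
    have h := degPart_mul hI (lin_mul_mem α β l (c l) c) (prodLin_mem α β (Function.update c l t))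
      (lin_mul_mem α β l t c) (prodLin_mem α β c) (by
        rw [lin_mul_prodLin α β c l t]; ring) hl
    exact h.resolve_right hc
  have huniq : ∀ l l', lin α β l (c l) * prodLin α β c ∈ degPart (arrMod α β) I 1 →
      lin α β l' (c l') * prodLin α β c ∈ degPart (arrMod α β) I 1 → l = l' := by
    intro l l' hl hl'
    by_contra hne
    have hdiff : ∀ t, C (cB α β t l - cB α β t l') * prodLin α β c ∈
        degPart (arrMod α β) I 1 := by
      intro t
      have h1 := Submodule.sub_mem _ (hboth l' hl' t) (hboth l hl t)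
      rw [lin_eq, lin_eq] at h1
      convert h1 using 1
      rw [C_sub]; ring
    rcases hd l l' hne with h | h
    · exact hc (unit_smul h (hdiff false))
    · exact hc (unit_smul h (hdiff true))
  by_cases hex : ∃ l, lin α β l (c l) * prodLin α β c ∈ degPart (arrMod α β) I 1
  · obtain ⟨i, hi⟩ := hex
    refine ⟨i, chartElt_notMem hI _ ?_ ?_⟩
    · change gen α β (0, c) ∉ _
      rw [gen_zero]; exact hc
    · intro l hl h
      have hl' : l ∈ Finset.univ.erase i := hl
      exact Finset.ne_of_mem_erase hl' (huniq l i h hi)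
  · push Not at hex
    refine ⟨⟨0, hr⟩, chartElt_notMem hI _ ?_ ?_⟩
    · change gen α β (0, c) ∉ _
      rw [gen_zero]; exact hc
    · intro l _
      exact hex l

lemma sub_notMem {N : Submodule A (MvPolynomial (Fin 2) A)} (t : Bool) (l : Fin r)
    {c : Fin r → Bool} (h0 : prodLin α β c ∈ N) :
    lin α β l t * prodLin α β c ∈ N ↔ xB A t * prodLin α β c ∈ N := by
  have e : lin α β l t * prodLin α β c = xB A t * prodLin α β c - cB α β t l • prodLin α β c := by
    rw [lin_eq, sub_mul, C_mul']
  have h1 := N.smul_mem (cB α β t l) h0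
  rw [e]
  constructor
  · intro h
    have := N.add_mem h h1
    rwa [sub_add_cancel] at this
  · intro h
    exact N.sub_mem h h1

lemma caseB_flip (hI : I.IsPrime) (h0 : ∀ c, prodLin α β c ∈ degPart (arrMod α β) I 1) (t : Bool)
    (c : Fin r → Bool) (l : Fin r) (hl : c l = !t)
    (hc : xB A t * prodLin α β c ∉ degPart (arrMod α β) I 1) :
    xB A t * prodLin α β (Function.update c l t) ∉ degPart (arrMod α β) I 1 := by
  intro hcon
  have h1 : lin α β l t * prodLin α β c ∉ degPart (arrMod α β) I 1 := by
    rw [sub_notMem t l (h0 c)]; exact hc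
  rw [lin_mul_prodLin, hl, sub_notMem _ _ (h0 _)] at h1
  have h2 := degPart_mul hI (xB_mul_mem α β t (Function.update c l t)) (xB_mul_mem α β (!t) c)
    (xB_mul_mem α β (!t) (Function.update c l t)) (xB_mul_mem α β t c) (by ring) hcon
  rcases h2 with h2 | h2
  · exact h1 h2
  · exact hc h2

lemma caseB (hI : I.IsPrime) (h0 : ∀ c, prodLin α β c ∈ degPart (arrMod α β) I 1) (t : Bool)
    (c : Fin r → Bool) (hc : xB A t * prodLin α β c ∉ degPart (arrMod α β) I 1) :
    chartElt α β (.inr t) ∉ I := by
  classical
  have key : ∀ n : ℕ, ∀ c : Fin r → Bool, (Finset.univ.filter fun l => c l ≠ t).card = n →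
      xB A t * prodLin α β c ∉ degPart (arrMod α β) I 1 →
      xB A t * prodLin α β (fun _ => t) ∉ degPart (arrMod α β) I 1 := by
    intro n
    induction n with
    | zero =>
      intro c hn hc
      have : c = fun _ => t := by
        funext l
        by_contra hl
        have : l ∈ Finset.univ.filter fun l => c l ≠ t := by simp [hl]
        rw [Finset.card_eq_zero] at hn
        rw [hn] at this
        exact absurd this (Finset.notMem_empty l)
      rwa [this] at hc
    | succ n ih =>
      intro c hn hc
      obtain ⟨l, hl⟩ : (Finset.univ.filter fun l => c l ≠ t).Nonempty := by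
        rw [← Finset.card_pos, hn]; omega
      have hl' : c l ≠ t := (Finset.mem_filter.1 hl).2
      have hl2 : c l = !t := by
        cases hcl : c l <;> cases t <;> simp_all
      refine ih (Function.update c l t) ?_ (caseB_flip hI h0 t c l hl2 hc)
      have e : (Finset.univ.filter fun i => Function.update c l t i ≠ t) =
          (Finset.univ.filter fun i => c i ≠ t).erase l := by
        ext i
        by_cases hi : i = l
        · subst hi; simp
        · simp [hi]
      rw [e, Finset.card_erase_of_mem hl, hn]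
      rfl
  have hk := key _ c rfl hc
  refine chartElt_notMem hI _ ?_ ?_
  · change coordW A (chartJ (r := r) (.inr t)) * prodLin α β (fun _ => t) ∉ _
    rw [← xB_eq]; exact hk
  · intro l _
    change lin α β l t * prodLin α β (fun _ => t) ∉ _
    rw [sub_notMem _ _ (h0 _)]
    exact hk

end FLE

theorem iSup_basicOpen_chart (α β : Fin r → A) (hr : 0 < r)
    (hd : ∀ i j, i ≠ j → IsUnit (α i - α j) ∨ IsUnit (β i - β j)) :
    ⨆ x : ChartIx r, Proj.basicOpen (coneGr (arrMod α β)) (chartElt α β x) = ⊤ := by
  refine top_le_iff.mp fun P _ => TopologicalSpace.Opens.mem_iSup.mpr ?_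
  simp only [Proj.mem_basicOpen]
  have hI : P.asHomogeneousIdeal.toIdeal.IsPrime := P.isPrime
  by_cases h0 : ∀ c, prodLin α β c ∈ degPart (arrMod α β) P.asHomogeneousIdeal.toIdeal 1
  · have hex : ∃ t c, xB A t * prodLin α β c ∉
        degPart (arrMod α β) P.asHomogeneousIdeal.toIdeal 1 := by
      by_contra hcon
      push Not at hcon
      refine P.not_irrelevant_le (FLE.irrelevant_le ?_)
      conv_lhs => unfold arrMod
      rw [Submodule.span_le]
      rintro _ ⟨⟨j, c⟩, rfl⟩
      fin_cases j
      · change gen α β (0, c) ∈ degPart _ _ _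
        rw [gen_zero]; exact h0 c
      · exact hcon false c
      · exact hcon true c
    obtain ⟨t, c, hc⟩ := hex
    exact ⟨.inr t, caseB hI h0 t c hc⟩
  · push Not at h0
    obtain ⟨c, hc⟩ := h0
    obtain ⟨i, hi⟩ := caseA hI hr hd c hc
    exact ⟨_, hi⟩

end Arr

end Pool.Agent.FL
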