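import Pool.Agent.Helper66.FL.ArrDefs

open MvPolynomial AlgebraicGeometry HomogeneousLocalization CategoryTheory

universe u

namespace Pool.Agent.FL

variable {A : Type u} [CommRing A] {r : ℕ}

section F
variable {K : Type u} [CommRing K] [Algebra A K] (κ : MvPolynomial (Fin 2) A →ₐ[A] K)
  (α β : Fin r → A)

lemma kappa_coordW_zero : κ (coordW A 0) = 1 := by
  simp [coordW]

lemma kappa_lin_false (l : Fin r) : κ (lin α β l false) = κ (X 0) - algebraMap A K (α l) := by
  simp [lin, algHom_C]

lemma kappa_lin_true (l : Fin r) : κ (lin α β l true) = κ (X 1) - algebraMap A K (β l) := by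
  simp [lin, algHom_C]

theorem theta_coordP (hκ : IsGeneric α β κ) (x : ChartIx r) (j : Fin 3) :
    theta κ α β x (coordP α β x j) * κ (coordW A (chartJ x)) = κ (coordW A j) := by
  rcases x with ⟨i, c⟩ | b
  · have u := hκ.unit_lin i (c i)
    have h := Ring.inverse_mul_cancel _ u
    change theta κ α β (Sum.inl (i, c)) (coordP α β (Sum.inl (i, c)) j) * κ (coordW A 0) = _
    rw [kappa_coordW_zero, mul_one]
    unfold theta coordP chartST
    dsimp only
    cases hc : c i
    · rw [hc] at h
      fin_cases j
      · simp [coordW]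
      · simp [coordW, kappa_lin_false]
      · simp only [cond_false, Fin.isValue, Fin.reduceFinMk, Matrix.cons_val, map_add, map_mul,
          aeval_X, Matrix.cons_val_zero, Matrix.cons_val_one, Bool.not_false, aeval_C, coordW]
        rw [mul_comm (κ (lin α β i true)), ← mul_assoc, mul_comm (κ (lin α β i false)), h, one_mul,
          kappa_lin_true, sub_add_cancel]
    · rw [hc] at h
      fin_cases j
      · simp [coordW]
      · simp only [cond_true, Fin.isValue, map_add, map_mul,
          aeval_X, Matrix.cons_val_zero, Matrix.cons_val_one, Bool.not_true, aeval_C, coordW, Fin.mk_one]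
        rw [mul_comm (κ (lin α β i false)), ← mul_assoc, mul_comm (κ (lin α β i true)), h, one_mul,
          kappa_lin_false, sub_add_cancel]
      · simp [coordW, kappa_lin_true]
  · cases b
    · have u := hκ.unit_coord 1
      have h := Ring.inverse_mul_cancel _ u
      have e1 : coordW A 1 = X 0 := by simp [coordW]
      rw [e1] at h
      change theta κ α β (Sum.inr false) (coordP α β (Sum.inr false) j) * κ (coordW A 1) = _
      rw [e1]
      unfold theta coordP chartST
      fin_cases j
      · simp [coordW, h]
      · simp [coordW]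
      · simp [coordW, mul_assoc, h]
    · have u := hκ.unit_coord 2
      have h := Ring.inverse_mul_cancel _ u
      have e1 : coordW A 2 = X 1 := by simp [coordW]
      rw [e1] at h
      change theta κ α β (Sum.inr true) (coordP α β (Sum.inr true) j) * κ (coordW A 2) = _
      rw [e1]
      unfold theta coordP chartST
      fin_cases j
      · simp [coordW, h]
      · simp [coordW, mul_assoc, h]
      · simp [coordW]

theorem theta_linP (hκ : IsGeneric α β κ) (x : ChartIx r) (l : Fin r) (b : Bool) :
    theta κ α β x (linP α β x l b) * κ (coordW A (chartJ x)) = κ (lin α β l b) := by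
  have h0 := theta_coordP κ α β hκ x 0
  have h1 := theta_coordP κ α β hκ x 1
  have h2 := theta_coordP κ α β hκ x 2
  have e0 : coordW A 0 = 1 := by simp [coordW]
  have e1 : coordW A 1 = X 0 := by simp [coordW]
  have e2 : coordW A 2 = X 1 := by simp [coordW]
  rw [e0, map_one] at h0
  rw [e1] at h1
  rw [e2] at h2
  cases b
  · simp only [linP, cond_false]
    rw [kappa_lin_false, map_sub, map_mul, sub_mul, h1, mul_assoc, h0, mul_one]
    unfold theta
    rw [aeval_C]
  · simp only [linP, cond_true]
    rw [kappa_lin_true, map_sub, map_mul, sub_mul, h2, mul_assoc, h0, mul_one]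
    unfold theta
    rw [aeval_C]

/-- a criterion for injectivity -/
lemma inj_crit {P L : Type u} [CommRing P] [Algebra A P] [CommRing L] [Algebra A L]
    (κ : P →ₐ[A] K) (hκ : Function.Injective κ) (θ : MvPolynomial (Fin 2) A →ₐ[A] K)
    (ι : MvPolynomial (Fin 2) A →ₐ[A] L) (hι : Function.Injective ι) (ψ : P →ₐ[A] L) (w : P)
    (hw : ∀ y, y * ψ w = 0 → y = 0)
    (h : ∀ i, ∃ q, θ (X i) * κ w = κ q ∧ ι (X i) * ψ w = ψ q) : Function.Injective θ := by
  have key : ∀ p, ∃ (N : ℕ) (q : P), θ p * κ w ^ N = κ q ∧ ι p * ψ w ^ N = ψ q := by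
    intro p
    induction p using MvPolynomial.induction_on with
    | C a =>
      refine ⟨0, algebraMap A P a, ?_, ?_⟩
      · rw [pow_zero, mul_one, algHom_C, AlgHom.commutes]
      · rw [pow_zero, mul_one, algHom_C, AlgHom.commutes]
    | add p p' hp hp' =>
      obtain ⟨N, q, h1, h2⟩ := hp
      obtain ⟨N', q', h1', h2'⟩ := hp'
      refine ⟨N + N', q * w ^ N' + q' * w ^ N, ?_, ?_⟩
      · rw [map_add, map_add, map_mul, map_mul, ← h1, ← h1', map_pow, map_pow, pow_add]
        ring
      · rw [map_add, map_add, map_mul, map_mul, ← h2, ← h2', map_pow, map_pow, pow_add]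
        ring
    | mul_X p i hp =>
      obtain ⟨N, q, h1, h2⟩ := hp
      obtain ⟨q', h1', h2'⟩ := h i
      refine ⟨N + 1, q * q', ?_, ?_⟩
      · rw [map_mul, map_mul, ← h1, ← h1', pow_succ]
        ring
      · rw [map_mul, map_mul, ← h2, ← h2', pow_succ]
        ring
  have hw' : ∀ (N : ℕ) (y : L), y * ψ w ^ N = 0 → y = 0 := by
    intro N
    induction N with
    | zero => intro y hy; rwa [pow_zero, mul_one] at hy
    | succ N ih =>
      intro y hy
      rw [pow_succ, ← mul_assoc] at hy
      exact ih y (hw _ hy)
  rw [injective_iff_map_eq_zero]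
  intro p hp
  obtain ⟨N, q, h1, h2⟩ := key p
  rw [hp, zero_mul] at h1
  have h3 : q = 0 := hκ (by rw [← h1, map_zero])
  rw [h3, map_zero] at h2
  exact hι (by rw [hw' N _ h2, map_zero])

theorem theta_injective (hκ : IsGeneric α β κ) (x : ChartIx r) :
    Function.Injective (theta κ α β x) := by
  rcases x with ⟨i, c⟩ | b
  · have u := hκ.unit_lin i (c i)
    have h := Ring.inverse_mul_cancel _ u
    cases hc : c i
    · rw [hc] at h
      refine inj_crit κ hκ.inj _ (AlgHom.id A _) Function.injective_id
        (aeval ![X 0 + C (α i), X 0 * X 1 + C (β i)]) (lin α β i false) ?_ ?_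
      · intro y hy
        have e : (aeval ![X 0 + C (α i), X 0 * X 1 + C (β i)]) (lin α β i false) =
            (X 0 : MvPolynomial (Fin 2) A) := by
          simp [lin, MvPolynomial.algebraMap_eq]
        rw [e] at hy
        exact (isRegular_X (n := (0 : Fin 2))).right (by simpa using hy)
      · intro j
        unfold theta chartST
        fin_cases j
        · refine ⟨lin α β i false * lin α β i false, ?_, ?_⟩
          · simp [hc]
          · simp [lin, MvPolynomial.algebraMap_eq]
        · refine ⟨lin α β i true, ?_, ?_⟩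
          · simp [hc, mul_assoc, h]
          · simp [lin, MvPolynomial.algebraMap_eq, mul_comm]
    · rw [hc] at h
      refine inj_crit κ hκ.inj _ (AlgHom.id A _) Function.injective_id
        (aeval ![X 0 * X 1 + C (α i), X 0 + C (β i)]) (lin α β i true) ?_ ?_
      · intro y hy
        have e : (aeval ![X 0 * X 1 + C (α i), X 0 + C (β i)]) (lin α β i true) =
            (X 0 : MvPolynomial (Fin 2) A) := by
          simp [lin, MvPolynomial.algebraMap_eq]
        rw [e] at hy
        exact (isRegular_X (n := (0 : Fin 2))).right (by simpa using hy)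
      · intro j
        unfold theta chartST
        fin_cases j
        · refine ⟨lin α β i true * lin α β i true, ?_, ?_⟩
          · simp [hc]
          · simp [lin, MvPolynomial.algebraMap_eq]
        · refine ⟨lin α β i false, ?_, ?_⟩
          · simp [hc, mul_assoc, h]
          · simp [lin, MvPolynomial.algebraMap_eq, mul_comm]
  · let L := Localization.Away (X 0 : MvPolynomial (Fin 2) A)
    have hL : Function.Injective (Algebra.ofId (MvPolynomial (Fin 2) A) L |>.restrictScalars A) := by
      change Function.Injective (algebraMap (MvPolynomial (Fin 2) A) L)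
      apply IsLocalization.injective (M := Submonoid.powers (X 0 : MvPolynomial (Fin 2) A))
      rintro _ ⟨n, rfl⟩
      exact (isRegular_X_pow n).mem_nonZeroDivisors
    have hs : algebraMap (MvPolynomial (Fin 2) A) L (X 0) *
        IsLocalization.Away.invSelf (S := L) (X 0 : MvPolynomial (Fin 2) A) = 1 :=
      IsLocalization.Away.mul_invSelf _
    set v : L := IsLocalization.Away.invSelf (S := L) (X 0 : MvPolynomial (Fin 2) A) with hv
    have hreg : ∀ y : L, y * v = 0 → y = 0 := by
      intro y hy
      have : y * v * algebraMap (MvPolynomial (Fin 2) A) L (X 0) = 0 := by rw [hy, zero_mul]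
      rwa [mul_assoc, mul_comm v, hs, mul_one] at this
    cases b
    · have u := hκ.unit_coord 1
      have h := Ring.inverse_mul_cancel _ u
      have e1 : coordW A 1 = X 0 := by simp [coordW]
      rw [e1] at h
      refine inj_crit κ hκ.inj _ _ hL
        (aeval ![v, algebraMap (MvPolynomial (Fin 2) A) L (X 1) * v]) (X 0) ?_ ?_
      · intro y hy
        rw [aeval_X] at hy
        exact hreg y hy
      · intro j
        unfold theta chartST
        fin_cases j
        · refine ⟨1, ?_, ?_⟩
          · simp [h]
          · simpa using hs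
        · refine ⟨X 1, ?_, ?_⟩
          · simp [mul_assoc, h]
          · simp [Algebra.ofId_apply]
    · have u := hκ.unit_coord 2
      have h := Ring.inverse_mul_cancel _ u
      have e1 : coordW A 2 = X 1 := by simp [coordW]
      rw [e1] at h
      refine inj_crit κ hκ.inj _ _ hL
        (aeval ![algebraMap (MvPolynomial (Fin 2) A) L (X 1) * v, v]) (X 1) ?_ ?_
      · intro y hy
        rw [aeval_X] at hy
        exact hreg y hy
      · intro j
        unfold theta chartST
        fin_cases j
        · refine ⟨1, ?_, ?_⟩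
          · simp [h]
          · simpa using hs
        · refine ⟨X 0, ?_, ?_⟩
          · simp [mul_assoc, h]
          · simp [Algebra.ofId_apply]

lemma rho_fromZero (M : Submodule A (MvPolynomial (Fin 2) A)) {f : coneRing M}
    (hu : IsUnit (gev M κ.toRingHom f)) (a : A) :
    rho (gev M κ.toRingHom) (coneGr M) hu (fromZeroRingHom (coneGr M) (Submonoid.powers f)
        (algebraMap A (coneGr M 0) a)) = algebraMap A K a := by
  unfold rho
  rw [RingHom.comp_apply, HomogeneousLocalization.algebraMap_apply]
  have h1 : (fromZeroRingHom (coneGr M) (Submonoid.powers f) (algebraMap A (coneGr M 0) a)).val =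
      algebraMap (coneRing M) _ (algebraMap A (coneGr M 0) a).1 := by
    change (HomogeneousLocalization.mk _).val = _
    rw [HomogeneousLocalization.val_mk]
    exact Localization.mk_one_eq_algebraMap _
  rw [h1]
  have h2 : Localization.awayLift (gev M κ.toRingHom) f hu
      (algebraMap (coneRing M) _ (algebraMap A (coneGr M 0) a).1) =
      gev M κ.toRingHom (algebraMap A (coneGr M 0) a).1 := IsLocalization.Away.lift_eq _ _ _
  rw [h2]
  change κ (Polynomial.eval 1 (Polynomial.C (algebraMap A (MvPolynomial (Fin 2) A) a))) = _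
  rw [Polynomial.eval_C, AlgHom.commutes]

lemma isUnit_kappa_prodLin (hκ : IsGeneric α β κ) (c : Fin r → Bool) :
    IsUnit (κ (prodLin α β c)) := by
  unfold prodLin
  rw [map_prod, IsUnit.prod_univ_iff]
  exact fun i => hκ.unit_lin _ _

lemma isUnit_kappa_gen (hκ : IsGeneric α β κ) (y : Fin 3 × (Fin r → Bool)) :
    IsUnit (κ (gen α β y)) := by
  unfold gen
  rw [map_mul]
  exact (hκ.unit_coord _).mul (isUnit_kappa_prodLin κ α β hκ _)

lemma isUnit_kappa_F1 (hκ : IsGeneric α β κ) (x : ChartIx r) : IsUnit (κ (chartF1 α β x)) :=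
  isUnit_kappa_gen κ α β hκ _

lemma isUnit_kappa_F2 (hκ : IsGeneric α β κ) (x : ChartIx r) : IsUnit (κ (chartF2 α β x)) := by
  unfold chartF2
  rw [map_prod]
  refine Finset.prod_induction _ IsUnit (fun _ _ => IsUnit.mul) isUnit_one fun l _ => ?_
  rw [map_mul]
  exact (hκ.unit_lin _ _).mul (isUnit_kappa_prodLin κ α β hκ _)

lemma kappa_prodLin (hκ : IsGeneric α β κ) (x : ChartIx r) (c : Fin r → Bool) :
    κ (prodLin α β c) = theta κ α β x (∏ l, linP α β x l (c l)) * κ (coordW A (chartJ x)) ^ r := by
  unfold prodLin
  rw [map_prod, map_prod]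
  calc ∏ l, κ (lin α β l (c l)) = ∏ l, (theta κ α β x (linP α β x l (c l)) *
        κ (coordW A (chartJ x))) := Finset.prod_congr rfl fun l _ => (theta_linP κ α β hκ x l _).symm
    _ = _ := by rw [Finset.prod_mul_distrib, Finset.prod_const, Finset.card_univ, Fintype.card_fin]

/-- the quotient of two linear forms on the exceptional curve of the chart -/
lemma exists_quot (x : ChartIx r) (c : Fin r → Bool) : ∃ E : MvPolynomial (Fin 2) A,
    (∏ l, linP α β x l (c l)) * (∏ l ∈ chartD x, linP α β x l (chartC x l)) =
    (∏ l ∈ chartD x, linP α β x l (c l)) * E * ∏ l, linP α β x l (chartC x l) := by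
  rcases x with ⟨i, c'⟩ | b
  · have key : ∃ E : MvPolynomial (Fin 2) A, linP α β (Sum.inl (i, c')) i (c i) =
        E * linP α β (Sum.inl (i, c')) i (c' i) := by
      by_cases h : c i = c' i
      · exact ⟨1, by rw [h, one_mul]⟩
      · refine ⟨X 1, ?_⟩
        cases h1 : c i <;> cases h2 : c' i
        · exact absurd (h1.trans h2.symm) h
        · simp [linP, coordP, h2, mul_comm]
        · simp [linP, coordP, h2, mul_comm]
        · exact absurd (h1.trans h2.symm) h
    obtain ⟨E, hE⟩ := key
    refine ⟨E, ?_⟩
    change _ * (∏ l ∈ Finset.univ.erase i, linP α β (Sum.inl (i, c')) l (c' l)) =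
      (∏ l ∈ Finset.univ.erase i, linP α β (Sum.inl (i, c')) l (c l)) * E *
        ∏ l, linP α β (Sum.inl (i, c')) l (c' l)
    rw [← Finset.mul_prod_erase Finset.univ (fun l => linP α β (Sum.inl (i, c')) l (c l))
      (Finset.mem_univ i), ← Finset.mul_prod_erase Finset.univ
      (fun l => linP α β (Sum.inl (i, c')) l (c' l)) (Finset.mem_univ i), hE]
    ring
  · refine ⟨1, ?_⟩
    change _ * (∏ l, linP α β (Sum.inr b) l (chartC (Sum.inr b) l)) =
      (∏ l, linP α β (Sum.inr b) l (c l)) * 1 * _
    rw [mul_one]

lemma theta_h (hκ : IsGeneric α β κ) (x : ChartIx r) :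
    theta κ α β x (chartH α β x) * κ (chartF1 α β x) ^ (chartD x).card = κ (chartF2 α β x) := by
  unfold chartH chartF2
  rw [map_prod, map_prod, ← Finset.prod_const, ← Finset.prod_mul_distrib]
  refine Finset.prod_congr rfl fun l _ => ?_
  unfold chartF1 gen
  rw [map_mul, map_mul, ← mul_assoc, theta_linP κ α β hκ]

lemma gen_quot (hκ : IsGeneric α β κ) (x : ChartIx r) (φ : MvPolynomial (Fin 2) A)
    (hφ : φ ∈ arrMod α β) : ∃ (p : MvPolynomial (Fin 2) A) (m : ℕ),
      κ φ * theta κ α β x (chartH α β x) ^ m = theta κ α β x p * κ (chartF1 α β x) := by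
  suffices h : ∃ p : MvPolynomial (Fin 2) A,
      κ φ * theta κ α β x (chartH α β x) = theta κ α β x p * κ (chartF1 α β x) by
    obtain ⟨p, hp⟩ := h
    exact ⟨p, 1, by rw [pow_one, hp]⟩
  unfold arrMod at hφ
  induction hφ using Submodule.span_induction with
  | mem y hy =>
    obtain ⟨⟨j, c⟩, rfl⟩ := hy
    obtain ⟨E, hE⟩ := exists_quot α β x c
    refine ⟨coordP α β x j * ((∏ l ∈ chartD x, linP α β x l (c l)) * E), ?_⟩
    have h1 := congrArg (theta κ α β x) hE
    rw [map_mul, map_mul] at h1
    unfold chartF1 gen chartH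
    simp only
    rw [map_mul κ, map_mul κ, kappa_prodLin κ α β hκ x c, kappa_prodLin κ α β hκ x (chartC x),
      ← theta_coordP κ α β hκ x j, map_mul (theta κ α β x) (coordP α β x j)]
    linear_combination (theta κ α β x (coordP α β x j) * κ (coordW A (chartJ x)) *
      κ (coordW A (chartJ x)) ^ r) * h1
  | zero => exact ⟨0, by simp⟩
  | add y y' _ _ h h' =>
    obtain ⟨p, hp⟩ := h
    obtain ⟨p', hp'⟩ := h'
    refine ⟨p + p', ?_⟩
    rw [map_add, map_add, add_mul, add_mul, hp, hp']
  | smul a y _ h =>
    obtain ⟨p, hp⟩ := h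
    refine ⟨a • p, ?_⟩
    rw [map_smul, map_smul, smul_mul_assoc, smul_mul_assoc, hp]

lemma theta_X (hκ : IsGeneric α β κ) (x : ChartIx r) (s : MvPolynomial (Fin 2) A)
    (hs : s ∈ Set.range (X : Fin 2 → MvPolynomial (Fin 2) A)) :
    ∃ φ ∈ arrMod α β, theta κ α β x s * κ (chartF1 α β x) = κ φ := by
  obtain ⟨j, rfl⟩ := hs
  rcases x with ⟨i, c⟩ | b
  · have u := hκ.unit_lin i (c i)
    have h := Ring.inverse_mul_cancel _ u
    have e : chartF1 α β (Sum.inl (i, c)) = prodLin α β c := by
      simp [chartF1, gen, chartJ, chartC, coordW]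
    rw [e]
    fin_cases j
    · refine ⟨lin α β i (c i) * prodLin α β c, lin_mul_mem _ _ _ _ _, ?_⟩
      simp [theta, chartST]
    · refine ⟨gen α β (0, Function.update c i (!c i)), gen_mem _ _ _, ?_⟩
      have h1 : prodLin α β c = lin α β i (c i) * ∏ l ∈ Finset.univ.erase i, lin α β l (c l) :=
        (Finset.mul_prod_erase Finset.univ (fun l => lin α β l (c l)) (Finset.mem_univ i)).symm
      have h2 : prodLin α β (Function.update c i (!c i)) =
          lin α β i (!c i) * ∏ l ∈ Finset.univ.erase i, lin α β l (c l) := by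
        unfold prodLin
        rw [← Finset.mul_prod_erase Finset.univ _ (Finset.mem_univ i), Function.update_self]
        congr 1
        refine Finset.prod_congr rfl fun l hl => ?_
        rw [Function.update_of_ne (Finset.ne_of_mem_erase hl)]
      have h3 : gen α β (0, Function.update c i (!c i)) =
          prodLin α β (Function.update c i (!c i)) := by simp [gen, coordW]
      rw [h3, h2, h1, map_mul, map_mul]
      have h4 : theta κ α β (Sum.inl (i, c)) (X 1) =
          κ (lin α β i (!c i)) * Ring.inverse (κ (lin α β i (c i))) := by simp [theta, chartST]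
      change theta κ α β (Sum.inl (i, c)) (X 1) * _ = _
      rw [h4]
      linear_combination (κ (lin α β i (!c i)) *
        κ (∏ l ∈ Finset.univ.erase i, lin α β l (c l))) * h
  · cases b
    · have u := hκ.unit_coord 1
      have h := Ring.inverse_mul_cancel _ u
      have e1 : coordW A 1 = X 0 := by simp [coordW]
      rw [e1] at h
      fin_cases j
      · refine ⟨gen α β (0, chartC (Sum.inr false)), gen_mem _ _ _, ?_⟩
        simp only [theta, chartST, chartF1, gen, chartJ, coordW, map_mul, aeval_X]
        simp [← mul_assoc, h]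
      · refine ⟨gen α β (2, chartC (Sum.inr false)), gen_mem _ _ _, ?_⟩
        simp only [theta, chartST, chartF1, gen, chartJ, coordW, map_mul, aeval_X]
        simp only [Fin.mk_one, Fin.isValue, Matrix.cons_val_one, Matrix.cons_val, Matrix.cons_val_zero,
          Matrix.cons_val_fin_one]
        linear_combination (κ (X 1) * κ (prodLin α β (chartC (Sum.inr false)))) * h
    · have u := hκ.unit_coord 2
      have h := Ring.inverse_mul_cancel _ u
      have e1 : coordW A 2 = X 1 := by simp [coordW]
      rw [e1] at h
      fin_cases j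
      · refine ⟨gen α β (0, chartC (Sum.inr true)), gen_mem _ _ _, ?_⟩
        simp only [theta, chartST, chartF1, gen, chartJ, coordW, map_mul, aeval_X]
        simp [← mul_assoc, h]
      · refine ⟨gen α β (1, chartC (Sum.inr true)), gen_mem _ _ _, ?_⟩
        simp only [theta, chartST, chartF1, gen, chartJ, coordW, map_mul, aeval_X]
        simp only [Fin.mk_one, Fin.isValue, Matrix.cons_val_one, Matrix.cons_val, Matrix.cons_val_zero,
          Matrix.cons_val_fin_one]
        linear_combination (κ (X 0) * κ (prodLin α β (chartC (Sum.inr true)))) * h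

theorem exists_chart_arr (hκ : IsGeneric α β κ) (x : ChartIx r) :
    ∃ (hu : IsUnit (gev (arrMod α β) κ.toRingHom (chartElt α β x)))
      (ψ : MvPolynomial (Fin 2) A →+* Away (coneGr (arrMod α β)) (chartElt α β x)),
      (∀ p, rho (gev (arrMod α β) κ.toRingHom) (coneGr (arrMod α β)) hu (ψ p) = theta κ α β x p) ∧
      (∀ a, ψ (C a) = fromZeroRingHom (coneGr (arrMod α β)) (Submonoid.powers (chartElt α β x))
        (algebraMap A (coneGr (arrMod α β) 0) a)) ∧
      @IsLocalization.Away _ _ (chartH α β x) _ _ ψ.toAlgebra := by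
  have hu : IsUnit (gev (arrMod α β) κ.toRingHom (chartElt α β x)) := by
    unfold chartElt
    rw [gev_hom]
    change IsUnit (κ (chartF1 α β x * chartF2 α β x))
    rw [map_mul]
    exact (isUnit_kappa_F1 κ α β hκ x).mul (isUnit_kappa_F2 κ α β hκ x)
  obtain ⟨ψ, h1, h2⟩ := exists_chart (arrMod α β) κ (theta κ α β x) hκ.inj
    (theta_injective κ α β hκ x) (chartF1_mem α β x) (chartF2_mem α β x) (chartF_mem α β x)
    (isUnit_kappa_F1 κ α β hκ x) (isUnit_kappa_F2 κ α β hκ x) hu (chartH α β x)
    (theta_h κ α β hκ x) (gen_quot κ α β hκ x) (Set.range X) adjoin_range_X (theta_X κ α β hκ x)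
  refine ⟨hu, ψ, h1, ?_, h2⟩
  intro a
  apply rho_injective _ (gev_zero _ _ hκ.inj) hu (chartElt_mem α β x)
  refine (h1 (C a)).trans ?_
  rw [rho_fromZero]
  unfold theta
  rw [aeval_C]

end F

end Pool.Agent.FL
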