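import Pool.Agent.Helper66.FL.ArrDefs

/-!
Module G for MP_b2373b_ag: the frame matrices.
-/

open MvPolynomial AlgebraicGeometry HomogeneousLocalization CategoryTheory

universe u

namespace Pool.Agent.FL

variable {A : Type u} [CommRing A] {r : ℕ}

namespace GAux

/-! ### the Pascal matrix -/

/-- the matrix of the substitution `X ↦ X - u` on the monomials of degree less than `q` -/
def pas (u : A) (q : ℕ) : Matrix (Fin q) (Fin q) A :=
  Matrix.of fun k m => ((m : ℕ).choose k : A) * (-u) ^ ((m : ℕ) - k)

lemma pas_eq_coeff (u : A) (q : ℕ) (k m : Fin q) :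
    pas u q k m = ((Polynomial.X - Polynomial.C u) ^ (m : ℕ)).coeff k := by
  rw [sub_eq_add_neg, ← Polynomial.C_neg, Polynomial.coeff_X_add_C_pow]
  simp only [pas, Matrix.of_apply]
  ring

lemma pas_mul (u : A) (q : ℕ) : pas u q * pas (-u) q = 1 := by
  ext k l
  rw [Matrix.mul_apply]
  have h1 : ((Polynomial.X + Polynomial.C u) ^ (l : ℕ) : Polynomial A).comp
      (Polynomial.X - Polynomial.C u) = Polynomial.X ^ (l : ℕ) := by
    rw [Polynomial.pow_comp, Polynomial.add_comp, Polynomial.X_comp, Polynomial.C_comp,
      sub_add_cancel]
  have hdeg : ((Polynomial.X + Polynomial.C u) ^ (l : ℕ) : Polynomial A).natDegree < q := by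
    refine lt_of_le_of_lt ?_ l.2
    refine Polynomial.natDegree_pow_le.trans ?_
    calc (l : ℕ) * (Polynomial.X + Polynomial.C u).natDegree ≤ (l : ℕ) * 1 :=
          Nat.mul_le_mul_left _ (by
            rw [Polynomial.natDegree_add_C]; exact Polynomial.natDegree_X_le)
      _ = l := mul_one _
  have h2 := congrArg (fun p : Polynomial A => p.coeff k) h1
  simp only [Polynomial.comp, Polynomial.eval₂_eq_sum_range' _ hdeg,
    Polynomial.finsetSum_coeff, Polynomial.coeff_C_mul, Polynomial.coeff_X_pow] at h2
  rw [Finset.sum_range] at h2
  have h3 : (1 : Matrix (Fin q) (Fin q) A) k l = if (k : ℕ) = l then 1 else 0 := by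
    rw [Matrix.one_apply]
    simp only [Fin.ext_iff]
  rw [h3, ← h2]
  refine Finset.sum_congr rfl fun m _ => ?_
  rw [pas_eq_coeff, pas_eq_coeff, Polynomial.C_neg, sub_neg_eq_add, mul_comm]

open Kronecker in
lemma constMat_inl (u v : Fin r → A) (q : ℕ) (y : Fin r × (Fin r → Bool)) :
    constMat u v q (.inl y) = pas (u y.1) q ⊗ₖ pas (v y.1) q := by
  ext k m
  simp only [constMat, pas, Matrix.of_apply, Matrix.kroneckerMap_apply]
  ring

open Kronecker in
lemma constMat_mul (u v : Fin r → A) (q : ℕ) (x : ChartIx r) :
    constMat u v q x * constMat (-u) (-v) q x = 1 := by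
  match x with
  | .inl y =>
    rw [constMat_inl, constMat_inl, ← Matrix.mul_kronecker_mul, Pi.neg_apply, Pi.neg_apply,
      pas_mul, pas_mul, Matrix.one_kronecker_one]
  | .inr _ => exact mul_one _

lemma constMat_mul' (u v : Fin r → A) (q : ℕ) (x : ChartIx r) :
    constMat (-u) (-v) q x * constMat u v q x = 1 := by
  have h := constMat_mul (-u) (-v) q x
  rwa [neg_neg, neg_neg] at h

/-- the constant matrices of two charts at the same point agree -/
lemma constMat_inl_eq (u v : Fin r → A) (q : ℕ) (i : Fin r) (c c' : Fin r → Bool) :
    constMat u v q (.inl (i, c)) = constMat u v q (.inl (i, c')) := rfl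

variable {K : Type u} [CommRing K] [Algebra A K] {κ : MvPolynomial (Fin 2) A →ₐ[A] K}
  {α β : Fin r → A}

lemma ringInverse_isUnit {R : Type*} [CommRing R] {z : R} (h : IsUnit z) :
    IsUnit (Ring.inverse z) := h.ringInverse

lemma mul_inv {R : Type*} [CommRing R] {z : R} (h : IsUnit z) : z * Ring.inverse z = 1 :=
  Ring.mul_inverse_cancel z h

lemma isUnit_X0 (hκ : IsGeneric α β κ) : IsUnit (κ (X 0)) := by
  have := hκ.unit_coord 1; simpa [coordW] using this

lemma isUnit_X1 (hκ : IsGeneric α β κ) : IsUnit (κ (X 1)) := by
  have := hκ.unit_coord 2; simpa [coordW] using this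

lemma isUnit_st (hκ : IsGeneric α β κ) (x : ChartIx r) : IsUnit (chartST κ α β x 0) := by
  match x with
  | .inl (i, c) => exact hκ.unit_lin i (c i)
  | .inr false => exact (isUnit_X0 hκ).ringInverse
  | .inr true => exact (isUnit_X1 hκ).ringInverse

lemma twist_mul (hκ : IsGeneric α β κ) (q : ℕ) (x : ChartIx r) (m : MonIx q) :
    twistEntry κ α β q x m * twistInv κ α β q x m = 1 := by
  have h := mul_inv (isUnit_st hκ x)
  match x with
  | .inl y =>
    simp only [twistEntry, twistInv]
    split
    · rw [mul_comm]; exact h
    · exact mul_one _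
  | .inr b =>
    simp only [twistEntry, twistInv]
    rw [← mul_pow, h, one_pow]

lemma ct (a : A) : κ (C a) = algebraMap A K a := κ.commutes a

lemma theta_C (x : ChartIx r) (a : A) : theta κ α β x (C a) = algebraMap A K a :=
  (theta κ α β x).commutes a

lemma theta_X (x : ChartIx r) (j : Fin 2) : theta κ α β x (X j) = chartST κ α β x j := by
  unfold theta; rw [aeval_X]

lemma coordP_aux (hκ : IsGeneric α β κ) (x : ChartIx r) (j : Fin 3) :
    theta κ α β x (coordP α β x j) * κ (coordW A (chartJ x)) = κ (coordW A j) := by
  match x with
  | .inl (i, c) =>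
    have hu := mul_inv (hκ.unit_lin i (c i))
    rcases hc : c i with _ | _
    · rw [hc] at hu
      fin_cases j
      · simp [coordP, coordW, chartJ, hc]
      · simp only [coordP, hc, cond_false, coordW, chartJ, Fin.mk_one, Matrix.cons_val_zero,
          Matrix.cons_val_one, map_add, theta_X, theta_C, chartST, map_one, mul_one]
        simp only [lin, cond_false, map_sub, ct]
        ring
      · simp only [coordP, hc, cond_false, coordW, chartJ, Fin.reduceFinMk, Matrix.cons_val_zero,
          Matrix.cons_val_one, Matrix.cons_val, map_add, map_mul, theta_X, theta_C, chartST,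
          map_one, mul_one, Bool.not_false]
        have e : κ (lin α β i true) = κ (X 1) - algebraMap A K (β i) := by
          simp only [lin, cond_true, map_sub, ct]
        linear_combination (κ (lin α β i true)) * hu + e
    · rw [hc] at hu
      fin_cases j
      · simp [coordP, coordW, chartJ, hc]
      · simp only [coordP, hc, cond_true, coordW, chartJ, Fin.mk_one, Matrix.cons_val_zero,
          Matrix.cons_val_one, map_add, map_mul, theta_X, theta_C, chartST, map_one, mul_one,
          Bool.not_true]
        have e : κ (lin α β i false) = κ (X 0) - algebraMap A K (α i) := by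
          simp only [lin, cond_false, map_sub, ct]
        linear_combination (κ (lin α β i false)) * hu + e
      · simp only [coordP, hc, cond_true, coordW, chartJ, Fin.reduceFinMk, Matrix.cons_val_zero,
          Matrix.cons_val, map_add, theta_X, theta_C, chartST, map_one, mul_one]
        simp only [lin, cond_true, map_sub, ct]
        ring
  | .inr false =>
    have hu := mul_inv (isUnit_X0 hκ)
    fin_cases j
    · simp only [coordP, coordW, chartJ, Fin.zero_eta, Matrix.cons_val_zero, Matrix.cons_val_one,
        theta_X, chartST, map_one]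
      linear_combination hu
    · simp only [coordP, coordW, chartJ, Fin.mk_one, Matrix.cons_val_zero, Matrix.cons_val_one,
        theta_X, chartST, map_one, one_mul]
    · simp only [coordP, coordW, chartJ, Fin.reduceFinMk, Matrix.cons_val_zero, Matrix.cons_val,
        Matrix.cons_val_one, theta_X, chartST]
      linear_combination (κ (X 1)) * hu
  | .inr true =>
    have hu := mul_inv (isUnit_X1 hκ)
    fin_cases j
    · simp only [coordP, coordW, chartJ, Fin.zero_eta, Matrix.cons_val_zero, Matrix.cons_val,
        theta_X, chartST, map_one]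
      linear_combination hu
    · simp only [coordP, coordW, chartJ, Fin.mk_one, Matrix.cons_val_zero, Matrix.cons_val_one,
        Matrix.cons_val, theta_X, chartST]
      linear_combination (κ (X 0)) * hu
    · simp only [coordP, coordW, chartJ, Fin.reduceFinMk, Matrix.cons_val_zero, Matrix.cons_val,
        theta_X, chartST, map_one, one_mul]

lemma linP_aux (hκ : IsGeneric α β κ) (x : ChartIx r) (l : Fin r) (b : Bool) :
    theta κ α β x (linP α β x l b) * κ (coordW A (chartJ x)) = κ (lin α β l b) := by
  have h0 := coordP_aux hκ x 0
  have h1 := coordP_aux hκ x 1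
  have h2 := coordP_aux hκ x 2
  have w0 : κ (coordW A 0) = 1 := by simp [coordW]
  have w1 : κ (coordW A 1) = κ (X 0) := by simp [coordW]
  have w2 : κ (coordW A 2) = κ (X 1) := by simp [coordW]
  cases b
  · simp only [linP, lin, cond_false, map_sub, map_mul, theta_C, ct]
    rw [w0] at h0; rw [w1] at h1
    linear_combination h1 - (algebraMap A K (α l)) * h0
  · simp only [linP, lin, cond_true, map_sub, map_mul, theta_C, ct]
    rw [w0] at h0; rw [w2] at h2
    linear_combination h2 - (algebraMap A K (β l)) * h0

section overlap

variable {O : Subalgebra A K}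

/-- units of the subring `O` -/
def UO (O : Subalgebra A K) (z : K) : Prop := z ∈ O ∧ ∃ w ∈ O, z * w = 1

lemma UO.inv_mem {z : K} (h : UO O z) : Ring.inverse z ∈ O := by
  obtain ⟨_, w, hw, hzw⟩ := h
  have hz : IsUnit z := IsUnit.of_mul_eq_one _ hzw
  have : Ring.inverse z = w := by
    have h1 := mul_inv hz
    calc Ring.inverse z = Ring.inverse z * (z * w) := by rw [hzw, mul_one]
      _ = (z * Ring.inverse z) * w := by ring
      _ = w := by rw [h1, one_mul]
  rw [this]; exact hw

lemma UO.of_mem {z : K} (hz : IsUnit z) (h : z ∈ O) (h' : Ring.inverse z ∈ O) : UO O z :=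
  ⟨h, _, h', mul_inv hz⟩

lemma UO.of_mul {z w : K} (h : UO O (z * w)) (hz : z ∈ O) (hw : w ∈ O) : UO O z := by
  obtain ⟨_, t, ht, h1⟩ := h
  exact ⟨hz, w * t, O.mul_mem hw ht, by rw [← mul_assoc]; exact h1⟩

lemma UO.mul {z w : K} (h : UO O z) (h' : UO O w) : UO O (z * w) := by
  obtain ⟨hz, t, ht, h1⟩ := h
  obtain ⟨hw, t', ht', h2⟩ := h'
  exact ⟨O.mul_mem hz hw, t * t', O.mul_mem ht ht', by
    linear_combination (w * t') * h1 + h2⟩

/-- the linear forms used in the chart are units on the chart -/
lemma UO_linP (hκ : IsGeneric α β κ) {x : ChartIx r} (hx : ∀ p, theta κ α β x p ∈ O)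
    (hx' : Ring.inverse (theta κ α β x (chartH α β x)) ∈ O) {l : Fin r} (hl : l ∈ chartD x) :
    UO O (theta κ α β x (linP α β x l (chartC x l))) := by
  have hunit : ∀ l b, IsUnit (theta κ α β x (linP α β x l b)) := by
    intro l b
    have h := hκ.unit_lin l b
    rw [← linP_aux hκ x l b] at h
    exact isUnit_of_mul_isUnit_left h
  have hH : IsUnit (theta κ α β x (chartH α β x)) := by
    unfold chartH
    rw [map_prod]
    exact (IsUnit.prod_iff (s := chartD x)).2 fun l _ => hunit l _
  have h1 : UO O (theta κ α β x (chartH α β x)) := UO.of_mem hH (hx _) hx'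
  unfold chartH at h1
  rw [← Finset.mul_prod_erase _ _ hl, map_mul] at h1
  exact h1.of_mul (hx _) (hx _)

/-- on a finite chart at `j`, if one linear form through `j` is a unit then so is the
coordinate -/
lemma UO_st {j : Fin r} {c : Fin r → Bool} (hκ : IsGeneric α β κ)
    (hy : ∀ p, theta κ α β (.inl (j, c)) p ∈ O) {b : Bool} (hb : UO O (κ (lin α β j b))) :
    UO O (chartST κ α β (.inl (j, c)) 0) := by
  have h0 : chartST κ α β (.inl (j, c)) 0 ∈ O := by
    have := hy (X 0); rwa [theta_X] at this
  have h1 : chartST κ α β (.inl (j, c)) 1 ∈ O := by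
    have := hy (X 1); rwa [theta_X] at this
  by_cases hbc : b = c j
  · subst hbc; exact hb
  · have hbc' : b = !c j := by cases b <;> cases hc : c j <;> simp_all
    have e : chartST κ α β (.inl (j, c)) 0 * chartST κ α β (.inl (j, c)) 1 =
        κ (lin α β j b) := by
      simp only [chartST, Matrix.cons_val_zero, Matrix.cons_val_one]
      rw [hbc']
      linear_combination (κ (lin α β j (!c j))) * mul_inv (hκ.unit_lin j (c j))
    rw [← e] at hb
    exact hb.of_mul h0 h1

end overlap

lemma red_inverse {K L : Type*} [CommRing K] [CommRing L] (red : K →+* L) {z : K}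
    (hz : IsUnit z) : red (Ring.inverse z) = Ring.inverse (red z) := by
  have h1 := congrArg red (mul_inv hz)
  rw [map_mul, map_one] at h1
  have h2 := mul_inv (hz.map red)
  calc red (Ring.inverse z) = red (Ring.inverse z) * (red z * Ring.inverse (red z)) := by
        rw [h2, mul_one]
    _ = (red z * red (Ring.inverse z)) * Ring.inverse (red z) := by ring
    _ = Ring.inverse (red z) := by rw [h1, one_mul]

end GAux

open GAux

section G
variable {K : Type u} [CommRing K] [Algebra A K] (κ : MvPolynomial (Fin 2) A →ₐ[A] K)
  (α β u v : Fin r → A)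

theorem frameG_mul (hκ : IsGeneric α β κ) (q : ℕ) (x : ChartIx r) :
    frameG κ α β u v q x * frameG' κ α β u v q x = 1 := by
  unfold frameG frameG'
  rw [Matrix.mul_assoc, ← Matrix.mul_assoc (Matrix.diagonal _) (Matrix.diagonal _),
    Matrix.diagonal_mul_diagonal]
  simp only [twist_mul hκ]
  rw [Matrix.diagonal_one, Matrix.one_mul, ← Matrix.map_mul, constMat_mul,
    Matrix.map_one _ (map_zero _) (map_one _)]

theorem frameG'_mul (hκ : IsGeneric α β κ) (q : ℕ) (x : ChartIx r) :
    frameG' κ α β u v q x * frameG κ α β u v q x = 1 := by
  exact mul_eq_one_comm.1 (frameG_mul κ α β u v hκ q x)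

/-- `O` is any subring of `K` containing the coordinate rings of the charts `x` and `y`
(functions on the overlap). -/
theorem frameG_mem (hκ : IsGeneric α β κ) (q : ℕ) (x y : ChartIx r) (O : Subalgebra A K)
    (hx : ∀ p, theta κ α β x p ∈ O) (hx' : Ring.inverse (theta κ α β x (chartH α β x)) ∈ O)
    (hy : ∀ p, theta κ α β y p ∈ O) (hy' : Ring.inverse (theta κ α β y (chartH α β y)) ∈ O)
    (k l : MonIx q) :
    (frameG' κ α β u v q x * frameG κ α β u v q y) k l ∈ O := by
  have e : (frameG' κ α β u v q x * frameG κ α β u v q y) k l =
      twistInv κ α β q x k *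
        algebraMap A K ((constMat (-u) (-v) q x * constMat u v q y) k l) *
          twistEntry κ α β q y l := by
    unfold frameG frameG'
    rw [Matrix.mul_assoc, ← Matrix.mul_assoc (Matrix.map _ _) (Matrix.map _ _), ← Matrix.map_mul,
      ← Matrix.mul_assoc, Matrix.mul_diagonal, Matrix.diagonal_mul, Matrix.map_apply]
  rw [e]
  -- it is enough that both factors lie in `O`
  have gen : twistInv κ α β q x k ∈ O → twistEntry κ α β q y l ∈ O →
      twistInv κ α β q x k *
        algebraMap A K ((constMat (-u) (-v) q x * constMat u v q y) k l) *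
          twistEntry κ α β q y l ∈ O := fun h1 h2 =>
    O.mul_mem (O.mul_mem h1 (O.algebraMap_mem _)) h2
  -- or that the constant matrices cancel and the ratio lies in `O`
  have canc : (constMat (-u) (-v) q x * constMat u v q y = 1) →
      twistInv κ α β q x k * twistEntry κ α β q y k ∈ O →
      twistInv κ α β q x k *
        algebraMap A K ((constMat (-u) (-v) q x * constMat u v q y) k l) *
          twistEntry κ α β q y l ∈ O := by
    intro h1 h2
    rw [h1]
    by_cases hkl : k = l
    · subst hkl
      rw [Matrix.one_apply_eq, map_one, mul_one]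
      exact h2
    · rw [Matrix.one_apply_ne hkl, map_zero, mul_zero, zero_mul]
      exact O.zero_mem
  have sx : ∀ j, chartST κ α β x j ∈ O := fun j => by
    have := hx (X j); rwa [theta_X] at this
  have sy : ∀ j, chartST κ α β y j ∈ O := fun j => by
    have := hy (X j); rwa [theta_X] at this
  match x, y with
  | .inl (i, c), .inl (j, c') =>
    by_cases hij : i = j
    · subst hij
      refine canc ?_ ?_
      · rw [constMat_inl_eq (-u) (-v) q i c c']
        exact constMat_mul' u v q _
      · simp only [twistInv, twistEntry]
        split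
        · by_cases hcc : c i = c' i
          · have : chartST κ α β (.inl (i, c)) 0 * Ring.inverse (chartST κ α β (.inl (i, c')) 0)
                = 1 := by
              simp only [chartST, Matrix.cons_val_zero]
              rw [hcc]
              exact GAux.mul_inv (hκ.unit_lin i (c' i))
            rw [this]; exact O.one_mem
          · have hcc' : c i = !c' i := by
              cases h1 : c i <;> cases h2 : c' i <;> simp_all
            have : chartST κ α β (.inl (i, c)) 0 * Ring.inverse (chartST κ α β (.inl (i, c')) 0)
                = chartST κ α β (.inl (i, c')) 1 := by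
              simp only [chartST, Matrix.cons_val_zero, Matrix.cons_val_one]
              rw [hcc']
            rw [this]; exact sy 1
        · rw [mul_one]; exact O.one_mem
    · refine gen ?_ ?_
      · simp only [twistInv]
        split
        · exact sx 0
        · exact O.one_mem
      · simp only [twistEntry]
        split
        · have hj : j ∈ chartD (.inl (i, c) : ChartIx r) :=
            Finset.mem_erase.2 ⟨fun h => hij h.symm, Finset.mem_univ _⟩
          have h1 := UO_linP hκ hx hx' hj
          have h2 := linP_aux hκ (.inl (i, c)) j (chartC (.inl (i, c)) j)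
          have h3 : κ (coordW A (chartJ (.inl (i, c) : ChartIx r))) = 1 := by
            simp [chartJ, coordW]
          rw [h3, mul_one] at h2
          rw [h2] at h1
          exact (UO_st hκ hy h1).inv_mem
        · exact O.one_mem
  | .inl (i, c), .inr b =>
    refine gen ?_ ?_
    · simp only [twistInv]
      split
      · exact sx 0
      · exact O.one_mem
    · simp only [twistEntry]
      exact O.pow_mem (sy 0) _
  | .inr b, .inl (j, c') =>
    -- the coordinate of the infinite chart is a unit
    have hW : κ (coordW A (chartJ (.inr b : ChartIx r))) ∈ O := by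
      have h1 := coordP_aux hκ (.inl (j, c')) (chartJ (.inr b : ChartIx r))
      have h3 : κ (coordW A (chartJ (.inl (j, c') : ChartIx r))) = 1 := by
        simp [chartJ, coordW]
      rw [h3, mul_one] at h1
      rw [← h1]
      exact hy _
    have hW' : Ring.inverse (chartST κ α β (.inr b) 0) =
        κ (coordW A (chartJ (.inr b : ChartIx r))) := by
      cases b
      · simp only [chartST, Matrix.cons_val_zero, chartJ, coordW, Matrix.cons_val_one]
        exact Ring.inverse_inverse (isUnit_X0 hκ)
      · simp only [chartST, Matrix.cons_val_zero, chartJ, coordW, Matrix.cons_val]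
        exact Ring.inverse_inverse (isUnit_X1 hκ)
    refine gen ?_ ?_
    · simp only [twistInv]
      rw [hW']
      exact O.pow_mem hW _
    · simp only [twistEntry]
      split
      · have h1 := UO_linP hκ hx hx' (l := j) (Finset.mem_univ _)
        have h2 := linP_aux hκ (.inr b) j (chartC (.inr b) j)
        have h3 : UO O (κ (coordW A (chartJ (.inr b : ChartIx r)))) := by
          refine UO.of_mem (hκ.unit_coord _) hW ?_
          rw [← hW', Ring.inverse_inverse (isUnit_st hκ _)]
          exact sx 0
        have h4 := h1.mul h3
        rw [h2] at h4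
        exact (UO_st hκ hy h4).inv_mem
      · exact O.one_mem
  | .inr b, .inr b' =>
    refine canc (mul_one _) ?_
    simp only [twistInv, twistEntry]
    rw [← mul_pow]
    refine O.pow_mem ?_ _
    cases b <;> cases b'
    · have : Ring.inverse (chartST κ α β (.inr false) 0) * chartST κ α β (.inr false) 0 = 1 := by
        rw [mul_comm]; exact GAux.mul_inv (isUnit_st hκ _)
      rw [this]; exact O.one_mem
    · have : Ring.inverse (chartST κ α β (.inr false) 0) * chartST κ α β (.inr true) 0 =
          chartST κ α β (.inr true) 1 := by
        simp only [chartST, Matrix.cons_val_zero, Matrix.cons_val_one]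
        rw [Ring.inverse_inverse (isUnit_X0 hκ)]
      rw [this]; exact sy 1
    · have : Ring.inverse (chartST κ α β (.inr true) 0) * chartST κ α β (.inr false) 0 =
          chartST κ α β (.inr false) 1 := by
        simp only [chartST, Matrix.cons_val_zero, Matrix.cons_val_one]
        rw [Ring.inverse_inverse (isUnit_X1 hκ)]
      rw [this]; exact sy 1
    · have : Ring.inverse (chartST κ α β (.inr true) 0) * chartST κ α β (.inr true) 0 = 1 := by
        rw [mul_comm]; exact GAux.mul_inv (isUnit_st hκ _)
      rw [this]; exact O.one_mem

theorem frameG_map {k L : Type u} [CommRing k] [CommRing L] [Algebra A k] [Algebra k L]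
    (κ' : MvPolynomial (Fin 2) k →ₐ[k] L) (red : K →+* L)
    (hκ : IsGeneric α β κ) (hκ' : IsGeneric (redPt k α) (redPt k β) κ')
    (hred : ∀ f, red (κ f) = κ' (MvPolynomial.map (algebraMap A k) f))
    (q : ℕ) (x : ChartIx r) (a b : MonIx q) :
    red (frameG κ α β u v q x a b) =
      frameG κ' (redPt k α) (redPt k β) (redPt k u) (redPt k v) q x a b := by
  have hc : ∀ z : A, red (algebraMap A K z) = algebraMap k L (algebraMap A k z) := by
    intro z
    have := hred (C z)
    rwa [ct, map_C, ct] at this
  have hconst : ∀ m : MonIx q, algebraMap A k (constMat u v q x a m) =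
      constMat (redPt k u) (redPt k v) q x a m := by
    intro m
    match x with
    | .inl y =>
      simp only [constMat, Matrix.of_apply, map_mul, map_pow, map_neg, map_natCast]
    | .inr _ =>
      simp only [constMat, Matrix.one_apply]
      split <;> simp
  have hst : red (chartST κ α β x 0) = chartST κ' (redPt k α) (redPt k β) x 0 := by
    match x with
    | .inl (i, c) =>
      simp only [chartST, Matrix.cons_val_zero]
      rw [hred, map_lin]
    | .inr false =>
      simp only [chartST, Matrix.cons_val_zero]
      rw [red_inverse _ (isUnit_X0 hκ), hred, map_X]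
    | .inr true =>
      simp only [chartST, Matrix.cons_val_zero]
      rw [red_inverse _ (isUnit_X1 hκ), hred, map_X]
  have htw : red (twistEntry κ α β q x b) = twistEntry κ' (redPt k α) (redPt k β) q x b := by
    match x with
    | .inl y =>
      simp only [twistEntry]
      split
      · rw [red_inverse _ (isUnit_st hκ _), hst]
      · exact map_one _
    | .inr _ =>
      simp only [twistEntry]
      rw [map_pow, hst]
  unfold frameG
  rw [Matrix.mul_diagonal, Matrix.mul_diagonal, map_mul, htw, Matrix.map_apply, Matrix.map_apply,
    hc, hconst]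

end G

end Pool.Agent.FL
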