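import Pool.Agent.Helper66.FL.ArrDefs

open MvPolynomial AlgebraicGeometry HomogeneousLocalization CategoryTheory

universe u

namespace Pool.Agent.FL

section H

/-- the exponents of the monomial `frameMon q x m` -/
def frameExp {r : ℕ} (q : ℕ) (x : ChartIx r) (m : MonIx q) : ℕ × ℕ :=
  match x with
  | .inl (i, c) => (((m.1 : ℕ) + m.2) % q, bif c i then (m.1 : ℕ) else (m.2 : ℕ))
  | .inr false => (q * (((m.1 : ℕ) + m.2 + (q - 1)) / q) - ((m.1 : ℕ) + m.2), (m.2 : ℕ))
  | .inr true => (q * (((m.1 : ℕ) + m.2 + (q - 1)) / q) - ((m.1 : ℕ) + m.2), (m.1 : ℕ))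

lemma frameMon_eq {k : Type u} [CommRing k] {r : ℕ} (q : ℕ) (x : ChartIx r) (m : MonIx q) :
    frameMon (k := k) q x m = X 0 ^ (frameExp q x m).1 * X 1 ^ (frameExp q x m).2 := by
  rcases x with ⟨i, c⟩ | b
  · by_cases h : c i = true
    · simp [frameMon, frameExp, h]
    · simp [frameMon, frameExp, h]
  · cases b <;> simp [frameMon, frameExp]

lemma ceil_bounds (q s : ℕ) (hq : 0 < q) :
    s ≤ q * ((s + (q - 1)) / q) ∧ q * ((s + (q - 1)) / q) < s + q := by
  have h1 := Nat.div_add_mod (s + (q - 1)) q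
  have h2 := Nat.mod_lt (s + (q - 1)) hq
  omega

lemma frameExp_lt {r : ℕ} (q : ℕ) (x : ChartIx r) (m : MonIx q) :
    (frameExp q x m).1 < q ∧ (frameExp q x m).2 < q := by
  have hq : 0 < q := lt_of_le_of_lt (Nat.zero_le _) m.1.2
  have h1 := m.1.2
  have h2 := m.2.2
  have h3 := ceil_bounds q ((m.1 : ℕ) + m.2) hq
  rcases x with ⟨i, c⟩ | b
  · refine ⟨Nat.mod_lt _ hq, ?_⟩
    by_cases h : c i = true
    · simp [frameExp, h]
    · simp [frameExp, h]
  · cases b
    · refine ⟨?_, ?_⟩ <;> simp only [frameExp] <;> omega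
    · refine ⟨?_, ?_⟩ <;> simp only [frameExp] <;> omega

lemma mod_of_ceil (q s t : ℕ) (hq : 0 < q)
    (h : q * ((s + (q - 1)) / q) - s = q * ((t + (q - 1)) / q) - t) : s ≡ t [MOD q] := by
  have h1 := ceil_bounds q s hq
  have h2 := ceil_bounds q t hq
  have h3 : s + q * ((t + (q - 1)) / q) = t + q * ((s + (q - 1)) / q) := by omega
  have h4 : (s + q * ((t + (q - 1)) / q)) % q = (t + q * ((s + (q - 1)) / q)) % q := by rw [h3]
  rw [Nat.add_mul_mod_self_left, Nat.add_mul_mod_self_left] at h4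
  exact h4

lemma frameExp_injective {r : ℕ} (q : ℕ) (x : ChartIx r) :
    Function.Injective (frameExp q x) := by
  intro m m' hmm
  have hq : 0 < q := lt_of_le_of_lt (Nat.zero_le _) m.1.2
  have e1 := m.1.2
  have e2 := m.2.2
  have e3 := m'.1.2
  have e4 := m'.2.2
  have key1 : (m.1 : ℕ) + m.2 ≡ (m'.1 : ℕ) + m'.2 [MOD q] → (m.1 : ℕ) = m'.1 → m = m' := by
    intro h h'
    rw [h'] at h
    have h5 : (m.2 : ℕ) ≡ m'.2 [MOD q] := Nat.ModEq.add_left_cancel' _ h
    have h6 : (m.2 : ℕ) = m'.2 := by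
      have h7 : (m.2 : ℕ) % q = (m'.2 : ℕ) % q := h5
      rwa [Nat.mod_eq_of_lt e2, Nat.mod_eq_of_lt e4] at h7
    exact Prod.ext (Fin.ext h') (Fin.ext h6)
  have key2 : (m.1 : ℕ) + m.2 ≡ (m'.1 : ℕ) + m'.2 [MOD q] → (m.2 : ℕ) = m'.2 → m = m' := by
    intro h h'
    rw [h'] at h
    have h5 : (m.1 : ℕ) ≡ m'.1 [MOD q] := Nat.ModEq.add_right_cancel' _ h
    have h6 : (m.1 : ℕ) = m'.1 := by
      have h7 : (m.1 : ℕ) % q = (m'.1 : ℕ) % q := h5
      rwa [Nat.mod_eq_of_lt e1, Nat.mod_eq_of_lt e3] at h7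
    exact Prod.ext (Fin.ext h6) (Fin.ext h')
  rcases x with ⟨i, c⟩ | b
  · by_cases h : c i = true
    · simp only [frameExp, h, cond_true, Prod.mk.injEq] at hmm
      exact key1 hmm.1 hmm.2
    · simp only [frameExp, h, cond_false, Prod.mk.injEq] at hmm
      exact key2 hmm.1 hmm.2
  · cases b
    · simp only [frameExp, Prod.mk.injEq] at hmm
      exact key2 (mod_of_ceil _ _ _ hq hmm.1) hmm.2
    · simp only [frameExp, Prod.mk.injEq] at hmm
      exact key1 (mod_of_ceil _ _ _ hq hmm.1) hmm.2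

/-- the exponents as a function `Fin 2 → Fin q` -/
def frameFun {r : ℕ} (q : ℕ) (x : ChartIx r) (m : MonIx q) : Fin 2 → Fin q :=
  ![⟨(frameExp q x m).1, (frameExp_lt q x m).1⟩, ⟨(frameExp q x m).2, (frameExp_lt q x m).2⟩]

lemma frameFun_bijective {r : ℕ} (q : ℕ) (x : ChartIx r) :
    Function.Bijective (frameFun q x) := by
  rw [Fintype.bijective_iff_injective_and_card]
  refine ⟨fun m m' h => frameExp_injective q x ?_, ?_⟩
  · have h0 := congrFun h 0
    have h1 := congrFun h 1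
    simp only [frameFun, Matrix.cons_val_zero, Matrix.cons_val_one, Fin.mk.injEq] at h0 h1
    exact Prod.ext h0 h1
  · simp [pow_two]

variable {k : Type u} [Field k] (p : ℕ) [Fact p.Prime] [CharP k p] {r : ℕ}

theorem qbasis_frameMon [PerfectRing k p] (e : ℕ) (x : ChartIx r) :
    QBasis (p ^ e) (fun m : MonIx (p ^ e) => frameMon (k := k) (p ^ e) x m) := by
  have h := (qbasis_mvPolynomial (p := p) e k (Fin 2)).comp_equiv
    (Equiv.ofBijective _ (frameFun_bijective (p ^ e) x))
  have h2 : (fun m : MonIx (p ^ e) => frameMon (k := k) (p ^ e) x m) = fun m =>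
      (monomial (Finsupp.equivFunOnFinite.symm fun i =>
        (((Equiv.ofBijective _ (frameFun_bijective (p ^ e) x)) m i : Fin (p ^ e)) : ℕ)) (1 : k) :
          MvPolynomial (Fin 2) k) := by
    funext m
    rw [frameMon_eq, MvPolynomial.monomial_eq, map_one, one_mul]
    rw [Finsupp.prod_fintype _ _ (fun i => pow_zero _), Fin.prod_univ_two]
    simp [frameFun]
  rw [h2]
  exact h

/-- binomial expansion in the form needed for the frames -/
lemma sum_binom {L : Type u} [CommRing L] (q n : ℕ) (hn : n < q) (X A : L) :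
    ∑ a : Fin q, X ^ (a : ℕ) * ((n.choose a : L) * A ^ (n - (a : ℕ))) = (X + A) ^ n := by
  rw [Finset.sum_fin_eq_sum_range]
  rw [add_pow]
  symm
  have h1 : Finset.range (n + 1) ⊆ Finset.range q := Finset.range_subset_range.2 (by omega)
  rw [← Finset.sum_subset h1]
  · refine Finset.sum_congr rfl fun i hi => ?_
    have : i < q := by
      have := Finset.mem_range.1 hi
      omega
    rw [dif_pos this]
    ring
  · intro i hi hi'
    have h2 : i < q := Finset.mem_range.1 hi
    have h3 : n < i := by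
      by_contra hcon
      exact hi' (Finset.mem_range.2 (by omega))
    rw [dif_pos h2, Nat.choose_eq_zero_of_lt h3]
    simp

lemma theta_frameMon_aux {k : Type u} [Field k] {r : ℕ} {L : Type u} [CommRing L] [Algebra k L]
    (κ : MvPolynomial (Fin 2) k →ₐ[k] L) (α β u v : Fin r → k) (hκ : IsGeneric α β κ)
    (q : ℕ) (hqpos : 0 < q) (hk : ∀ n : ℕ, ((n : k)) ^ q = (n : k))
    (hneg : ∀ a : k, (-a) ^ q = -(a ^ q))
    (hu : ∀ i, u i ^ q = α i) (hv : ∀ i, v i ^ q = β i)
    (x : ChartIx r) (m : MonIx q) :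
    theta κ α β x (frameMon q x m) =
      ∑ a : MonIx q, (κ (X 0) ^ (a.1 : ℕ) * κ (X 1) ^ (a.2 : ℕ)) *
        (frameG κ α β u v q x a m) ^ q := by
  classical
  have hG : ∀ a : MonIx q, frameG κ α β u v q x a m =
      algebraMap k L (constMat u v q x a m) * twistEntry κ α β q x m := by
    intro a
    unfold frameG
    rw [Matrix.mul_diagonal, Matrix.map_apply]
  simp only [hG, mul_pow]
  rw [frameMon_eq]
  unfold theta
  rw [map_mul, map_pow, map_pow, aeval_X, aeval_X]
  rcases x with ⟨i, c⟩ | b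
  · -- finite charts
    have hu' : IsUnit (κ (lin α β i (c i))) := hκ.unit_lin i (c i)
    set S : L := κ (lin α β i (c i)) with hS
    set S' : L := Ring.inverse S with hS'
    have hSS : S * S' = 1 := Ring.mul_inverse_cancel _ hu'
    have hsum : ∑ a : MonIx q, (κ (X 0) ^ (a.1 : ℕ) * κ (X 1) ^ (a.2 : ℕ)) *
        ((algebraMap k L (constMat u v q (Sum.inl (i, c) : ChartIx r) a m)) ^ q *
          (twistEntry κ α β q (Sum.inl (i, c)) m) ^ q) =
        κ (lin α β i false) ^ (m.1 : ℕ) * κ (lin α β i true) ^ (m.2 : ℕ) *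
          (twistEntry κ α β q (Sum.inl (i, c)) m) ^ q := by
      have h1 : ∀ a : MonIx q, (κ (X 0) ^ (a.1 : ℕ) * κ (X 1) ^ (a.2 : ℕ)) *
        ((algebraMap k L (constMat u v q (Sum.inl (i, c) : ChartIx r) a m)) ^ q *
          (twistEntry κ α β q (Sum.inl (i, c)) m) ^ q) =
          ((κ (X 0) ^ (a.1 : ℕ) * (((m.1 : ℕ).choose a.1 : L) *
            (-algebraMap k L (α i)) ^ ((m.1 : ℕ) - a.1))) *
          (κ (X 1) ^ (a.2 : ℕ) * (((m.2 : ℕ).choose a.2 : L) *
            (-algebraMap k L (β i)) ^ ((m.2 : ℕ) - a.2)))) *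
            (twistEntry κ α β q (Sum.inl (i, c)) m) ^ q := by
        intro a
        have h2 : (constMat u v q (Sum.inl (i, c) : ChartIx r) a m) ^ q =
            ((m.1 : ℕ).choose a.1 : k) * ((m.2 : ℕ).choose a.2 : k) *
            (-α i) ^ ((m.1 : ℕ) - a.1) * (-β i) ^ ((m.2 : ℕ) - a.2) := by
          change (((m.1 : ℕ).choose a.1 : k) * ((m.2 : ℕ).choose a.2 : k) *
            (-u i) ^ ((m.1 : ℕ) - a.1) * (-v i) ^ ((m.2 : ℕ) - a.2)) ^ q = _
          rw [mul_pow, mul_pow, mul_pow, hk, hk, pow_right_comm, hneg, hu, pow_right_comm (-v i),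
            hneg, hv]
        have h3 : (algebraMap k L (constMat u v q (Sum.inl (i, c) : ChartIx r) a m)) ^ q =
            algebraMap k L (((m.1 : ℕ).choose a.1 : k) * ((m.2 : ℕ).choose a.2 : k) *
            (-α i) ^ ((m.1 : ℕ) - a.1) * (-β i) ^ ((m.2 : ℕ) - a.2)) := by
          rw [← map_pow, h2]
        rw [h3]
        simp only [map_mul, map_pow, map_neg, map_natCast]
        ring
      simp only [h1]
      rw [← Finset.sum_mul]
      congr 1
      rw [Fintype.sum_prod_type]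
      simp only
      rw [← Fintype.sum_mul_sum, sum_binom q _ m.1.2, sum_binom q _ m.2.2]
      congr 1
      · simp only [lin, cond_false, map_sub]
        rw [← sub_eq_add_neg]
        congr 2
        rw [← MvPolynomial.algebraMap_eq, AlgHom.commutes]
      · simp only [lin, cond_true, map_sub]
        rw [← sub_eq_add_neg]
        congr 2
        rw [← MvPolynomial.algebraMap_eq, AlgHom.commutes]
    rw [hsum]
    have htw : S ^ (((m.1 : ℕ) + m.2) % q) =
        S ^ ((m.1 : ℕ) + m.2) * (twistEntry κ α β q (Sum.inl (i, c)) m) ^ q := by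
      have e1 := m.1.2
      have e2 := m.2.2
      by_cases hle : q ≤ (m.1 : ℕ) + m.2
      · have h3 : twistEntry κ α β q (Sum.inl (i, c)) m = S' := by
          simp only [twistEntry, if_pos hle]
          rfl
        rw [h3]
        have h4 : ((m.1 : ℕ) + m.2) % q = (m.1 : ℕ) + m.2 - q := by
          rw [Nat.mod_eq_sub_mod hle, Nat.mod_eq_of_lt (by omega)]
        rw [h4]
        have h5 : S ^ ((m.1 : ℕ) + m.2) = S ^ ((m.1 : ℕ) + m.2 - q) * S ^ q := by
          rw [← pow_add]; congr 1; omega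
        rw [h5, mul_assoc, ← mul_pow, hSS, one_pow, mul_one]
      · have h3 : twistEntry κ α β q (Sum.inl (i, c)) m = 1 := by
          simp only [twistEntry, if_neg hle]
        rw [h3, one_pow, mul_one, Nat.mod_eq_of_lt (by omega)]
    have hST0 : chartST κ α β (Sum.inl (i, c)) 0 = S := rfl
    have hST1 : chartST κ α β (Sum.inl (i, c)) 1 = κ (lin α β i (!c i)) * S' := rfl
    have hexp0 : (frameExp q (Sum.inl (i, c) : ChartIx r) m).1 = ((m.1 : ℕ) + m.2) % q := rfl
    rw [hST0, hST1, hexp0, htw]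
    by_cases hc : c i = true
    · have hexp1 : (frameExp q (Sum.inl (i, c) : ChartIx r) m).2 = m.1 := by
        simp [frameExp, hc]
      have hS2 : κ (lin α β i true) = S := by rw [hS, hc]
      rw [hexp1, hc, Bool.not_true, hS2, pow_add, mul_pow]
      have h6 : S ^ (m.1 : ℕ) * S' ^ (m.1 : ℕ) = 1 := by rw [← mul_pow, hSS, one_pow]
      linear_combination (κ (lin α β i false) ^ (m.1 : ℕ) * S ^ (m.2 : ℕ) *
        (twistEntry κ α β q (Sum.inl (i, c)) m) ^ q) * h6
    · have hc' : c i = false := by simpa using hc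
      have hexp1 : (frameExp q (Sum.inl (i, c) : ChartIx r) m).2 = m.2 := by
        simp [frameExp, hc']
      have hS2 : κ (lin α β i false) = S := by rw [hS, hc']
      rw [hexp1, hc', Bool.not_false, hS2, pow_add, mul_pow]
      have h6 : S ^ (m.2 : ℕ) * S' ^ (m.2 : ℕ) = 1 := by rw [← mul_pow, hSS, one_pow]
      linear_combination (κ (lin α β i true) ^ (m.2 : ℕ) * S ^ (m.1 : ℕ) *
        (twistEntry κ α β q (Sum.inl (i, c)) m) ^ q) * h6
  · -- charts at infinity
    have hone : ∑ a : MonIx q, (κ (X 0) ^ (a.1 : ℕ) * κ (X 1) ^ (a.2 : ℕ)) *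
        ((algebraMap k L (constMat u v q (Sum.inr b : ChartIx r) a m)) ^ q *
          (twistEntry κ α β q (Sum.inr b) m) ^ q) =
        κ (X 0) ^ (m.1 : ℕ) * κ (X 1) ^ (m.2 : ℕ) * (twistEntry κ α β q (Sum.inr b) m) ^ q := by
      rw [Finset.sum_eq_single m]
      · have : constMat u v q (Sum.inr b : ChartIx r) m m = 1 := by
          simp [constMat]
        rw [this, map_one, one_pow, one_mul]
      · intro a _ ha
        have : constMat u v q (Sum.inr b : ChartIx r) a m = 0 := by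
          simp [constMat, Matrix.one_apply_ne ha]
        rw [this, map_zero, zero_pow hqpos.ne', zero_mul, mul_zero]
      · simp
    rw [hone]
    have hb := ceil_bounds q ((m.1 : ℕ) + m.2) hqpos
    cases b
    · have hu' : IsUnit (κ (X 0)) := by
        have := hκ.unit_coord 1
        simpa [coordW] using this
      set S : L := Ring.inverse (κ (X 0)) with hS
      have hSS : κ (X 0) * S = 1 := Ring.mul_inverse_cancel _ hu'
      have hST0 : chartST κ α β (Sum.inr false) 0 = S := rfl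
      have hST1 : chartST κ α β (Sum.inr false) 1 = κ (X 1) * S := rfl
      have htw : twistEntry κ α β q (Sum.inr false) m =
        S ^ (((m.1 : ℕ) + m.2 + (q - 1)) / q) := rfl
      rw [hST0, hST1, htw]
      change S ^ (q * (((m.1 : ℕ) + m.2 + (q - 1)) / q) - ((m.1 : ℕ) + m.2)) *
        (κ (X 1) * S) ^ (m.2 : ℕ) = _
      set N := q * (((m.1 : ℕ) + m.2 + (q - 1)) / q) with hN
      have h1 : (S ^ (((m.1 : ℕ) + m.2 + (q - 1)) / q)) ^ q = S ^ N := by
        rw [← pow_mul, hN, mul_comm q]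
      rw [h1]
      have h2 : S ^ N = S ^ (N - ((m.1 : ℕ) + m.2)) * S ^ (m.1 : ℕ) * S ^ (m.2 : ℕ) := by
        rw [← pow_add, ← pow_add]; congr 1; omega
      rw [h2, mul_pow]
      have h3 : κ (X 0) ^ (m.1 : ℕ) * S ^ (m.1 : ℕ) = 1 := by rw [← mul_pow, hSS, one_pow]
      linear_combination -(κ (X 1) ^ (m.2 : ℕ) * S ^ (N - ((m.1 : ℕ) + m.2)) * S ^ (m.2 : ℕ)) * h3
    · have hu' : IsUnit (κ (X 1)) := by
        have := hκ.unit_coord 2
        simpa [coordW] using this
      set S : L := Ring.inverse (κ (X 1)) with hS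
      have hSS : κ (X 1) * S = 1 := Ring.mul_inverse_cancel _ hu'
      have hST0 : chartST κ α β (Sum.inr true) 0 = S := rfl
      have hST1 : chartST κ α β (Sum.inr true) 1 = κ (X 0) * S := rfl
      have htw : twistEntry κ α β q (Sum.inr true) m =
        S ^ (((m.1 : ℕ) + m.2 + (q - 1)) / q) := rfl
      rw [hST0, hST1, htw]
      change S ^ (q * (((m.1 : ℕ) + m.2 + (q - 1)) / q) - ((m.1 : ℕ) + m.2)) *
        (κ (X 0) * S) ^ (m.1 : ℕ) = _
      set N := q * (((m.1 : ℕ) + m.2 + (q - 1)) / q) with hN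
      have h1 : (S ^ (((m.1 : ℕ) + m.2 + (q - 1)) / q)) ^ q = S ^ N := by
        rw [← pow_mul, hN, mul_comm q]
      rw [h1]
      have h2 : S ^ N = S ^ (N - ((m.1 : ℕ) + m.2)) * S ^ (m.1 : ℕ) * S ^ (m.2 : ℕ) := by
        rw [← pow_add, ← pow_add]; congr 1; omega
      rw [h2, mul_pow]
      have h3 : κ (X 1) ^ (m.2 : ℕ) * S ^ (m.2 : ℕ) = 1 := by rw [← mul_pow, hSS, one_pow]
      linear_combination -(κ (X 0) ^ (m.1 : ℕ) * S ^ (N - ((m.1 : ℕ) + m.2)) * S ^ (m.1 : ℕ)) * h3

theorem theta_frameMon {L : Type u} [CommRing L] [Algebra k L]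
    (κ : MvPolynomial (Fin 2) k →ₐ[k] L) (α β u v : Fin r → k) (hκ : IsGeneric α β κ)
    (e : ℕ) (hu : ∀ i, u i ^ p ^ e = α i) (hv : ∀ i, v i ^ p ^ e = β i)
    (x : ChartIx r) (m : MonIx (p ^ e)) :
    theta κ α β x (frameMon (p ^ e) x m) =
      ∑ a : MonIx (p ^ e), (κ (X 0) ^ (a.1 : ℕ) * κ (X 1) ^ (a.2 : ℕ)) *
        (frameG κ α β u v (p ^ e) x a m) ^ p ^ e := by
  have hp : p.Prime := Fact.out
  have hchar : ExpChar k p := ExpChar.prime hp
  refine theta_frameMon_aux κ α β u v hκ (p ^ e) (pow_pos hp.pos _) ?_ ?_ hu hv x m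
  · intro n
    have h := map_natCast (iterateFrobenius k p e) n
    rwa [iterateFrobenius_def] at h
  · intro a
    have h := map_neg (iterateFrobenius k p e) a
    rwa [iterateFrobenius_def, iterateFrobenius_def] at h

end H

end Pool.Agent.FL
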