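import Pool.Agent.FLE
import Pool.Agent.FLF

/-!
# The special fibre of the lifted blow-up (MP_b2373b_ag, offer I)
-/

open MvPolynomial AlgebraicGeometry HomogeneousLocalization CategoryTheory Limits

universe u

namespace Pool.Agent.FL

/-- localisations of polynomial rings form push-out squares -/
theorem isPushout_chart {σ : Type} {A k RA RK : Type u} [CommRing A] [CommRing k] [CommRing RA] [CommRing RK]
    (a : A →+* k) (iA : A →+* RA) (ik : k →+* RK) (m : RA →+* RK)
    (ψA : MvPolynomial σ A →+* RA) (ψk : MvPolynomial σ k →+* RK)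
    (hA : ψA.comp C = iA) (hk : ψk.comp C = ik)
    (hm : ∀ p, m (ψA p) = ψk (MvPolynomial.map a p))
    (h : MvPolynomial σ A)
    (lA : @IsLocalization.Away _ _ h _ _ ψA.toAlgebra)
    (lk : @IsLocalization.Away _ _ (MvPolynomial.map a h) _ _ ψk.toAlgebra) :
    IsPushout (CommRingCat.ofHom a) (CommRingCat.ofHom iA) (CommRingCat.ofHom ik)
      (CommRingCat.ofHom m) := by
  subst hA hk
  have hc : ∀ x : A, m (ψA (C x)) = ψk (C (a x)) := fun x => by rw [hm, map_C]
  have w : CommRingCat.ofHom a ≫ CommRingCat.ofHom (ψk.comp C) =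
      CommRingCat.ofHom (ψA.comp C) ≫ CommRingCat.ofHom m := by
    rw [← CommRingCat.ofHom_comp, ← CommRingCat.ofHom_comp]
    congr 1
    ext x
    exact (hc x).symm
  -- extensionality
  have extA : ∀ {S : Type u} [CommRing S] (f g : RA →+* S), (∀ p, f (ψA p) = g (ψA p)) → f = g := by
    intro S _ f g hfg
    let := ψA.toAlgebra
    have := lA
    exact IsLocalization.ringHom_ext (Submonoid.powers h) (RingHom.ext hfg)
  have extk : ∀ {S : Type u} [CommRing S] (f g : RK →+* S), (∀ p, f (ψk p) = g (ψk p)) → f = g := by
    intro S _ f g hfg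
    let := ψk.toAlgebra
    have := lk
    exact IsLocalization.ringHom_ext (Submonoid.powers (MvPolynomial.map a h)) (RingHom.ext hfg)
  have key : ∀ {S : Type u} [CommRing S] (f : k →+* S) (g : RA →+* S),
      (∀ x, f (a x) = g (ψA (C x))) →
      ∃ l : RK →+* S, l.comp (ψk.comp C) = f ∧ l.comp m = g := by
    intro S _ f g hfg
    let e : MvPolynomial σ k →+* S := eval₂Hom f (fun i => g (ψA (X i)))
    have he : ∀ p, e (MvPolynomial.map a p) = g (ψA p) := by
      intro p
      have : e.comp (MvPolynomial.map a) = g.comp ψA := by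
        apply MvPolynomial.ringHom_ext
        · intro x
          simp only [RingHom.comp_apply, map_C, e, eval₂Hom_C]
          exact hfg x
        · intro i
          simp only [RingHom.comp_apply, map_X, e, eval₂Hom_X']
      exact congr($this p)
    have hu : IsUnit (e (MvPolynomial.map a h)) := by
      rw [he]
      apply IsUnit.map g
      let := ψA.toAlgebra
      have := lA
      exact IsLocalization.Away.algebraMap_isUnit (S := RA) h
    let := ψk.toAlgebra
    have := lk
    refine ⟨IsLocalization.Away.lift (S := RK) (MvPolynomial.map a h) hu, ?_, ?_⟩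
    · ext x
      exact (IsLocalization.Away.lift_eq (S := RK) (MvPolynomial.map a h) hu (C x)).trans
        (by simp [e])
    · apply extA
      intro p
      rw [RingHom.comp_apply, hm]
      exact (IsLocalization.Away.lift_eq (S := RK) (MvPolynomial.map a h) hu _).trans (he p)
  refine ⟨⟨w⟩, ⟨PushoutCocone.IsColimit.mk w (fun s => CommRingCat.ofHom
    (key s.inl.hom s.inr.hom (fun x => congr(($(s.condition)).hom x))).choose) ?_ ?_ ?_⟩⟩
  · intro s
    ext1
    exact (key s.inl.hom s.inr.hom (fun x => congr(($(s.condition)).hom x))).choose_spec.1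
  · intro s
    ext1
    exact (key s.inl.hom s.inr.hom (fun x => congr(($(s.condition)).hom x))).choose_spec.2
  · intro s l h1 h2
    have e1 := (key s.inl.hom s.inr.hom (fun x => congr(($(s.condition)).hom x))).choose_spec.1
    have e2 := (key s.inl.hom s.inr.hom (fun x => congr(($(s.condition)).hom x))).choose_spec.2
    ext1
    apply extk
    intro p
    have : l.hom.comp ψk = (key s.inl.hom s.inr.hom
        (fun x => congr(($(s.condition)).hom x))).choose.comp ψk := by
      apply MvPolynomial.ringHom_ext
      · intro x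
        exact (congr(($h1).hom x)).trans (congr($e1 x)).symm
      · intro i
        have h3 : ψk (X i) = m (ψA (X i)) := by rw [hm, map_X]
        rw [RingHom.comp_apply, RingHom.comp_apply, h3]
        exact (congr(($h2).hom (ψA (X i)))).trans (congr($e2 (ψA (X i)))).symm
    exact congr($this p)

section I
variable {A : Type u} [CommRing A] {r : ℕ}
variable {k : Type u} [CommRing k] [Algebra A k] (α β : Fin r → A)

theorem coneMap_irrelevant :
    HomogeneousIdeal.irrelevant (coneGr (arrMod (redPt k α) (redPt k β))) ≤
      (HomogeneousIdeal.irrelevant (coneGr (arrMod α β))).map (coneMap k α β) := by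
  have h1 := irrelevant_le_span (redPt k α) (redPt k β)
  change (HomogeneousIdeal.irrelevant (coneGr (arrMod (redPt k α) (redPt k β)))).toIdeal ≤
      ((HomogeneousIdeal.irrelevant (coneGr (arrMod α β))).map (coneMap k α β)).toIdeal
  refine h1.trans ?_
  rw [Ideal.span_le]
  rintro _ ⟨x, rfl⟩
  have hx : gen α β x ∈ arrMod α β ^ 1 := by rw [pow_one]; exact gen_mem α β x
  have e : coneMap k α β (hom 1 (gen α β x) hx) =
      hom (M := arrMod (redPt k α) (redPt k β)) 1 (gen (redPt k α) (redPt k β) x)
        (by rw [pow_one]; exact gen_mem _ _ x) := by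
    rw [coneMap_hom]
    apply Subtype.ext
    rw [hom_val, hom_val, map_gen]
  change hom (M := arrMod (redPt k α) (redPt k β)) 1 (gen (redPt k α) (redPt k β) x) _ ∈
    ((HomogeneousIdeal.irrelevant (coneGr (arrMod α β))).map (coneMap k α β)).toIdeal
  rw [← e, HomogeneousIdeal.toIdeal_map]
  apply Ideal.mem_map_of_mem
  rw [HomogeneousIdeal.mem_iff, HomogeneousIdeal.mem_irrelevant_iff]
  exact GradedRing.proj_apply (coneGr (arrMod α β)) 0 _ ▸ by
    rw [DirectSum.decompose_of_mem_ne _ (hom_mem 1 _ hx) (by norm_num)]

theorem coneMap_chartElt (x : ChartIx r) :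
    coneMap k α β (chartElt α β x) = chartElt (redPt k α) (redPt k β) x := by
  unfold chartElt
  rw [coneMap_hom]
  apply Subtype.ext
  rw [hom_val, hom_val]
  congr 1
  rw [map_mul, chartF1, chartF1, chartF2, chartF2, map_prod, map_gen]
  congr 1
  refine Finset.prod_congr rfl fun i _ => ?_
  rw [map_mul, map_lin, map_prodLin]

lemma map_inverse_of_isUnit {R S : Type u} [CommRing R] [CommRing S] (f : R →+* S) {a : R}
    (ha : IsUnit a) : f (Ring.inverse a) = Ring.inverse (f a) := by
  have h1 : f (Ring.inverse a) * f a = 1 := by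
    rw [← map_mul, Ring.inverse_mul_cancel _ ha, map_one]
  have h2 : Ring.inverse (f a) * f a = 1 := Ring.inverse_mul_cancel _ (ha.map f)
  exact (ha.map f).mul_right_cancel (h1.trans h2.symm)

lemma map_coordP (x : ChartIx r) (j : Fin 3) :
    MvPolynomial.map (algebraMap A k) (coordP α β x j) = coordP (redPt k α) (redPt k β) x j := by
  rcases x with ⟨i, c⟩ | b
  · unfold coordP
    cases hc : c i <;> fin_cases j <;> simp [hc]
  · cases b <;> fin_cases j <;> simp [coordP]

lemma map_linP (x : ChartIx r) (l : Fin r) (b : Bool) :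
    MvPolynomial.map (algebraMap A k) (linP α β x l b) = linP (redPt k α) (redPt k β) x l b := by
  unfold linP
  cases b
  · simp only [cond_false, map_sub, map_mul, map_C, map_coordP]
  · simp only [cond_true, map_sub, map_mul, map_C, map_coordP]

lemma map_chartH (x : ChartIx r) :
    MvPolynomial.map (algebraMap A k) (chartH α β x) = chartH (redPt k α) (redPt k β) x := by
  unfold chartH
  rw [map_prod]
  exact Finset.prod_congr rfl fun l _ => map_linP α β x l _

section
variable {K L : Type u} [CommRing K] [CommRing L] [Algebra A K] [Algebra k L]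
    (κ : MvPolynomial (Fin 2) A →ₐ[A] K) (κ' : MvPolynomial (Fin 2) k →ₐ[k] L) (red : K →+* L)
    (hκ : IsGeneric α β κ) (hκ' : IsGeneric (redPt k α) (redPt k β) κ')
    (hred : ∀ f, red (κ f) = κ' (MvPolynomial.map (algebraMap A k) f))
include hκ hred

lemma red_chartST (x : ChartIx r) (i : Fin 2) :
    red (chartST κ α β x i) = chartST κ' (redPt k α) (redPt k β) x i := by
  have hX : IsUnit (κ (X 0)) := by simpa [coordW] using hκ.unit_coord 1
  have hY : IsUnit (κ (X 1)) := by simpa [coordW] using hκ.unit_coord 2
  rcases x with ⟨j, c⟩ | b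
  · fin_cases i
    · simp only [chartST, Fin.zero_eta, Matrix.cons_val_zero, hred, map_lin]
    · simp only [chartST, Fin.mk_one, Matrix.cons_val_one, Matrix.cons_val_fin_one, map_mul,
        map_inverse_of_isUnit red (hκ.unit_lin j (c j)), hred, map_lin]
  · cases b
    · fin_cases i
      · simp only [chartST, Fin.zero_eta, Matrix.cons_val_zero, map_inverse_of_isUnit red hX, hred,
          map_X]
      · simp only [chartST, Fin.mk_one, Matrix.cons_val_one, Matrix.cons_val_fin_one, map_mul,
          map_inverse_of_isUnit red hX, hred, map_X]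
    · fin_cases i
      · simp only [chartST, Fin.zero_eta, Matrix.cons_val_zero, map_inverse_of_isUnit red hY, hred,
          map_X]
      · simp only [chartST, Fin.mk_one, Matrix.cons_val_one, Matrix.cons_val_fin_one, map_mul,
          map_inverse_of_isUnit red hY, hred, map_X]

lemma red_theta (x : ChartIx r) (p : MvPolynomial (Fin 2) A) :
    red (theta κ α β x p) = theta κ' (redPt k α) (redPt k β) x
      (MvPolynomial.map (algebraMap A k) p) := by
  have : (red.comp (theta κ α β x).toRingHom) = (theta κ' (redPt k α) (redPt k β) x).toRingHom.comp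
      (MvPolynomial.map (algebraMap A k)) := by
    apply MvPolynomial.ringHom_ext
    · intro a
      have h1 := hred (C a)
      rw [map_C] at h1
      have h2 : κ (C a) = algebraMap A K a := κ.commutes a
      have h3 : κ' (C (algebraMap A k a)) = algebraMap k L (algebraMap A k a) := κ'.commutes _
      have h4 : theta κ α β x (C a) = algebraMap A K a := (theta κ α β x).commutes a
      have h5 : theta κ' (redPt k α) (redPt k β) x (C (algebraMap A k a)) =
        algebraMap k L (algebraMap A k a) := (theta κ' (redPt k α) (redPt k β) x).commutes _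
      change red (theta κ α β x (C a)) = theta κ' (redPt k α) (redPt k β) x
        (MvPolynomial.map (algebraMap A k) (C a))
      rw [map_C, h4, h5, ← h2, ← h3, h1]
    · intro i
      change red (theta κ α β x (X i)) = theta κ' (redPt k α) (redPt k β) x
        (MvPolynomial.map (algebraMap A k) (X i))
      rw [map_X]
      unfold theta
      rw [aeval_X, aeval_X]
      exact red_chartST α β κ κ' red hκ hred x i
  exact congr($this p)

omit hκ in
lemma red_gev (a : coneRing (arrMod α β)) :
    gev (arrMod (redPt k α) (redPt k β)) κ'.toRingHom (coneMap k α β a) =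
      red (gev (arrMod α β) κ.toRingHom a) := by
  change κ' ((Polynomial.map (MvPolynomial.map (algebraMap A k)) a.1).eval 1) =
    red (κ (a.1.eval 1))
  rw [hred]
  congr 1
  have := Polynomial.eval_map_apply (MvPolynomial.map (algebraMap A k)) (p := a.1) (1 : MvPolynomial (Fin 2) A)
  rwa [map_one] at this

omit hκ in
lemma red_rho {f : coneRing (arrMod α β)} {d : ℕ} (hd : f ∈ coneGr (arrMod α β) d)
    (hu : IsUnit (gev (arrMod α β) κ.toRingHom f))
    (hu' : IsUnit (gev (arrMod (redPt k α) (redPt k β)) κ'.toRingHom (coneMap k α β f)))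
    (y : Away (coneGr (arrMod α β)) f) :
    rho (gev (arrMod (redPt k α) (redPt k β)) κ'.toRingHom)
      (coneGr (arrMod (redPt k α) (redPt k β))) hu' (Away.map (coneMap k α β) f y) =
      red (rho (gev (arrMod α β) κ.toRingHom) (coneGr (arrMod α β)) hu y) := by
  obtain ⟨n, a, ha, rfl⟩ := y.mk_surjective _ hd
  rw [Away.map_mk]
  have h1 := rho_mk (gev (arrMod α β) κ.toRingHom) hu hd n a ha
  have h2 := rho_mk (gev (arrMod (redPt k α) (redPt k β)) κ'.toRingHom) hu'
    ((coneMap k α β).map_mem hd) n (coneMap k α β a) ((coneMap k α β).map_mem ha)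
  have h3 : IsUnit (gev (arrMod (redPt k α) (redPt k β)) κ'.toRingHom (coneMap k α β f) ^ n) :=
    hu'.pow n
  apply h3.mul_right_cancel
  rw [h2, red_gev α β κ κ' red hred, red_gev α β κ κ' red hred, ← h1, map_mul, map_pow]

end

theorem isPullback_arr (hr : 0 < r)
    (hd : ∀ i j, i ≠ j → IsUnit (α i - α j) ∨ IsUnit (β i - β j))
    {K L : Type u} [CommRing K] [CommRing L] [Algebra A K] [Algebra k L]
    (κ : MvPolynomial (Fin 2) A →ₐ[A] K) (κ' : MvPolynomial (Fin 2) k →ₐ[k] L) (red : K →+* L)
    (hκ : IsGeneric α β κ) (hκ' : IsGeneric (redPt k α) (redPt k β) κ')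
    (hred : ∀ f, red (κ f) = κ' (MvPolynomial.map (algebraMap A k) f)) :
    IsPullback (Proj.map (coneMap k α β) (coneMap_irrelevant α β))
      (projStr (coneGr (arrMod (redPt k α) (redPt k β)))) (projStr (coneGr (arrMod α β)))
      (Spec.map (CommRingCat.ofHom (algebraMap A k))) := by
  refine isPullback_projMap (coneMap k α β) (coneMap_irrelevant α β) (chartElt α β)
    (fun x => (chartD x).card + 1) (chartElt_mem α β) (fun _ => Nat.succ_pos _)
    (iSup_basicOpen_chart α β hr hd) ?_
  intro x
  obtain ⟨hu, ψ, h1, h2, h3⟩ := exists_chart_arr κ α β hκ x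
  have hk : ∀ g, g = chartElt (redPt k α) (redPt k β) x →
    ∃ (hu : IsUnit (gev (arrMod (redPt k α) (redPt k β)) κ'.toRingHom g))
      (ψ : MvPolynomial (Fin 2) k →+* Away (coneGr (arrMod (redPt k α) (redPt k β))) g),
      (∀ p, rho (gev (arrMod (redPt k α) (redPt k β)) κ'.toRingHom)
        (coneGr (arrMod (redPt k α) (redPt k β))) hu (ψ p) = theta κ' (redPt k α) (redPt k β) x p) ∧
      (∀ a, ψ (C a) = fromZeroRingHom (coneGr (arrMod (redPt k α) (redPt k β))) (Submonoid.powers g)
        (algebraMap k (coneGr (arrMod (redPt k α) (redPt k β)) 0) a)) ∧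
      @IsLocalization.Away _ _ (chartH (redPt k α) (redPt k β) x) _ _ ψ.toAlgebra := by
    rintro g rfl
    exact exists_chart_arr κ' _ _ hκ' x
  obtain ⟨hu', ψ', h1', h2', h3'⟩ := hk _ (coneMap_chartElt α β x)
  refine isPushout_chart (RA := Away (coneGr (arrMod α β)) (chartElt α β x))
    (RK := Away (coneGr (arrMod (redPt k α) (redPt k β))) (coneMap k α β (chartElt α β x)))
    _ _ _ _ ψ ψ' (RingHom.ext h2) (RingHom.ext h2') ?_ (chartH α β x) ?_ ?_
  · intro p
    have hi : Function.Injective (rho (gev (arrMod (redPt k α) (redPt k β)) κ'.toRingHom)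
        (coneGr (arrMod (redPt k α) (redPt k β))) hu') :=
      rho_injective _ (gev_zero _ _ hκ'.inj) hu' ((coneMap k α β).map_mem (chartElt_mem α β x))
    apply hi
    rw [h1', red_rho α β κ κ' red hred (chartElt_mem α β x) hu hu', h1,
      red_theta α β κ κ' red hκ hred]
  · exact h3
  · rw [map_chartH]
    exact h3'

end I

end Pool.Agent.FL
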