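import Pool.Agent.Helper66.FL.ArrDefs
import Pool.Agent.FLA

/-!
# Projectivity of the arrangement blow-up over the base (MP_b2373b_ag, offer J)
-/

open MvPolynomial AlgebraicGeometry HomogeneousLocalization CategoryTheory

universe u

namespace Pool.Agent.FL

namespace ModJ

section Pres

variable {A : Type u} [CommRing A] {B : Type u} [CommRing B] [Algebra A B] {M : Submodule A B}

lemma hom_add {n : ℕ} {b c : B} (hb : b ∈ M ^ n) (hc : c ∈ M ^ n) :
    hom n (b + c) (add_mem hb hc) = hom n b hb + hom n c hc := by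
  apply Subtype.ext
  change Polynomial.monomial n (b + c) = Polynomial.monomial n b + Polynomial.monomial n c
  exact map_add _ _ _

lemma hom_smul {n : ℕ} (a : A) {b : B} (hb : b ∈ M ^ n) :
    hom n (a • b) (Submodule.smul_mem _ a hb) = a • hom n b hb := by
  apply Subtype.ext
  change Polynomial.monomial n (a • b) = a • Polynomial.monomial n b
  rw [Polynomial.smul_monomial]

lemma hom_zero (n : ℕ) : hom (M := M) n 0 (Submodule.zero_mem _) = 0 := by
  apply Subtype.ext
  change Polynomial.monomial n (0 : B) = 0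
  exact map_zero _

lemma hom_algebraMap (a : A) (h : algebraMap A B a ∈ M ^ 0) :
    hom (M := M) 0 (algebraMap A B a) h = algebraMap A (coneRing M) a := by
  apply Subtype.ext
  rfl

/-- the degree one element attached to an element of the module -/
noncomputable def hom1 (b : B) (hb : b ∈ M) : coneRing M :=
  hom 1 b (by rw [pow_one]; exact hb)

lemma hom1_mem (b : B) (hb : b ∈ M) : hom1 b hb ∈ coneGr M 1 := hom_mem _ _ _

/-- the presentation of the cone ring by a polynomial ring, as an algebra homomorphism -/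
noncomputable def presAlg {n : ℕ} (b : Fin n → B) (hb : ∀ i, b i ∈ M) :
    MvPolynomial (Fin n) A →ₐ[A] coneRing M :=
  aeval (fun i => hom1 (b i) (hb i))

lemma presAlg_mem {n : ℕ} (b : Fin n → B) (hb : ∀ i, b i ∈ M) (d : ℕ)
    (p : MvPolynomial (Fin n) A) (hp : p ∈ MvPolynomial.homogeneousSubmodule (Fin n) A d) :
    presAlg b hb p ∈ coneGr M d := by
  rw [mem_homogeneousSubmodule] at hp
  rw [p.as_sum, map_sum]
  refine Submodule.sum_mem _ fun m hm => ?_
  have hd : m.degree = d := by
    rw [Finsupp.degree_eq_weight_one]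
    exact hp (mem_support_iff.1 hm)
  unfold presAlg
  rw [aeval_monomial, ← Algebra.smul_def]
  refine Submodule.smul_mem _ _ ?_
  rw [← hd, Finsupp.degree_eq_sum]
  rw [Finsupp.prod_fintype _ _ (fun i => pow_zero _)]
  refine SetLike.prod_mem_graded (A := coneGr M) _ _ fun i _ => ?_
  have h := SetLike.pow_mem_graded (A := coneGr M) (m i) (hom1_mem (b i) (hb i))
  rw [smul_eq_mul, mul_one] at h
  exact h

/-- the presentation of the cone ring by a polynomial ring, as a graded homomorphism -/
noncomputable def presHom {n : ℕ} (b : Fin n → B) (hb : ∀ i, b i ∈ M) :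
    MvPolynomial.homogeneousSubmodule (Fin n) A →+*ᵍ coneGr M where
  toFun := presAlg b hb
  map_one' := map_one _
  map_mul' := map_mul _
  map_zero' := map_zero _
  map_add' := map_add _
  map_mem {d p} hp := presAlg_mem b hb d p hp

lemma presHom_apply {n : ℕ} (b : Fin n → B) (hb : ∀ i, b i ∈ M) (p : MvPolynomial (Fin n) A) :
    presHom b hb p = presAlg b hb p := rfl

/-- the coefficients of degree `d` whose homogeneous element is in a given subalgebra -/
noncomputable def homSub (S : Subalgebra A (coneRing M)) (d : ℕ) : Submodule A B where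
  carrier := {y | ∃ hy : y ∈ M ^ d, hom d y hy ∈ S}
  zero_mem' := ⟨Submodule.zero_mem _, by rw [hom_zero]; exact S.zero_mem⟩
  add_mem' := by
    rintro x y ⟨hx, h1⟩ ⟨hy, h2⟩
    exact ⟨add_mem hx hy, by rw [hom_add hx hy]; exact S.add_mem h1 h2⟩
  smul_mem' := by
    rintro a x ⟨hx, h1⟩
    exact ⟨Submodule.smul_mem _ a hx, by rw [hom_smul a hx]; exact S.smul_mem h1 a⟩

lemma presAlg_surjective {n : ℕ} (b : Fin n → B) (hb : ∀ i, b i ∈ M)
    (hM : M ≤ Submodule.span A (Set.range b)) : Function.Surjective (presAlg b hb) := by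
  have h2 : ∀ d : ℕ, M ^ d ≤ homSub (presAlg b hb).range d := by
    intro d
    induction d with
    | zero =>
      intro y hy
      have hy' := hy
      rw [pow_zero] at hy'
      obtain ⟨a, rfl⟩ := Submodule.mem_one.1 hy'
      refine ⟨hy, ?_⟩
      rw [hom_algebraMap]
      exact Subalgebra.algebraMap_mem _ a
    | succ d ih =>
      have h1 : M ≤ homSub (presAlg b hb).range 1 := by
        refine hM.trans (Submodule.span_le.2 ?_)
        rintro _ ⟨i, rfl⟩
        exact ⟨by rw [pow_one]; exact hb i, X i, by simp [presAlg, hom1]⟩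
      rw [pow_succ, Submodule.mul_le]
      intro x hx z hz
      obtain ⟨hx', h3⟩ := ih hx
      obtain ⟨hz', h4⟩ := h1 hz
      refine ⟨by rw [pow_add]; exact Submodule.mul_mem_mul hx' hz', ?_⟩
      rw [← hom_mul hx' hz']
      exact Subalgebra.mul_mem _ h3 h4
  intro p
  have h3 : p = ∑ d ∈ p.1.support, hom d (p.1.coeff d) (p.2 d) := by
    apply Subtype.ext
    rw [AddSubmonoidClass.coe_finsetSum]
    exact p.1.as_sum_support
  have h4 : p ∈ (presAlg b hb).range := by
    rw [h3]
    exact Subalgebra.sum_mem _ fun d _ => (h2 d (p.2 d)).2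
  exact h4

end Pres

section Proj

variable {R A B : Type u} [CommRing R] [CommRing A] [CommRing B] [Algebra R A] [Algebra R B]
  {𝒜 : ℕ → Submodule R A} {ℬ : ℕ → Submodule R B} [GradedAlgebra 𝒜] [GradedAlgebra ℬ]

lemma irrelevant_le_of_surjective (f : 𝒜 →+*ᵍ ℬ) (hsurj : Function.Surjective f) :
    HomogeneousIdeal.irrelevant ℬ ≤ (HomogeneousIdeal.irrelevant 𝒜).map f := by
  rw [HomogeneousIdeal.irrelevant_le]
  intro i hi x hx
  obtain ⟨a, rfl⟩ := hsurj x
  have h : f (DirectSum.decompose 𝒜 a i : A) = f a := by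
    rw [GradedRingHom.map_directSumDecompose]
    exact DirectSum.decompose_of_mem_same ℬ hx
  rw [← h]
  refine Ideal.mem_map_of_mem _ ?_
  exact HomogeneousIdeal.mem_irrelevant_of_mem 𝒜 hi (SetLike.coe_mem _)

lemma fromZero_eq_mk {d : ℕ} (s : A) (hs : s ∈ 𝒜 d) (z : 𝒜 0) :
    HomogeneousLocalization.fromZeroRingHom 𝒜 (Submonoid.powers s) z =
      Away.mk 𝒜 hs 0 z.1 (by rw [zero_smul]; exact z.2) := by
  apply HomogeneousLocalization.val_injective
  rw [Away.val_mk]
  change algebraMap A (Localization (Submonoid.powers s)) z.1 = _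
  rw [← Localization.mk_one_eq_algebraMap]
  congr 1
  exact Subtype.ext (pow_zero s).symm

lemma awayι_projMap_projStr (f : 𝒜 →+*ᵍ ℬ)
    (hf : HomogeneousIdeal.irrelevant ℬ ≤ (HomogeneousIdeal.irrelevant 𝒜).map f)
    (hlin : ∀ a, f (algebraMap R A a) = algebraMap R B a) {i : ℕ} (hi : 0 < i) (s : A)
    (hs : s ∈ 𝒜 i) :
    Proj.awayι ℬ (f s) (f.2 hs) hi ≫ Proj.map f hf ≫ projStr 𝒜 =
      Proj.awayι ℬ (f s) (f.2 hs) hi ≫ projStr ℬ := by
  rw [Proj.awayι_comp_map_assoc f hf hi s hs, awayι_projStr, awayι_projStr, ← Spec.map_comp,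
    ← CommRingCat.ofHom_comp]
  have key : (HomogeneousLocalization.Away.map f s).comp
      ((HomogeneousLocalization.fromZeroRingHom 𝒜 (Submonoid.powers s)).comp
        (algebraMap R (𝒜 0))) =
      (HomogeneousLocalization.fromZeroRingHom ℬ (Submonoid.powers (f s))).comp
        (algebraMap R (ℬ 0)) := by
    refine RingHom.ext fun a => ?_
    rw [RingHom.comp_apply, RingHom.comp_apply, RingHom.comp_apply, fromZero_eq_mk s hs,
      fromZero_eq_mk (f s) (f.2 hs), Away.map_mk]
    have h1 : f (algebraMap R (𝒜 0) a).1 = (algebraMap R (ℬ 0) a).1 := hlin a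
    simp only [h1]
  rw [key]

lemma projMap_projStr (f : 𝒜 →+*ᵍ ℬ)
    (hf : HomogeneousIdeal.irrelevant ℬ ≤ (HomogeneousIdeal.irrelevant 𝒜).map f)
    (hlin : ∀ a, f (algebraMap R A a) = algebraMap R B a) :
    Proj.map f hf ≫ projStr 𝒜 = projStr ℬ := by
  refine (Proj.mapAffineOpenCover f hf).openCover.hom_ext _ _ fun s ↦ ?_
  exact awayι_projMap_projStr f hf hlin s.1.2 s.2.1 s.2.2

end Proj

end ModJ

open ModJ in
/-- OFFER J: the arrangement blow-up is projective over the base -/
theorem isProjective_arr {A : Type u} [CommRing A] {r : ℕ} (α β : Fin r → A) :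
    IsProjectiveOver (projStr (coneGr (arrMod α β))) := by
  obtain ⟨N, hN⟩ : ∃ N, Fintype.card (Fin 3 × (Fin r → Bool)) = N + 1 :=
    Nat.exists_eq_succ_of_ne_zero Fintype.card_ne_zero
  let e : Fin (N + 1) ≃ Fin 3 × (Fin r → Bool) :=
    (Fintype.equivFinOfCardEq hN).symm
  let b : Fin (N + 1) → MvPolynomial (Fin 2) A := fun i => gen α β (e i)
  have hb : ∀ i, b i ∈ arrMod α β := fun i => gen_mem _ _ _
  have hM : arrMod α β ≤ Submodule.span A (Set.range b) := by
    refine Submodule.span_mono ?_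
    rintro _ ⟨x, rfl⟩
    exact ⟨e.symm x, by simp [b]⟩
  have hs : Function.Surjective (presHom b hb) := presAlg_surjective b hb hM
  have hf := irrelevant_le_of_surjective (presHom b hb) hs
  refine ⟨N, Proj.map (presHom b hb) hf, isClosedImmersion_projMap _ hf hs, ?_⟩
  exact projMap_projStr _ hf fun a => AlgHom.commutes (presAlg b hb) a

end Pool.Agent.FL
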