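import Pool.Agent.Helper66.FL.Blow

/-!
# `B`-valued points of the projective plane (MP_b2373b_ag, offer K)
-/

open MvPolynomial AlgebraicGeometry HomogeneousLocalization CategoryTheory

universe u

namespace Pool.Agent.FL

section RhoEq

variable {A σ : Type u} [CommRing A] [SetLike σ A] [AddSubgroupClass σ A] {𝒜 : ℕ → σ} [GradedRing 𝒜]
  {K : Type u} [CommRing K]

/-- two evaluations that are proportional (with a factor depending on the degree) give the same map on
the degree zero localisation -/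
lemma rho_eq_of {φ φ' : A →+* K} {f : A} {d : ℕ} (hd : f ∈ 𝒜 d) (hf : IsUnit (φ f))
    (hf' : IsUnit (φ' f))
    (h : ∀ n a, a ∈ 𝒜 (n • d) → φ a * φ' f ^ n = φ' a * φ f ^ n) :
    rho φ 𝒜 hf = rho φ' 𝒜 hf' := by
  ext x
  obtain ⟨n, a, ha, rfl⟩ := x.mk_surjective _ hd
  have h1 := rho_mk φ hf hd n a ha
  have h2 := rho_mk φ' hf' hd n a ha
  apply (hf.pow n).mul_right_cancel
  apply (hf'.pow n).mul_right_cancel
  rw [h1, h n a ha, ← h2]
  ring

lemma comp_rho {K' : Type u} [CommRing K'] (φ : A →+* K) (g : K →+* K') {f : A} {d : ℕ}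
    (hd : f ∈ 𝒜 d) (hf : IsUnit (φ f)) (hf' : IsUnit ((g.comp φ) f)) :
    g.comp (rho φ 𝒜 hf) = rho (g.comp φ) 𝒜 hf' := by
  ext x
  obtain ⟨n, a, ha, rfl⟩ := x.mk_surjective _ hd
  have h1 := rho_mk φ hf hd n a ha
  have h2 := rho_mk (g.comp φ) hf' hd n a ha
  apply (hf'.pow n).mul_right_cancel
  rw [h2, RingHom.comp_apply, RingHom.comp_apply, ← map_pow, ← map_mul, h1, RingHom.comp_apply]

end RhoEq

section K
variable {k B : Type u} [CommRing k] [CommRing B] (c : k →+* B) (ξ : Fin 3 → B)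

lemma evalP_smul (u : B) {n : ℕ} (a : MvPolynomial (Fin 3) k)
    (ha : a ∈ homogeneousSubmodule (Fin 3) k n) :
    evalP c (fun m => u * ξ m) a = u ^ n * evalP c ξ a := by
  unfold evalP
  rw [coe_eval₂Hom, coe_eval₂Hom, eval₂_eq, eval₂_eq, Finset.mul_sum]
  refine Finset.sum_congr rfl fun e he => ?_
  have h1 : ∑ i ∈ e.support, e i = n := by
    have h2 := (mem_homogeneousSubmodule _ _).1 ha (mem_support_iff.1 he)
    rw [Finsupp.weight_apply] at h2
    simpa [Finsupp.sum] using h2
  have h3 : ∏ i ∈ e.support, (u * ξ i) ^ e i = u ^ n * ∏ i ∈ e.support, ξ i ^ e i := by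
    rw [← h1, ← Finset.prod_pow_eq_pow_sum, ← Finset.prod_mul_distrib]
    exact Finset.prod_congr rfl fun i _ => mul_pow _ _ _
  rw [h3]
  ring

lemma X_mem (j : Fin 3) : (X j : MvPolynomial (Fin 3) k) ∈ homogeneousSubmodule (Fin 3) k 1 :=
  isHomogeneous_X k j

/-- the map on the degree zero localisation given by homogeneous coordinates -/
noncomputable abbrev rhoP (j : Fin 3) (hj : IsUnit (ξ j)) :
    Away (homogeneousSubmodule (Fin 3) k) (X j : MvPolynomial (Fin 3) k) →+* B :=
  rho (evalP c ξ) (homogeneousSubmodule (Fin 3) k) (isUnit_evalP c hj)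

lemma ptP_def (j : Fin 3) (hj : IsUnit (ξ j)) :
    ptP c ξ j hj = Spec.map (CommRingCat.ofHom (rhoP c ξ j hj)) ≫
      Proj.awayι (homogeneousSubmodule (Fin 3) k) (X j) (X_mem j) Nat.one_pos := rfl

theorem ptP_indep (j j' : Fin 3) (hj : IsUnit (ξ j)) (hj' : IsUnit (ξ j')) :
    ptP c ξ j hj = ptP c ξ j' hj' :=
  genPt_indep _ _ _ _ _ _ _

theorem ptP_smul (u : B) (j : Fin 3) (hj : IsUnit (ξ j)) (hj' : IsUnit (u * ξ j)) :
    ptP c (fun m => u * ξ m) j hj' = ptP c ξ j hj := by
  rw [ptP_def, ptP_def]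
  congr 3
  refine rho_eq_of (X_mem j) _ _ fun n a ha => ?_
  rw [nsmul_one] at ha
  rw [evalP_smul c ξ u a ha, evalP_X, evalP_X, mul_pow, Nat.cast_id]
  ring

theorem ptP_comp {B' : Type u} [CommRing B'] (φ : B →+* B') (j : Fin 3) (hj : IsUnit (ξ j)) :
    Spec.map (CommRingCat.ofHom φ) ≫ ptP c ξ j hj =
      ptP (φ.comp c) (fun m => φ (ξ m)) j (hj.map φ) := by
  have h0 : φ.comp (evalP c ξ) = evalP (φ.comp c) (fun m => φ (ξ m)) := by
    apply ringHom_ext
    · intro a
      simp [evalP]
    · intro i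
      simp [evalP]
  rw [ptP_def, ptP_def, ← Category.assoc, ← Spec.map_comp, ← CommRingCat.ofHom_comp]
  congr 3
  have h1 : IsUnit ((φ.comp (evalP c ξ)) (X j)) := (isUnit_evalP c hj).map φ
  rw [comp_rho (evalP c ξ) φ (X_mem j) (isUnit_evalP c hj) h1]
  congr 1

/-- constants in the degree zero localisation -/
noncomputable def constP (k : Type u) [CommRing k] (j : Fin 3) :
    k →+* Away (homogeneousSubmodule (Fin 3) k) (X j : MvPolynomial (Fin 3) k) :=
  (HomogeneousLocalization.fromZeroRingHom (homogeneousSubmodule (Fin 3) k)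
    (Submonoid.powers (X j))).comp (algebraMap k (homogeneousSubmodule (Fin 3) k 0))

lemma constP_val (j : Fin 3) (a : k) :
    algebraMap (Away (homogeneousSubmodule (Fin 3) k) (X j : MvPolynomial (Fin 3) k))
      (Localization.Away (X j : MvPolynomial (Fin 3) k)) (constP k j a) =
      algebraMap (MvPolynomial (Fin 3) k) (Localization.Away (X j : MvPolynomial (Fin 3) k)) (C a) := by
  rw [HomogeneousLocalization.algebraMap_apply]
  unfold constP
  rw [RingHom.comp_apply]
  change Localization.mk _ _ = _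
  rw [Localization.mk_eq_mk']
  exact IsLocalization.mk'_one _ _

lemma rhoP_constP (j : Fin 3) (hj : IsUnit (ξ j)) (a : k) :
    rhoP c ξ j hj (constP k j a) = c a := by
  unfold rhoP rho
  rw [RingHom.comp_apply, constP_val]
  rw [← evalP_C c ξ a]
  exact IsLocalization.Away.lift_eq (X j) (isUnit_evalP c hj) (C a)

theorem ptP_str (j : Fin 3) (hj : IsUnit (ξ j)) :
    ptP c ξ j hj ≫ strP2 k = Spec.map (CommRingCat.ofHom c) := by
  rw [ptP_def, Category.assoc, strP2, awayι_projStr, ← Spec.map_comp, ← CommRingCat.ofHom_comp]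
  congr 2
  ext a
  exact rhoP_constP c ξ j hj a

/-- the coordinate function `X m / X j` -/
noncomputable def coordA (k : Type u) [CommRing k] (j m : Fin 3) :
    Away (homogeneousSubmodule (Fin 3) k) (X j : MvPolynomial (Fin 3) k) :=
  Away.mk _ (X_mem j) 1 (X m) (by simpa using X_mem m)

lemma rhoP_coordA (j m : Fin 3) (hj : IsUnit (ξ j)) :
    rhoP c ξ j hj (coordA k j m) * ξ j = ξ m := by
  have h := rho_mk (evalP c ξ) (isUnit_evalP c hj) (X_mem j) 1 (X m) (by simpa using X_mem m)
  rw [pow_one, evalP_X, evalP_X] at h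
  exact h

/-- points of `Spec B` over a basic open subset of the plane -/
theorem ptP_mem_basicOpen (j : Fin 3) (hj : IsUnit (ξ j)) {n : ℕ} (hn : 0 < n)
    (f : MvPolynomial (Fin 3) k) (hf : f ∈ homogeneousSubmodule (Fin 3) k n)
    (b : Spec (.of B)) :
    (ptP c ξ j hj) b ∈ Proj.basicOpen (homogeneousSubmodule (Fin 3) k) f ↔
      evalP c ξ f ∉ (show PrimeSpectrum B from b).asIdeal := by
  have h1 := Proj.awayι_preimage_basicOpen (homogeneousSubmodule (Fin 3) k) (X_mem j) Nat.one_pos hf hn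
  have h2 : (ptP c ξ j hj) b ∈ Proj.basicOpen (homogeneousSubmodule (Fin 3) k) f ↔
      (Spec.map (CommRingCat.ofHom (rhoP c ξ j hj))) b ∈
        (PrimeSpectrum.basicOpen (Away.isLocalizationElem (X_mem j) hf) :
          (Spec (.of (Away (homogeneousSubmodule (Fin 3) k) (X j)))).Opens) := by
    rw [← h1]
    rfl
  rw [h2]
  change Away.isLocalizationElem (X_mem j) hf ∉
    ((show PrimeSpectrum B from b).asIdeal.comap (rhoP c ξ j hj)) ↔ _
  rw [Ideal.mem_comap, not_iff_not]
  have h3 := rho_mk (evalP c ξ) (isUnit_evalP c hj) (X_mem j) n (f ^ 1)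
    (by simpa using hf)
  have h4 : rhoP c ξ j hj (Away.isLocalizationElem (X_mem j) hf) * ξ j ^ n = evalP c ξ f := by
    rw [evalP_X] at h3
    refine Eq.trans ?_ (h3.trans (congrArg _ (pow_one f)))
    rfl
  rw [← h4]
  constructor
  · intro h
    exact Ideal.mul_mem_right _ _ h
  · intro h
    obtain ⟨v, hv⟩ := (hj.pow n).exists_right_inv
    have h5 := Ideal.mul_mem_right v _ h
    rwa [mul_assoc, hv, mul_one] at h5

/-- the polynomial ring maps to the degree zero localisation -/
noncomputable def dehom (k : Type u) [CommRing k] (j : Fin 3) :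
    MvPolynomial (Fin 3) k →+* Away (homogeneousSubmodule (Fin 3) k) (X j : MvPolynomial (Fin 3) k) :=
  eval₂Hom (constP k j) (coordA k j)

/-- the localisation of the polynomial ring at one variable -/
abbrev LX (k : Type u) [CommRing k] (j : Fin 3) : Type u :=
  Localization.Away (X j : MvPolynomial (Fin 3) k)

/-- the inverse of the variable -/
noncomputable def invX (k : Type u) [CommRing k] (j : Fin 3) : LX k j :=
  IsLocalization.Away.invSelf (X j : MvPolynomial (Fin 3) k)

lemma mul_invX (j : Fin 3) : algebraMap (MvPolynomial (Fin 3) k) (LX k j) (X j) * invX k j = 1 :=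
  IsLocalization.Away.mul_invSelf (X j : MvPolynomial (Fin 3) k)

lemma val_mk_eq (j : Fin 3) (n : ℕ) (a : MvPolynomial (Fin 3) k)
    (ha : a ∈ homogeneousSubmodule (Fin 3) k (n • 1)) :
    (Away.mk (homogeneousSubmodule (Fin 3) k) (X_mem j) n a ha).val =
      invX k j ^ n * algebraMap (MvPolynomial (Fin 3) k) (LX k j) a := by
  rw [Away.val_mk, Localization.mk_eq_mk', IsLocalization.mk'_eq_iff_eq_mul, mul_right_comm]
  change _ = _ * algebraMap (MvPolynomial (Fin 3) k) (LX k j) (X j ^ n) * _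
  rw [map_pow, ← mul_pow, mul_comm (invX k j), mul_invX, one_pow, one_mul]

lemma coordA_val (j m : Fin 3) :
    algebraMap (Away (homogeneousSubmodule (Fin 3) k) (X j : MvPolynomial (Fin 3) k))
      (LX k j) (coordA k j m) =
      invX k j * algebraMap (MvPolynomial (Fin 3) k) (LX k j) (X m) := by
  rw [HomogeneousLocalization.algebraMap_apply]
  unfold coordA
  rw [val_mk_eq, pow_one]

lemma dehom_eq (j : Fin 3) (n : ℕ) (a : MvPolynomial (Fin 3) k)
    (ha : a ∈ homogeneousSubmodule (Fin 3) k (n • 1)) :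
    Away.mk _ (X_mem j) n a ha = dehom k j a := by
  apply HomogeneousLocalization.val_injective
  rw [val_mk_eq]
  have h1 : ((algebraMap (Away (homogeneousSubmodule (Fin 3) k) (X j : MvPolynomial (Fin 3) k))
      (LX k j)).comp (dehom k j)) =
      evalP ((algebraMap (MvPolynomial (Fin 3) k) (LX k j)).comp C)
        (fun m => invX k j * algebraMap (MvPolynomial (Fin 3) k) (LX k j) (X m)) := by
    apply ringHom_ext
    · intro b
      rw [RingHom.comp_apply, evalP_C, dehom, eval₂Hom_C, constP_val]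
      rfl
    · intro i
      rw [RingHom.comp_apply, evalP_X, dehom, eval₂Hom_X', coordA_val]
  have h2 : evalP ((algebraMap (MvPolynomial (Fin 3) k) (LX k j)).comp C)
      (fun m => algebraMap (MvPolynomial (Fin 3) k) (LX k j) (X m)) =
        algebraMap (MvPolynomial (Fin 3) k) (LX k j) := by
    apply ringHom_ext
    · intro b
      rw [evalP_C]
      rfl
    · intro i
      rw [evalP_X]
  rw [nsmul_one] at ha
  have h3 := congrArg (fun f => f a) h1
  simp only [RingHom.comp_apply] at h3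
  rw [evalP_smul _ (fun m => algebraMap (MvPolynomial (Fin 3) k) (LX k j) (X m)) _ a ha, h2,
    HomogeneousLocalization.algebraMap_apply] at h3
  rw [h3, Nat.cast_id]

/-- every morphism from an affine scheme to the plane with image in `D₊(X j)` has coordinates -/
theorem exists_ptP (g : Spec (.of B) ⟶ P2 k) (j : Fin 3)
    (h : ⊤ ≤ g ⁻¹ᵁ Proj.basicOpen (homogeneousSubmodule (Fin 3) k) (X j)) :
    ∃ (c : k →+* B) (ξ : Fin 3 → B) (hj : IsUnit (ξ j)), ξ j = 1 ∧ g = ptP c ξ j hj := by
  set ι := Proj.awayι (homogeneousSubmodule (Fin 3) k) (X j) (X_mem j) Nat.one_pos with hι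
  have h1 : Set.range g ⊆ Set.range ι := by
    rintro _ ⟨b, rfl⟩
    have h2 : g b ∈ Proj.basicOpen (homogeneousSubmodule (Fin 3) k) (X j) := h (Set.mem_univ b)
    rw [← Proj.opensRange_awayι (homogeneousSubmodule (Fin 3) k) (X j) (X_mem j) Nat.one_pos] at h2
    exact h2
  obtain ⟨ψ, hψ⟩ := Spec.map_surjective (IsOpenImmersion.lift ι g h1)
  have h3 : Spec.map ψ ≫ ι = g := by
    rw [hψ]
    exact IsOpenImmersion.lift_fac _ _ _
  have hone : coordA k j j = 1 := by
    apply HomogeneousLocalization.val_injective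
    have h4 := coordA_val (k := k) j j
    rw [HomogeneousLocalization.algebraMap_apply, mul_comm, mul_invX] at h4
    rw [h4, HomogeneousLocalization.val_one]
  have h5 : ψ.hom (coordA k j j) = 1 := by rw [hone, map_one]
  have h6 : IsUnit ((fun m => ψ.hom (coordA k j m)) j) := by
    change IsUnit (ψ.hom (coordA k j j))
    rw [h5]
    exact isUnit_one
  refine ⟨ψ.hom.comp (constP k j), fun m => ψ.hom (coordA k j m), h6, h5, ?_⟩
  have h7 : evalP (ψ.hom.comp (constP k j)) (fun m => ψ.hom (coordA k j m)) =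
      ψ.hom.comp (dehom k j) := by
    apply ringHom_ext
    · intro b
      rw [evalP_C, RingHom.comp_apply, RingHom.comp_apply, dehom, eval₂Hom_C]
    · intro i
      rw [evalP_X, RingHom.comp_apply, dehom, eval₂Hom_X']
  have h8 : rhoP (ψ.hom.comp (constP k j)) (fun m => ψ.hom (coordA k j m)) j h6 = ψ.hom := by
    apply RingHom.ext
    intro x
    obtain ⟨n, a, ha, rfl⟩ := x.mk_surjective _ (X_mem j)
    have h9 := rho_mk (evalP (ψ.hom.comp (constP k j)) (fun m => ψ.hom (coordA k j m)))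
      (isUnit_evalP _ h6) (X_mem j) n a ha
    rw [evalP_X, h5, one_pow, mul_one] at h9
    refine h9.trans ?_
    rw [h7, RingHom.comp_apply, ← dehom_eq j n a ha]
  rw [ptP_def, h8, ← h3]
  rfl

theorem ptP_injective {c c' : k →+* B} {ξ ξ' : Fin 3 → B} (j : Fin 3) (hj : IsUnit (ξ j))
    (hj' : IsUnit (ξ' j)) (h1 : ξ j = 1) (h2 : ξ' j = 1) (h : ptP c ξ j hj = ptP c' ξ' j hj') :
    c = c' ∧ ξ = ξ' := by
  rw [ptP_def, ptP_def] at h
  have h3 := Spec.map_injective ((cancel_mono _).1 h)
  have h4 : rhoP c ξ j hj = rhoP c' ξ' j hj' := congrArg CommRingCat.Hom.hom h3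
  constructor
  · ext a
    rw [← rhoP_constP c ξ j hj a, h4, rhoP_constP]
  · ext m
    have h5 := rhoP_coordA c ξ j m hj
    have h6 := rhoP_coordA c' ξ' j m hj'
    rw [h1, mul_one] at h5
    rw [h2, mul_one] at h6
    rw [← h5, ← h6, h4]

end K

end Pool.Agent.FL
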