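import Pool.Agent.Helper66.FL.Blow
import Pool.Agent.FLE
import Pool.Agent.FLK

open MvPolynomial AlgebraicGeometry HomogeneousLocalization CategoryTheory

universe u

namespace Pool.Agent.FL

namespace FLL

section

variable {k : Type u} [Field k] {r : ℕ} (α β : Fin r → k)

/-- the generic evaluation on the cone ring -/
noncomputable abbrev gv : coneRing (arrMod α β) →+* FK k :=
  gev (arrMod α β) (kapF k).toRingHom

lemma hu (x : ChartIx r) : IsUnit (gv α β (chartElt α β x)) :=
  (exists_chart_arr (kapF k) α β (isGeneric_kapF α β) x).choose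

/-- the comparison isomorphism between the chart ring and the homogeneous localisation -/
theorem exists_equiv (x : ChartIx r) :
    ∃ (e : CR α β x →+* Away (coneGr (arrMod α β)) (chartElt α β x))
      (e' : Away (coneGr (arrMod α β)) (chartElt α β x) →+* CR α β x),
      (∀ z, rho (gv α β) (coneGr (arrMod α β)) (hu α β x) (e z) = toK α β x z) ∧
      (∀ a, e (chartConst α β x a) =
        fromZeroRingHom (coneGr (arrMod α β)) (Submonoid.powers (chartElt α β x))
          (algebraMap k (coneGr (arrMod α β) 0) a)) ∧ (∀ z, e (e' z) = z) ∧ ∀ z, e' (e z) = z := by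
  obtain ⟨hu', ψ, h1, h2, h3⟩ := exists_chart_arr (kapF k) α β (isGeneric_kapF α β) x
  let _ := ψ.toAlgebra
  have : IsLocalization.Away (chartH α β x) (Away (coneGr (arrMod α β)) (chartElt α β x)) := h3
  let e := IsLocalization.algEquiv (Submonoid.powers (chartH α β x)) (CR α β x)
    (Away (coneGr (arrMod α β)) (chartElt α β x))
  have he : ∀ f, e (algebraMap _ (CR α β x) f) = ψ f := fun f => e.commutes f
  refine ⟨e.toRingEquiv.toRingHom, e.symm.toRingEquiv.toRingHom, ?_, ?_, ?_, ?_⟩
  · have key : (rho (gv α β) (coneGr (arrMod α β)) (hu α β x)).comp e.toRingEquiv.toRingHom =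
        toK α β x := by
      apply IsLocalization.ringHom_ext (Submonoid.powers (chartH α β x))
      refine RingHom.ext fun f => ?_
      refine Eq.trans ?_ (toK_algebraMap α β x f).symm
      refine Eq.trans ?_ (h1 f)
      exact congrArg (rho (gv α β) (coneGr (arrMod α β)) (hu α β x)) (he f)
    intro z
    exact congr($key z)
  · intro a
    exact (he (C a)).trans (h2 a)
  · intro z
    exact e.apply_symm_apply z
  · intro z
    exact e.symm_apply_apply z

/-- the comparison isomorphism -/
noncomputable def eqv (x : ChartIx r) :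
    CR α β x →+* Away (coneGr (arrMod α β)) (chartElt α β x) := (exists_equiv α β x).choose

/-- the inverse of the comparison isomorphism -/
noncomputable def eqs (x : ChartIx r) :
    Away (coneGr (arrMod α β)) (chartElt α β x) →+* CR α β x :=
  (exists_equiv α β x).choose_spec.choose

lemma rho_eqv (x : ChartIx r) (z : CR α β x) :
    rho (gv α β) (coneGr (arrMod α β)) (hu α β x) (eqv α β x z) = toK α β x z :=
  (exists_equiv α β x).choose_spec.choose_spec.1 z

lemma eqv_const (x : ChartIx r) (a : k) : eqv α β x (chartConst α β x a) =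
    fromZeroRingHom (coneGr (arrMod α β)) (Submonoid.powers (chartElt α β x))
      (algebraMap k (coneGr (arrMod α β) 0) a) :=
  (exists_equiv α β x).choose_spec.choose_spec.2.1 a

lemma eqv_eqs (x : ChartIx r) (z) : eqv α β x (eqs α β x z) = z :=
  (exists_equiv α β x).choose_spec.choose_spec.2.2.1 z

lemma eqs_eqv (x : ChartIx r) (z) : eqs α β x (eqv α β x z) = z :=
  (exists_equiv α β x).choose_spec.choose_spec.2.2.2 z

/-- the standard chart of the explicit blow-up -/
noncomputable abbrev aw (x : ChartIx r) :
    Spec (.of (Away (coneGr (arrMod α β)) (chartElt α β x))) ⟶ arrProj α β :=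
  Proj.awayι (coneGr (arrMod α β)) (chartElt α β x) (chartElt_mem α β x) (Nat.succ_pos _)

/-- the chart of the explicit blow-up -/
noncomputable def ch (x : ChartIx r) : Spec (.of (CR α β x)) ⟶ arrProj α β :=
  Spec.map (CommRingCat.ofHom (eqs α β x)) ≫ aw α β x

/-- the map of the chart to the plane -/
noncomputable abbrev piC (x : ChartIx r) : Spec (.of (CR α β x)) ⟶ P2 k :=
  ptP (chartConst α β x) (chartXi α β x) (chartJ x) (isUnit_chartXi α β x)

/-- the map of the standard chart to the plane -/
noncomputable def piA (x : ChartIx r) :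
    Spec (.of (Away (coneGr (arrMod α β)) (chartElt α β x))) ⟶ P2 k :=
  Spec.map (CommRingCat.ofHom (eqv α β x)) ≫ piC α β x

lemma symm_comp (x : ChartIx r) :
    Spec.map (CommRingCat.ofHom (eqs α β x)) ≫ Spec.map (CommRingCat.ofHom (eqv α β x)) = 𝟙 _ := by
  rw [← Spec.map_comp, ← CommRingCat.ofHom_comp]
  have : (eqs α β x).comp (eqv α β x) = RingHom.id _ := RingHom.ext (eqs_eqv α β x)
  rw [this]
  exact Spec.map_id _

lemma comp_symm (x : ChartIx r) :
    Spec.map (CommRingCat.ofHom (eqv α β x)) ≫ Spec.map (CommRingCat.ofHom (eqs α β x)) = 𝟙 _ := by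
  rw [← Spec.map_comp, ← CommRingCat.ofHom_comp]
  have : (eqv α β x).comp (eqs α β x) = RingHom.id _ := RingHom.ext (eqv_eqs α β x)
  rw [this]
  exact Spec.map_id _

instance isIso_symm (x : ChartIx r) : IsIso (Spec.map (CommRingCat.ofHom (eqs α β x))) :=
  ⟨_, symm_comp α β x, comp_symm α β x⟩

instance openImm_ch (x : ChartIx r) : IsOpenImmersion (ch α β x) := by
  unfold ch
  infer_instance

lemma ch_range (x : ChartIx r) : (ch α β x).opensRange =
    Proj.basicOpen (coneGr (arrMod α β)) (chartElt α β x) := by
  unfold ch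
  rw [Scheme.Hom.opensRange_comp_of_isIso]
  exact Proj.opensRange_awayι _ _ _ _

lemma isUnit_gv_mul (x y : ChartIx r) :
    IsUnit (gv α β (chartElt α β x * chartElt α β y)) := by
  rw [map_mul]; exact (hu α β x).mul (hu α β y)

/-- the evaluation on the overlap -/
noncomputable abbrev rhoXY (x y : ChartIx r) :
    Away (coneGr (arrMod α β)) (chartElt α β x * chartElt α β y) →+* FK k :=
  rho (gv α β) (coneGr (arrMod α β)) (isUnit_gv_mul α β x y)

lemma rhoXY_inj (x y : ChartIx r) : Function.Injective (rhoXY α β x y) :=
  rho_injective _ (gev_zero _ _ kapF_injective) _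
    (SetLike.mul_mem_graded (chartElt_mem α β x) (chartElt_mem α β y))

lemma toK_const (x : ChartIx r) (a : k) : toK α β x (chartConst α β x a) =
    algebraMap k (FK k) a := by
  unfold chartConst
  rw [RingHom.comp_apply, toK_algebraMap]
  unfold theta
  rw [aeval_C]

lemma toK_xi (x : ChartIx r) (m : Fin 3) :
    toK α β x (chartXi α β x m) * kapF k (coordW k (chartJ x)) = kapF k (coordW k m) := by
  unfold chartXi
  rw [toK_algebraMap]
  exact theta_coordP (kapF k) α β (isGeneric_kapF α β) x m

/-- two points with proportional coordinates agree -/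
lemma ptP_eq_of_smul {B : Type u} [CommRing B] (c : k →+* B) (ξ η : Fin 3 → B) (j j' : Fin 3)
    (hj : IsUnit (ξ j)) (hj' : IsUnit (η j')) (u : B) (hu : IsUnit u) (h : ∀ m, η m = u * ξ m) :
    ptP c ξ j hj = ptP c η j' hj' := by
  obtain rfl : η = fun m => u * ξ m := funext h
  rw [ptP_indep c (fun m => u * ξ m) j' j hj' (hu.mul hj), ptP_smul]

lemma compat (x y : ChartIx r) :
    Spec.map (CommRingCat.ofHom (awayMap (coneGr (arrMod α β)) (chartElt_mem α β y) rfl)) ≫
      piA α β x =
    Spec.map (CommRingCat.ofHom (awayMap (coneGr (arrMod α β)) (chartElt_mem α β x)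
      (mul_comm (chartElt α β x) (chartElt α β y)))) ≫ piA α β y := by
  unfold piA
  rw [← Category.assoc, ← Category.assoc, ← Spec.map_comp, ← Spec.map_comp,
    ← CommRingCat.ofHom_comp, ← CommRingCat.ofHom_comp, ptP_comp, ptP_comp]
  set ax := (awayMap (coneGr (arrMod α β)) (chartElt_mem α β y)
    (rfl : chartElt α β x * chartElt α β y = _)).comp (eqv α β x) with hax
  set ay := (awayMap (coneGr (arrMod α β)) (chartElt_mem α β x)
    (mul_comm (chartElt α β x) (chartElt α β y))).comp (eqv α β y) with hay
  have rx : ∀ z, rhoXY α β x y (ax z) = toK α β x z := by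
    intro z
    have h1 := rho_awayMap (gv α β) (hu α β x) (chartElt_mem α β y) rfl (isUnit_gv_mul α β x y)
    rw [← rho_eqv, ← h1]
    rfl
  have ry : ∀ z, rhoXY α β x y (ay z) = toK α β y z := by
    intro z
    have h1 := rho_awayMap (gv α β) (hu α β y) (chartElt_mem α β x)
      (mul_comm (chartElt α β x) (chartElt α β y)) (isUnit_gv_mul α β x y)
    rw [← rho_eqv, ← h1]
    rfl
  have hc : ay.comp (chartConst α β y) = ax.comp (chartConst α β x) := by
    refine RingHom.ext fun a => ?_
    apply rhoXY_inj α β x y
    exact (ry _).trans ((toK_const α β y a).trans ((toK_const α β x a).symm.trans (rx _).symm))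
  have ux := (isGeneric_kapF (k := k) α β).unit_coord (chartJ x)
  have uy := (isGeneric_kapF (k := k) α β).unit_coord (chartJ y)
  have hu0 : toK α β y (chartXi α β y (chartJ x)) * toK α β x (chartXi α β x (chartJ y)) = 1 := by
    apply (ux.mul uy).mul_left_cancel
    rw [mul_one]
    have e1 := toK_xi α β x (chartJ y)
    have e2 := toK_xi α β y (chartJ x)
    calc _ = (toK α β y (chartXi α β y (chartJ x)) * kapF k (coordW k (chartJ y))) *
        (toK α β x (chartXi α β x (chartJ y)) * kapF k (coordW k (chartJ x))) := by ring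
      _ = _ := by rw [e1, e2]
  have hu1 : ay (chartXi α β y (chartJ x)) * ax (chartXi α β x (chartJ y)) = 1 := by
    apply rhoXY_inj α β x y
    rw [map_mul, map_one, rx, ry]
    exact hu0
  have hu2 : ax (chartXi α β x (chartJ y)) * ay (chartXi α β y (chartJ x)) = 1 := by
    apply rhoXY_inj α β x y
    rw [map_mul, map_one, rx, ry, mul_comm]
    exact hu0
  have key := ptP_eq_of_smul (ax.comp (chartConst α β x)) (fun m => ax (chartXi α β x m))
    (fun m => ay (chartXi α β y m)) (chartJ x) (chartJ y) ((isUnit_chartXi α β x).map ax)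
    ((isUnit_chartXi α β y).map ay) (ay (chartXi α β y (chartJ x)))
    ⟨⟨_, _, hu1, hu2⟩, rfl⟩ (by
      intro m
      apply rhoXY_inj α β x y
      rw [map_mul, rx, ry, ry]
      apply (ux.mul uy).mul_left_cancel
      have e1 := toK_xi α β x m
      have e2 := toK_xi α β y (chartJ x)
      have e3 := toK_xi α β y m
      calc _ = (toK α β y (chartXi α β y m) * kapF k (coordW k (chartJ y))) *
          kapF k (coordW k (chartJ x)) := by ring
        _ = (toK α β y (chartXi α β y (chartJ x)) * kapF k (coordW k (chartJ y))) *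
          (toK α β x (chartXi α β x m) * kapF k (coordW k (chartJ x))) := by rw [e1, e2, e3]; ring
        _ = _ := by ring)
  refine key.trans ?_
  congr 1
  exact hc.symm

/-- the cover of the explicit blow-up by the standard charts -/
noncomputable def cov (hcov : ⨆ x : ChartIx r, Proj.basicOpen (coneGr (arrMod α β))
    (chartElt α β x) = ⊤) : (arrProj α β).AffineOpenCover where
  I₀ := ChartIx r
  X x := .of (Away (coneGr (arrMod α β)) (chartElt α β x))
  f x := aw α β x
  idx y := (TopologicalSpace.Opens.mem_iSup.mp (hcov.ge (Set.mem_univ y))).choose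
  covers y := by
    change y ∈ (Proj.awayι _ _ _ _).opensRange
    rw [Proj.opensRange_awayι]
    exact (TopologicalSpace.Opens.mem_iSup.mp (hcov.ge (Set.mem_univ y))).choose_spec

theorem exists_pi (hcov : ⨆ x : ChartIx r, Proj.basicOpen (coneGr (arrMod α β))
    (chartElt α β x) = ⊤) : ∃ π : arrProj α β ⟶ P2 k, (∀ x, aw α β x ≫ π = piA α β x) ∧
      π ≫ strP2 k = projStr (coneGr (arrMod α β)) := by
  let 𝒰 := (cov α β hcov).openCover
  let π := 𝒰.glueMorphisms (fun (x : ChartIx r) => piA α β x) (by
    intro x y
    change Limits.pullback.fst (aw α β x) (aw α β y) ≫ piA α β x =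
      Limits.pullback.snd (aw α β x) (aw α β y) ≫ piA α β y
    rw [← cancel_epi (Proj.pullbackAwayιIso (coneGr (arrMod α β)) (chartElt_mem α β x)
      (Nat.succ_pos _) (chartElt_mem α β y) (Nat.succ_pos _) rfl).inv,
      Proj.pullbackAwayιIso_inv_fst_assoc, Proj.pullbackAwayιIso_inv_snd_assoc]
    exact compat α β x y)
  have hπ : ∀ x, aw α β x ≫ π = piA α β x := fun x =>
    Scheme.Cover.ι_glueMorphisms 𝒰 (fun (x : ChartIx r) => piA α β x) _ x
  refine ⟨π, hπ, ?_⟩
  refine Scheme.Cover.hom_ext 𝒰 _ _ fun (x : ChartIx r) => ?_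
  change aw α β x ≫ π ≫ strP2 k = aw α β x ≫ projStr _
  rw [← Category.assoc, hπ, awayι_projStr]
  unfold piA
  rw [Category.assoc, ptP_str, ← Spec.map_comp, ← CommRingCat.ofHom_comp]
  congr 2
  refine RingHom.ext fun a => ?_
  exact eqv_const α β x a

end

end FLL

theorem exists_atlas {k : Type u} [Field k] {r : ℕ} (α β : Fin r → k) (hr : 0 < r)
    (hd : Function.Injective fun i => (α i, β i)) :
    ∃ A : Atlas α β (arrProj α β), A.π ≫ strP2 k = projStr (coneGr (arrMod α β)) := by
  have hcov := iSup_basicOpen_chart α β hr (by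
    intro i j hij
    by_contra h
    push Not at h
    apply hij
    apply hd
    have h1 := h.1
    have h2 := h.2
    rw [isUnit_iff_ne_zero, not_not, sub_eq_zero] at h1 h2
    exact Prod.ext h1 h2)
  obtain ⟨π, h1, h2⟩ := FLL.exists_pi α β hcov
  refine ⟨{ chart := FLL.ch α β
            openImm := FLL.openImm_ch α β
            cover := by
              simp_rw [FLL.ch_range]
              exact hcov
            π := π
            chart_π := fun x => by
              unfold FLL.ch
              rw [Category.assoc, h1]
              unfold FLL.piA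
              rw [← Category.assoc, FLL.symm_comp, Category.id_comp]
            gen := genPt (FLL.gv α β) (coneGr (arrMod α β)) (FLL.hu α β (.inr false))
              (chartElt_mem α β (.inr false)) (Nat.succ_pos _)
            gen_eq := fun x => by
              rw [genPt_indep (FLL.gv α β) (FLL.hu α β (.inr false))
                (chartElt_mem α β (.inr false)) (Nat.succ_pos _) (FLL.hu α β x)
                (chartElt_mem α β x) (Nat.succ_pos _)]
              unfold genPt FLL.ch
              rw [← Category.assoc, ← Spec.map_comp, ← CommRingCat.ofHom_comp]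
              congr 3
              refine RingHom.ext fun z => ?_
              have h3 := FLL.rho_eqv α β x (FLL.eqs α β x z)
              rw [FLL.eqv_eqs] at h3
              exact h3
            sep := inferInstance }, h2⟩

end Pool.Agent.FL
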