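import Pool.Agent.FLK

/-!
# The inverse image of the ideal sheaf of the points (MP_b2373b_ag, offer M)
-/

open MvPolynomial AlgebraicGeometry HomogeneousLocalization CategoryTheory

universe u

namespace Pool.Agent.FL

section Kap

/-- vanishing of sections can be tested with `kap` -/
lemma app_eq_zero_iff {X : Scheme.{u}} {K : Type u} [CommRing K] (g : Spec (.of K) ⟶ X)
    {U : X.Opens} (h : ⊤ ≤ g ⁻¹ᵁ U) (s : Γ(X, U)) :
    (g.app U).hom s = 0 ↔ kap g h s = 0 := by
  have e : g ⁻¹ᵁ U = ⊤ := top_le_iff.1 h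
  have h1 : g.appLE U ⊤ h = g.app U ≫ (Spec (.of K)).presheaf.map (homOfLE h).op := rfl
  have h2 : IsIso ((Spec (.of K)).presheaf.map (homOfLE h).op) := by
    have : IsIso (homOfLE h) := ⟨homOfLE e.le, rfl, rfl⟩
    infer_instance
  unfold kap
  rw [h1, Category.assoc]
  have h3 : Function.Injective ((Spec (.of K)).presheaf.map (homOfLE h).op ≫
      (Scheme.ΓSpecIso (.of K)).hom).hom :=
    (ConcreteCategory.bijective_of_isIso ((Spec (.of K)).presheaf.map (homOfLE h).op ≫
      (Scheme.ΓSpecIso (.of K)).hom)).1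
  rw [CommRingCat.hom_comp, RingHom.comp_apply]
  exact (map_eq_zero_iff _ h3).symm

lemma app_eq_zero_of_bot {X Y : Scheme.{u}} (g : Y ⟶ X) {U : X.Opens} (h : g ⁻¹ᵁ U = ⊥)
    (s : Γ(X, U)) : (g.app U).hom s = 0 := by
  have h1 : Subsingleton Γ(Y, g ⁻¹ᵁ U) := by
    rw [h]
    infer_instance
  exact Subsingleton.elim _ _

end Kap

section M0

variable {k B : Type u} [CommRing k] [CommRing B] (c : k →+* B) (ξ : Fin 3 → B)

lemma isUnit_evalP_of_le (j : Fin 3) (hj : IsUnit (ξ j)) {n : ℕ} (hn : 0 < n)
    (f : MvPolynomial (Fin 3) k) (hf : f ∈ homogeneousSubmodule (Fin 3) k n)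
    (hU : ⊤ ≤ ptP c ξ j hj ⁻¹ᵁ Proj.basicOpen (homogeneousSubmodule (Fin 3) k) f) :
    IsUnit (evalP c ξ f) := by
  by_contra h
  obtain ⟨m, hm, hfm⟩ := exists_max_ideal_of_mem_nonunits h
  exact (ptP_mem_basicOpen c ξ j hj hn f hf (⟨m, hm.isPrime⟩ : PrimeSpectrum B)).1
    (hU (Set.mem_univ _)) hfm

lemma le_of_isUnit_evalP (j : Fin 3) (hj : IsUnit (ξ j)) {n : ℕ} (hn : 0 < n)
    (f : MvPolynomial (Fin 3) k) (hf : f ∈ homogeneousSubmodule (Fin 3) k n)
    (hu : IsUnit (evalP c ξ f)) :
    ⊤ ≤ ptP c ξ j hj ⁻¹ᵁ Proj.basicOpen (homogeneousSubmodule (Fin 3) k) f := by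
  intro b _
  refine (ptP_mem_basicOpen c ξ j hj hn f hf b).2 fun h => ?_
  exact (show PrimeSpectrum B from b).isPrime.ne_top (Ideal.eq_top_of_isUnit_mem _ h hu)

lemma preimage_eq_bot (j : Fin 3) (hj : IsUnit (ξ j)) {n : ℕ} (hn : 0 < n)
    (f : MvPolynomial (Fin 3) k) (hf : f ∈ homogeneousSubmodule (Fin 3) k n)
    (h0 : evalP c ξ f = 0) :
    ptP c ξ j hj ⁻¹ᵁ Proj.basicOpen (homogeneousSubmodule (Fin 3) k) f = ⊥ := by
  rw [eq_bot_iff]
  intro b hb
  exact absurd (by rw [h0]; exact Ideal.zero_mem _) ((ptP_mem_basicOpen c ξ j hj hn f hf b).1 hb)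

lemma kap_ptP (j : Fin 3) (hj : IsUnit (ξ j)) {n : ℕ} (hn : 0 < n)
    (f : MvPolynomial (Fin 3) k) (hf : f ∈ homogeneousSubmodule (Fin 3) k n)
    (hu : IsUnit (evalP c ξ f))
    (hU : ⊤ ≤ ptP c ξ j hj ⁻¹ᵁ Proj.basicOpen (homogeneousSubmodule (Fin 3) k) f)
    (y : Away (homogeneousSubmodule (Fin 3) k) f) :
    kap (ptP c ξ j hj) hU ((Proj.awayToSection (homogeneousSubmodule (Fin 3) k) f).hom y) =
      rho (evalP c ξ) (homogeneousSubmodule (Fin 3) k) hu y := by
  have key : ∀ (pt : Spec (.of B) ⟶ P2 k)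
      (_ : pt = genPt (evalP c ξ) (homogeneousSubmodule (Fin 3) k) hu hf hn)
      (h : ⊤ ≤ pt ⁻¹ᵁ Proj.basicOpen (homogeneousSubmodule (Fin 3) k) f),
      kap pt h ((Proj.awayToSection (homogeneousSubmodule (Fin 3) k) f).hom y) =
        rho (evalP c ξ) (homogeneousSubmodule (Fin 3) k) hu y := by
    rintro pt rfl h
    exact kap_awayToSection (evalP c ξ) hu hf hn h y
  exact key _ (genPt_indep _ _ _ _ _ _ _) hU

lemma awayToSection_surjective {n : ℕ} (hn : 0 < n)
    (f : MvPolynomial (Fin 3) k) (hf : f ∈ homogeneousSubmodule (Fin 3) k n) :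
    Function.Surjective (Proj.awayToSection (homogeneousSubmodule (Fin 3) k) f).hom := by
  have h := Proj.basicOpenIsoAway_hom (homogeneousSubmodule (Fin 3) k) f hf hn
  rw [← h]
  exact (ConcreteCategory.bijective_of_isIso _).2

end M0

section M
variable {k : Type u} [Field k] {r : ℕ} (α β : Fin r → k)

/-- evaluation at the `l`-th point -/
noncomputable abbrev evAt (l : Fin r) : MvPolynomial (Fin 3) k →+* k :=
  evalP (RingHom.id k) ![1, α l, β l]

lemma evAt_linH (l i : Fin r) (b : Bool) :
    evAt α β l (linH α β i b) = bif b then β l - β i else α l - α i := by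
  cases b
  · simp [linH, evalP_X, evalP_C]
  · simp [linH, evalP_X, evalP_C]

lemma evalP_linH {B : Type u} [CommRing B] (c : k →+* B) (ξ : Fin 3 → B) (h0 : ξ 0 = 1)
    (i : Fin r) (b : Bool) :
    evalP c ξ (linH α β i b) = bif b then ξ 2 - c (β i) else ξ 1 - c (α i) := by
  cases b
  · simp [linH, evalP_X, evalP_C, h0]
  · simp [linH, evalP_X, evalP_C, h0]

lemma mem_ideal_iff (U : (P2 k).affineOpens) (s : Γ(P2 k, U.1)) :
    s ∈ (idealPts α β).ideal U ↔ ∀ l, ((affPt (α l) (β l)).app U.1).hom s = 0 := by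
  have h1 : ∀ l, QuasiCompact (affPt (α l) (β l)) := fun l => inferInstance
  unfold idealPts idealOfPts
  rw [Scheme.IdealSheafData.ideal_iInf, iInf_apply, Ideal.mem_iInf]
  refine forall_congr' fun l => ?_
  rw [Scheme.Hom.ker_apply, RingHom.mem_ker]

/-- the sections of the ideal sheaf over a base open -/
lemma mem_ideal_baseOpen (x : ChartIx r) (n : ℕ) (a : MvPolynomial (Fin 3) k)
    (ha : a ∈ homogeneousSubmodule (Fin 3) k (n • ((chartD x).card + 1))) :
    (Proj.awayToSection (homogeneousSubmodule (Fin 3) k) (baseElt α β x)).hom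
      (Away.mk _ (baseElt_mem α β x) n a ha) ∈ (idealPts α β).ideal (baseOpen α β x) ↔
      ∀ l, evAt α β l (baseElt α β x) ≠ 0 → evAt α β l a = 0 := by
  refine (mem_ideal_iff α β (baseOpen α β x) _).trans (forall_congr' fun l => ?_)
  by_cases h : evAt α β l (baseElt α β x) = 0
  · refine iff_of_true ?_ (fun h' => absurd h h')
    exact app_eq_zero_of_bot _ (preimage_eq_bot (RingHom.id k) ![1, α l, β l] 0 isUnit_one
      (Nat.succ_pos _) (baseElt α β x) (baseElt_mem α β x) h) _
  · have hu : IsUnit (evAt α β l (baseElt α β x)) := isUnit_iff_ne_zero.2 h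
    have hU := le_of_isUnit_evalP (RingHom.id k) ![1, α l, β l] 0 isUnit_one
      (Nat.succ_pos _) (baseElt α β x) (baseElt_mem α β x) hu
    have e1 := app_eq_zero_iff (affPt (α l) (β l)) (U := (baseOpen α β x).1) hU
      ((Proj.awayToSection (homogeneousSubmodule (Fin 3) k) (baseElt α β x)).hom
        (Away.mk _ (baseElt_mem α β x) n a ha))
    refine e1.trans ?_
    have e2 := kap_ptP (RingHom.id k) ![1, α l, β l] 0 isUnit_one (Nat.succ_pos _)
      (baseElt α β x) (baseElt_mem α β x) hu hU (Away.mk _ (baseElt_mem α β x) n a ha)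
    have e3 := rho_mk (evAt α β l) hu (baseElt_mem α β x) n a ha
    have e4 : kap (affPt (α l) (β l)) hU
        ((Proj.awayToSection (homogeneousSubmodule (Fin 3) k) (baseElt α β x)).hom
          (Away.mk _ (baseElt_mem α β x) n a ha)) =
        rho (evAt α β l) (homogeneousSubmodule (Fin 3) k) hu
          (Away.mk _ (baseElt_mem α β x) n a ha) := e2
    constructor
    · intro h1 _
      have h2 := e4.symm.trans h1
      rw [← e3, h2, zero_mul]
    · intro h1
      refine e4.trans ?_
      rw [← e3] at h1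
      exact (mul_eq_zero.1 (h1 h)).resolve_right (pow_ne_zero _ h)

lemma evAt_baseElt_eq_zero (x : ChartIx r) (l : Fin r) (hl : l ∈ chartD x) :
    evAt α β l (baseElt α β x) = 0 := by
  unfold baseElt
  rw [map_mul, map_prod]
  have h1 : evAt α β l (linH α β l (chartC x l)) = 0 := by
    rw [evAt_linH]
    cases chartC x l <;> simp
  rw [Finset.prod_eq_zero hl h1, mul_zero]

/-- Near the line at infinity there are no points. -/
theorem ideal_baseOpen_inr (b : Bool) :
    (idealPts α β).ideal (baseOpen α β (.inr b)) = ⊤ := by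
  rw [Ideal.eq_top_iff_one]
  have h1 : (Proj.awayToSection (homogeneousSubmodule (Fin 3) k)
      (baseElt α β (.inr b : ChartIx r))).hom 1 = 1 := map_one _
  obtain ⟨n, a, ha, h2⟩ := (1 : Away (homogeneousSubmodule (Fin 3) k)
    (baseElt α β (.inr b : ChartIx r))).mk_surjective _ (baseElt_mem α β (.inr b))
  rw [← h2] at h1
  have h3 := (mem_ideal_baseOpen α β (.inr b) n a ha).2 fun l hl =>
    absurd (evAt_baseElt_eq_zero α β (.inr b) l (Finset.mem_univ l)) hl
  rw [h1] at h3
  exact h3

/-- a polynomial vanishing at the `i`-th point is in the ideal generated by the two forms -/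
lemma evalP_mem_span {B : Type u} [CommRing B] (c : k →+* B) (ξ : Fin 3 → B) (h0 : ξ 0 = 1)
    (i : Fin r) (a : MvPolynomial (Fin 3) k) (ha : evAt α β i a = 0) :
    evalP c ξ a ∈ Ideal.span {ξ 1 - c (α i), ξ 2 - c (β i)} := by
  set J := Ideal.span {ξ 1 - c (α i), ξ 2 - c (β i)} with hJ
  have h1 : (Ideal.Quotient.mk J).comp (evalP c ξ) =
      ((Ideal.Quotient.mk J).comp c).comp (evAt α β i) := by
    apply ringHom_ext
    · intro b
      simp only [RingHom.comp_apply, evalP_C]
      rfl
    · intro m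
      simp only [RingHom.comp_apply, evalP_X]
      fin_cases m
      · change Ideal.Quotient.mk J (ξ 0) = Ideal.Quotient.mk J (c 1)
        rw [h0, map_one, map_one, map_one]
      · change Ideal.Quotient.mk J (ξ 1) = Ideal.Quotient.mk J (c (α i))
        rw [Ideal.Quotient.eq, hJ]
        exact Ideal.subset_span (by simp)
      · change Ideal.Quotient.mk J (ξ 2) = Ideal.Quotient.mk J (c (β i))
        rw [Ideal.Quotient.eq, hJ]
        exact Ideal.subset_span (by simp)
  have h2 := congrArg (fun f => f a) h1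
  simp only [RingHom.comp_apply, ha, map_zero] at h2
  exact Ideal.Quotient.eq_zero_iff_mem.1 h2

/-- On the base of a chart near the `i`-th point the ideal sheaf is generated by the two linear
forms. (`U = baseOpen (inl (i, c))` contains no `P l` with `l ≠ i`, because `linH l (c l)` vanishes
there; `IdealSheafData.ideal_iInf`, `Scheme.Hom.ker_apply`. Any `g : Spec B ⟶ U` with
coordinates `ξ`, `ξ 0 = 1`, pulls the two generators back to `ξ 1 - α i`, `ξ 2 - β i`.) -/
theorem ideal_baseOpen_inl (i : Fin r) (b : Fin r → Bool) {B : Type u} [CommRing B] (c : k →+* B)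
    (ξ : Fin 3 → B) (h0 : ξ 0 = 1) (h0' : IsUnit (ξ 0))
    (hU : ⊤ ≤ (ptP c ξ 0 h0') ⁻¹ᵁ (baseOpen α β (.inl (i, b))).1) :
    ((idealPts α β).ideal (baseOpen α β (.inl (i, b)))).map
      ((ptP c ξ 0 h0').appLE (baseOpen α β (.inl (i, b))).1 ⊤ hU ≫
        (Scheme.ΓSpecIso (.of B)).hom).hom =
      Ideal.span {ξ 1 - c (α i), ξ 2 - c (β i)} := by
  change ((idealPts α β).ideal (baseOpen α β (.inl (i, b)))).map (kap (ptP c ξ 0 h0') hU) = _
  set x : ChartIx r := .inl (i, b) with hx
  have hfu : IsUnit (evalP c ξ (baseElt α β x)) := isUnit_evalP_of_le c ξ 0 h0'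
    (Nat.succ_pos _) (baseElt α β x) (baseElt_mem α β x) hU
  have hkap : ∀ (n : ℕ) (a : MvPolynomial (Fin 3) k)
      (ha : a ∈ homogeneousSubmodule (Fin 3) k (n • ((chartD x).card + 1))),
      kap (ptP c ξ 0 h0') hU ((Proj.awayToSection (homogeneousSubmodule (Fin 3) k)
        (baseElt α β x)).hom (Away.mk _ (baseElt_mem α β x) n a ha)) *
        evalP c ξ (baseElt α β x) ^ n = evalP c ξ a := by
    intro n a ha
    have e2 := kap_ptP c ξ 0 h0' (Nat.succ_pos _)
      (baseElt α β x) (baseElt_mem α β x) hfu hU (Away.mk _ (baseElt_mem α β x) n a ha)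
    have e4 : kap (ptP c ξ 0 h0') hU
        ((Proj.awayToSection (homogeneousSubmodule (Fin 3) k) (baseElt α β x)).hom
          (Away.mk _ (baseElt_mem α β x) n a ha)) =
        rho (evalP c ξ) (homogeneousSubmodule (Fin 3) k) hfu
          (Away.mk _ (baseElt_mem α β x) n a ha) := e2
    rw [e4]
    exact rho_mk (evalP c ξ) hfu (baseElt_mem α β x) n a ha
  apply le_antisymm
  · rw [Ideal.map_le_iff_le_comap]
    intro s hs
    rw [Ideal.mem_comap]
    obtain ⟨y, rfl⟩ := awayToSection_surjective (Nat.succ_pos _) (baseElt α β x)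
      (baseElt_mem α β x) s
    obtain ⟨n, a, ha, rfl⟩ := y.mk_surjective _ (baseElt_mem α β x)
    have h1 := (mem_ideal_baseOpen α β x n a ha).1 hs i
    by_cases h2 : evAt α β i (baseElt α β x) = 0
    · have h3 : Ideal.span {ξ 1 - c (α i), ξ 2 - c (β i)} = ⊤ := by
        unfold baseElt at h2 hfu
        rw [map_mul, map_prod, evalP_X] at h2
        have h4 : (∏ l ∈ chartD x, evAt α β i (linH α β l (chartC x l))) = 0 := by
          refine (mul_eq_zero.1 h2).resolve_left ?_
          change (1 : k) ≠ 0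
          exact one_ne_zero
        obtain ⟨l, hl, h5⟩ := Finset.prod_eq_zero_iff.1 h4
        rw [map_mul, map_prod] at hfu
        have h6 : IsUnit (evalP c ξ (linH α β l (chartC x l))) :=
          isUnit_of_dvd_unit ((Finset.dvd_prod_of_mem
            (fun l => evalP c ξ (linH α β l (chartC x l))) hl).trans (dvd_mul_left _ _)) hfu
        rw [evAt_linH] at h5
        rw [evalP_linH α β c ξ h0] at h6
        cases h7 : chartC x l with
        | false =>
          rw [h7] at h5 h6
          change α i - α l = 0 at h5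
          change IsUnit (ξ 1 - c (α l)) at h6
          rw [← sub_eq_zero.1 h5] at h6
          exact Ideal.eq_top_of_isUnit_mem _ (Ideal.subset_span (by simp)) h6
        | true =>
          rw [h7] at h5 h6
          change β i - β l = 0 at h5
          change IsUnit (ξ 2 - c (β l)) at h6
          rw [← sub_eq_zero.1 h5] at h6
          exact Ideal.eq_top_of_isUnit_mem _ (Ideal.subset_span (by simp)) h6
      rw [h3]
      exact Submodule.mem_top
    · have h3 := evalP_mem_span α β c ξ h0 i a (h1 h2)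
      rw [← hkap n a ha] at h3
      obtain ⟨v, hv⟩ := (hfu.pow n).exists_right_inv
      have h5 := Ideal.mul_mem_right v _ h3
      rwa [mul_assoc, hv, mul_one] at h5
  · rw [Ideal.span_le]
    have key : ∀ b' : Bool, evalP c ξ (linH α β i b') ∈
        ((idealPts α β).ideal (baseOpen α β x)).map (kap (ptP c ξ 0 h0') hU) := by
      intro b'
      have hm : linH α β i b' * ∏ l ∈ chartD x, linH α β l (chartC x l) ∈
          homogeneousSubmodule (Fin 3) k (1 • ((chartD x).card + 1)) := by
        rw [mem_homogeneousSubmodule]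
        have h1 := IsHomogeneous.prod (chartD x) (fun l => linH α β l (chartC x l)) (fun _ => 1)
          (fun l _ => (mem_homogeneousSubmodule _ _).1 (linH_mem α β l (chartC x l)))
        rw [Finset.sum_const, smul_eq_mul, mul_one] at h1
        rw [one_smul, add_comm]
        exact ((mem_homogeneousSubmodule _ _).1 (linH_mem α β i b')).mul h1
      have h1 := (mem_ideal_baseOpen α β x 1 _ hm).2 (by
        intro l hl
        have hli : l = i := by
          by_contra hne
          exact hl (evAt_baseElt_eq_zero α β x l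
            (Finset.mem_erase.2 ⟨hne, Finset.mem_univ l⟩))
        subst hli
        rw [map_mul, evAt_linH]
        cases b' <;> simp)
      have h2 := Ideal.mem_map_of_mem (kap (ptP c ξ 0 h0') hU) h1
      have h3 := hkap 1 _ hm
      rw [pow_one] at h3
      have h4 : evalP c ξ (linH α β i b' * ∏ l ∈ chartD x, linH α β l (chartC x l)) =
          evalP c ξ (linH α β i b') * evalP c ξ (baseElt α β x) := by
        unfold baseElt
        rw [map_mul, map_mul, evalP_X]
        change _ = _ * (ξ 0 * _)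
        rw [h0, one_mul]
      rw [h4] at h3
      rw [← hfu.mul_right_cancel h3]
      exact h2
    intro z hz
    rcases hz with rfl | hz
    · have := key false
      rwa [evalP_linH α β c ξ h0] at this
    · rw [Set.mem_singleton_iff.1 hz]
      have := key true
      rwa [evalP_linH α β c ξ h0] at this

lemma isUnit_baseElt_chart (x : ChartIx r) :
    IsUnit (evalP (chartConst α β x) (chartXi α β x) (baseElt α β x)) := by
  unfold baseElt
  rw [map_mul, map_prod, evalP_X]
  refine (isUnit_chartXi α β x).mul ?_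
  have h1 : ∀ l b, evalP (chartConst α β x) (chartXi α β x) (linH α β l b) =
      algebraMap _ (CR α β x) (linP α β x l b) := by
    intro l b
    cases b
    · simp [linH, linP, evalP_X, evalP_C, chartConst, chartXi]
    · simp [linH, linP, evalP_X, evalP_C, chartConst, chartXi]
  simp only [h1]
  rw [← map_prod]
  exact IsLocalization.Away.algebraMap_isUnit (chartH α β x)

/-- the charts lie over the base opens -/
theorem atlas_chart_base {X : Scheme.{u}} (A : Atlas α β X) (x : ChartIx r) :
    ⊤ ≤ (A.chart x ≫ A.π) ⁻¹ᵁ (baseOpen α β x).1 := by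
  rw [A.chart_π x]
  exact le_of_isUnit_evalP _ _ _ _ (Nat.succ_pos _) _ (baseElt_mem α β x)
    (isUnit_baseElt_chart α β x)

/-- functions on the image of an open immersion of an affine scheme -/
lemma kap_bijective {X : Scheme.{u}} {K : Type u} [CommRing K] (g : Spec (.of K) ⟶ X)
    [IsOpenImmersion g] (h : ⊤ ≤ g ⁻¹ᵁ g.opensRange) : Function.Bijective (kap g h) := by
  have h1 : g.appLE g.opensRange ⊤ h =
      g.app g.opensRange ≫ (Spec (.of K)).presheaf.map (homOfLE h).op := rfl
  have h2 : IsIso ((Spec (.of K)).presheaf.map (homOfLE h).op) := by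
    have : IsIso (homOfLE h) := ⟨homOfLE le_top, rfl, rfl⟩
    infer_instance
  have h3 : IsIso (g.app g.opensRange) := g.isIso_app _ le_rfl
  unfold kap
  rw [h1]
  exact ConcreteCategory.bijective_of_isIso
    ((g.app g.opensRange ≫ (Spec (.of K)).presheaf.map (homOfLE h).op) ≫
      (Scheme.ΓSpecIso (.of K)).hom)

lemma X0_mem_nonZeroDivisors (x : ChartIx r) :
    (algebraMap (MvPolynomial (Fin 2) k) (CR α β x) (X 0)) ∈ nonZeroDivisors (CR α β x) := by
  have h1 : (X 0 : MvPolynomial (Fin 2) k) ∈ nonZeroDivisors (MvPolynomial (Fin 2) k) :=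
    mem_nonZeroDivisors_of_ne_zero (X_ne_zero 0)
  exact IsLocalization.map_nonZeroDivisors_le (Submonoid.powers (chartH α β x)) (CR α β x)
    ⟨_, h1, rfl⟩

/-- the inverse image of the ideal in the coordinate ring of a chart is invertible -/
lemma chart_ideal (x : ChartIx r) (g : Spec (.of (CR α β x)) ⟶ P2 k)
    (hg : g = ptP (chartConst α β x) (chartXi α β x) (chartJ x) (isUnit_chartXi α β x))
    (h : ⊤ ≤ g ⁻¹ᵁ (baseOpen α β x).1) :
    ∃ σ ∈ nonZeroDivisors (CR α β x),
      ((idealPts α β).ideal (baseOpen α β x)).map (kap g h) = Ideal.span {σ} := by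
  subst hg
  rcases x with ⟨i, b⟩ | b
  · have h0 : chartXi α β (.inl (i, b)) 0 = 1 := by
      change algebraMap _ _ (coordP α β (.inl (i, b)) (chartJ (.inl (i, b) : ChartIx r))) = 1
      rw [coordP_chartJ, map_one]
    refine ⟨_, X0_mem_nonZeroDivisors α β (.inl (i, b)), ?_⟩
    refine (ideal_baseOpen_inl α β i b (chartConst α β (.inl (i, b)))
      (chartXi α β (.inl (i, b))) h0 _ h).trans ?_
    set s := algebraMap (MvPolynomial (Fin 2) k) (CR α β (.inl (i, b))) (X 0) with hs
    set t := algebraMap (MvPolynomial (Fin 2) k) (CR α β (.inl (i, b))) (X 1) with ht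
    have hle : ∀ y z : CR α β (.inl (i, b)), Ideal.span {y, y * z} = Ideal.span {y} := by
      intro y z
      apply le_antisymm
      · rw [Ideal.span_le]
        rintro w (rfl | hw)
        · exact Ideal.subset_span rfl
        · rw [Set.mem_singleton_iff.1 hw]
          exact Ideal.mul_mem_right _ _ (Ideal.subset_span rfl)
      · exact Ideal.span_mono (by simp)
    cases hb : b i with
    | false =>
      have e1 : chartXi α β (.inl (i, b)) 1 - chartConst α β (.inl (i, b)) (α i) = s := by
        simp [chartXi, coordP, hb, chartConst, hs]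
      have e2 : chartXi α β (.inl (i, b)) 2 - chartConst α β (.inl (i, b)) (β i) = s * t := by
        simp [chartXi, coordP, hb, chartConst, hs, ht]
      rw [e1, e2, hle]
    | true =>
      have e1 : chartXi α β (.inl (i, b)) 1 - chartConst α β (.inl (i, b)) (α i) = s * t := by
        simp [chartXi, coordP, hb, chartConst, hs, ht]
      have e2 : chartXi α β (.inl (i, b)) 2 - chartConst α β (.inl (i, b)) (β i) = s := by
        simp [chartXi, coordP, hb, chartConst, hs]
      rw [e1, e2, Set.pair_comm, hle]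
  · refine ⟨1, one_mem _, ?_⟩
    rw [ideal_baseOpen_inr, Ideal.map_top, Ideal.span_singleton_one]

theorem atlas_invertible {X : Scheme.{u}} (A : Atlas α β X) :
    IsInvertibleAlong (idealPts α β) A.π := by
  intro t
  have hI := A.openImm
  have ht : t ∈ ⨆ x, (A.chart x).opensRange := by rw [A.cover]; trivial
  obtain ⟨x, hx⟩ := TopologicalSpace.Opens.mem_iSup.1 ht
  have h1 : ⊤ ≤ A.chart x ⁻¹ᵁ (A.chart x).opensRange := fun y _ => ⟨y, rfl⟩
  have hb := atlas_chart_base α β A x
  have h2 : (A.chart x).opensRange ≤ A.π ⁻¹ᵁ (baseOpen α β x).1 := by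
    rintro _ ⟨y, rfl⟩
    exact hb (Set.mem_univ y)
  refine ⟨baseOpen α β x, ⟨(A.chart x).opensRange, isAffineOpen_opensRange _⟩, h2, hx, ?_⟩
  have hbij := kap_bijective (A.chart x) h1
  have h3 : (kap (A.chart x) h1).comp (A.π.appLE (baseOpen α β x).1 (A.chart x).opensRange h2).hom =
      kap (A.chart x ≫ A.π) hb := by
    have h4 : A.π.appLE (baseOpen α β x).1 (A.chart x).opensRange h2 ≫
        (A.chart x).appLE (A.chart x).opensRange ⊤ h1 =
        (A.chart x ≫ A.π).appLE (baseOpen α β x).1 ⊤ hb := Scheme.Hom.appLE_comp_appLE _ _ _ _ _ _ _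
    unfold kap
    rw [← h4, Category.assoc]
    rfl
  set J := ((idealPts α β).ideal (baseOpen α β x)).map
    (A.π.appLE (baseOpen α β x).1 (A.chart x).opensRange h2).hom with hJ
  have h5 : J.map (kap (A.chart x) h1) =
      ((idealPts α β).ideal (baseOpen α β x)).map (kap (A.chart x ≫ A.π) hb) := by
    rw [hJ, Ideal.map_map, h3]
  obtain ⟨σ, hσ, h7⟩ := chart_ideal α β x _ (A.chart_π x) hb
  rw [h7] at h5
  let E : Γ(X, (A.chart x).opensRange) ≃+* CR α β x := RingEquiv.ofBijective _ hbij
  refine ⟨E.symm σ, ?_, ?_⟩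
  · rw [mem_nonZeroDivisors_iff_right]
    intro z hz
    have h8 : E z * σ = 0 := by
      have := congrArg E hz
      rwa [map_mul, E.apply_symm_apply, map_zero] at this
    exact (map_eq_zero_iff E E.injective).1 ((mem_nonZeroDivisors_iff_right.1 hσ) _ h8)
  · change J = _
    have h8 : (Ideal.span {E.symm σ}).map (kap (A.chart x) h1) = Ideal.span {σ} := by
      rw [Ideal.map_span, Set.image_singleton]
      congr 2
      exact E.apply_symm_apply σ
    rw [← Ideal.comap_map_of_bijective (kap (A.chart x) h1) hbij (I := J), h5, ← h8,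
      Ideal.comap_map_of_bijective (kap (A.chart x) h1) hbij]

end M

end Pool.Agent.FL
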