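import Pool.Agent.FLK
import Pool.Agent.FLM

/-!
# Local existence of lifts to the blow-up (MP_b2373b_ag, wave 3, offer N)
-/

open MvPolynomial AlgebraicGeometry HomogeneousLocalization CategoryTheory

universe u

namespace Pool.Agent.FL

lemma exists_X_notMem_N {k : Type u} [CommRing k] (y : P2 k) :
    ∃ j : Fin 3, (X j : MvPolynomial (Fin 3) k) ∉ y.asHomogeneousIdeal.toIdeal := by
  have h := Proj.iSup_basicOpen_eq_top (homogeneousSubmodule (Fin 3) k)
    (fun j : Fin 3 => (X j : MvPolynomial (Fin 3) k)) (by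
      intro x hx
      have hx' := (HomogeneousIdeal.mem_irrelevant_iff _ x).1 hx
      have h1 : Set.range (fun j : Fin 3 => (X j : MvPolynomial (Fin 3) k)) =
          X '' (Set.univ : Set (Fin 3)) := by
        rw [Set.image_univ]
      rw [h1, MvPolynomial.mem_ideal_span_X_image]
      intro m hm
      by_contra hcon
      have hm0 : m = 0 := by
        ext i
        by_contra hne
        exact hcon ⟨i, trivial, hne⟩
      subst hm0
      rw [MvPolynomial.mem_support_iff] at hm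
      apply hm
      have h2 : GradedRing.proj (homogeneousSubmodule (Fin 3) k) 0 x = homogeneousComponent 0 x :=
        MvPolynomial.decomposition.decompose'_apply x 0
      rw [h2, homogeneousComponent_zero] at hx'
      exact (C_eq_zero).1 hx')
  have h2 : y ∈ (⨆ j : Fin 3, Proj.basicOpen (homogeneousSubmodule (Fin 3) k) (X j)) := by
    rw [h]; trivial
  obtain ⟨j, hj⟩ := TopologicalSpace.Opens.mem_iSup.1 h2
  exact ⟨j, (Proj.mem_basicOpen _ _ _).1 hj⟩

section N1

variable {k : Type u} [Field k] {r : ℕ} (α β : Fin r → k)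

lemma isUnit_C_N {a : k} (ha : a ≠ 0) : IsUnit (C a : MvPolynomial (Fin 3) k) :=
  (isUnit_iff_ne_zero.2 ha).map C

/-- the base opens cover the plane -/
theorem exists_mem_baseOpen (hr : 0 < r) (hd : Function.Injective fun i => (α i, β i)) (y : P2 k) :
    ∃ x : ChartIx r, y ∈ (baseOpen α β x).1 := by
  classical
  set p := y.asHomogeneousIdeal with hp
  have hprime : p.toIdeal.IsPrime := y.isPrime
  have hmem : ∀ f : MvPolynomial (Fin 3) k, f ∈ p.toIdeal ↔ f ∈ y.asHomogeneousIdeal := fun _ => Iff.rfl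
  -- criterion
  have crit : ∀ x : ChartIx r, X (chartJ x) ∉ p.toIdeal →
      (∀ l ∈ chartD x, linH α β l (chartC x l) ∉ p.toIdeal) → y ∈ (baseOpen α β x).1 := by
    intro x h1 h2
    change y ∈ Proj.basicOpen (homogeneousSubmodule (Fin 3) k) (baseElt α β x)
    rw [Proj.mem_basicOpen]
    intro h3
    rcases hprime.mem_or_mem h3 with h4 | h4
    · exact h1 h4
    · obtain ⟨l, hl, h5⟩ := (hprime.prod_mem_iff).1 h4
      exact h2 l hl h5
  have hX : ∃ j : Fin 3, X j ∉ p.toIdeal := exists_X_notMem_N y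
  have hsub : ∀ {a b : MvPolynomial (Fin 3) k}, a ∈ p.toIdeal → b ∈ p.toIdeal → a - b ∈ p.toIdeal :=
    fun ha hb => Ideal.sub_mem _ ha hb
  by_cases h0 : X 0 ∈ p.toIdeal
  · have h12 : X 1 ∉ p.toIdeal ∨ X 2 ∉ p.toIdeal := by
      obtain ⟨j, hj⟩ := hX
      fin_cases j
      · exact absurd h0 hj
      · exact Or.inl hj
      · exact Or.inr hj
    rcases h12 with h1 | h1
    · refine ⟨.inr false, crit _ h1 ?_⟩
      intro l _ h2
      apply h1
      have h3 : (C (α l) * X 0 : MvPolynomial (Fin 3) k) ∈ p.toIdeal := Ideal.mul_mem_left _ _ h0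
      have h4 := Ideal.add_mem _ h2 h3
      simpa [linH, chartC] using h4
    · refine ⟨.inr true, crit _ h1 ?_⟩
      intro l _ h2
      apply h1
      have h3 : (C (β l) * X 0 : MvPolynomial (Fin 3) k) ∈ p.toIdeal := Ideal.mul_mem_left _ _ h0
      have h4 := Ideal.add_mem _ h2 h3
      simpa [linH, chartC] using h4
  · -- both forms vanish at most at one point
    have huniq : ∀ l l' : Fin r, linH α β l false ∈ p.toIdeal → linH α β l true ∈ p.toIdeal →
        linH α β l' false ∈ p.toIdeal → linH α β l' true ∈ p.toIdeal → l = l' := by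
      intro l l' h1 h2 h3 h4
      apply hd
      have key : ∀ a : k, (C a * X 0 : MvPolynomial (Fin 3) k) ∈ p.toIdeal → a = 0 := by
        intro a ha
        by_contra hne
        rcases hprime.mem_or_mem ha with h5 | h5
        · exact hprime.ne_top (Ideal.eq_top_of_isUnit_mem _ h5 (isUnit_C_N hne))
        · exact h0 h5
      have e1 : α l' - α l = 0 := by
        apply key
        have h5 := hsub h1 h3
        have h6 : linH α β l false - linH α β l' false = C (α l' - α l) * X 0 := by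
          simp only [linH, cond_false, C_sub]; ring
        rwa [h6] at h5
      have e2 : β l' - β l = 0 := by
        apply key
        have h5 := hsub h2 h4
        have h6 : linH α β l true - linH α β l' true = C (β l' - β l) * X 0 := by
          simp only [linH, cond_true, C_sub]; ring
        rwa [h6] at h5
      exact Prod.ext (sub_eq_zero.1 e1).symm (sub_eq_zero.1 e2).symm
    have hi : ∃ i : Fin r, ∀ l, l ≠ i → ∃ c : Bool, linH α β l c ∉ p.toIdeal := by
      by_cases hE : ∃ i, linH α β i false ∈ p.toIdeal ∧ linH α β i true ∈ p.toIdeal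
      · obtain ⟨i, h1, h2⟩ := hE
        refine ⟨i, fun l hl => ?_⟩
        by_contra hcon
        push Not at hcon
        exact hl (huniq l i (hcon false) (hcon true) h1 h2)
      · refine ⟨⟨0, hr⟩, fun l _ => ?_⟩
        by_contra hcon
        push Not at hcon
        exact hE ⟨l, hcon false, hcon true⟩
    obtain ⟨i, hi⟩ := hi
    choose! c hc using hi
    refine ⟨.inl (i, c), crit _ h0 ?_⟩
    intro l hl
    exact hc l (Finset.ne_of_mem_erase hl)

end N1
section Shrink

/-- restriction of the invertibility to a small affine neighbourhood and a given affine open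
subset of the target -/
lemma IsInvertibleAlong.exists_shrink_N {T Y : Scheme.{u}} {I : Y.IdealSheafData} {g : T ⟶ Y}
    (hg : IsInvertibleAlong I g) (t : T) (U' : Y.affineOpens) (hU' : g t ∈ U'.1) :
    ∃ (V' : T.affineOpens) (h : V'.1 ≤ g ⁻¹ᵁ U'.1), t ∈ V'.1 ∧
      ∃ a ∈ nonZeroDivisors Γ(T, V'.1),
        (I.ideal U').map (g.appLE U'.1 V'.1 h).hom = Ideal.span {a} := by
  obtain ⟨U, V, hVU, htV, a, ha, hI⟩ := hg t
  have hgU : g t ∈ U.1 := hVU htV
  obtain ⟨W, hW, htW, hWle⟩ := exists_isAffineOpen_mem_and_subset (x := g t) (U := U.1 ⊓ U'.1)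
    ⟨hgU, hU'⟩
  have hWU : W ≤ U.1 := fun y hy => (hWle hy).1
  have hWU' : W ≤ U'.1 := fun y hy => (hWle hy).2
  obtain ⟨f, hf, htf⟩ := V.2.exists_basicOpen_le (V := g ⁻¹ᵁ W) ⟨t, htW⟩ htV
  have hfV : T.basicOpen f ≤ V.1 := T.basicOpen_le f
  refine ⟨⟨T.basicOpen f, V.2.basicOpen f⟩, hf.trans (g.preimage_mono hWU'), htf,
    (T.presheaf.map (homOfLE hfV).op).hom a, ?_, ?_⟩
  · have hloc := V.2.isLocalization_basicOpen f
    have h1 := IsLocalization.map_nonZeroDivisors_le (Submonoid.powers f) Γ(T, T.basicOpen f)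
    exact h1 ⟨a, ha, rfl⟩
  · have e1 : Y.presheaf.map (homOfLE hWU').op ≫ g.appLE W (T.basicOpen f) hf =
        g.appLE U'.1 (T.basicOpen f) (hf.trans (g.preimage_mono hWU')) :=
      Scheme.Hom.map_appLE _ _ _
    have e2 : Y.presheaf.map (homOfLE hWU).op ≫ g.appLE W (T.basicOpen f) hf =
        g.appLE U.1 (T.basicOpen f) (hf.trans (g.preimage_mono hWU)) :=
      Scheme.Hom.map_appLE _ _ _
    have e3 : g.appLE U.1 V.1 hVU ≫ T.presheaf.map (homOfLE hfV).op =
        g.appLE U.1 (T.basicOpen f) (hf.trans (g.preimage_mono hWU)) :=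
      Scheme.Hom.appLE_map _ _ _
    have m1 := I.map_ideal (U := ⟨W, hW⟩) (V := U') hWU'
    have m2 := I.map_ideal (U := ⟨W, hW⟩) (V := U) hWU
    calc (I.ideal U').map (g.appLE U'.1 (T.basicOpen f) (hf.trans (g.preimage_mono hWU'))).hom
        = (I.ideal ⟨W, hW⟩).map (g.appLE W (T.basicOpen f) hf).hom := by
          rw [← e1, CommRingCat.hom_comp, ← Ideal.map_map]
          exact congrArg (Ideal.map (g.appLE W (T.basicOpen f) hf).hom) m1
      _ = (I.ideal U).map (g.appLE U.1 (T.basicOpen f) (hf.trans (g.preimage_mono hWU))).hom := by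
          rw [← e2, CommRingCat.hom_comp, ← Ideal.map_map]
          exact (congrArg (Ideal.map (g.appLE W (T.basicOpen f) hf).hom) m2).symm
      _ = Ideal.span {(T.presheaf.map (homOfLE hfV).op).hom a} := by
          rw [← e3, CommRingCat.hom_comp, ← Ideal.map_map, hI, Ideal.map_span,
            Set.image_singleton]

lemma fromSpec_appLE_N {T : Scheme.{u}} {V : T.Opens} (hV : IsAffineOpen V)
    (h : ⊤ ≤ hV.fromSpec ⁻¹ᵁ V) :
    hV.fromSpec.appLE V ⊤ h ≫ (Scheme.ΓSpecIso Γ(T, V)).hom = 𝟙 _ := by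
  rw [Scheme.Hom.appLE, hV.fromSpec_app_self, Category.assoc, Category.assoc, ← Functor.map_comp_assoc]
  have : ((eqToHom hV.fromSpec_preimage_self).op ≫ (homOfLE h).op :
      Opposite.op (⊤ : (Spec Γ(T, V)).Opens) ⟶ Opposite.op ⊤) = 𝟙 _ := Subsingleton.elim _ _
  rw [this, CategoryTheory.Functor.map_id, Category.id_comp, Iso.inv_hom_id]

end Shrink

section Lift

variable {k : Type u} [Field k] {r : ℕ} {α β : Fin r → k}

lemma ptP_congr_N {B : Type u} [CommRing B] {c c' : k →+* B} {ξ ξ' : Fin 3 → B} (hc : c = c')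
    (hξ : ξ = ξ') (j : Fin 3) (hj : IsUnit (ξ j)) (hj' : IsUnit (ξ' j)) :
    ptP c ξ j hj = ptP c' ξ' j hj' := by
  subst hc; subst hξ; rfl

lemma evalP_linH_N {B : Type u} [CommRing B] (c : k →+* B) (ξ : Fin 3 → B) (l : Fin r) (b : Bool) :
    evalP c ξ (linH α β l b) = bif b then ξ 2 - c (β l) * ξ 0 else ξ 1 - c (α l) * ξ 0 := by
  cases b <;> simp [linH, evalP_X, evalP_C]

lemma eval_chartH_N (x : ChartIx r) {B : Type u}
    [CommRing B] (c : k →+* B) (ξ : Fin 3 → B) (μ0 : Fin 2 → B)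
    (hμ : ∀ m, eval₂Hom c μ0 (coordP α β x m) = ξ m) : eval₂Hom c μ0 (chartH α β x) =
      evalP c ξ (∏ l ∈ chartD x, linH α β l (chartC x l)) := by
  unfold chartH
  rw [map_prod, map_prod]
  refine Finset.prod_congr rfl fun l _ => ?_
  rw [evalP_linH_N]
  have hC : ∀ a : k, eval₂Hom c μ0 (C a) = c a := fun a => eval₂Hom_C c μ0 a
  unfold linP
  cases chartC x l
  · rw [cond_false, cond_false, map_sub, map_mul, hμ, hμ, hC]
  · rw [cond_true, cond_true, map_sub, map_mul, hμ, hμ, hC]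

lemma Atlas.exists_lift_of_ringHom {X : Scheme.{u}} (A : Atlas α β X) (x : ChartIx r) {B : Type u}
    [CommRing B] (c : k →+* B) (ξ : Fin 3 → B) (hj : IsUnit (ξ (chartJ x))) (μ : CR α β x →+* B)
    (h1 : μ.comp (chartConst α β x) = c) (h2 : (fun m => μ (chartXi α β x m)) = ξ) :
    ∃ h : Spec (.of B) ⟶ X, h ≫ A.π = ptP c ξ (chartJ x) hj := by
  refine ⟨Spec.map (CommRingCat.ofHom μ) ≫ A.chart x, ?_⟩
  have e1 : (Spec.map (CommRingCat.ofHom μ) ≫ A.chart x) ≫ A.π =
      Spec.map (CommRingCat.ofHom μ) ≫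
        ptP (chartConst α β x) (chartXi α β x) (chartJ x) (isUnit_chartXi α β x) := by
    rw [Category.assoc, A.chart_π]
  rw [e1, ptP_comp]
  exact ptP_congr_N h1 h2 _ _ _

lemma exists_ringHom_CR_N (x : ChartIx r) {B : Type u}
    [CommRing B] (c : k →+* B) (ξ : Fin 3 → B) (μ0 : Fin 2 → B)
    (hμ : ∀ m, eval₂Hom c μ0 (coordP α β x m) = ξ m)
    (hunit : IsUnit (evalP c ξ (baseElt α β x))) :
    ∃ μ : CR α β x →+* B, ∀ p, μ (algebraMap _ (CR α β x) p) = eval₂Hom c μ0 p := by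
  have h2 : IsUnit (eval₂Hom c μ0 (chartH α β x)) := by
    rw [eval_chartH_N x c ξ μ0 hμ]
    unfold baseElt at hunit
    rw [map_mul] at hunit
    exact isUnit_of_mul_isUnit_right hunit
  exact ⟨Localization.awayLift (eval₂Hom c μ0) (chartH α β x) h2,
    fun p => IsLocalization.Away.lift_eq (chartH α β x) h2 p⟩

/-- lift of a point of the plane to a chart of the blow-up -/
lemma Atlas.exists_lift_chart {X : Scheme.{u}} (A : Atlas α β X) (x : ChartIx r) {B : Type u}
    [CommRing B] (c : k →+* B) (ξ : Fin 3 → B) (hj : IsUnit (ξ (chartJ x))) (μ0 : Fin 2 → B)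
    (hμ : ∀ m, eval₂Hom c μ0 (coordP α β x m) = ξ m)
    (hunit : IsUnit (evalP c ξ (baseElt α β x))) :
    ∃ h : Spec (.of B) ⟶ X, h ≫ A.π = ptP c ξ (chartJ x) hj := by
  obtain ⟨μ, hμa⟩ := exists_ringHom_CR_N x c ξ μ0 hμ hunit
  refine A.exists_lift_of_ringHom x c ξ hj μ ?_ ?_
  · apply RingHom.ext
    intro a
    exact (hμa (C a)).trans (eval₂Hom_C c μ0 a)
  · funext m
    exact (hμa (coordP α β x m)).trans (hμ m)

end Lift
section Final

variable {k : Type u} [Field k] {r : ℕ} {α β : Fin r → k}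

lemma isUnit_evalP_baseElt_N {B : Type u} [CommRing B] (c : k →+* B) (ξ : Fin 3 → B) (j : Fin 3)
    (hj : IsUnit (ξ j)) (x : ChartIx r)
    (h : ⊤ ≤ (ptP c ξ j hj) ⁻¹ᵁ (baseOpen α β x).1) : IsUnit (evalP c ξ (baseElt α β x)) := by
  by_contra hcon
  obtain ⟨M, hM, hmem⟩ := exists_max_ideal_of_mem_nonunits (mem_nonunits_iff.2 hcon)
  have h1 := (ptP_mem_basicOpen c ξ j hj (Nat.succ_pos _) (baseElt α β x) (baseElt_mem α β x)
    (⟨M, hM.isPrime⟩ : PrimeSpectrum B)).1 (h trivial)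
  exact h1 hmem

/-- descend a lift from the spectrum to the affine open subset -/
lemma lift_of_fromSpec_N {X T Y : Scheme.{u}} (π : X ⟶ Y) (g : T ⟶ Y) (V : T.affineOpens)
    (h : ∃ h : Spec Γ(T, V.1) ⟶ X, h ≫ π = V.2.fromSpec ≫ g) :
    ∃ h : V.1.toScheme ⟶ X, h ≫ π = V.1.ι ≫ g := by
  obtain ⟨h, hh⟩ := h
  refine ⟨V.2.isoSpec.hom ≫ h, ?_⟩
  rw [Category.assoc, hh, ← Category.assoc, V.2.isoSpec_hom_fromSpec]

lemma baseOpen_le_N (x : ChartIx r) : (baseOpen α β x).1 ≤
    Proj.basicOpen (homogeneousSubmodule (Fin 3) k) (X (chartJ x)) := by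
  change Proj.basicOpen (homogeneousSubmodule (Fin 3) k) (baseElt α β x) ≤ _
  unfold baseElt
  rw [Proj.basicOpen_mul]
  exact inf_le_left

lemma fromSpec_top_le_N {T Y : Scheme.{u}} (g : T ⟶ Y) (V : T.affineOpens) (U : Y.Opens)
    (h : V.1 ≤ g ⁻¹ᵁ U) : ⊤ ≤ (V.2.fromSpec ≫ g) ⁻¹ᵁ U := by
  intro y _
  apply h
  have : V.2.fromSpec y ∈ Set.range V.2.fromSpec := ⟨y, rfl⟩
  rw [V.2.range_fromSpec] at this
  exact this

lemma appLE_fromSpec_comp_N {T Y : Scheme.{u}} (g : T ⟶ Y) (V : T.affineOpens) (U : Y.Opens)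
    (h : V.1 ≤ g ⁻¹ᵁ U) (p : Spec Γ(T, V.1) ⟶ Y) (hp : p = V.2.fromSpec ≫ g)
    (hU : ⊤ ≤ p ⁻¹ᵁ U) :
    p.appLE U ⊤ hU ≫ (Scheme.ΓSpecIso Γ(T, V.1)).hom = g.appLE U V.1 h := by
  subst hp
  have htop : ⊤ ≤ V.2.fromSpec ⁻¹ᵁ V.1 := by rw [V.2.fromSpec_preimage_self]
  have e1 : (V.2.fromSpec ≫ g).appLE U ⊤ hU = g.appLE U V.1 h ≫ V.2.fromSpec.appLE V.1 ⊤ htop := by
    rw [Scheme.Hom.appLE_comp_appLE]
  rw [e1, Category.assoc, fromSpec_appLE_N, Category.comp_id]

lemma baseElt_update_N (i : Fin r) (b : Fin r → Bool) (e : Bool) :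
    baseElt α β (.inl (i, Function.update b i e)) = baseElt α β (.inl (i, b)) := by
  unfold baseElt
  congr 1
  refine Finset.prod_congr rfl fun l hl => ?_
  have hl' : l ≠ i := Finset.ne_of_mem_erase hl
  have : chartC (.inl (i, Function.update b i e)) l = chartC (.inl (i, b)) l := by
    change Function.update b i e l = b l
    rw [Function.update_of_ne hl']
  rw [this]

/-- the two cases of the lift near an exceptional curve -/
lemma Atlas.exists_lift_inl {X : Scheme.{u}} (A : Atlas α β X) (i : Fin r) (b : Fin r → Bool)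
    (e : Bool) {B : Type u} [CommRing B] (c : k →+* B) (ξ : Fin 3 → B) (hj : IsUnit (ξ 0))
    (h0 : ξ 0 = 1) (hunit : IsUnit (evalP c ξ (baseElt α β (.inl (i, b)))))
    (u1 u2 a : B) (h1 : ξ 1 - c (α i) = u1 * a) (h2 : ξ 2 - c (β i) = u2 * a)
    (hu : IsUnit (bif e then u2 else u1)) :
    ∃ h : Spec (.of B) ⟶ X, h ≫ A.π = ptP c ξ 0 hj := by
  cases e
  · obtain ⟨v, hv⟩ := hu.exists_left_inv
    rw [cond_false] at hv
    have e2 : (ξ 1 - c (α i)) * (u2 * v) = ξ 2 - c (β i) := by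
      rw [h1, h2]
      calc u1 * a * (u2 * v) = u2 * a * (v * u1) := by ring
        _ = _ := by rw [hv, mul_one]
    refine A.exists_lift_chart (.inl (i, Function.update b i false)) c ξ hj
      ![ξ 1 - c (α i), u2 * v] ?_ ?_
    · intro m
      fin_cases m
      · simp [coordP, h0]
      · simp [coordP]
      · simp [coordP, e2]
    · rw [baseElt_update_N]; exact hunit
  · obtain ⟨v, hv⟩ := hu.exists_left_inv
    rw [cond_true] at hv
    have e2 : (ξ 2 - c (β i)) * (u1 * v) = ξ 1 - c (α i) := by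
      rw [h1, h2]
      calc u2 * a * (u1 * v) = u1 * a * (v * u2) := by ring
        _ = _ := by rw [hv, mul_one]
    refine A.exists_lift_chart (.inl (i, Function.update b i true)) c ξ hj
      ![ξ 2 - c (β i), u1 * v] ?_ ?_
    · intro m
      fin_cases m
      · simp [coordP, h0]
      · simp [coordP, e2]
      · simp [coordP]
    · rw [baseElt_update_N]; exact hunit

end Final
section LocalLift

variable {k : Type u} [Field k] {r : ℕ} (α β : Fin r → k)

lemma span_pair_N {B : Type u} [CommRing B] {x y a : B} (ha : a ∈ nonZeroDivisors B)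
    (h : Ideal.span {a} = Ideal.span {x, y}) :
    ∃ u1 u2 v1 v2 : B, x = u1 * a ∧ y = u2 * a ∧ v1 * u1 + v2 * u2 = 1 := by
  have hx : x ∈ Ideal.span {a} := by
    rw [h]; exact Ideal.subset_span (by simp)
  have hy : y ∈ Ideal.span {a} := by
    rw [h]; exact Ideal.subset_span (by simp)
  have haa : a ∈ Ideal.span {x, y} := by
    rw [← h]; exact Ideal.subset_span rfl
  obtain ⟨u1, h1⟩ := Ideal.mem_span_singleton'.1 hx
  obtain ⟨u2, h2⟩ := Ideal.mem_span_singleton'.1 hy
  obtain ⟨v1, v2, h3⟩ := Ideal.mem_span_pair.1 haa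
  refine ⟨u1, u2, v1, v2, h1.symm, h2.symm, ?_⟩
  have h4 : (v1 * u1 + v2 * u2 - 1) * a = 0 := by
    rw [← h1, ← h2] at h3
    linear_combination h3
  have h5 := (mem_nonZeroDivisors_iff_right.1 ha) _ h4
  exact sub_eq_zero.1 h5

/-- one of two elements generating the unit ideal does not vanish at a point -/
lemma mem_basicOpen_or_N {T : Scheme.{u}} {V : T.Opens} (u1 u2 v1 v2 : Γ(T, V))
    (h : v1 * u1 + v2 * u2 = 1) (t : T) (ht : t ∈ V) :
    t ∈ T.basicOpen u1 ∨ t ∈ T.basicOpen u2 := by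
  rw [Scheme.mem_basicOpen T _ t ht, Scheme.mem_basicOpen T _ t ht]
  have h1 := congrArg (T.presheaf.germ V t ht).hom h
  rw [map_add, map_mul, map_mul, map_one] at h1
  rcases IsLocalRing.isUnit_or_isUnit_of_add_one h1 with h2 | h2
  · exact Or.inl (isUnit_of_mul_isUnit_right h2)
  · exact Or.inr (isUnit_of_mul_isUnit_right h2)

lemma evalP_map_N {B B' : Type u} [CommRing B] [CommRing B'] (c : k →+* B) (ξ : Fin 3 → B)
    (φ : B →+* B') (p : MvPolynomial (Fin 3) k) :
    evalP (φ.comp c) (fun m => φ (ξ m)) p = φ (evalP c ξ p) :=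
  (eval₂_comp_left φ c ξ p).symm

lemma lift_basicOpen_N {X : Scheme.{u}} (A : Atlas α β X) (i : Fin r) (b : Fin r → Bool)
    {T : Scheme.{u}} (g : T ⟶ P2 k) (V : T.affineOpens)
    (hV : V.1 ≤ g ⁻¹ᵁ (baseOpen α β (.inl (i, b))).1)
    (c : k →+* Γ(T, V.1)) (ξ : Fin 3 → Γ(T, V.1)) (hj : IsUnit (ξ 0)) (h0 : ξ 0 = 1)
    (hcξ : V.2.fromSpec ≫ g = ptP c ξ 0 hj) (u1 u2 a : Γ(T, V.1))
    (h1 : ξ 1 - c (α i) = u1 * a) (h2 : ξ 2 - c (β i) = u2 * a) (e : Bool) :
    ∃ h : (T.basicOpen (bif e then u2 else u1)).toScheme ⟶ X,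
      h ≫ A.π = (T.basicOpen (bif e then u2 else u1)).ι ≫ g := by
  set f : Γ(T, V.1) := bif e then u2 else u1 with hf
  have hfV : T.basicOpen f ≤ V.1 := T.basicOpen_le f
  have hunit0 : IsUnit (evalP c ξ (baseElt α β (.inl (i, b)))) := by
    apply isUnit_evalP_baseElt_N c ξ 0 hj
    rw [← hcξ]
    exact fromSpec_top_le_N g V _ hV
  let res : Γ(T, V.1) →+* Γ(T, T.basicOpen f) := (T.presheaf.map (homOfLE hfV).op).hom
  have hres : T.presheaf.map (homOfLE hfV).op = CommRingCat.ofHom res := rfl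
  refine lift_of_fromSpec_N A.π g ⟨T.basicOpen f, V.2.basicOpen f⟩ ?_
  have e1 : (V.2.basicOpen f).fromSpec ≫ g =
      ptP (res.comp c) (fun m => res (ξ m)) 0 (hj.map res) := by
    rw [← V.2.map_fromSpec (V.2.basicOpen f) (homOfLE hfV).op, Category.assoc, hcξ, hres]
    exact ptP_comp c ξ res 0 hj
  change ∃ h : Spec Γ(T, T.basicOpen f) ⟶ X, h ≫ A.π = (V.2.basicOpen f).fromSpec ≫ g
  rw [e1]
  refine A.exists_lift_inl i b e (res.comp c) (fun m => res (ξ m)) (hj.map res) ?_ ?_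
    (res u1) (res u2) (res a) ?_ ?_ ?_
  · rw [h0, map_one]
  · have e2 : evalP (res.comp c) (fun m => res (ξ m)) (baseElt α β (.inl (i, b))) =
        res (evalP c ξ (baseElt α β (.inl (i, b)))) := by
      exact evalP_map_N c ξ res _
    rw [e2]
    exact hunit0.map res
  · rw [← map_mul, ← h1, map_sub]; rfl
  · rw [← map_mul, ← h2, map_sub]; rfl
  · have h3 : IsUnit (res f) := RingedSpace.isUnit_res_basicOpen _ f
    have h4 : ∀ e' : Bool, res (bif e' then u2 else u1) = bif e' then res u2 else res u1 := by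
      intro e'; cases e' <;> rfl
    rw [← h4 e]
    exact h3

/-- `g` sends `t` into `baseOpen x`. For `x = inr b` any affine neighbourhood of `t` in
`g⁻¹(baseOpen x)` lifts to the chart `x`. For `x = inl (i, b)` the ideal of the points is generated near
`t` by one nonzerodivisor `a`, and we use one of the two charts over the `i`-th point. -/
theorem local_lift {X : Scheme.{u}} (A : Atlas α β X) (hr : 0 < r)
    (hd : Function.Injective fun i => (α i, β i)) {T : Scheme.{u}} (g : T ⟶ P2 k)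
    (hg : IsInvertibleAlong (idealPts α β) g) (t : T) :
    ∃ (V : T.Opens) (_ : t ∈ V) (h : V.toScheme ⟶ X), h ≫ A.π = V.ι ≫ g := by
  obtain ⟨x, hx⟩ := exists_mem_baseOpen α β hr hd (g t)
  rcases x with ⟨i, b⟩ | b
  · obtain ⟨V, hV, htV, a, ha, hI⟩ := hg.exists_shrink_N t (baseOpen α β (.inl (i, b))) hx
    have htop := fromSpec_top_le_N g V (baseOpen α β (.inl (i, b))).1 hV
    obtain ⟨c, ξ, hj, h0, hcξ⟩ := exists_ptP (V.2.fromSpec ≫ g) (0 : Fin 3)
      (htop.trans (Scheme.Hom.preimage_mono _ (baseOpen_le_N (.inl (i, b)))))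
    have hU : ⊤ ≤ (ptP c ξ 0 hj) ⁻¹ᵁ (baseOpen α β (.inl (i, b))).1 := by
      rw [← hcξ]; exact htop
    have h1 := ideal_baseOpen_inl α β i b c ξ h0 hj hU
    have h2 := appLE_fromSpec_comp_N g V (baseOpen α β (.inl (i, b))).1 hV (ptP c ξ 0 hj) hcξ.symm hU
    have h3 : Ideal.span {a} = Ideal.span {ξ 1 - c (α i), ξ 2 - c (β i)} := by
      rw [← h1, ← hI]
      exact congrArg (fun f => Ideal.map (CommRingCat.Hom.hom f)
        ((idealPts α β).ideal (baseOpen α β (.inl (i, b))))) h2.symm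
    obtain ⟨u1, u2, v1, v2, e1, e2, e3⟩ := span_pair_N ha h3
    rcases mem_basicOpen_or_N u1 u2 v1 v2 e3 t htV with h4 | h4
    · exact ⟨T.basicOpen u1, h4, lift_basicOpen_N α β A i b g V hV c ξ hj h0 hcξ u1 u2 a e1 e2 false⟩
    · exact ⟨T.basicOpen u2, h4, lift_basicOpen_N α β A i b g V hV c ξ hj h0 hcξ u1 u2 a e1 e2 true⟩
  · obtain ⟨W, hW, htW, hWle⟩ := exists_isAffineOpen_mem_and_subset (x := t)
        (U := g ⁻¹ᵁ (baseOpen α β (.inr b)).1) hx
    set V : T.affineOpens := ⟨W, hW⟩ with hVdef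
    have hV : V.1 ≤ g ⁻¹ᵁ (baseOpen α β (.inr b)).1 := hWle
    have htop := fromSpec_top_le_N g V (baseOpen α β (.inr b)).1 hV
    obtain ⟨c, ξ, hj, hξ, hcξ⟩ := exists_ptP (V.2.fromSpec ≫ g) (chartJ (.inr b : ChartIx r))
      (htop.trans (Scheme.Hom.preimage_mono _ (baseOpen_le_N (.inr b))))
    have hunit : IsUnit (evalP c ξ (baseElt α β (.inr b))) := by
      apply isUnit_evalP_baseElt_N c ξ _ hj
      rw [← hcξ]; exact htop
    refine ⟨V.1, htW, lift_of_fromSpec_N _ _ V ?_⟩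
    rw [hcξ]
    cases b
    · refine A.exists_lift_chart (.inr false) c ξ hj ![ξ 0, ξ 2] ?_ hunit
      intro m
      have hξ' : ξ 1 = 1 := hξ
      fin_cases m <;> simp [coordP, hξ']
    · refine A.exists_lift_chart (.inr true) c ξ hj ![ξ 0, ξ 1] ?_ hunit
      intro m
      have hξ' : ξ 2 = 1 := hξ
      fin_cases m <;> simp [coordP, hξ']

end LocalLift

end Pool.Agent.FL
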