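import Pool.Agent.FLK

open MvPolynomial AlgebraicGeometry HomogeneousLocalization CategoryTheory

universe u

namespace Pool.Agent.FL

section O
variable {k : Type u} [Field k] {r : ℕ} (α β : Fin r → k)

lemma theta_chartH_ne (x : ChartIx r) : chartH α β x ≠ 0 := by
  intro h
  have := (isUnit_theta_chartH α β x).ne_zero
  rw [h, map_zero] at this
  exact this rfl

instance isDomain_CR (x : ChartIx r) : IsDomain (CR α β x) :=
  IsLocalization.isDomain_localization
    (powers_le_nonZeroDivisors_of_noZeroDivisors (theta_chartH_ne α β x))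

lemma toK_injective (x : ChartIx r) : Function.Injective (toK α β x) := by
  rw [injective_iff_map_eq_zero]
  intro z hz
  obtain ⟨⟨a, s⟩, ha⟩ := IsLocalization.surj (Submonoid.powers (chartH α β x)) z
  have h1 : toK α β x (algebraMap _ (CR α β x) a) = 0 := by
    rw [← ha, map_mul, hz, zero_mul]
  rw [toK_algebraMap] at h1
  have h2 : a = 0 := by
    apply theta_injective (kapF k) α β (isGeneric_kapF α β) x
    rw [h1, map_zero]
  rw [h2, map_zero] at ha
  exact (IsUnit.mul_left_eq_zero (IsLocalization.map_units (CR α β x) s)).1 ha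

/-- two homomorphisms from a chart ring to a field that agree on constants and on the homogeneous
coordinates of the plane, one of them injective, are equal -/
lemma hom_ext_chart {K : Type u} [Field K] (x : ChartIx r) (φ ψ : CR α β x →+* K)
    (hψ : Function.Injective ψ)
    (h1 : φ.comp (chartConst α β x) = ψ.comp (chartConst α β x))
    (h2 : ∀ m, φ (chartXi α β x m) = ψ (chartXi α β x m)) : φ = ψ := by
  apply IsLocalization.ringHom_ext (Submonoid.powers (chartH α β x))
  have hC : ∀ a : k, φ (algebraMap (MvPolynomial (Fin 2) k) (CR α β x) (C a)) =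
      ψ (algebraMap (MvPolynomial (Fin 2) k) (CR α β x) (C a)) := by
    intro a
    have := congrArg (fun f : k →+* K => f a) h1
    exact this
  have key : ∀ j : Fin 2, φ (algebraMap (MvPolynomial (Fin 2) k) (CR α β x) (X j)) =
      ψ (algebraMap (MvPolynomial (Fin 2) k) (CR α β x) (X j)) := by
    have hinj : Function.Injective (algebraMap (MvPolynomial (Fin 2) k) (CR α β x)) :=
      IsLocalization.injective _
        (powers_le_nonZeroDivisors_of_noZeroDivisors (theta_chartH_ne α β x))
    have hX0 : ψ (algebraMap (MvPolynomial (Fin 2) k) (CR α β x) (X 0)) ≠ 0 := by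
      rw [map_ne_zero_iff _ hψ, map_ne_zero_iff _ hinj]
      exact X_ne_zero 0
    have e1 := h2 1
    have e2 := h2 2
    have e0 := h2 0
    unfold chartXi at e0 e1 e2
    rcases x with ⟨i, c⟩ | b
    · cases hc : c i
      · simp only [coordP, hc, cond_false, Matrix.cons_val_one, Matrix.cons_val, map_add, map_mul,
          hC, add_left_inj] at e1 e2
        intro j
        fin_cases j
        · exact e1
        · simp only [Fin.mk_one] at e1 ⊢
          rw [e1] at e2
          exact mul_left_cancel₀ hX0 e2
      · simp only [coordP, hc, cond_true, Matrix.cons_val_one, Matrix.cons_val, map_add, map_mul,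
          hC, add_left_inj] at e1 e2
        intro j
        fin_cases j
        · exact e2
        · simp only [Fin.mk_one] at e2 ⊢
          rw [e2] at e1
          exact mul_left_cancel₀ hX0 e1
    · cases b
      · simp only [coordP, Matrix.cons_val_zero, Matrix.cons_val] at e0 e2
        intro j
        fin_cases j
        · exact e0
        · exact e2
      · simp only [coordP, Matrix.cons_val_zero, Matrix.cons_val_one] at e0 e1
        intro j
        fin_cases j
        · exact e0
        · exact e1
  apply MvPolynomial.ringHom_ext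
  · intro a
    exact hC a
  · intro j
    exact key j

/-- a point of a scheme with an atlas lies in a chart -/
lemma exists_mem_chart {X : Scheme.{u}} (A : Atlas α β X) (y : X) :
    ∃ x, y ∈ Set.range (A.chart x) := by
  have hop := A.openImm
  have h : y ∈ (⨆ x, (A.chart x).opensRange : X.Opens) := by
    rw [A.cover]; trivial
  exact TopologicalSpace.Opens.mem_iSup.1 h

theorem atlas_gen_unique {X : Scheme.{u}} (A : Atlas α β X) (f : Spec (.of (FK k)) ⟶ X)
    (hf : f ≫ A.π = A.gen ≫ A.π) : f = A.gen := by
  have hsub : Subsingleton (Spec (.of (FK k))) :=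
    (inferInstance : Subsingleton (PrimeSpectrum (FK k)))
  have hne : Nonempty (Spec (.of (FK k))) := (inferInstance : Nonempty (PrimeSpectrum (FK k)))
  obtain ⟨pt⟩ := hne
  obtain ⟨x, hx⟩ := exists_mem_chart α β A (f pt)
  have := A.openImm x
  have hrange : Set.range f ⊆ Set.range (A.chart x) := by
    rintro _ ⟨q, rfl⟩
    rw [Subsingleton.elim q pt]
    exact hx
  obtain ⟨g, hg⟩ : ∃ g : Spec (.of (FK k)) ⟶ Spec (.of (CR α β x)), g ≫ A.chart x = f :=
    ⟨IsOpenImmersion.lift (A.chart x) f hrange, IsOpenImmersion.lift_fac _ _ _⟩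
  obtain ⟨φ, hφ⟩ : ∃ φ : CR α β x →+* FK k, g = Spec.map (CommRingCat.ofHom φ) :=
    ⟨(Spec.preimage g).hom, by rw [CommRingCat.ofHom_hom, Spec.map_preimage]⟩
  have h1 : f ≫ A.π = ptP (φ.comp (chartConst α β x)) (fun m => φ (chartXi α β x m)) (chartJ x)
      ((isUnit_chartXi α β x).map φ) := by
    rw [← hg, Category.assoc, A.chart_π, hφ, ptP_comp]
  have h2 : A.gen ≫ A.π = ptP ((toK α β x).comp (chartConst α β x))
      (fun m => toK α β x (chartXi α β x m)) (chartJ x)
      ((isUnit_chartXi α β x).map (toK α β x)) := by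
    rw [A.gen_eq x, Category.assoc, A.chart_π, ptP_comp]
  rw [h1, h2] at hf
  have hone : chartXi α β x (chartJ x) = 1 := by
    unfold chartXi
    rw [coordP_chartJ, map_one]
  obtain ⟨h3, h4⟩ := ptP_injective (chartJ x) _ _ (by rw [hone, map_one]) (by rw [hone, map_one]) hf
  have h5 : φ = toK α β x :=
    hom_ext_chart α β x φ (toK α β x) (toK_injective α β x) h3 fun m => congrFun h4 m
  rw [A.gen_eq x, ← hg, hφ, h5]

/-- a scheme with an atlas is reduced -/
lemma atlas_isReduced {X : Scheme.{u}} (A : Atlas α β X) : IsReduced X := by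
  have h : ∀ y : X, _root_.IsReduced (X.presheaf.stalk y) := by
    intro y
    obtain ⟨x, z, hz⟩ := exists_mem_chart α β A y
    subst hz
    have := A.openImm x
    have hiso : IsIso ((A.chart x).stalkMap z) := inferInstance
    have hred : IsReduced (Spec (.of (CR α β x))) := inferInstance
    have h2 : _root_.IsReduced ((Spec (.of (CR α β x))).presheaf.stalk z) := inferInstance
    exact isReduced_of_injective ((A.chart x).stalkMap z).hom
      (ConcreteCategory.bijective_of_isIso ((A.chart x).stalkMap z)).1
  exact isReduced_of_isReduced_stalk X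

/-- the generic point lies in every nonempty open subset -/
lemma atlas_gen_mem {X : Scheme.{u}} (A : Atlas α β X) (U : X.Opens) {y : X} (hy : y ∈ U)
    (pt : Spec (.of (FK k))) : A.gen pt ∈ U := by
  obtain ⟨x, z, hz⟩ := exists_mem_chart α β A y
  rw [A.gen_eq x]
  have hz' : A.chart x z ∈ U := by
    have : A.chart x z = y := hz
    rw [this]; exact hy
  change (A.chart x) (Spec.map (CommRingCat.ofHom (toK α β x)) pt) ∈ U
  have h1 : z ∈ (A.chart x) ⁻¹ᵁ U := hz'
  have h2 : (Spec.map (CommRingCat.ofHom (toK α β x)) pt) ⤳ z := by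
    refine (PrimeSpectrum.le_iff_specializes _ _).1 ?_
    change Ideal.comap (toK α β x) (PrimeSpectrum.asIdeal pt) ≤ z.asIdeal
    have hbot : PrimeSpectrum.asIdeal pt = ⊥ := by
      rcases Ideal.eq_bot_or_top (PrimeSpectrum.asIdeal pt) with h | h
      · exact h
      · exact absurd h (PrimeSpectrum.isPrime pt).ne_top
    rw [hbot]
    intro a ha
    rw [Ideal.mem_comap, Ideal.mem_bot] at ha
    have : a = 0 := toK_injective α β x (by rw [ha, map_zero])
    rw [this]
    exact Submodule.zero_mem _
  exact h2.mem_open ((A.chart x) ⁻¹ᵁ U).isOpen h1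

theorem atlas_rigid {X : Scheme.{u}} (A : Atlas α β X) (E : X.Opens) (f : E.toScheme ⟶ X)
    (hf : f ≫ A.π = E.ι ≫ A.π) : f = E.ι := by
  have hred : IsReduced X := atlas_isReduced α β A
  have hredE : IsReduced E.toScheme := inferInstance
  have hsep := A.sep
  obtain ⟨pt⟩ : Nonempty (Spec (.of (FK k))) := (inferInstance : Nonempty (PrimeSpectrum (FK k)))
  have hsub : Subsingleton (Spec (.of (FK k))) :=
    (inferInstance : Subsingleton (PrimeSpectrum (FK k)))
  by_cases hE : ∃ y, y ∈ E
  · obtain ⟨y, hy⟩ := hE
    have hrange : Set.range A.gen ⊆ Set.range E.ι := by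
      rintro _ ⟨q, rfl⟩
      have := atlas_gen_mem α β A E hy q
      simpa using this
    obtain ⟨g, hg⟩ : ∃ g : Spec (.of (FK k)) ⟶ E.toScheme, g ≫ E.ι = A.gen :=
      ⟨IsOpenImmersion.lift E.ι A.gen hrange, IsOpenImmersion.lift_fac _ _ _⟩
    have hdom : IsDominant g := by
      refine ⟨?_⟩
      rw [DenseRange, dense_iff_inter_open]
      rintro V hV ⟨v, hv⟩
      have h1 : A.gen pt ∈ E.ι ''ᵁ ⟨V, hV⟩ :=
        atlas_gen_mem α β A (E.ι ''ᵁ ⟨V, hV⟩) (y := E.ι v) ⟨v, hv, rfl⟩ pt
      obtain ⟨v', hv', hv''⟩ := h1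
      refine ⟨g pt, ?_, ⟨pt, rfl⟩⟩
      have h2 : E.ι (g pt) = E.ι v' := by
        refine Eq.trans ?_ hv''.symm
        rw [← hg]; rfl
      rw [E.ι.isOpenEmbedding.injective h2]
      exact hv'
    have h3 : g ≫ f = A.gen := by
      apply atlas_gen_unique α β A
      rw [Category.assoc, hf, ← Category.assoc, hg]
    exact ext_of_isDominant g (by rw [h3, hg])
  · have hemp : IsEmpty E.toScheme := by
      refine ⟨fun y => hE ⟨y.1, y.2⟩⟩
    exact (isInitialOfIsEmpty (X := E.toScheme)).hom_ext _ _

end O

end Pool.Agent.FL
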