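import Pool.Agent.Helper66.FL.Blow

/-!
The explicit blow-up of the plane in finitely many points is the blow-up: an atlas satisfies the
universal property up to isomorphism.
-/

open MvPolynomial AlgebraicGeometry HomogeneousLocalization CategoryTheory

universe u

namespace Pool.Agent.FL

/-- `IsInvertibleAlong` is inherited by the composition with an open immersion. -/
theorem IsInvertibleAlong.comp_openImmersion {S T Y : Scheme.{u}} {I : Y.IdealSheafData}
    {g : T ⟶ Y} (hg : IsInvertibleAlong I g) (j : S ⟶ T) [IsOpenImmersion j] :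
    IsInvertibleAlong I (j ≫ g) := by
  intro s
  obtain ⟨U, V, hVU, hs, a, ha, hI⟩ := hg (j s)
  obtain ⟨W, hW, hsW, hWV⟩ := exists_isAffineOpen_mem_and_subset (U := j ⁻¹ᵁ V.1) (x := s) hs
  have hflat : (j.appLE V.1 W hWV).hom.Flat :=
    HasRingHomProperty.appLE @Flat j inferInstance V ⟨W, hW⟩ hWV
  have hle : W ≤ (j ≫ g) ⁻¹ᵁ U.1 := fun x hx => hVU (hWV hx)
  refine ⟨U, ⟨W, hW⟩, hle, hsW, (j.appLE V.1 W hWV).hom a, ?_, ?_⟩
  · algebraize [(j.appLE V.1 W hWV).hom]
    have h1 := Module.Flat.isSMulRegular_of_nonZeroDivisors (M := Γ(S, W)) ha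
    rw [mem_nonZeroDivisors_iff_right]
    intro x hx
    apply h1
    show a • x = a • 0
    rw [Algebra.smul_def, smul_zero, mul_comm]
    exact hx
  · have h2 : (j ≫ g).appLE U.1 W hle = g.appLE U.1 V.1 hVU ≫ j.appLE V.1 W hWV :=
      (Scheme.Hom.appLE_comp_appLE j g U.1 V.1 W hVU hWV).symm
    show (I.ideal U).map ((j ≫ g).appLE U.1 W hle).hom = _
    rw [h2, CommRingCat.hom_comp, ← Ideal.map_map, hI, Ideal.map_span, Set.image_singleton]

section P
variable {k : Type u} [Field k] {r : ℕ} (α β : Fin r → k)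

theorem exists_iso_aux {X X' : Scheme.{u}} (A : Atlas α β X)
    (hinv : IsInvertibleAlong (idealPts α β) A.π)
    (hlift : ∀ {T : Scheme.{u}} (g : T ⟶ P2 k), IsInvertibleAlong (idealPts α β) g → ∀ t : T,
      ∃ (V : T.Opens) (_ : t ∈ V) (h : V.toScheme ⟶ X), h ≫ A.π = V.ι ≫ g)
    (hrigid : ∀ (E : X.Opens) (f : E.toScheme ⟶ X), f ≫ A.π = E.ι ≫ A.π → f = E.ι)
    (π' : X' ⟶ P2 k) (h : IsBlowUp π' (idealPts α β)) : ∃ ψ : X ≅ X', ψ.hom ≫ π' = A.π := by
  obtain ⟨ψ, hψ, -⟩ := h.existsUnique A.π hinv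
  have hiso : IsIso ψ := by
    have hloc : MorphismProperty.isomorphisms Scheme.{u} ψ := by
      apply IsZariskiLocalAtTarget.of_forall_exists_morphismRestrict
      intro y
      obtain ⟨V, hyV, χ, hχ⟩ := hlift π' h.invertible y
      refine ⟨V, hyV, ?_⟩
      have hu := (h.existsUnique (V.ι ≫ π') (h.invertible.comp_openImmersion V.ι)).unique
        (y₁ := χ ≫ ψ) (y₂ := V.ι) (by rw [Category.assoc, hψ, hχ]) rfl
      have hrange : Set.range χ ⊆ Set.range (ψ ⁻¹ᵁ V).ι := by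
        rw [Scheme.Opens.range_ι]
        rintro _ ⟨v, rfl⟩
        show ψ (χ v) ∈ V
        rw [← Scheme.Hom.comp_apply, hu]
        exact v.2
      let χ' : V.toScheme ⟶ (ψ ⁻¹ᵁ V).toScheme := IsOpenImmersion.lift (ψ ⁻¹ᵁ V).ι χ hrange
      have hχ' : χ' ≫ (ψ ⁻¹ᵁ V).ι = χ := IsOpenImmersion.lift_fac _ _ _
      show IsIso (ψ ∣_ V)
      refine ⟨χ', ?_, ?_⟩
      · rw [← cancel_mono (ψ ⁻¹ᵁ V).ι, Category.assoc, hχ', Category.id_comp]
        apply hrigid
        rw [Category.assoc, hχ, morphismRestrict_ι_assoc, hψ]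
      · rw [← cancel_mono V.ι, Category.assoc, morphismRestrict_ι, ← Category.assoc, hχ', hu,
          Category.id_comp]
    exact hloc
  exact ⟨asIso ψ, hψ⟩

end P

end Pool.Agent.FL
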