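import Pool.Agent.Helper66.FL.Fin4

open MvPolynomial AlgebraicGeometry HomogeneousLocalization CategoryTheory

universe u

namespace Pool.Agent.FL

section Q

/-- the equivalence of the categories of modules given by an isomorphism of schemes -/
noncomputable def pushEquiv {X X' : Scheme.{u}} (ψ : X ≅ X') : X.Modules ≌ X'.Modules :=
  CategoryTheory.Equivalence.mk (Scheme.Modules.pushforward ψ.hom)
    (Scheme.Modules.pushforward ψ.inv)
    ((Scheme.Modules.pushforwardId X).symm ≪≫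
      Scheme.Modules.pushforwardCongr ψ.hom_inv_id.symm ≪≫
      (Scheme.Modules.pushforwardComp ψ.hom ψ.inv).symm)
    (Scheme.Modules.pushforwardComp ψ.inv ψ.hom ≪≫
      Scheme.Modules.pushforwardCongr ψ.inv_hom_id ≪≫ Scheme.Modules.pushforwardId X')

/-- pullback along the inverse of an isomorphism is pushforward -/
noncomputable def pullbackInvIso {X X' : Scheme.{u}} (ψ : X ≅ X') :
    Scheme.Modules.pullback ψ.inv ≅ Scheme.Modules.pushforward ψ.hom :=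
  (Scheme.Modules.pullbackPushforwardAdjunction ψ.inv).leftAdjointUniq (pushEquiv ψ).toAdjunction

/-- the structure sheaf is preserved -/
noncomputable def pushUnitIso {X X' : Scheme.{u}} (ψ : X ≅ X') :
    (Scheme.Modules.pushforward ψ.hom).obj (SheafOfModules.unit X.ringCatSheaf) ≅
      (SheafOfModules.unit X'.ringCatSheaf : X'.Modules) :=
  ((pullbackInvIso ψ).app _).symm ≪≫
    ((Scheme.Modules.restrictFunctorIsoPullback ψ.inv).app _).symm ≪≫
    Scheme.Modules.restrictUnitIso ψ.inv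

lemma isPowFrobenius_conj {X X' : Scheme.{u}} (ψ : X ≅ X') {q : ℕ} {F' : X' ⟶ X'}
    (hF' : IsPowFrobenius q F') : IsPowFrobenius q (ψ.hom ≫ F' ≫ ψ.inv) := by
  have hpre : ∀ U : X.Opens, (ψ.hom ≫ F' ≫ ψ.inv) ⁻¹ᵁ U = U := by
    intro U
    rw [Scheme.Hom.comp_preimage, Scheme.Hom.comp_preimage, hF'.preimage,
      ← Scheme.Hom.comp_preimage, ψ.hom_inv_id, Scheme.Hom.id_preimage]
  refine ⟨hpre, fun U s => ?_⟩
  have h1 : ((ψ.hom ≫ F' ≫ ψ.inv).app U).hom s =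
      (ψ.hom.app (F' ⁻¹ᵁ (ψ.inv ⁻¹ᵁ U))).hom ((F'.app (ψ.inv ⁻¹ᵁ U)).hom ((ψ.inv.app U).hom s)) := by
    rw [Scheme.Hom.comp_app, Scheme.Hom.comp_app]
    rfl
  rw [h1, hF'.app, app_resO, map_pow, map_pow]
  have h2 : (ψ.hom.app (ψ.inv ⁻¹ᵁ U)).hom ((ψ.inv.app U).hom s) =
      ((ψ.hom ≫ ψ.inv).app U).hom s := by
    rw [Scheme.Hom.comp_app]
    rfl
  have h3 : ∀ (g : X ⟶ X) (hg : g = 𝟙 X) (hle : U ≤ g ⁻¹ᵁ U) , resO hle ((g.app U).hom s) = s := by
    rintro g rfl hle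
    rw [Scheme.Hom.id_app]
    exact resO_self _ _
  have hle : U ≤ (ψ.hom ≫ ψ.inv) ⁻¹ᵁ U := by
    rw [ψ.hom_inv_id]
    exact le_rfl
  have hge : (ψ.hom ≫ ψ.inv) ⁻¹ᵁ U ≤ U := by
    rw [ψ.hom_inv_id]
    exact le_rfl
  have h4 : ((ψ.hom ≫ ψ.inv).app U).hom s = resO hge s := by
    have h5 := h3 _ ψ.hom_inv_id hle
    have h6 := congrArg (resO hge) h5
    rw [resO_resO] at h6
    exact (resO_self _ _).symm.trans h6
  rw [h2, h4, map_pow]
  have hle2 : (ψ.hom ≫ F' ≫ ψ.inv) ⁻¹ᵁ U ≤ (ψ.hom ≫ ψ.inv) ⁻¹ᵁ U := by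
    rw [hpre]
    exact hle
  exact congrArg (fun z => z ^ q) (resO_resO hle2 hge s)

variable {k : Type u} [Field k]

theorem liftsToCharZero_of_iso {X X' : Scheme.{u}} (ψ : X ≅ X') (f : X ⟶ Spec (.of k))
    (f' : X' ⟶ Spec (.of k)) (hf : ψ.hom ≫ f' = f) {q : ℕ}
    (h : ∀ F : X ⟶ X, IsPowFrobenius q F → LiftsToCharZero f (pushO F))
    (F' : X' ⟶ X') (hF' : IsPowFrobenius q F') : LiftsToCharZero f' (pushO F') := by
  obtain ⟨R, i1, i2, i3, i4, i5, red, hred, Y, g, i, hsm, hproj, hpb, M, hM, ⟨e⟩⟩ :=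
    h _ (isPowFrobenius_conj ψ hF')
  refine ⟨R, i1, i2, i3, i4, i5, red, hred, Y, g, ψ.inv ≫ i, hsm, hproj, ?_, M, hM, ⟨?_⟩⟩
  · refine IsPullback.of_iso hpb ψ (Iso.refl _) (Iso.refl _) (Iso.refl _) ?_ ?_ ?_ ?_
    · simp
    · simp [hf]
    · simp
    · simp
  · refine (Scheme.Modules.pullbackComp ψ.inv i).symm.app M ≪≫
      (Scheme.Modules.pullback ψ.inv).mapIso e ≪≫ (pullbackInvIso ψ).app _ ≪≫
      (Scheme.Modules.pushforwardComp (ψ.hom ≫ F' ≫ ψ.inv) ψ.hom).app _ ≪≫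
      (Scheme.Modules.pushforwardCongr (by simp)).app _ ≪≫
      (Scheme.Modules.pushforwardComp ψ.hom F').symm.app _ ≪≫
      (Scheme.Modules.pushforward F').mapIso (pushUnitIso ψ)

end Q

end Pool.Agent.FL
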