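import Pool.Agent.FLK

open MvPolynomial AlgebraicGeometry HomogeneousLocalization CategoryTheory

universe u

namespace Pool.Agent.FL

namespace RAux

section Graded

variable {A σ : Type u} [CommRing A] [SetLike σ A] [AddSubgroupClass σ A] {𝒜 : ℕ → σ}
  [GradedRing 𝒜]

lemma irr_le (f g : 𝒜 →+*ᵍ 𝒜) (h : ∀ x, f (g x) = x) :
    HomogeneousIdeal.irrelevant 𝒜 ≤ (HomogeneousIdeal.irrelevant 𝒜).map f := by
  refine toIdeal_le_toIdeal_iff.mp ?_
  refine (HomogeneousIdeal.toIdeal_irrelevant_le _).mpr fun i hi x hx => ?_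
  have h1 : g x ∈ HomogeneousIdeal.irrelevant 𝒜 :=
    HomogeneousIdeal.mem_irrelevant_of_mem _ hi (g.2 hx)
  have h2 := Ideal.mem_map_of_mem f
    (show g x ∈ (HomogeneousIdeal.irrelevant 𝒜).toIdeal from h1)
  rw [h x] at h2
  exact h2

/-- automorphism of `Proj` attached to a graded automorphism -/
noncomputable def autProj (f g : 𝒜 →+*ᵍ 𝒜) (h : ∀ x, f (g x) = x) (h' : ∀ x, g (f x) = x) :
    Proj 𝒜 ≅ Proj 𝒜 where
  hom := Proj.map f (irr_le f g h)
  inv := Proj.map g (irr_le g f h')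
  hom_inv_id := by
    have h1 : f.comp g = .id 𝒜 := by
      ext x
      exact h x
    have key : ∀ (F : 𝒜 →+*ᵍ 𝒜) (hF : HomogeneousIdeal.irrelevant 𝒜 ≤
        (HomogeneousIdeal.irrelevant 𝒜).map F), F = .id 𝒜 → Proj.map F hF = 𝟙 (Proj 𝒜) := by
      rintro F hF rfl
      exact Proj.map_id
    rw [← Proj.map_comp]
    exact key _ _ h1
  inv_hom_id := by
    have h1 : g.comp f = .id 𝒜 := by
      ext x
      exact h' x
    have key : ∀ (F : 𝒜 →+*ᵍ 𝒜) (hF : HomogeneousIdeal.irrelevant 𝒜 ≤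
        (HomogeneousIdeal.irrelevant 𝒜).map F), F = .id 𝒜 → Proj.map F hF = 𝟙 (Proj 𝒜) := by
      rintro F hF rfl
      exact Proj.map_id
    rw [← Proj.map_comp]
    exact key _ _ h1

lemma rho_map {K : Type u} [CommRing K] (φ : A →+* K) (f : 𝒜 →+*ᵍ 𝒜) {s : A} {d : ℕ}
    (hs : s ∈ 𝒜 d) (hu : IsUnit (φ (f s))) (hu' : IsUnit ((φ.comp f.toRingHom) s)) :
    (rho φ 𝒜 hu).comp (Away.map f s) = rho (φ.comp f.toRingHom) 𝒜 hu' := by
  ext x
  obtain ⟨n, a, ha, rfl⟩ := x.mk_surjective _ hs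
  have h1 := rho_mk φ hu (f.map_mem hs) n (f a) (f.map_mem ha)
  have h2 := rho_mk (φ.comp f.toRingHom) hu' hs n a ha
  rw [RingHom.comp_apply, Away.map_mk]
  have h3 : (φ.comp f.toRingHom) s = φ (f s) := rfl
  have h4 : (φ.comp f.toRingHom) a = φ (f a) := rfl
  rw [h3, h4] at h2
  exact (hu.pow n).mul_right_cancel (h1.trans h2.symm)

lemma genPt_map {K : Type u} [CommRing K] (φ : A →+* K) (f : 𝒜 →+*ᵍ 𝒜)
    (hf : HomogeneousIdeal.irrelevant 𝒜 ≤ (HomogeneousIdeal.irrelevant 𝒜).map f) {s : A} {d : ℕ}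
    (hs : s ∈ 𝒜 d) (hd : 0 < d) (hu : IsUnit (φ (f s))) (hu' : IsUnit ((φ.comp f.toRingHom) s)) :
    genPt φ 𝒜 hu (f.map_mem hs) hd ≫ Proj.map f hf = genPt (φ.comp f.toRingHom) 𝒜 hu' hs hd := by
  unfold genPt
  rw [Category.assoc, Proj.awayι_comp_map, ← Category.assoc, ← Spec.map_comp,
    ← CommRingCat.ofHom_comp, rho_map φ f hs hu hu']

end Graded

section Str

variable {R A : Type u} [CommRing R] [CommRing A] [Algebra R A] {𝒜 : ℕ → Submodule R A}
  [GradedAlgebra 𝒜]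

lemma map_projStr (f : 𝒜 →+*ᵍ 𝒜)
    (hf : HomogeneousIdeal.irrelevant 𝒜 ≤ (HomogeneousIdeal.irrelevant 𝒜).map f)
    (hR : ∀ r, f (algebraMap R A r) = algebraMap R A r) :
    Proj.map f hf ≫ projStr 𝒜 = projStr 𝒜 := by
  have key : ∀ (n : ℕ) (hn : 0 < n) (x : A) (hx : x ∈ 𝒜 n),
      Proj.awayι 𝒜 (f x) (f.map_mem hx) hn ≫ Proj.map f hf ≫ projStr 𝒜 =
        Proj.awayι 𝒜 (f x) (f.map_mem hx) hn ≫ projStr 𝒜 := by
    intro n hn x hx
    have e1 := Proj.awayι_comp_map f hf hn x hx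
    rw [← Category.assoc]
    refine (congrArg (· ≫ projStr 𝒜) e1).trans ?_
    refine (Category.assoc _ _ _).trans ?_
    refine (congrArg (Spec.map (CommRingCat.ofHom (Away.map f x)) ≫ ·)
      (awayι_projStr 𝒜 hn x hx)).trans ?_
    refine Eq.trans ?_ (awayι_projStr 𝒜 hn (f x) (f.map_mem hx)).symm
    rw [← Spec.map_comp, ← CommRingCat.ofHom_comp]
    congr 2
    ext r
    have h1 : Submonoid.powers x ≤ (Submonoid.powers (f x)).comap f := by
      rintro _ ⟨m, rfl⟩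
      exact ⟨m, by simp⟩
    change (HomogeneousLocalization.map f h1
      (HomogeneousLocalization.mk ⟨0, algebraMap R (𝒜 0) r, 1, one_mem _⟩)).val =
      (HomogeneousLocalization.mk ⟨0, algebraMap R (𝒜 0) r, 1, one_mem _⟩).val
    rw [HomogeneousLocalization.map_mk, HomogeneousLocalization.val_mk,
      HomogeneousLocalization.val_mk]
    have h2 : f ((algebraMap R (𝒜 0) r : 𝒜 0) : A) = ((algebraMap R (𝒜 0) r : 𝒜 0) : A) := by
      rw [SetLike.GradeZero.coe_algebraMap]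
      exact hR r
    have h3 : f ((1 : 𝒜 0) : A) = ((1 : 𝒜 0) : A) := map_one f
    simp only [h2, h3]
  exact (Proj.mapAffineOpenCover f hf).openCover.hom_ext _ _
    fun (s : (i : ℕ+) × 𝒜 i) => key s.1 s.1.2 s.2.1 s.2.2

end Str

section Plane

variable {k : Type u} [Field k]

lemma iSup_X (k : Type u) [CommRing k] :
    ⨆ j : Fin 3, Proj.basicOpen (homogeneousSubmodule (Fin 3) k) (X j) = ⊤ := by
  apply Proj.iSup_basicOpen_eq_top'
  · intro j
    exact ⟨1, isHomogeneous_X k j⟩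
  · rw [eq_top_iff]
    rintro p -
    induction p using MvPolynomial.induction_on with
    | C a =>
      exact Subalgebra.algebraMap_mem _
        (⟨C a, isHomogeneous_C (Fin 3) a⟩ : homogeneousSubmodule (Fin 3) k 0)
    | add p q hp hq => exact add_mem hp hq
    | mul_X p j hp => exact mul_mem hp (Algebra.subset_adjoin ⟨j, rfl⟩)

lemma exists_lin [Infinite k] {r : ℕ} (ξ : Fin r → Fin 3 → k) (j : Fin r → Fin 3)
    (h : ∀ i, ξ i (j i) ≠ 0) :
    ∃ a : Fin 3 → k, a 0 ≠ 0 ∧ ∀ i, ∑ m, a m * ξ i m ≠ 0 := by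
  classical
  set p : MvPolynomial (Fin 3) k := X 0 * ∏ i, ∑ m, C (ξ i m) * X m with hp
  have hp0 : p ≠ 0 := by
    rw [hp]
    refine mul_ne_zero (X_ne_zero _) ?_
    rw [Finset.prod_ne_zero_iff]
    intro i _ h0
    have h1 := congrArg (eval (Pi.single (j i) (1 : k))) h0
    rw [map_sum, map_zero] at h1
    apply h i
    rw [← h1]
    rw [Finset.sum_eq_single (j i)]
    · simp
    · intro m _ hm
      simp [Pi.single_eq_of_ne hm]
    · simp
  obtain ⟨a, ha⟩ : ∃ a, eval a p ≠ 0 := by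
    by_contra hn
    push Not at hn
    exact hp0 (MvPolynomial.funext fun x => by rw [hn x, map_zero])
  rw [hp, map_mul, map_prod, eval_X] at ha
  refine ⟨a, left_ne_zero_of_mul ha, fun i h0 => ?_⟩
  have h2 := Finset.prod_ne_zero_iff.1 (right_ne_zero_of_mul ha) i (Finset.mem_univ i)
  apply h2
  rw [map_sum, ← h0]
  refine Finset.sum_congr rfl fun m _ => ?_
  simp [mul_comm]

/-- a linear substitution as a graded ring homomorphism -/
noncomputable def sub (L : Fin 3 → MvPolynomial (Fin 3) k) (hL : ∀ m, (L m).IsHomogeneous 1) :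
    homogeneousSubmodule (Fin 3) k →+*ᵍ homogeneousSubmodule (Fin 3) k where
  toRingHom := (aeval L).toRingHom
  map_mem := by
    intro n x hx
    have h1 := IsHomogeneous.aeval ((mem_homogeneousSubmodule _ _).1 hx) L hL
    rw [one_mul] at h1
    exact (mem_homogeneousSubmodule _ _).2 h1

lemma sub_apply (L : Fin 3 → MvPolynomial (Fin 3) k) (hL : ∀ m, (L m).IsHomogeneous 1)
    (x : MvPolynomial (Fin 3) k) : sub L hL x = aeval L x := rfl

lemma isHom_CX (a : k) (m : Fin 3) : (C a * X m : MvPolynomial (Fin 3) k).IsHomogeneous 1 := by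
  have := (isHomogeneous_C (Fin 3) a).mul (isHomogeneous_X k m)
  simpa using this

/-- the substitution and its inverse -/
noncomputable def L1 (a : Fin 3 → k) : Fin 3 → MvPolynomial (Fin 3) k :=
  ![C (a 0) * X 0 + C (a 1) * X 1 + C (a 2) * X 2, X 1, X 2]

noncomputable def L2 (a : Fin 3 → k) : Fin 3 → MvPolynomial (Fin 3) k :=
  ![C (a 0)⁻¹ * X 0 - C ((a 0)⁻¹ * a 1) * X 1 - C ((a 0)⁻¹ * a 2) * X 2, X 1, X 2]

lemma hL1 (a : Fin 3 → k) (m : Fin 3) : (L1 a m).IsHomogeneous 1 := by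
  fin_cases m
  · exact ((isHom_CX _ _).add (isHom_CX _ _)).add (isHom_CX _ _)
  · exact isHomogeneous_X k 1
  · exact isHomogeneous_X k 2

lemma hL2 (a : Fin 3 → k) (m : Fin 3) : (L2 a m).IsHomogeneous 1 := by
  fin_cases m
  · exact ((isHom_CX _ _).sub (isHom_CX _ _)).sub (isHom_CX _ _)
  · exact isHomogeneous_X k 1
  · exact isHomogeneous_X k 2

lemma sub12 (a : Fin 3 → k) (h0 : a 0 ≠ 0) (x : MvPolynomial (Fin 3) k) :
    sub (L1 a) (hL1 a) (sub (L2 a) (hL2 a) x) = x := by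
  rw [sub_apply, sub_apply]
  have h : (aeval (L1 a)).comp (aeval (L2 a)) = AlgHom.id k (MvPolynomial (Fin 3) k) := by
    have e1 : (C (a 0)⁻¹ : MvPolynomial (Fin 3) k) * C (a 0) = 1 := by
      rw [← C_mul, inv_mul_cancel₀ h0, C_1]
    ext m : 1
    fin_cases m
    · simp [L1, L2]
      linear_combination (X 0 : MvPolynomial (Fin 3) k) * e1
    · simp [L1, L2]
    · simp [L1, L2]
  exact congr($h x)

lemma sub21 (a : Fin 3 → k) (h0 : a 0 ≠ 0) (x : MvPolynomial (Fin 3) k) :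
    sub (L2 a) (hL2 a) (sub (L1 a) (hL1 a) x) = x := by
  rw [sub_apply, sub_apply]
  have h : (aeval (L2 a)).comp (aeval (L1 a)) = AlgHom.id k (MvPolynomial (Fin 3) k) := by
    have e1 : (C (a 0)⁻¹ : MvPolynomial (Fin 3) k) * C (a 0) = 1 := by
      rw [← C_mul, inv_mul_cancel₀ h0, C_1]
    ext m : 1
    fin_cases m
    · simp [L1, L2]
      linear_combination (X 0 - C (a 1) * X 1 - C (a 2) * X 2 : MvPolynomial (Fin 3) k) * e1
    · simp [L1, L2]
    · simp [L1, L2]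
  exact congr($h x)

lemma genPt_congr {A σ : Type u} [CommRing A] [SetLike σ A] [AddSubgroupClass σ A] {𝒜 : ℕ → σ}
    [GradedRing 𝒜] {K : Type u} [CommRing K] {φ φ' : A →+* K} (h : φ = φ') {s : A} {d : ℕ}
    (hu : IsUnit (φ s)) (hu' : IsUnit (φ' s)) (hs : s ∈ 𝒜 d) (hd : 0 < d) :
    genPt φ 𝒜 hu hs hd = genPt φ' 𝒜 hu' hs hd := by
  subst h
  rfl

lemma ptP_congr {k B : Type u} [CommRing k] [CommRing B] (c : k →+* B) {ξ ξ' : Fin 3 → B}
    (h : ξ = ξ') (j : Fin 3) (hj : IsUnit (ξ j)) (hj' : IsUnit (ξ' j)) :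
    ptP c ξ j hj = ptP c ξ' j hj' := by
  subst h
  rfl

lemma ptP_map (ξ : Fin 3 → k) (j : Fin 3) (hj : IsUnit (ξ j)) (a : Fin 3 → k)
    (hf : HomogeneousIdeal.irrelevant (homogeneousSubmodule (Fin 3) k) ≤
      (HomogeneousIdeal.irrelevant (homogeneousSubmodule (Fin 3) k)).map (sub (L1 a) (hL1 a)))
    (hu : IsUnit ((![∑ m, a m * ξ m, ξ 1, ξ 2] : Fin 3 → k) 0)) :
    ptP (RingHom.id k) ξ j hj ≫ Proj.map (sub (L1 a) (hL1 a)) hf =
      ptP (RingHom.id k) ![∑ m, a m * ξ m, ξ 1, ξ 2] 0 hu := by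
  have e0 : evalP (RingHom.id k) ξ (sub (L1 a) (hL1 a) (X 0)) = ∑ m, a m * ξ m := by
    rw [sub_apply]
    simp [L1, evalP, Fin.sum_univ_three]
  have e1 : (evalP (RingHom.id k) ξ).comp (sub (L1 a) (hL1 a)).toRingHom =
      evalP (RingHom.id k) ![∑ m, a m * ξ m, ξ 1, ξ 2] := by
    refine MvPolynomial.ringHom_ext ?_ ?_
    · intro b
      change evalP (RingHom.id k) ξ (sub (L1 a) (hL1 a) (C b)) = _
      rw [sub_apply]
      simp [evalP]
    · intro m
      change evalP (RingHom.id k) ξ (sub (L1 a) (hL1 a) (X m)) = _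
      fin_cases m
      · refine e0.trans ?_
        simp [evalP]
      · rw [sub_apply]
        simp [evalP, L1]
      · rw [sub_apply]
        simp [evalP, L1]
  have hX : (X 0 : MvPolynomial (Fin 3) k) ∈ homogeneousSubmodule (Fin 3) k 1 :=
    isHomogeneous_X k 0
  have hu1 : IsUnit (evalP (RingHom.id k) ξ (sub (L1 a) (hL1 a) (X 0))) := by
    rw [e0]; exact hu
  have hu2 : IsUnit (((evalP (RingHom.id k) ξ).comp (sub (L1 a) (hL1 a)).toRingHom) (X 0)) := hu1
  unfold ptP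
  rw [genPt_indep (evalP (RingHom.id k) ξ) _ _ _ hu1 ((sub (L1 a) (hL1 a)).map_mem hX)
    Nat.one_pos, genPt_map (evalP (RingHom.id k) ξ) (sub (L1 a) (hL1 a)) hf hX Nat.one_pos hu1 hu2]
  exact genPt_congr e1 _ _ _ _

end Plane

end RAux

section R
variable {k : Type u} [Field k]

/-- every `k`-point of the plane has homogeneous coordinates -/
theorem exists_coords (P : Spec (.of k) ⟶ P2 k) (hP : P ≫ strP2 k = 𝟙 _) :
    ∃ (ξ : Fin 3 → k) (j : Fin 3) (hj : IsUnit (ξ j)), P = ptP (RingHom.id k) ξ j hj := by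
  let x : Spec (.of k) := (⊥ : PrimeSpectrum k)
  have hx : P x ∈ ⨆ j : Fin 3, Proj.basicOpen (homogeneousSubmodule (Fin 3) k) (X j) := by
    rw [RAux.iSup_X]
    trivial
  obtain ⟨j, hj⟩ := TopologicalSpace.Opens.mem_iSup.mp hx
  have h : ⊤ ≤ P ⁻¹ᵁ Proj.basicOpen (homogeneousSubmodule (Fin 3) k) (X j) := by
    intro y _
    have hy : y = x := Subsingleton.elim (α := PrimeSpectrum k) _ _
    rw [hy]
    exact hj
  obtain ⟨c, ξ, hj', h1, h2⟩ := exists_ptP P j h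
  have h3 : c = RingHom.id k := by
    rw [h2, ptP_str] at hP
    have h4 := Spec.map_injective (hP.trans (Spec.map_id (.of k)).symm)
    exact congr(($h4).hom)
  subst h3
  exact ⟨ξ, j, hj', h2⟩

/-- finitely many `k`-points can be moved to the affine chart `x₀ ≠ 0` by an automorphism of the
plane over `k` (`k` infinite: choose a linear form that vanishes at none of the points, complete it to
a basis, take `Proj.map` of the linear substitution) -/
theorem exists_auto [Infinite k] {r : ℕ} (P : Fin r → (Spec (.of k) ⟶ P2 k))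
    (hP : ∀ i, P i ≫ strP2 k = 𝟙 _) :
    ∃ (τ : P2 k ≅ P2 k) (α β : Fin r → k), τ.hom ≫ strP2 k = strP2 k ∧
      ∀ i, P i ≫ τ.hom = affPt (α i) (β i) := by
  choose ξ j hj hPξ using fun i => exists_coords (P i) (hP i)
  obtain ⟨a, h0, ha⟩ := RAux.exists_lin ξ j fun i => (hj i).ne_zero
  refine ⟨RAux.autProj (RAux.sub (RAux.L1 a) (RAux.hL1 a)) (RAux.sub (RAux.L2 a) (RAux.hL2 a)) (RAux.sub12 a h0)
    (RAux.sub21 a h0), fun i => ξ i 1 / ∑ m, a m * ξ i m, fun i => ξ i 2 / ∑ m, a m * ξ i m, ?_, ?_⟩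
  · refine RAux.map_projStr _ _ fun r => ?_
    rw [RAux.sub_apply]
    simp
  · intro i
    rw [hPξ i]
    have hu : IsUnit ((![∑ m, a m * ξ i m, ξ i 1, ξ i 2] : Fin 3 → k) 0) := (ha i).isUnit
    refine (RAux.ptP_map (ξ i) (j i) (hj i) a _ hu).trans ?_
    unfold affPt
    have e : (![∑ m, a m * ξ i m, ξ i 1, ξ i 2] : Fin 3 → k) = fun m =>
        (∑ m, a m * ξ i m) * (![1, ξ i 1 / ∑ m, a m * ξ i m, ξ i 2 / ∑ m, a m * ξ i m] :
          Fin 3 → k) m := by
      funext m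
      fin_cases m
      · simp
      · exact (mul_div_cancel₀ _ (ha i)).symm
      · exact (mul_div_cancel₀ _ (ha i)).symm
    have hu' : IsUnit ((∑ m, a m * ξ i m) * (![1, ξ i 1 / ∑ m, a m * ξ i m,
        ξ i 2 / ∑ m, a m * ξ i m] : Fin 3 → k) 0) := by
      simpa using (ha i)
    rw [RAux.ptP_congr (RingHom.id k) e 0 hu hu']
    exact ptP_smul (RingHom.id k) _ _ 0 isUnit_one hu'

end R

end Pool.Agent.FL
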