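import Pool.Agent.Helper66.FL.Blow

/-! Blow-ups and isomorphisms of the target. -/

open AlgebraicGeometry CategoryTheory

universe u

namespace Pool.Agent.FL

section S
variable {k : Type u} [CommRing k]

lemma ideal_idealOfPts_comp_iso {Y Y' : Scheme.{u}} (τ : Y ≅ Y') {r : ℕ}
    (P : Fin r → (Spec (.of k) ⟶ Y)) (U : Y'.affineOpens) :
    (idealOfPts fun i => P i ≫ τ.hom).ideal U =
      ((idealOfPts P).ideal ⟨τ.hom ⁻¹ᵁ U.1, U.2.preimage τ.hom⟩).comap (τ.hom.app U.1).hom := by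
  unfold idealOfPts
  rw [Scheme.IdealSheafData.ideal_iInf, Scheme.IdealSheafData.ideal_iInf, iInf_apply, iInf_apply,
    Ideal.comap_iInf]
  refine iInf_congr fun i => ?_
  rw [Scheme.Hom.ker_comp, Scheme.IdealSheafData.ideal_map_of_isAffineHom]

lemma isInvertibleAlong_of_iso {T Y Y' : Scheme.{u}} (τ : Y ≅ Y') {r : ℕ}
    (P : Fin r → (Spec (.of k) ⟶ Y)) (g : T ⟶ Y)
    (h : IsInvertibleAlong (idealOfPts fun i => P i ≫ τ.hom) (g ≫ τ.hom)) :
    IsInvertibleAlong (idealOfPts P) g := by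
  intro t
  obtain ⟨U, V, hVU, htV, a, ha, hI⟩ := h t
  refine ⟨⟨τ.hom ⁻¹ᵁ U.1, U.2.preimage τ.hom⟩, V, hVU, htV, a, ha, ?_⟩
  rw [← hI, ideal_idealOfPts_comp_iso, Scheme.Hom.comp_appLE, CommRingCat.hom_comp,
    ← Ideal.map_map, Ideal.map_comap_of_surjective]
  exact (ConcreteCategory.bijective_of_isIso (τ.hom.app U.1)).2

theorem isInvertibleAlong_iso {T Y Y' : Scheme.{u}} (τ : Y ≅ Y') {r : ℕ}
    (P : Fin r → (Spec (.of k) ⟶ Y)) (g : T ⟶ Y) :
    IsInvertibleAlong (idealOfPts fun i => P i ≫ τ.hom) (g ≫ τ.hom) ↔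
      IsInvertibleAlong (idealOfPts P) g := by
  refine ⟨isInvertibleAlong_of_iso τ P g, fun h => ?_⟩
  refine isInvertibleAlong_of_iso τ.symm (fun i => P i ≫ τ.hom) (g ≫ τ.hom) ?_
  simpa using h

theorem isBlowUp_iso {X Y Y' : Scheme.{u}} (τ : Y ≅ Y') {r : ℕ}
    (P : Fin r → (Spec (.of k) ⟶ Y)) (π : X ⟶ Y) (h : IsBlowUp π (idealOfPts P)) :
    IsBlowUp (π ≫ τ.hom) (idealOfPts fun i => P i ≫ τ.hom) where
  invertible := (isInvertibleAlong_iso τ P π).2 h.invertible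
  existsUnique := by
    intro T g hg
    have hg' : IsInvertibleAlong (idealOfPts P) (g ≫ τ.inv) := by
      rw [← isInvertibleAlong_iso τ P (g ≫ τ.inv)]
      simpa using hg
    obtain ⟨f, hf, hu⟩ := h.existsUnique (g ≫ τ.inv) hg'
    refine ⟨f, ?_, fun f' hf' => hu f' ?_⟩
    · change f ≫ π ≫ τ.hom = g
      rw [← Category.assoc, hf, Category.assoc, τ.inv_hom_id, Category.comp_id]
    · change f' ≫ π = g ≫ τ.inv
      rw [← hf', Category.assoc, Category.assoc, τ.hom_inv_id, Category.comp_id]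

end S

end Pool.Agent.FL
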