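import Pool.Agent.FLK

open MvPolynomial AlgebraicGeometry HomogeneousLocalization CategoryTheory

universe u

/-! MP_b2373b_ag, wave 3, T1: uniqueness of lifts to the explicit blow-up. Outside the points of the
plane the lift is unique (`lift_unique_of_avoids`); the complement of the inverse image of the points is
schematically dense because its ideal is generated by a nonzerodivisor, and `X` is separated. -/

namespace Pool.Agent.FL

namespace LiftU

section PtPLemmas

variable {k B : Type u} [CommRing k] [CommRing B]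

lemma ptP_congr {c c' : k →+* B} {ξ ξ' : Fin 3 → B} (hc : c = c') (hξ : ξ = ξ') (j : Fin 3)
    (hj : IsUnit (ξ j)) (hj' : IsUnit (ξ' j)) : ptP c ξ j hj = ptP c' ξ' j hj' := by
  subst hc hξ
  rfl

/-- a homogeneous form does not vanish at a point iff the whole scheme maps to its basic open set -/
lemma isUnit_evalP_iff (c : k →+* B) (ξ : Fin 3 → B) (j : Fin 3) (hj : IsUnit (ξ j)) {n : ℕ}
    (hn : 0 < n) (f : MvPolynomial (Fin 3) k) (hf : f ∈ homogeneousSubmodule (Fin 3) k n) :
    IsUnit (evalP c ξ f) ↔ ∀ b : Spec (.of B),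
      (ptP c ξ j hj) b ∈ Proj.basicOpen (homogeneousSubmodule (Fin 3) k) f := by
  constructor
  · intro h b
    rw [ptP_mem_basicOpen c ξ j hj hn f hf b]
    intro hb
    exact (show PrimeSpectrum B from b).isPrime.ne_top (Ideal.eq_top_of_isUnit_mem _ hb h)
  · intro h
    by_contra hu
    obtain ⟨m, hm, hmem⟩ := exists_max_ideal_of_mem_nonunits hu
    have h1 := h (show Spec (.of B) from (⟨m, hm.isPrime⟩ : PrimeSpectrum B))
    rw [ptP_mem_basicOpen c ξ j hj hn f hf] at h1
    exact h1 hmem

lemma isUnit_evalP_congr {c c' : k →+* B} {ξ ξ' : Fin 3 → B} {j j' : Fin 3} (hj : IsUnit (ξ j))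
    (hj' : IsUnit (ξ' j')) (h : ptP c ξ j hj = ptP c' ξ' j' hj') {n : ℕ}
    (hn : 0 < n) (f : MvPolynomial (Fin 3) k) (hf : f ∈ homogeneousSubmodule (Fin 3) k n) :
    IsUnit (evalP c ξ f) ↔ IsUnit (evalP c' ξ' f) := by
  rw [isUnit_evalP_iff c ξ j hj hn f hf, isUnit_evalP_iff c' ξ' j' hj' hn f hf, h]

/-- equal points have proportional coordinates -/
lemma ptP_eq_iff {c c' : k →+* B} {ξ ξ' : Fin 3 → B} {j j' : Fin 3} (hj : IsUnit (ξ j))
    (hj' : IsUnit (ξ' j')) (h : ptP c ξ j hj = ptP c' ξ' j' hj') :
    c = c' ∧ ∃ u : B, IsUnit u ∧ ∀ m, ξ m = u * ξ' m := by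
  have hj2 : IsUnit (ξ j') := by
    have := (isUnit_evalP_congr hj hj' h Nat.one_pos (X j') (isHomogeneous_X k j')).2
      (isUnit_evalP c' hj')
    rwa [evalP_X] at this
  rw [ptP_indep c ξ j j' hj hj2] at h
  obtain ⟨v, hv⟩ := hj2.exists_left_inv
  obtain ⟨v', hv'⟩ := hj'.exists_left_inv
  have h1 : IsUnit (v * ξ j') := by rw [hv]; exact isUnit_one
  have h2 : IsUnit (v' * ξ' j') := by rw [hv']; exact isUnit_one
  rw [← ptP_smul c ξ v j' hj2 h1, ← ptP_smul c' ξ' v' j' hj' h2] at h
  obtain ⟨h3, h4⟩ := ptP_injective j' h1 h2 hv hv' h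
  refine ⟨h3, ξ j' * v', hj2.mul (IsUnit.of_mul_eq_one _ hv'), fun m => ?_⟩
  have h5 : v * ξ m = v' * ξ' m := congrFun h4 m
  rw [mul_assoc, ← h5, ← mul_assoc, mul_comm (ξ j'), hv, one_mul]

lemma comp_affPt (a b : k) (φ : k →+* B) : Spec.map (CommRingCat.ofHom φ) ≫ affPt a b =
    ptP φ ![1, φ a, φ b] 0 (by simp) := by
  have h0 : IsUnit ((![1, a, b] : Fin 3 → k) 0) := by simp
  have h1 : affPt a b = ptP (RingHom.id k) ![1, a, b] 0 h0 := rfl
  rw [h1, ptP_comp]
  refine ptP_congr ?_ ?_ _ _ _
  · ext a; rfl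
  · funext m
    fin_cases m <;> simp

end PtPLemmas

section Full

variable {k : Type u} [Field k] {r : ℕ} (α β : Fin r → k)

/-- the equation of the part of the chart outside the exceptional curves -/
noncomputable def fullElt (x : ChartIx r) : MvPolynomial (Fin 3) k :=
  X (chartJ x) * ∏ l, linH α β l (chartC x l)

lemma fullElt_mem (x : ChartIx r) : fullElt α β x ∈ homogeneousSubmodule (Fin 3) k (r + 1) := by
  rw [mem_homogeneousSubmodule]
  have h1 := IsHomogeneous.prod Finset.univ (fun l => linH α β l (chartC x l)) (fun _ => 1)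
    (fun l _ => (mem_homogeneousSubmodule _ _).1 (linH_mem α β l (chartC x l)))
  rw [Finset.sum_const, smul_eq_mul, mul_one, Finset.card_univ, Fintype.card_fin] at h1
  rw [add_comm]
  exact (isHomogeneous_X k (chartJ x)).mul h1

variable {B : Type u} [CommRing B] (c : k →+* B) (ξ : Fin 3 → B)

lemma evalP_linH (l : Fin r) (b : Bool) :
    evalP c ξ (linH α β l b) = bif b then ξ 2 - c (β l) * ξ 0 else ξ 1 - c (α l) * ξ 0 := by
  cases b <;> simp [linH, evalP_X, evalP_C]

lemma isUnit_fullElt_iff (x : ChartIx r) : IsUnit (evalP c ξ (fullElt α β x)) ↔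
    IsUnit (ξ (chartJ x)) ∧ ∀ l, IsUnit (evalP c ξ (linH α β l (chartC x l))) := by
  unfold fullElt
  rw [map_mul, map_prod, evalP_X, IsUnit.mul_iff, IsUnit.prod_univ_iff]

/-- existence of points in the charts -/
lemma exists_chart_pt (x : ChartIx r) (h : IsUnit (evalP c ξ (fullElt α β x))) :
    ∃ μ : CR α β x →+* B, μ.comp (chartConst α β x) = c ∧
      ∀ m, μ (chartXi α β x m) * ξ (chartJ x) = ξ m := by
  rw [isUnit_fullElt_iff] at h
  obtain ⟨hJ, hl⟩ := h
  -- the images of the two coordinates
  obtain ⟨st, hst⟩ : ∃ st : Fin 2 → B, ∀ m, eval₂Hom c st (coordP α β x m) * ξ (chartJ x) = ξ m := by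
    obtain ⟨v, hv⟩ := hJ.exists_left_inv
    rcases x with ⟨i, b⟩ | b
    · have hi := hl i
      obtain ⟨w, hw⟩ := hi.exists_left_inv
      rw [evalP_linH] at hw
      simp only [chartJ, chartC] at hv hw ⊢
      refine ⟨![v * (evalP c ξ (linH α β i (b i))), w * (evalP c ξ (linH α β i (!b i)))], ?_⟩
      intro m
      rw [evalP_linH, evalP_linH]
      cases hb : b i
      · rw [hb] at hw
        simp only [cond_false, Bool.not_false, cond_true] at hw ⊢
        fin_cases m
        · simp [coordP, hb]
        · simp only [coordP, hb, cond_false]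
          simp
          linear_combination (ξ 1 - c (α i) * ξ 0) * hv
        · simp only [coordP, hb, cond_false]
          simp
          linear_combination (ξ 2 - c (β i) * ξ 0) * w * (ξ 1 - c (α i) * ξ 0) * hv +
            (ξ 2 - c (β i) * ξ 0) * hw
      · rw [hb] at hw
        simp only [cond_false, Bool.not_true, cond_true] at hw ⊢
        fin_cases m
        · simp [coordP, hb]
        · simp only [coordP, hb, cond_true]
          simp
          linear_combination (ξ 1 - c (α i) * ξ 0) * w * (ξ 2 - c (β i) * ξ 0) * hv +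
            (ξ 1 - c (α i) * ξ 0) * hw
        · simp only [coordP, hb, cond_true]
          simp
          linear_combination (ξ 2 - c (β i) * ξ 0) * hv
    · cases b
      · simp only [chartJ] at hv ⊢
        refine ⟨![v * ξ 0, v * ξ 2], ?_⟩
        intro m
        fin_cases m
        · simp [coordP]
          linear_combination (ξ 0) * hv
        · simp [coordP]
        · simp [coordP]
          linear_combination (ξ 2) * hv
      · simp only [chartJ] at hv ⊢
        refine ⟨![v * ξ 0, v * ξ 1], ?_⟩
        intro m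
        fin_cases m
        · simp [coordP]
          linear_combination (ξ 0) * hv
        · simp [coordP]
          linear_combination (ξ 1) * hv
        · simp [coordP]
  have hlin : ∀ l b, eval₂Hom c st (linP α β x l b) * ξ (chartJ x) = evalP c ξ (linH α β l b) := by
    intro l b
    rw [evalP_linH]
    cases b
    · simp only [linP, cond_false, map_sub, map_mul, sub_mul]
      rw [hst, mul_assoc, hst, eval₂Hom_C]
    · simp only [linP, cond_true, map_sub, map_mul, sub_mul]
      rw [hst, mul_assoc, hst, eval₂Hom_C]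
  have hH : IsUnit (eval₂Hom c st (chartH α β x)) := by
    unfold chartH
    rw [map_prod]
    refine Finset.prod_induction _ IsUnit (fun _ _ => IsUnit.mul) isUnit_one fun l _ => ?_
    have h1 := hl l
    rw [← hlin] at h1
    exact isUnit_of_mul_isUnit_left h1
  refine ⟨Localization.awayLift (eval₂Hom c st) (chartH α β x) hH, ?_, ?_⟩
  · ext a
    unfold chartConst
    rw [RingHom.comp_apply, RingHom.comp_apply]
    have h2 : Localization.awayLift (eval₂Hom c st) (chartH α β x) hH
      (algebraMap _ (CR α β x) (C a)) = eval₂Hom c st (C a) := IsLocalization.Away.lift_eq _ _ _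
    rw [h2, eval₂Hom_C]
  · intro m
    have h2 : Localization.awayLift (eval₂Hom c st) (chartH α β x) hH (chartXi α β x m) =
      eval₂Hom c st (coordP α β x m) := IsLocalization.Away.lift_eq _ _ _
    rw [h2, hst]

/-- uniqueness of points in the charts -/
lemma chart_pt_unique (x : ChartIx r) (μ μ' : CR α β x →+* B)
    (h1 : μ.comp (chartConst α β x) = μ'.comp (chartConst α β x))
    (h2 : ∀ m, μ (chartXi α β x m) = μ' (chartXi α β x m))
    (h : IsUnit (evalP (μ.comp (chartConst α β x)) (fun m => μ (chartXi α β x m))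
      (fullElt α β x))) : μ = μ' := by
  rw [isUnit_fullElt_iff] at h
  have hl := h.2
  apply IsLocalization.ringHom_ext (Submonoid.powers (chartH α β x))
  apply MvPolynomial.ringHom_ext
  · intro a
    change (μ.comp (chartConst α β x)) a = (μ'.comp (chartConst α β x)) a
    rw [h1]
  · intro j
    have h2' : ∀ m, μ (algebraMap _ (CR α β x) (coordP α β x m)) =
      μ' (algebraMap _ (CR α β x) (coordP α β x m)) := h2
    have h1' : ∀ a, μ (algebraMap (MvPolynomial (Fin 2) k) (CR α β x) (C a)) =
        μ' (algebraMap (MvPolynomial (Fin 2) k) (CR α β x) (C a)) := by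
      intro a
      change (μ.comp (chartConst α β x)) a = (μ'.comp (chartConst α β x)) a
      rw [h1]
    rw [RingHom.comp_apply, RingHom.comp_apply]
    rcases x with ⟨i, b⟩ | b
    · have hi := hl i
      rw [evalP_linH] at hi
      simp only [chartC] at hi
      have e0 := h2' 0
      have e1 := h2' 1
      have e2 := h2' 2
      have hc0 := h1' (α i)
      have hc1 := h1' (β i)
      cases hb : b i
      · simp only [hb, cond_false] at hi
        simp only [coordP, hb, cond_false] at e0 e1 e2
        simp only [Fin.isValue, Matrix.cons_val_one, Matrix.cons_val_zero, Matrix.cons_val,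
          map_add, map_mul] at e0 e1 e2
        have s1 : μ (algebraMap (MvPolynomial (Fin 2) k) (CR α β (.inl (i, b))) (X 0)) =
            μ' (algebraMap (MvPolynomial (Fin 2) k) (CR α β (.inl (i, b))) (X 0)) := by
          linear_combination e1 - hc0
        have hi2 : IsUnit (μ (algebraMap (MvPolynomial (Fin 2) k) (CR α β (.inl (i, b))) (X 0))) := by
          convert hi using 1
          simp only [chartXi, chartConst, coordP, hb, cond_false, RingHom.comp_apply]
          simp
        fin_cases j
        · exact s1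
        · apply hi2.mul_left_cancel
          simp only [Fin.isValue, Fin.mk_one]
          linear_combination e2 - hc1 - (μ' (algebraMap (MvPolynomial (Fin 2) k) (CR α β (.inl (i, b))) (X 1))) * s1
      · simp only [hb, cond_true] at hi
        simp only [coordP, hb, cond_true] at e0 e1 e2
        simp only [Fin.isValue, Matrix.cons_val_one, Matrix.cons_val_zero, Matrix.cons_val,
          map_add, map_mul] at e0 e1 e2
        have s1 : μ (algebraMap (MvPolynomial (Fin 2) k) (CR α β (.inl (i, b))) (X 0)) =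
            μ' (algebraMap (MvPolynomial (Fin 2) k) (CR α β (.inl (i, b))) (X 0)) := by
          linear_combination e2 - hc1
        have hi2 : IsUnit (μ (algebraMap (MvPolynomial (Fin 2) k) (CR α β (.inl (i, b))) (X 0))) := by
          convert hi using 1
          simp only [chartXi, chartConst, coordP, hb, cond_true, RingHom.comp_apply]
          simp
        fin_cases j
        · exact s1
        · apply hi2.mul_left_cancel
          simp only [Fin.isValue, Fin.mk_one]
          linear_combination e1 - hc0 - (μ' (algebraMap (MvPolynomial (Fin 2) k) (CR α β (.inl (i, b))) (X 1))) * s1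
    · cases b
      · fin_cases j
        · simpa [coordP] using h2' 0
        · simpa [coordP] using h2' 2
      · fin_cases j
        · simpa [coordP] using h2' 0
        · simpa [coordP] using h2' 1

/-- the open part of the chart outside the exceptional curve -/
lemma isUnit_linH_chart (x : ChartIx r) (l : Fin r) (hl : l ∈ chartD x) :
    IsUnit (evalP (chartConst α β x) (chartXi α β x) (linH α β l (chartC x l))) := by
  have h1 : evalP (chartConst α β x) (chartXi α β x) (linH α β l (chartC x l)) =
      algebraMap _ (CR α β x) (linP α β x l (chartC x l)) := by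
    rw [evalP_linH]
    unfold linP chartXi chartConst
    cases chartC x l <;> simp
  rw [h1]
  have h2 : IsUnit (algebraMap (MvPolynomial (Fin 2) k) (CR α β x) (chartH α β x)) :=
    IsLocalization.Away.algebraMap_isUnit _
  refine isUnit_of_dvd_unit (map_dvd _ ?_) h2
  exact Finset.dvd_prod_of_mem (fun l => linP α β x l (chartC x l)) hl

/-- a morphism to the plane that avoids the points -/
def Avoids {S : Scheme.{u}} (g : S ⟶ P2 k) : Prop :=
  ∀ (i : Fin r) (L : Type u) (_ : Field L) (y : Spec (.of L) ⟶ S)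
    (σ : Spec (.of L) ⟶ Spec (.of k)), y ≫ g ≠ σ ≫ affPt (α i) (β i)

lemma Avoids.comp {S S' : Scheme.{u}} {g : S ⟶ P2 k} (h : Avoids α β g) (f : S' ⟶ S) :
    Avoids α β (f ≫ g) := by
  intro i L _ y σ hy
  exact h i L _ (y ≫ f) σ (by rw [Category.assoc, hy])

/-- a point in a chart avoiding the exceptional curves -/
lemma isUnit_full_of_avoids (x : ChartIx r) (μ : CR α β x →+* B)
    (h : Avoids α β (Spec.map (CommRingCat.ofHom μ) ≫
      ptP (chartConst α β x) (chartXi α β x) (chartJ x) (isUnit_chartXi α β x))) :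
    IsUnit (evalP (μ.comp (chartConst α β x)) (fun m => μ (chartXi α β x m))
      (fullElt α β x)) := by
  have hev : ∀ f, evalP (μ.comp (chartConst α β x)) (fun m => μ (chartXi α β x m)) f =
      μ (evalP (chartConst α β x) (chartXi α β x) f) := by
    intro f
    unfold evalP
    have := eval₂_comp_left μ (chartConst α β x) (chartXi α β x) f
    exact this.symm
  rw [isUnit_fullElt_iff]
  refine ⟨(isUnit_chartXi α β x).map μ, fun l => ?_⟩
  by_cases hl : l ∈ chartD x
  · rw [hev]
    exact (isUnit_linH_chart α β x l hl).map μ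
  · rcases x with ⟨i, b⟩ | b
    · have hli : l = i := by
        by_contra hne
        exact hl (Finset.mem_erase.2 ⟨hne, Finset.mem_univ _⟩)
      subst hli
      rw [hev]
      by_contra hu
      obtain ⟨m, hm, hmem⟩ := exists_max_ideal_of_mem_nonunits hu
      let L := B ⧸ m
      let _ : Field L := Ideal.Quotient.field m
      have h0 : Ideal.Quotient.mk m (μ (algebraMap (MvPolynomial (Fin 2) k) (CR α β (.inl (l, b))) (X 0))) = 0 := by
        rw [Ideal.Quotient.eq_zero_iff_mem]
        convert hmem using 2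
        rw [evalP_linH]
        simp only [chartC, chartXi, chartConst, coordP]
        cases b l <;> simp
      refine h l L _ (Spec.map (CommRingCat.ofHom (Ideal.Quotient.mk m)))
        (Spec.map (CommRingCat.ofHom ((Ideal.Quotient.mk m).comp
          (μ.comp (chartConst α β (.inl (l, b))))))) ?_
      rw [ptP_comp, ptP_comp, comp_affPt]
      refine ptP_congr rfl ?_ _ _ _
      · funext m'
        simp only [chartXi, coordP, chartConst, RingHom.comp_apply]
        cases hb : b l
        · fin_cases m'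
          · simp
          · simp [h0]
          · simp [h0]
        · fin_cases m'
          · simp
          · simp [h0]
          · simp [h0]
    · exact absurd (Finset.mem_univ l) hl

end Full

lemma ext_of_injective {X : Scheme.{u}} [X.IsSeparated] {B B' : Type u} [CommRing B] [CommRing B']
    (φ : B →+* B') (hφ : Function.Injective φ) (f g : Spec (.of B) ⟶ X)
    (h : Spec.map (CommRingCat.ofHom φ) ≫ f = Spec.map (CommRingCat.ofHom φ) ≫ g) : f = g := by
  have h1 : Limits.equalizer.lift _ h ≫ Limits.equalizer.ι f g = Spec.map (CommRingCat.ofHom φ) :=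
    Limits.equalizer.lift_ι _ _
  have h2 : (Limits.equalizer.ι f g).appTop ≫ (Limits.equalizer.lift _ h).appTop =
      (Spec.map (CommRingCat.ofHom φ)).appTop := by
    rw [← Scheme.Hom.comp_appTop, h1]
  have h3 : Function.Injective (Spec.map (CommRingCat.ofHom φ)).appTop := by
    have h4 : (Scheme.ΓSpecIso (.of B)).inv ≫ (Spec.map (CommRingCat.ofHom φ)).appTop =
      CommRingCat.ofHom φ ≫ (Scheme.ΓSpecIso (.of B')).inv := by
      rw [Scheme.ΓSpecIso_inv_naturality]
    have h5 : (Spec.map (CommRingCat.ofHom φ)).appTop =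
      (Scheme.ΓSpecIso (.of B)).hom ≫ CommRingCat.ofHom φ ≫ (Scheme.ΓSpecIso (.of B')).inv := by
      rw [← h4, Iso.hom_inv_id_assoc]
    rw [h5]
    intro a b hab
    have e1 : Function.Injective (Scheme.ΓSpecIso (.of B)).hom :=
      (ConcreteCategory.bijective_of_isIso _).1
    have e2 : Function.Injective (Scheme.ΓSpecIso (.of B')).inv :=
      (ConcreteCategory.bijective_of_isIso _).1
    exact e1 (hφ (e2 hab))
  have h6 : Function.Injective (Limits.equalizer.ι f g).appTop := by
    intro a b hab
    apply h3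
    rw [← h2]
    change (Limits.equalizer.lift _ h).appTop ((Limits.equalizer.ι f g).appTop a) =
      (Limits.equalizer.lift _ h).appTop ((Limits.equalizer.ι f g).appTop b)
    rw [hab]
  have h7 : IsIso (Limits.equalizer.ι f g) :=
    IsClosedImmersion.isIso_of_injective_of_isAffine h6
  rw [← cancel_epi (Limits.equalizer.ι f g)]
  exact Limits.equalizer.condition f g


lemma isUnit_appLE_comp {S Y Z : Scheme.{u}} (f : S ⟶ Y) (g : Y ⟶ Z) {U : Z.Opens}
    (e : ⊤ ≤ g ⁻¹ᵁ U) (e' : ⊤ ≤ (f ≫ g) ⁻¹ᵁ U) (a : Γ(Z, U))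
    (h : IsUnit ((g.appLE U ⊤ e).hom a)) : IsUnit (((f ≫ g).appLE U ⊤ e').hom a) := by
  have h1 : (f ≫ g).appLE U ⊤ e' = g.appLE U ⊤ e ≫ f.appTop := by
    rw [Scheme.Hom.appTop, f.app_eq_appLE]
    exact (Scheme.Hom.appLE_comp_appLE _ _ _ _ _ _ _).symm
  rw [h1]
  exact h.map f.appTop.hom

lemma isUnit_fromSpec_appLE {T : Scheme.{u}} {V : T.Opens} (hV : IsAffineOpen V) {S : Type u}
    [CommRing S] (φ : Γ(T, V) →+* S) (a : Γ(T, V)) (h : IsUnit (φ a))
    (e : ⊤ ≤ (Spec.map (CommRingCat.ofHom φ) ≫ hV.fromSpec) ⁻¹ᵁ V) :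
    IsUnit (((Spec.map (CommRingCat.ofHom φ) ≫ hV.fromSpec).appLE V ⊤ e).hom a) := by
  have hfV : ⊤ ≤ hV.fromSpec ⁻¹ᵁ V := by rw [hV.fromSpec_preimage_self]
  have h1 : (Spec.map (CommRingCat.ofHom φ) ≫ hV.fromSpec).appLE V ⊤ e =
      hV.fromSpec.appLE V ⊤ hfV ≫ (Spec.map (CommRingCat.ofHom φ)).appTop := by
    rw [Scheme.Hom.appTop, Scheme.Hom.app_eq_appLE]
    exact (Scheme.Hom.appLE_comp_appLE _ _ _ _ _ _ _).symm
  have h2 : hV.fromSpec.appLE V ⊤ hfV = (Scheme.ΓSpecIso Γ(T, V)).inv := by
    have h3 : (Scheme.ΓSpecIso Γ(T, V)).hom ≫ hV.fromSpec.appLE V ⊤ hfV = 𝟙 _ := by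
      unfold Scheme.Hom.appLE
      rw [← Category.assoc, hV.ΓSpecIso_hom_fromSpec_app, ← Functor.map_comp]
      exact CategoryTheory.Functor.map_id _ _
    rw [← Iso.inv_hom_id_assoc (Scheme.ΓSpecIso Γ(T, V)) (hV.fromSpec.appLE V ⊤ hfV), h3]
    exact Category.comp_id _
  have h3 : (Scheme.ΓSpecIso Γ(T, V)).inv ≫ (Spec.map (CommRingCat.ofHom φ)).appTop =
      CommRingCat.ofHom φ ≫ (Scheme.ΓSpecIso (.of S)).inv :=
    (Scheme.ΓSpecIso_inv_naturality _).symm
  rw [h1, h2, h3]
  exact h.map (Scheme.ΓSpecIso (.of S)).inv.hom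

lemma nontrivial_spec {L : Type u} [Field L] : Nontrivial Γ(Spec (.of L), ⊤) := by
  have e : Function.Injective (Scheme.ΓSpecIso (.of L)).inv.hom :=
    (ConcreteCategory.bijective_of_isIso (Scheme.ΓSpecIso (.of L)).inv).1
  exact e.nontrivial

lemma awayLift_injective {R S : Type u} [CommRing R] [CommRing S] (φ : R →+* S)
    (hφ : Function.Injective φ) (f : R) (hf : IsUnit (φ f)) :
    Function.Injective (Localization.awayLift φ f hf) := by
  rw [injective_iff_map_eq_zero]
  intro z hz
  obtain ⟨⟨a, s⟩, hs⟩ := IsLocalization.surj (Submonoid.powers f) z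
  have h1 : Localization.awayLift φ f hf (algebraMap R (Localization.Away f) a) = φ a :=
    IsLocalization.Away.lift_eq _ _ _
  simp only at hs
  rw [← hs, map_mul, hz, zero_mul] at h1
  have h2 : a = 0 := hφ (by rw [← h1, map_zero])
  rw [h2, map_zero] at hs
  exact (IsLocalization.map_units (Localization.Away f) s).mul_left_eq_zero.1 hs

lemma exists_loc {S K B : Type u} [CommRing S] [CommRing K] [CommRing B] (φ : S →+* K)
    (hφ : Function.Injective φ) (μ : S →+* B) (e : S) (h1 : IsUnit (φ e)) (h2 : IsUnit (μ e)) :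
    ∃ (R : Type u) (_ : CommRing R) (loc : S →+* R) (φ' : R →+* K) (μ' : R →+* B),
      IsUnit (loc e) ∧ φ'.comp loc = φ ∧ Function.Injective φ' ∧ μ'.comp loc = μ := by
  refine ⟨Localization.Away e, inferInstance, algebraMap _ _, Localization.awayLift φ e h1,
    Localization.awayLift μ e h2, IsLocalization.Away.algebraMap_isUnit e, ?_,
    awayLift_injective _ hφ _ _, ?_⟩
  · ext a
    exact IsLocalization.Away.lift_eq e h1 a
  · ext a
    exact IsLocalization.Away.lift_eq e h2 a

section Charts

variable {k : Type u} [Field k] {r : ℕ} (α β : Fin r → k)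

lemma toK_injective (x : ChartIx r) : Function.Injective (toK α β x) :=
  awayLift_injective (theta (kapF k) α β x).toRingHom
    (theta_injective (kapF k) α β (isGeneric_kapF α β) x) (chartH α β x)
    (isUnit_theta_chartH α β x)

lemma toK_const (x : ChartIx r) : (toK α β x).comp (chartConst α β x) = algebraMap k (FK k) := by
  ext a
  unfold chartConst
  rw [RingHom.comp_apply, RingHom.comp_apply, toK_algebraMap]
  unfold theta
  rw [aeval_C]

lemma toK_xi (x : ChartIx r) (m : Fin 3) :
    toK α β x (chartXi α β x m) * kapF k (coordW k (chartJ x)) = kapF k (coordW k m) := by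
  unfold chartXi
  rw [toK_algebraMap]
  exact theta_coordP (kapF k) α β (isGeneric_kapF α β) x m

/-- the generic point avoids the exceptional curves -/
lemma isUnit_full_generic (x' : ChartIx r) :
    IsUnit (evalP (algebraMap k (FK k)) (fun m => kapF k (coordW k m)) (fullElt α β x')) := by
  rw [isUnit_fullElt_iff]
  refine ⟨(isGeneric_kapF α β).unit_coord _, fun l => ?_⟩
  convert (isGeneric_kapF α β).unit_lin l (chartC x' l) using 1
  rw [evalP_linH]
  cases chartC x' l
  · rw [kappa_lin_false]
    simp [coordW]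
  · rw [kappa_lin_true]
    simp [coordW]

lemma isUnit_full_toK (x x' : ChartIx r) :
    IsUnit (evalP ((toK α β x).comp (chartConst α β x)) (fun m => toK α β x (chartXi α β x m))
      (fullElt α β x')) := by
  have hu : IsUnit (kapF k (coordW k (chartJ x)) * toK α β x (chartXi α β x (chartJ x))) := by
    rw [mul_comm, toK_xi]
    exact (isGeneric_kapF α β).unit_coord _
  have hj : IsUnit (toK α β x (chartXi α β x (chartJ x))) := (isUnit_chartXi α β x).map _
  have h1 := ptP_smul ((toK α β x).comp (chartConst α β x)) (fun m => toK α β x (chartXi α β x m))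
    (kapF k (coordW k (chartJ x))) (chartJ x) hj hu
  rw [← isUnit_evalP_congr hu hj h1 (Nat.succ_pos r) _ (fullElt_mem α β x')]
  have h2 : (fun m => kapF k (coordW k (chartJ x)) * toK α β x (chartXi α β x m)) =
      fun m => kapF k (coordW k m) := by
    funext m
    rw [mul_comm, toK_xi]
  rw [h2, toK_const]
  exact isUnit_full_generic α β x'

lemma evalP_comp {B B' : Type u} [CommRing B] [CommRing B'] (c : k →+* B) (ξ : Fin 3 → B)
    (φ : B →+* B') (f : MvPolynomial (Fin 3) k) :
    evalP (φ.comp c) (fun m => φ (ξ m)) f = φ (evalP c ξ f) :=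
  (eval₂_comp_left φ c ξ f).symm

/-- two points in two charts with the same image in the plane outside the exceptional curves -/
lemma chart_eq {X : Scheme.{u}} (A : Atlas α β X) {B : Type u} [CommRing B] (x x' : ChartIx r)
    (μ : CR α β x →+* B) (μ' : CR α β x' →+* B)
    (h : Spec.map (CommRingCat.ofHom μ) ≫ A.chart x ≫ A.π =
      Spec.map (CommRingCat.ofHom μ') ≫ A.chart x' ≫ A.π)
    (hu' : IsUnit (evalP (μ'.comp (chartConst α β x')) (fun m => μ' (chartXi α β x' m))
      (fullElt α β x'))) :
    Spec.map (CommRingCat.ofHom μ) ≫ A.chart x = Spec.map (CommRingCat.ofHom μ') ≫ A.chart x' := by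
  rw [A.chart_π, A.chart_π, ptP_comp, ptP_comp] at h
  have hux : IsUnit (evalP (μ.comp (chartConst α β x)) (fun m => μ (chartXi α β x m))
      (fullElt α β x')) :=
    (isUnit_evalP_congr _ _ h (Nat.succ_pos r) _ (fullElt_mem α β x')).2 hu'
  obtain ⟨hc, w, hw, hwm⟩ := ptP_eq_iff _ _ h
  have heK : IsUnit (toK α β x (evalP (chartConst α β x) (chartXi α β x) (fullElt α β x'))) := by
    rw [← evalP_comp]
    exact isUnit_full_toK α β x x'
  have heμ : IsUnit (μ (evalP (chartConst α β x) (chartXi α β x) (fullElt α β x'))) := by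
    rw [← evalP_comp]
    exact hux
  obtain ⟨R, _, loc, toKR, μR, heR', htoKR, htoKRi, hμR⟩ := exists_loc (toK α β x)
    (toK_injective α β x) μ _ heK heμ
  have heR : IsUnit (evalP (loc.comp (chartConst α β x)) (fun m => loc (chartXi α β x m))
      (fullElt α β x')) := by
    rw [evalP_comp]
    exact heR'
  obtain ⟨τ, hτ1, hτ2⟩ := exists_chart_pt α β _ _ x' heR
  have hτK : toKR.comp τ = toK α β x' := by
    have e1 : (toKR.comp τ).comp (chartConst α β x') = (toK α β x').comp (chartConst α β x') := by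
      rw [RingHom.comp_assoc, hτ1, ← RingHom.comp_assoc, htoKR, toK_const, toK_const]
    have e2 : ∀ m, (toKR.comp τ) (chartXi α β x' m) = toK α β x' (chartXi α β x' m) := by
      intro m
      have e3 := congrArg toKR (hτ2 m)
      rw [map_mul] at e3
      have e4 : ∀ m, toKR (loc (chartXi α β x m)) = toK α β x (chartXi α β x m) := fun m =>
        congr($htoKR (chartXi α β x m))
      rw [e4, e4] at e3
      have e5 := toK_xi α β x m
      have e6 := toK_xi α β x (chartJ x')
      have e7 := toK_xi α β x' m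
      have n1 := ((isGeneric_kapF α β).unit_coord (chartJ x')).ne_zero
      have n2 := ((isGeneric_kapF α β).unit_coord (chartJ x)).ne_zero
      apply mul_right_cancel₀ n1
      rw [e7, ← e5, ← e3, ← e6]
      rw [RingHom.comp_apply]
      ring
    refine chart_pt_unique α β x' _ _ e1 e2 ?_
    rw [e1]
    simp only [e2]
    exact isUnit_full_toK α β x' x'
  have hτB : μR.comp τ = μ' := by
    have e1 : (μR.comp τ).comp (chartConst α β x') = μ'.comp (chartConst α β x') := by
      rw [RingHom.comp_assoc, hτ1, ← RingHom.comp_assoc, hμR, hc]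
    have e2 : ∀ m, (μR.comp τ) (chartXi α β x' m) = μ' (chartXi α β x' m) := by
      intro m
      have e3 := congrArg μR (hτ2 m)
      rw [map_mul] at e3
      have e4 : ∀ m, μR (loc (chartXi α β x m)) = μ (chartXi α β x m) := fun m =>
        congr($hμR (chartXi α β x m))
      rw [e4, e4] at e3
      have e5 := hwm m
      have e6 := hwm (chartJ x')
      have e7 : chartXi α β x' (chartJ x') = 1 := by
        unfold chartXi
        rw [coordP_chartJ, map_one]
      rw [e7, map_one, mul_one] at e6
      rw [e5, e6, mul_comm] at e3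
      exact hw.mul_left_cancel e3
    refine chart_pt_unique α β x' _ _ e1 e2 ?_
    rw [e1]
    simp only [e2]
    exact hu'
  have hsep := A.sep
  have key : Spec.map (CommRingCat.ofHom loc) ≫ A.chart x =
      Spec.map (CommRingCat.ofHom τ) ≫ A.chart x' := by
    apply ext_of_injective toKR htoKRi
    rw [← Category.assoc, ← Spec.map_comp, ← CommRingCat.ofHom_comp, htoKR,
      ← Category.assoc, ← Spec.map_comp, ← CommRingCat.ofHom_comp, hτK, ← A.gen_eq, ← A.gen_eq]
  rw [← hμR, ← hτB, CommRingCat.ofHom_comp, Spec.map_comp, Category.assoc, key,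
    CommRingCat.ofHom_comp, Spec.map_comp, Category.assoc]

lemma exists_factor {S X : Scheme.{u}} {R : Type u} [CommRing R] (j : Spec (.of R) ⟶ X)
    [IsOpenImmersion j] (f : S ⟶ X) {V : S.Opens} (hV : IsAffineOpen V)
    (h : V ≤ f ⁻¹ᵁ j.opensRange) : ∃ μ : R →+* Γ(S, V),
      hV.fromSpec ≫ f = Spec.map (CommRingCat.ofHom μ) ≫ j := by
  have h1 : Set.range (hV.fromSpec ≫ f) ⊆ Set.range j := by
    rintro _ ⟨z, rfl⟩
    have hz : hV.fromSpec z ∈ V := by
      have : hV.fromSpec z ∈ hV.fromSpec.opensRange := ⟨z, rfl⟩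
      rwa [hV.opensRange_fromSpec] at this
    exact h hz
  refine ⟨(Spec.preimage (IsOpenImmersion.lift j (hV.fromSpec ≫ f) h1)).hom, ?_⟩
  rw [CommRingCat.ofHom_hom, Spec.map_preimage, IsOpenImmersion.lift_fac]

lemma eq_of_fromSpec {S X : Scheme.{u}} (f g : S ⟶ X)
    (H : ∀ s : S, ∃ (V : S.Opens) (hV : IsAffineOpen V), s ∈ V ∧
      hV.fromSpec ≫ f = hV.fromSpec ≫ g) : f = g := by
  apply Scheme.hom_ext_of_forall
  intro s
  obtain ⟨V, hV, hs, h⟩ := H s
  refine ⟨V, hs, ?_⟩
  rw [← hV.isoSpec_hom_fromSpec, Category.assoc, Category.assoc, h]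

attribute [local instance] Atlas.openImm

lemma exists_mem_chart {X : Scheme.{u}} (A : Atlas α β X) (z : X) :
    ∃ x, z ∈ (A.chart x).opensRange := by
  have : z ∈ ⨆ x, (A.chart x).opensRange := by
    rw [A.cover]; trivial
  exact TopologicalSpace.Opens.mem_iSup.1 this

/-- outside the points of the plane the lift is unique -/
lemma lift_unique_of_avoids {X : Scheme.{u}} (A : Atlas α β X) {S : Scheme.{u}} (f g : S ⟶ X)
    (h : f ≫ A.π = g ≫ A.π) (hav : Avoids α β (g ≫ A.π)) : f = g := by
  apply eq_of_fromSpec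
  intro s
  obtain ⟨x, hx⟩ := exists_mem_chart α β A (f s)
  obtain ⟨x', hx'⟩ := exists_mem_chart α β A (g s)
  have hs : s ∈ f ⁻¹ᵁ (A.chart x).opensRange ⊓ g ⁻¹ᵁ (A.chart x').opensRange := ⟨hx, hx'⟩
  obtain ⟨V, hV, hsV, hVle⟩ := exists_isAffineOpen_mem_and_subset hs
  refine ⟨V, hV, hsV, ?_⟩
  obtain ⟨μ, hμ⟩ := exists_factor (A.chart x) f hV (fun z hz => (hVle hz).1)
  obtain ⟨μ', hμ'⟩ := exists_factor (A.chart x') g hV (fun z hz => (hVle hz).2)
  rw [hμ, hμ']
  apply chart_eq α β A x x' μ μ'
  · rw [← Category.assoc, ← hμ, ← Category.assoc, ← hμ', Category.assoc, Category.assoc, h]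
  · apply isUnit_full_of_avoids α β x' μ'
    rw [← A.chart_π, ← Category.assoc, ← hμ', Category.assoc]
    exact hav.comp α β _

/-- functions in the ideal of the points vanish at the points -/
lemma appLE_ideal_eq_zero {L : Type u} [CommRing L] (i : Fin r) (σ : Spec (.of L) ⟶ Spec (.of k))
    (U : (P2 k).affineOpens) (hU : ⊤ ≤ (σ ≫ affPt (α i) (β i)) ⁻¹ᵁ U.1) (z : Γ(P2 k, U.1))
    (hz : z ∈ (idealPts α β).ideal U) :
    ((σ ≫ affPt (α i) (β i)).appLE U.1 ⊤ hU).hom z = 0 := by
  have h1 : idealPts α β ≤ (affPt (α i) (β i)).ker := iInf_le _ i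
  have h2 := h1 U hz
  rw [Scheme.Hom.ker_apply] at h2
  rw [RingHom.mem_ker] at h2
  rw [Scheme.Hom.comp_appLE, CommRingCat.hom_comp, RingHom.comp_apply, h2, map_zero]

end Charts

end LiftU

open LiftU in
/-- uniqueness of lifts to the explicit blow-up -/
theorem atlas_lift_unique {k : Type u} [Field k] {r : ℕ} (α β : Fin r → k) {X : Scheme.{u}}
    (A : Atlas α β X) (_ : 0 < r) (_ : Function.Injective fun i => (α i, β i)) {T : Scheme.{u}}
    (g : T ⟶ P2 k) (hg : IsInvertibleAlong (idealPts α β) g) (h h' : T ⟶ X)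
    (e : h ≫ A.π = g) (e' : h' ≫ A.π = g) : h = h' := by
  apply eq_of_fromSpec
  intro t
  obtain ⟨U, ⟨V, hV⟩, hVU, ht, a, ha, hspan⟩ := hg t
  replace hV : IsAffineOpen V := hV
  replace hVU : V ≤ g ⁻¹ᵁ U.1 := hVU
  replace ht : t ∈ V := ht
  replace ha : a ∈ nonZeroDivisors Γ(T, V) := ha
  replace hspan : Ideal.map (g.appLE U.1 V hVU).hom ((idealPts α β).ideal U) = Ideal.span {a} :=
    hspan
  refine ⟨V, hV, ht, ?_⟩
  have hsep := A.sep
  have hinj : Function.Injective (algebraMap Γ(T, V) (Localization.Away a)) := by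
    apply IsLocalization.injective (M := Submonoid.powers a)
    rintro _ ⟨n, rfl⟩
    exact pow_mem ha n
  apply ext_of_injective (algebraMap Γ(T, V) (Localization.Away a)) hinj
  apply lift_unique_of_avoids α β A
  · simp only [Category.assoc, e, e']
  · simp only [Category.assoc, e']
    intro i L _ y σ hy
    set w := Spec.map (CommRingCat.ofHom (algebraMap Γ(T, V) (Localization.Away a))) ≫
      hV.fromSpec with hw
    rw [← Category.assoc (Spec.map _), ← hw] at hy
    -- `w` maps into `V`
    have hfV : ⊤ ≤ hV.fromSpec ⁻¹ᵁ V := by rw [hV.fromSpec_preimage_self]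
    have hwV : ⊤ ≤ w ⁻¹ᵁ V := fun z _ => hfV (show (Spec.map (CommRingCat.ofHom (algebraMap Γ(T, V)
      (Localization.Away a)))) z ∈ (⊤ : (Spec _).Opens) from trivial)
    have hywV : ⊤ ≤ (y ≫ w) ⁻¹ᵁ V := fun z _ => hwV (show y z ∈ (⊤ : (Spec _).Opens) from trivial)
    have hU1 : ⊤ ≤ (y ≫ w ≫ g) ⁻¹ᵁ U.1 := fun z hz => hVU (hywV hz)
    have hU2 : ⊤ ≤ (σ ≫ affPt (α i) (β i)) ⁻¹ᵁ U.1 := hy ▸ hU1
    -- `a` maps to a unit
    have hunit0 : IsUnit ((w.appLE V ⊤ hwV).hom a) :=
      isUnit_fromSpec_appLE hV _ a (IsLocalization.Away.algebraMap_isUnit a) hwV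
    have hunit : IsUnit (((y ≫ w).appLE V ⊤ hywV).hom a) :=
      isUnit_appLE_comp y w hwV hywV a hunit0
    have hzero : ((y ≫ w).appLE V ⊤ hywV).hom a = 0 := by
      have hle : (idealPts α β).ideal U ≤ Ideal.comap (g.appLE U.1 V hVU).hom
          (RingHom.ker ((y ≫ w).appLE V ⊤ hywV).hom) := by
        intro z hz
        rw [Ideal.mem_comap, RingHom.mem_ker, ← RingHom.comp_apply, ← CommRingCat.hom_comp,
          Scheme.Hom.appLE_comp_appLE]
        have h1 := appLE_ideal_eq_zero α β i σ U hU2 z hz
        rw [← h1]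
        congr 2
        simp only [Category.assoc, hy]
      have h2 := Ideal.map_le_iff_le_comap.2 hle
      rw [hspan] at h2
      exact h2 (Ideal.mem_span_singleton_self a)
    rw [hzero] at hunit
    have := nontrivial_spec (L := L)
    exact not_isUnit_zero hunit

end Pool.Agent.FL
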