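import Pool.Agent.Helper66.FL.Blow

/-! Lifting project (MP_b2373b_ag), wave 3, offer T2: gluing of local lifts. A morphism with invertible
inverse image ideal, along which lifts exist locally and are unique, is the blow-up. -/

open MvPolynomial AlgebraicGeometry HomogeneousLocalization CategoryTheory Limits

universe u

namespace Pool.Agent.FL

/-- Flat ring homomorphisms preserve nonzerodivisors. -/
lemma mem_nonZeroDivisors_of_flat {R S : Type u} [CommRing R] [CommRing S] (f : R →+* S)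
    (hf : f.Flat) {a : R} (ha : a ∈ nonZeroDivisors R) : f a ∈ nonZeroDivisors S := by
  algebraize [f]
  have h := Module.Flat.isSMulRegular_of_nonZeroDivisors (M := S) ha
  rw [mem_nonZeroDivisors_iff_right]
  intro x hx
  refine h ?_
  change a • x = a • (0 : S)
  rw [smul_zero, Algebra.smul_def]
  rw [mul_comm]
  exact hx

/-- The condition `IsInvertibleAlong` restricts along open immersions (more generally flat
morphisms). -/
theorem IsInvertibleAlong.comp_flat {T' T Y : Scheme.{u}} {I : Y.IdealSheafData} {g : T ⟶ Y}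
    (hg : IsInvertibleAlong I g) (j : T' ⟶ T) [Flat j] : IsInvertibleAlong I (j ≫ g) := by
  intro t'
  obtain ⟨U, V, hVU, ht, a, ha, hI⟩ := hg (j t')
  obtain ⟨V', hV', ht', hle⟩ := exists_isAffineOpen_mem_and_subset (X := T') (U := j ⁻¹ᵁ V.1)
    (x := t') ht
  have hle' : V' ≤ j ⁻¹ᵁ V.1 := hle
  refine ⟨U, ⟨V', hV'⟩, ?_, ht', (j.appLE V.1 V' hle').hom a, ?_, ?_⟩
  · intro x hx
    exact hVU (hle' hx)
  · exact mem_nonZeroDivisors_of_flat _ (j.flat_appLE V.2 hV' hle') ha
  · rw [← Scheme.Hom.appLE_comp_appLE j g U.1 V.1 V' hVU hle', CommRingCat.hom_comp,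
      ← Ideal.map_map, hI, Ideal.map_span, Set.image_singleton]

/-- gluing of local lifts -/
theorem isBlowUp_of_local {X Y : Scheme.{u}} (π : X ⟶ Y) (I : Y.IdealSheafData)
    (h1 : IsInvertibleAlong I π)
    (h2 : ∀ {T : Scheme.{u}} (g : T ⟶ Y), IsInvertibleAlong I g → ∀ t : T,
      ∃ (V : T.Opens) (_ : t ∈ V) (h : V.toScheme ⟶ X), h ≫ π = V.ι ≫ g)
    (h3 : ∀ {T : Scheme.{u}} (g : T ⟶ Y), IsInvertibleAlong I g → ∀ h h' : T ⟶ X,
      h ≫ π = g → h' ≫ π = g → h = h') : IsBlowUp π I := by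
  refine ⟨h1, fun {T} g hg => ?_⟩
  choose V hV h hh using h2 g hg
  have hcov : TopologicalSpace.IsOpenCover V := by
    refine eq_top_iff.2 fun t _ => ?_
    rw [TopologicalSpace.Opens.mem_iSup]
    exact ⟨t, hV t⟩
  set 𝒰 := T.openCoverOfIsOpenCover V hcov
  have hglue : ∀ x y : 𝒰.I₀, pullback.fst (𝒰.f x) (𝒰.f y) ≫ (show 𝒰.X x ⟶ X from h x) =
      pullback.snd (𝒰.f x) (𝒰.f y) ≫ (show 𝒰.X y ⟶ X from h y) := by
    intro x y
    refine h3 (pullback.fst (𝒰.f x) (𝒰.f y) ≫ 𝒰.f x ≫ g) ?_ _ _ ?_ ?_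
    · have := hg.comp_flat (pullback.fst (𝒰.f x) (𝒰.f y) ≫ 𝒰.f x)
      rwa [Category.assoc] at this
    · rw [Category.assoc]
      congr 1
      exact hh x
    · rw [Category.assoc, pullback.condition_assoc]
      congr 1
      exact hh y
  refine ⟨𝒰.glueMorphisms (fun x => (show 𝒰.X x ⟶ X from h x)) hglue, ?_, ?_⟩
  · refine 𝒰.hom_ext _ _ fun x => ?_
    rw [Scheme.Cover.ι_glueMorphisms_assoc]
    exact hh x
  · intro h' hh'
    refine h3 g hg _ _ hh' ?_
    refine 𝒰.hom_ext _ _ fun x => ?_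
    rw [Scheme.Cover.ι_glueMorphisms_assoc]
    exact hh x

end Pool.Agent.FL
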