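import Pool.Statements.S00653
-- import your own Pool.Agent.* helpers here
import Pool.Agent.ORG.RepFin
import Pool.Agent.ORG.TopFin

set_option autoImplicit false
open Pool Pool.MP_08a057_al

namespace Pool.Agent.S00653

/-- For every one-relator group ⟨x₁..xₙ ∣ r⟩, if every finitely generated subgroup of its derived subgroup is free, then every nontrivial element avoids some finite-index normal subgroup, i.e. the group is residually finite. -/
theorem result :
    ∀ (n : ℕ) (r : FreeGroup (Fin n)),
      (∀ H : Subgroup (PresentedGroup ({r} : Set (FreeGroup (Fin n)))),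
          H ≤ commutator (PresentedGroup ({r} : Set (FreeGroup (Fin n)))) →
          H.FG → IsFreeGroup H) →
      ∀ g : PresentedGroup ({r} : Set (FreeGroup (Fin n))), g ≠ 1 →
        ∃ N : Subgroup (PresentedGroup ({r} : Set (FreeGroup (Fin n)))),
          N.Normal ∧ N.index ≠ 0 ∧ g ∉ N :=
  fun n r hG g hg => Pool.Agent.ORG.fin_main Pool.Agent.ORG.rep_stmt Pool.Agent.ORG.top_stmt n r hG g hg

end Pool.Agent.S00653
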