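import Pool.Statements.S00961
import Pool.Agent.SLZ.Final

set_option autoImplicit false
open Pool Pool.MP_24791f_al

namespace Pool.Agent.S00961

/-- For all m and r there is N such that for every n ≥ N, SL_n(Z[x_1..x_r]) is of type FP_m, i.e. Z has an exact resolution by finitely generated free group-ring modules up to degree m. -/
theorem result :
    ∀ m r : ℕ, ∃ N : ℕ, ∀ n : ℕ, N ≤ n →
      ∃ (k : ℕ → ℕ)
        (d : ∀ i : ℕ,
          (Fin (k (i + 1)) → MonoidAlgebra ℤ (Matrix.SpecialLinearGroup (Fin n) (MvPolynomial (Fin r) ℤ))) →ₗ[MonoidAlgebra ℤ (Matrix.SpecialLinearGroup (Fin n) (MvPolynomial (Fin r) ℤ))]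
          (Fin (k i) → MonoidAlgebra ℤ (Matrix.SpecialLinearGroup (Fin n) (MvPolynomial (Fin r) ℤ))))
        (ε : (Fin (k 0) → MonoidAlgebra ℤ (Matrix.SpecialLinearGroup (Fin n) (MvPolynomial (Fin r) ℤ))) →+ ℤ),
        (∀ (g : Matrix.SpecialLinearGroup (Fin n) (MvPolynomial (Fin r) ℤ))
            (v : Fin (k 0) → MonoidAlgebra ℤ (Matrix.SpecialLinearGroup (Fin n) (MvPolynomial (Fin r) ℤ))),
            ε (MonoidAlgebra.of ℤ (Matrix.SpecialLinearGroup (Fin n) (MvPolynomial (Fin r) ℤ)) g • v) = ε v) ∧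
        Function.Surjective ε ∧
        (0 < m → ∀ v : Fin (k 0) → MonoidAlgebra ℤ (Matrix.SpecialLinearGroup (Fin n) (MvPolynomial (Fin r) ℤ)),
            ε v = 0 ↔ ∃ w, d 0 w = v) ∧
        (∀ i : ℕ, i + 1 < m →
          ∀ v : Fin (k (i + 1)) → MonoidAlgebra ℤ (Matrix.SpecialLinearGroup (Fin n) (MvPolynomial (Fin r) ℤ)),
            d i v = 0 ↔ ∃ w, d (i + 1) w = v) := by
  exact Pool.Agent.SLZ.asm_frozen Pool.Agent.SLZ.final_step

end Pool.Agent.S00961
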