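import Pool.Statements.S01625
import Pool.Agent.Helper33.LN.Assemble

set_option autoImplicit false
open Pool Pool.MP_5e7eb0_al

namespace Pool.Agent.S01625

/-- Every locally normal residually finite group G has a normal subgroup H that embeds in a restricted direct product of finite groups, with G/H a divisible abelian group. -/
theorem result :
    ∀ (G : Type) [Group G],
      (∀ s : Finset G, ∃ N : Subgroup G, N.Normal ∧ (N : Set G).Finite ∧ (↑s : Set G) ⊆ (N : Set G)) →
      (∀ g : G, g ≠ 1 → ∃ N : Subgroup G, N.Normal ∧ N.FiniteIndex ∧ g ∉ N) →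
      ∃ H : Subgroup G, H.Normal ∧
        (∃ (ι : Type) (F : ι → Type) (instG : ∀ i, Group (F i)) (instF : ∀ i, Finite (F i))
            (φ : H →* ((i : ι) → F i)),
            Function.Injective φ ∧ ∀ h : H, {i : ι | φ h i ≠ 1}.Finite) ∧
        (∀ a b : G, a * b * a⁻¹ * b⁻¹ ∈ H) ∧
        (∀ (g : G) (n : ℕ), 0 < n → ∃ y : G, g⁻¹ * y ^ n ∈ H) := by
  intro G _ hL hR
  obtain ⟨H, hHn, ⟨FF, hF1, hF2, hF3⟩, hcH, hdiv⟩ :=
    Pool.Agent.Helper33.LN.exists_subgroup (G := G) hL hR
  refine ⟨H, hHn, ?_, ?_, ?_⟩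
  · have hn : ∀ N : FF, N.1.Normal := fun N => (hF1 N.1 N.2).1
    have hf : ∀ N : FF, N.1.FiniteIndex := fun N => (hF1 N.1 N.2).2
    let instG : ∀ N : FF, Group (H ⧸ N.1) := fun N => QuotientGroup.Quotient.group N.1
    refine ⟨FF, fun N => H ⧸ N.1, instG, fun N => Subgroup.finite_quotient_of_finiteIndex,
      MonoidHom.mk' (fun h N => (QuotientGroup.mk h : H ⧸ N.1)) ?_, ?_, ?_⟩
    · intro a b
      funext N
      rfl
    · rw [injective_iff_map_eq_one]
      intro h hh
      by_contra hne
      obtain ⟨N, hN, hhN⟩ := hF3 h hne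
      apply hhN
      have hNn : N.Normal := hn ⟨N, hN⟩
      have h1 := congrFun hh ⟨N, hN⟩
      exact (QuotientGroup.eq_one_iff (N := N) h).mp h1
    · intro h
      have h1 : (Subtype.val '' {N : FF | (QuotientGroup.mk h : H ⧸ N.1) ≠ 1}).Finite := by
        refine (hF2 h).subset ?_
        rintro _ ⟨N, hN, rfl⟩
        refine ⟨N.2, fun hmem => hN ?_⟩
        exact (QuotientGroup.eq_one_iff (N := N.1) h).mpr hmem
      exact h1.of_finite_image Subtype.val_injective.injOn
  · intro a b
    apply hcH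
    exact Subgroup.commutator_mem_commutator (Subgroup.mem_top a) (Subgroup.mem_top b)
  · intro g n hn
    exact hdiv n hn g

end Pool.Agent.S01625
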