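import Pool.Statements.S02015
import Pool.Agent.Helper11.WeakMax.Restrict
import Pool.Agent.Helper11.WeakMax.NN

set_option autoImplicit false
open Pool Pool.MP_7a1b54_al

namespace Pool.Agent.S02015

open Pool.Agent.Helper11.WeakMax in
/-- There is a nontrivial group in which every finitely generated subgroup is nilpotent, the centre is trivial, and every ascending chain of normal subgroups has only finite successive indices from some point on. -/
theorem result :
    ∃ (G : Type) (_ : Group G),
      Nontrivial G ∧
      (∀ s : Finset G, Group.IsNilpotent (Subgroup.closure (s : Set G))) ∧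
      Subgroup.center G = ⊥ ∧
      (∀ f : ℕ → Subgroup G, (∀ n, (f n).Normal) → Monotone f →
        ∃ n₀ : ℕ, ∀ n, n₀ ≤ n → ((f n).subgroupOf (f (n + 1))).index ≠ 0) := by
  exact hasExample' sys sys_fin sys_pgroup (sys_nonnilp SF_nonnilp)

end Pool.Agent.S02015
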