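import Pool.Statements.S03082
import Mathlib

set_option autoImplicit false
open CategoryTheory CategoryTheory.Limits
open Pool Pool.MP_cd2797_al

namespace Pool.Agent.S03082

noncomputable section

open Polynomial

abbrev Lam : Type := ℤ_[2]
abbrev K : Type := ℚ_[2]
abbrev A : Type := FreeAlgebra ℤ_[2] (Fin 3)

/-- The underlying group of the module Y. -/
def Y : Type := K[X] × K[X]

instance : AddCommGroup Y := inferInstanceAs (AddCommGroup (K[X] × K[X]))
instance : Module K[X] Y := inferInstanceAs (Module K[X] (K[X] × K[X]))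
instance : Module Lam Y := inferInstanceAs (Module Lam (K[X] × K[X]))

def opE : Module.End Lam Y :=
  (LinearMap.prod (LinearMap.fst Lam K[X] K[X]) 0 : (K[X] × K[X]) →ₗ[Lam] (K[X] × K[X]))
def opA : Module.End Lam Y :=
  (LinearMap.prod 0 (LinearMap.fst Lam K[X] K[X]) : (K[X] × K[X]) →ₗ[Lam] (K[X] × K[X]))
def opB : Module.End Lam Y :=
  (LinearMap.prod 0 ((LinearMap.mulLeft Lam (X : K[X])).comp (LinearMap.fst Lam K[X] K[X])) :
    (K[X] × K[X]) →ₗ[Lam] (K[X] × K[X]))

def ops : Fin 3 → Module.End Lam Y := ![opE, opA, opB]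

instance : Module A Y := Module.compHom Y (FreeAlgebra.lift Lam ops).toRingHom

def rE : A := FreeAlgebra.ι Lam 0
def rA : A := FreeAlgebra.ι Lam 1
def rB : A := FreeAlgebra.ι Lam 2
def rL (l : Lam) : A := algebraMap Lam A l

def mk (p q : K[X]) : Y := (p, q)

@[simp] lemma mk_fst (p q : K[X]) : (mk p q).1 = p := rfl
@[simp] lemma mk_snd (p q : K[X]) : (mk p q).2 = q := rfl
@[simp] lemma add_fst (y z : Y) : (y + z).1 = y.1 + z.1 := rfl
@[simp] lemma add_snd (y z : Y) : (y + z).2 = y.2 + z.2 := rfl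
@[simp] lemma zero_fst : (0 : Y).1 = 0 := rfl
@[simp] lemma zero_snd : (0 : Y).2 = 0 := rfl
@[simp] lemma nsmul_fst (n : ℕ) (y : Y) : (n • y).1 = n • y.1 := rfl
@[simp] lemma nsmul_snd (n : ℕ) (y : Y) : (n • y).2 = n • y.2 := rfl
@[simp] lemma psmul_fst (g : K[X]) (y : Y) : (g • y).1 = g * y.1 := rfl
@[simp] lemma psmul_snd (g : K[X]) (y : Y) : (g • y).2 = g * y.2 := rfl

lemma Y_ext {y z : Y} (h1 : y.1 = z.1) (h2 : y.2 = z.2) : y = z := Prod.ext h1 h2

lemma smul_def' (r : A) (y : Y) : r • y = (FreeAlgebra.lift Lam ops r) y := rfl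

lemma rE_smul (y : Y) : rE • y = mk y.1 0 := by
  rw [smul_def', rE, FreeAlgebra.lift_ι_apply]; rfl
lemma rA_smul (y : Y) : rA • y = mk 0 y.1 := by
  rw [smul_def', rA, FreeAlgebra.lift_ι_apply]; rfl
lemma rB_smul (y : Y) : rB • y = mk 0 (X * y.1) := by
  rw [smul_def', rB, FreeAlgebra.lift_ι_apply]; rfl
lemma rL_smul (l : Lam) (y : Y) : rL l • y = (C (l : K)) • y := by
  rw [smul_def', rL, AlgHom.commutes]
  apply Y_ext
  · change l • y.1 = _
    ext n; simp [Algebra.smul_def]
  · change l • y.2 = _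
    ext n; simp [Algebra.smul_def]

/-- induction principle for subsets stable under the generators -/
lemma A_ind {P : A → Prop} (hL : ∀ l, P (rL l)) (hE : P rE) (hA : P rA) (hB : P rB)
    (hmul : ∀ a b, P a → P b → P (a * b)) (hadd : ∀ a b, P a → P b → P (a + b)) (r : A) : P r := by
  induction r using FreeAlgebra.induction with
  | grade0 r => exact hL r
  | grade1 x =>
    fin_cases x
    · exact hE
    · exact hA
    · exact hB
  | mul a b ha hb => exact hmul a b ha hb
  | add a b ha hb => exact hadd a b ha hb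

lemma comm_poly (g : K[X]) (r : A) : ∀ y : Y, r • (g • y) = g • (r • y) := by
  induction r using A_ind with
  | hL l => intro y; rw [rL_smul, rL_smul, smul_comm]
  | hE => intro y; rw [rE_smul, rE_smul]; apply Y_ext <;> simp
  | hA => intro y; rw [rA_smul, rA_smul]; apply Y_ext <;> simp
  | hB => intro y; rw [rB_smul, rB_smul]; apply Y_ext <;> simp [mul_left_comm]
  | hmul a b ha hb => intro y; rw [mul_smul, mul_smul, hb, ha]
  | hadd a b ha hb => intro y; rw [add_smul, add_smul, smul_add, ha, hb]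

/-- multiplication by a polynomial as an `A`-linear map -/
def mulP (g : K[X]) : Y →ₗ[A] Y where
  toFun y := g • y
  map_add' := smul_add g
  map_smul' r y := (comm_poly g r y).symm

@[simp] lemma mulP_apply (g : K[X]) (y : Y) : mulP g y = g • y := rfl

def w (n : ℕ) : ℝ := (1/2 : ℝ)^(n^2)

lemma w_pos (n : ℕ) : 0 < w n := by unfold w; positivity
lemma w_anti {m n : ℕ} (h : m ≤ n) : w n ≤ w m := by
  unfold w
  apply pow_le_pow_of_le_one (by norm_num) (by norm_num)
  exact Nat.pow_le_pow_left h 2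

/-- The submodule X. -/
def XS : Submodule A Y where
  carrier := {y | (∀ n, ‖y.1.coeff n‖ ≤ w n) ∧ ∀ n, ‖y.2.coeff n‖ ≤ w (n-1)}
  zero_mem' := by
    constructor <;> intro n <;> simp [(w_pos _).le]
  add_mem' := by
    rintro a b ⟨ha1, ha2⟩ ⟨hb1, hb2⟩
    constructor
    · intro n
      rw [add_fst, coeff_add]
      exact (Padic.nonarchimedean _ _).trans (max_le (ha1 n) (hb1 n))
    · intro n
      rw [add_snd, coeff_add]
      exact (Padic.nonarchimedean _ _).trans (max_le (ha2 n) (hb2 n))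
  smul_mem' := by
    intro c
    have key : ∀ x : Y, x ∈ {y : Y | (∀ n, ‖y.1.coeff n‖ ≤ w n) ∧ ∀ n, ‖y.2.coeff n‖ ≤ w (n-1)} →
        c • x ∈ {y : Y | (∀ n, ‖y.1.coeff n‖ ≤ w n) ∧ ∀ n, ‖y.2.coeff n‖ ≤ w (n-1)} := by
      induction c using A_ind with
      | hL l =>
        rintro y ⟨h1, h2⟩
        rw [rL_smul]
        constructor
        · intro n
          rw [psmul_fst, coeff_C_mul, norm_mul]
          calc _ ≤ 1 * ‖y.1.coeff n‖ := by gcongr; exact l.2
            _ ≤ _ := by rw [one_mul]; exact h1 n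
        · intro n
          rw [psmul_snd, coeff_C_mul, norm_mul]
          calc _ ≤ 1 * ‖y.2.coeff n‖ := by gcongr; exact l.2
            _ ≤ _ := by rw [one_mul]; exact h2 n
      | hE =>
        rintro y ⟨h1, h2⟩
        rw [rE_smul]
        exact ⟨h1, fun n => by simp [(w_pos _).le]⟩
      | hA =>
        rintro y ⟨h1, h2⟩
        rw [rA_smul]
        exact ⟨fun n => by simp [(w_pos _).le], fun n => (h1 n).trans (w_anti (Nat.sub_le _ _))⟩
      | hB =>
        rintro y ⟨h1, h2⟩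
        rw [rB_smul]
        refine ⟨fun n => by simp [(w_pos _).le], fun n => ?_⟩
        rw [mk_snd]
        cases n with
        | zero => simp [(w_pos _).le]
        | succ n => rw [coeff_X_mul]; simpa using h1 n
      | hmul a b ha hb => intro y hy; rw [mul_smul]; exact ha _ (hb _ hy)
      | hadd a b ha hb =>
        intro y hy
        rw [add_smul]
        obtain ⟨ha1, ha2⟩ := ha _ hy
        obtain ⟨hb1, hb2⟩ := hb _ hy
        constructor
        · intro n
          rw [add_fst, coeff_add]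
          exact (Padic.nonarchimedean _ _).trans (max_le (ha1 n) (hb1 n))
        · intro n
          rw [add_snd, coeff_add]
          exact (Padic.nonarchimedean _ _).trans (max_le (ha2 n) (hb2 n))
    intro x hx
    exact key x hx

lemma mem_XS {y : Y} : y ∈ XS ↔ (∀ n, ‖y.1.coeff n‖ ≤ w n) ∧ ∀ n, ‖y.2.coeff n‖ ≤ w (n-1) := Iff.rfl

lemma one_mem : mk 1 0 ∈ XS := by
  rw [mem_XS]
  constructor
  · intro n
    rw [mk_fst, coeff_one]
    split_ifs with h
    · subst h; simp [w]
    · simp [(w_pos _).le]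
  · intro n; simp [(w_pos _).le]

/-- scaling of a polynomial into a weighted lattice -/
lemma exists_scale (v : ℕ → ℝ) (hv : ∀ n, 0 < v n) (p : K[X]) :
    ∃ N : ℕ, ∀ M, N ≤ M → ∀ n, ‖(((2^M : ℕ) • p : K[X])).coeff n‖ ≤ v n := by
  have h1 : ∀ n, ∃ N : ℕ, ∀ M, N ≤ M → ‖(((2^M : ℕ) • p : K[X])).coeff n‖ ≤ v n := by
    intro n
    obtain ⟨N, hN⟩ : ∃ N : ℕ, (1/2 : ℝ)^N * ‖p.coeff n‖ ≤ v n := by
      obtain ⟨N, hN⟩ := exists_pow_lt_of_lt_one (show 0 < v n / (‖p.coeff n‖ + 1) by
        have := hv n; positivity) (show (1/2:ℝ) < 1 by norm_num)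
      refine ⟨N, ?_⟩
      rw [lt_div_iff₀ (by positivity)] at hN
      have : 0 ≤ (1/2:ℝ)^N := by positivity
      nlinarith [norm_nonneg (p.coeff n)]
    refine ⟨N, fun M hM => ?_⟩
    rw [coeff_smul, nsmul_eq_mul, norm_mul]
    have h2 : ‖(((2^M : ℕ) : K))‖ = (1/2:ℝ)^M := by
      push_cast
      rw [norm_pow]
      congr 1
      have := Padic.norm_p (p := 2)
      push_cast at this
      rw [this]; norm_num
    rw [h2]
    refine le_trans ?_ hN
    exact mul_le_mul_of_nonneg_right (pow_le_pow_of_le_one (by norm_num) (by norm_num) hM)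
      (norm_nonneg _)
  choose f hf using h1
  refine ⟨p.support.sup f, fun M hM n => ?_⟩
  by_cases hn : n ∈ p.support
  · exact hf n M ((Finset.le_sup hn).trans hM)
  · rw [coeff_smul, notMem_support_iff.mp hn]; simp [(hv n).le]

lemma scale_mem (y : Y) : ∃ N : ℕ, (2^N : ℕ) • y ∈ XS := by
  obtain ⟨N1, h1⟩ := exists_scale w w_pos y.1
  obtain ⟨N2, h2⟩ := exists_scale (fun n => w (n-1)) (fun n => w_pos _) y.2
  exact ⟨max N1 N2, h1 _ (le_max_left _ _), h2 _ (le_max_right _ _)⟩

lemma nsmul_cancel (N : ℕ) {y z : Y} (h : (2^N : ℕ) • y = (2^N : ℕ) • z) : y = z := by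
  have h1 := congrArg Prod.fst h
  have h2 := congrArg Prod.snd h
  change (2^N : ℕ) • y.1 = (2^N : ℕ) • z.1 at h1
  change (2^N : ℕ) • y.2 = (2^N : ℕ) • z.2 at h2
  rw [nsmul_eq_mul, nsmul_eq_mul] at h1 h2
  have hne : (((2^N : ℕ) : K[X])) ≠ 0 := by
    exact_mod_cast (pow_ne_zero N (two_ne_zero : (2:ℕ) ≠ 0))
  exact Y_ext (mul_left_cancel₀ hne h1) (mul_left_cancel₀ hne h2)

lemma exists_int (c : K) : ∃ (k : ℕ) (l : Lam), (2:K)^k * c = l := by
  obtain ⟨N, hN⟩ := exists_scale (fun _ => 1) (fun _ => one_pos) (C c)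
  have := hN N le_rfl 0
  rw [coeff_smul, coeff_C_zero, nsmul_eq_mul] at this
  push_cast at this
  exact ⟨N, ⟨(2:K)^N * c, this⟩, rfl⟩

lemma two_pow_smul (N : ℕ) (y : Y) : ((2^N : ℕ) • y : Y) = C ((2:K)^N) • y := by
  have h2 : (C (2:K) : K[X]) = 2 := map_ofNat C 2
  apply Y_ext <;> simp [h2]

/-- classification of homomorphisms from a full lattice to `Y` -/
lemma hom_eq (S : Submodule A Y) (h1 : mk 1 0 ∈ S) (hS : ∀ y : Y, ∃ N : ℕ, (2^N : ℕ) • y ∈ S)
    (φ : S →ₗ[A] Y) : ∃ g : K[X], ∀ y : S, φ y = g • (y : Y) := by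
  set g : K[X] := (φ ⟨mk 1 0, h1⟩).1 with hg
  refine ⟨g, ?_⟩
  let Q : Y → Prop := fun y => ∃ (N : ℕ) (x : S), (x : Y) = (2^N : ℕ) • y ∧
    φ x = (2^N : ℕ) • (g • y)
  have Quniv : ∀ y, Q y → ∀ (M : ℕ) (x : S), (x : Y) = (2^M : ℕ) • y →
      φ x = (2^M : ℕ) • (g • y) := by
    rintro y ⟨N, x0, hx0, hφ⟩ M x hx
    have e1 : (2^M : ℕ) • x0 = (2^N : ℕ) • x := by
      apply Subtype.ext
      push_cast
      rw [hx0, hx, smul_comm]
    have e2 := congrArg φ e1
    rw [map_nsmul, map_nsmul, hφ] at e2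
    apply nsmul_cancel N
    rw [← e2, smul_comm]
  have Qadd : ∀ y z, Q y → Q z → Q (y + z) := by
    rintro y z ⟨N, x, hx, hφ⟩ ⟨M, x', hx', hφ'⟩
    refine ⟨N + M, (2^M : ℕ) • x + (2^N : ℕ) • x', ?_, ?_⟩
    · push_cast
      rw [hx, hx', smul_add, smul_smul, smul_smul, ← pow_add, ← pow_add, add_comm M N]
    · rw [map_add, map_nsmul, map_nsmul, hφ, hφ', smul_add, smul_add, smul_smul, smul_smul,
        ← pow_add, ← pow_add, add_comm M N]
  have Qr : ∀ (r : A) y, Q y → Q (r • y) := by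
    rintro r y ⟨N, x, hx, hφ⟩
    refine ⟨N, r • x, ?_, ?_⟩
    · push_cast
      rw [hx, smul_comm]
    · rw [map_smul, hφ, ← comm_poly, smul_comm]
  have Qhalf : ∀ (k : ℕ) y, Q ((2^k : ℕ) • y) → Q y := by
    rintro k y ⟨N, x, hx, hφ⟩
    refine ⟨N + k, x, ?_, ?_⟩
    · rw [hx, smul_smul, ← pow_add]
    · rw [hφ, smul_comm g, smul_smul, ← pow_add]
  have QC : ∀ (c : K) y, Q y → Q (C c • y) := by
    intro c y hy
    obtain ⟨k, l, hkl⟩ := exists_int c
    apply Qhalf k
    have : (2^k : ℕ) • (C c • y) = rL l • y := by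
      rw [rL_smul, ← hkl]
      have h2 : (C (2:K) : K[X]) = 2 := map_ofNat C 2
      apply Y_ext <;> simp [mul_assoc, h2]
    rw [this]
    exact Qr _ _ hy
  have Qone : Q (mk 1 0) := by
    refine ⟨0, ⟨mk 1 0, h1⟩, by simp, ?_⟩
    have e1 : rE • (⟨mk 1 0, h1⟩ : S) = ⟨mk 1 0, h1⟩ := by
      apply Subtype.ext
      push_cast
      rw [rE_smul]; rfl
    have e2 := congrArg φ e1
    rw [map_smul, rE_smul] at e2
    rw [← e2]
    apply Y_ext
    · simp [hg]
    · simp
  have Qsnd : ∀ p, Q (mk 0 p) → Q (mk p 0) := by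
    intro p hp
    obtain ⟨N, hN⟩ := hS (mk p 0)
    refine ⟨N, ⟨_, hN⟩, rfl, ?_⟩
    set x : S := ⟨_, hN⟩ with hx
    have e1 : rE • x = x := by
      apply Subtype.ext
      push_cast
      rw [rE_smul, hx]
      apply Y_ext <;> simp
    have e2 := congrArg φ e1
    rw [map_smul, rE_smul] at e2
    have e3 := Quniv _ hp N (rA • x) (by
      push_cast
      rw [rA_smul, hx]
      apply Y_ext <;> simp)
    rw [map_smul, rA_smul] at e3
    have e4 := congrArg Prod.snd e3
    have e5 : (φ x).1 = (2^N : ℕ) • (g * p) := by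
      have := e4
      change (φ x).1 = (2^N : ℕ) • (g * p) at this
      exact this
    rw [← e2]
    apply Y_ext
    · simp [e5]
    · simp
  have Qfst : ∀ p, Q (mk p 0) := by
    intro p
    induction p using Polynomial.induction_on with
    | C c =>
      have := QC c _ Qone
      have e : C c • mk 1 0 = mk (C c) 0 := by apply Y_ext <;> simp
      rwa [e] at this
    | add p q hp hq =>
      have := Qadd _ _ hp hq
      have e : mk p 0 + mk q 0 = mk (p + q) 0 := by apply Y_ext <;> simp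
      rwa [e] at this
    | monomial n c h =>
      apply Qsnd
      have := Qr rB _ h
      rw [rB_smul] at this
      have e : mk 0 (X * (mk (C c * X ^ n) 0).1) = mk 0 (C c * X ^ (n + 1)) := by
        apply Y_ext
        · simp
        · simp; ring
      rwa [e] at this
  have Qall : ∀ y, Q y := by
    intro y
    have e : y = mk y.1 0 + rA • mk y.2 0 := by
      rw [rA_smul]; apply Y_ext <;> simp
    rw [e]
    exact Qadd _ _ (Qfst _) (Qr _ _ (Qfst _))
  intro y
  have := Quniv y (Qall y) 0 y (by simp)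
  simpa using this

/-- every endomorphism of `X` is a scalar from `Lam` -/
lemma endX (φ : XS →ₗ[A] XS) : ∃ l : Lam, ∀ y : XS, φ y = rL l • y := by
  obtain ⟨g, hg⟩ := hom_eq XS one_mem scale_mem (XS.subtype.comp φ)
  -- coefficients of g
  have hcoef : ∀ n i, ‖g.coeff i‖ * w n ≤ w (n + i) := by
    intro n i
    have hmem : mk (C ((2:K)^(n^2)) * X^n) 0 ∈ XS := by
      rw [mem_XS]
      constructor
      · intro m
        rw [mk_fst, coeff_C_mul_X_pow]
        split_ifs with h
        · subst h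
          rw [norm_pow]
          have := Padic.norm_p (p := 2)
          push_cast at this
          rw [this, w]
          norm_num
        · simp [(w_pos _).le]
      · intro m; simp [(w_pos _).le]
    have h1 := hg ⟨_, hmem⟩
    have h2 := (mem_XS.mp (φ ⟨_, hmem⟩).2).1 (n + i)
    have h3 : ((φ ⟨_, hmem⟩ : XS) : Y) = g • mk (C ((2:K)^(n^2)) * X^n) 0 := h1
    rw [h3] at h2
    rw [psmul_fst, mk_fst, ← mul_assoc, coeff_mul_X_pow', if_pos (Nat.le_add_right _ _),
      Nat.add_sub_cancel_left, coeff_mul_C, norm_mul, norm_pow] at h2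
    have := Padic.norm_p (p := 2)
    push_cast at this
    rw [this] at h2
    refine le_trans (le_of_eq ?_) h2
    rw [w]; norm_num
  have hzero : ∀ i, g.coeff (i + 1) = 0 := by
    intro i
    by_contra hne
    have hpos : 0 < ‖g.coeff (i+1)‖ := norm_pos_iff.mpr hne
    obtain ⟨N, hN⟩ := exists_pow_lt_of_lt_one hpos (show (1/2:ℝ) < 1 by norm_num)
    have h := hcoef N (i+1)
    have h2 : w (N + (i+1)) ≤ w N * (1/2:ℝ)^N := by
      rw [w, w, ← pow_add]
      apply pow_le_pow_of_le_one (by norm_num) (by norm_num)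
      nlinarith [Nat.zero_le (N*i), Nat.zero_le (i*i)]
    have h3 := w_pos N
    nlinarith
  have hg0 : g = C (g.coeff 0) := by
    ext n
    cases n with
    | zero => simp
    | succ n => rw [hzero, coeff_C_succ]
  have hn : ‖g.coeff 0‖ ≤ 1 := by
    have := hcoef 0 0
    simpa [w] using this
  refine ⟨⟨g.coeff 0, hn⟩, fun y => ?_⟩
  apply Subtype.ext
  have := hg y
  change ((φ y : XS) : Y) = g • (y : Y) at this
  rw [this]
  push_cast
  rw [rL_smul, ← hg0]

lemma endY (φ : Y →ₗ[A] Y) : ∃ g : K[X], ∀ y : Y, φ y = g • y := by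
  obtain ⟨g, hg⟩ := hom_eq ⊤ Submodule.mem_top (fun y => ⟨0, Submodule.mem_top⟩)
    (φ.comp (Submodule.subtype ⊤))
  exact ⟨g, fun y => hg ⟨y, Submodule.mem_top⟩⟩


/-! ### Direct limits -/

section dirlim

variable {ι : Type} [Preorder ι] [IsDirected ι (· ≤ ·)] [Nonempty ι]
  (F : ι ⥤ ModuleCat.{0} A) (c : Cocone F)

lemma exists_rep (hc : IsColimit c) (x : c.pt) : ∃ (i : ι) (y : F.obj i), c.ι.app i y = x := by
  have : IsFiltered ι := isFiltered_of_directed_le_nonempty ι
  exact Concrete.isColimit_exists_rep F hc x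

lemma rep_zero (hc : IsColimit c) {i : ι} (y : F.obj i) (h : c.ι.app i y = 0) :
    ∃ (j : ι) (hij : i ≤ j), F.map (homOfLE hij) y = 0 := by
  have : IsFiltered ι := isFiltered_of_directed_le_nonempty ι
  have h' : c.ι.app i y = c.ι.app i 0 := by rw [h, map_zero]
  obtain ⟨k, f, g, hk⟩ := Concrete.isColimit_exists_of_rep_eq F hc y 0 h'
  refine ⟨k, leOfHom f, ?_⟩
  rw [map_zero] at hk
  exact hk

omit [IsDirected ι (· ≤ ·)] [Nonempty ι] in
lemma ι_map {i j : ι} (hij : i ≤ j) (y : F.obj i) :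
    c.ι.app j (F.map (homOfLE hij) y) = c.ι.app i y := by
  have := c.w (homOfLE hij)
  rw [← this]; rfl

omit [IsDirected ι (· ≤ ·)] [Nonempty ι] in
lemma F_map_map {i j k : ι} (hij : i ≤ j) (hjk : j ≤ k) (y : F.obj i) :
    F.map (homOfLE hjk) (F.map (homOfLE hij) y) = F.map (homOfLE (hij.trans hjk)) y := by
  have : homOfLE (hij.trans hjk) = homOfLE hij ≫ homOfLE hjk := rfl
  rw [this, F.map_comp]; rfl

lemma colim_zero (hc : IsColimit c)
    (h : ∀ i, ∃ (j : ι) (hij : i ≤ j), ∀ y : F.obj i, F.map (homOfLE hij) y = 0) :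
    Subsingleton c.pt := by
  have : ∀ x : c.pt, x = 0 := by
    intro x
    obtain ⟨i, y, rfl⟩ := exists_rep F c hc x
    obtain ⟨j, hij, hj⟩ := h i
    rw [← ι_map F c hij, hj, map_zero]
  exact ⟨fun a b => by rw [this a, this b]⟩

lemma colim_bdd (hc : IsColimit c) (j1 : ι)
    (h : ∀ (j : ι) (hj : j1 ≤ j), Function.Bijective (F.map (homOfLE hj))) :
    Nonempty (F.obj j1 ≃ₗ[A] c.pt) := by
  refine ⟨LinearEquiv.ofBijective (c.ι.app j1).hom ⟨?_, ?_⟩⟩
  · rw [injective_iff_map_eq_zero]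
    intro y hy
    obtain ⟨j, hij, hj⟩ := rep_zero F c hc y hy
    apply (h j hij).1
    rw [hj, map_zero]
  · intro x
    obtain ⟨i, y, rfl⟩ := exists_rep F c hc x
    obtain ⟨k, hik, hjk⟩ := directed_of (· ≤ ·) i j1
    obtain ⟨z, hz⟩ := (h k hjk).2 (F.map (homOfLE hik) y)
    refine ⟨z, ?_⟩
    change c.ι.app j1 z = _
    rw [← ι_map F c hjk, hz, ι_map]

variable (e : ∀ i, F.obj i ≃ₗ[A] XS) (lam : ∀ i j : ι, i ≤ j → Lam)
  (hlam : ∀ i j (h : i ≤ j) (x : F.obj i), e j (F.map (homOfLE h) x) = rL (lam i j h) • e i x)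

include hlam

omit [IsDirected ι (· ≤ ·)] [Nonempty ι] in
lemma lam_mul {i j k : ι} (hij : i ≤ j) (hjk : j ≤ k) :
    lam i k (hij.trans hjk) = lam j k hjk * lam i j hij := by
  have h1 := hlam i k (hij.trans hjk) ((e i).symm ⟨_, one_mem⟩)
  rw [← F_map_map F hij hjk, hlam j k hjk, hlam i j hij, LinearEquiv.apply_symm_apply] at h1
  have h2 := congrArg (fun x : XS => (x : Y).1.coeff 0) h1
  simp only [Submodule.coe_smul, rL_smul, psmul_fst, mk_fst, mul_one] at h2
  rw [coeff_C_mul, coeff_C_zero, coeff_C_zero] at h2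
  apply PadicInt.ext
  push_cast
  exact h2.symm

/-- the maps used to identify an unbounded colimit with `Y` -/
def mu (i0 i j : ι) (hij : i ≤ j) (h0 : i0 ≤ j) : F.obj i →ₗ[A] Y :=
  (mulP (C (((lam i0 j h0 : Lam) : K))⁻¹)).comp
    (XS.subtype.comp ((e j).toLinearMap.comp (F.map (homOfLE hij)).hom))

omit [IsDirected ι (· ≤ ·)] [Nonempty ι] hlam in
lemma mu_apply (i0 i j : ι) (hij : i ≤ j) (h0 : i0 ≤ j) (x : F.obj i) :
    mu F e lam i0 i j hij h0 x = C (((lam i0 j h0 : Lam) : K))⁻¹ • ((e j (F.map (homOfLE hij) x) : XS) : Y) :=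
  rfl


omit [IsDirected ι (· ≤ ·)] [Nonempty ι] in
lemma mu_indep (hne : ∀ i0 j (h : i0 ≤ j), (∀ k (hk : i0 ≤ k), lam i0 k hk ≠ 0) → lam i0 j h ≠ 0)
    {i0 i j k : ι} (h0ne : ∀ k (hk : i0 ≤ k), lam i0 k hk ≠ 0)
    (hij : i ≤ j) (h0 : i0 ≤ j) (hjk : j ≤ k) :
    mu F e lam i0 i j hij h0 = mu F e lam i0 i k (hij.trans hjk) (h0.trans hjk) := by
  have _ := hne
  ext x
  rw [mu_apply, mu_apply, ← F_map_map F hij hjk, hlam j k hjk,
    lam_mul F e lam hlam h0 hjk]
  have h1 : ((lam i0 j h0 : Lam) : K) ≠ 0 := by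
    rw [Ne, PadicInt.coe_eq_zero]; exact h0ne j h0
  have h2 : ((lam j k hjk : Lam) : K) ≠ 0 := by
    rw [Ne, PadicInt.coe_eq_zero]
    intro h
    apply h0ne k (h0.trans hjk)
    rw [lam_mul F e lam hlam h0 hjk, h, zero_mul]
  rw [Submodule.coe_smul, rL_smul, smul_smul, ← C_mul]
  congr 2
  push_cast
  field_simp

omit hlam [IsDirected ι (· ≤ ·)] [Nonempty ι] in
lemma mu_comp {i0 i i' j : ι} (hii : i ≤ i') (hij : i' ≤ j) (h0 : i0 ≤ j) (x : F.obj i) :
    mu F e lam i0 i' j hij h0 (F.map (homOfLE hii) x) = mu F e lam i0 i j (hii.trans hij) h0 x := by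
  rw [mu_apply, mu_apply, F_map_map F hii hij]

lemma colim_unbdd (hc : IsColimit c) (i0 : ι) (h0ne : ∀ k (hk : i0 ≤ k), lam i0 k hk ≠ 0)
    (hdiv : ∀ N : ℕ, ∃ (j : ι) (h : i0 ≤ j), (2:Lam)^N ∣ lam i0 j h) :
    Nonempty (c.pt ≃ₗ[A] Y) := by
  choose jj hj1 hj2 using fun i => directed_of (· ≤ ·) i i0
  have hindep : ∀ {i j k : ι} (hij : i ≤ j) (h0 : i0 ≤ j) (hjk : j ≤ k),
      mu F e lam i0 i j hij h0 = mu F e lam i0 i k (hij.trans hjk) (h0.trans hjk) :=
    fun hij h0 hjk => mu_indep F e lam hlam (fun _ j h H => H j h) h0ne hij h0 hjk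
  have hindep2 : ∀ {i j k : ι} (hij : i ≤ j) (h0 : i0 ≤ j) (hik : i ≤ k) (h0k : i0 ≤ k),
      mu F e lam i0 i j hij h0 = mu F e lam i0 i k hik h0k := by
    intro i j k hij h0 hik h0k
    obtain ⟨m, hjm, hkm⟩ := directed_of (· ≤ ·) j k
    rw [hindep hij h0 hjm, hindep hik h0k hkm]
  let s : Cocone F :=
    { pt := ModuleCat.of A Y
      ι :=
        { app := fun i => ModuleCat.ofHom (mu F e lam i0 i (jj i) (hj1 i) (hj2 i))
          naturality := by
            intro i i' f
            ext x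
            have h1 : mu F e lam i0 i' (jj i') (hj1 i') (hj2 i') (F.map (homOfLE (leOfHom f)) x)
                = mu F e lam i0 i (jj i) (hj1 i) (hj2 i) x := by
              rw [mu_comp F e lam (leOfHom f)]
              rw [hindep2 ((leOfHom f).trans (hj1 i')) (hj2 i') (hj1 i) (hj2 i)]
            exact h1 } }
  have hΨ : ∀ i (y : F.obj i), (hc.desc s) (c.ι.app i y) =
      mu F e lam i0 i (jj i) (hj1 i) (hj2 i) y := by
    intro i y
    have := hc.fac s i
    have h2 := congrArg (fun f => f y) this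
    exact h2
  refine ⟨LinearEquiv.ofBijective (hc.desc s).hom ⟨?_, ?_⟩⟩
  · rw [injective_iff_map_eq_zero]
    intro x hx
    obtain ⟨i, y, rfl⟩ := exists_rep F c hc x
    have hx' : (hc.desc s) (c.ι.app i y) = 0 := hx
    rw [hΨ, mu_apply] at hx'
    have h1 : ((lam i0 (jj i) (hj2 i) : Lam) : K) ≠ 0 := by
      rw [Ne, PadicInt.coe_eq_zero]; exact h0ne _ _
    have h2 : ((e (jj i) (F.map (homOfLE (hj1 i)) y) : XS) : Y) = 0 := by
      have h3 := congrArg (fun z : Y => C (((lam i0 (jj i) (hj2 i) : Lam) : K)) • z) hx'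
      simp only [smul_smul, ← C_mul, smul_zero] at h3
      rwa [mul_inv_cancel₀ h1, C_1, one_smul] at h3
    have h3 : e (jj i) (F.map (homOfLE (hj1 i)) y) = 0 := Subtype.ext h2
    rw [LinearEquiv.map_eq_zero_iff] at h3
    rw [← ι_map F c (hj1 i), h3, map_zero]
  · intro y
    obtain ⟨N, hN⟩ := scale_mem y
    obtain ⟨j, hj, l, hl⟩ := hdiv N
    refine ⟨c.ι.app j ((e j).symm (rL l • ⟨_, hN⟩)), ?_⟩
    change (hc.desc s) (c.ι.app j ((e j).symm (rL l • ⟨_, hN⟩))) = y
    rw [hΨ, hindep2 (hj1 j) (hj2 j) le_rfl hj, mu_apply]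
    have h4 : F.map (homOfLE (le_refl j)) = 𝟙 _ := F.map_id j
    rw [h4]
    change C (((lam i0 j hj : Lam) : K))⁻¹ • (((e j) ((e j).symm (rL l • ⟨_, hN⟩)) : XS) : Y) = y
    rw [LinearEquiv.apply_symm_apply, Submodule.coe_smul, rL_smul]
    have h1 : ((lam i0 j hj : Lam) : K) ≠ 0 := by
      rw [Ne, PadicInt.coe_eq_zero]; exact h0ne j hj
    have h5 : (((2^N : ℕ) • y : Y)) = C ((2:K)^N) • y := two_pow_smul N y
    change C (((lam i0 j hj : Lam) : K))⁻¹ • C ((l : Lam) : K) • ((2^N : ℕ) • y : Y) = y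
    rw [h5, smul_smul, smul_smul, ← C_mul, ← C_mul]
    have h6 : ((lam i0 j hj : Lam) : K)⁻¹ * (l : K) * (2:K)^N = 1 := by
      have h7 : ((lam i0 j hj : Lam) : K) = (2:K)^N * (l : K) := by
        rw [hl]; push_cast; rfl
      rw [mul_assoc, mul_comm (l : K), ← h7, inv_mul_cancel₀ h1]
    rw [h6, C_1, one_smul]

omit [IsDirected ι (· ≤ ·)] [Nonempty ι] in
lemma rL_unit_bij {l : Lam} (hl : IsUnit l) {i j : ι} (h : i ≤ j) (hh : lam i j h = l) :
    Function.Bijective (F.map (homOfLE h)) := by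
  obtain ⟨u, rfl⟩ := hl
  constructor
  · rw [injective_iff_map_eq_zero]
    intro y hy
    have h1 := hlam i j h y
    rw [hy, map_zero, hh] at h1
    have h2 := congrArg (fun z : XS => rL (u⁻¹ : Lamˣ) • z) h1
    simp only [smul_zero, smul_smul] at h2
    have h3 : rL (u⁻¹ : Lamˣ) * rL (u : Lam) = 1 := by
      rw [rL, rL, ← map_mul]; simp
    rw [h3, one_smul] at h2
    exact (LinearEquiv.map_eq_zero_iff (e i)).mp h2.symm
  · intro z
    refine ⟨(e i).symm (rL (u⁻¹ : Lamˣ) • e j z), ?_⟩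
    apply (e j).injective
    rw [hlam i j h, LinearEquiv.apply_symm_apply, hh, smul_smul]
    have h3 : rL (u : Lam) * rL (u⁻¹ : Lamˣ) = 1 := by
      rw [rL, rL, ← map_mul]; simp
    rw [h3, one_smul]

lemma trichotomy (hc : IsColimit c) :
    Subsingleton c.pt ∨ Nonempty (XS ≃ₗ[A] c.pt) ∨ Nonempty (Y ≃ₗ[A] c.pt) := by
  by_cases h0 : ∀ i, ∃ (j : ι) (h : i ≤ j), lam i j h = 0
  · left
    apply colim_zero F c hc
    intro i
    obtain ⟨j, h, hj⟩ := h0 i
    refine ⟨j, h, fun y => ?_⟩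
    apply (e j).injective
    rw [hlam i j h, hj, map_zero, rL, map_zero, zero_smul]
  · push Not at h0
    obtain ⟨i0, hi0⟩ := h0
    right
    by_cases hb : ∃ (j1 : ι) (h : i0 ≤ j1), ∀ (j : ι) (hj : j1 ≤ j), IsUnit (lam j1 j hj)
    · left
      obtain ⟨j1, h1, hu⟩ := hb
      obtain ⟨E⟩ := colim_bdd F c hc j1
        (fun j hj => rL_unit_bij F e lam hlam (hu j hj) hj rfl)
      exact ⟨(e j1).symm.trans E⟩
    · right
      push Not at hb
      obtain ⟨E⟩ := colim_unbdd F c e lam hlam hc i0 hi0 (by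
        intro N
        induction N with
        | zero => exact ⟨i0, le_rfl, by simp⟩
        | succ N ih =>
          obtain ⟨j1, hj1, hd⟩ := ih
          obtain ⟨j, hj, hnu⟩ := hb j1 hj1
          refine ⟨j, hj1.trans hj, ?_⟩
          rw [lam_mul F e lam hlam hj1 hj, pow_succ, mul_comm]
          apply mul_dvd_mul _ hd
          have h1 : ‖lam j1 j hj‖ < 1 := by
            rw [PadicInt.isUnit_iff] at hnu
            exact lt_of_le_of_ne (PadicInt.norm_le_one _) hnu
          exact_mod_cast PadicInt.norm_lt_one_iff_dvd _ |>.mp h1)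
      exact ⟨E.symm⟩

end dirlim


/-! ### The class and its direct limits -/

def XM : ModuleCat.{0} A := ModuleCat.of A XS
def YM : ModuleCat.{0} A := ModuleCat.of A Y

def CC : Set (ModuleCat.{0} A) := {M | Nonempty (M ≅ XM)}

def LL (M : ModuleCat.{0} A) : Prop :=
  ∃ (ι : Type) (_ : Preorder ι) (_ : IsDirected ι (· ≤ ·)) (_ : Nonempty ι)
    (F : ι ⥤ ModuleCat.{0} A) (c : Cocone F),
    Nonempty (IsColimit c) ∧ Nonempty (c.pt ≅ M) ∧ ∀ i, F.obj i ∈ CC

lemma LL_iso {M N : ModuleCat.{0} A} (E : M ≅ N) (h : LL M) : LL N := by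
  obtain ⟨ι, i1, i2, i3, F, c, hc, ⟨E'⟩, hF⟩ := h
  exact ⟨ι, i1, i2, i3, F, c, hc, ⟨E' ≪≫ E⟩, hF⟩

lemma LL_cases {M : ModuleCat.{0} A} (h : LL M) :
    Subsingleton M ∨ Nonempty (XS ≃ₗ[A] M) ∨ Nonempty (Y ≃ₗ[A] M) := by
  obtain ⟨ι, i1, i2, i3, F, c, ⟨hc⟩, ⟨E⟩, hF⟩ := h
  have hiso : ∀ i, Nonempty (F.obj i ≃ₗ[A] XS) := by
    intro i
    obtain ⟨f⟩ := hF i
    exact ⟨f.toLinearEquiv⟩
  have e : ∀ i, F.obj i ≃ₗ[A] XS := fun i => Classical.choice (hiso i)
  have hlam : ∀ i j (h : i ≤ j), ∃ l : Lam, ∀ (x : F.obj i),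
      e j (F.map (homOfLE h) x) = rL l • e i x := by
    intro i j h
    obtain ⟨l, hl⟩ := endX ((e j).toLinearMap.comp ((F.map (homOfLE h)).hom.comp
      (e i).symm.toLinearMap))
    refine ⟨l, fun x => ?_⟩
    have := hl (e i x)
    simpa using this
  choose lam hlam using hlam
  have E' : c.pt ≃ₗ[A] M := E.toLinearEquiv
  rcases trichotomy F c e lam hlam hc with h | ⟨⟨f⟩⟩ | ⟨⟨f⟩⟩
  · left
    exact E'.symm.toEquiv.subsingleton
  · right; left
    exact ⟨f.trans E'⟩
  · right; right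
    exact ⟨f.trans E'⟩

/-- the sequence `M → M → ...` with all maps equal to a given endomorphism -/
def powF (M : ModuleCat.{0} A) (f : M →ₗ[A] M) : ℕ ⥤ ModuleCat.{0} A where
  obj _ := M
  map {m n} h := ModuleCat.ofHom (f ^ (n - m))
  map_id n := by simp; rfl
  map_comp {m n k} h h' := by
    rw [← ModuleCat.ofHom_comp]
    congr 1
    have h1 : k - m = (k - n) + (n - m) := by
      have := leOfHom h
      have := leOfHom h'
      omega
    rw [h1, pow_add]; rfl

lemma powF_map (M : ModuleCat.{0} A) (f : M →ₗ[A] M) {m n : ℕ} (h : m ≤ n) (x : M) :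
    (powF M f).map (homOfLE h) x = (f ^ (n - m)) x := rfl

lemma LL_X : LL XM := by
  refine ⟨ℕ, inferInstance, inferInstance, inferInstance, powF XM LinearMap.id, colimit.cocone _,
    ⟨colimit.isColimit _⟩, ?_, fun i => ⟨Iso.refl _⟩⟩
  obtain ⟨E⟩ := colim_bdd (powF XM LinearMap.id) _ (colimit.isColimit _) 0 (by
    intro j hj
    have h : ∀ x, (powF XM LinearMap.id).map (homOfLE hj) x = x := by
      intro x
      rw [powF_map]
      have : (LinearMap.id : XM →ₗ[A] XM) ^ (j - 0) = LinearMap.id := by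
        change (1 : Module.End A XM) ^ (j - 0) = 1
        rw [one_pow]
      rw [this]; rfl
    constructor
    · intro x y hxy
      rwa [h, h] at hxy
    · intro x; exact ⟨x, h x⟩)
  exact ⟨E.symm.toModuleIso⟩

lemma LL_zero (M : ModuleCat.{0} A) (hM : Subsingleton M) : LL M := by
  refine ⟨ℕ, inferInstance, inferInstance, inferInstance, powF XM 0, colimit.cocone _,
    ⟨colimit.isColimit _⟩, ?_, fun i => ⟨Iso.refl _⟩⟩
  have h0 : Subsingleton (colimit.cocone (powF XM 0)).pt := by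
    apply colim_zero (powF XM 0) _ (colimit.isColimit _)
    intro i
    refine ⟨i + 1, Nat.le_succ i, fun y => ?_⟩
    rw [powF_map, Nat.add_sub_cancel_left, pow_one]; rfl
  have E : (colimit.cocone (powF XM 0)).pt ≃ₗ[A] M :=
    { toFun := fun _ => 0, invFun := fun _ => 0, map_add' := by intros; simp,
      map_smul' := by intros; simp, left_inv := fun _ => Subsingleton.elim _ _,
      right_inv := fun _ => Subsingleton.elim _ _ }
  exact ⟨E.toModuleIso⟩

lemma LL_Y : LL YM := by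
  let f : XM →ₗ[A] XM := (2 : ℕ) • LinearMap.id
  refine ⟨ℕ, inferInstance, inferInstance, inferInstance, powF XM f, colimit.cocone _,
    ⟨colimit.isColimit _⟩, ?_, fun i => ⟨Iso.refl _⟩⟩
  have hf : ∀ (n : ℕ) (x : XS), (f ^ n) x = rL (2^n) • x := by
    intro n x
    have h1 : f ^ n = (2^n : ℕ) • (LinearMap.id : XM →ₗ[A] XM) := by
      change ((2 : ℕ) • (1 : Module.End A XM)) ^ n = (2^n : ℕ) • (1 : Module.End A XM)
      rw [_root_.smul_pow, one_pow]
    rw [h1]
    apply Subtype.ext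
    rw [Submodule.coe_smul, rL_smul]
    change ((2^n : ℕ) • (x : Y)) = _
    rw [two_pow_smul]
    congr 2
  obtain ⟨E⟩ := colim_unbdd (powF XM f) _ (fun _ => LinearEquiv.refl A XS)
    (fun i j _ => 2^(j - i)) (by
      intro i j h x
      rw [powF_map]
      exact hf (j - i) x) (colimit.isColimit _) 0
    (by intro k hk; exact pow_ne_zero _ two_ne_zero)
    (by intro N; exact ⟨N, Nat.zero_le _, dvd_rfl⟩)
  exact ⟨E.toModuleIso⟩

/-- an idempotent acting as `0` -/
lemma summand_zero {M N : ModuleCat.{0} A} (s : N ⟶ M) (r : M ⟶ N) (h : s ≫ r = 𝟙 N)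
    (h0 : ∀ x : M, s (r x) = 0) : Subsingleton N := by
  have h1 : ∀ x : N, r (s x) = x := fun x => by
    have := congrArg (fun f => f x) h
    exact this
  have : ∀ x : N, x = 0 := by
    intro x
    rw [← h1 x, ← h1 (s x |> r), h0, map_zero]
  exact ⟨fun a b => by rw [this a, this b]⟩

lemma summand_one {M N : ModuleCat.{0} A} (s : N ⟶ M) (r : M ⟶ N) (h : s ≫ r = 𝟙 N)
    (h0 : ∀ x : M, s (r x) = x) : Nonempty (M ≅ N) := by
  refine ⟨⟨r, s, ?_, h⟩⟩
  ext x
  exact h0 x

lemma LL_summand (M N : ModuleCat.{0} A) (s : N ⟶ M) (r : M ⟶ N) (h : s ≫ r = 𝟙 N)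
    (hM : LL M) : LL N := by
  have h1 : ∀ x : N, r (s x) = x := fun x => by
    have := congrArg (fun f => f x) h
    exact this
  rcases LL_cases hM with hs | ⟨⟨E⟩⟩ | ⟨⟨E⟩⟩
  · apply LL_zero
    have : ∀ x : N, x = 0 := by
      intro x
      rw [← h1 x, Subsingleton.elim (s x) 0, map_zero]
    exact ⟨fun a b => by rw [this a, this b]⟩
  · -- X
    obtain ⟨l, hl⟩ := endX (E.symm.toLinearMap.comp ((r ≫ s).hom.comp E.toLinearMap))
    have hl' : ∀ x : XS, E.symm (s (r (E x))) = rL l • x := hl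
    have hidem : l * l = l := by
      have e1 : ∀ x : XS, rL l • rL l • x = rL l • x := by
        intro x
        rw [← hl' (rL l • x), ← hl' x, LinearEquiv.apply_symm_apply, h1]
      have e2 := congrArg (fun x : XS => (x : Y).1.coeff 0) (e1 ⟨_, one_mem⟩)
      simp only [Submodule.coe_smul, rL_smul, psmul_fst, mk_fst, mul_one] at e2
      rw [coeff_C_mul, coeff_C_zero] at e2
      apply PadicInt.ext
      push_cast
      exact e2
    have hl01 : l = 0 ∨ l = 1 := by
      have : l * (l - 1) = 0 := by rw [mul_sub, hidem, mul_one, sub_self]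
      rcases mul_eq_zero.mp this with h | h
      · left; exact h
      · right; exact sub_eq_zero.mp h
    rcases hl01 with rfl | rfl
    · apply LL_zero
      apply summand_zero s r h
      intro x
      have := hl' (E.symm x)
      rw [LinearEquiv.apply_symm_apply, rL, map_zero, zero_smul] at this
      exact (LinearEquiv.map_eq_zero_iff E.symm).mp this
    · obtain ⟨f⟩ := summand_one s r h (by
        intro x
        have := hl' (E.symm x)
        rw [LinearEquiv.apply_symm_apply, rL, map_one, one_smul] at this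
        exact E.symm.injective this)
      exact LL_iso f hM
  · -- Y
    obtain ⟨g, hg⟩ := endY (E.symm.toLinearMap.comp ((r ≫ s).hom.comp E.toLinearMap))
    have hg' : ∀ x : Y, E.symm (s (r (E x))) = g • x := hg
    have hidem : g * g = g := by
      have e1 : ∀ x : Y, g • g • x = g • x := by
        intro x
        rw [← hg' (g • x), ← hg' x, LinearEquiv.apply_symm_apply, h1]
      have e2 := congrArg (fun x : Y => x.1) (e1 (mk 1 0))
      simpa using e2
    have hg01 : g = 0 ∨ g = 1 := by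
      have : g * (g - 1) = 0 := by rw [mul_sub, hidem, mul_one, sub_self]
      rcases mul_eq_zero.mp this with h | h
      · left; exact h
      · right; exact sub_eq_zero.mp h
    rcases hg01 with rfl | rfl
    · apply LL_zero
      apply summand_zero s r h
      intro x
      have := hg' (E.symm x)
      rw [LinearEquiv.apply_symm_apply, zero_smul] at this
      exact (LinearEquiv.map_eq_zero_iff E.symm).mp this
    · obtain ⟨f⟩ := summand_one s r h (by
        intro x
        have := hg' (E.symm x)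
        rw [LinearEquiv.apply_symm_apply, one_smul] at this
        exact E.symm.injective this)
      exact LL_iso f hM

/-- the bad limit is not in the class -/
lemma not_LL : ¬ LL (colimit.cocone (powF YM (mulP X))).pt := by
  intro h
  set G := powF YM (mulP X) with hG
  set c := colimit.cocone G with hc
  have hcol : IsColimit c := colimit.isColimit _
  have hpow : ∀ (n : ℕ) (y : Y), ((mulP X) ^ n) y = (X : K[X])^n • y := by
    intro n
    induction n with
    | zero => intro y; simp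
    | succ n ih =>
      intro y
      rw [pow_succ, Module.End.mul_apply, ih, mulP_apply, smul_smul, pow_succ]
  have hmap : ∀ {m n : ℕ} (h : m ≤ n) (y : Y), G.map (homOfLE h) y = (X : K[X])^(n - m) • y := by
    intro m n h y
    exact hpow (n - m) y
  -- property 1: every `rA z` is of the form `rB z'`
  have P1 : ∀ z : c.pt, ∃ z' : c.pt, rA • z = rB • z' := by
    intro z
    obtain ⟨n, y, rfl⟩ := exists_rep G c hcol z
    refine ⟨c.ι.app (n + 1) y, ?_⟩
    rw [← map_smul, ← map_smul, ← ι_map G c (Nat.le_succ n)]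
    congr 1
    have h1 : ∀ y : Y, G.map (homOfLE (Nat.le_succ n)) (rA • y : Y) = (rB • y : Y) := by
      intro y
      rw [hmap, Nat.succ_eq_add_one, Nat.add_sub_cancel_left, pow_one, rA_smul, rB_smul]
      apply Y_ext <;> simp
    exact h1 y
  -- property 2: divisible by two
  have P2 : ∀ z : c.pt, ∃ z' : c.pt, z = (2:ℕ) • z' := by
    intro z
    obtain ⟨n, y, rfl⟩ := exists_rep G c hcol z
    have h4 : ∀ y : Y, ∃ y' : Y, y = (2:ℕ) • y' := by
      intro y
      refine ⟨C (2:K)⁻¹ • y, ?_⟩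
      have h1 := two_pow_smul 1 (C (2:K)⁻¹ • (y : Y))
      rw [pow_one, pow_one] at h1
      rw [h1, smul_smul, ← C_mul, mul_inv_cancel₀ (two_ne_zero), C_1, one_smul]
    obtain ⟨y', hy'⟩ := h4 y
    refine ⟨c.ι.app n y', ?_⟩
    rw [← map_nsmul]
    congr 1
  -- property 3: nonzero
  have P3 : ¬ Subsingleton c.pt := by
    intro hs
    have h0 : c.ι.app 0 (mk 1 0 : Y) = 0 :=
      @Subsingleton.elim c.pt hs _ _
    obtain ⟨j, hij, hj⟩ := rep_zero G c hcol (i := 0) (mk 1 0 : Y) h0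
    have h1 := hmap hij (mk 1 0)
    have h2 : (X : K[X])^(j - 0) • mk 1 0 = (0 : Y) := h1.symm.trans hj
    have h3 := congrArg (fun y : Y => y.1) h2
    simp at h3
  rcases LL_cases h with hs | ⟨⟨E⟩⟩ | ⟨⟨E⟩⟩
  · exact P3 hs
  · obtain ⟨z', hz'⟩ := P2 (E ⟨_, one_mem⟩)
    have h1 : (⟨_, one_mem⟩ : XS) = (2:ℕ) • E.symm z' := by
      apply E.injective
      rw [map_nsmul, LinearEquiv.apply_symm_apply, hz']
    have h2 := congrArg (fun x : XS => (x : Y).1.coeff 0) h1
    have h3 : (1:K) = 2 * ((E.symm z' : XS) : Y).1.coeff 0 := by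
      simpa [two_mul, two_smul] using h2
    have h4 := (mem_XS.mp (E.symm z').2).1 0
    have h5 := congrArg norm h3
    rw [norm_mul, norm_one] at h5
    have h6 := Padic.norm_p (p := 2)
    push_cast at h6
    rw [h6] at h5
    have h7 : w 0 = 1 := by simp [w]
    rw [h7] at h4
    linarith
  · obtain ⟨z', hz'⟩ := P1 (E (mk 1 0))
    have h1 : rA • mk 1 0 = rB • E.symm z' := by
      apply E.injective
      rw [map_smul, map_smul, LinearEquiv.apply_symm_apply, hz']
    rw [rA_smul, rB_smul] at h1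
    have h2 := congrArg (fun y : Y => y.2.coeff 0) h1
    simp at h2

end

/-- The negation of the preceding statement: For any ring and any class C of modules, if the class of direct limits of modules from C is closed under direct summands, then it is closed under direct limits over directed sets. -/
theorem result :
    ¬ (∀ (R : Type) [Ring R] (C : Set (ModuleCat.{0} R)) (L : ModuleCat.{0} R → Prop),
    (∀ M : ModuleCat.{0} R, L M ↔
      ∃ (ι : Type) (_ : Preorder ι) (_ : IsDirected ι (· ≤ ·)) (_ : Nonempty ι)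
        (F : ι ⥤ ModuleCat.{0} R) (c : Cocone F),
        Nonempty (IsColimit c) ∧ Nonempty (c.pt ≅ M) ∧ ∀ i, F.obj i ∈ C) →
    (∀ (M N : ModuleCat.{0} R) (s : N ⟶ M) (r : M ⟶ N), s ≫ r = 𝟙 N → L M → L N) →
    ∀ (ι : Type) (_ : Preorder ι) (_ : IsDirected ι (· ≤ ·)) (_ : Nonempty ι)
      (F : ι ⥤ ModuleCat.{0} R) (c : Cocone F),
      Nonempty (IsColimit c) → (∀ i, L (F.obj i)) → L c.pt) := by
  intro H
  have := H A CC LL (fun M => Iff.rfl) LL_summand ℕ inferInstance inferInstance inferInstance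
    (powF YM (mulP Polynomial.X)) (colimit.cocone _) ⟨colimit.isColimit _⟩ (fun i => LL_Y)
  exact not_LL this

end Pool.Agent.S03082
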