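import Pool.Statements.S03280

/-!
Counterexample: `G = GL_4(F_5)`, `L = SL_4(F_5)` and `A` generated by `a = diag(2,1,1,1)`.
The involution `a ^ 2 = diag(-1,1,1,1)` has centraliser `GL_1 × GL_3`, which commutes with `a`,
so `A` is a TI-subgroup; the determinant is faithful on `A`, and everything centralising `L` is
scalar, hence of determinant `c ^ 4 = 1`, so `A` meets `L C(L) = L` trivially.
-/

set_option autoImplicit false
open Pool Pool.MP_de34bb_al

namespace Pool.Agent.S03280

open Matrix Matrix.SpecialLinearGroup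
open scoped LinearAlgebra.Projectivization commutatorElement


lemma diag2n_eq {ι F : Type*} [Field F] [Fintype ι] [DecidableEq ι] {i j : ι} (hij : i ≠ j)
    (c : F) (hc : c ≠ 0) :
    diag2n hij c hc = transvection hij c * transvection hij.symm (-c⁻¹) * transvection hij c *
      transvection hij (-1) * transvection hij.symm 1 * transvection hij (-1) := by
  apply Subtype.ext
  simp only [coe_mul, transvection_coe, diag2n_coe]
  have h1 : (diagonal (fun k ↦ if k = i then c else if k = j then c⁻¹ else 1) : Matrix ι ι F)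
      = 1 + single i i (c - 1) + single j j (c⁻¹ - 1) := by
    ext a b
    by_cases hab : a = b
    · subst hab
      by_cases ha : a = i
      · subst ha; simp [hij.symm]
      · by_cases ha' : a = j
        · subst ha'; simp [hij, hij.symm]
        · simp [ha, ha', Ne.symm ha, Ne.symm ha']
    · simp [hab, single_apply]
      grind
  rw [h1]
  simp [mul_add, add_mul, single_mul_single_of_ne, hij, hij.symm, mul_inv_cancel₀ hc,
    inv_mul_cancel₀ hc]
  ext a b
  simp [single_apply]
  grind

/-- transvections generate `SL`. -/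
lemma eq_top_of_transvection {ι F : Type*} [Field F] [Fintype ι] [DecidableEq ι] [Nontrivial ι]
    (S : Subgroup (SpecialLinearGroup ι F))
    (h : ∀ (i j : ι) (hij : i ≠ j) (c : F), transvection hij c ∈ S) : S = ⊤ := by
  refine le_antisymm le_top fun M _ => ?_
  refine diagonal_transvection_induction' (fun M => M ∈ S) M ?_ h (fun A B => mul_mem)
  intro i j hij c hc
  rw [diag2n_eq hij c hc]
  refine mul_mem (mul_mem (mul_mem (mul_mem (mul_mem ?_ ?_) ?_) ?_) ?_) ?_
  all_goals exact h _ _ _ _

lemma commutator_transvection {ι F : Type*} [Field F] [Fintype ι] [DecidableEq ι] {i j k : ι}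
    (hij : i ≠ j) (hjk : j ≠ k) (hik : i ≠ k) (c d : F) :
    ⁅transvection hij c, transvection hjk d⁆ = transvection hik (c * d) := by
  rw [commutatorElement_def, transvection_inv, transvection_inv]
  apply Subtype.ext
  simp only [coe_mul, transvection_coe]
  simp [mul_add, add_mul, single_mul_single_of_ne, hij.symm, hjk.symm, hik.symm]
  ext a b
  simp [single_apply]
  grind

lemma commutator_eq_top {F : Type*} [Field F] :
    commutator (SpecialLinearGroup (Fin 4) F) = ⊤ := by
  refine eq_top_of_transvection _ ?_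
  intro i k hik c
  obtain ⟨j, hij, hjk⟩ : ∃ j : Fin 4, i ≠ j ∧ j ≠ k := by
    revert i k
    decide
  have := commutator_transvection hij hjk hik c 1
  rw [mul_one] at this
  rw [← this]
  exact Subgroup.commutator_mem_commutator (Subgroup.mem_top _) (Subgroup.mem_top _)

lemma transvection_mem_lineStab {ι F : Type*} [Field F] [Fintype ι] [DecidableEq ι] {i j : ι}
    (hij : i ≠ j) (b : F) :
    transvection hij b ∈ lineStab (Submodule.span F {(Pi.single i (1 : F) : ι → F)}) :=
  fun w ↦ Submodule.mem_span_singleton.2 ⟨b * w j, by simp [mul_smul,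
    Matrix.SpecialLinearGroup.smul_def, transvection_coe, add_smul, Matrix.single_mulVec_eq]⟩

noncomputable def iwa (F : Type*) [Field F] :
    MulAction.IwasawaStructure (SpecialLinearGroup (Fin 4) F) (ℙ F (Fin 4 → F)) where
  T p := lineStab p.submodule
  is_comm p := by
    rw [← Projectivization.mk_rep p, Projectivization.submodule_mk]
    exact lineStab_isMulCommutative_of_span p.rep p.rep_nonzero
  is_conj g p := by
    rw [PSL.smul_submodule, Matrix.SpecialLinearGroup.lineStab_smul]
  is_generator := by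
    refine eq_top_of_transvection _ ?_
    intro i j hij c
    have h0 : (Pi.single i (1 : F) : Fin 4 → F) ≠ 0 := Pi.single_ne_zero_iff.2 one_ne_zero
    have h1 : lineStab (Projectivization.mk F (Pi.single i (1 : F) : Fin 4 → F) h0).submodule ≤
      ⨆ p : ℙ F (Fin 4 → F), lineStab p.submodule := le_iSup (fun p : ℙ F (Fin 4 → F) => lineStab p.submodule) _
    apply h1
    rw [Projectivization.submodule_mk]
    exact transvection_mem_lineStab hij c

lemma normal_dichotomy {F : Type*} [Field F] (N : Subgroup (SpecialLinearGroup (Fin 4) F))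
    [N.Normal] : N = ⊤ ∨ N ≤ Subgroup.center _ := by
  by_cases h : MulAction.fixedPoints N (ℙ F (Fin 4 → F)) = Set.univ
  · right
    intro g hg
    rw [← Projectivization.SL_mulAction_ker, MonoidHom.mem_ker]
    ext x
    have := Set.eq_univ_iff_forall.mp h x ⟨g, hg⟩
    simpa using this
  · left
    have := (iwa F).commutator_le N h
    rw [commutator_eq_top] at this
    exact top_le_iff.mp this

abbrev K := ZMod 5

abbrev GG := GL (Fin 4) K

def aMat : Matrix (Fin 4) (Fin 4) K := !![2,0,0,0;0,1,0,0;0,0,1,0;0,0,0,1]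
def aInv : Matrix (Fin 4) (Fin 4) K := !![3,0,0,0;0,1,0,0;0,0,1,0;0,0,0,1]

def a : GG := ⟨aMat, aInv, by decide, by decide⟩

instance fact5 : Fact (Nat.Prime 5) := ⟨by norm_num⟩

lemma a_pow4 : a ^ 4 = 1 := by
  apply Units.ext
  show aMat ^ 4 = 1
  decide

lemma a_sq_val : ((a ^ 2 : GG) : Matrix (Fin 4) (Fin 4) K) = !![4,0,0,0;0,1,0,0;0,0,1,0;0,0,0,1] := by
  show aMat ^ 2 = _
  decide

lemma a_sq_ne : a ^ 2 ≠ 1 := by
  intro h
  have := congrArg (fun g : GG => (g : Matrix (Fin 4) (Fin 4) K) 0 0) h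
  simp only [a_sq_val] at this
  revert this
  decide

lemma order_a : orderOf a = 4 := by
  have h4 : orderOf a ∣ 4 := orderOf_dvd_of_pow_eq_one a_pow4
  have h2 : ¬ orderOf a ∣ 2 := fun h => a_sq_ne (orderOf_dvd_iff_pow_eq_one.mp h)
  have : orderOf a ≤ 4 := Nat.le_of_dvd (by norm_num) h4
  interval_cases h : orderOf a <;> simp_all

/-- elements of `A` are `1, a, a^2, a^3`. -/
lemma mem_A (x : GG) (hx : x ∈ Subgroup.zpowers a) : x = 1 ∨ x = a ∨ x = a ^ 2 ∨ x = a ^ 3 := by
  rw [mem_zpowers_iff_mem_range_orderOf] at hx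
  rw [order_a] at hx
  simp only [Finset.mem_image, Finset.mem_range] at hx
  obtain ⟨k, hk, rfl⟩ := hx
  interval_cases k <;> simp

/-- commuting with `a^2` implies commuting with `a`. -/
lemma comm_of_comm_sq (g : GG) (h : g * a ^ 2 = a ^ 2 * g) : g * a = a * g := by
  have h1 : (g : Matrix (Fin 4) (Fin 4) K) * !![4,0,0,0;0,1,0,0;0,0,1,0;0,0,0,1]
      = !![4,0,0,0;0,1,0,0;0,0,1,0;0,0,0,1] * (g : Matrix (Fin 4) (Fin 4) K) := by
    rw [← a_sq_val]
    exact congrArg Units.val h
  apply Units.ext
  show (g : Matrix (Fin 4) (Fin 4) K) * aMat = aMat * (g : Matrix (Fin 4) (Fin 4) K)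
  generalize (g : Matrix (Fin 4) (Fin 4) K) = M at h1
  have key : ∀ t : K, (t * 4 = t → t = 0) ∧ (t = 4 * t → t = 0) := by decide
  have e01 := (key (M 0 1)).2 (by
    have := congrArg (fun X : Matrix (Fin 4) (Fin 4) K => X 0 1) h1
    simpa [Matrix.mul_apply, Fin.sum_univ_four] using this)
  have e02 := (key (M 0 2)).2 (by
    have := congrArg (fun X : Matrix (Fin 4) (Fin 4) K => X 0 2) h1
    simpa [Matrix.mul_apply, Fin.sum_univ_four] using this)
  have e03 := (key (M 0 3)).2 (by
    have := congrArg (fun X : Matrix (Fin 4) (Fin 4) K => X 0 3) h1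
    simpa [Matrix.mul_apply, Fin.sum_univ_four] using this)
  have e10 := (key (M 1 0)).1 (by
    have := congrArg (fun X : Matrix (Fin 4) (Fin 4) K => X 1 0) h1
    simpa [Matrix.mul_apply, Fin.sum_univ_four] using this)
  have e20 := (key (M 2 0)).1 (by
    have := congrArg (fun X : Matrix (Fin 4) (Fin 4) K => X 2 0) h1
    simpa [Matrix.mul_apply, Fin.sum_univ_four] using this)
  have e30 := (key (M 3 0)).1 (by
    have := congrArg (fun X : Matrix (Fin 4) (Fin 4) K => X 3 0) h1
    simpa [Matrix.mul_apply, Fin.sum_univ_four] using this)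
  ext i j
  fin_cases i <;> fin_cases j <;>
    simp [aMat, Matrix.mul_apply, Fin.sum_univ_four, e01, e02, e03, e10, e20, e30, mul_comm]

/-- The determinant-one subgroup. -/
def LL : Subgroup GG := (GeneralLinearGroup.det : GG →* Kˣ).ker

lemma mem_LL (g : GG) : g ∈ LL ↔ (g : Matrix (Fin 4) (Fin 4) K).det = 1 := by
  unfold LL
  rw [MonoidHom.mem_ker, Units.ext_iff]
  rfl

lemma exists_toGL {n R : Type*} [Fintype n] [DecidableEq n] [CommRing R] (g : GL n R)
    (hg : (g : Matrix n n R).det = 1) : ∃ s : SpecialLinearGroup n R, toGL s = g := by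
  refine ⟨(⟨g.val, hg⟩ : SpecialLinearGroup n R), ?_⟩
  apply Units.ext
  rfl

lemma LL_eq_range : LL = (toGL : SpecialLinearGroup (Fin 4) K →* GG).range := by
  ext g
  rw [mem_LL]
  constructor
  · intro hg
    exact exists_toGL g hg
  · rintro ⟨s, rfl⟩
    exact s.2

lemma pow_four (c : K) : c ^ 4 ≠ 0 → c ^ 4 = 1 := by
  revert c
  decide

/-- an element centralising `SL` is scalar, so has determinant one. -/
lemma centralizer_le : Subgroup.centralizer (LL : Set GG) ≤ LL := by
  intro g hg
  rw [Subgroup.mem_centralizer_iff] at hg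
  have hs : (g : Matrix (Fin 4) (Fin 4) K) ∈ Set.range (Matrix.scalar (Fin 4)) := by
    apply Matrix.mem_range_scalar_of_commute_transvectionStruct
    intro t
    have ht : toGL t.toSpecialLinearGroup ∈ LL := by
      rw [LL_eq_range]; exact ⟨_, rfl⟩
    exact congrArg Units.val (hg _ ht)
  obtain ⟨c, hc⟩ := hs
  rw [mem_LL]
  have hu : (g : Matrix (Fin 4) (Fin 4) K).det ≠ 0 := GeneralLinearGroup.det_ne_zero g
  rw [← hc] at hu ⊢
  simp only [scalar_apply, det_diagonal, Finset.prod_const, Finset.card_univ, Fintype.card_fin] at hu ⊢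
  exact pow_four c hu

lemma aMat_det : aMat.det = 2 := by
  simp [aMat, Matrix.det_succ_row_zero, Fin.sum_univ_succ]

lemma a_pow_det (k : ℕ) : (((a ^ k : GG) : Matrix (Fin 4) (Fin 4) K)).det = 2 ^ k := by
  rw [Units.val_pow_eq_pow_val, Matrix.det_pow]
  exact congrArg (fun t : K => t ^ k) aMat_det

lemma A_inf_LL (x : GG) (hx : x ∈ Subgroup.zpowers a) (hL : x ∈ LL) : x = 1 := by
  rw [mem_LL] at hL
  rcases mem_A x hx with h | h | h | h
  · exact h
  · exfalso
    rw [h, ← pow_one a, a_pow_det] at hL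
    revert hL; decide
  · exfalso
    rw [h, a_pow_det] at hL
    revert hL; decide
  · exfalso
    rw [h, a_pow_det] at hL
    revert hL; decide


/-- the cyclic group generated by `a` is a TI-subgroup. -/
lemma TI_A : ∀ g : GG, (∀ x ∈ Subgroup.zpowers a, g * x * g⁻¹ ∈ Subgroup.zpowers a → x = 1) ∨
    (∀ x ∈ Subgroup.zpowers a, g * x * g⁻¹ ∈ Subgroup.zpowers a) := by
  intro g
  by_cases hg : g * a ^ 2 = a ^ 2 * g
  · right
    intro x hx
    have hc : Commute g a := comm_of_comm_sq g hg
    obtain ⟨k, rfl⟩ := hx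
    have h2 : g * a ^ k * g⁻¹ = a ^ k := by
      rw [(hc.zpow_right k).eq, mul_assoc, mul_inv_cancel, mul_one]
    show g * a ^ k * g⁻¹ ∈ _
    rw [h2]
    exact ⟨k, rfl⟩
  · left
    intro x hx hgx
    by_contra hne
    apply hg
    -- it suffices that `g a^2 g⁻¹ ∈ A`
    have hz : g * a ^ 2 * g⁻¹ ∈ Subgroup.zpowers a := by
      rcases mem_A x hx with h | h | h | h
      · exact absurd h hne
      · have : g * a ^ 2 * g⁻¹ = (g * x * g⁻¹) ^ 2 := by
          rw [h, conj_pow]
        rw [this]
        exact Subgroup.pow_mem _ hgx 2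
      · rw [← h]
        exact hgx
      · have h6 : (a ^ 3) ^ 2 = a ^ 2 := by
          rw [← pow_mul, show 3 * 2 = 4 + 2 by norm_num, pow_add, a_pow4, one_mul]
        have : g * a ^ 2 * g⁻¹ = (g * x * g⁻¹) ^ 2 := by
          rw [h, conj_pow, h6]
        rw [this]
        exact Subgroup.pow_mem _ hgx 2
    have hsq : (g * a ^ 2 * g⁻¹) ^ 2 = 1 := by
      rw [conj_pow, ← pow_mul, a_pow4]
      simp
    have hne2 : g * a ^ 2 * g⁻¹ ≠ 1 := by
      intro h1
      apply a_sq_ne
      have := congrArg (fun t => g⁻¹ * t * g) h1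
      simpa [mul_assoc] using this
    have hz2 : g * a ^ 2 * g⁻¹ = a ^ 2 := by
      rcases mem_A _ hz with h | h | h | h
      · exact absurd h hne2
      · rw [h] at hsq
        exact absurd hsq a_sq_ne
      · exact h
      · rw [h] at hsq
        exfalso
        apply a_sq_ne
        have h6 : (a ^ 3) ^ 2 = a ^ 2 := by
          rw [← pow_mul, show 3 * 2 = 4 + 2 by norm_num, pow_add, a_pow4, one_mul]
        rw [← h6]
        exact hsq
    calc g * a ^ 2 = g * a ^ 2 * g⁻¹ * g := by simp [mul_assoc]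
      _ = a ^ 2 * g := by rw [hz2]

lemma tr_mem {i j : Fin 4} (hij : i ≠ j) (c : K) :
    (toGL (transvection hij c) : GG) ∈ LL := by
  rw [LL_eq_range]
  exact ⟨_, rfl⟩

lemma LL_ne_bot : LL ≠ ⊥ := by
  intro h
  have h01 : (0 : Fin 4) ≠ 1 := by decide
  have h1 := tr_mem h01 1
  rw [h, Subgroup.mem_bot] at h1
  have h2 : (transvection h01 (1 : K)) = 1 := toGL_injective (by rw [h1, map_one])
  have h3 : (transvection h01 (1 : K)) ∈ Subgroup.center (SpecialLinearGroup (Fin 4) K) := by
    rw [h2]; exact one_mem _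
  rw [transvection_mem_center_iff] at h3
  revert h3
  decide

lemma LL_perfect : ⁅LL, LL⁆ = LL := by
  rw [LL_eq_range, MonoidHom.range_eq_map, ← Subgroup.map_commutator]
  congr 1
  exact commutator_eq_top

lemma LL_quasi : ∀ N : Subgroup GG, N ≤ LL → (∀ l ∈ LL, ∀ n ∈ N, l * n * l⁻¹ ∈ N) →
    N = LL ∨ N ≤ Subgroup.centralizer (LL : Set GG) := by
  intro N hN hnorm
  have : (N.comap (toGL : SpecialLinearGroup (Fin 4) K →* GG)).Normal := by
    constructor
    intro n hn g
    rw [Subgroup.mem_comap] at hn ⊢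
    rw [map_mul, map_mul, map_inv]
    apply hnorm _ _ _ hn
    rw [LL_eq_range]
    exact ⟨g, rfl⟩
  rcases normal_dichotomy (N.comap (toGL : SpecialLinearGroup (Fin 4) K →* GG)) with h | h
  · left
    refine le_antisymm hN ?_
    intro x hx
    rw [LL_eq_range] at hx
    obtain ⟨s, rfl⟩ := hx
    have : s ∈ N.comap (toGL : SpecialLinearGroup (Fin 4) K →* GG) := by
      rw [h]; exact Subgroup.mem_top _
    exact this
  · right
    intro x hx
    have hxL := hN hx
    rw [LL_eq_range] at hxL
    obtain ⟨s, rfl⟩ := hxL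
    have hs : s ∈ Subgroup.center (SpecialLinearGroup (Fin 4) K) := h hx
    rw [Subgroup.mem_centralizer_iff]
    intro y hy
    have hy' : y ∈ LL := hy
    rw [LL_eq_range] at hy'
    obtain ⟨t, rfl⟩ := hy'
    rw [← map_mul, ← map_mul, Subgroup.mem_center_iff.mp hs t]

lemma not_centralizes : ¬ Subgroup.zpowers a ≤ Subgroup.centralizer (LL : Set GG) := by
  intro h
  have ha : a ∈ Subgroup.centralizer (LL : Set GG) := h (Subgroup.mem_zpowers a)
  have haL : a ∈ LL := centralizer_le ha
  have h1 : a = 1 := A_inf_LL a (Subgroup.mem_zpowers a) haL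
  apply a_sq_ne
  rw [h1, one_pow]

/-- The negation of the preceding statement: In a finite group G, if a cyclic subgroup A of order 4 is a TI-subgroup and L is a component (subnormal quasisimple subgroup) with A meeting L·C(L) trivially, then A centralizes L. -/
theorem result :
    ¬ (∀ (G : Type) [Group G] [Finite G] (A L : Subgroup G),
      IsCyclic A → Nat.card A = 4 →
      (∀ g : G, (∀ x ∈ A, g * x * g⁻¹ ∈ A → x = 1) ∨ (∀ x ∈ A, g * x * g⁻¹ ∈ A)) →
      L ≠ ⊥ →
      ⁅L, L⁆ = L →
      (∀ N : Subgroup G, N ≤ L → (∀ l ∈ L, ∀ n ∈ N, l * n * l⁻¹ ∈ N) →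
          N = L ∨ N ≤ Subgroup.centralizer (L : Set G)) →
      (∃ n : ℕ, ∃ H : ℕ → Subgroup G, H 0 = L ∧ H n = ⊤ ∧
          ∀ i < n, H i ≤ H (i + 1) ∧ ∀ x ∈ H (i + 1), ∀ y ∈ H i, x * y * x⁻¹ ∈ H i) →
      A ⊓ (L ⊔ Subgroup.centralizer (L : Set G)) = ⊥ →
      A ≤ Subgroup.centralizer (L : Set G)) := by
  intro h
  have hcent := h GG (Subgroup.zpowers a) LL inferInstance
    (by rw [Nat.card_zpowers, order_a]) TI_A LL_ne_bot LL_perfect LL_quasi
    ⟨1, fun i => if i = 0 then LL else ⊤, by simp, by simp, ?_⟩ ?_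
  · exact not_centralizes hcent
  · intro i hi
    have hi0 : i = 0 := by omega
    subst hi0
    refine ⟨?_, ?_⟩
    · intro x _
      simp
    · intro x _ y hy
      simp only [if_true] at hy ⊢
      exact (MonoidHom.normal_ker _).conj_mem y hy x
  · rw [eq_bot_iff]
    rintro x ⟨hxA, hxL⟩
    have hle : LL ⊔ Subgroup.centralizer (LL : Set GG) ≤ LL := sup_le le_rfl centralizer_le
    rw [Subgroup.mem_bot]
    exact A_inf_LL x hxA (hle hxL)

end Pool.Agent.S03280
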