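import Pool.Statements.S03306

set_option autoImplicit false
open Pool Pool.MP_e05a1e_al

namespace Pool.Agent.S03306

open Matrix

noncomputable section

variable {K : Type} [Field K]

/-- The special linear group as a subgroup of the general linear group. -/
def H (K : Type) [Field K] : Subgroup (GL (Fin 2) K) :=
  (Matrix.SpecialLinearGroup.toGL : Matrix.SpecialLinearGroup (Fin 2) K →* GL (Fin 2) K).range

lemma mem_H (g : GL (Fin 2) K) : g ∈ H K ↔ (g : Matrix (Fin 2) (Fin 2) K).det = 1 := by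
  constructor
  · rintro ⟨s, rfl⟩
    exact s.2
  · intro h
    exact ⟨⟨g, h⟩, Units.ext rfl⟩

/-- The isomorphism between the two forms of the special linear group. -/
def eH (K : Type) [Field K] : Matrix.SpecialLinearGroup (Fin 2) K ≃* H K :=
  MonoidHom.ofInjective Matrix.SpecialLinearGroup.toGL_injective

/-! ### The word and the trace computation -/

/-- trace of an element of the special linear group -/
def T (M : Matrix.SpecialLinearGroup (Fin 2) K) : K :=
  Matrix.trace (M : Matrix (Fin 2) (Fin 2) K)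

lemma T_mul_comm (A B : Matrix.SpecialLinearGroup (Fin 2) K) : T (A * B) = T (B * A) := by
  simp only [T, Matrix.SpecialLinearGroup.coe_mul]
  exact Matrix.trace_mul_comm _ _

lemma T_conj (A B : Matrix.SpecialLinearGroup (Fin 2) K) : T (B * A * B⁻¹) = T A := by
  rw [T_mul_comm, ← mul_assoc, inv_mul_cancel, one_mul]

lemma T_conj' (A B : Matrix.SpecialLinearGroup (Fin 2) K) : T (B⁻¹ * A * B) = T A := by
  rw [T_mul_comm, ← mul_assoc, mul_inv_cancel, one_mul]

lemma sq_eq (h2 : (2 : K) = 0) (M : Matrix.SpecialLinearGroup (Fin 2) K) :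
    (M : Matrix (Fin 2) (Fin 2) K) * (M : Matrix (Fin 2) (Fin 2) K) =
    T M • (M : Matrix (Fin 2) (Fin 2) K) + 1 := by
  have hdet := M.2
  rw [Matrix.det_fin_two] at hdet
  ext i j
  fin_cases i <;> fin_cases j
  · simp [T, Matrix.trace_fin_two, Matrix.mul_apply, Fin.sum_univ_two]
    linear_combination (-1 : K) * hdet - h2
  · simp [T, Matrix.trace_fin_two, Matrix.mul_apply, Fin.sum_univ_two]
    ring
  · simp [T, Matrix.trace_fin_two, Matrix.mul_apply, Fin.sum_univ_two]
    ring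
  · simp [T, Matrix.trace_fin_two, Matrix.mul_apply, Fin.sum_univ_two]
    linear_combination (-1 : K) * hdet - h2

lemma sq_one (h2 : (2 : K) = 0) (M : Matrix.SpecialLinearGroup (Fin 2) K) (h : T M = 0) :
    M * M = 1 := by
  apply Subtype.ext
  rw [Matrix.SpecialLinearGroup.coe_mul, sq_eq h2 M, h, zero_smul, zero_add]
  rfl

/-- the trace of a product of two squares of elements with equal trace -/
lemma T_sq_sq (h2 : (2 : K) = 0) (A B : Matrix.SpecialLinearGroup (Fin 2) K) (h : T A = T B) :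
    T (A * A * (B * B)) = T A ^ 2 * T (A * B) := by
  have h1 : ((A * A * (B * B) : Matrix.SpecialLinearGroup (Fin 2) K) :
      Matrix (Fin 2) (Fin 2) K) =
      (T A • (A : Matrix (Fin 2) (Fin 2) K) + 1) * (T A • (B : Matrix (Fin 2) (Fin 2) K) + 1) := by
    rw [Matrix.SpecialLinearGroup.coe_mul, Matrix.SpecialLinearGroup.coe_mul,
      Matrix.SpecialLinearGroup.coe_mul, sq_eq h2 A, sq_eq h2 B, h]
  have hA : Matrix.trace (A : Matrix (Fin 2) (Fin 2) K) = T A := rfl
  have hB : Matrix.trace (B : Matrix (Fin 2) (Fin 2) K) = T A := h.symm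
  have hAB : Matrix.trace ((A : Matrix (Fin 2) (Fin 2) K) * (B : Matrix (Fin 2) (Fin 2) K)) =
      T (A * B) := rfl
  have h3 : T (A * A * (B * B)) =
      Matrix.trace ((A * A * (B * B) : Matrix.SpecialLinearGroup (Fin 2) K) :
        Matrix (Fin 2) (Fin 2) K) := rfl
  rw [h3, h1, mul_add, add_mul, add_mul, mul_one, mul_one, one_mul, Matrix.smul_mul,
    Matrix.mul_smul, Matrix.trace_add, Matrix.trace_add, Matrix.trace_add, Matrix.trace_smul,
    Matrix.trace_smul, Matrix.trace_smul, Matrix.trace_smul, hA, hB, hAB, Matrix.trace_one]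
  simp only [smul_eq_mul, Fintype.card_fin, Nat.cast_ofNat]
  linear_combination (T A ^ 2 + 1) * h2

/-- The key fact: the product `X Y X² Y X Y²` of elements of equal trace is never a nontrivial
element of trace zero. -/
lemma key (h2 : (2 : K) = 0) (X Y : Matrix.SpecialLinearGroup (Fin 2) K) (h : T X = T Y)
    (h0 : T (X * Y * X * X * Y * X * Y * Y) = 0) :
    X * Y * X * X * Y * X * Y * Y = 1 := by
  obtain ⟨P, hP⟩ : ∃ P, P = X * Y := ⟨_, rfl⟩
  obtain ⟨P', hP'⟩ : ∃ P', P' = Y⁻¹ * P * Y := ⟨_, rfl⟩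
  have hW : X * Y * X * X * Y * X * Y * Y = P * P * (P' * P') := by
    rw [hP', hP]; group
  have hTP : T P = T P' := by rw [hP', T_conj']
  have hPP' : P * P' = X * X * (Y * Y) := by
    rw [hP', hP]; group
  have hcalc : T (X * Y * X * X * Y * X * Y * Y) = T P ^ 2 * (T X ^ 2 * T P) := by
    rw [hW, T_sq_sq h2 P P' hTP, hPP', T_sq_sq h2 X Y h, ← hP]
  rw [hcalc] at h0
  have hcases : T P = 0 ∨ T X = 0 := by
    rcases mul_eq_zero.1 h0 with h1 | h1
    · exact Or.inl (pow_eq_zero_iff (two_ne_zero) |>.1 h1)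
    · rcases mul_eq_zero.1 h1 with h2 | h2
      · exact Or.inr (pow_eq_zero_iff (two_ne_zero) |>.1 h2)
      · exact Or.inl h2
  rcases hcases with hc | hc
  · rw [hW, sq_one h2 P hc, sq_one h2 P' (hTP ▸ hc), one_mul]
  · have hX := sq_one h2 X hc
    have hY := sq_one h2 Y (h ▸ hc)
    calc X * Y * X * X * Y * X * Y * Y = X * Y * (X * X) * Y * X * (Y * Y) := by group
      _ = X * Y * 1 * Y * X * 1 := by rw [hX, hY]
      _ = X * (Y * Y) * X := by group
      _ = 1 := by rw [hY, mul_one, hX]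

/-- the word -/
def w : FreeGroup (Fin 2) :=
  let x : FreeGroup (Fin 2) := FreeGroup.of 0
  let y : FreeGroup (Fin 2) := FreeGroup.of 1 * FreeGroup.of 0 * (FreeGroup.of 1)⁻¹
  x * y * x * x * y * x * y * y

lemma map_w {G : Type*} [Group G] (φ : FreeGroup (Fin 2) →* G) :
    φ w = φ (FreeGroup.of 0) * (φ (FreeGroup.of 1) * φ (FreeGroup.of 0) * (φ (FreeGroup.of 1))⁻¹) *
      φ (FreeGroup.of 0) * φ (FreeGroup.of 0) *
      (φ (FreeGroup.of 1) * φ (FreeGroup.of 0) * (φ (FreeGroup.of 1))⁻¹) * φ (FreeGroup.of 0) *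
      (φ (FreeGroup.of 1) * φ (FreeGroup.of 0) * (φ (FreeGroup.of 1))⁻¹) *
      (φ (FreeGroup.of 1) * φ (FreeGroup.of 0) * (φ (FreeGroup.of 1))⁻¹) := by
  simp only [w, map_mul, map_inv]

/-! ### The word is not a proper power -/

lemma w_ne_sq (u : FreeGroup (Fin 2)) : w ≠ u * u := by
  intro h
  let A : Matrix.SpecialLinearGroup (Fin 2) (ZMod 5) := ⟨!![0, 1; 4, 1], by decide⟩
  let B : Matrix.SpecialLinearGroup (Fin 2) (ZMod 5) := ⟨!![0, 1; 4, 0], by decide⟩
  let φ : FreeGroup (Fin 2) →* Matrix.SpecialLinearGroup (Fin 2) (ZMod 5) :=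
    FreeGroup.lift ![A, B]
  have h0 : φ (FreeGroup.of 0) = A := by simp [φ]
  have h1 : φ (FreeGroup.of 1) = B := by simp [φ]
  have hw : φ w = A * (B * A * B⁻¹) * A * A * (B * A * B⁻¹) * A * (B * A * B⁻¹) *
      (B * A * B⁻¹) := by rw [map_w, h0, h1]
  have htr : Matrix.trace (φ w : Matrix (Fin 2) (Fin 2) (ZMod 5)) = 1 := by
    rw [hw]
    decide
  have hsq : ∀ M : Matrix.SpecialLinearGroup (Fin 2) (ZMod 5),
      Matrix.trace ((M * M : Matrix.SpecialLinearGroup (Fin 2) (ZMod 5)) :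
        Matrix (Fin 2) (Fin 2) (ZMod 5)) =
      Matrix.trace (M : Matrix (Fin 2) (Fin 2) (ZMod 5)) ^ 2 - 2 := by
    intro M
    have hdet := M.2
    rw [Matrix.det_fin_two] at hdet
    rw [Matrix.SpecialLinearGroup.coe_mul, Matrix.trace_fin_two, Matrix.trace_fin_two,
      Matrix.mul_apply, Matrix.mul_apply, Fin.sum_univ_two, Fin.sum_univ_two]
    linear_combination (-2 : ZMod 5) * hdet
  rw [h, map_mul, hsq] at htr
  revert htr
  generalize Matrix.trace (φ u : Matrix (Fin 2) (Fin 2) (ZMod 5)) = t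
  revert t
  decide

lemma w_not_pow (v : FreeGroup (Fin 2)) (k : ℕ) (hk : 2 ≤ k) : w ≠ v ^ k := by
  intro h
  let ψ : FreeGroup (Fin 2) →* Multiplicative ℤ :=
    FreeGroup.lift ![Multiplicative.ofAdd 1, 1]
  have h0 : ψ (FreeGroup.of 0) = Multiplicative.ofAdd 1 := by simp [ψ]
  have h1 : ψ (FreeGroup.of 1) = 1 := by simp [ψ]
  have hw : ψ w = Multiplicative.ofAdd 8 := by
    rw [map_w, h0, h1]; rfl
  rw [h, map_pow] at hw
  have h8 : (k : ℤ) * Multiplicative.toAdd (ψ v) = 8 := by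
    have := congrArg Multiplicative.toAdd hw
    rw [toAdd_pow] at this
    simpa using this
  have hdvd : k ∣ 8 := by
    have : (k : ℤ) ∣ 8 := ⟨_, h8.symm⟩
    exact_mod_cast this
  have hle : k ≤ 8 := Nat.le_of_dvd (by norm_num) hdvd
  have heven : Even k := by
    interval_cases k <;> revert hdvd <;> decide
  obtain ⟨j, rfl⟩ := heven
  rw [pow_add] at h
  exact w_ne_sq _ h

/-! ### Simplicity -/

lemma center_eq_bot (h2 : (2 : K) = 0) :
    Subgroup.center (Matrix.SpecialLinearGroup (Fin 2) K) = ⊥ := by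
  rw [eq_bot_iff]
  intro g hg
  rw [Matrix.SpecialLinearGroup.mem_center_iff] at hg
  obtain ⟨r, hr, hg⟩ := hg
  have hr1 : r = 1 := by
    have h3 : (r - 1) ^ 2 = 0 := by
      rw [Fintype.card_fin] at hr
      linear_combination hr + (1 - r) * h2
    have h4 : r - 1 = 0 := pow_eq_zero_iff (two_ne_zero) |>.1 h3
    exact sub_eq_zero.1 h4
  rw [Subgroup.mem_bot]
  apply Subtype.ext
  rw [← hg, hr1, map_one]
  rfl

lemma simple_SL2 [Infinite K] (h2 : (2 : K) = 0) :
    IsSimpleGroup (Matrix.SpecialLinearGroup (Fin 2) K) := by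
  classical
  obtain ⟨a, ha⟩ := Infinite.exists_notMem_finset ({0, 1} : Finset K)
  simp only [Finset.mem_insert, Finset.mem_singleton, not_or] at ha
  have ha2 : a ^ 2 ≠ 1 := by
    intro h
    have h3 : (a - 1) ^ 2 = 0 := by linear_combination h + (1 - a) * h2
    have h4 : a - 1 = 0 := pow_eq_zero_iff (two_ne_zero) |>.1 h3
    exact ha.2 (sub_eq_zero.1 h4)
  have hs : IsSimpleGroup (Matrix.ProjectiveSpecialLinearGroup (Fin 2) K) :=
    Matrix.ProjectiveSpecialLinearGroup.rank_two_simple' ⟨a, ha.1, ha2⟩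
  have e1 : Matrix.ProjectiveSpecialLinearGroup (Fin 2) K ≃*
      (Matrix.SpecialLinearGroup (Fin 2) K ⧸
        (⊥ : Subgroup (Matrix.SpecialLinearGroup (Fin 2) K))) :=
    QuotientGroup.quotientMulEquivOfEq (center_eq_bot h2)
  have e2 : Matrix.SpecialLinearGroup (Fin 2) K ≃* Matrix.ProjectiveSpecialLinearGroup (Fin 2) K :=
    (e1.trans QuotientGroup.quotientBot).symm
  exact e2.isSimpleGroup

lemma simple_H [Infinite K] (h2 : (2 : K) = 0) : IsSimpleGroup (H K) := by
  have := simple_SL2 h2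
  exact (eH K).symm.isSimpleGroup

/-! ### Closedness and irreducibility -/

/-- the defining equation of the special linear group -/
def detPol (K : Type) [Field K] : MvPolynomial (Fin 2 × Fin 2) K :=
  MvPolynomial.X (0, 0) * MvPolynomial.X (1, 1) - MvPolynomial.X (0, 1) * MvPolynomial.X (1, 0) - 1

/-- the parametrisation by lower and upper unitriangular matrices, entries as polynomials -/
def par (K : Type) [Field K] : Matrix (Fin 2) (Fin 2) (MvPolynomial (Fin 4) K) :=
  !![1, 0; MvPolynomial.X 0, 1] * !![1, MvPolynomial.X 1; 0, 1] *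
    !![1, 0; MvPolynomial.X 2, 1] * !![1, MvPolynomial.X 3; 0, 1]

/-- the value of the parametrisation -/
def parv (t : Fin 4 → K) : Matrix (Fin 2) (Fin 2) K :=
  !![1, 0; t 0, 1] * !![1, t 1; 0, 1] * !![1, 0; t 2, 1] * !![1, t 3; 0, 1]

lemma parv_eq (t : Fin 4 → K) (i j : Fin 2) : MvPolynomial.eval t (par K i j) = parv t i j := by
  fin_cases i <;> fin_cases j <;>
    simp [par, parv, Matrix.mul_apply, Fin.sum_univ_two]

lemma det_parv (t : Fin 4 → K) : (parv t).det = 1 := by
  rw [parv, Matrix.det_mul, Matrix.det_mul, Matrix.det_mul, Matrix.det_fin_two_of,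
    Matrix.det_fin_two_of, Matrix.det_fin_two_of, Matrix.det_fin_two_of]
  ring

lemma parv_surj (M : Matrix (Fin 2) (Fin 2) K) (hM : M.det = 1) : ∃ t : Fin 4 → K, parv t = M := by
  rw [Matrix.det_fin_two] at hM
  by_cases hc : M 1 0 = 0
  · have ha : M 0 0 ≠ 0 := by
      intro ha
      rw [hc, ha] at hM
      simp at hM
    refine ⟨![-1, (M 0 0 - 1) / M 0 0, M 0 0, (M 1 1 + M 0 1 - 1) / M 0 0], ?_⟩
    ext i j
    fin_cases i <;> fin_cases j
    · simp [parv, Matrix.mul_apply, Fin.sum_univ_two]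
      field_simp
      ring
    · simp [parv, Matrix.mul_apply, Fin.sum_univ_two]
      field_simp
      rw [hc] at hM
      linear_combination hM
    · simp [parv, Matrix.mul_apply, Fin.sum_univ_two]
      rw [hc]
      field_simp
      ring
    · simp [parv, Matrix.mul_apply, Fin.sum_univ_two]
      field_simp
      rw [hc] at hM
      linear_combination - hM
  · refine ⟨![0, (M 0 0 - 1) / M 1 0, M 1 0, (M 1 1 - 1) / M 1 0], ?_⟩
    ext i j
    fin_cases i <;> fin_cases j
    · simp [parv, Matrix.mul_apply, Fin.sum_univ_two]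
      field_simp
      ring
    · simp [parv, Matrix.mul_apply, Fin.sum_univ_two]
      field_simp
      linear_combination hM
    · simp [parv, Matrix.mul_apply, Fin.sum_univ_two]
    · simp [parv, Matrix.mul_apply, Fin.sum_univ_two]
      field_simp
      ring

/-- substitution of the parametrisation -/
def sub (K : Type) [Field K] : MvPolynomial (Fin 2 × Fin 2) K →ₐ[K] MvPolynomial (Fin 4) K :=
  MvPolynomial.aeval (fun ij : Fin 2 × Fin 2 => par K ij.1 ij.2)

lemma eval_sub (t : Fin 4 → K) (p : MvPolynomial (Fin 2 × Fin 2) K) :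
    MvPolynomial.eval t (sub K p) =
      MvPolynomial.eval (fun ij : Fin 2 × Fin 2 => parv t ij.1 ij.2) p := by
  have h : (MvPolynomial.aeval t).comp (sub K) =
      (MvPolynomial.aeval (fun ij : Fin 2 × Fin 2 => parv t ij.1 ij.2) :
        MvPolynomial (Fin 2 × Fin 2) K →ₐ[K] K) := by
    apply MvPolynomial.algHom_ext
    intro ij
    simp only [AlgHom.comp_apply, sub, MvPolynomial.aeval_X]
    exact parv_eq t ij.1 ij.2
  have h' := DFunLike.congr_fun h p
  simpa [MvPolynomial.aeval_eq_eval] using h'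

lemma irred [Infinite K] (p q : MvPolynomial (Fin 2 × Fin 2) K)
    (h : ∀ g ∈ H K, MvPolynomial.eval
      (fun ij : Fin 2 × Fin 2 => (↑g : Matrix (Fin 2) (Fin 2) K) ij.1 ij.2) (p * q) = 0) :
    (∀ g ∈ H K, MvPolynomial.eval
      (fun ij : Fin 2 × Fin 2 => (↑g : Matrix (Fin 2) (Fin 2) K) ij.1 ij.2) p = 0) ∨
    (∀ g ∈ H K, MvPolynomial.eval
      (fun ij : Fin 2 × Fin 2 => (↑g : Matrix (Fin 2) (Fin 2) K) ij.1 ij.2) q = 0) := by
  have hev : ∀ t : Fin 4 → K,
      MvPolynomial.eval (fun ij : Fin 2 × Fin 2 => parv t ij.1 ij.2) (p * q) = 0 := by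
    intro t
    exact h (Matrix.SpecialLinearGroup.toGL
      (⟨parv t, det_parv t⟩ : Matrix.SpecialLinearGroup (Fin 2) K)) ⟨_, rfl⟩
  have h0 : sub K (p * q) = 0 := by
    apply MvPolynomial.funext
    intro t
    rw [eval_sub, hev t, map_zero]
  rw [map_mul] at h0
  have hfin : ∀ r : MvPolynomial (Fin 2 × Fin 2) K, sub K r = 0 → ∀ g ∈ H K, MvPolynomial.eval
      (fun ij : Fin 2 × Fin 2 => (↑g : Matrix (Fin 2) (Fin 2) K) ij.1 ij.2) r = 0 := by
    intro r hr g hg
    obtain ⟨t, ht⟩ := parv_surj (g : Matrix (Fin 2) (Fin 2) K) ((mem_H g).1 hg)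
    have := eval_sub t r
    rw [hr, map_zero, ht] at this
    exact this.symm
  rcases mul_eq_zero.1 h0 with h1 | h1
  · exact Or.inl (hfin p h1)
  · exact Or.inr (hfin q h1)

lemma closed : ∃ S : Set (MvPolynomial (Fin 2 × Fin 2) K), ∀ g : GL (Fin 2) K,
    g ∈ H K ↔ ∀ p ∈ S,
      MvPolynomial.eval (fun ij : Fin 2 × Fin 2 => (↑g : Matrix (Fin 2) (Fin 2) K) ij.1 ij.2) p =
        0 := by
  refine ⟨{detPol K}, fun g => ?_⟩
  rw [mem_H, Matrix.det_fin_two]
  simp only [Set.mem_singleton_iff, forall_eq, detPol, map_sub, map_mul, MvPolynomial.eval_X,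
    map_one]
  exact sub_eq_zero.symm

/-- a nontrivial unipotent element -/
def U (K : Type) [Field K] : Matrix.SpecialLinearGroup (Fin 2) K :=
  ⟨!![1, 1; 0, 1], by simp [Matrix.det_fin_two_of]⟩

lemma U_ne_one : U K ≠ 1 := by
  intro h
  have h1 := congrArg (fun M : Matrix.SpecialLinearGroup (Fin 2) K =>
    (M : Matrix (Fin 2) (Fin 2) K) 0 1) h
  simp [U] at h1

lemma T_U (h2 : (2 : K) = 0) : T (U K) = 0 := by
  simp only [T, U, Matrix.trace_fin_two_of]
  linear_combination h2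

/-- the nontrivial unipotent element is not a value of the word map -/
lemma not_value (h2 : (2 : K) = 0) (x : Fin 2 → H K) : FreeGroup.lift x w ≠ eH K (U K) := by
  intro hx
  let φ : FreeGroup (Fin 2) →* Matrix.SpecialLinearGroup (Fin 2) K :=
    ((eH K).symm : H K →* Matrix.SpecialLinearGroup (Fin 2) K).comp (FreeGroup.lift x)
  have hφ : φ w = U K := by
    have : φ w = (eH K).symm (FreeGroup.lift x w) := rfl
    rw [this, hx, MulEquiv.symm_apply_apply]
  rw [map_w] at hφ
  have hT := (T_conj (φ (FreeGroup.of 0)) (φ (FreeGroup.of 1))).symm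
  have hone := key h2 _ _ hT (by rw [hφ]; exact T_U h2)
  rw [hφ] at hone
  exact U_ne_one hone

theorem result :
    ¬ (∀ (K : Type) [Field K] [IsAlgClosed K] (n : ℕ) (H : Subgroup (GL (Fin n) K)),
      (∃ S : Set (MvPolynomial (Fin n × Fin n) K), ∀ g : GL (Fin n) K,
        g ∈ H ↔ ∀ p ∈ S,
          MvPolynomial.eval (fun ij : Fin n × Fin n => (↑g : Matrix (Fin n) (Fin n) K) ij.1 ij.2) p = 0) →
      (∀ p q : MvPolynomial (Fin n × Fin n) K,
        (∀ g ∈ H, MvPolynomial.eval
            (fun ij : Fin n × Fin n => (↑g : Matrix (Fin n) (Fin n) K) ij.1 ij.2) (p * q) = 0) →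
        (∀ g ∈ H, MvPolynomial.eval
            (fun ij : Fin n × Fin n => (↑g : Matrix (Fin n) (Fin n) K) ij.1 ij.2) p = 0) ∨
        (∀ g ∈ H, MvPolynomial.eval
            (fun ij : Fin n × Fin n => (↑g : Matrix (Fin n) (Fin n) K) ij.1 ij.2) q = 0)) →
      IsSimpleGroup H →
      ∀ (d : ℕ) (w : FreeGroup (Fin d)), w ≠ 1 →
        (∀ (v : FreeGroup (Fin d)) (k : ℕ), 2 ≤ k → w ≠ v ^ k) →
        ∀ h : H, ∃ x : Fin d → H, FreeGroup.lift x w = h) := by
  intro hall
  have h2 : (2 : AlgebraicClosure (ZMod 2)) = 0 := CharTwo.two_eq_zero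
  have hw1 : w ≠ 1 := by
    intro h
    exact w_not_pow 1 2 le_rfl (by rw [h, one_pow])
  obtain ⟨x, hx⟩ := hall (AlgebraicClosure (ZMod 2)) 2 (H (AlgebraicClosure (ZMod 2)))
    closed irred (simple_H h2) 2 w hw1 w_not_pow (eH _ (U _))
  exact not_value h2 x hx

end

end Pool.Agent.S03306
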