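import Pool.Statements.S03309
import Pool.Agent.Helper35.YG.Odd
import Pool.Agent.Helper35.YG.Geo3

set_option autoImplicit false
open Pool Pool.MP_e0c532_al

namespace Pool.Agent.S03309

/-- For all m and all n ≥ 1, the group on m generators with relations a_k^n = 1 and (a_k^i a_l^i)^2 = 1 for k<l and 1 ≤ i ≤ n/2 is finite. -/
theorem result :
    ∀ m n : ℕ, 1 ≤ n →
      Finite (PresentedGroup
        {r : FreeGroup (Fin m) |
          (∃ k : Fin m, r = FreeGroup.of k ^ n) ∨
          ∃ k l : Fin m, ∃ i : ℕ, k < l ∧ 1 ≤ i ∧ 2 * i ≤ n ∧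
            r = (FreeGroup.of k ^ i * FreeGroup.of l ^ i) ^ 2}) := by
  intro m n hn
  exact Pool.Agent.Helper35.YG.all_of_geo
    (fun h2 hq q K => Pool.Agent.Helper35.YG.geo h2 hq q K) m n hn

end Pool.Agent.S03309
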