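import Pool.Statements.S03607
import Pool.Agent.Helper5.Core2.Main

set_option autoImplicit false
open Pool Pool.MP_fafe86_al

namespace Pool.Agent.S03607

/-- Every finite 2-group of order greater than 2 in which each subgroup H has index at most 2 over its normal core contains an abelian subgroup of index exactly 4. -/
theorem result :
    ∀ (G : Type) [Group G] [Finite G],
      IsPGroup 2 G → 2 < Nat.card G →
      (∀ H : Subgroup G, (H.normalCore.subgroupOf H).index ≤ 2) →
      ∃ A : Subgroup G, (∀ x ∈ A, ∀ y ∈ A, x * y = y * x) ∧ A.index = 4 := by
  intro G _ _ h2 hcard hcore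
  exact Pool.Agent.Helper5.Core2.final G h2 hcard hcore

end Pool.Agent.S03607
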