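import Pool.Statements.S03646
import Pool.Agent.Helper36.FitT
import Pool.Agent.Helper36.FitCls

set_option autoImplicit false
open Pool Pool.MP_fedac3_al

namespace Pool.Agent.S03646

open Pool.Agent.Helper36.Fit

noncomputable section

abbrev k4 := GaloisField 2 2

abbrev Fn (n : ℕ) := FiniteField.Extension k4 2 (n + 1)

abbrev Hn (n : ℕ) := ↥(TT.HH k4 (Fn n))

/-- the smallest Fitting class containing `Hn n` -/
def fn (n : ℕ) : (H : Type) → [Group H] → Prop := fun H _ =>
  ∀ Q : (H : Type) → [Group H] → Prop, IsFit Q → Q (Hn n) → Q H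

lemma card_k4 : Nat.card k4 = 4 := by
  rw [GaloisField.card 2 2 (by norm_num)]; norm_num

lemma card_Fn (n : ℕ) : Nat.card (Fn n) = 4 ^ (n + 1) := by
  rw [FiniteField.natCard_extension, card_k4]

lemma card_units : Nat.card k4ˣ = 3 := by
  rw [Nat.card_units, card_k4]

lemma pow3 (u : k4ˣ) : u ^ 3 = 1 := by
  rw [← card_units]; exact pow_card_eq_one'

lemma exists_w : ∃ w : k4ˣ, w ≠ 1 := by
  have : Nontrivial k4ˣ := Finite.one_lt_card_iff_nontrivial.mp (by rw [card_units]; norm_num)
  exact exists_ne 1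

lemma add_self (n : ℕ) (z : Fn n) : z + z = 0 := by
  have h : (2 : k4) = 0 := CharP.cast_eq_zero k4 2
  have h' : (2 : Fn n) = 0 := by
    have := congrArg (algebraMap k4 (Fn n)) h
    rwa [map_ofNat, map_zero] at this
  rw [← two_mul, h', zero_mul]

lemma hn_cls (n : ℕ) : Cls (4 ^ (n + 1)) (Hn n) := by
  rw [cls_sub]
  obtain ⟨w, hw⟩ := exists_w
  have := TT.good (k := k4) (F := Fn n) (add_self n) pow3 w hw
  rw [card_Fn] at this
  exact ⟨_, this⟩

lemma cls_hn {N n : ℕ} (h : Cls N (Hn n)) : N = 4 ^ (n + 1) := by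
  rw [cls_sub] at h
  obtain ⟨K, hK⟩ := h
  obtain ⟨w, hw⟩ := exists_w
  rw [TT.good_unique (add_self n) pow3 w hw hK, card_Fn]

lemma fn_isFit (n : ℕ) : IsFit (fn n) := by
  refine ⟨?_, ?_, ?_, ?_⟩
  · intro H _ h
    exact (h _ (cls_isFit (4 ^ (n + 1)) (Nat.one_le_pow _ _ (by norm_num))) (hn_cls n)).1
  · intro H K _ _ e h Q hQ hn
    exact hQ.2.1 H K e (h Q hQ hn)
  · intro H _ N hN h Q hQ hn
    exact hQ.2.2.1 H N hN (h Q hQ hn)
  · intro H _ N M hN hM h h' Q hQ hn
    exact hQ.2.2.2 H N M hN hM (h Q hQ hn) (h' Q hQ hn)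

lemma fn_inj : Function.Injective fn := by
  intro n m h
  have h1 : fn n (Hn n) := fun Q _ hn => hn
  rw [h] at h1
  have h2 := h1 _ (cls_isFit (4 ^ (m + 1)) (Nat.one_le_pow _ _ (by norm_num))) (hn_cls m)
  have h3 := cls_hn h2
  have h4 := Nat.pow_right_injective (by norm_num : 2 ≤ 4) h3
  exact (Nat.succ_injective h4).symm

lemma fn_le (n : ℕ) (Q : (H : Type) → [Group H] → Prop) (hQ : IsFit Q) (h : Q (Aff k4 k4)) :
    ∀ (H : Type) [Group H], fn n H → Q H := by
  intro H _ hH
  exact hH Q hQ (hQ.2.2.1 _ _ inferInstance (TT.fit_TT hQ h))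

instance : Finite (Aff k4 k4) := by
  have : Function.Injective (fun x : Aff k4 k4 => (x.s, x.v)) := by
    intro x y h
    simp only [Prod.mk.injEq] at h
    exact Aff.ext h.1 h.2
  exact Finite.of_injective _ this

lemma solv : IsSolvable (Aff k4 k4) := by
  let f : Multiplicative k4 →* Aff k4 k4 :=
    { toFun := fun x => ⟨1, x.toAdd⟩
      map_one' := rfl
      map_mul' := fun x y => by
        apply Aff.ext
        · exact (one_mul _).symm
        · change x.toAdd + y.toAdd = ((1 : k4ˣ) : k4) • y.toAdd + x.toAdd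
          simp [add_comm] }
  apply solvable_of_ker_le_range f Aff.sHom
  intro x hx
  rw [MonoidHom.mem_ker] at hx
  exact ⟨Multiplicative.ofAdd x.v, Aff.ext hx.symm rfl⟩

end

/-- The negation of the preceding statement: For every finite soluble group G, only finitely many Fitting classes are contained in the smallest Fitting class containing G, so the lattice of Fitting subclasses of the Fitting class generated by G is finite. -/
theorem result :
    ¬ (∀ (G : Type) [Group G] [Finite G], IsSolvable G →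
      {F : (H : Type) → [Group H] → Prop |
        ((∀ (H : Type) [Group H], F H → Finite H) ∧
         (∀ (H K : Type) [Group H] [Group K], Nonempty (H ≃* K) → F H → F K) ∧
         (∀ (H : Type) [Group H] (N : Subgroup H), N.Normal → F H → F ↥N) ∧
         (∀ (H : Type) [Group H] (N M : Subgroup H), N.Normal → M.Normal →
            F ↥N → F ↥M → F ↥(N ⊔ M))) ∧
        ∀ Q : (H : Type) → [Group H] → Prop,
          ((∀ (H : Type) [Group H], Q H → Finite H) ∧
           (∀ (H K : Type) [Group H] [Group K], Nonempty (H ≃* K) → Q H → Q K) ∧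
           (∀ (H : Type) [Group H] (N : Subgroup H), N.Normal → Q H → Q ↥N) ∧
           (∀ (H : Type) [Group H] (N M : Subgroup H), N.Normal → M.Normal →
              Q ↥N → Q ↥M → Q ↥(N ⊔ M))) →
          Q G → ∀ (H : Type) [Group H], F H → Q H}.Finite) := by
  intro hall
  refine Set.infinite_of_injective_forall_mem fn_inj ?_ (hall (Aff k4 k4) solv)
  intro n
  exact ⟨fn_isFit n, fun Q hQ h => fn_le n Q hQ h⟩

end Pool.Agent.S03646
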