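-- Copy of the template for statement S04112, with its proof.
import Pool.Statements.S04112
import Pool.Agent.Helper46.MeanDim.Final
import Pool.Agent.Helper46.MeanDim.MdimZero

set_option autoImplicit false
open scoped ENNReal
open Pool Pool.MP_280436_an

namespace Pool.Agent.S04112

/-- The negation of the preceding statement: For every compact metrizable space with a homeomorphism T, some metric compatible with the topology makes the mean dimension of (X,T) equal to the upper metric mean dimension of (X,T) with respect to that metric. -/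
theorem result :
    ¬ (∀ (X : Type) [TopologicalSpace X] [CompactSpace X] [TopologicalSpace.MetrizableSpace X]
    (T : X ≃ₜ X),
  ∃ d : X → X → ℝ,
    (∀ x y, d x y = 0 ↔ x = y) ∧ (∀ x y, d x y = d y x) ∧
    (∀ x y z, d x z ≤ d x y + d y z) ∧
    (∀ U : Set X, IsOpen U ↔ ∀ x ∈ U, ∃ r > 0, ∀ y, d x y < r → y ∈ U) ∧
    (⨆ (α : Finset (Set X)) (_ : (∀ U ∈ α, IsOpen U) ∧ ⋃₀ (α : Set (Set X)) = Set.univ),
      Filter.limsup (fun n : ℕ =>
        (((sInf {k : ℕ | ∃ β : Finset (Set X), (∀ V ∈ β, IsOpen V) ∧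
            ⋃₀ (β : Set (Set X)) = Set.univ ∧
            (∀ V ∈ β, ∀ i < n, ∃ U ∈ α, V ⊆ (⇑T)^[i] ⁻¹' U) ∧
            ∀ x : X, Set.ncard {V | V ∈ β ∧ x ∈ V} ≤ k + 1} : ℕ) : ℝ≥0∞) / (n : ℝ≥0∞)))
        Filter.atTop)
    = Filter.limsup (fun ε : ℝ =>
        Filter.limsup (fun n : ℕ =>
          ENNReal.ofReal (Real.log ((sInf {k : ℕ | ∃ F : Finset (Set X), F.card = k ∧
            ⋃₀ (F : Set (Set X)) = Set.univ ∧
            ∀ A ∈ F, ∀ x ∈ A, ∀ y ∈ A, ∀ i < n,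
              d ((⇑T)^[i] x) ((⇑T)^[i] y) < ε} : ℕ) : ℝ) / (n : ℝ))) Filter.atTop
        / ENNReal.ofReal (Real.log (1 / ε)))
      (nhdsWithin 0 (Set.Ioi 0))) := by
  intro hall
  obtain ⟨d, h1, h2, h3, h4, h5⟩ :=
    hall Pool.Agent.Helper46.MeanDim.XS Pool.Agent.Helper46.MeanDim.TS
  have hd : Pool.Agent.Helper46.MeanDim.Compat d := ⟨h1, h2, h3, h4⟩
  have hr := Pool.Agent.Helper46.MeanDim.rhs_ge hd
  rw [← h5] at hr
  have hl : (⨆ (α : Finset (Set Pool.Agent.Helper46.MeanDim.XS))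
      (_ : (∀ U ∈ α, IsOpen U) ∧
        ⋃₀ (α : Set (Set Pool.Agent.Helper46.MeanDim.XS)) = Set.univ),
      Filter.limsup (fun n : ℕ =>
        (((sInf {k : ℕ | ∃ β : Finset (Set Pool.Agent.Helper46.MeanDim.XS),
            (∀ V ∈ β, IsOpen V) ∧
            ⋃₀ (β : Set (Set Pool.Agent.Helper46.MeanDim.XS)) = Set.univ ∧
            (∀ V ∈ β, ∀ i < n, ∃ U ∈ α, V ⊆ (⇑Pool.Agent.Helper46.MeanDim.TS)^[i] ⁻¹' U) ∧
            ∀ x : Pool.Agent.Helper46.MeanDim.XS,
              Set.ncard {V | V ∈ β ∧ x ∈ V} ≤ k + 1} : ℕ) : ℝ≥0∞) / (n : ℝ≥0∞)))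
        Filter.atTop) ≤ 0 := by
    apply iSup_le
    intro α
    apply iSup_le
    intro hα
    exact (Pool.Agent.Helper46.MeanDim.limsup_zero hα).le
  have hc := hr.trans hl
  rw [nonpos_iff_eq_zero, ENNReal.ofReal_eq_zero] at hc
  norm_num at hc

end Pool.Agent.S04112
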