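import Pool.Statements.S04412
import Pool.Agent.Helper41.NormalDec

set_option autoImplicit false
open Filter Topology
open Pool Pool.MP_3d1c33_an

namespace Pool.Agent.S04412

open Pool.Agent.Helper41.NormalDec
open scoped ZeroAtInfty ENNReal

section
variable {Γ : Type}

open Classical in
lemma tendsto_kill (ι : ℕ → Idx Γ) (x : C₀(Idx Γ, ℝ)) :
    Tendsto (fun i => if i ∈ Set.range ι then 0 else x i) cofinite (𝓝 0) := by
  refine squeeze_zero_norm (a := fun i => ‖x i‖) (fun i => ?_) ?_
  · split_ifs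
    · simp
    · exact le_rfl
  · have := (tendsto_cofinite x).norm
    rwa [norm_zero] at this

open Classical in
/-- Kill the coordinates in the range of `ι`. -/
noncomputable def V0 (ι : ℕ → Idx Γ) : C₀(Idx Γ, ℝ) →L[ℝ] C₀(Idx Γ, ℝ) :=
  LinearMap.mkContinuous
    { toFun := fun x => mk0 (fun i => if i ∈ Set.range ι then 0 else x i) (tendsto_kill ι x)
      map_add' := fun x y => by
        ext i
        simp only [mk0_apply, ZeroAtInftyContinuousMap.add_apply]
        split_ifs <;> simp
      map_smul' := fun c x => by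
        ext i
        simp only [mk0_apply, ZeroAtInftyContinuousMap.smul_apply, RingHom.id_apply]
        split_ifs <;> simp } 1 (fun x => by
      rw [one_mul]
      refine norm_le_of (norm_nonneg x) (fun i => ?_)
      simp only [LinearMap.coe_mk, AddHom.coe_mk, mk0_apply]
      split_ifs
      · rw [abs_zero]; exact norm_nonneg x
      · exact abs_le_norm x i)

lemma V0_mem (ι : ℕ → Idx Γ) (x : C₀(Idx Γ, ℝ)) (n : ℕ) : V0 ι x (ι n) = 0 := by
  classical
  have : V0 ι x (ι n) = if ι n ∈ Set.range ι then 0 else x (ι n) := rfl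
  rw [this, if_pos ⟨n, rfl⟩]

lemma V0_notMem (ι : ℕ → Idx Γ) (x : C₀(Idx Γ, ℝ)) {i : Idx Γ} (hi : i ∉ Set.range ι) :
    V0 ι x i = x i := by
  classical
  have : V0 ι x i = if i ∈ Set.range ι then 0 else x i := rfl
  rw [this, if_neg hi]

/-- The coordinate projections of a Schauder decomposition of `c₀`. -/
noncomputable def V (ι : ℕ → Idx Γ) : ℕ → C₀(Idx Γ, ℝ) →L[ℝ] C₀(Idx Γ, ℝ)
  | 0 => V0 ι
  | n + 1 => (ev (ι n)).smulRight (e (ι n))

lemma V_succ (ι : ℕ → Idx Γ) (n : ℕ) (x : C₀(Idx Γ, ℝ)) :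
    V ι (n + 1) x = x (ι n) • e (ι n) := rfl

lemma V_zero (ι : ℕ → Idx Γ) (x : C₀(Idx Γ, ℝ)) : V ι 0 x = V0 ι x := rfl

lemma V_ne (ι : ℕ → Idx Γ) (hz : Idx.z ∉ Set.range ι) (n : ℕ) : V ι n ≠ 0 := by
  intro h
  rcases n with _ | n
  · have h1 : V ι 0 (e Idx.z) Idx.z = 0 := by rw [h]; rfl
    rw [V_zero, V0_notMem ι _ hz, e_self] at h1
    exact one_ne_zero h1
  · have h1 : V ι (n + 1) (e (ι n)) = 0 := by rw [h]; rfl
    rw [V_succ, e_self, one_smul] at h1
    exact e_ne_zero _ h1

lemma V0_e (ι : ℕ → Idx Γ) (n : ℕ) : V0 ι (e (ι n)) = 0 := by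
  ext i
  by_cases hi : i ∈ Set.range ι
  · obtain ⟨m, rfl⟩ := hi
    rw [V0_mem]; rfl
  · rw [V0_notMem ι _ hi, e_ne (fun h => hi ⟨n, h.symm⟩)]; rfl

lemma V_orth (ι : ℕ → Idx Γ) (hι : Function.Injective ι) (n m : ℕ) (x : C₀(Idx Γ, ℝ)) :
    V ι n (V ι m x) = if n = m then V ι n x else 0 := by
  rcases n with _ | n <;> rcases m with _ | m
  · rw [if_pos rfl]
    simp only [V_zero]
    ext i
    by_cases hi : i ∈ Set.range ι
    · obtain ⟨k, rfl⟩ := hi
      rw [V0_mem, V0_mem]
    · rw [V0_notMem ι _ hi]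
  · rw [if_neg (by omega), V_zero, V_succ, map_smul, V0_e, smul_zero]
  · rw [if_neg (by omega), V_zero, V_succ, V0_mem, zero_smul]
  · rw [V_succ, V_succ, V_succ]
    by_cases h : n = m
    · subst h
      rw [if_pos rfl, ZeroAtInftyContinuousMap.smul_apply, e_self, smul_eq_mul, mul_one]
    · rw [if_neg (by omega), ZeroAtInftyContinuousMap.smul_apply,
        e_ne (fun h' => h (hι h')), smul_zero, zero_smul]

lemma sum_apply' (s : Finset ℕ) (f : ℕ → C₀(Idx Γ, ℝ)) (i : Idx Γ) :
    (∑ b ∈ s, f b) i = ∑ b ∈ s, f b i := by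
  classical
  induction s using Finset.induction_on with
  | empty => simp
  | insert a s ha ih =>
    rw [Finset.sum_insert ha, Finset.sum_insert ha, ZeroAtInftyContinuousMap.add_apply, ih]

lemma V_sum (ι : ℕ → Idx Γ) (hι : Function.Injective ι) (x : C₀(Idx Γ, ℝ)) :
    Tendsto (fun N => ∑ n ∈ Finset.range N, V ι n x) atTop (𝓝 x) := by
  classical
  rw [Metric.tendsto_atTop]
  intro ε hε
  have hfin : {n : ℕ | ε / 2 ≤ |x (ι n)|}.Finite := by
    have h := Set.Finite.preimage (f := ι) hι.injOn (fin_level x (half_pos hε))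
    exact h
  obtain ⟨N₀, hN₀⟩ := hfin.bddAbove
  have hsmall : ∀ n, N₀ < n → |x (ι n)| ≤ ε / 2 := by
    intro n hn
    by_contra h
    push Not at h
    have : n ≤ N₀ := hN₀ (show n ∈ {n : ℕ | ε / 2 ≤ |x (ι n)|} from h.le)
    omega
  refine ⟨N₀ + 2, fun N hN => ?_⟩
  obtain ⟨M, rfl⟩ : ∃ M, N = M + 1 := ⟨N - 1, by omega⟩
  rw [dist_eq_norm]
  refine lt_of_le_of_lt (norm_le_of (C := ε / 2) (by linarith) (fun i => ?_)) (by linarith)
  rw [ZeroAtInftyContinuousMap.sub_apply, sum_apply', Finset.sum_range_succ']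
  simp only [V_succ, V_zero, ZeroAtInftyContinuousMap.smul_apply, smul_eq_mul]
  by_cases hi : i ∈ Set.range ι
  · obtain ⟨m, rfl⟩ := hi
    rw [V0_mem, add_zero]
    by_cases hm : m < M
    · rw [Finset.sum_eq_single m
        (fun b _ hb => by rw [e_ne (fun h => hb (hι h).symm), mul_zero])
        (fun h => absurd (Finset.mem_range.mpr hm) h), e_self, mul_one, sub_self, abs_zero]
      linarith
    · rw [Finset.sum_eq_zero, zero_sub, abs_neg]
      · exact hsmall m (by omega)
      · intro b hb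
        have := Finset.mem_range.mp hb
        rw [e_ne (fun h => by have := hι h; omega), mul_zero]
  · rw [V0_notMem ι _ hi, Finset.sum_eq_zero, zero_add, sub_self, abs_zero]
    · linarith
    · intro b _
      rw [e_ne (fun h => hi ⟨b, h.symm⟩), mul_zero]

end

/-- The shift on real sequences: every fibre is uncountable. -/
def shift (s : ℕ → ℝ) : ℕ → ℝ := fun n => s (n + 1)

lemma shift_fibre (γ : ℕ → ℝ) : ¬ (shift ⁻¹' {γ}).Countable := by
  intro h
  have hinj : Function.Injective (fun a : ℝ => (fun n : ℕ => Nat.casesOn n a γ : ℕ → ℝ)) := by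
    intro a b hab
    exact congrFun hab 0
  have h2 := h.preimage hinj
  have h3 : (fun a : ℝ => (fun n : ℕ => Nat.casesOn n a γ : ℕ → ℝ)) ⁻¹' (shift ⁻¹' {γ})
      = Set.univ := by
    ext a
    simp only [Set.mem_preimage, Set.mem_singleton_iff, Set.mem_univ, iff_true]
    rfl
  rw [h3, Set.countable_univ_iff] at h2
  exact not_countable h2

/-- The negation of the preceding statement: Every real or complex Banach space that has a Schauder decomposition (nonzero blocks, ordered convergent unique expansions) also has one whose coordinate projections each have operator norm exactly 1 in the given norm. -/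
theorem result :
    ¬ (∀ (𝕜 : Type) [RCLike 𝕜] (E : Type) [NormedAddCommGroup E] [NormedSpace 𝕜 E]
      [CompleteSpace E],
      (∃ v : ℕ → (E →L[𝕜] E),
        (∀ n, v n ≠ 0) ∧
        (∀ n m, (v n).comp (v m) = if n = m then v n else 0) ∧
        (∀ x : E, Tendsto (fun N => ∑ n ∈ Finset.range N, v n x) atTop (𝓝 x))) →
      ∃ w : ℕ → (E →L[𝕜] E),
        (∀ n, w n ≠ 0) ∧
        (∀ n m, (w n).comp (w m) = if n = m then w n else 0) ∧
        (∀ x : E, Tendsto (fun N => ∑ n ∈ Finset.range N, w n x) atTop (𝓝 x)) ∧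
        (∀ n, ‖w n‖ = 1)) := by
  intro H
  have hanti : AntilipschitzWith 11 (T shift) :=
    AddMonoidHomClass.antilipschitz_of_bound (T shift) (fun x => norm_le_T shift x)
  have hinj : Function.Injective (T shift) := hanti.injective
  have hclo : IsClosed (Set.range (T shift)) := hanti.isClosed_range (T shift).uniformContinuous
  have : CompleteSpace (T shift).range := hclo.completeSpace_coe
  let S := (T shift).equivRange hinj hclo
  have hSx : ∀ x, ‖S x‖ = ‖T shift x‖ := fun x => rfl
  let ι : ℕ → Idx (ℕ → ℝ) := fun n => Idx.g (fun _ => (n : ℝ))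
  have hι : Function.Injective ι := by
    intro a b hab
    have := congrFun (Idx.g_injective hab) 0
    exact_mod_cast this
  have hz : Idx.z ∉ Set.range ι := by
    rintro ⟨n, hn⟩
    cases hn
  obtain ⟨w, hw0, hworth, hwsum, hwnorm⟩ := H ℝ (T shift).range
    ⟨fun n => (S : C₀(Idx (ℕ → ℝ), ℝ) →L[ℝ] (T shift).range).comp
        ((V ι n).comp (S.symm : (T shift).range →L[ℝ] C₀(Idx (ℕ → ℝ), ℝ))), by
      refine ⟨fun n hn => ?_, fun n m => ?_, fun x => ?_⟩
      · apply V_ne ι hz n
        ext1 x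
        have h1 := DFunLike.congr_fun hn (S x)
        simp only [ContinuousLinearMap.comp_apply, ContinuousLinearEquiv.coe_coe,
          ContinuousLinearEquiv.symm_apply_apply, _root_.zero_apply] at h1
        rw [_root_.zero_apply]
        exact (map_eq_zero_iff S S.injective).mp h1
      · ext1 x
        simp only [ContinuousLinearMap.comp_apply, ContinuousLinearEquiv.coe_coe,
          ContinuousLinearEquiv.symm_apply_apply, V_orth ι hι]
        split_ifs with h
        · simp
        · simp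
      · have h1 := (S.continuous.tendsto _).comp (V_sum ι hι (S.symm x))
        rw [ContinuousLinearEquiv.apply_symm_apply] at h1
        refine h1.congr (fun N => ?_)
        exact map_sum (S : C₀(Idx (ℕ → ℝ), ℝ) →L[ℝ] (T shift).range) _ _⟩
  refine no_normal shift shift_fibre
    (fun n => (S.symm : (T shift).range →L[ℝ] C₀(Idx (ℕ → ℝ), ℝ)).comp
      ((w n).comp (S : C₀(Idx (ℕ → ℝ), ℝ) →L[ℝ] (T shift).range))) ?_ ?_ ?_ ?_
  · intro n hn
    apply hw0 n
    ext1 x
    have h1 := DFunLike.congr_fun hn (S.symm x)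
    simp only [ContinuousLinearMap.comp_apply, ContinuousLinearEquiv.coe_coe,
      ContinuousLinearEquiv.apply_symm_apply, _root_.zero_apply] at h1
    rw [_root_.zero_apply]
    exact (map_eq_zero_iff S.symm S.symm.injective).mp h1
  · intro n m x
    simp only [ContinuousLinearMap.comp_apply, ContinuousLinearEquiv.coe_coe,
      ContinuousLinearEquiv.apply_symm_apply]
    have h1 := DFunLike.congr_fun (hworth n m) (S x)
    rw [ContinuousLinearMap.comp_apply] at h1
    rw [h1]
    split_ifs
    · rfl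
    · exact (S.symm : (T shift).range →L[ℝ] C₀(Idx (ℕ → ℝ), ℝ)).map_zero
  · intro x
    have h1 := (S.symm.continuous.tendsto _).comp (hwsum (S x))
    rw [ContinuousLinearEquiv.symm_apply_apply] at h1
    refine h1.congr (fun N => ?_)
    exact map_sum (S.symm : (T shift).range →L[ℝ] C₀(Idx (ℕ → ℝ), ℝ)) _ _
  · intro n x
    simp only [ContinuousLinearMap.comp_apply, ContinuousLinearEquiv.coe_coe]
    rw [← hSx, ← hSx, ContinuousLinearEquiv.apply_symm_apply]
    calc ‖w n (S x)‖ ≤ ‖w n‖ * ‖S x‖ := (w n).le_opNorm _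
      _ = ‖S x‖ := by rw [hwnorm, one_mul]

end Pool.Agent.S04412
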