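import Pool.Statements.S04636

set_option autoImplicit false
open Pool Pool.MP_4e7b39_an

namespace Pool.Agent.S04636

open Filter Topology Set


/-- no nonvanishing continuous function on the plane which is odd on the unit circle -/
theorem no_odd (w : ℂ → ℂ) (hw : Continuous w) (h0 : ∀ z, w z ≠ 0)
    (hodd : ∀ z : ℂ, ‖z‖ = 1 → w (-z) = - w z) : False := by
  obtain ⟨θ, ⟨_, hθ⟩, _⟩ := Complex.isCoveringMapOn_exp.existsUnique_continuousMap_lifts
    (⟨w, hw⟩ : C(ℂ, ℂ)) (a₀ := 0) (e₀ := Complex.log (w 0)) (by simp [Complex.exp_log (h0 0)])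
    (fun a => by simp [h0 a])
  have hθ' : ∀ z, Complex.exp (θ z) = w z := fun z => congrFun hθ z
  let c : ℝ → ℂ := fun s => Complex.exp (s * Complex.I)
  have hc : Continuous c := by fun_prop
  have hcn : ∀ s, ‖c s‖ = 1 := fun s => Complex.norm_exp_ofReal_mul_I s
  let D : ℝ → ℂ := fun s => θ (-(c s)) - θ (c s)
  have hD : Continuous D := by
    have := θ.continuous
    fun_prop
  have hexpD : ∀ s, Complex.exp (D s) = -1 := by
    intro s
    have := hodd (c s) (hcn s)
    simp only [D, Complex.exp_sub, hθ', this]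
    field_simp [h0 (c s)]
  have hc0 : c 0 = 1 := by simp [c]
  have hcpi : c Real.pi = -1 := by simp [c, Complex.exp_pi_mul_I]
  have hDpi : D Real.pi = - D 0 := by
    simp [D, hc0, hcpi]
  -- IVT for the imaginary part
  have hcont : Continuous fun s => (D s).im := Complex.continuous_im.comp hD
  have : ∃ s, (D s).im = 0 := by
    rcases le_total 0 (D 0).im with h | h
    · exact mem_range_of_exists_le_of_exists_ge hcont ⟨Real.pi, by rw [hDpi]; simpa using h⟩ ⟨0, h⟩
    · exact mem_range_of_exists_le_of_exists_ge hcont ⟨0, h⟩ ⟨Real.pi, by rw [hDpi]; simpa using h⟩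
  obtain ⟨s, hs⟩ := this
  have h1 : D s = ((D s).re : ℂ) := by
    apply Complex.ext <;> simp [hs]
  have h2 := hexpD s
  rw [h1, ← Complex.ofReal_exp] at h2
  have h3 : Real.exp (D s).re = -1 := by exact_mod_cast h2
  have := Real.exp_pos (D s).re
  linarith

theorem tendsto_norm_of_leftInverse (B G : ℂ → ℂ) (hB : Continuous B) (hG : Continuous G)
    (hGB : ∀ z, G (B z) = z) : Tendsto (fun z => ‖B z‖) (cocompact ℂ) atTop := by
  have : IsClosedEmbedding B := by
    refine ⟨⟨?_, fun x y h => by rw [← hGB x, ← hGB y, h]⟩, ?_⟩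
    · exact Topology.IsInducing.of_comp hB hG (by
        have : G ∘ B = id := funext hGB
        rw [this]; exact Topology.IsInducing.id)
    · have : range B = {z | B (G z) = z} := by
        ext z
        constructor
        · rintro ⟨x, rfl⟩
          simp [hGB]
        · intro h
          exact ⟨G z, h⟩
      rw [this]
      exact isClosed_eq (hB.comp hG) continuous_id
  exact tendsto_norm_cocompact_atTop.comp this.tendsto_cocompact

theorem surj_of_leftInverse (B G : ℂ → ℂ) (hB : Continuous B) (hG : Continuous G)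
    (hGB : ∀ z, G (B z) = z) : Function.Surjective B := by
  intro p
  by_contra hp
  push Not at hp
  -- translate
  let B' : ℂ → ℂ := fun z => B z - p
  have hB' : Continuous B' := by fun_prop
  have hB'0 : ∀ z, B' z ≠ 0 := fun z => sub_ne_zero.2 (hp z)
  have hinj : ∀ x y, B' x = B' y → x = y := by
    intro x y h
    have : B x = B y := by simpa [B'] using h
    rw [← hGB x, ← hGB y, this]
  have htend : Tendsto (fun z => ‖B' z‖) (cocompact ℂ) atTop :=
    tendsto_norm_of_leftInverse B' (fun z => G (z + p)) hB' (by fun_prop)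
      (fun z => by simp [B', hGB])
  have hinv0 : Tendsto (fun z => (B' z)⁻¹) (cocompact ℂ) (𝓝 0) := by
    have h1 : Tendsto B' (cocompact ℂ) (cocompact ℂ) := by
      rw [← Metric.cobounded_eq_cocompact, ← comap_norm_atTop, tendsto_comap_iff,
        comap_norm_atTop, Metric.cobounded_eq_cocompact]
      exact htend
    exact Filter.Tendsto.comp (by
      rw [← Metric.cobounded_eq_cocompact]
      exact tendsto_inv₀_cobounded) h1
  let k : ℂ → ℂ := fun u => if u = 0 then 0 else (B' (-(starRingEnd ℂ u)⁻¹))⁻¹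
  have hk : Continuous k := by
    rw [continuous_iff_continuousAt]
    intro u
    by_cases hu : u = 0
    · subst hu
      have hk0 : k 0 = 0 := by simp [k]
      rw [continuousAt_iff_punctured_nhds, hk0]
      have h1 : Tendsto (fun u : ℂ => -(starRingEnd ℂ u)⁻¹) (𝓝[≠] 0) (cocompact ℂ) := by
        have h2 : Tendsto (fun u : ℂ => starRingEnd ℂ u) (𝓝[≠] 0) (𝓝[≠] 0) := by
          refine tendsto_nhdsWithin_iff.2 ⟨?_, ?_⟩
          · have : Tendsto (fun u : ℂ => starRingEnd ℂ u) (𝓝 0) (𝓝 (starRingEnd ℂ 0)) :=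
              Complex.continuous_conj.tendsto 0
            rw [map_zero] at this
            exact this.mono_left nhdsWithin_le_nhds
          · filter_upwards [self_mem_nhdsWithin] with u hu
            simpa using hu
        have h3 : Tendsto (fun u : ℂ => u⁻¹) (𝓝[≠] 0) (cocompact ℂ) := by
          rw [← Metric.cobounded_eq_cocompact]
          exact tendsto_inv₀_nhdsNE_zero
        have h4 : Tendsto (fun u : ℂ => -u) (cocompact ℂ) (cocompact ℂ) :=
          (Homeomorph.neg ℂ).isClosedEmbedding.tendsto_cocompact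
        exact h4.comp (h3.comp h2)
      refine (hinv0.comp h1).congr' ?_
      filter_upwards [self_mem_nhdsWithin] with u hu
      have : u ≠ 0 := hu
      simp [k, this]
    · have h1 : ContinuousAt (fun u : ℂ => (B' (-(starRingEnd ℂ u)⁻¹))⁻¹) u := by
        have h2 : ContinuousAt (fun u : ℂ => -(starRingEnd ℂ u)⁻¹) u := by
          apply ContinuousAt.neg
          exact ContinuousAt.inv₀ (Complex.continuous_conj.continuousAt) (by simpa using hu)
        have h3 : ContinuousAt (fun u : ℂ => B' (-(starRingEnd ℂ u)⁻¹)) u :=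
          ContinuousAt.comp (g := B') hB'.continuousAt h2
        exact ContinuousAt.inv₀ h3 (hB'0 _)
      refine h1.congr ?_
      filter_upwards [isOpen_ne.mem_nhds hu] with v hv
      have : v ≠ 0 := hv
      simp [k, this]
  let ρ : ℂ → ℂ := fun z => ((max 1 ‖z‖ : ℝ) : ℂ)⁻¹ * z
  have hρ : Continuous ρ := by
    have : Continuous fun z : ℂ => ((max 1 ‖z‖ : ℝ) : ℂ) := by fun_prop
    exact (this.inv₀ (fun z => by
      have : (0:ℝ) < max 1 ‖z‖ := lt_of_lt_of_le one_pos (le_max_left _ _)
      exact_mod_cast this.ne')).mul continuous_id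
  have hρ1 : ∀ z : ℂ, ‖z‖ = 1 → ρ z = z := by
    intro z hz
    simp [ρ, hz]
  let w : ℂ → ℂ := fun z => (B' (ρ z))⁻¹ - k (ρ z)
  refine no_odd w ?_ ?_ ?_
  · exact ((hB'.comp hρ).inv₀ (fun z => hB'0 _)).sub (hk.comp hρ)
  · intro z hz
    have h1 : (B' (ρ z))⁻¹ = k (ρ z) := sub_eq_zero.1 hz
    by_cases hu : ρ z = 0
    · rw [hu] at h1
      simp only [k, if_true] at h1
      exact hB'0 0 (inv_eq_zero.1 h1)
    · simp only [k, if_neg hu] at h1
      have h2 := hinj _ _ (inv_injective h1)
      set u := ρ z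
      have h3 : starRingEnd ℂ u ≠ 0 := by simpa using hu
      have h4 : u * starRingEnd ℂ u = -1 := by
        nth_rewrite 1 [h2]
        field_simp
      rw [Complex.mul_conj] at h4
      have h5 : Complex.normSq u = -1 := by exact_mod_cast h4
      have := Complex.normSq_nonneg u
      linarith
  · intro z hz
    have hz' : ‖-z‖ = 1 := by simpa using hz
    have hz0 : z ≠ 0 := by
      intro h; simp [h] at hz
    have hzz : z * starRingEnd ℂ z = 1 := by
      rw [Complex.mul_conj, Complex.normSq_eq_norm_sq, hz]; simp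
    have hconj : (starRingEnd ℂ z)⁻¹ = z := by
      have h3 : starRingEnd ℂ z ≠ 0 := by simpa using hz0
      field_simp
      rw [mul_comm]
      exact hzz.symm
    have hconj' : (-(starRingEnd ℂ z))⁻¹ = -z := by
      rw [inv_neg, hconj]
    simp only [w, hρ1 z hz, hρ1 (-z) hz', k, neg_eq_zero, if_neg hz0, map_neg, hconj, hconj', neg_neg]
    ring



/-- (f,g) is a homeomorphism of the plane with both coordinates associative -/
structure AH (f g : ℝ → ℝ → ℝ) : Prop where
  cf : Continuous fun p : ℝ × ℝ => f p.1 p.2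
  cg : Continuous fun p : ℝ × ℝ => g p.1 p.2
  af : ∀ a b c, f (f a b) c = f a (f b c)
  ag : ∀ a b c, g (g a b) c = g a (g b c)
  inv : ∃ G : ℝ → ℝ → ℝ × ℝ, Continuous (fun p : ℝ × ℝ => G p.1 p.2) ∧
    (∀ p q, f (G p q).1 (G p q).2 = p) ∧ (∀ p q, g (G p q).1 (G p q).2 = q) ∧
    (∀ x y, G (f x y) (g x y) = (x, y))

variable {f g : ℝ → ℝ → ℝ}

theorem AH.swap (h : AH f g) : AH g f := by
  obtain ⟨cf, cg, af, ag, G, hG, h1, h2, h3⟩ := h
  exact ⟨cg, cf, ag, af, fun p q => G q p, hG.comp continuous_swap, fun p q => h2 q p,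
    fun p q => h1 q p, fun x y => h3 x y⟩

theorem AH.op (h : AH f g) : AH (fun x y => f y x) (fun x y => g y x) := by
  obtain ⟨cf, cg, af, ag, G, hG, h1, h2, h3⟩ := h
  refine ⟨cf.comp continuous_swap, cg.comp continuous_swap, fun a b c => (af c b a).symm,
    fun a b c => (ag c b a).symm, fun p q => ((G p q).2, (G p q).1), ?_, h1, h2, ?_⟩
  · exact hG.snd.prodMk hG.fst
  · intro x y
    simp [h3]

theorem AH.neg (h : AH f g) : AH (fun x y => -f (-x) (-y)) (fun x y => -g (-x) (-y)) := by
  obtain ⟨cf, cg, af, ag, G, hG, h1, h2, h3⟩ := h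
  have hneg : Continuous fun p : ℝ × ℝ => (-p.1, -p.2) := by fun_prop
  refine ⟨(cf.comp hneg).neg, (cg.comp hneg).neg, fun a b c => ?_,
    fun a b c => ?_, fun p q => (-(G (-p) (-q)).1, -(G (-p) (-q)).2), ?_, ?_, ?_, ?_⟩
  · simp [af]
  · simp [ag]
  · have : Continuous fun p : ℝ × ℝ => G (-p.1) (-p.2) := hG.comp hneg
    exact this.fst.neg.prodMk this.snd.neg
  · intro p q; simp [h1]
  · intro p q; simp [h2]
  · intro x y; simp [h3]

theorem AH.inj (h : AH f g) {x y x' y' : ℝ} (hf : f x y = f x' y') (hg : g x y = g x' y') :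
    x = x' ∧ y = y' := by
  obtain ⟨G, -, -, -, h3⟩ := h.inv
  have := h3 x y
  rw [hf, hg, h3 x' y'] at this
  simpa [eq_comm] using this

theorem AH.openUp (h : AH f g) {U : Set (ℝ × ℝ)} (hU : IsOpen U) {x y : ℝ} (hxy : (x, y) ∈ U) :
    ∃ x' y', (x', y') ∈ U ∧ f x y < f x' y' := by
  obtain ⟨G, hG, h1, h2, h3⟩ := h.inv
  have hc : Continuous fun s : ℝ => G s (g x y) := hG.comp (by fun_prop : Continuous fun s : ℝ => (s, g x y))
  have hopen : IsOpen ((fun s : ℝ => G s (g x y)) ⁻¹' U) := hU.preimage hc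
  have hmem : f x y ∈ ((fun s : ℝ => G s (g x y)) ⁻¹' U) := by
    simp [h3, hxy]
  have hev : ∀ᶠ s in 𝓝 (f x y), s ∈ ((fun s : ℝ => G s (g x y)) ⁻¹' U) := hopen.mem_nhds hmem
  have hev' : ∀ᶠ s in 𝓝[>] (f x y), s ∈ ((fun s : ℝ => G s (g x y)) ⁻¹' U) :=
    hev.filter_mono nhdsWithin_le_nhds
  obtain ⟨s, hs, hs'⟩ := (hev'.and self_mem_nhdsWithin).exists
  refine ⟨(G s (g x y)).1, (G s (g x y)).2, hs, ?_⟩
  rw [h1]
  exact hs'

theorem AH.openDown (h : AH f g) {U : Set (ℝ × ℝ)} (hU : IsOpen U) {x y : ℝ} (hxy : (x, y) ∈ U) :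
    ∃ x' y', (x', y') ∈ U ∧ f x' y' < f x y := by
  have hneg : Continuous fun p : ℝ × ℝ => (-p.1, -p.2) := by fun_prop
  obtain ⟨x', y', hm, hl⟩ := h.neg.openUp (hU.preimage hneg) (x := -x) (y := -y) (by simpa using hxy)
  refine ⟨-x', -y', hm, ?_⟩
  simpa using hl

/-- if a right translation is constant then the level set is exactly the horizontal line -/
theorem AH.line (h : AH f g) {x p : ℝ} (hx : ∀ s, f s x = p) {u v : ℝ} (huv : f u v = p) :
    v = x := by
  obtain ⟨G, hG, h1, h2, h3⟩ := h.inv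
  let γ : ℝ → ℝ × ℝ := fun s => G p s
  have hγ : Continuous γ := hG.comp (by fun_prop : Continuous fun s : ℝ => (p, s))
  let m : ℝ → ℝ := fun s => g s x
  have hm : Continuous m := h.cg.comp (by fun_prop : Continuous fun s : ℝ => (s, x))
  have hγm : ∀ s, γ (m s) = (s, x) := by
    intro s
    have := h3 s x
    rwa [hx s] at this
  have hminj : Function.Injective m := by
    intro s s' hs
    have := (hγm s).symm.trans ((congrArg γ hs).trans (hγm s'))
    simpa using this
  have hrange : ∀ s, s ∈ range m ↔ (γ s).2 = x := by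
    intro s
    constructor
    · rintro ⟨s', rfl⟩
      rw [hγm]
    · intro hs
      refine ⟨(γ s).1, ?_⟩
      have : g (γ s).1 (γ s).2 = s := h2 p s
      rw [hs] at this
      exact this
  have hclosed : IsClosed (range m) := by
    have : range m = {s | (γ s).2 = x} := by
      ext s; exact hrange s
    rw [this]
    exact isClosed_eq hγ.snd continuous_const
  have hne : (range m).Nonempty := range_nonempty m
  have hup : ¬ BddAbove (range m) := by
    intro hb
    obtain ⟨s1, hs1⟩ := hclosed.csSup_mem hne hb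
    rcases hm.strictMono_of_inj hminj with hmono | hanti
    · have h5 : m (s1+1) ≤ sSup (range m) := le_csSup hb ⟨_, rfl⟩
      have := hmono (show s1 < s1 + 1 by linarith)
      linarith
    · have h5 : m (s1-1) ≤ sSup (range m) := le_csSup hb ⟨_, rfl⟩
      have := hanti (show s1 - 1 < s1 by linarith)
      linarith
  have hdown : ¬ BddBelow (range m) := by
    intro hb
    obtain ⟨s1, hs1⟩ := hclosed.csInf_mem hne hb
    rcases hm.strictMono_of_inj hminj with hmono | hanti
    · have h5 : sInf (range m) ≤ m (s1-1) := csInf_le hb ⟨_, rfl⟩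
      have := hmono (show s1 - 1 < s1 by linarith)
      linarith
    · have h5 : sInf (range m) ≤ m (s1+1) := csInf_le hb ⟨_, rfl⟩
      have := hanti (show s1 < s1 + 1 by linarith)
      linarith
  have hsurj : g u v ∈ range m := by
    rw [bddAbove_def] at hup
    rw [bddBelow_def] at hdown
    push Not at hup hdown
    obtain ⟨_, ⟨s1, rfl⟩, h5⟩ := hup (g u v)
    obtain ⟨_, ⟨s2, rfl⟩, h6⟩ := hdown (g u v)
    exact mem_range_of_exists_le_of_exists_ge hm ⟨s2, h6.le⟩ ⟨s1, h5.le⟩
  have h7 := (hrange _).1 hsurj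
  have h8 : γ (g u v) = (u, v) := by
    have := h3 u v
    rwa [huv] at this
  rw [h8] at h7
  exact h7

/-- constant right translation forces the right projection -/
theorem AH.rproj (h : AH f g) {x p : ℝ} (hx : ∀ s, f s x = p) : ∀ s y, f s y = y := by
  have h1 : ∀ s, f s p = p := by
    intro s
    calc f s p = f s (f s x) := by rw [hx s]
      _ = f (f s s) x := (h.af _ _ _).symm
      _ = p := hx _
  have hpx : p = x := h.line hx (h1 p)
  subst hpx
  have h2 : ∀ y, f p y = y := by
    intro y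
    have h3 : ∀ s, f s (f p y) = f p y := by
      intro s
      rw [← h.af, hx s]
    exact (h.line h3 (u := p) (v := y) rfl).symm
  intro s y
  calc f s y = f s (f p y) := by rw [h2 y]
    _ = f (f s p) y := (h.af _ _ _).symm
    _ = y := by rw [hx s, h2 y]

theorem AH.lproj (h : AH f g) {x p : ℝ} (hx : ∀ s, f x s = p) : ∀ y s, f y s = y :=
  fun y s => h.op.rproj (x := x) (p := p) hx s y

/-- f is not a projection -/
def NP (f : ℝ → ℝ → ℝ) : Prop := (¬ ∀ s y, f s y = y) ∧ (¬ ∀ y s, f y s = y)

theorem NP.op (h : NP f) : NP (fun x y => f y x) :=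
  ⟨fun h' => h.2 (fun y s => h' s y), fun h' => h.1 (fun s y => h' y s)⟩

theorem NP.neg (h : NP f) : NP (fun x y => -f (-x) (-y)) :=
  ⟨fun h' => h.1 (fun s y => by simpa using h' (-s) (-y)),
   fun h' => h.2 (fun s y => by simpa using h' (-s) (-y))⟩

theorem AH.contL (h : AH f g) (x : ℝ) : Continuous (f x) :=
  h.cf.comp (by fun_prop : Continuous fun s : ℝ => (x, s))

theorem AH.contR (h : AH f g) (x : ℝ) : Continuous (fun s => f s x) :=
  h.cf.comp (by fun_prop : Continuous fun s : ℝ => (s, x))

/-- J e = {y | f e y = y} is order connected -/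
theorem AH.J_ord (h : AH f g) {e : ℝ} (he : f e e = e) {a b c : ℝ} (ha : f e a = a) (hc : f e c = c)
    (hab : a ≤ b) (hbc : b ≤ c) : f e b = b := by
  have : b ∈ range (f e) := mem_range_of_exists_le_of_exists_ge (h.contL e)
    ⟨a, by rw [ha]; exact hab⟩ ⟨c, by rw [hc]; exact hbc⟩
  obtain ⟨z, rfl⟩ := this
  rw [← h.af, he]

theorem AH.K_ord (h : AH f g) {e : ℝ} (he : f e e = e) {a b c : ℝ} (ha : f a e = a) (hc : f c e = c)
    (hab : a ≤ b) (hbc : b ≤ c) : f b e = b := h.op.J_ord he ha hc hab hbc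

theorem AH.J_nontriv (h : AH f g) (hn : NP f) {e : ℝ} (he : f e e = e) : ∃ j, f e j = j ∧ j ≠ e := by
  by_contra hcon
  push Not at hcon
  apply hn.2
  apply h.lproj (x := e) (p := e)
  intro s
  apply hcon
  rw [← h.af, he]

theorem AH.K_nontriv (h : AH f g) (hn : NP f) {e : ℝ} (he : f e e = e) : ∃ j, f j e = j ∧ j ≠ e :=
  h.op.J_nontriv hn.op he

theorem AH.J_closed (h : AH f g) (e : ℝ) : IsClosed {y | f e y = y} :=
  isClosed_eq (h.contL e) continuous_id

theorem AH.J_unbdd_above (h : AH f g) {e : ℝ} (he : f e e = e) {a c : ℝ} (ha : f e a = a)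
    (hc : f e c = c) (hae : a < e) (hec : e < c) : ¬ BddAbove {y | f e y = y} := by
  intro hb
  have hne : {y | f e y = y}.Nonempty := ⟨e, he⟩
  have hm : f e (sSup {y | f e y = y}) = sSup {y | f e y = y} := (h.J_closed e).csSup_mem hne hb
  obtain ⟨x', y', hU, hl⟩ := h.openUp (U := Ioo a c ×ˢ univ) (isOpen_Ioo.prod isOpen_univ)
    (x := e) (y := sSup {y | f e y = y}) ⟨⟨hae, hec⟩, trivial⟩
  rw [hm] at hl
  have hx' : f e x' = x' := h.J_ord he ha hc hU.1.1.le hU.1.2.le
  have : f x' y' ≤ sSup {y | f e y = y} := le_csSup hb (by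
    show f e (f x' y') = f x' y'
    rw [← h.af, hx'])
  linarith

theorem AH.J_univ (h : AH f g) {e : ℝ} (he : f e e = e) {a c : ℝ} (ha : f e a = a)
    (hc : f e c = c) (hae : a < e) (hec : e < c) : ∀ y, f e y = y := by
  have h1 := h.J_unbdd_above he ha hc hae hec
  have h2 := h.neg.J_unbdd_above (e := -e) (a := -c) (c := -a) (by simp [he]) (by simp [hc])
    (by simp [ha]) (by linarith) (by linarith)
  intro y
  rw [bddAbove_def] at h1 h2
  push Not at h1 h2
  obtain ⟨u, hu, hu'⟩ := h1 y
  obtain ⟨v, hv, hv'⟩ := h2 (-y)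
  have hv2 : f e (-v) = -v := by
    have : -f (- -e) (-v) = v := hv
    rw [neg_neg] at this
    linarith
  exact h.J_ord he hv2 hu (by linarith) hu'.le

/-- if `e` is a left identity then it is a right identity (upper half case) -/
theorem AH.J_univ_K_aux (h : AH f g) (hn : NP f) {e : ℝ} (he : f e e = e) (hJ : ∀ y, f e y = y)
    (hK : ∀ k, f k e = k → k ≤ e) : False := by
  obtain ⟨x0, hx0, hx0e⟩ := h.K_nontriv hn he
  have hx0lt : x0 < e := lt_of_le_of_ne (hK x0 hx0) hx0e
  have hKle : ∀ x y, f y e = y → f x y ≤ e := by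
    intro x y hy
    apply hK
    rw [h.af, hy]
  have hKlt : ∀ x y, x0 < y → y < e → f x y < e := by
    intro x y h1 h2
    refine lt_of_le_of_ne (hKle x y (h.K_ord he hx0 he h1.le h2.le)) ?_
    intro hxy
    obtain ⟨x', y', hU, hl⟩ := h.openUp (U := univ ×ˢ Ioo x0 e) (isOpen_univ.prod isOpen_Ioo)
      (x := x) (y := y) ⟨trivial, h1, h2⟩
    have := hKle x' y' (h.K_ord he hx0 he hU.2.1.le hU.2.2.le)
    linarith
  -- choose y > e close to e
  have e1 : ∀ᶠ y in 𝓝 e, x0 < f y e := by
    have := (h.contR e).tendsto e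
    simp only [he] at this
    exact this.eventually (lt_mem_nhds hx0lt)
  have e2 : ∀ᶠ y in 𝓝 e, f x0 y < e := by
    have := (h.contL x0).tendsto e
    rw [hx0] at this
    exact this.eventually (gt_mem_nhds hx0lt)
  have e3 : ∀ᶠ y in 𝓝[>] e, x0 < f y e ∧ f x0 y < e := (e1.and e2).filter_mono nhdsWithin_le_nhds
  obtain ⟨y, ⟨hy1, hy2⟩, hy3⟩ := (e3.and self_mem_nhdsWithin).exists
  have hy3' : e < y := hy3
  -- IVT in x
  have hivt : e ∈ (fun x => f x y) '' Icc x0 e := by
    apply intermediate_value_Icc hx0lt.le (h.contR y).continuousOn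
    exact ⟨hy2.le, by simp only [hJ]; exact hy3'.le⟩
  obtain ⟨x, ⟨hx1, hx2⟩, hxy⟩ := hivt
  have hxy' : f x y = e := hxy
  have hxe : x ≠ e := by
    intro hx
    rw [hx, hJ] at hxy'
    linarith
  have hxlt : x < e := lt_of_le_of_ne hx2 hxe
  have hxK : f x e = x := h.K_ord he hx0 he hx1 hx2
  have hv : f x (f y e) = e := by
    rw [← h.af, hxy', he]
  have hvle : f y e ≤ e := by
    apply hK
    rw [h.af, he]
  rcases hvle.lt_or_eq with hlt | heq
  · have := hKlt x (f y e) hy1 hlt
    linarith
  · rw [heq, hxK] at hv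
    exact hxe hv

theorem AH.J_univ_K (h : AH f g) (hn : NP f) {e : ℝ} (he : f e e = e) (hJ : ∀ y, f e y = y) :
    ∀ y, f y e = y := by
  by_contra hcon
  have hside : (∀ k, f k e = k → k ≤ e) ∨ (∀ k, f k e = k → e ≤ k) := by
    by_contra hc
    push Not at hc
    obtain ⟨⟨k1, hk1, hk1'⟩, ⟨k2, hk2, hk2'⟩⟩ := hc
    exact hcon (h.op.J_univ he hk2 hk1 hk2' hk1')
  rcases hside with hs | hs
  · exact h.J_univ_K_aux hn he hJ hs
  · refine h.neg.J_univ_K_aux hn.neg (e := -e) (by simp [he]) (by simp [hJ]) ?_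
    intro k hk
    have hk' : f (-k) e = -k := by
      have : -f (-k) (- -e) = k := hk
      rw [neg_neg] at this
      linarith
    have := hs _ hk'
    linarith

/-- opposite sides impossible -/
theorem AH.opp (h : AH f g) {e : ℝ} (he : f e e = e) {j k : ℝ} (hj : f e j = j) (hk : f k e = k)
    (hje : j < e) (hek : e < k) (hJ : ∀ y, f e y = y → y ≤ e) (hK : ∀ y, f y e = y → e ≤ y) :
    False := by
  have hconst : ∀ x y, j ≤ x → x ≤ e → e ≤ y → y ≤ k → f x y = e := by
    intro x y h1 h2 h3 h4
    have hx : f e x = x := h.J_ord he hj he h1 h2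
    have hy : f y e = y := h.K_ord he he hk h3 h4
    apply le_antisymm
    · apply hJ
      rw [← h.af, hx]
    · apply hK
      rw [h.af, hy]
  obtain ⟨x', y', hU, hl⟩ := h.openUp (U := Ioo j e ×ˢ Ioo e k) (isOpen_Ioo.prod isOpen_Ioo)
    (x := (j+e)/2) (y := (e+k)/2) (by
      refine ⟨⟨?_, ?_⟩, ⟨?_, ?_⟩⟩ <;> simp only <;> linarith)
  rw [hconst x' y' hU.1.1.le hU.1.2.le hU.2.1.le hU.2.2.le,
    hconst _ _ (by linarith) (by linarith) (by linarith) (by linarith)] at hl
  exact lt_irrefl _ hl

/-- If `J` lies below `e` and has minimum `α`, then `α ∉ K`. -/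
theorem AH.minJ (h : AH f g) {e α : ℝ} (he : f e e = e) (hα : f e α = α) (hαe : α < e)
    (hmin : ∀ y, f e y = y → α ≤ y) : f α e ≠ α := by
  intro hαe'
  obtain ⟨G, hG, h1, h2, h3⟩ := h.inv
  have hlow : ∀ x y, f e x = x → α ≤ f x y := by
    intro x y hx
    apply hmin
    rw [← h.af, hx]
  -- path in the level set
  let γ : ℝ → ℝ := fun s => (G α s).1
  have hγ : Continuous γ :=
    (hG.comp (by fun_prop : Continuous fun s : ℝ => (α, s))).fst
  have ha : γ (g α e) = α := by
    have := h3 α e
    rw [hαe'] at this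
    simp [γ, this]
  have hb : γ (g e α) = e := by
    have := h3 e α
    rw [hα] at this
    simp [γ, this]
  have : (α + e)/2 ∈ range γ := mem_range_of_exists_le_of_exists_ge hγ
    ⟨g α e, by rw [ha]; linarith⟩ ⟨g e α, by rw [hb]; linarith⟩
  obtain ⟨s, hs⟩ := this
  have hfs : f (G α s).1 (G α s).2 = α := h1 α s
  obtain ⟨x', y', hU, hl⟩ := h.openDown (U := Ioo α e ×ˢ univ) (isOpen_Ioo.prod isOpen_univ)
    (x := (G α s).1) (y := (G α s).2) (by
      refine ⟨⟨?_, ?_⟩, trivial⟩
      · show α < γ s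
        rw [hs]; linarith
      · show γ s < e
        rw [hs]; linarith)
  rw [hfs] at hl
  have := hlow x' y' (h.J_ord he hα he hU.1.1.le hU.1.2.le)
  linarith

/-- same side (below) case: `J = K = (-∞, e]` -/
theorem AH.same (h : AH f g) (hn : NP f) {e : ℝ} (he : f e e = e)
    (hJ : ∀ y, f e y = y → y ≤ e) (hK : ∀ y, f y e = y → y ≤ e) :
    ∀ y, f e y = f y e := by
  obtain ⟨j, hj, hj'⟩ := h.J_nontriv hn he
  obtain ⟨k, hk, hk'⟩ := h.K_nontriv hn he
  have hje : j < e := lt_of_le_of_ne (hJ j hj) hj'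
  have hke : k < e := lt_of_le_of_ne (hK k hk) hk'
  -- K bounded below implies min not in J
  have hKb : ∀ κ, f κ e = κ → (∀ y, f y e = y → κ ≤ y) → f e κ ≠ κ := by
    intro κ h1 h2
    have hκe : κ < e := lt_of_le_of_lt (h2 k hk) hke
    exact h.op.minJ he h1 hκe h2
  have hJb : ¬ BddBelow {y | f e y = y} := by
    intro hb
    have hne : {y | f e y = y}.Nonempty := ⟨e, he⟩
    have hα : f e (sInf {y | f e y = y}) = sInf {y | f e y = y} := (h.J_closed e).csInf_mem hne hb
    set α := sInf {y | f e y = y} with hαdef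
    have hmin : ∀ y, f e y = y → α ≤ y := fun y hy => csInf_le hb hy
    have hαe : α < e := lt_of_le_of_lt (hmin j hj) hje
    have hαK := h.minJ he hα hαe hmin
    -- K bounded below by α
    have hKα : ∀ y, f y e = y → α < y := by
      intro y hy
      by_contra hcon
      push Not at hcon
      exact hαK (h.K_ord he hy he hcon hαe.le)
    have hneK : {y | f y e = y}.Nonempty := ⟨e, he⟩
    have hbK : BddBelow {y | f y e = y} := ⟨α, fun y hy => (hKα y hy).le⟩
    have hκ : f (sInf {y | f y e = y}) e = sInf {y | f y e = y} :=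
      (h.op.J_closed e).csInf_mem hneK hbK
    set κ := sInf {y | f y e = y}
    have hκmin : ∀ y, f y e = y → κ ≤ y := fun y hy => csInf_le hbK hy
    apply hKb κ hκ hκmin
    exact h.J_ord he hα he (hKα κ hκ).le (hκmin e he)
  have hJall : ∀ y, y ≤ e → f e y = y := by
    intro y hy
    rw [bddBelow_def] at hJb
    push Not at hJb
    obtain ⟨u, hu, hu'⟩ := hJb y
    exact h.J_ord he hu he hu'.le hy
  have hKall : ∀ y, y ≤ e → f y e = y := by
    intro y hy
    by_contra hcon
    have hKy : ∀ k, f k e = k → y < k := by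
      intro k hk
      by_contra hc
      push Not at hc
      exact hcon (h.K_ord he hk he hc hy)
    have hneK : {y | f y e = y}.Nonempty := ⟨e, he⟩
    have hbK : BddBelow {y | f y e = y} := ⟨y, fun k hk => (hKy k hk).le⟩
    have hκ : f (sInf {y | f y e = y}) e = sInf {y | f y e = y} :=
      (h.op.J_closed e).csInf_mem hneK hbK
    set κ := sInf {y | f y e = y}
    have hκmin : ∀ y, f y e = y → κ ≤ y := fun y hy => csInf_le hbK hy
    exact hKb κ hκ hκmin (hJall κ (hκmin e he))
  intro y
  have h1 : f e (f e y) = f e y := by rw [← h.af, he]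
  have h2 : f (f y e) e = f y e := by rw [h.af, he]
  have h3 : f (f e y) e = f e y := hKall _ (hJ _ h1)
  have h4 : f e (f y e) = f y e := hJall _ (hK _ h2)
  rw [← h3, h.af, h4]

/-- idempotents are central -/
theorem AH.central (h : AH f g) (hn : NP f) {e : ℝ} (he : f e e = e) : ∀ y, f e y = f y e := by
  have hside : ∀ {f g : ℝ → ℝ → ℝ}, AH f g → ∀ {e : ℝ}, f e e = e →
      (∀ y, f e y = y) ∨ (∀ k, f e k = k → k ≤ e) ∨ (∀ k, f e k = k → e ≤ k) := by
    intro f g h e he
    by_contra hc
    push Not at hc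
    obtain ⟨⟨y, hy⟩, ⟨k1, hk1, hk1'⟩, ⟨k2, hk2, hk2'⟩⟩ := hc
    exact hy (h.J_univ he hk2 hk1 hk2' hk1' y)
  rcases hside h he with hJ | hJ
  · intro y
    rw [hJ, h.J_univ_K hn he hJ]
  rcases hside h.op he with hK | hK
  · intro y
    have h1 : f y e = y := hK y
    have h2 : f e y = y := h.op.J_univ_K hn.op he hK y
    rw [h1, h2]
  obtain ⟨j, hj, hj'⟩ := h.J_nontriv hn he
  obtain ⟨k, hk, hk'⟩ := h.K_nontriv hn he
  rcases hJ with hJ | hJ <;> rcases hK with hK | hK
  · exact h.same hn he hJ hK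
  · exact (h.opp he hj hk (lt_of_le_of_ne (hJ j hj) hj') (lt_of_le_of_ne (hK k hk) hk'.symm) hJ hK).elim
  · exact (h.op.opp he hk hj (lt_of_le_of_ne (hK k hk) hk') (lt_of_le_of_ne (hJ j hj) hj'.symm) hK hJ).elim
  · intro y
    have := h.neg.same hn.neg (e := -e) (by simp [he]) (by
      intro y hy
      have hy' : f e (-y) = -y := by
        have : -f (- -e) (-y) = y := hy
        rw [neg_neg] at this
        linarith
      have := hJ _ hy'
      linarith) (by
      intro y hy
      have hy' : f (-y) e = -y := by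
        have : -f (-y) (- -e) = y := hy
        rw [neg_neg] at this
        linarith
      have := hK _ hy'
      linarith) (-y)
    simpa using this



/-- continuous associative with x < x*x everywhere -/
structure Up (f : ℝ → ℝ → ℝ) : Prop where
  cf : Continuous fun p : ℝ × ℝ => f p.1 p.2
  af : ∀ a b c, f (f a b) c = f a (f b c)
  up : ∀ x, x < f x x


theorem Up.op (h : Up f) : Up (fun x y => f y x) :=
  ⟨h.cf.comp continuous_swap, fun a b c => (h.af c b a).symm, h.up⟩

theorem Up.contL (h : Up f) (x : ℝ) : Continuous (f x) :=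
  h.cf.comp (by fun_prop : Continuous fun s : ℝ => (x, s))

theorem Up.contR (h : Up f) (x : ℝ) : Continuous (fun s => f s x) :=
  h.cf.comp (by fun_prop : Continuous fun s : ℝ => (s, x))

theorem Up.contD (h : Up f) : Continuous (fun s => f s s) :=
  h.cf.comp (by fun_prop : Continuous fun s : ℝ => (s, s))

/-- iterated squares -/
def sq (f : ℝ → ℝ → ℝ) (x : ℝ) : ℕ → ℝ
  | 0 => x
  | n+1 => f (sq f x n) (sq f x n)

theorem Up.sq_tendsto (h : Up f) (x : ℝ) : Tendsto (sq f x) atTop atTop := by
  have hmono : StrictMono (sq f x) := strictMono_nat_of_lt_succ (fun n => h.up _)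
  rcases tendsto_atTop_of_monotone hmono.monotone with ht | ⟨l, hl⟩
  · exact ht
  · exfalso
    have h1 : Tendsto (fun n => sq f x (n+1)) atTop (𝓝 l) := hl.comp (tendsto_add_atTop_nat 1)
    have h2 : Tendsto (fun n => sq f x (n+1)) atTop (𝓝 (f l l)) := (h.contD.tendsto l).comp hl
    have := tendsto_nhds_unique h1 h2
    have h3 := h.up l
    linarith

theorem Up.ne_left (h : Up f) (x y : ℝ) : f x y ≠ x := by
  intro hxy
  -- W = {u | f u y = u} contains f x x
  have hW : ∀ s, f (f s x) y = f s x := by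
    intro s
    rw [h.af, hxy]
  have hW2 : ∀ u, f x x ≤ u → f u y = u := by
    intro u hu
    have hne : u ∈ range (fun s => f s x) := by
      -- take s = sq f x n large
      obtain ⟨n, hn⟩ := ((h.sq_tendsto x).eventually (eventually_ge_atTop u)).exists
      have hs : ∃ s, u ≤ f s x := by
        -- powers: sq f x (n+1) = f s x for some s
        have : ∀ n, sq f x n = x ∨ ∃ s, sq f x n = f s x := by
          intro n
          induction n with
          | zero => left; rfl
          | succ n ih =>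
            right
            rcases ih with ih | ⟨s, ih⟩
            · exact ⟨x, by simp only [sq]; rw [ih]⟩
            · refine ⟨f (sq f x n) s, ?_⟩
              simp only [sq]
              rw [h.af]
              nth_rewrite 2 [ih]
              rfl
        rcases this n with h1 | ⟨s, h1⟩
        · refine ⟨x, ?_⟩
          rw [h1] at hn
          exact hn.trans (h.up x).le
        · exact ⟨s, by rw [← h1]; exact hn⟩
      obtain ⟨s, hs⟩ := hs
      exact mem_range_of_exists_le_of_exists_ge (h.contR x) ⟨x, hu⟩ ⟨s, hs⟩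
    obtain ⟨s, rfl⟩ := hne
    exact hW s
  obtain ⟨n, hn⟩ := ((h.sq_tendsto y).eventually (eventually_ge_atTop (f x x))).exists
  have h1 : f (sq f y n) y = sq f y n := hW2 _ hn
  have h2 : ∀ u, f u y = u → ∀ k, f u (sq f y k) = u := by
    intro u hu k
    induction k with
    | zero => exact hu
    | succ k ih =>
      simp only [sq]
      rw [← h.af, ih, ih]
  have h3 := h2 _ h1 n
  have h4 := h.up (sq f y n)
  linarith

theorem Up.lt_left (h : Up f) (x y : ℝ) : x < f x y := by
  by_contra hcon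
  push Not at hcon
  have hc : Continuous fun s => f x s - x := (h.contL x).sub continuous_const
  have : (0:ℝ) ∈ range fun s => f x s - x := mem_range_of_exists_le_of_exists_ge hc
    ⟨y, by linarith⟩ ⟨x, by have := h.up x; linarith⟩
  obtain ⟨s, hs⟩ := this
  exact h.ne_left x s (by simp only at hs; linarith)

theorem Up.lt_right (h : Up f) (x y : ℝ) : y < f x y := h.op.lt_left y x

/-- a compatible sequence of square roots tending to -infinity makes f strictly increasing -/
theorem Up.strictMono_of_roots (h : Up f) (t : ℕ → ℝ) (ht : ∀ k, f (t (k+1)) (t (k+1)) = t k)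
    (htb : Tendsto t atTop atBot) (a : ℝ) : StrictMono (f a) := by
  -- basic monotonicity
  have hanti : ∀ p, Antitone (fun k => f p (t k)) := by
    intro p
    apply antitone_nat_of_succ_le
    intro k
    rw [← ht k, ← h.af]
    exact (h.lt_left _ _).le
  have hlim : ∀ p, ∃ l, Tendsto (fun k => f p (t k)) atTop (𝓝 l) ∧ p ≤ l ∧ ∀ k, l ≤ f p (t k) := by
    intro p
    have hb : BddBelow (range fun k => f p (t k)) := ⟨p, by
      rintro _ ⟨k, rfl⟩
      exact (h.lt_left _ _).le⟩
    have h1 := tendsto_atTop_ciInf (hanti p) hb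
    refine ⟨_, h1, le_ciInf (fun k => (h.lt_left _ _).le), fun k => ciInf_le hb k⟩
  choose l hl1 hl2 hl3 using hlim
  have hS2 : ∀ s p, l (f s p) = f s (l p) := by
    intro s p
    have h1 : Tendsto (fun k => f s (f p (t k))) atTop (𝓝 (f s (l p))) :=
      ((h.contL s).tendsto _).comp (hl1 p)
    have h2 := hl1 (f s p)
    simp only [h.af] at h2
    exact tendsto_nhds_unique h2 h1
  -- commutation
  have hcomm0 : ∀ i k, f (t (k + i)) (t k) = f (t k) (t (k+i)) := by
    intro i
    induction i with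
    | zero => intro k; rfl
    | succ i ih =>
      intro k
      have h1 : f (t (k + (i+1))) (t (k+1)) = f (t (k+1)) (t (k + (i+1))) := by
        have := ih (k+1)
        rwa [show k + 1 + i = k + (i+1) by ring] at this
      rw [← ht k, ← h.af, h1, h.af, h1, ← h.af]
  have hcomm : ∀ j k, j ≤ k → f (t k) (t j) = f (t j) (t k) := by
    intro j k hjk
    obtain ⟨i, rfl⟩ := Nat.exists_eq_add_of_le hjk
    exact hcomm0 i j
  have hcomm' : ∀ j k, f (t k) (t j) = f (t j) (t k) := by
    intro j k
    rcases le_total j k with hjk | hjk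
    · exact hcomm j k hjk
    · exact (hcomm k j hjk).symm
  -- S3
  have hS3a : ∀ p j, f (l p) (t (j+1)) ≤ f p (t j) := by
    intro p j
    have h1 : Tendsto (fun k => f (f p (t k)) (t (j+1))) atTop (𝓝 (f (l p) (t (j+1)))) :=
      ((h.contR (t (j+1))).tendsto _).comp (hl1 p)
    have h2 : ∀ k, j + 1 ≤ k → f (f p (t k)) (t (j+1)) ≤ f p (t j) := by
      intro k hk
      induction k, hk using Nat.le_induction with
      | base => rw [h.af, ht]
      | succ k hk ih =>
        refine le_trans ?_ ih
        rw [← ht k, ← h.af p, h.af (f p (t (k+1))) (t (k+1)) (t (j+1)), hcomm' (j+1) (k+1),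
          ← h.af (f p (t (k+1)))]
        exact (h.lt_left _ _).le
    exact le_of_tendsto h1 (eventually_atTop.2 ⟨j+1, fun k hk => h2 k hk⟩)
  have hS3 : ∀ p, l (l p) = l p := by
    intro p
    apply le_antisymm _ (hl2 _)
    exact ge_of_tendsto' (hl1 p) (fun j => (hl3 (l p) (j+1)).trans (hS3a p j))
  -- S5
  have hS5 : ∀ x, l x = x → ∀ u, f x x ≤ u → l u = u := by
    intro x hx u hu
    have : u ∈ range (fun s => f s x) := mem_range_of_exists_le_of_exists_ge (h.contR x)
      ⟨x, hu⟩ ⟨u, (h.lt_left u x).le⟩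
    obtain ⟨s, rfl⟩ := this
    simp only
    rw [hS2, hx]
  -- S6
  have hS6 : ∀ k, f (l (t (k+2))) (l (t (k+2))) ≤ t k := by
    intro k
    have h1 : Tendsto (fun j => f (f (t (k+2)) (t j)) (f (t (k+2)) (t j))) atTop
        (𝓝 (f (l (t (k+2))) (l (t (k+2))))) := (h.contD.tendsto _).comp (hl1 (t (k+2)))
    refine le_of_tendsto h1 (eventually_atTop.2 ⟨k+2, fun j hj => ?_⟩)
    obtain ⟨i, rfl⟩ := Nat.exists_eq_add_of_le hj
    have e1 : f (f (t (k+2)) (t (k+2+i))) (f (t (k+2)) (t (k+2+i))) = f (t (k+1)) (t (k+1+i)) := by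
      rw [h.af, ← h.af (t (k+2+i)), hcomm' (k+2) (k+2+i), h.af (t (k+2)) (t (k+2+i)), ← h.af (t (k+2)) (t (k+2)),
        show k + 2 = (k+1)+1 by ring, ht, show k + 1 + 1 + i = (k+1+i)+1 by ring, ht]
    rw [e1]
    calc f (t (k+1)) (t (k+1+i)) ≤ f (t (k+1)) (t (k+1)) := hanti _ (by omega)
      _ = t k := ht k
  have hid : ∀ u, l u = u := by
    intro u
    obtain ⟨k, hk⟩ := (htb.eventually (eventually_le_atBot u)).exists
    exact hS5 _ (hS3 _) u ((hS6 k).trans hk)
  intro x y hxy
  -- find z with f x z = y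
  have h1 : Tendsto (fun k => f x (t k)) atTop (𝓝 x) := by
    have := hl1 x
    rwa [hid] at this
  obtain ⟨k, hk⟩ := (h1.eventually (gt_mem_nhds hxy)).exists
  have : y ∈ range (f x) := mem_range_of_exists_le_of_exists_ge (h.contL x)
    ⟨t k, hk.le⟩ ⟨y, (h.lt_right x y).le⟩
  obtain ⟨z, rfl⟩ := this
  rw [← h.af]
  exact h.lt_left _ _


theorem AH.upPair_false (h : AH f g) (hf : Up f) (hg : Up g) : False := by
  obtain ⟨G, hG, h1, h2, h3⟩ := h.inv
  -- the diagonal values of f are not bounded below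
  have hunb : ∀ m, ∃ x, f x x < m := by
    intro m
    by_contra hcon
    push Not at hcon
    -- connectedness of {f < m}
    have hconn : IsPreconnected ((fun p : ℝ × ℝ => (G p.1 p.2).1 - (G p.1 p.2).2) ''
        (Iio m ×ˢ (univ : Set ℝ))) := by
      apply IsPreconnected.image
      · exact (isPreconnected_Iio).prod isPreconnected_univ
      · exact (hG.fst.sub hG.snd).continuousOn
    have hne : ∀ x y, f x y < m → x ≠ y := by
      intro x y hxy hxy'
      subst hxy'
      have := hcon x
      linarith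
    have hmem : ∀ x y, f x y < m → x - y ∈ ((fun p : ℝ × ℝ => (G p.1 p.2).1 - (G p.1 p.2).2) ''
        (Iio m ×ˢ (univ : Set ℝ))) := by
      intro x y hxy
      exact ⟨(f x y, g x y), ⟨hxy, trivial⟩, by simp [h3]⟩
    have h0 : (0:ℝ) ∉ ((fun p : ℝ × ℝ => (G p.1 p.2).1 - (G p.1 p.2).2) ''
        (Iio m ×ˢ (univ : Set ℝ))) := by
      rintro ⟨⟨p, q⟩, ⟨hp, -⟩, hpq⟩
      simp only at hpq
      refine hne (G p q).1 (G p q).2 (by rw [h1]; exact hp) (by linarith)
    have hside : (∀ x y, f x y < m → x < y) ∨ (∀ x y, f x y < m → y < x) := by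
      by_contra hc
      push Not at hc
      obtain ⟨⟨x, y, hxy, hle⟩, ⟨x', y', hxy', hle'⟩⟩ := hc
      exact h0 (hconn.ordConnected.out (hmem _ _ hxy') (hmem _ _ hxy) ⟨by linarith, by linarith⟩)
    have hbd : ∀ a b : ℝ, ∃ C, ∀ x y, a ≤ x → x ≤ b → a ≤ y → y ≤ b → g x y < C := by
      intro a b
      have hcpt : IsCompact ((fun p : ℝ × ℝ => g p.1 p.2) '' (Icc a b ×ˢ Icc a b)) :=
        (isCompact_Icc.prod isCompact_Icc).image h.cg
      obtain ⟨C, hC⟩ := hcpt.bddAbove
      refine ⟨C + 1, fun x y hx hx' hy hy' => ?_⟩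
      have : g x y ≤ C := hC ⟨(x, y), ⟨⟨hx, hx'⟩, ⟨hy, hy'⟩⟩, rfl⟩
      linarith
    rcases hside with hs | hs
    · -- point with small product
      set x := (G (m-1) 0).1 with hx
      set y := (G (m-1) 0).2 with hy
      have hxy : f x y = m - 1 := h1 _ _
      obtain ⟨C, hC⟩ := hbd x y
      have hp1 : f (G y C).1 (G y C).2 = y := h1 _ _
      have hp2 : g (G y C).1 (G y C).2 = C := h2 _ _
      set p := (G y C).1
      set q := (G y C).2
      have hyz : y < f x y := hf.lt_right x y
      have hpq : p < q := hs p q (by rw [hp1]; linarith)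
      have hqy : q < y := by rw [← hp1]; exact hf.lt_right p q
      have h4 : f (f x p) q = m - 1 := by rw [h.af, hp1, hxy]
      have h5 : f x p < m - 1 := by rw [← h4]; exact hf.lt_left _ _
      have hxp : x < p := hs x p (by linarith)
      have := hC p q hxp.le (by linarith) (by linarith) hqy.le
      linarith
    · set x := (G (m-1) 0).1 with hx
      set y := (G (m-1) 0).2 with hy
      have hxy : f x y = m - 1 := h1 _ _
      obtain ⟨C, hC⟩ := hbd y x
      have hp1 : f (G x C).1 (G x C).2 = x := h1 _ _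
      have hp2 : g (G x C).1 (G x C).2 = C := h2 _ _
      set p := (G x C).1
      set q := (G x C).2
      have hxz : x < f x y := hf.lt_left x y
      have hpq : q < p := hs p q (by rw [hp1]; linarith)
      have hpx : p < x := by rw [← hp1]; exact hf.lt_left p q
      have h4 : f p (f q y) = m - 1 := by rw [← h.af, hp1, hxy]
      have h5 : f q y < m - 1 := by rw [← h4]; exact hf.lt_right _ _
      have hyq : y < q := hs q y (by linarith)
      have := hC p q (by linarith) hpx.le hyq.le (by linarith)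
      linarith
  -- square roots
  have hroot : ∀ z, ∃ x, f x x = z := by
    intro z
    obtain ⟨x1, hx1⟩ := hunb z
    exact mem_range_of_exists_le_of_exists_ge hf.contD ⟨x1, hx1.le⟩ ⟨z, (hf.up z).le⟩
  choose r hr using hroot
  let t : ℕ → ℝ := fun k => r^[k] 0
  have ht : ∀ k, f (t (k+1)) (t (k+1)) = t k := by
    intro k
    simp only [t, Function.iterate_succ_apply', hr]
  have hlt : ∀ k, t (k+1) < t k := by
    intro k
    rw [← ht k]
    exact hf.up _
  have htb : Tendsto t atTop atBot := by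
    rcases tendsto_atTop_of_antitone (antitone_nat_of_succ_le fun k => (hlt k).le) with h5 | ⟨l, hl⟩
    · exact h5
    · exfalso
      have h6 : Tendsto (fun n => t (n+1)) atTop (𝓝 l) := hl.comp (tendsto_add_atTop_nat 1)
      have h7 : Tendsto (fun n => f (t (n+1)) (t (n+1))) atTop (𝓝 (f l l)) :=
        (hf.contD.tendsto l).comp h6
      simp only [ht] at h7
      have := tendsto_nhds_unique h7 hl
      have h8 := hf.up l
      linarith
  have hL : ∀ a, StrictMono (f a) := hf.strictMono_of_roots t ht htb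
  have hR : ∀ a, StrictMono (fun x => f x a) := fun a => hf.op.strictMono_of_roots t ht htb a
  obtain ⟨d, hd⟩ := hunb 0
  have e1 : f (G 0 d).1 (G 0 d).2 = 0 := h1 _ _
  have e2 : g (G 0 d).1 (G 0 d).2 = d := h2 _ _
  have e3 : (G 0 d).1 < d := by
    have := hg.lt_left (G 0 d).1 (G 0 d).2
    rwa [e2] at this
  have e4 : (G 0 d).2 < d := by
    have := hg.lt_right (G 0 d).1 (G 0 d).2
    rwa [e2] at this
  have e5 : f (G 0 d).1 (G 0 d).2 < f (G 0 d).1 d := hL _ e4
  have e6 : f (G 0 d).1 d < f d d := hR _ e3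
  linarith

theorem up_or_down (cf : Continuous fun p : ℝ × ℝ => f p.1 p.2)
    (af : ∀ a b c, f (f a b) c = f a (f b c)) (hno : ∀ x, f x x ≠ x) :
    Up f ∨ Up (fun x y => -f (-x) (-y)) := by
  have hc : Continuous fun s => f s s - s := by
    have : Continuous fun s => f s s := cf.comp (by fun_prop : Continuous fun s : ℝ => (s, s))
    exact this.sub continuous_id
  by_cases hall : ∀ x, x < f x x
  · exact Or.inl ⟨cf, af, hall⟩
  · right
    push Not at hall
    obtain ⟨x0, hx0⟩ := hall
    have hneg : Continuous fun p : ℝ × ℝ => (-p.1, -p.2) := by fun_prop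
    refine ⟨(cf.comp hneg).neg, fun a b c => by simp [af], ?_⟩
    intro x
    by_contra hcon
    push Not at hcon
    have : (0:ℝ) ∈ range fun s => f s s - s := mem_range_of_exists_le_of_exists_ge hc
      ⟨x0, by linarith⟩ ⟨-x, by linarith⟩
    obtain ⟨s, hs⟩ := this
    exact hno s (by simp only at hs; linarith)

/-- one of the two coordinates is a projection -/
theorem AH.proj (h : AH f g) : ¬ (NP f ∧ NP g) := by
  rintro ⟨hf, hg⟩
  -- no common commuting pair
  have key : ∀ x y, x ≠ y → f x y = f y x → g x y = g y x → False := by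
    intro x y hne h1 h2
    exact hne (h.inj h1 h2).1
  -- idempotent in one of them
  have hidem : ∀ {f g : ℝ → ℝ → ℝ}, AH f g → NP f → NP g → ∀ e, f e e = e → False := by
    intro f g h hf hg e he
    have hcen := h.central hf he
    by_cases hge : g e e = e
    · have hcen' := h.swap.central hg hge
      have := (h.inj (hcen (e+1)) (hcen' (e+1))).1
      linarith
    · have h2 : g e (g e e) = g (g e e) e := (h.ag _ _ _).symm
      have := (h.inj (hcen (g e e)) h2).1
      exact hge this.symm
  have hnf : ∀ e, f e e ≠ e := fun e he => hidem h hf hg e he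
  have hng : ∀ e, g e e ≠ e := fun e he => hidem h.swap hg hf e he
  have hopp : ∀ {f g : ℝ → ℝ → ℝ}, AH f g → Up f → Up (fun x y => -g (-x) (-y)) → False := by
    intro f g h hf hg
    obtain ⟨G, hG, h1, h2, h3⟩ := h.inv
    have e1 : f (G 0 1).1 (G 0 1).2 = 0 := h1 _ _
    have e2 : g (G 0 1).1 (G 0 1).2 = 1 := h2 _ _
    have e3 := hf.lt_left (G 0 1).1 (G 0 1).2
    have e4 := hg.lt_left (-(G 0 1).1) (-(G 0 1).2)
    simp only [neg_neg, e2] at e4
    rw [e1] at e3
    linarith
  rcases up_or_down h.cf h.af hnf with h1 | h1 <;> rcases up_or_down h.cg h.ag hng with h2 | h2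
  · exact h.upPair_false h1 h2
  · exact hopp h h1 h2
  · exact hopp h.swap h2 h1
  · exact h.neg.upPair_false h1 h2

/-- monotone in each variable -/
def Mono2 (f : ℝ → ℝ → ℝ) : Prop := ∀ x x' y y', x ≤ x' → y ≤ y' → f x y ≤ f x' y'

/-- if the first coordinate is the left projection then the second is monotone -/
theorem AH.mono_of_lproj (h : AH f g) (hf : ∀ x y, f x y = x) : Mono2 g := by
  obtain ⟨G, hG, h1, h2, h3⟩ := h.inv
  have hinj : ∀ x y y', g x y = g x y' → y = y' := by
    intro x y y' hxy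
    exact (h.inj (by rw [hf, hf]) hxy).2
  have hsurj : ∀ x q, ∃ y, g x y = q := by
    intro x q
    refine ⟨(G x q).2, ?_⟩
    have e1 := h1 x q
    rw [hf] at e1
    have e2 := h2 x q
    rwa [e1] at e2
  by_cases hnp : NP g
  · obtain ⟨e, he0⟩ := hsurj 0 0
    have he : g e e = e := by
      apply hinj 0
      rw [← h.ag, he0, he0]
    have hcen := h.swap.central hnp he
    have hid : ∀ y, g e y = y := by
      intro y
      apply hinj e
      rw [← h.ag, he]
    have hid' : ∀ y, g y e = y := fun y => by rw [← hcen, hid]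
    have hinjR : ∀ y x x', g x y = g x' y → x = x' := by
      intro y x x' hxx
      obtain ⟨y', hy'⟩ := hsurj y e
      calc x = g x (g y y') := by rw [hy', hid']
        _ = g x' (g y y') := by rw [← h.ag, hxx, h.ag]
        _ = x' := by rw [hy', hid']
    have hcL : ∀ x, Continuous (g x) := fun x => h.swap.contL x
    have hcR : ∀ y, Continuous (fun x => g x y) := fun y => h.swap.contR y
    have hposL : ∀ x, g x 0 < g x 1 := by
      intro x
      by_contra hcon
      push Not at hcon
      have hc : Continuous fun s => g s 1 - g s 0 := (hcR 1).sub (hcR 0)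
      have : (0:ℝ) ∈ range fun s => g s 1 - g s 0 := mem_range_of_exists_le_of_exists_ge hc
        ⟨x, by linarith⟩ ⟨e, by simp [hid]⟩
      obtain ⟨s, hs⟩ := this
      have := hinj s 1 0 (by simp only at hs; linarith)
      norm_num at this
    have hposR : ∀ y, g 0 y < g 1 y := by
      intro y
      by_contra hcon
      push Not at hcon
      have hc : Continuous fun s => g 1 s - g 0 s := (hcL 1).sub (hcL 0)
      have : (0:ℝ) ∈ range fun s => g 1 s - g 0 s := mem_range_of_exists_le_of_exists_ge hc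
        ⟨y, by linarith⟩ ⟨e, by simp [hid']⟩
      obtain ⟨s, hs⟩ := this
      have := hinjR s 1 0 (by simp only at hs; linarith)
      norm_num at this
    have hmL : ∀ x, StrictMono (g x) := by
      intro x
      rcases (hcL x).strictMono_of_inj (fun a b hab => hinj x a b hab) with hm | hm
      · exact hm
      · have := hm (show (0:ℝ) < 1 by norm_num)
        have := hposL x
        linarith
    have hmR : ∀ y, StrictMono (fun x => g x y) := by
      intro y
      rcases (hcR y).strictMono_of_inj (fun a b hab => hinjR y a b hab) with hm | hm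
      · exact hm
      · have := hm (show (0:ℝ) < 1 by norm_num)
        simp only at this
        have := hposR y
        linarith
    intro x x' y y' hx hy
    exact ((hmL x).monotone hy).trans ((hmR y').monotone hx)
  · -- g is a projection
    have : (∀ s y, g s y = y) ∨ (∀ y s, g y s = y) := by
      by_contra hc
      push Not at hc
      refine hnp ⟨fun hh => ?_, fun hh => ?_⟩
      · obtain ⟨⟨s, y, hsy⟩, -⟩ := hc
        exact hsy (hh s y)
      · obtain ⟨-, ⟨y, s, hys⟩⟩ := hc
        exact hys (hh y s)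
    rcases this with hh | hh
    · intro x x' y y' hx hy
      rw [hh, hh]; exact hy
    · intro x x' y y' hx hy
      rw [hh, hh]; exact hx

theorem AH.mono_of_proj (h : AH f g) (hf : ¬ NP f) : Mono2 f ∧ Mono2 g := by
  have : (∀ s y, f s y = y) ∨ (∀ y s, f y s = y) := by
    by_contra hc
    push Not at hc
    refine hf ⟨fun hh => ?_, fun hh => ?_⟩
    · obtain ⟨⟨s, y, hsy⟩, -⟩ := hc
      exact hsy (hh s y)
    · obtain ⟨-, ⟨y, s, hys⟩⟩ := hc
      exact hys (hh y s)
  rcases this with hh | hh
  · refine ⟨fun x x' y y' hx hy => by rw [hh, hh]; exact hy, ?_⟩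
    have := h.op.mono_of_lproj (fun x y => hh y x)
    intro x x' y y' hx hy
    exact this y y' x x' hy hx
  · exact ⟨fun x x' y y' hx hy => by rw [hh, hh]; exact hx, h.mono_of_lproj hh⟩

theorem AH.mono (h : AH f g) : Mono2 f ∧ Mono2 g := by
  by_cases hf : NP f
  · have hg : ¬ NP g := fun hg => h.proj ⟨hf, hg⟩
    exact (h.swap.mono_of_proj hg).symm
  · exact h.mono_of_proj hf

/-- planar statement transported to ℝ × ℝ -/
theorem surj_real (B G : ℝ × ℝ → ℝ × ℝ) (hB : Continuous B) (hG : Continuous G)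
    (hGB : ∀ z, G (B z) = z) : Function.Surjective B := by
  let e : ℂ ≃L[ℝ] ℝ × ℝ := Complex.equivRealProdCLM
  have h := surj_of_leftInverse (fun z => e.symm (B (e z))) (fun z => e.symm (G (e z)))
    (e.symm.continuous.comp (hB.comp e.continuous)) (e.symm.continuous.comp (hG.comp e.continuous))
    (fun z => by simp [hGB])
  intro p
  obtain ⟨z, hz⟩ := h (e.symm p)
  exact ⟨e z, e.symm.injective hz⟩

/-- associative coordinates -/
def Good (S : ℝ × ℝ → ℝ × ℝ) : Prop := Continuous S ∧
          (∀ a b c : ℝ, (S ((S (a, b)).1, c)).1 = (S (a, (S (b, c)).1)).1) ∧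
          (∀ a b c : ℝ, (S ((S (a, b)).2, c)).2 = (S (a, (S (b, c)).2)).2)

theorem Good.monotone {S I : ℝ × ℝ → ℝ × ℝ} (h : Good S) (hI : Continuous I)
    (h1 : ∀ p, I (S p) = p) (h2 : ∀ p, S (I p) = p) : Monotone S := by
  have hAH : AH (fun x y => (S (x, y)).1) (fun x y => (S (x, y)).2) := by
    refine ⟨h.1.fst, h.1.snd, fun a b c => h.2.1 a b c, fun a b c => h.2.2 a b c,
      fun p q => I (p, q), hI, ?_, ?_, ?_⟩
    · intro p q; simp [h2]
    · intro p q; simp [h2]
    · intro x y; simp [h1]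
  obtain ⟨m1, m2⟩ := hAH.mono
  intro p q hpq
  exact ⟨m1 _ _ _ _ hpq.1 hpq.2, m2 _ _ _ _ hpq.1 hpq.2⟩

theorem foldr_continuous (L : List (ℝ × ℝ → ℝ × ℝ)) (hL : ∀ S ∈ L, Good S) :
    Continuous (L.foldr (fun S R => S ∘ R) id) := by
  induction L with
  | nil => exact continuous_id
  | cons S L ih =>
    simp only [List.foldr_cons]
    exact (hL S (by simp)).1.comp (ih fun S' hS' => hL S' (by simp [hS']))

theorem foldr_monotone (L : List (ℝ × ℝ → ℝ × ℝ)) (hL : ∀ S ∈ L, Good S)
    (I : ℝ × ℝ → ℝ × ℝ) (hI : Continuous I)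
    (h1 : ∀ p, I (L.foldr (fun S R => S ∘ R) id p) = p)
    (h2 : ∀ p, L.foldr (fun S R => S ∘ R) id (I p) = p) :
    Monotone (L.foldr (fun S R => S ∘ R) id) := by
  induction L generalizing I with
  | nil => exact monotone_id
  | cons S L ih =>
    simp only [List.foldr_cons, Function.comp_apply] at h1 h2 ⊢
    have hL' : ∀ S ∈ L, Good S := fun S' hS' => hL S' (by simp [hS'])
    have hS : Good S := hL S (by simp)
    set R := L.foldr (fun S R => S ∘ R) id with hR
    have hRc : Continuous R := foldr_continuous L hL'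
    have hJc : Continuous (fun p => I (S p)) := hI.comp hS.1
    have hsurj : Function.Surjective R := surj_real R (fun p => I (S p)) hRc hJc h1
    have hRJ : ∀ p, R (I (S p)) = p := by
      intro p
      obtain ⟨z, rfl⟩ := hsurj p
      rw [h1]
    have hRm : Monotone R := ih hL' (fun p => I (S p)) hJc h1 hRJ
    have hSm : Monotone S := hS.monotone (I := fun p => R (I p)) (hRc.comp hI) hRJ h2
    exact hSm.comp hRm

/-- The negation of the preceding statement: Every continuous map of the plane to itself equals a finite composition of continuous plane maps (f,g) in which both f and g, viewed as binary operations on the reals, are associative. -/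
theorem result :
    ¬ (∀ T : ℝ × ℝ → ℝ × ℝ, Continuous T →
      ∃ L : List (ℝ × ℝ → ℝ × ℝ),
        (∀ S ∈ L, Continuous S ∧
          (∀ a b c : ℝ, (S ((S (a, b)).1, c)).1 = (S (a, (S (b, c)).1)).1) ∧
          (∀ a b c : ℝ, (S ((S (a, b)).2, c)).2 = (S (a, (S (b, c)).2)).2)) ∧
        T = L.foldr (fun S R => S ∘ R) id) := by
  intro hall
  have hT : Continuous (fun p : ℝ × ℝ => (p.1, -p.2)) := by fun_prop
  obtain ⟨L, hL, hTL⟩ := hall _ hT
  have hm : Monotone (L.foldr (fun S R => S ∘ R) id) := by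
    apply foldr_monotone L hL (fun p : ℝ × ℝ => (p.1, -p.2)) hT
    · intro p; rw [← hTL]; simp
    · intro p; rw [← hTL]; simp
  rw [← hTL] at hm
  have h1 : ((0:ℝ), (0:ℝ)) ≤ ((0:ℝ), (1:ℝ)) := ⟨le_refl _, zero_le_one⟩
  have h2 := (hm h1).2
  simp only at h2
  norm_num at h2

end Pool.Agent.S04636
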