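import Pool.Statements.S04735
import Pool.Agent.Squeeze.Geom


set_option autoImplicit false
open Filter Topology
open Pool Pool.MP_58a9b9_an

namespace Pool.Agent.S04735

/-- For a bounded convex domain in C^n (n≥2) with smooth finite-line-type boundary near p, if points z_k tend to p inside a paraboloid and the squeezing function at z_k tends to 1, then the Levi form at p is positive definite. -/
theorem result :
    ∀ (n : ℕ), 2 ≤ n → ∀ (D : Set (EuclideanSpace ℂ (Fin n))),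
      IsOpen D → D.Nonempty → Convex ℝ D → Bornology.IsBounded D →
      ∀ p ∈ frontier D,
      ∀ (U : Set (EuclideanSpace ℂ (Fin n))) (ρ : EuclideanSpace ℂ (Fin n) → ℝ),
        IsOpen U → p ∈ U → ContDiffOn ℝ (⊤ : ℕ∞) ρ U →
        (∀ z ∈ U, fderiv ℝ ρ z ≠ 0) →
        (∀ z ∈ U, z ∈ D ↔ ρ z < 0) →
        (∃ L : ℕ, ∀ q ∈ U, ρ q = 0 → ∀ v : EuclideanSpace ℂ (Fin n), v ≠ 0 →
          ∃ k : ℕ, 1 ≤ k ∧ k ≤ L ∧
            iteratedFDeriv ℝ k (fun ζ : ℂ => ρ (q + ζ • v)) 0 ≠ 0) →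
        ∀ z : ℕ → EuclideanSpace ℂ (Fin n), (∀ k, z k ∈ D) →
          Tendsto z atTop (𝓝 p) →
          (∃ C : ℝ, ∀ k, ‖z k - p‖ ^ 2 ≤ C * Metric.infDist (z k) (frontier D)) →
          (∀ ε : ℝ, 0 < ε → ∀ᶠ k in atTop,
            ∃ f : EuclideanSpace ℂ (Fin n) → EuclideanSpace ℂ (Fin n),
              DifferentiableOn ℂ f D ∧ Set.InjOn f D ∧
              Set.MapsTo f D (Metric.ball 0 1) ∧ f (z k) = 0 ∧
              Metric.ball 0 (1 - ε) ⊆ f '' D) →
          ∀ w : EuclideanSpace ℂ (Fin n), w ≠ 0 →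
            fderiv ℝ ρ p w = 0 → fderiv ℝ ρ p (Complex.I • w) = 0 →
            0 < iteratedFDeriv ℝ 2 ρ p ![w, w] +
                iteratedFDeriv ℝ 2 ρ p ![Complex.I • w, Complex.I • w] := by
  intro n _ D hDo _ hDc _ p hp U ρ hU hpU hρ hdρ hDρ hL z hz hzp hC hsq w hw0 hw1 hw2
  obtain ⟨L, hL⟩ := hL
  obtain ⟨C, hC⟩ := hC
  have hρp : ρ p = 0 := by
    have hρd : DifferentiableAt ℝ ρ p := (hρ.differentiableOn (by simp)).differentiableAt (hU.mem_nhds hpU)
    have hpD : p ∉ D := by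
      have := hDo.frontier_eq ▸ hp
      exact this.2
    apply le_antisymm
    · by_contra h
      push Not at h
      have h1 : ∀ᶠ x in 𝓝 p, 0 < ρ x := hρd.continuousAt.eventually (lt_mem_nhds h)
      have h2 : ∃ᶠ x in 𝓝 p, x ∈ D := mem_closure_iff_frequently.1 (frontier_subset_closure hp)
      obtain ⟨x, hx1, hx2, hx3⟩ := (h2.and_eventually (h1.and (hU.mem_nhds hpU))).exists
      have := (hDρ x hx3).1 hx1
      linarith
    · by_contra h
      push Not at h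
      exact hpD ((hDρ p hpU).2 h)
  obtain ⟨k, hk1, _, hk2⟩ := hL p hpU hρp w hw0
  exact Pool.Agent.Squeeze.main D hDo hDc p hp U ρ hU hpU hρ (hdρ p hpU) hDρ w hw0 ⟨k, hk1, hk2⟩ z hz hzp C
    hC hsq hw1 hw2

end Pool.Agent.S04735
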