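-- Frozen statement S04781 (MP_5ce378_an), proof by helper71.
import Pool.Statements.S04781
import Pool.Agent.Helper71.Torsion

set_option autoImplicit false
open Pool Pool.MP_5ce378_an

namespace Pool.Agent.S04781

/-- For d≥2, 0<α<1 and D a nonempty bounded open convex set in R^d, any continuous φ vanishing off D with ∫(φ(x)-φ(y))/∣x-y∣^(d+α)dy = 1 (absolutely convergent) at every x in D is concave on D. -/
theorem result :
    ∀ d : ℕ, 2 ≤ d → ∀ α : ℝ, 0 < α → α < 1 →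
    ∀ D : Set (EuclideanSpace ℝ (Fin d)), IsOpen D → Convex ℝ D →
      Bornology.IsBounded D → D.Nonempty →
    ∀ φ : EuclideanSpace ℝ (Fin d) → ℝ, Continuous φ →
      (∀ x, x ∉ D → φ x = 0) →
      (∀ x ∈ D,
        MeasureTheory.Integrable (fun y => (φ x - φ y) / ‖x - y‖ ^ ((d : ℝ) + α)) ∧
        ∫ y, (φ x - φ y) / ‖x - y‖ ^ ((d : ℝ) + α) = 1) →
      ConcaveOn ℝ D φ := by
  intro d hd α hα hα1 D hDo hDc hDb _ φ hφ hoff heq
  obtain ⟨hnn, hpc⟩ := Pool.Agent.Helper71.Torsion.power_concave hα (by omega) hDo hDc hDb hφ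
    hoff heq
  refine ⟨hDc, fun x hx y hy a b ha hb hab => ?_⟩
  have hvα : ∀ z, (φ z ^ (1 / α)) ^ α = φ z := by
    intro z
    rw [← Real.rpow_mul (hnn z), one_div, inv_mul_cancel₀ hα.ne', Real.rpow_one]
  have h1 := hpc x hx y hy a b ha hb hab
  have h2 := (Real.concaveOn_rpow hα.le hα1.le).2
    (show φ x ^ (1 / α) ∈ Set.Ici (0:ℝ) from Real.rpow_nonneg (hnn x) _)
    (show φ y ^ (1 / α) ∈ Set.Ici (0:ℝ) from Real.rpow_nonneg (hnn y) _) ha hb hab
  simp only [smul_eq_mul, hvα] at h2 ⊢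
  exact h2.trans h1

end Pool.Agent.S04781
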