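import Pool.Statements.S04882
import Pool.Agent.Helper52.SmFinal

set_option autoImplicit false
open Pool Pool.MP_65146e_an

namespace Pool.Agent.S04882

/-- The negation of the preceding statement: Every real Banach space whose weak* dual ball is Corson compact (WLD) and that has an equivalent norm Gâteaux differentiable off 0 also has an equivalent norm whose dual norm is strictly convex. -/
theorem result :
    ¬ (∀ (X : Type) [NormedAddCommGroup X] [NormedSpace ℝ X] [CompleteSpace X],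
    (∃ (Γ : Type) (φ : WeakDual ℝ X → (Γ → ℝ)),
        ContinuousOn φ {f : WeakDual ℝ X | ∀ x : X, |f x| ≤ ‖x‖} ∧
        Set.InjOn φ {f : WeakDual ℝ X | ∀ x : X, |f x| ≤ ‖x‖} ∧
        ∀ f ∈ {f : WeakDual ℝ X | ∀ x : X, |f x| ≤ ‖x‖},
          (Function.support (φ f)).Countable) →
    (∃ N : X → ℝ,
        (∃ c C : ℝ, 0 < c ∧ 0 < C ∧ ∀ x : X, c * ‖x‖ ≤ N x ∧ N x ≤ C * ‖x‖) ∧
        (∀ x y : X, N (x + y) ≤ N x + N y) ∧
        (∀ (a : ℝ) (x : X), N (a • x) = |a| * N x) ∧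
        ∀ x : X, x ≠ 0 → ∃ L : X →L[ℝ] ℝ, ∀ v : X, HasLineDerivAt ℝ N (L v) x v) →
    ∃ M : X → ℝ,
        (∃ c C : ℝ, 0 < c ∧ 0 < C ∧ ∀ x : X, c * ‖x‖ ≤ M x ∧ M x ≤ C * ‖x‖) ∧
        (∀ x y : X, M (x + y) ≤ M x + M y) ∧
        (∀ (a : ℝ) (x : X), M (a • x) = |a| * M x) ∧
        ∀ f g : X →L[ℝ] ℝ, f ≠ g → (∀ x : X, f x ≤ M x) → (∀ x : X, g x ≤ M x) →
          ∃ r : ℝ, r < 1 ∧ ∀ x : X, (1 / 2 : ℝ) * (f x + g x) ≤ r * M x) := by
  intro H
  obtain ⟨e, he⟩ := Pool.Agent.Helper52.Smulyan.exists_FTO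
  let Z := Pool.Agent.Helper52.Smulyan.sysW e
  obtain ⟨M, ⟨c, C, hc, hC, hM⟩, _, _, hSC⟩ := H (Pool.Agent.Helper52.Smulyan.W e)
    (Pool.Agent.Helper52.Smulyan.wld Pool.Agent.Helper52.Smulyan.Om_CB
      Pool.Agent.Helper52.Smulyan.Om_Iic Z)
    ⟨fun x => Pool.Agent.Helper52.Smulyan.Nb e (Z.co x),
      ⟨1, 12, one_pos, by norm_num, fun x => ⟨by
        rw [one_mul]
        exact Pool.Agent.Helper52.Smulyan.NX_ge Z x, Pool.Agent.Helper52.Smulyan.NX_le Z x⟩⟩,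
      Pool.Agent.Helper52.Smulyan.NX_add Z, Pool.Agent.Helper52.Smulyan.NX_smul Z,
      Pool.Agent.Helper52.Smulyan.NX_gateaux Z⟩
  exact Pool.Agent.Helper52.Smulyan.no_rotund Pool.Agent.Helper52.Smulyan.Om_CB he Z M c C hc hC
    (fun x => (hM x).1) (fun x => (hM x).2) hSC

end Pool.Agent.S04882
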