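import Pool.Statements.S05092
import Pool.Agent.Compl.Core
import Pool.Agent.Helper45.KCD

set_option autoImplicit false
open Pool Pool.MP_775545_an

namespace Pool.Agent.S05092

/-- The negation of the preceding statement: For every separable C*-algebra A with an injective *-homomorphism of the compact operators on ℓ² onto a two-sided ideal of A, there is a bounded linear map A → A with range in that ideal that fixes the ideal pointwise. -/
theorem result :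
    ¬ (∀ (A : Type) [NonUnitalCStarAlgebra A] [TopologicalSpace.SeparableSpace A]
      (φ : (lp (fun _ : ℕ => ℂ) 2 →L[ℂ] lp (fun _ : ℕ => ℂ) 2) →ₗ[ℂ] A),
      (∀ x y : lp (fun _ : ℕ => ℂ) 2 →L[ℂ] lp (fun _ : ℕ => ℂ) 2,
        IsCompactOperator (⇑x) → IsCompactOperator (⇑y) → φ (x * y) = φ x * φ y) →
      (∀ x : lp (fun _ : ℕ => ℂ) 2 →L[ℂ] lp (fun _ : ℕ => ℂ) 2,
        IsCompactOperator (⇑x) → φ (star x) = star (φ x)) →
      (∀ x : lp (fun _ : ℕ => ℂ) 2 →L[ℂ] lp (fun _ : ℕ => ℂ) 2,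
        IsCompactOperator (⇑x) → φ x = 0 → x = 0) →
      (∀ (a : A) (x : lp (fun _ : ℕ => ℂ) 2 →L[ℂ] lp (fun _ : ℕ => ℂ) 2),
        IsCompactOperator (⇑x) →
          (∃ y : lp (fun _ : ℕ => ℂ) 2 →L[ℂ] lp (fun _ : ℕ => ℂ) 2,
              IsCompactOperator (⇑y) ∧ a * φ x = φ y) ∧
          (∃ z : lp (fun _ : ℕ => ℂ) 2 →L[ℂ] lp (fun _ : ℕ => ℂ) 2,
              IsCompactOperator (⇑z) ∧ φ x * a = φ z)) →
      ∃ P : A →L[ℂ] A,
        (∀ a : A, ∃ x : lp (fun _ : ℕ => ℂ) 2 →L[ℂ] lp (fun _ : ℕ => ℂ) 2,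
            IsCompactOperator (⇑x) ∧ P a = φ x) ∧
        (∀ x : lp (fun _ : ℕ => ℂ) 2 →L[ℂ] lp (fun _ : ℕ => ℂ) 2,
            IsCompactOperator (⇑x) → P (φ x) = φ x)) := by
  intro hmain
  obtain ⟨S, hS, hcore⟩ := Pool.Agent.Compl.core
  obtain ⟨P, K, hK, hP1, hP2⟩ := Pool.Agent.Helper45.KCD.of_main hmain S hS
  exact hcore P K hK hP1 hP2

end Pool.Agent.S05092
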