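import Pool.Statements.S05247
-- import your own Pool.Agent.* helpers here
import Pool.Agent.Helper47.Roe.NoMap

set_option autoImplicit false
open Classical
open Pool Pool.MP_832ffe_an

namespace Pool.Agent.S05247

open Pool.Agent.Helper47.Roe in
/-- There exist uniformly locally finite metric spaces X, Y with an injective, compact-preserving ⋆-homomorphism from the uniform Roe algebra of X into that of Y, but no bornologous map X→Y whose fibres are uniformly bounded in size. -/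
theorem result :
  ∃ (X Y : Type) (_ : MetricSpace X) (_ : MetricSpace Y),
    (∀ r : ℝ, ∃ N : ℕ, ∀ x : X,
        (Metric.closedBall x r).Finite ∧ (Metric.closedBall x r).ncard ≤ N) ∧
    (∀ r : ℝ, ∃ N : ℕ, ∀ y : Y,
        (Metric.closedBall y r).Finite ∧ (Metric.closedBall y r).ncard ≤ N) ∧
    (∃ Φ : (lp (fun _ : X => ℂ) 2 →L[ℂ] lp (fun _ : X => ℂ) 2) →
        (lp (fun _ : Y => ℂ) 2 →L[ℂ] lp (fun _ : Y => ℂ) 2),
      (∀ a ∈ closure {T : lp (fun _ : X => ℂ) 2 →L[ℂ] lp (fun _ : X => ℂ) 2 |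
              ∃ r : ℝ, ∀ x x' : X, r < dist x x' → (T (lp.single 2 x (1 : ℂ))) x' = 0},
        ∀ b ∈ closure {T : lp (fun _ : X => ℂ) 2 →L[ℂ] lp (fun _ : X => ℂ) 2 |
              ∃ r : ℝ, ∀ x x' : X, r < dist x x' → (T (lp.single 2 x (1 : ℂ))) x' = 0},
        ∀ c : ℂ,
          Φ (a + b) = Φ a + Φ b ∧ Φ (c • a) = c • Φ a ∧
          Φ (a * b) = Φ a * Φ b ∧ Φ (star a) = star (Φ a)) ∧
      Set.InjOn Φ (closure {T : lp (fun _ : X => ℂ) 2 →L[ℂ] lp (fun _ : X => ℂ) 2 |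
              ∃ r : ℝ, ∀ x x' : X, r < dist x x' → (T (lp.single 2 x (1 : ℂ))) x' = 0}) ∧
      (∀ a ∈ closure {T : lp (fun _ : X => ℂ) 2 →L[ℂ] lp (fun _ : X => ℂ) 2 |
              ∃ r : ℝ, ∀ x x' : X, r < dist x x' → (T (lp.single 2 x (1 : ℂ))) x' = 0},
        Φ a ∈ closure {S : lp (fun _ : Y => ℂ) 2 →L[ℂ] lp (fun _ : Y => ℂ) 2 |
              ∃ r : ℝ, ∀ y y' : Y, r < dist y y' → (S (lp.single 2 y (1 : ℂ))) y' = 0}) ∧
      (∀ a ∈ closure {T : lp (fun _ : X => ℂ) 2 →L[ℂ] lp (fun _ : X => ℂ) 2 |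
              ∃ r : ℝ, ∀ x x' : X, r < dist x x' → (T (lp.single 2 x (1 : ℂ))) x' = 0},
        IsCompactOperator a → IsCompactOperator (Φ a))) ∧
    ¬ ∃ f : X → Y,
        (∀ r : ℝ, ∃ s : ℝ, ∀ x x' : X, dist x x' ≤ r → dist (f x) (f x') ≤ s) ∧
        (∃ N : ℕ, ∀ y : Y, (f ⁻¹' {y}).Finite ∧ (f ⁻¹' {y}).ncard ≤ N) := by
  have adj_eq : ContinuousLinearMap.adjoint (Uc pr) ∘L Uc pr = ContinuousLinearMap.id ℂ _ :=
    adj_Uc pr
  refine ⟨XS, YS, PX.metric, PY.metric, fun r => PX.ulf r, fun r => PY.ulf r,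
    ⟨fun T => Uc pr ∘L T ∘L ContinuousLinearMap.adjoint (Uc pr), ?_, ?_, ?_, ?_⟩, ?_⟩
  · intro a _ b _ c
    refine ⟨?_, ?_, ?_, ?_⟩
    · ext f y
      simp
    · ext f y
      simp
    · refine ContinuousLinearMap.ext (fun f => ?_)
      show Uc pr (a (b (ContinuousLinearMap.adjoint (Uc pr) f))) =
        Uc pr (a (ContinuousLinearMap.adjoint (Uc pr)
          (Uc pr (b (ContinuousLinearMap.adjoint (Uc pr) f)))))
      rw [adj_Uc_apply]
    · rw [ContinuousLinearMap.star_eq_adjoint, ContinuousLinearMap.star_eq_adjoint,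
        ContinuousLinearMap.adjoint_comp, ContinuousLinearMap.adjoint_comp,
        ContinuousLinearMap.adjoint_adjoint, ContinuousLinearMap.comp_assoc]
  · intro a _ b _ hab
    refine ContinuousLinearMap.ext (fun f => ?_)
    have h1 := DFunLike.congr_fun hab (Uc pr f)
    have h2 : Uc pr (a f) = Uc pr (b f) := by
      have h3 : Uc pr (a (ContinuousLinearMap.adjoint (Uc pr) (Uc pr f))) =
        Uc pr (b (ContinuousLinearMap.adjoint (Uc pr) (Uc pr f))) := h1
      rwa [adj_Uc_apply] at h3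
    have h4 := congrArg (ContinuousLinearMap.adjoint (Uc pr)) h2
    rwa [adj_Uc_apply, adj_Uc_apply] at h4
  · intro a ha
    exact @main_mem_closure XS YS PX PY pr _ _ (fun a b => Classical.propDecidable (a = b))
      (fun a b => Classical.propDecidable (a = b)) cover a ha
  · intro a _ ha
    exact (ha.comp_clm (ContinuousLinearMap.adjoint (Uc pr))).clm_comp (Uc pr)
  · rintro ⟨f, hf, K, hK⟩
    obtain ⟨s, hs⟩ := hf 1
    refine no_map f ⌊s⌋₊ K (fun x x' h => ?_) hK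
    apply Nat.le_floor
    refine hs x x' ?_
    show (PX.dn x x' : ℝ) ≤ 1
    exact_mod_cast h

end Pool.Agent.S05247
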