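import Pool.Statements.S05328

set_option autoImplicit false
open Filter Topology
open Pool Pool.MP_8ba4a6_an

namespace Pool.Agent.S05328

/-- The one-variable map in logarithmic coordinates. -/
noncomputable def psi (u : ℝ) : ℝ := (u + u ^ 3) / 2

/-- The counterexample `f x y = exp (-(psi (log y))) / x`. -/
noncomputable def g (x y : ℝ) : ℝ := Real.exp (-(psi (Real.log y))) / x

lemma psi_strictMono : StrictMono psi := by
  intro a b hab
  unfold psi
  have h3 : a ^ 3 < b ^ 3 := by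
    have : Odd 3 := by decide
    exact this.strictMono_pow hab
  linarith

lemma psi_abs_le {u : ℝ} (hu : |u| ≤ 1 / 2) : |psi u| ≤ 5 / 8 * |u| := by
  unfold psi
  have h1 : u + u ^ 3 = u * (1 + u ^ 2) := by ring
  have h2 : u ^ 2 = |u| ^ 2 := (sq_abs u).symm
  have h3 : (0:ℝ) ≤ |u| := abs_nonneg u
  rw [h1, abs_div, abs_mul]
  have h4 : |1 + u ^ 2| = 1 + |u| ^ 2 := by
    rw [h2]; exact abs_of_nonneg (by positivity)
  rw [h4]
  have h5 : |(2:ℝ)| = 2 := by norm_num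
  rw [h5]
  nlinarith

lemma rec_log {x : ℕ → ℝ} (h0 : 0 < x 0) (h1 : 0 < x 1)
    (hrec : ∀ n : ℕ, x (n + 2) = x (n + 1) * g (x (n + 1)) (x n)) :
    (∀ n, 0 < x n) ∧ ∀ n, Real.log (x (n + 2)) = -(psi (Real.log (x n))) := by
  have hpos : ∀ n, 0 < x n ∧ 0 < x (n + 1) := by
    intro n
    induction n with
    | zero => exact ⟨h0, h1⟩
    | succ n ih =>
      refine ⟨ih.2, ?_⟩
      rw [hrec n]
      unfold g
      exact mul_pos ih.2 (div_pos (Real.exp_pos _) ih.2)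
  refine ⟨fun n => (hpos n).1, fun n => ?_⟩
  rw [hrec n]
  unfold g
  have : x (n + 1) ≠ 0 := (hpos n).2.ne'
  rw [mul_div_cancel₀ _ this, Real.log_exp]

lemma log_bound {x : ℕ → ℝ} (h0 : 0 < x 0) (h1 : 0 < x 1)
    (hrec : ∀ n : ℕ, x (n + 2) = x (n + 1) * g (x (n + 1)) (x n))
    {η : ℝ} (hη : η ≤ 1 / 2) (hl0 : |Real.log (x 0)| ≤ η) (hl1 : |Real.log (x 1)| ≤ η) :
    ∀ n, |Real.log (x n)| ≤ (5 / 8) ^ (n / 2) * η := by
  obtain ⟨hpos, hlog⟩ := rec_log h0 h1 hrec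
  have hη0 : 0 ≤ η := (abs_nonneg _).trans hl0
  have key : ∀ n, |Real.log (x n)| ≤ (5 / 8) ^ (n / 2) * η ∧
      |Real.log (x (n + 1))| ≤ (5 / 8) ^ ((n + 1) / 2) * η := by
    intro n
    induction n with
    | zero => simpa using ⟨hl0, hl1⟩
    | succ n ih =>
      refine ⟨ih.2, ?_⟩
      have e : (n + 1 + 1) / 2 = n / 2 + 1 := by omega
      rw [e]
      have e2 : x (n + 1 + 1) = x (n + 2) := rfl
      rw [e2, hlog n, abs_neg]
      have hp : ((5:ℝ) / 8) ^ (n / 2) ≤ 1 := pow_le_one₀ (by norm_num) (by norm_num)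
      have hb : |Real.log (x n)| ≤ 1 / 2 := by
        calc |Real.log (x n)| ≤ (5 / 8) ^ (n / 2) * η := ih.1
          _ ≤ 1 * η := by gcongr
          _ ≤ 1 / 2 := by linarith
      calc |psi (Real.log (x n))| ≤ 5 / 8 * |Real.log (x n)| := psi_abs_le hb
        _ ≤ 5 / 8 * ((5 / 8) ^ (n / 2) * η) := by gcongr; exact ih.1
        _ = (5 / 8) ^ (n / 2 + 1) * η := by ring
  exact fun n => (key n).1

lemma exists_delta {η : ℝ} (hη : 0 < η) :
    ∃ δ : ℝ, 0 < δ ∧ ∀ y : ℝ, |y - 1| < δ → |Real.log y| ≤ η := by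
  have hc : ContinuousAt Real.log 1 := Real.continuousAt_log one_ne_zero
  rw [Metric.continuousAt_iff] at hc
  obtain ⟨δ, hδ, h⟩ := hc η hη
  refine ⟨δ, hδ, fun y hy => ?_⟩
  have := h (x := y) (by rwa [Real.dist_eq])
  rw [Real.dist_eq, Real.log_one, sub_zero] at this
  exact this.le

/-- The negation of the preceding statement: Every f as in the problem has a globally attracting equilibrium. -/
theorem result :
    ¬ (∀ (f : ℝ → ℝ → ℝ) (xbar : ℝ),
      ContinuousOn (fun p : ℝ × ℝ => f p.1 p.2) (Set.Ioi (0:ℝ) ×ˢ Set.Ioi (0:ℝ)) →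
      (∀ x y : ℝ, 0 < x → 0 < y → 0 < f x y) →
      (∀ x₁ x₂ y : ℝ, 0 < x₁ → x₁ ≤ x₂ → 0 < y → f x₂ y ≤ f x₁ y) →
      (∀ x y₁ y₂ : ℝ, 0 < x → 0 < y₁ → y₁ < y₂ → f x y₂ < f x y₁) →
      (∀ x₁ x₂ : ℝ, 0 < x₁ → x₁ < x₂ → x₂ * f x₂ x₂ < x₁ * f x₁ x₁) →
      0 < xbar →
      f xbar xbar = 1 →
      (∀ y : ℝ, 0 < y → f y y = 1 → y = xbar) →
      (∀ ε : ℝ, 0 < ε → ∃ δ : ℝ, 0 < δ ∧
        ∀ x : ℕ → ℝ, 0 < x 0 → 0 < x 1 →
          (∀ n : ℕ, x (n + 2) = x (n + 1) * f (x (n + 1)) (x n)) →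
          |x 0 - xbar| + |x 1 - xbar| < δ →
          ∀ n : ℕ, |x n - xbar| < ε) →
      (∃ γ : ℝ, 0 < γ ∧
        ∀ x : ℕ → ℝ, 0 < x 0 → 0 < x 1 →
          (∀ n : ℕ, x (n + 2) = x (n + 1) * f (x (n + 1)) (x n)) →
          |x 0 - xbar| + |x 1 - xbar| < γ →
          Tendsto x atTop (𝓝 xbar)) →
      ∀ x : ℕ → ℝ, 0 < x 0 → 0 < x 1 →
        (∀ n : ℕ, x (n + 2) = x (n + 1) * f (x (n + 1)) (x n)) →
        Tendsto x atTop (𝓝 xbar)) := by
  intro H
  have hcont : ContinuousOn (fun p : ℝ × ℝ => g p.1 p.2) (Set.Ioi (0:ℝ) ×ˢ Set.Ioi (0:ℝ)) := by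
    unfold g psi
    have h1 : ContinuousOn (fun p : ℝ × ℝ => Real.log p.2) (Set.Ioi (0:ℝ) ×ˢ Set.Ioi (0:ℝ)) := by
      apply ContinuousOn.log continuousOn_snd
      rintro ⟨a, b⟩ ⟨_, hb⟩
      exact (ne_of_gt hb)
    apply ContinuousOn.div
    · exact Real.continuous_exp.comp_continuousOn
        (((h1.add (h1.pow 3)).div_const 2).neg)
    · exact continuousOn_fst
    · rintro ⟨a, b⟩ ⟨ha, _⟩
      exact (ne_of_gt ha)
  have hpos : ∀ x y : ℝ, 0 < x → 0 < y → 0 < g x y := by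
    intro x y hx _
    exact div_pos (Real.exp_pos _) hx
  have hdecx : ∀ x₁ x₂ y : ℝ, 0 < x₁ → x₁ ≤ x₂ → 0 < y → g x₂ y ≤ g x₁ y := by
    intro x₁ x₂ y hx h12 _
    unfold g
    exact div_le_div_of_nonneg_left (Real.exp_pos _).le hx h12
  have hexp : ∀ y₁ y₂ : ℝ, 0 < y₁ → y₁ < y₂ →
      Real.exp (-(psi (Real.log y₂))) < Real.exp (-(psi (Real.log y₁))) := by
    intro y₁ y₂ hy h12
    apply Real.exp_lt_exp.mpr
    have := psi_strictMono (Real.log_lt_log hy h12)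
    linarith
  have hdecy : ∀ x y₁ y₂ : ℝ, 0 < x → 0 < y₁ → y₁ < y₂ → g x y₂ < g x y₁ := by
    intro x y₁ y₂ hx hy h12
    unfold g
    exact div_lt_div_of_pos_right (hexp y₁ y₂ hy h12) hx
  have hdiag : ∀ x₁ x₂ : ℝ, 0 < x₁ → x₁ < x₂ → x₂ * g x₂ x₂ < x₁ * g x₁ x₁ := by
    intro x₁ x₂ hx h12
    have hx2 : 0 < x₂ := hx.trans h12
    unfold g
    rw [mul_div_cancel₀ _ hx.ne', mul_div_cancel₀ _ hx2.ne']
    exact hexp x₁ x₂ hx h12
  have hone : g 1 1 = 1 := by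
    simp [g, psi]
  have huniq : ∀ y : ℝ, 0 < y → g y y = 1 → y = 1 := by
    intro y hy h
    unfold g at h
    rw [div_eq_one_iff_eq hy.ne'] at h
    have h2 : -(psi (Real.log y)) = Real.log y := by
      have := congrArg Real.log h
      rwa [Real.log_exp] at this
    unfold psi at h2
    set L := Real.log y with hL
    have h3 : L * (3 + L ^ 2) = 0 := by ring_nf; ring_nf at h2; linarith
    have h4 : (3 + L ^ 2) ≠ 0 := by positivity
    have h5 : L = 0 := by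
      rcases mul_eq_zero.mp h3 with h | h
      · exact h
      · exact absurd h h4
    rw [hL] at h5
    rcases Real.log_eq_zero.mp h5 with h | h | h <;> linarith
  have hstab : ∀ ε : ℝ, 0 < ε → ∃ δ : ℝ, 0 < δ ∧
        ∀ x : ℕ → ℝ, 0 < x 0 → 0 < x 1 →
          (∀ n : ℕ, x (n + 2) = x (n + 1) * g (x (n + 1)) (x n)) →
          |x 0 - 1| + |x 1 - 1| < δ →
          ∀ n : ℕ, |x n - 1| < ε := by
    intro ε hε
    have hc : ContinuousAt Real.exp 0 := Real.continuous_exp.continuousAt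
    rw [Metric.continuousAt_iff] at hc
    obtain ⟨η₁, hη₁, hexp1⟩ := hc ε hε
    set η := min (η₁ / 2) (1 / 2) with hη
    have hηpos : 0 < η := lt_min (by linarith) (by norm_num)
    obtain ⟨δ, hδ, hlog⟩ := exists_delta hηpos
    refine ⟨δ, hδ, fun x h0 h1 hrec hsum n => ?_⟩
    have hb := log_bound h0 h1 hrec (min_le_right _ _)
      (hlog _ (by linarith [abs_nonneg (x 1 - 1)])) (hlog _ (by linarith [abs_nonneg (x 0 - 1)])) n
    have hp : ((5:ℝ) / 8) ^ (n / 2) ≤ 1 := pow_le_one₀ (by norm_num) (by norm_num)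
    have hb2 : |Real.log (x n)| ≤ η := hb.trans (by nlinarith)
    have hxn := (rec_log h0 h1 hrec).1 n
    have := hexp1 (x := Real.log (x n)) (by
      rw [Real.dist_eq, sub_zero]
      have := min_le_left (η₁ / 2) (1 / 2)
      linarith)
    rw [Real.dist_eq, Real.exp_zero, Real.exp_log hxn] at this
    exact this
  have hattr : ∃ γ : ℝ, 0 < γ ∧
        ∀ x : ℕ → ℝ, 0 < x 0 → 0 < x 1 →
          (∀ n : ℕ, x (n + 2) = x (n + 1) * g (x (n + 1)) (x n)) →
          |x 0 - 1| + |x 1 - 1| < γ →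
          Tendsto x atTop (𝓝 1) := by
    obtain ⟨δ, hδ, hlog⟩ := exists_delta (η := 1 / 2) (by norm_num)
    refine ⟨δ, hδ, fun x h0 h1 hrec hsum => ?_⟩
    have hb := log_bound h0 h1 hrec le_rfl
      (hlog _ (by linarith [abs_nonneg (x 1 - 1)])) (hlog _ (by linarith [abs_nonneg (x 0 - 1)]))
    have hxn := (rec_log h0 h1 hrec).1
    have hdiv : Tendsto (fun n : ℕ => n / 2) atTop atTop :=
      Nat.tendsto_div_const_atTop (by norm_num)
    have hgeo : Tendsto (fun n : ℕ => ((5:ℝ) / 8) ^ (n / 2) * (1 / 2)) atTop (𝓝 0) := by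
      have h := (tendsto_pow_atTop_nhds_zero_of_lt_one (r := (5:ℝ) / 8)
        (by norm_num) (by norm_num)).comp hdiv
      have h2 := h.mul_const (1 / 2 : ℝ)
      rw [zero_mul] at h2
      exact h2
    have hl0 : Tendsto (fun n => Real.log (x n)) atTop (𝓝 0) :=
      squeeze_zero_norm (fun n => by rw [Real.norm_eq_abs]; exact hb n) hgeo
    have := (Real.continuous_exp.tendsto 0).comp hl0
    rw [Real.exp_zero] at this
    refine this.congr (fun n => ?_)
    simp [Real.exp_log (hxn n)]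
  have hfin := H g 1 hcont hpos hdecx hdecy hdiag one_pos hone huniq hstab hattr
    (fun n => Real.exp ((-1) ^ (n / 2))) (Real.exp_pos _) (Real.exp_pos _) (by
      intro n
      have e : (n + 2) / 2 = n / 2 + 1 := by omega
      simp only [g]
      rw [mul_div_cancel₀ _ (Real.exp_pos _).ne', Real.log_exp, e]
      congr 1
      unfold psi
      have h2 : (((-1:ℝ)) ^ (n / 2)) ^ 2 = 1 := by
        rw [← pow_mul, mul_comm, pow_mul]; norm_num
      have h3 : (((-1:ℝ)) ^ (n / 2)) ^ 3 = (-1) ^ (n / 2) := by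
        rw [pow_succ, h2, one_mul]
      rw [h3, pow_succ]
      ring)
  have hlim : Tendsto (fun n : ℕ => Real.log (Real.exp ((-1) ^ (n / 2)))) atTop (𝓝 (Real.log 1)) :=
    (Real.continuousAt_log one_ne_zero).tendsto.comp hfin
  simp only [Real.log_exp, Real.log_one] at hlim
  have habs := hlim.abs
  simp only [abs_pow, abs_neg, abs_one, one_pow, abs_zero] at habs
  exact zero_ne_one (tendsto_nhds_unique habs tendsto_const_nhds)

end Pool.Agent.S05328
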