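import Pool.Statements.S05772
import Pool.Agent.Helper19.GClose
import Pool.Agent.Helper19.GAsm

set_option autoImplicit false
open Filter Topology
open scoped ComplexOrder
open Pool Pool.MP_ab5fa7_an

namespace Pool.Agent.S05772

/-- The negation of the preceding statement: For every non-principal ultrafilter U on ℕ there are separable non-Gamma II₁ factors N_i on ℓ² whose tracial ultraproduct along U has property Gamma (stated via lifts: bounded sequences, unitary sequences, traces and 2-norms taken along U). -/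
theorem result :
    ¬ (∀ U : Ultrafilter ℕ, (U : Filter ℕ) ≤ Filter.cofinite →
  ∃ (N : ℕ → VonNeumannAlgebra (lp (fun _ : ℕ => ℂ) 2))
    (τ : ℕ → (((lp (fun _ : ℕ => ℂ) 2) →L[ℂ] (lp (fun _ : ℕ => ℂ) 2)) →ₗ[ℂ] ℂ)),
    (∀ i : ℕ,
      (∀ z : (lp (fun _ : ℕ => ℂ) 2) →L[ℂ] (lp (fun _ : ℕ => ℂ) 2), z ∈ N i →
        (∀ x : (lp (fun _ : ℕ => ℂ) 2) →L[ℂ] (lp (fun _ : ℕ => ℂ) 2), x ∈ N i → z * x = x * z) →
        ∃ c : ℂ, z = c • (1 : (lp (fun _ : ℕ => ℂ) 2) →L[ℂ] (lp (fun _ : ℕ => ℂ) 2))) ∧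
      ¬ FiniteDimensional ℂ (Submodule.span ℂ
          ((N i : Set ((lp (fun _ : ℕ => ℂ) 2) →L[ℂ] (lp (fun _ : ℕ => ℂ) 2))))) ∧
      τ i 1 = 1 ∧
      (∀ x : (lp (fun _ : ℕ => ℂ) 2) →L[ℂ] (lp (fun _ : ℕ => ℂ) 2), x ∈ N i →
        ∀ y : (lp (fun _ : ℕ => ℂ) 2) →L[ℂ] (lp (fun _ : ℕ => ℂ) 2), y ∈ N i →
          τ i (x * y) = τ i (y * x)) ∧
      (∀ x : (lp (fun _ : ℕ => ℂ) 2) →L[ℂ] (lp (fun _ : ℕ => ℂ) 2), x ∈ N i →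
        0 ≤ τ i (star x * x)) ∧
      (∀ x : (lp (fun _ : ℕ => ℂ) 2) →L[ℂ] (lp (fun _ : ℕ => ℂ) 2), x ∈ N i →
        τ i (star x * x) = 0 → x = 0) ∧
      (∃ n : ℕ, ∃ x : Fin n → ((lp (fun _ : ℕ => ℂ) 2) →L[ℂ] (lp (fun _ : ℕ => ℂ) 2)),
        (∀ j, x j ∈ N i) ∧ ∃ ε : ℝ, 0 < ε ∧
        ∀ u : (lp (fun _ : ℕ => ℂ) 2) →L[ℂ] (lp (fun _ : ℕ => ℂ) 2), u ∈ N i →
          star u * u = 1 → u * star u = 1 → τ i u = 0 →
          ∃ j : Fin n, ε ^ 2 ≤ (τ i (star (u * x j - x j * u) * (u * x j - x j * u))).re)) ∧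
    (∀ n : ℕ, ∀ x : Fin n → ℕ → ((lp (fun _ : ℕ => ℂ) 2) →L[ℂ] (lp (fun _ : ℕ => ℂ) 2)),
      (∀ j i, x j i ∈ N i) → (∃ C : ℝ, ∀ j i, ‖x j i‖ ≤ C) →
      ∀ ε : ℝ, 0 < ε →
      ∃ u : ℕ → ((lp (fun _ : ℕ => ℂ) 2) →L[ℂ] (lp (fun _ : ℕ => ℂ) 2)),
        (∀ i, u i ∈ N i ∧ star (u i) * u i = 1 ∧ u i * star (u i) = 1) ∧
        Tendsto (fun i => τ i (u i)) (U : Filter ℕ) (𝓝 0) ∧
        ∀ j : Fin n, ∀ᶠ i in (U : Filter ℕ),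
          (τ i (star (u i * x j i - x j i * u i) * (u i * x j i - x j i * u i))).re < ε ^ 2)) := by
  exact Pool.Agent.Helper19.Gam.assemble Pool.Agent.Helper19.Gam.universal

end Pool.Agent.S05772
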