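import Pool.Statements.S05989
import Pool.Agent.Helper45.Bessel

set_option autoImplicit false
open scoped InnerProductSpace
open Pool Pool.MP_bee01d_an

namespace Pool.Agent.S05989

/-- Cauchy-Schwarz for square summable families of coefficients. -/
theorem cs_tsum (a b : ℕ → ℝ) (ha : ∀ n, 0 ≤ a n) (hb : ∀ n, 0 ≤ b n)
    (hsa : Summable (fun n => a n ^ 2)) (hsb : Summable (fun n => b n ^ 2)) (x : ℝ)
    (hx : x ≤ ∑' n, a n * b n) (hx0 : 0 ≤ x) :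
    x ^ 2 ≤ (∑' n, a n ^ 2) * (∑' n, b n ^ 2) := by
  have h2 := Real.inner_le_Lp_mul_Lq_tsum_of_nonneg (p := 2) (q := 2)
    (Real.HolderConjugate.two_two) ha hb (by simpa using hsa) (by simpa using hsb)
  simp only [Real.rpow_two] at h2
  rw [← Real.sqrt_eq_rpow, ← Real.sqrt_eq_rpow] at h2
  have h3 : x ≤ Real.sqrt (∑' n, a n ^ 2) * Real.sqrt (∑' n, b n ^ 2) := hx.trans h2
  have h4 : 0 ≤ ∑' n, a n ^ 2 := tsum_nonneg (fun n => sq_nonneg _)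
  have h5 : 0 ≤ ∑' n, b n ^ 2 := tsum_nonneg (fun n => sq_nonneg _)
  calc x ^ 2 ≤ (Real.sqrt (∑' n, a n ^ 2) * Real.sqrt (∑' n, b n ^ 2)) ^ 2 :=
        pow_le_pow_left₀ hx0 h3 2
    _ = _ := by rw [mul_pow, Real.sq_sqrt h4, Real.sq_sqrt h5]

/-- If the multiplier f ↦ Σ m_n⟨f,ψ_n⟩φ_n converges unconditionally for every f in a complex Hilbert space and is bijective, then there are complex weights α, β with (α_nφ_n), (β_nψ_n) frames and α_n·conj(β_n)=m_n. -/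
theorem result :
    ∀ (H : Type) [NormedAddCommGroup H] [InnerProductSpace ℂ H] [CompleteSpace H]
      (m : ℕ → ℂ) (φ ψ : ℕ → H),
      (∀ f : H, Summable (fun n : ℕ => (m n * ⟪ψ n, f⟫_ℂ) • φ n)) →
      Function.Bijective (fun f : H => ∑' n : ℕ, (m n * ⟪ψ n, f⟫_ℂ) • φ n) →
      ∃ α β : ℕ → ℂ,
        (∃ A B : ℝ, 0 < A ∧ 0 < B ∧ ∀ f : H,
            Summable (fun n : ℕ => ‖⟪α n • φ n, f⟫_ℂ‖ ^ 2) ∧
            A * ‖f‖ ^ 2 ≤ ∑' n : ℕ, ‖⟪α n • φ n, f⟫_ℂ‖ ^ 2 ∧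
            ∑' n : ℕ, ‖⟪α n • φ n, f⟫_ℂ‖ ^ 2 ≤ B * ‖f‖ ^ 2) ∧
        (∃ A B : ℝ, 0 < A ∧ 0 < B ∧ ∀ f : H,
            Summable (fun n : ℕ => ‖⟪β n • ψ n, f⟫_ℂ‖ ^ 2) ∧
            A * ‖f‖ ^ 2 ≤ ∑' n : ℕ, ‖⟪β n • ψ n, f⟫_ℂ‖ ^ 2 ∧
            ∑' n : ℕ, ‖⟪β n • ψ n, f⟫_ℂ‖ ^ 2 ≤ B * ‖f‖ ^ 2) ∧
        (∀ n : ℕ, α n * starRingEnd ℂ (β n) = m n) := by
  intro H _ _ _ m φ ψ hsum hbij
  classical
  have hsum' : ∀ f : H, Summable (fun n : ℕ => ⟪ψ n, f⟫_ℂ • (m n • φ n)) := by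
    intro f
    refine (hsum f).congr (fun n => ?_)
    rw [smul_smul, mul_comm]
  obtain ⟨C, hC, hunif⟩ := Helper45.uniform_bound (fun n => m n • φ n) ψ hsum'
  set K : ℝ := (81 / 25) * C + 1 with hKdef
  have hK : 0 < K := by positivity
  obtain ⟨t, ht, hw⟩ := Helper45.global_weights (fun n => m n • φ n) ψ C K hC
    (by rw [hKdef]; linarith) hunif
  have hsq : ∀ n, 0 < Real.sqrt (t n) := fun n => Real.sqrt_pos.2 (ht n)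
  let α : ℕ → ℂ := fun n => ((Real.sqrt (t n) : ℝ) : ℂ) * m n
  let β : ℕ → ℂ := fun n => (((Real.sqrt (t n))⁻¹ : ℝ) : ℂ)
  have hα : ∀ n (g : H), ‖⟪α n • φ n, g⟫_ℂ‖ = Real.sqrt (t n) * ‖⟪m n • φ n, g⟫_ℂ‖ := by
    intro n g
    simp only [α]
    rw [mul_smul, inner_smul_left, norm_mul, RCLike.norm_conj, Complex.norm_real,
      Real.norm_eq_abs, abs_of_pos (hsq n)]
  have hβ : ∀ n (g : H), ‖⟪β n • ψ n, g⟫_ℂ‖ = (Real.sqrt (t n))⁻¹ * ‖⟪ψ n, g⟫_ℂ‖ := by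
    intro n g
    simp only [β]
    rw [inner_smul_left, norm_mul, RCLike.norm_conj, Complex.norm_real,
      Real.norm_eq_abs, abs_of_pos (inv_pos.2 (hsq n))]
  have hα2 : ∀ n (g : H), ‖⟪α n • φ n, g⟫_ℂ‖ ^ 2 = t n * ‖⟪m n • φ n, g⟫_ℂ‖ ^ 2 := by
    intro n g
    rw [hα, mul_pow, Real.sq_sqrt (ht n).le]
  have hβ2 : ∀ n (g : H), ‖⟪β n • ψ n, g⟫_ℂ‖ ^ 2 = (t n)⁻¹ * ‖⟪ψ n, g⟫_ℂ‖ ^ 2 := by
    intro n g
    rw [hβ, mul_pow, inv_pow, Real.sq_sqrt (ht n).le]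
  have hSα : ∀ g : H, Summable (fun n : ℕ => ‖⟪α n • φ n, g⟫_ℂ‖ ^ 2) ∧
      ∑' n : ℕ, ‖⟪α n • φ n, g⟫_ℂ‖ ^ 2 ≤ K * ‖g‖ ^ 2 := by
    intro g
    have hb : ∀ F : Finset ℕ, ∑ n ∈ F, ‖⟪α n • φ n, g⟫_ℂ‖ ^ 2 ≤ K * ‖g‖ ^ 2 := by
      intro F
      refine le_trans (le_of_eq ?_) (hw F g).1
      exact Finset.sum_congr rfl (fun n _ => hα2 n g)
    have hs := summable_of_sum_le (fun n : ℕ => sq_nonneg ‖⟪α n • φ n, g⟫_ℂ‖) hb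
    exact ⟨hs, hs.tsum_le_of_sum_le hb⟩
  have hSβ : ∀ g : H, Summable (fun n : ℕ => ‖⟪β n • ψ n, g⟫_ℂ‖ ^ 2) ∧
      ∑' n : ℕ, ‖⟪β n • ψ n, g⟫_ℂ‖ ^ 2 ≤ K * ‖g‖ ^ 2 := by
    intro g
    have hb : ∀ F : Finset ℕ, ∑ n ∈ F, ‖⟪β n • ψ n, g⟫_ℂ‖ ^ 2 ≤ K * ‖g‖ ^ 2 := by
      intro F
      refine le_trans (le_of_eq ?_) (hw F g).2
      exact Finset.sum_congr rfl (fun n _ => hβ2 n g)
    have hs := summable_of_sum_le (fun n : ℕ => sq_nonneg ‖⟪β n • ψ n, g⟫_ℂ‖) hb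
    exact ⟨hs, hs.tsum_le_of_sum_le hb⟩
  set T : H → H := fun f => ∑' n : ℕ, (m n * ⟪ψ n, f⟫_ℂ) • φ n with hTdef
  -- the basic bilinear estimate
  have key : ∀ f g : H, ‖⟪g, T f⟫_ℂ‖ ^ 2 ≤
      (∑' n : ℕ, ‖⟪β n • ψ n, f⟫_ℂ‖ ^ 2) * (∑' n : ℕ, ‖⟪α n • φ n, g⟫_ℂ‖ ^ 2) := by
    intro f g
    have hs1 : HasSum (fun n : ℕ => ⟪g, (m n * ⟪ψ n, f⟫_ℂ) • φ n⟫_ℂ) ⟪g, T f⟫_ℂ :=
      (hsum f).hasSum.mapL (innerSL ℂ g)
    have hterm : ∀ n, ‖⟪g, (m n * ⟪ψ n, f⟫_ℂ) • φ n⟫_ℂ‖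
        = ‖⟪β n • ψ n, f⟫_ℂ‖ * ‖⟪α n • φ n, g⟫_ℂ‖ := by
      intro n
      rw [hα, hβ, inner_smul_right, inner_smul_left, norm_mul, norm_mul, norm_mul,
        RCLike.norm_conj, norm_inner_symm g (φ n)]
      have := (hsq n).ne'
      field_simp
    refine cs_tsum _ _ (fun n => norm_nonneg _) (fun n => norm_nonneg _) (hSβ f).1 (hSα g).1 _ ?_
      (norm_nonneg _)
    rw [← hs1.tsum_eq]
    refine (norm_tsum_le_tsum_norm ?_).trans (le_of_eq (tsum_congr hterm))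
    exact hs1.summable.norm
  have hself : ∀ g : H, ‖⟪g, g⟫_ℂ‖ = ‖g‖ ^ 2 := by
    intro g
    rw [inner_self_eq_norm_sq_to_K]; simp
  have hTbound : ∀ f : H, ‖T f‖ ≤ K * ‖f‖ := by
    intro f
    have h1 := key f (T f)
    rw [hself] at h1
    have h2 := (hSβ f).2
    have h3 := (hSα (T f)).2
    have h4 : (‖T f‖ ^ 2) ^ 2 ≤ (K * ‖f‖) ^ 2 * ‖T f‖ ^ 2 := by
      calc (‖T f‖ ^ 2) ^ 2 ≤ _ := h1
        _ ≤ (K * ‖f‖ ^ 2) * (K * ‖T f‖ ^ 2) :=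
            mul_le_mul h2 h3 (tsum_nonneg (fun n => sq_nonneg _)) (by positivity)
        _ = _ := by ring
    rcases (norm_nonneg (T f)).eq_or_lt with h0 | hpos
    · rw [← h0]; positivity
    · have h5 : ‖T f‖ ^ 2 ≤ (K * ‖f‖) ^ 2 := by
        have h6 : ‖T f‖ ^ 2 * ‖T f‖ ^ 2 ≤ (K * ‖f‖) ^ 2 * ‖T f‖ ^ 2 := by
          calc ‖T f‖ ^ 2 * ‖T f‖ ^ 2 = (‖T f‖ ^ 2) ^ 2 := by ring
            _ ≤ _ := h4
        exact le_of_mul_le_mul_right h6 (by positivity)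
      exact le_of_sq_le_sq h5 (by positivity)
  let TL : H →ₗ[ℂ] H :=
    { toFun := T
      map_add' := by
        intro x y
        simp only [hTdef]
        rw [← (hsum x).tsum_add (hsum y)]
        refine tsum_congr (fun n => ?_)
        rw [inner_add_right, mul_add, add_smul]
      map_smul' := by
        intro c x
        simp only [hTdef, RingHom.id_apply]
        rw [← (hsum x).tsum_const_smul c]
        refine tsum_congr (fun n => ?_)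
        rw [inner_smul_right, smul_smul]
        congr 1
        ring }
  let TC : H →L[ℂ] H := TL.mkContinuous K hTbound
  have hTC : ∀ f, TC f = T f := fun f => rfl
  have hinj : Function.Injective TC := fun x y hxy => hbij.1 hxy
  have hsurj : Function.Surjective TC := fun y => hbij.2 y
  let e : H ≃L[ℂ] H := ContinuousLinearEquiv.ofBijective TC
    (LinearMap.ker_eq_bot.2 hinj) (LinearMap.range_eq_top.2 hsurj)
  have he : ∀ f, e f = T f := fun f => rfl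
  set c : ℝ := ‖(e.symm : H →L[ℂ] H)‖ + 1 with hc
  have hcpos : 0 < c := by positivity
  have hlow : ∀ f : H, ‖f‖ ≤ c * ‖T f‖ := by
    intro f
    have h1 : ‖f‖ = ‖(e.symm : H →L[ℂ] H) (T f)‖ := by
      rw [← he f]; simp
    rw [h1]
    refine (ContinuousLinearMap.le_opNorm _ _).trans ?_
    refine mul_le_mul_of_nonneg_right ?_ (norm_nonneg _)
    rw [hc]; linarith
  have hcancel : ∀ x y : ℝ, 0 ≤ x → 0 ≤ y → (x ^ 2) ^ 2 ≤ y * x ^ 2 → x ^ 2 ≤ y := by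
    intro x y hx hy hxy
    rcases hx.eq_or_lt with h0 | hpos
    · rw [← h0]; simpa using hy
    · have : x ^ 2 * x ^ 2 ≤ y * x ^ 2 := by
        calc x ^ 2 * x ^ 2 = (x ^ 2) ^ 2 := by ring
          _ ≤ _ := hxy
      exact le_of_mul_le_mul_right this (by positivity)
  refine ⟨α, β, ⟨(K * c ^ 2)⁻¹, K, by positivity, hK, fun g => ⟨(hSα g).1, ?_, (hSα g).2⟩⟩,
    ⟨(K * c ^ 2)⁻¹, K, by positivity, hK, fun f => ⟨(hSβ f).1, ?_, (hSβ f).2⟩⟩, ?_⟩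
  · -- lower bound for the `φ` side
    obtain ⟨f, hf⟩ := hbij.2 g
    have hf' : T f = g := hf
    have h1 := key f g
    rw [hf', hself] at h1
    have h2 : ‖f‖ ≤ c * ‖g‖ := by simpa [hf'] using hlow f
    have h3 : ∑' n : ℕ, ‖⟪β n • ψ n, f⟫_ℂ‖ ^ 2 ≤ K * c ^ 2 * ‖g‖ ^ 2 := by
      refine (hSβ f).2.trans ?_
      have : ‖f‖ ^ 2 ≤ (c * ‖g‖) ^ 2 := pow_le_pow_left₀ (norm_nonneg _) h2 2
      calc K * ‖f‖ ^ 2 ≤ K * (c * ‖g‖) ^ 2 := mul_le_mul_of_nonneg_left this hK.le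
        _ = _ := by ring
    have hS0 : 0 ≤ ∑' n : ℕ, ‖⟪α n • φ n, g⟫_ℂ‖ ^ 2 := tsum_nonneg (fun n => sq_nonneg _)
    have h4 : (‖g‖ ^ 2) ^ 2 ≤ (K * c ^ 2 * ∑' n : ℕ, ‖⟪α n • φ n, g⟫_ℂ‖ ^ 2) * ‖g‖ ^ 2 := by
      refine h1.trans ?_
      calc _ ≤ (K * c ^ 2 * ‖g‖ ^ 2) * ∑' n : ℕ, ‖⟪α n • φ n, g⟫_ℂ‖ ^ 2 :=
            mul_le_mul_of_nonneg_right h3 hS0
        _ = _ := by ring
    have h5 := hcancel _ _ (norm_nonneg g) (by positivity) h4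
    rw [inv_mul_le_iff₀ (by positivity)]
    exact h5
  · -- lower bound for the `ψ` side
    have h1 := key f (T f)
    rw [hself] at h1
    have hS0 : 0 ≤ ∑' n : ℕ, ‖⟪β n • ψ n, f⟫_ℂ‖ ^ 2 := tsum_nonneg (fun n => sq_nonneg _)
    have h4 : (‖T f‖ ^ 2) ^ 2 ≤ (K * ∑' n : ℕ, ‖⟪β n • ψ n, f⟫_ℂ‖ ^ 2) * ‖T f‖ ^ 2 := by
      refine h1.trans ?_
      calc _ ≤ (∑' n : ℕ, ‖⟪β n • ψ n, f⟫_ℂ‖ ^ 2) * (K * ‖T f‖ ^ 2) :=
            mul_le_mul_of_nonneg_left (hSα (T f)).2 hS0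
        _ = _ := by ring
    have h5 := hcancel _ _ (norm_nonneg (T f)) (by positivity) h4
    rw [inv_mul_le_iff₀ (by positivity)]
    have h6 : ‖f‖ ^ 2 ≤ (c * ‖T f‖) ^ 2 := pow_le_pow_left₀ (norm_nonneg _) (hlow f) 2
    calc ‖f‖ ^ 2 ≤ (c * ‖T f‖) ^ 2 := h6
      _ = c ^ 2 * ‖T f‖ ^ 2 := by ring
      _ ≤ c ^ 2 * (K * ∑' n : ℕ, ‖⟪β n • ψ n, f⟫_ℂ‖ ^ 2) :=
          mul_le_mul_of_nonneg_left h5 (by positivity)
      _ = _ := by ring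
  · intro n
    simp only [α, β]
    rw [Complex.conj_ofReal, mul_assoc, mul_comm (m n), ← mul_assoc, ← Complex.ofReal_mul,
      mul_inv_cancel₀ (hsq n).ne']
    simp

end Pool.Agent.S05989
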