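import Pool.Statements.S06180
import Pool.Agent.Helper25.Dyn.Main
import Pool.Agent.Helper25.MD.ChiMain
import Pool.Agent.Helper25.MD.Max
import Pool.Agent.Helper3.MDRiesz
import Pool.Agent.Helper37.MDL1
import Pool.Agent.Helper37.MDNear
import Pool.Agent.Helper52.MDLower2
import Pool.Agent.Helper88.MD.PV
import Pool.Agent.Helper95.SWLite
import Pool.Agent.MobQ.SSMain

set_option autoImplicit false
open Filter Topology MeasureTheory
open Pool Pool.MP_cd1519_an

namespace Pool.Agent.S06180

/-- The negation of the preceding statement: For compact metric systems (X,T), (X',T') whose invariant probability measures match up pairwise by measure-theoretic (mod 0) isomorphisms in both directions, Möbius disjointness of (X,T) implies Möbius disjointness of (X',T'). -/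
theorem result :
    ¬ (∀ (X : Type) [MetricSpace X] [CompactSpace X] [MeasurableSpace X] [BorelSpace X]
    (X' : Type) [MetricSpace X'] [CompactSpace X'] [MeasurableSpace X'] [BorelSpace X']
    (T : X → X) (T' : X' → X'), Continuous T → Continuous T' →
    (∀ μ : Measure X, IsProbabilityMeasure μ → MeasurePreserving T μ μ →
      ∃ ν : Measure X', IsProbabilityMeasure ν ∧ MeasurePreserving T' ν ν ∧
        ∃ φ : X → X', ∃ ψ : X' → X, MeasurePreserving φ μ ν ∧ MeasurePreserving ψ ν μ ∧
          (∀ᵐ x ∂μ, φ (T x) = T' (φ x)) ∧ (∀ᵐ x ∂μ, ψ (φ x) = x) ∧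
          (∀ᵐ y ∂ν, φ (ψ y) = y)) →
    (∀ ν : Measure X', IsProbabilityMeasure ν → MeasurePreserving T' ν ν →
      ∃ μ : Measure X, IsProbabilityMeasure μ ∧ MeasurePreserving T μ μ ∧
        ∃ φ : X → X', ∃ ψ : X' → X, MeasurePreserving φ μ ν ∧ MeasurePreserving ψ ν μ ∧
          (∀ᵐ x ∂μ, φ (T x) = T' (φ x)) ∧ (∀ᵐ x ∂μ, ψ (φ x) = x) ∧
          (∀ᵐ y ∂ν, φ (ψ y) = y)) →
    (∀ (x : X) (f : X → ℂ), Continuous f →
      Tendsto (fun N : ℕ => (N : ℂ)⁻¹ * ∑ n ∈ Finset.range N,
        ((ArithmeticFunction.moebius n : ℤ) : ℂ) * f (T^[n] x)) atTop (𝓝 0)) →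
    (∀ (x : X') (f : X' → ℂ), Continuous f →
      Tendsto (fun N : ℕ => (N : ℂ)⁻¹ * ∑ n ∈ Finset.range N,
        ((ArithmeticFunction.moebius n : ℤ) : ℂ) * f (T'^[n] x)) atTop (𝓝 0))) := by
  exact Pool.Agent.Helper25.Dyn.not_main_of_maximal
    (Pool.Agent.Helper25.MD.maximal_of_starStar
      (Pool.Agent.MobQ.starStar_of_SW
        (Pool.Agent.Helper95.MD.swLite
          (Pool.Agent.Helper25.MD.chiRiesz Pool.Agent.Helper3.MDRiesz.riesz
            Pool.Agent.Helper52.MD.upper Pool.Agent.Helper52.MD.zetaUpper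
            (Pool.Agent.Helper52.MD.lowerNonreal Pool.Agent.Helper52.MD.upper)
            (Pool.Agent.Helper52.MD.lowerReal Pool.Agent.Helper52.MD.upper
              Pool.Agent.Helper52.MD.zetaUpper Pool.Agent.Helper37.MDL1.realL1)
            (Pool.Agent.Helper52.MD.lowerFar Pool.Agent.Helper52.MD.upper
              Pool.Agent.Helper52.MD.zetaUpper)
            Pool.Agent.Helper37.MDNear.lowerNear)
          Pool.Agent.Helper88.MD.pv)))

end Pool.Agent.S06180
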