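import Pool.Statements.S06700
import Pool.Agent.Helper52.NewmanPow

set_option autoImplicit false
open Pool Pool.MP_f43403_an

namespace Pool.Agent.S06700

/-- The negation of the preceding statement: Every power series f with absolutely summable coefficients that is injective on the closed unit disc generates: every such g is an ℓ¹-coefficient-norm limit of polynomials in f. -/
theorem result :
    ¬ (∀ f : PowerSeries ℂ,
      Summable (fun n : ℕ => ‖PowerSeries.coeff n f‖) →
      Set.InjOn (fun z : ℂ => ∑' n : ℕ, PowerSeries.coeff n f * z ^ n)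
        (Metric.closedBall (0 : ℂ) 1) →
      ∀ g : PowerSeries ℂ,
        Summable (fun n : ℕ => ‖PowerSeries.coeff n g‖) →
        ∀ ε : ℝ, 0 < ε →
          ∃ p : Polynomial ℂ,
            Summable (fun n : ℕ =>
              ‖PowerSeries.coeff n (Polynomial.aeval f p) - PowerSeries.coeff n g‖) ∧
            ∑' n : ℕ, ‖PowerSeries.coeff n (Polynomial.aeval f p) - PowerSeries.coeff n g‖ < ε) := by
  intro H
  obtain ⟨f, hf1, hf2, hf3⟩ := Pool.Agent.Helper52.Newman.disproof
  obtain ⟨p, hp1, hp2⟩ := H f hf1 hf2 PowerSeries.X Pool.Agent.Helper52.Newman.WW_X 1 one_pos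
  exact absurd hp2 (not_lt.mpr (hf3 p))

end Pool.Agent.S06700
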