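import Pool.Statements.S06944

set_option autoImplicit false
open Pool Pool.MP_044cb4_co

namespace Pool.Agent.S06944

/-!
Nine nearly-neighborly tetrahedra. Their facets lie on only eight planes. Each tetrahedron is given
by four of the eight planes; the vertices are listed in homogeneous integer coordinates, vertex `k`
being opposite to facet `k`.
-/

/-- coefficients of the planes -/
def pl : Fin 8 → Fin 4 → ℤ :=
  ![![2, 2, -2, -3],
    ![0, 3, -1, 0],
    ![-2, -3, 3, 1],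
    ![-1, 1, 2, -2],
    ![-2, 3, 2, -3],
    ![-3, -3, 1, -3],
    ![-3, 0, -2, 1],
    ![-2, 1, -2, 2]]

/-- the four facet planes of each tetrahedron -/
def S : Fin 9 → Fin 4 → Fin 8 :=
  ![![3, 1, 7, 4],
    ![7, 3, 4, 2],
    ![6, 3, 1, 7],
    ![7, 3, 6, 5],
    ![2, 0, 5, 7],
    ![4, 1, 7, 2],
    ![2, 5, 3, 7],
    ![5, 3, 0, 2],
    ![3, 5, 6, 1]]

/-- homogeneous coordinates of the vertices; vertex `k` is opposite to facet `k` -/
def X : Fin 9 → Fin 4 → Fin 4 → ℤ :=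
  ![![![3, 10, 30, 28], ![4, 6, 7, 8], ![-3, 1, 3, 5], ![4, 6, 18, 19]],
    ![![7, 9, 10, 11], ![29, 42, 44, 52], ![16, 24, 25, 29], ![4, 6, 7, 8]],
    ![![4, 6, 18, 19], ![-7, 4, 12, 3], ![-4, -6, 11, 10], ![-5, 7, 21, 27]],
    ![![-1, -1, 3, 3], ![1, -4, 0, 3], ![-8, -12, 33, 31], ![-4, -6, 11, 10]],
    ![![29, -56, -45, 12], ![2, -4, -3, 1], ![7, -18, -14, 2], ![14, -23, -15, 4]],
    ![![17, 2, 6, 22], ![29, 42, 44, 52], ![27, 8, 24, 6], ![3, 10, 30, 28]],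
    ![![-8, -12, 33, 31], ![16, 24, 25, 29], ![2, -4, -3, 1], ![-46, 22, -15, 19]],
    ![![7, 1, 5, 2], ![14, -23, -15, 4], ![-46, 22, -15, 19], ![-47, 29, -30, 8]],
    ![![-3, 2, 6, 3], ![-5, 7, 21, 27], ![-7, 1, 3, 7], ![-1, -1, 3, 3]]]


/-- value (times the denominator) of the affine function of plane `x` at vertex `k` of
tetrahedron `i` -/
def Fv (x : Fin 8) (i : Fin 9) (k : Fin 4) : ℤ :=
  pl x 0 * X i k 0 + pl x 1 * X i k 1 + pl x 2 * X i k 2 + pl x 3 * X i k 3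

theorem X_pos : ∀ (i : Fin 9) (k : Fin 4), 0 < X i k 3 := by decide

theorem Fv_zero : ∀ (i : Fin 9) (m k : Fin 4), k ≠ m → Fv (S i m) i k = 0 := by decide +kernel

theorem Fv_ne : ∀ (i : Fin 9) (m : Fin 4), Fv (S i m) i m ≠ 0 := by decide +kernel

theorem Fv_sep : ∀ i j : Fin 9, i ≠ j → ∃ m m' : Fin 4, S i m = S j m' ∧
    ((Fv (S i m) i m < 0 ∧ 0 < Fv (S j m') j m') ∨ (0 < Fv (S i m) i m ∧ Fv (S j m') j m' < 0)) := by
  decide +kernel

/-- the vertices in real coordinates -/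
noncomputable def vert (i : Fin 9) (k : Fin 4) : Fin 3 → ℝ :=
  ![(X i k 0 : ℝ) / X i k 3, (X i k 1 : ℝ) / X i k 3, (X i k 2 : ℝ) / X i k 3]

/-- the affine function of plane `x` at a vertex -/
theorem eval_eq (x : Fin 8) (i : Fin 9) (k : Fin 4) :
    (∑ l, (![(pl x 0 : ℝ), pl x 1, pl x 2] : Fin 3 → ℝ) l * vert i k l) + pl x 3 =
      (Fv x i k : ℝ) / X i k 3 := by
  have h : (X i k 3 : ℝ) ≠ 0 := by
    have := X_pos i k
    exact_mod_cast this.ne'
  rw [Fin.sum_univ_three]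
  simp only [vert, Fv]
  push_cast
  field_simp

theorem eval_zero (i : Fin 9) (m k : Fin 4) (h : k ≠ m) :
    (∑ l, (![(pl (S i m) 0 : ℝ), pl (S i m) 1, pl (S i m) 2] : Fin 3 → ℝ) l * vert i k l) +
      pl (S i m) 3 = 0 := by
  rw [eval_eq, Fv_zero i m k h]
  simp

/-- points with separating affine functions are affinely independent -/
theorem affInd (v : Fin 4 → Fin 3 → ℝ) (a : Fin 4 → Fin 3 → ℝ) (d : Fin 4 → ℝ)
    (h0 : ∀ m k, k ≠ m → (∑ l, a m l * v k l) + d m = 0)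
    (h1 : ∀ m, (∑ l, a m l * v m l) + d m ≠ 0) : AffineIndependent ℝ v := by
  rw [affineIndependent_iff]
  intro s w hw hv m hm
  have h2 : ∑ k ∈ s, w k * ((∑ l, a m l * v k l) + d m) = 0 := by
    have e1 : ∑ k ∈ s, w k * ((∑ l, a m l * v k l) + d m) =
        (∑ l, a m l * (∑ k ∈ s, w k • v k) l) + (∑ k ∈ s, w k) * d m := by
      simp only [Finset.sum_apply, Pi.smul_apply, smul_eq_mul, mul_add, Finset.sum_add_distrib,
        Finset.mul_sum, Finset.sum_mul]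
      congr 1
      rw [Finset.sum_comm]
      refine Finset.sum_congr rfl fun l _ => Finset.sum_congr rfl fun k _ => ?_
      ring
    rw [e1, hw, hv]
    simp
  rw [Finset.sum_eq_single m] at h2
  · rcases mul_eq_zero.1 h2 with h | h
    · exact h
    · exact absurd h (h1 m)
  · intro k _ hk
    rw [h0 m k hk, mul_zero]
  · intro h; exact absurd hm h

theorem vert_affInd (i : Fin 9) : AffineIndependent ℝ (vert i) := by
  refine affInd (vert i) (fun m => ![(pl (S i m) 0 : ℝ), pl (S i m) 1, pl (S i m) 2])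
    (fun m => (pl (S i m) 3 : ℝ)) (fun m k h => eval_zero i m k h) (fun m => ?_)
  rw [eval_eq]
  have h1 := Fv_ne i m
  have h2 := (X_pos i m).ne'
  have h3 : ((Fv (S i m) i m : ℤ) : ℝ) ≠ 0 := by exact_mod_cast h1
  have h4 : ((X i m 3 : ℤ) : ℝ) ≠ 0 := by exact_mod_cast h2
  exact div_ne_zero h3 h4

/-- a plane normal `n` (with constant term `d`) that separates gives the required data -/
theorem sep_data (i j : Fin 9) (m m' : Fin 4) (n : Fin 3 → ℝ) (d : ℝ)
    (hi : ∀ k, k ≠ m → (∑ l, n l * vert i k l) + d = 0) (hi' : (∑ l, n l * vert i m l) + d < 0)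
    (hj : ∀ k, k ≠ m' → (∑ l, n l * vert j k l) + d = 0) (hj' : 0 < (∑ l, n l * vert j m' l) + d) :
    ∃ a : Fin 3 → ℝ, a ≠ 0 ∧ ∃ c : ℝ,
        (∀ k, ∑ l, a l * vert i k l ≤ c) ∧
        (∀ k, c ≤ ∑ l, a l * vert j k l) ∧
        (∃ m : Fin 4, ∀ k, k ≠ m → ∑ l, a l * vert i k l = c) ∧
        (∃ m : Fin 4, ∀ k, k ≠ m → ∑ l, a l * vert j k l = c) := by
  refine ⟨n, ?_, -d, ?_, ?_, ⟨m, fun k hk => ?_⟩, ⟨m', fun k hk => ?_⟩⟩
  · rintro rfl
    simp at hi' hj'
    linarith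
  · intro k
    by_cases h : k = m
    · subst h; linarith
    · linarith [hi k h]
  · intro k
    by_cases h : k = m'
    · subst h; linarith
    · linarith [hj k h]
  · linarith [hi k hk]
  · linarith [hj k hk]

theorem nine_mem : (9 : ℕ) ∈ {n : ℕ | ∃ v : Fin n → Fin 4 → (Fin 3 → ℝ),
      (∀ i, AffineIndependent ℝ (v i)) ∧
      ∀ i j, i ≠ j → ∃ a : Fin 3 → ℝ, a ≠ 0 ∧ ∃ c : ℝ,
        (∀ k, ∑ l, a l * v i k l ≤ c) ∧
        (∀ k, c ≤ ∑ l, a l * v j k l) ∧
        (∃ m : Fin 4, ∀ k, k ≠ m → ∑ l, a l * v i k l = c) ∧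
        (∃ m : Fin 4, ∀ k, k ≠ m → ∑ l, a l * v j k l = c)} := by
  refine ⟨vert, vert_affInd, fun i j hij => ?_⟩
  obtain ⟨m, m', hS, hF⟩ := Fv_sep i j hij
  have hi0 := eval_zero i m
  have hj0 := eval_zero j m'
  have hi1 := eval_eq (S i m) i m
  have hj1 := eval_eq (S j m') j m'
  have hXi : (0 : ℝ) < X i m 3 := by exact_mod_cast X_pos i m
  have hXj : (0 : ℝ) < X j m' 3 := by exact_mod_cast X_pos j m'
  rw [hS] at hi0 hi1 hF
  rcases hF with ⟨h1, h2⟩ | ⟨h1, h2⟩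
  · have h1' : ((Fv (S j m') i m : ℤ) : ℝ) < 0 := by exact_mod_cast h1
    have h2' : (0 : ℝ) < ((Fv (S j m') j m' : ℤ) : ℝ) := by exact_mod_cast h2
    refine sep_data i j m m' _ _ hi0 ?_ hj0 ?_
    · rw [hi1]; exact div_neg_of_neg_of_pos h1' hXi
    · rw [hj1]; exact div_pos h2' hXj
  · have h1' : (0 : ℝ) < ((Fv (S j m') i m : ℤ) : ℝ) := by exact_mod_cast h1
    have h2' : ((Fv (S j m') j m' : ℤ) : ℝ) < 0 := by exact_mod_cast h2
    have hneg : ∀ (u : Fin 3 → ℝ), ∑ l, (-(![(pl (S j m') 0 : ℝ), pl (S j m') 1, pl (S j m') 2] :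
        Fin 3 → ℝ)) l * u l = -∑ l, (![(pl (S j m') 0 : ℝ), pl (S j m') 1, pl (S j m') 2] :
        Fin 3 → ℝ) l * u l := by
      intro u
      rw [← Finset.sum_neg_distrib]
      exact Finset.sum_congr rfl fun l _ => by rw [Pi.neg_apply]; ring
    refine sep_data i j m m' (-(![(pl (S j m') 0 : ℝ), pl (S j m') 1, pl (S j m') 2] :
        Fin 3 → ℝ)) (-(pl (S j m') 3 : ℝ)) (fun k hk => ?_) ?_ (fun k hk => ?_) ?_
    · rw [hneg]; linarith [hi0 k hk]
    · rw [hneg]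
      have := div_pos h1' hXi
      rw [← hi1] at this
      linarith
    · rw [hneg]; linarith [hj0 k hk]
    · rw [hneg]
      have := div_neg_of_neg_of_pos h2' hXj
      rw [← hj1] at this
      linarith

/-- The negation of the preceding statement: The largest n for which there are n tetrahedra in 3-space is 8, where the condition is that any two are separated by a plane that has one on each closed side and contains a face of each. -/
theorem result :
    ¬ (IsGreatest {n : ℕ | ∃ v : Fin n → Fin 4 → (Fin 3 → ℝ),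
      (∀ i, AffineIndependent ℝ (v i)) ∧
      ∀ i j, i ≠ j → ∃ a : Fin 3 → ℝ, a ≠ 0 ∧ ∃ c : ℝ,
        (∀ k, ∑ l, a l * v i k l ≤ c) ∧
        (∀ k, c ≤ ∑ l, a l * v j k l) ∧
        (∃ m : Fin 4, ∀ k, k ≠ m → ∑ l, a l * v i k l = c) ∧
        (∃ m : Fin 4, ∀ k, k ≠ m → ∑ l, a l * v j k l = c)} 8) := by
  intro h
  have := h.2 nine_mem
  omega

end Pool.Agent.S06944
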