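import Pool.Statements.S07215
import Pool.Agent.Helper67.Concl

set_option autoImplicit false
open Pool Pool.MP_0fa911_co

namespace Pool.Agent.S07215

/-- For every n ≥ 1 and every nonnegative real n×n matrix A with entry sum n other than the all-1/n matrix J, (product of row sums + product of column sums − permanent) is strictly smaller for A than for J. -/
theorem result :
    ∀ n : ℕ, 0 < n → ∀ A : Matrix (Fin n) (Fin n) ℝ,
      (∀ i j, 0 ≤ A i j) →
      (∑ i, ∑ j, A i j) = (n : ℝ) →
      A ≠ Matrix.of (fun _ _ : Fin n => (1 : ℝ) / n) →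
      (∏ i, ∑ j, A i j) + (∏ j, ∑ i, A i j) - A.permanent <
        (∏ _i : Fin n, ∑ _j : Fin n, (1 : ℝ) / n)
          + (∏ _j : Fin n, ∑ _i : Fin n, (1 : ℝ) / n)
          - (Matrix.of (fun _ _ : Fin n => (1 : ℝ) / n)).permanent := by
  intro n hn A hA hs hne
  exact Pool.Agent.Helper67.dittert n hn A hA hs hne

end Pool.Agent.S07215
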