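import Pool.Statements.S08708

set_option autoImplicit false
open Pool Pool.MP_4f9096_co

namespace Pool.Agent.S08708

/-- A 6 by 6 array in which every symbol occurs at most 5 times. -/
def arr : Fin 6 → Fin 6 → ℕ :=
  ![![6, 6, 3, 6, 2, 0],
    ![3, 3, 6, 3, 2, 0],
    ![7, 2, 7, 2, 1, 2],
    ![5, 5, 3, 4, 1, 7],
    ![5, 4, 6, 5, 1, 7],
    ![1, 0, 1, 0, 0, 7]]

theorem arr_lt : ∀ i j : Fin 6, arr i j < 8 := by decide

theorem arr_count_small :
    ∀ s : Fin 8, (Finset.univ.filter (fun p : Fin 6 × Fin 6 => arr p.1 p.2 = (s : ℕ))).card ≤ 5 := by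
  decide +kernel

theorem arr_count (s : ℕ) :
    (Finset.univ.filter (fun p : Fin 6 × Fin 6 => arr p.1 p.2 = s)).card ≤ 6 - 1 := by
  by_cases hs : s < 8
  · exact arr_count_small ⟨s, hs⟩
  · have : Finset.univ.filter (fun p : Fin 6 × Fin 6 => arr p.1 p.2 = s) = ∅ := by
      apply Finset.filter_eq_empty_iff.2
      intro p _ h
      have := arr_lt p.1 p.2
      omega
    rw [this]
    simp

/-- Exhaustive search for a latin transversal, row by row. -/
def search : List (Fin 6) → List (Fin 6) → List ℕ → Bool
  | [], _, _ => true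
  | r :: rs, cols, syms => (List.finRange 6).any (fun c =>
      !(cols.contains c) && !(syms.contains (arr r c)) && search rs (c :: cols) (arr r c :: syms))

theorem search_sound (σ : Fin 6 → Fin 6) (hσ : Function.Injective σ)
    (hs : Function.Injective (fun i : Fin 6 => arr i (σ i))) :
    ∀ rs : List (Fin 6), rs.Nodup → ∀ (cols : List (Fin 6)) (syms : List ℕ),
      (∀ r ∈ rs, σ r ∉ cols ∧ arr r (σ r) ∉ syms) → search rs cols syms = true := by
  intro rs
  induction rs with
  | nil => intro _ cols syms _; rfl
  | cons r rs ih =>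
    intro hnd cols syms h
    rw [List.nodup_cons] at hnd
    rw [search, List.any_eq_true]
    refine ⟨σ r, List.mem_finRange _, ?_⟩
    have hr := h r (List.mem_cons_self)
    simp only [Bool.and_eq_true, Bool.not_eq_true', List.contains_eq_mem, decide_eq_false_iff_not]
    refine ⟨⟨hr.1, hr.2⟩, ?_⟩
    apply ih hnd.2
    intro r' hr'
    have hne : r' ≠ r := fun he => hnd.1 (he ▸ hr')
    have h' := h r' (List.mem_cons_of_mem _ hr')
    rw [List.mem_cons, List.mem_cons]
    push Not
    exact ⟨⟨fun he => hne (hσ he), h'.1⟩, ⟨fun he => hne (hs he), h'.2⟩⟩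

/-- The negation of the preceding statement: For every n and every n×n array of natural-number symbols in which each symbol occurs in at most n−1 cells, there is a permutation σ such that the entries A(i, σ(i)) are pairwise distinct. -/
theorem result :
    ¬ (∀ (n : ℕ) (A : Fin n → Fin n → ℕ),
      (∀ s : ℕ, (Finset.univ.filter (fun p : Fin n × Fin n => A p.1 p.2 = s)).card ≤ n - 1) →
      ∃ σ : Equiv.Perm (Fin n), Function.Injective (fun i : Fin n => A i (σ i))) := by
  intro h
  obtain ⟨σ, hσ⟩ := h 6 arr arr_count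
  have h1 := search_sound σ σ.injective hσ [0, 1, 2, 3, 4, 5] (by decide) [] []
    (by intro r _; exact ⟨List.not_mem_nil, List.not_mem_nil⟩)
  revert h1
  decide +kernel

end Pool.Agent.S08708
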