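import Pool.Statements.S09434
import Pool.Agent.Helper61.SP.Word

set_option autoImplicit false
open Pool Pool.MP_710f64_co

namespace Pool.Agent.S09434

open Filter Topology in
theorem exists_n (δ : ℝ) (hδ : 0 < δ) : ∃ n : ℕ, 5 ≤ n ∧ 3 ≤ δ * (8 * (n:ℝ) ^ 2) ∧
    (255 / 256 : ℝ) ^ ((n - 4) / 27) * (128 * (n:ℝ) ^ 2) ≤ 1 := by
  have h1 := tendsto_pow_const_mul_const_pow_of_abs_lt_one 2
    (show |(255 / 256 : ℝ)| < 1 by rw [abs_of_pos (by norm_num)]; norm_num)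
  have h2 := h1.eventually_lt_const (show (0:ℝ) < 1 / (128 * 961) by norm_num)
  obtain ⟨j0, hj0⟩ := eventually_atTop.mp h2
  obtain ⟨j1, hj1⟩ := exists_nat_gt (3 / δ)
  set j := max (max j0 j1) 1 with hj
  have hjj0 : j0 ≤ j := le_trans (le_max_left _ _) (le_max_left _ _)
  have hjj1 : j1 ≤ j := le_trans (le_max_right _ _) (le_max_left _ _)
  have hj1' : 1 ≤ j := le_max_right _ _
  have hj1r : (1:ℝ) ≤ j := by exact_mod_cast hj1'
  refine ⟨27 * j + 4, by omega, ?_, ?_⟩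
  · have h3 : 3 / δ < j := lt_of_lt_of_le hj1 (by exact_mod_cast hjj1)
    rw [div_lt_iff₀ hδ] at h3
    push_cast
    have h4 : (j:ℝ) ≤ 8 * (27 * (j:ℝ) + 4) ^ 2 := by nlinarith
    nlinarith [mul_le_mul_of_nonneg_left h4 hδ.le]
  · have h3 := hj0 j hjj0
    have h4 : (27 * j + 4 - 4) / 27 = j := by omega
    rw [h4]
    push_cast
    have h5 : (27 * (j:ℝ) + 4) ^ 2 ≤ 961 * (j:ℝ) ^ 2 := by nlinarith
    have h6 : (0:ℝ) < (255 / 256 : ℝ) ^ j := by positivity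
    calc (255 / 256 : ℝ) ^ j * (128 * (27 * (j:ℝ) + 4) ^ 2)
        ≤ (255 / 256 : ℝ) ^ j * (128 * (961 * (j:ℝ) ^ 2)) := by
          apply mul_le_mul_of_nonneg_left _ h6.le
          linarith
      _ = ((j:ℝ) ^ 2 * (255 / 256 : ℝ) ^ j) * (128 * 961) := by ring
      _ ≤ (1 / (128 * 961)) * (128 * 961) := by
          apply mul_le_mul_of_nonneg_right h3.le (by norm_num)
      _ = 1 := by norm_num

/-- The negation of the preceding statement: There is δ>0 such that, for every ε>0 and all large k, any word over the letters 0..⌊(1+δ)k⌋−1 that contains every permutation of length k as a pattern has length at least (1/2−ε)k². -/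
theorem result :
    ¬ (∃ δ : ℝ, 0 < δ ∧ ∀ ε : ℝ, 0 < ε → ∃ K : ℕ, ∀ k : ℕ, K ≤ k →
      ∀ w : List ℕ,
        (∀ x ∈ w, x < ⌊(1 + δ) * (k : ℝ)⌋₊) →
        (∀ σ : Equiv.Perm (Fin k), ∃ e : Fin k → Fin w.length,
          StrictMono e ∧ ∀ i j : Fin k, (w.get (e i) < w.get (e j) ↔ σ i < σ j)) →
        (1 / 2 - ε) * ((k : ℝ) ^ 2) ≤ (w.length : ℝ)) := by
  rintro ⟨δ, hδ, H⟩
  obtain ⟨n, hn5, hnδ, hnρ⟩ := exists_n δ hδ
  obtain ⟨N, hN⟩ : ∃ N : ℕ, N = n * (8 * n) := ⟨_, rfl⟩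
  have hNn : (N:ℝ) = 8 * (n:ℝ) ^ 2 := by rw [hN]; push_cast; ring
  have hn5r : (5:ℝ) ≤ n := by exact_mod_cast hn5
  have hN200 : (200:ℝ) ≤ N := by rw [hNn]; nlinarith
  have hNposn : 0 < N := by rw [hN]; exact Nat.mul_pos (by omega) (by omega)
  have hNpos : (0:ℝ) < N := by linarith
  -- choice of R, Q
  obtain ⟨R, hR⟩ : ∃ R : ℕ, R = 8 * N * (n ^ 2 + N) := ⟨_, rfl⟩
  have hRpos : 0 < R := by rw [hR]; positivity
  obtain ⟨Q, hQ⟩ : ∃ Q : ℝ, Q = ((4 * R : ℕ) : ℝ) := ⟨_, rfl⟩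
  have hQval : Q = 32 * N * ((n:ℝ) ^ 2 + N) := by rw [hQ, hR]; push_cast; ring
  have hQpos : 0 < Q := by rw [hQval]; positivity
  obtain ⟨W, hW⟩ : ∃ W : ℝ, W = Q ^ (8 * n) * (2 * n) + N * Q ^ 2 := ⟨_, rfl⟩
  have hWpos : 0 < W := by rw [hW]; positivity
  obtain ⟨η, hη⟩ : ∃ η : ℝ, η = 1 / (32 * N * W) := ⟨_, rfl⟩
  have hηpos : 0 < η := by rw [hη]; positivity
  have hne : NeZero (4 * R) := ⟨by omega⟩
  obtain ⟨S0, hS0⟩ := Pool.Agent.Helper61.SP.exists_pseudo (8 * n) (16 * N * (N + 1)) (4 * R) η hηpos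
  obtain ⟨K0, hK0⟩ := H (1 / (8 * (N:ℝ) ^ 2)) (by positivity)
  obtain ⟨S, hS⟩ : ∃ S : ℕ, S = max (max S0 K0) 1 := ⟨_, rfl⟩
  have hSS0 : S0 ≤ S := by rw [hS]; exact le_trans (le_max_left _ _) (le_max_left _ _)
  have hSK0 : K0 ≤ S := by rw [hS]; exact le_trans (le_max_right _ _) (le_max_left _ _)
  have hS1 : 1 ≤ S := by rw [hS]; exact le_max_right _ _
  obtain ⟨p, hp⟩ := hS0 S hSS0
  obtain ⟨K, hK⟩ : ∃ K : ℕ, K = 16 * N * S := ⟨_, rfl⟩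
  obtain ⟨k, hk⟩ : ∃ k : ℕ, k = K * N := ⟨_, rfl⟩
  have hCS : k + K ≤ 16 * N * (N + 1) * S := by
    rw [hk, hK]; apply le_of_eq; ring
  have hKr : (K:ℝ) = 16 * N * S := by rw [hK]; push_cast; ring
  have hkr : (k:ℝ) = K * N := by rw [hk]; push_cast; ring
  have hS1r : (1:ℝ) ≤ S := by exact_mod_cast hS1
  have hKpos : (0:ℝ) < K := by rw [hKr]; positivity
  -- the numeric bound
  obtain ⟨ρ, hρ⟩ : ∃ ρ : ℝ, ρ = (255 / 256 : ℝ) ^ ((n - 4) / 27) := ⟨_, rfl⟩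
  obtain ⟨t, ht⟩ : ∃ t : ℝ, t = 1 / (N:ℝ) := ⟨_, rfl⟩
  have htN : t * N = 1 := by rw [ht]; field_simp
  have htpos : 0 < t := by rw [ht]; positivity
  have ht200 : t ≤ 1 / 200 := by
    rw [ht]; exact one_div_le_one_div_of_le (by norm_num) hN200
  have hρ1 : ρ / 2 ≤ t / 32 := by
    have h1 : ρ * (16 * N) ≤ 1 := by rw [hNn]; rw [← hρ] at hnρ; linarith
    have h2 : ρ * (16 * N) * t ≤ 1 * t := mul_le_mul_of_nonneg_right h1 htpos.le
    have h3 : ρ * (16 * N) * t = 16 * ρ * (t * N) := by ring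
    rw [h3, htN] at h2
    linarith
  have hQ1 : N / (2 * Q) + (n:ℝ) ^ 2 / Q ≤ t / 32 := by
    have h1 : N / (2 * Q) + (n:ℝ) ^ 2 / Q = (N / 2 + (n:ℝ) ^ 2) / Q := by
      field_simp
    rw [h1, div_le_iff₀ hQpos, hQval]
    have h2 : t / 32 * (32 * N * ((n:ℝ) ^ 2 + N)) = (t * N) * ((n:ℝ) ^ 2 + N) := by ring
    rw [h2, htN]
    linarith
  have hη1 : η * W = t / 32 := by
    rw [hη, ht]
    field_simp
  obtain ⟨B, hB⟩ : ∃ B : ℝ, B = K * (N / 2 - 1 / 2 + t / 8) := ⟨_, rfl⟩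
  have hBpos : 0 < B := by
    rw [hB]; apply mul_pos hKpos; linarith
  have hwdes : (k : ℝ) * (1 / 2 + 1 / (2 * Q) + η * Q ^ 2) +
      K * (-(1 / 2) + ρ / 2 + (n : ℝ) ^ 2 / Q + η * (Q ^ (8 * n) * (2 * n))) ≤ B := by
    have h1 : (k : ℝ) * (1 / 2 + 1 / (2 * Q) + η * Q ^ 2) +
      K * (-(1 / 2) + ρ / 2 + (n : ℝ) ^ 2 / Q + η * (Q ^ (8 * n) * (2 * n))) =
      K * (N / 2 - 1 / 2 + (N / (2 * Q) + (n:ℝ) ^ 2 / Q) + η * W + ρ / 2) := by
      rw [hkr, hW]; ring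
    rw [h1, hB]
    apply mul_le_mul_of_nonneg_left _ hKpos.le
    rw [hη1]
    linarith
  obtain ⟨m, hm⟩ : ∃ m : ℕ, m = ⌊B⌋₊ + 1 := ⟨_, rfl⟩
  have hmB : (m:ℝ) ≤ B + 1 := by
    rw [hm]; push_cast
    have := Nat.floor_le hBpos.le
    linarith
  have hBm : B < m := by
    rw [hm]; push_cast; exact Nat.lt_floor_add_one B
  obtain ⟨w, hwlen, hwlt, hwpat⟩ := Pool.Agent.Helper61.SP.exists_word k (k + K + S) m (4 * R)
    (by omega) p (by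
      intro σ
      obtain ⟨φ, hφ, hφ2, hφ3⟩ := Pool.Agent.Helper61.SP.main_bound N n K k R S (16 * N * (N + 1))
        hRpos hN hk (by omega) hn5 η hηpos.le hCS p hp σ
      refine ⟨φ, hφ, hφ2, ?_⟩
      rw [← hQ, ← hρ] at hφ3
      have h1 := lt_of_le_of_lt (le_trans hφ3 hwdes) hBm
      exact_mod_cast h1)
  have hSk : K0 ≤ k := by
    have h1 : S ≤ k := by
      rw [hk, hK]
      calc S = 1 * S := (one_mul S).symm
        _ ≤ (16 * N * N) * S := by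
          apply Nat.mul_le_mul_right
          nlinarith
        _ = 16 * N * S * N := by ring
    omega
  have hrfl : k + K + S ≤ ⌊(1 + δ) * (k:ℝ)⌋₊ := by
    apply Nat.le_floor
    push_cast
    have h1 : 3 ≤ δ * N := by rw [hNn]; exact hnδ
    have h2 : (S:ℝ) ≤ K := by
      rw [hKr]
      calc (S:ℝ) = 1 * S := (one_mul _).symm
        _ ≤ 16 * N * S := by
          apply mul_le_mul_of_nonneg_right _ (by linarith)
          linarith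
    have h3 : 3 * (K:ℝ) ≤ δ * N * K := mul_le_mul_of_nonneg_right h1 hKpos.le
    rw [hkr]
    have e : (1 + δ) * ((K:ℝ) * N) = K * N + δ * N * K := by ring
    rw [e]
    linarith
  have hfin := hK0 k hSk w (fun x hx => lt_of_lt_of_le (hwlt x hx) hrfl) hwpat
  rw [hwlen] at hfin
  push_cast at hfin
  have hSK : (S:ℝ) = K * t / 16 := by
    rw [hKr]
    have : 16 * (N:ℝ) * S * t / 16 = S * (t * N) := by ring
    rw [this, htN, mul_one]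
  have hLHS : (1 / 2 - 1 / (8 * (N:ℝ) ^ 2)) * (k:ℝ) ^ 2 = (K:ℝ) ^ 2 * (N ^ 2 / 2 - 1 / 8) := by
    rw [hkr]; field_simp
  rw [hLHS] at hfin
  have hr : (k:ℝ) + K + S = K * (N + 1 + t / 16) := by
    rw [hSK, hkr]; ring
  rw [hr] at hfin
  have hKt : (N:ℝ) * 16 ≤ K := by
    rw [hKr]
    calc (N:ℝ) * 16 = 16 * N * 1 := by ring
      _ ≤ 16 * N * S := mul_le_mul_of_nonneg_left hS1r (by positivity)
  have hup : (m:ℝ) * (K * (N + 1 + t / 16)) ≤ (B + 1) * (K * (N + 1 + t / 16)) := by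
    apply mul_le_mul_of_nonneg_right hmB
    positivity
  have hBexp : B * (K * (N + 1 + t / 16)) = (K:ℝ) ^ 2 * (N ^ 2 / 2 - 11 / 32 + 3 * t / 32 + t ^ 2 / 128) := by
    have e : B * (K * (N + 1 + t / 16)) = (K:ℝ) ^ 2 * (N ^ 2 / 2 + (t * N) / 32 + (t * N) / 8 - 1 / 2 + 3 * t / 32 + t ^ 2 / 128) := by
      rw [hB]; ring
    rw [e, htN]; ring
  have h1exp : 1 * (K * (N + 1 + t / 16)) ≤ (K:ℝ) ^ 2 * (1 / 8) := by
    have : (N:ℝ) + 1 + t / 16 ≤ K * (1 / 8) := by linarith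
    calc 1 * ((K:ℝ) * (N + 1 + t / 16)) = K * (N + 1 + t / 16) := one_mul _
      _ ≤ K * (K * (1 / 8)) := mul_le_mul_of_nonneg_left this hKpos.le
      _ = (K:ℝ) ^ 2 * (1 / 8) := by ring
  have hK2 : 0 < (K:ℝ) ^ 2 := by positivity
  have htot : (K:ℝ) ^ 2 * (N ^ 2 / 2 - 1 / 8) ≤ (K:ℝ) ^ 2 * (N ^ 2 / 2 - 11 / 32 + 3 * t / 32 + t ^ 2 / 128 + 1 / 8) := by
    calc (K:ℝ) ^ 2 * (N ^ 2 / 2 - 1 / 8) ≤ m * (K * (N + 1 + t / 16)) := hfin
      _ ≤ (B + 1) * (K * (N + 1 + t / 16)) := hup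
      _ = B * (K * (N + 1 + t / 16)) + 1 * (K * (N + 1 + t / 16)) := by ring
      _ ≤ (K:ℝ) ^ 2 * (N ^ 2 / 2 - 11 / 32 + 3 * t / 32 + t ^ 2 / 128) + (K:ℝ) ^ 2 * (1 / 8) := by
          rw [hBexp]; linarith
      _ = _ := by ring
  have hlast := le_of_mul_le_mul_left htot hK2
  nlinarith

end Pool.Agent.S09434
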