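import Pool.Statements.S09934
import Pool.Agent.Helper90.Mader.Conn

set_option autoImplicit false
open Pool Pool.MP_88432c_co

namespace Pool.Agent.S09934

/-- The negation of the preceding statement: For all m,k ≥ 1, every k-connected finite digraph in which every vertex has in- and out-degree at least 2k+m-1 has a directed path on m vertices whose deletion leaves a k-connected digraph. -/
theorem result :
    ¬ (∀ (m k n : ℕ), 1 ≤ m → 1 ≤ k →
  ∀ (adj : Fin n → Fin n → Prop), (∀ v, ¬ adj v v) →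
  ∀ (conn : Set (Fin n) → Prop),
    (∀ W : Set (Fin n), conn W ↔
      (k + 1 ≤ W.ncard ∧
        ∀ a ∈ W, ∀ b ∈ W, a ≠ b →
          ∃ p : Fin k → List (Fin n), Function.Injective p ∧
            (∀ i, (p i).head? = some a ∧ (p i).getLast? = some b ∧ (p i).Nodup ∧
              (∀ v ∈ p i, v ∈ W) ∧
              ∀ (j : ℕ) (u w : Fin n), (p i)[j]? = some u → (p i)[j+1]? = some w → adj u w) ∧
            ∀ i j, i ≠ j → ∀ v, v ∈ p i → v ∈ p j → v = a ∨ v = b)) →
    conn Set.univ →
    (∀ v, 2 * k + m - 1 ≤ Set.ncard {w | adj v w} ∧ 2 * k + m - 1 ≤ Set.ncard {w | adj w v}) →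
    ∃ P : Fin m → Fin n, Function.Injective P ∧
      (∀ i j : Fin m, i.val + 1 = j.val → adj (P i) (P j)) ∧
      conn (Set.range P)ᶜ) := by
  intro H
  have h := H 3 4 68 (by norm_num) (by norm_num) Pool.Agent.Helper90.Mader.adj
    (fun v hv => hv.1 rfl)
    (fun W => 4 + 1 ≤ W.ncard ∧ ∀ a ∈ W, ∀ b ∈ W, a ≠ b →
      Pool.Agent.Helper37.Mader.PathsIn Pool.Agent.Helper90.Mader.adj W 4 a b)
    (fun W => Iff.rfl) ?_ ?_
  · obtain ⟨P, hP1, hP2, -, hP3⟩ := h
    obtain ⟨a, ha, b, hb, hab, hno⟩ := Pool.Agent.Helper90.Mader.blocked P hP1 hP2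
    apply hno
    have hset : (((Finset.univ.image P)ᶜ : Finset (Fin 68)) : Set (Fin 68)) =
        (Set.range P)ᶜ := by
      ext v
      simp
    rw [hset]
    exact hP3 a ha b hb hab
  · refine ⟨by rw [Set.ncard_univ, Nat.card_fin]; norm_num, ?_⟩
    intro a _ b _ hab
    have h1 := Pool.Agent.Helper37.Mader.paths_of_lb (r := Pool.Agent.Helper90.Mader.adj)
      (W := Finset.univ) (k := 4) hab (Finset.mem_univ a) (Finset.mem_univ b)
      (by rw [Finset.card_univ, Fintype.card_fin]; norm_num)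
      (fun A B _ _ hs hA hB => by
        have h2 := Pool.Agent.Helper90.Mader.lower hs hA hB
        rw [Pool.Agent.Helper37.Mader.TT, Finset.compl_eq_univ_sdiff] at h2
        exact h2)
    rw [Finset.coe_univ] at h1
    exact h1
  · intro v
    have h1 := Pool.Agent.Helper90.Mader.deg_out v
    have h2 := Pool.Agent.Helper90.Mader.deg_in v
    rw [← Set.ncard_coe_finset] at h1 h2
    simp only [Finset.coe_filter, Finset.mem_univ, true_and] at h1 h2
    exact ⟨h1, h2⟩

end Pool.Agent.S09934
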