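import Pool.Statements.S10416
import Pool.Agent.Helper61.StackE

set_option autoImplicit false
open Pool Pool.MP_9dd636_co

namespace Pool.Agent.S10416

/-- The negation of the preceding statement: For every c there is s such that every finite graph whose radius-r balls all have at most c·r² vertices (r ≥ 1) has a vertex order and an s-page edge assignment with no two crossing edges on the same page. -/
theorem result :
    ¬ (∀ c : ℕ, ∃ s : ℕ, ∀ (V : Type) [Finite V] (G : SimpleGraph V),
      (∀ v : V, ∀ r : ℕ, 1 ≤ r →
        {w : V | G.edist v w ≤ (r : ℕ∞)}.ncard ≤ c * r ^ 2) →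
      ∃ f : V → ℕ, Function.Injective f ∧
        ∃ col : V → V → Fin s,
          ∀ a b x y : V, G.Adj a b → G.Adj x y →
            f a < f x → f x < f b → f b < f y → col a b ≠ col x y) := by
  exact Pool.Agent.Helper61.Stack.main_neg

end Pool.Agent.S10416
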