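import Pool.Statements.S11369
import Pool.Agent.Helper85.Vu.Fin

set_option autoImplicit false
open Pool Pool.MP_c798af_co

namespace Pool.Agent.S11369

/-- For all ζ,ε>0 there is Δ₀ such that for every Δ≥Δ₀, every finite graph with all degrees ≤Δ and every two distinct vertices sharing ≤ζΔ common neighbours has independence number ≥ (1/ζ−ε)·n/Δ. -/
theorem result :
    ∀ ζ : ℝ, 0 < ζ → ∀ ε : ℝ, 0 < ε → ∃ Δ₀ : ℕ, ∀ Δ : ℕ, Δ₀ ≤ Δ →
      ∀ (V : Type) [Fintype V] [DecidableEq V] (G : SimpleGraph V) [DecidableRel G.Adj],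
        (∀ v : V, G.degree v ≤ Δ) →
        (∀ u v : V, u ≠ v →
          (((Finset.univ.filter (fun w => G.Adj u w ∧ G.Adj v w)).card : ℕ) : ℝ) ≤ ζ * (Δ : ℝ)) →
        (1 / ζ - ε) * ((Fintype.card V : ℝ) / (Δ : ℝ)) ≤ (G.indepNum : ℝ) := by
  exact Pool.Agent.Helper85.Vu.vu_main

end Pool.Agent.S11369
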