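import Pool.Statements.S11654
import Pool.Agent.Helper95.SP.Main

set_option autoImplicit false
open Pool Pool.MP_d32fcc_co

namespace Pool.Agent.S11654

/-- The negation of the preceding statement: For every finite graph that is k-paintable (online k-list-colourable), and all positive a, b with a > k·b, the graph is (a:b)-paintable. This is equivalent to the strong fractional paint number being at most the paint number. -/
theorem result :
    ¬ (∀ (V : Type) [Fintype V] (G : SimpleGraph V) (k a b : ℕ), 0 < b → k * b < a →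
    (∀ W : (V → ℕ) → (V → ℕ) → Prop,
      (∀ t n : V → ℕ, (∀ v, n v ≤ t v) →
        (∀ M : Set V, M.Nonempty → (∀ v ∈ M, 0 < n v) →
          ∃ I ⊆ M, G.IsIndepSet I ∧
            W (t - M.indicator (fun _ => (1 : ℕ))) (n - I.indicator (fun _ => (1 : ℕ)))) →
        W t n) →
      W (fun _ => k) (fun _ => 1)) →
    (∀ W : (V → ℕ) → (V → ℕ) → Prop,
      (∀ t n : V → ℕ, (∀ v, n v ≤ t v) →
        (∀ M : Set V, M.Nonempty → (∀ v ∈ M, 0 < n v) →
          ∃ I ⊆ M, G.IsIndepSet I ∧
            W (t - M.indicator (fun _ => (1 : ℕ))) (n - I.indicator (fun _ => (1 : ℕ)))) →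
        W t n) →
      W (fun _ => a) (fun _ => b))) := by
  intro h
  obtain ⟨V, hV, G, k, b, hb, h1, h2⟩ := Pool.Agent.Helper95.SP.main
  exact h2 (h V G k (k * b + 1) b hb (by omega) h1)

end Pool.Agent.S11654
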