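import Pool.Statements.S12451
import Pool.Agent.Helper78.Pal.Final

set_option autoImplicit false
open Pool Pool.MP_f6e863_co

namespace Pool.Agent.S12451

/-- For any finite alphabet, primitive morphism and infinite fixed point u: the set of factors of u is closed under reversal if and only if u has infinitely many distinct palindromic factors. -/
theorem result :
    ∀ (α : Type) [Fintype α] (φ : α → List α) (u : ℕ → α),
      (∃ k : ℕ, 1 ≤ k ∧ ∀ a b : α,
          b ∈ (fun w : List α => w.flatMap φ)^[k] [a]) →
      (∀ n : ℕ, ((List.range n).map u).flatMap φ =
          (List.range (((List.range n).map u).flatMap φ).length).map u) →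
      ((∀ i n : ℕ, ∃ i' : ℕ,
          (List.range n).map (fun j => u (i' + j)) =
            ((List.range n).map (fun j => u (i + j))).reverse) ↔
        Set.Infinite {w : List α |
          (∃ i : ℕ, w = (List.range w.length).map (fun j => u (i + j))) ∧
            w.reverse = w}) := by
  intro α _ φ u hprim hfix
  exact Pool.Agent.Helper78.Pal.final α φ u hprim hfix

end Pool.Agent.S12451
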