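import Pool.Statements.S12822

set_option autoImplicit false
open Pool Pool.MP_182cc9_gt

namespace Pool.Agent.S12822

open Set Filter Topology

/-- An uncountable discrete space. -/
structure Dsc where
  /-- the underlying sequence -/
  val : ℕ → Bool

instance : TopologicalSpace Dsc := ⊥

instance : DiscreteTopology Dsc := ⟨rfl⟩

lemma not_countable_dsc : ¬ Countable Dsc := by
  intro h
  have h1 : Countable (Set ℕ) := by
    classical
    have : Function.Injective (fun s : Set ℕ => (⟨fun n => decide (n ∈ s)⟩ : Dsc)) := by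
      intro s t hst
      ext n
      have := congrFun (congrArg Dsc.val hst) n
      simpa using this
    exact this.countable
  obtain ⟨f, hf⟩ := h1.exists_injective_nat
  exact Function.cantor_injective f hf

/-- The Cantor space. -/
abbrev Cn : Type := ℕ → Bool

/-- The compact space of the example. -/
abbrev XX : Type := unitInterval × OnePoint (Dsc × Cn) × OnePoint ℕ

instance : T4Space XX := inferInstance

/-- The recursive definition of the relative dimension. -/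
def Dm {X : Type} [TopologicalSpace X] : ℕ → Set X → Set X → Prop
  | 0, Y, A => A ∩ Y = ∅
  | (k + 1), Y, A => (A ∩ Y = ∅ ∨
          ∀ F G : Set X, (∃ C : Set X, IsClosed C ∧ F = Y ∩ C) →
            (∃ C : Set X, IsClosed C ∧ G = Y ∩ C) → Disjoint F G →
            ∃ S U V : Set X, S ⊆ Y ∧ (∃ C : Set X, IsClosed C ∧ S = Y ∩ C) ∧
              (∃ O : Set X, IsOpen O ∧ U = Y ∩ O) ∧
              (∃ O : Set X, IsOpen O ∧ V = Y ∩ O) ∧
              Disjoint U V ∧ Y \ S = U ∪ V ∧ F ⊆ U ∧ G ⊆ V ∧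
              Dm k S (A ∩ S))

/-- The points of the first part of the subset. -/
def j1 (p : Cn → unitInterval) (x : Dsc × Cn) : XX :=
  (p x.2, (x : OnePoint (Dsc × Cn)), OnePoint.infty)

/-- The points of the second part of the subset. -/
def j2 (x : unitInterval × ℕ) : XX :=
  (x.1, OnePoint.infty, ((x.2 : ℕ) : OnePoint ℕ))

/-- The subset. -/
def ZZ (p : Cn → unitInterval) (Q : Set unitInterval) : Set XX :=
  range (j1 p) ∪ j2 '' (Q ×ˢ univ)

/-- Disjoint closed sets in a countable normal space are separated by a clopen set. -/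
lemma sep_countable {T : Type} [TopologicalSpace T] [NormalSpace T] [Countable T]
    {P Q : Set T} (hP : IsClosed P) (hQ : IsClosed Q) (h : Disjoint P Q) :
    ∃ W : Set T, IsClopen W ∧ P ⊆ W ∧ Q ⊆ Wᶜ := by
  obtain ⟨f, hf0, hf1, hf⟩ := exists_continuous_zero_one_of_isClosed hP hQ h
  have hc : (range f).Countable := countable_range f
  have : ¬ (Ioo (0 : ℝ) 1 ⊆ range f) := by
    intro hs
    have h1 := hc.mono hs
    exact (Cardinal.Real.Ioo_countable_iff.1 h1).not_gt one_pos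
  obtain ⟨t, ht, htr⟩ := not_subset.1 this
  refine ⟨f ⁻¹' (Iio t), ⟨?_, isOpen_Iio.preimage f.continuous⟩, ?_, ?_⟩
  · have : f ⁻¹' (Iio t) = f ⁻¹' (Iic t) := by
      ext x
      simp only [mem_preimage, mem_Iio, mem_Iic]
      constructor
      · exact le_of_lt
      · intro hx
        exact lt_of_le_of_ne hx (fun e => htr ⟨x, e⟩)
    rw [this]
    exact isClosed_Iic.preimage f.continuous
  · intro x hx
    have := hf0 hx
    simp only [mem_preimage, mem_Iio]
    simp at this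
    rw [this]
    exact ht.1
  · intro x hx
    have := hf1 hx
    simp only [mem_compl_iff, mem_preimage, mem_Iio, not_lt]
    simp at this
    rw [this]
    exact ht.2.le

/-- Disjoint closed sets in `Dsc × Cn` are separated by a clopen set. -/
lemma sep_prod {P Q : Set (Dsc × Cn)} (hP : IsClosed P) (hQ : IsClosed Q) (h : Disjoint P Q) :
    ∃ W : Set (Dsc × Cn), IsClopen W ∧ P ⊆ W ∧ Q ⊆ Wᶜ := by
  have key : ∀ d : Dsc, ∃ W : Set Cn, IsClopen W ∧ (Prod.mk d) ⁻¹' P ⊆ W ∧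
      W ⊆ ((Prod.mk d) ⁻¹' Q)ᶜ := by
    intro d
    refine exists_clopen_of_closed_subset_open (hP.preimage (by fun_prop))
      (hQ.preimage (by fun_prop)).isOpen_compl ?_
    intro c hc hc'
    exact h.le_bot ⟨hc, hc'⟩
  choose W hW hPW hWQ using key
  have hopen : ∀ (V : Dsc → Set Cn), (∀ d, IsOpen (V d)) →
      IsOpen {x : Dsc × Cn | x.2 ∈ V x.1} := by
    intro V hV
    have : {x : Dsc × Cn | x.2 ∈ V x.1} = ⋃ d, ({d} : Set Dsc) ×ˢ (V d) := by
      ext ⟨d, c⟩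
      simp
    rw [this]
    exact isOpen_iUnion (fun d => (isOpen_discrete _).prod (hV d))
  refine ⟨{x | x.2 ∈ W x.1}, ⟨⟨?_⟩, hopen W (fun d => (hW d).isOpen)⟩, ?_, ?_⟩
  · exact hopen (fun d => (W d)ᶜ) (fun d => (hW d).isClosed.isOpen_compl)
  · rintro ⟨d, c⟩ hx
    exact hPW d hx
  · rintro ⟨d, c⟩ hx hx'
    exact hWQ d hx' hx

lemma continuous_j1 {p : Cn → unitInterval} (hp : Continuous p) : Continuous (j1 p) := by
  unfold j1
  have := OnePoint.continuous_coe (X := Dsc × Cn)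
  fun_prop

lemma continuous_j2 : Continuous j2 := by
  unfold j2
  have := OnePoint.continuous_coe (X := ℕ)
  fun_prop

lemma ind_le_zero {p : Cn → unitInterval} (hp : Continuous p) {Q : Set unitInterval}
    (hQ : Q.Countable) : Dm 1 (ZZ p Q) (ZZ p Q) := by
  right
  rintro F G ⟨CF, hCF, rfl⟩ ⟨CG, hCG, rfl⟩ hdisj
  have hC : ∀ x ∈ ZZ p Q, x ∈ CF → x ∈ CG → False := by
    intro x hx h1 h2
    exact hdisj.le_bot ⟨⟨hx, h1⟩, ⟨hx, h2⟩⟩
  -- first part
  obtain ⟨W, hW, hFW, hGW⟩ := sep_prod (hCF.preimage (continuous_j1 hp))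
    (hCG.preimage (continuous_j1 hp)) (by
      rw [Set.disjoint_left]
      intro x hx hx'
      exact hC _ (Or.inl (mem_range_self x)) hx hx')
  -- second part
  have hcount : Countable (Q × ℕ) := by
    have := hQ.to_subtype
    infer_instance
  let k : Q × ℕ → XX := fun x => j2 (x.1, x.2)
  have hk : Continuous k := continuous_j2.comp (by fun_prop)
  obtain ⟨W', hW', hFW', hGW'⟩ := sep_countable (hCF.preimage hk) (hCG.preimage hk) (by
      rw [Set.disjoint_left]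
      intro x hx hx'
      exact hC _ (Or.inr ⟨(x.1, x.2), ⟨x.1.2, trivial⟩, rfl⟩) hx hx')
  -- open sets of the big space with prescribed traces
  have open1 : ∀ A : Set (Dsc × Cn), IsOpen A → ∃ O : Set XX, IsOpen O ∧
      (∀ x, j1 p x ∈ O ↔ x ∈ A) ∧ (∀ x, j2 x ∉ O) := by
    intro A hA
    refine ⟨(fun x : XX => x.2.1) ⁻¹' ((↑) '' A), ?_, ?_, ?_⟩
    · exact (OnePoint.isOpen_image_coe.2 hA).preimage (by fun_prop)
    · intro x
      simp [j1]
    · intro x
      simp [j2]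
  have open2 : ∀ A : Set (Q × ℕ), IsOpen A → ∃ O : Set XX, IsOpen O ∧
      (∀ x : Q × ℕ, k x ∈ O ↔ x ∈ A) ∧ (∀ x, j1 p x ∉ O) := by
    intro A hA
    have hind : IsInducing (fun x : Q × ℕ => ((x.1 : unitInterval), x.2)) :=
      IsInducing.prodMap IsInducing.subtypeVal IsInducing.id
    obtain ⟨B, hB, rfl⟩ := hind.isOpen_iff.1 hA
    refine ⟨(fun x : XX => (x.1, x.2.2)) ⁻¹' ((Prod.map id (↑)) '' B), ?_, ?_, ?_⟩
    · have h1 : IsOpenMap (Prod.map (id : unitInterval → unitInterval)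
          ((↑) : ℕ → OnePoint ℕ)) := IsOpenMap.id.prodMap OnePoint.isOpenMap_coe
      exact (h1 _ hB).preimage (by fun_prop)
    · intro x
      simp only [k, j2, mem_preimage, mem_image, Prod.exists, Prod.map_apply, id_eq,
        Prod.mk.injEq, OnePoint.coe_eq_coe]
      constructor
      · rintro ⟨a, b, hab, rfl, rfl⟩
        exact hab
      · intro h
        exact ⟨_, _, h, rfl, rfl⟩
    · intro x
      simp [j1]
  obtain ⟨O1, hO1, hO1a, hO1b⟩ := open1 W hW.isOpen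
  obtain ⟨O2, hO2, hO2a, hO2b⟩ := open2 W' hW'.isOpen
  obtain ⟨O3, hO3, hO3a, hO3b⟩ := open1 Wᶜ hW.isClosed.isOpen_compl
  obtain ⟨O4, hO4, hO4a, hO4b⟩ := open2 W'ᶜ hW'.isClosed.isOpen_compl
  refine ⟨∅, ZZ p Q ∩ (O1 ∪ O2), ZZ p Q ∩ (O3 ∪ O4), empty_subset _, ⟨∅, isClosed_empty, by simp⟩,
    ⟨_, hO1.union hO2, rfl⟩, ⟨_, hO3.union hO4, rfl⟩, ?_, ?_, ?_, ?_, ?_⟩
  · rw [Set.disjoint_left]
    rintro x ⟨hx, h1⟩ ⟨_, h2⟩
    rcases hx with ⟨y, rfl⟩ | ⟨⟨r, n⟩, ⟨hr, _⟩, rfl⟩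
    · have e1 := hO1a y
      have e2 := hO2b y
      have e3 := hO3a y
      have e4 := hO4b y
      simp only [mem_union, mem_compl_iff] at h1 h2 e3
      tauto
    · have e1 := hO1b (r, n)
      have e2 := hO2a (⟨r, hr⟩, n)
      have e3 := hO3b (r, n)
      have e4 := hO4a (⟨r, hr⟩, n)
      simp only [k, mem_union, mem_compl_iff] at h1 h2 e2 e4
      tauto
  · ext x
    simp only [sdiff_empty, mem_union, mem_inter_iff]
    constructor
    · intro hx
      rcases hx with ⟨y, rfl⟩ | ⟨⟨r, n⟩, ⟨hr, ht⟩, rfl⟩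
      · have hz : j1 p y ∈ ZZ p Q := Or.inl ⟨y, rfl⟩
        have e1 := hO1a y
        have e3 := hO3a y
        simp only [mem_compl_iff] at e3
        tauto
      · have hz : j2 (r, n) ∈ ZZ p Q := Or.inr ⟨(r, n), ⟨hr, ht⟩, rfl⟩
        have e2 := hO2a (⟨r, hr⟩, n)
        have e4 := hO4a (⟨r, hr⟩, n)
        simp only [k, mem_compl_iff] at e2 e4
        tauto
    · rintro (⟨h, _⟩ | ⟨h, _⟩) <;> exact h
  · rintro x ⟨hx, hxF⟩
    refine ⟨hx, ?_⟩
    rcases hx with ⟨y, rfl⟩ | ⟨⟨r, n⟩, ⟨hr, ht⟩, rfl⟩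
    · exact Or.inl ((hO1a y).2 (hFW hxF))
    · exact Or.inr ((hO2a (⟨r, hr⟩, n)).2 (hFW' hxF))
  · rintro x ⟨hx, hxG⟩
    refine ⟨hx, ?_⟩
    rcases hx with ⟨y, rfl⟩ | ⟨⟨r, n⟩, ⟨hr, ht⟩, rfl⟩
    · exact Or.inl ((hO3a y).2 (hGW hxG))
    · exact Or.inr ((hO4a (⟨r, hr⟩, n)).2 (hGW' hxG))
  · simp [Dm]

/-- Eventual behaviour along the third coordinate, uniformly in the Cantor space. -/
lemma tube {p : Cn → unitInterval} (hp : Continuous p) {U V : Set XX} (hU : IsOpen U)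
    (hV : IsOpen V) (d : Dsc) (hUV : ∀ c, j1 p (d, c) ∈ U ∨ j1 p (d, c) ∈ V)
    (hdisj : Disjoint U V) :
    ∃ N : ℕ, ∀ m ≥ N, ∀ c : Cn,
      (j1 p (d, c) ∈ U → ((p c, ((d, c) : Dsc × Cn), (m : OnePoint ℕ)) : XX) ∈ U) ∧
      (j1 p (d, c) ∉ U → ((p c, ((d, c) : Dsc × Cn), (m : OnePoint ℕ)) : XX) ∈ V) := by
  let g : OnePoint ℕ × Cn → XX := fun x => (p x.2, ((d, x.2) : Dsc × Cn), x.1)
  have hg : Continuous g := by
    have := OnePoint.continuous_coe (X := Dsc × Cn)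
    fun_prop
  have hj : Continuous (fun c : Cn => j1 p (d, c)) := (continuous_j1 hp).comp (by fun_prop)
  have h1 : ∀ᶠ t in 𝓝 (OnePoint.infty : OnePoint ℕ), ∀ c ∈ (univ : Set Cn),
      ((j1 p (d, c) ∈ U → g (t, c) ∈ U) ∧ (j1 p (d, c) ∉ U → g (t, c) ∈ V)) := by
    refine isCompact_univ.eventually_forall_of_forall_eventually
      (P := fun t c => ((j1 p (d, c) ∈ U → g (t, c) ∈ U) ∧ (j1 p (d, c) ∉ U → g (t, c) ∈ V))) ?_
    intro c _
    by_cases hc : j1 p (d, c) ∈ U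
    · have e1 : ∀ᶠ z : OnePoint ℕ × Cn in 𝓝 (OnePoint.infty, c), g z ∈ U :=
        hg.continuousAt.eventually (hU.mem_nhds hc)
      have e2 : ∀ᶠ z : OnePoint ℕ × Cn in 𝓝 (OnePoint.infty, c), j1 p (d, z.2) ∈ U :=
        (hj.comp continuous_snd).continuousAt.eventually (hU.mem_nhds hc)
      filter_upwards [e1, e2] with z h1 h2
      exact ⟨fun _ => h1, fun h => absurd h2 h⟩
    · have hc' : j1 p (d, c) ∈ V := (hUV c).resolve_left hc
      have e1 : ∀ᶠ z : OnePoint ℕ × Cn in 𝓝 (OnePoint.infty, c), g z ∈ V :=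
        hg.continuousAt.eventually (hV.mem_nhds hc')
      have e2 : ∀ᶠ z : OnePoint ℕ × Cn in 𝓝 (OnePoint.infty, c), j1 p (d, z.2) ∈ V :=
        (hj.comp continuous_snd).continuousAt.eventually (hV.mem_nhds hc')
      filter_upwards [e1, e2] with z h1 h2
      exact ⟨fun h => absurd h2 (Set.disjoint_left.1 hdisj h), fun _ => h1⟩
  have h2 : Tendsto ((↑) : ℕ → OnePoint ℕ) atTop (𝓝 OnePoint.infty) := by
    have := OnePoint.tendsto_coe_infty (X := ℕ)
    rwa [coclosedCompact_eq_cocompact, cocompact_eq_cofinite, Nat.cofinite_eq_atTop] at this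
  obtain ⟨N, hN⟩ := eventually_atTop.1 (h2.eventually h1)
  exact ⟨N, fun m hm c => hN m hm c trivial⟩

lemma tendsto_inf (b : Cn) : Tendsto (fun d : Dsc => (((d, b) : Dsc × Cn) : OnePoint (Dsc × Cn)))
    cofinite (𝓝 OnePoint.infty) := by
  refine OnePoint.tendsto_coe_infty.comp ?_
  rw [coclosedCompact_eq_cocompact, hasBasis_cocompact.tendsto_right_iff]
  intro K hK
  rw [eventually_cofinite]
  have h1 : (Prod.fst '' K).Finite := (hK.image continuous_fst).finite_of_discrete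
  refine h1.subset ?_
  intro d hd
  simp only [mem_compl_iff, not_not, mem_ofPred_eq] at hd
  exact ⟨_, hd, rfl⟩

lemma ind_pos {p : Cn → unitInterval} (hp : Continuous p) (hs : Function.Surjective p)
    {Q : Set unitInterval}
    (hQ : ∀ A : Set Cn, IsClopen A → (∃ a ∈ A, p a = 0) → (∃ b ∈ Aᶜ, p b = 1) →
      ∃ r ∈ Q, ∃ a ∈ A, ∃ b ∈ Aᶜ, p a = r ∧ p b = r) :
    ¬ Dm 1 univ (ZZ p Q) := by
  intro h
  rcases h with h | h
  · have : j1 p (⟨fun _ => false⟩, fun _ => false) ∈ ZZ p Q ∩ univ := ⟨Or.inl ⟨_, rfl⟩, trivial⟩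
    rw [h] at this
    exact this
  obtain ⟨S, U, V, -, -, ⟨U', hU', hU⟩, ⟨V', hV', hV⟩, hdisj, hSUV, hFU, hGV, hS⟩ :=
    h {x | x.1 = 0} {x | x.1 = 1}
      ⟨{x | x.1 = 0}, isClosed_eq continuous_fst continuous_const, by simp⟩
      ⟨{x | x.1 = 1}, isClosed_eq continuous_fst continuous_const, by simp⟩ (by
        rw [Set.disjoint_left]
        intro x (hx : x.1 = 0) (hx' : x.1 = 1)
        rw [hx] at hx'
        exact zero_ne_one hx')
  rw [univ_inter] at hU hV
  subst hU hV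
  have hcov : ∀ x ∈ ZZ p Q, x ∈ U ∨ x ∈ V := by
    intro x hx
    have h1 : x ∉ S := by
      intro hxS
      have : x ∈ ((ZZ p Q) ∩ S) ∩ S := ⟨⟨hx, hxS⟩, hxS⟩
      simp only [Dm] at hS
      rw [hS] at this
      exact this
    have h2 : x ∈ univ \ S := ⟨trivial, h1⟩
    rw [hSUV] at h2
    exact h2
  have hcl : ∀ d : Dsc, IsClopen {c : Cn | j1 p (d, c) ∈ U} := by
    intro d
    have hj : Continuous (fun c : Cn => j1 p (d, c)) := (continuous_j1 hp).comp (by fun_prop)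
    refine ⟨?_, hU'.preimage hj⟩
    have : {c : Cn | j1 p (d, c) ∈ U} = {c : Cn | j1 p (d, c) ∈ V}ᶜ := by
      ext c
      have h1 := hcov (j1 p (d, c)) (Or.inl ⟨_, rfl⟩)
      have h2 : j1 p (d, c) ∈ U → j1 p (d, c) ∉ V := fun h => Set.disjoint_left.1 hdisj h
      simp only [mem_ofPred_eq, mem_compl_iff]
      tauto
    rw [this]
    exact (hV'.preimage hj).isClosed_compl
  choose N hN using fun d => tube hp hU' hV' d (fun c => hcov _ (Or.inl ⟨_, rfl⟩)) hdisj
  have hcount : Countable (TopologicalSpace.Clopens Cn) :=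
    TopologicalSpace.Clopens.countable_iff_secondCountable.2 inferInstance
  let F : Dsc → TopologicalSpace.Clopens Cn × ℕ := fun d => (⟨_, hcl d⟩, N d)
  obtain ⟨⟨A, n⟩, hA⟩ : ∃ y, (F ⁻¹' {y}).Infinite := by
    by_contra hcon
    push Not at hcon
    apply not_countable_dsc
    rw [← Set.countable_univ_iff]
    have : (univ : Set Dsc) = ⋃ y, F ⁻¹' {y} := by
      ext d
      simp
    rw [this]
    exact countable_iUnion (fun y => (hcon y).countable)
  have hA1 : ∀ d ∈ F ⁻¹' {(A, n)}, ∀ c, c ∈ A ↔ j1 p (d, c) ∈ U := by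
    intro d hd c
    have : F d = (A, n) := hd
    have : A = ⟨_, hcl d⟩ := (congrArg Prod.fst this).symm
    rw [this]
    rfl
  have hA2 : ∀ d ∈ F ⁻¹' {(A, n)}, N d = n := by
    intro d hd
    have : F d = (A, n) := hd
    exact congrArg Prod.snd this
  obtain ⟨d0, hd0⟩ := hA.nonempty
  obtain ⟨r, hr, a, ha, b, hb, har, hbr⟩ := hQ A A.isClopen (by
      obtain ⟨a, ha⟩ := hs 0
      exact ⟨a, (hA1 d0 hd0 a).2 (hFU ha), ha⟩) (by
      obtain ⟨b, hb⟩ := hs 1
      refine ⟨b, fun hbA => ?_, hb⟩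
      exact Set.disjoint_left.1 hdisj ((hA1 d0 hd0 b).1 hbA) (hGV hb))
  have htend : ∀ c : Cn, Tendsto (fun d : Dsc => ((r, ((d, c) : Dsc × Cn), (n : OnePoint ℕ)) : XX))
      cofinite (𝓝 (j2 (r, n))) := by
    intro c
    exact tendsto_const_nhds.prodMk_nhds ((tendsto_inf c).prodMk_nhds tendsto_const_nhds)
  rcases hcov (j2 (r, n)) (Or.inr ⟨(r, n), ⟨hr, trivial⟩, rfl⟩) with hz | hz
  · have h1 := (htend b).eventually (hU'.mem_nhds hz)
    obtain ⟨d, hd1, hd2⟩ := ((frequently_cofinite_iff_infinite.2 hA).and_eventually h1).exists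
    have h2 := (hN d n (hA2 d hd1).le b).2 (fun h => hb ((hA1 d hd1 b).2 h))
    rw [hbr] at h2
    exact Set.disjoint_left.1 hdisj hd2 h2
  · have h1 := (htend a).eventually (hV'.mem_nhds hz)
    obtain ⟨d, hd1, hd2⟩ := ((frequently_cofinite_iff_infinite.2 hA).and_eventually h1).exists
    have h2 := (hN d n (hA2 d hd1).le a).1 ((hA1 d hd1 a).1 ha)
    rw [har] at h2
    exact Set.disjoint_left.1 hdisj h2 hd2

lemma exists_Q {p : Cn → unitInterval} (hp : Continuous p) (hs : Function.Surjective p) :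
    ∃ Q : Set unitInterval, Q.Countable ∧
      ∀ A : Set Cn, IsClopen A → (∃ a ∈ A, p a = 0) → (∃ b ∈ Aᶜ, p b = 1) →
      ∃ r ∈ Q, ∃ a ∈ A, ∃ b ∈ Aᶜ, p a = r ∧ p b = r := by
  classical
  have hcount : Countable (TopologicalSpace.Clopens Cn) :=
    TopologicalSpace.Clopens.countable_iff_secondCountable.2 inferInstance
  have key : ∀ A : TopologicalSpace.Clopens Cn, ∃ r : unitInterval,
      (∃ a ∈ (A : Set Cn), p a = 0) → (∃ b ∈ (A : Set Cn)ᶜ, p b = 1) →
      ∃ a ∈ (A : Set Cn), ∃ b ∈ (A : Set Cn)ᶜ, p a = r ∧ p b = r := by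
    intro A
    by_cases h : (∃ a ∈ (A : Set Cn), p a = 0) ∧ (∃ b ∈ (A : Set Cn)ᶜ, p b = 1)
    · obtain ⟨⟨a, ha, ha'⟩, b, hb, hb'⟩ := h
      have hc1 : IsClosed (p '' (A : Set Cn)) := (A.isClopen.isClosed.isCompact.image hp).isClosed
      have hc2 : IsClosed (p '' (A : Set Cn)ᶜ) :=
        (A.isClopen.isOpen.isClosed_compl.isCompact.image hp).isClosed
      have hcov : (univ : Set unitInterval) ⊆ p '' (A : Set Cn) ∪ p '' (A : Set Cn)ᶜ := by
        intro t _
        obtain ⟨c, rfl⟩ := hs t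
        by_cases hc : c ∈ (A : Set Cn)
        · exact Or.inl ⟨c, hc, rfl⟩
        · exact Or.inr ⟨c, hc, rfl⟩
      obtain ⟨r, -, ⟨a', h1, h2⟩, b', h3, h4⟩ :=
        isPreconnected_closed_iff.1 (isPreconnected_univ (α := unitInterval)) _ _ hc1 hc2 hcov
          ⟨0, trivial, a, ha, ha'⟩ ⟨1, trivial, b, hb, hb'⟩
      exact ⟨r, fun _ _ => ⟨a', h1, b', h3, h2, h4⟩⟩
    · exact ⟨0, fun h1 h2 => absurd ⟨h1, h2⟩ h⟩
  choose r hr using key
  refine ⟨range r, countable_range r, ?_⟩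
  intro A hA h0 h1
  exact ⟨r ⟨A, hA⟩, mem_range_self _, hr ⟨A, hA⟩ h0 h1⟩

/-- The negation of the preceding statement: In every T1 normal space X, for every subset Z and every n ≥ −1: if the large inductive dimension of Z as a space is at most n, then the relative large inductive dimension of Z in X is at most n. -/
theorem result :
    ¬ (∀ (X : Type) [TopologicalSpace X] [T4Space X] (Z : Set X) (n : ℕ)
      (D : ℕ → Set X → Set X → Prop),
      (∀ Y A : Set X, D 0 Y A ↔ A ∩ Y = ∅) →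
      (∀ (k : ℕ) (Y A : Set X), D (k + 1) Y A ↔
        (A ∩ Y = ∅ ∨
          ∀ F G : Set X, (∃ C : Set X, IsClosed C ∧ F = Y ∩ C) →
            (∃ C : Set X, IsClosed C ∧ G = Y ∩ C) → Disjoint F G →
            ∃ S U V : Set X, S ⊆ Y ∧ (∃ C : Set X, IsClosed C ∧ S = Y ∩ C) ∧
              (∃ O : Set X, IsOpen O ∧ U = Y ∩ O) ∧
              (∃ O : Set X, IsOpen O ∧ V = Y ∩ O) ∧
              Disjoint U V ∧ Y \ S = U ∪ V ∧ F ⊆ U ∧ G ⊆ V ∧
              D k S (A ∩ S))) →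
      D n Z Z → D n Set.univ Z) := by
  intro H
  obtain ⟨p, hp, hs⟩ := exists_nat_bool_continuous_surjective_of_compact unitInterval
  obtain ⟨Q, hQ, hQ'⟩ := exists_Q hp hs
  exact ind_pos hp hs hQ' (H XX (ZZ p Q) 1 Dm (fun _ _ => Iff.rfl) (fun _ _ _ => Iff.rfl)
    (ind_le_zero hp hQ))

end Pool.Agent.S12822
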