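import Pool.Statements.S13418

set_option autoImplicit false
open Pool Pool.MP_79e81e_gt

namespace Pool.Agent.S13418

/-- The relation that is symmetrised to the graph on pairs of naturals: right step in a row, step to
the next row, and the permutation attached to the row. -/
def rel (τ : ℕ → Equiv.Perm ℕ) (v w : ℕ × ℕ) : Prop :=
  w = (v.1, v.2 + 1) ∨ w = (v.1 + 1, v.2) ∨ w = (v.1, τ v.1 v.2)

/-- The graph. -/
def gr (τ : ℕ → Equiv.Perm ℕ) : SimpleGraph (ℕ × ℕ) := SimpleGraph.fromRel (rel τ)

/-- All possible neighbours. -/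
def nbr (τ : ℕ → Equiv.Perm ℕ) (v : ℕ × ℕ) : Finset (ℕ × ℕ) :=
  {(v.1, v.2 + 1), (v.1 + 1, v.2), (v.1, τ v.1 v.2), (v.1, v.2 - 1), (v.1 - 1, v.2),
    (v.1, (τ v.1).symm v.2)}

lemma nbr_card (τ : ℕ → Equiv.Perm ℕ) (v : ℕ × ℕ) : (nbr τ v).card ≤ 6 :=
  Finset.card_le_six

lemma mem_nbr_of_adj (τ : ℕ → Equiv.Perm ℕ) {v w : ℕ × ℕ} (h : (gr τ).Adj v w) :
    w ∈ nbr τ v := by
  rw [gr, SimpleGraph.fromRel_adj] at h
  obtain ⟨_, h | h⟩ := h
  · rcases h with h | h | h <;> simp [nbr, h]
  · rcases h with h | h | h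
    · have : w = (v.1, v.2 - 1) := by
        rw [h]; simp
      rw [this]; simp [nbr]
    · have : w = (v.1 - 1, v.2) := by
        rw [h]; simp
      rw [this]; simp [nbr]
    · have : w = (v.1, (τ v.1).symm v.2) := by
        rw [h]; simp
      rw [this]; simp [nbr]

lemma reach_zero (τ : ℕ → Equiv.Perm ℕ) (v : ℕ × ℕ) : (gr τ).Reachable v (0, 0) := by
  obtain ⟨k, j⟩ := v
  have h1 : ∀ j k : ℕ, (gr τ).Reachable (k, j) (k, 0) := by
    intro j
    induction j with
    | zero => intro k; exact SimpleGraph.Reachable.refl _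
    | succ j ih =>
      intro k
      refine SimpleGraph.Reachable.trans (v := (k, j)) ?_ (ih k)
      apply SimpleGraph.Adj.reachable
      rw [gr, SimpleGraph.fromRel_adj]
      refine ⟨by simp, Or.inr (Or.inl rfl)⟩
  have h2 : ∀ k : ℕ, (gr τ).Reachable (k, 0) (0, 0) := by
    intro k
    induction k with
    | zero => exact SimpleGraph.Reachable.refl _
    | succ k ih =>
      refine SimpleGraph.Reachable.trans (v := (k, 0)) ?_ ih
      apply SimpleGraph.Adj.reachable
      rw [gr, SimpleGraph.fromRel_adj]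
      refine ⟨by simp, Or.inr (Or.inr (Or.inl rfl))⟩
  exact (h1 j k).trans (h2 k)

lemma gr_connected (τ : ℕ → Equiv.Perm ℕ) : (gr τ).Connected := by
  refine (SimpleGraph.connected_iff _).2 ⟨?_, ⟨(0, 0)⟩⟩
  intro v w
  exact (reach_zero τ v).trans (reach_zero τ w).symm

/-- Balls in the graph are uniformly finite. -/
lemma ball_bound (τ : ℕ → Equiv.Perm ℕ) (R : ℕ) :
    ∃ M : ℕ, ∀ v : ℕ × ℕ, ∃ F : Finset (ℕ × ℕ), F.card ≤ M ∧
      ∀ w (p : (gr τ).Walk v w), p.length ≤ R → w ∈ F := by
  classical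
  induction R with
  | zero =>
    refine ⟨1, fun v => ⟨{v}, by simp, ?_⟩⟩
    intro w p hp
    have := SimpleGraph.Walk.eq_of_length_eq_zero (Nat.le_zero.1 hp)
    simp [this]
  | succ R ih =>
    obtain ⟨M, hM⟩ := ih
    choose F hF hF' using hM
    refine ⟨6 * M + 1, fun v => ⟨insert v ((nbr τ v).biUnion F), ?_, ?_⟩⟩
    · refine (Finset.card_insert_le _ _).trans ?_
      have := Finset.card_biUnion_le_card_mul (nbr τ v) F M (fun a _ => hF a)
      have h6 := nbr_card τ v
      have : ((nbr τ v).biUnion F).card ≤ 6 * M := this.trans (Nat.mul_le_mul_right _ h6)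
      omega
    · intro w p hp
      cases p with
      | nil => simp
      | cons h q =>
        rename_i u
        simp only [SimpleGraph.Walk.length_cons] at hp
        refine Finset.mem_insert_of_mem (Finset.mem_biUnion.2 ⟨u, mem_nbr_of_adj τ h, ?_⟩)
        exact hF' u w q (by omega)

/-- The Cayley graph used in the statement. -/
abbrev cay {Γ : Type} [Group Γ] (S : Finset Γ) : SimpleGraph Γ :=
  SimpleGraph.fromRel (fun a b : Γ => ∃ s ∈ S, b = a * s)

lemma cay_reach {Γ : Type} [Group Γ] (S : Finset Γ)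
    (hS : Subgroup.closure (S : Set Γ) = ⊤) (a b : Γ) : (cay S).Reachable a b := by
  have step : ∀ (a s : Γ), s ∈ S → (cay S).Reachable a (a * s) := by
    intro a s hs
    by_cases h : a = a * s
    · rw [← h]
    · apply SimpleGraph.Adj.reachable
      rw [SimpleGraph.fromRel_adj]
      exact ⟨h, Or.inl ⟨s, hs, rfl⟩⟩
  have key : ∀ g ∈ Subgroup.closure (S : Set Γ), ∀ a : Γ, (cay S).Reachable a (a * g) := by
    intro g hg
    induction hg using Subgroup.closure_induction with
    | mem x hx => exact fun a => step a x hx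
    | one => intro a; rw [mul_one]
    | mul x y _ _ hx hy =>
      intro a
      rw [← mul_assoc]
      exact (hx a).trans (hy (a * x))
    | inv x _ hx =>
      intro a
      have := hx (a * x⁻¹)
      rw [inv_mul_cancel_right] at this
      exact this.symm
  have := key (a⁻¹ * b) (by rw [hS]; trivial) a
  rwa [mul_inv_cancel_left] at this

lemma cay_ball {Γ : Type} [Group Γ] (S : Finset Γ) (K : ℕ) :
    ∃ B : Finset Γ, ∀ a b (p : (cay S).Walk a b), p.length ≤ K → a⁻¹ * b ∈ B := by
  classical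
  induction K with
  | zero =>
    refine ⟨{1}, ?_⟩
    intro a b p hp
    have := SimpleGraph.Walk.eq_of_length_eq_zero (Nat.le_zero.1 hp)
    simp [this]
  | succ K ih =>
    obtain ⟨B, hB⟩ := ih
    refine ⟨insert 1 (Finset.image₂ (· * ·) (S ∪ S.image (·⁻¹)) B), ?_⟩
    intro a b p hp
    cases p with
    | nil => simp
    | cons h q =>
      rename_i c
      simp only [SimpleGraph.Walk.length_cons] at hp
      refine Finset.mem_insert_of_mem ?_
      have hq := hB c b q (by omega)
      rw [SimpleGraph.fromRel_adj] at h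
      have hc : a⁻¹ * c ∈ S ∪ S.image (·⁻¹) := by
        obtain ⟨_, ⟨s, hs, rfl⟩ | ⟨s, hs, rfl⟩⟩ := h
        · rw [inv_mul_cancel_left]
          exact Finset.mem_union_left _ hs
        · rw [mul_inv_rev, inv_mul_cancel_right]
          exact Finset.mem_union_right _ (Finset.mem_image_of_mem _ hs)
      have e : a⁻¹ * b = (a⁻¹ * c) * (c⁻¹ * b) := by group
      rw [e]
      exact Finset.mem_image₂_of_mem hc hq

/-- Rank of `j` among the indices with the same value. -/
noncomputable def rk {Γ : Type} (g : ℕ → Γ) (j : ℕ) : ℕ := by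
  classical
  exact ((Finset.range j).filter (fun i => g i = g j)).card

lemma rk_lt_of_lt {Γ : Type} (g : ℕ → Γ) {i j : ℕ} (hij : i < j) (h : g i = g j) :
    rk g i < rk g j := by
  classical
  unfold rk
  apply Finset.card_lt_card
  rw [Finset.ssubset_iff_of_subset]
  · refine ⟨i, ?_, ?_⟩
    · simp [hij, h]
    · simp
  · intro l hl
    simp only [Finset.mem_filter, Finset.mem_range] at hl ⊢
    exact ⟨by omega, hl.2.trans h⟩

lemma eq_of_rk_eq {Γ : Type} (g : ℕ → Γ) {i j : ℕ} (h : g i = g j) (hr : rk g i = rk g j) :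
    i = j := by
  rcases lt_trichotomy i j with h1 | h1 | h1
  · have := rk_lt_of_lt g h1 h
    omega
  · exact h1
  · have := rk_lt_of_lt g h1 h.symm
    omega

lemma rk_congr {Γ : Type} (g g' : ℕ → Γ) (j : ℕ)
    (h : ∀ i < j, (g i = g j ↔ g' i = g' j)) : rk g j = rk g' j := by
  classical
  unfold rk
  congr 1
  apply Finset.filter_congr
  intro i hi
  exact h i (Finset.mem_range.1 hi)

/-- Extend a permutation of an initial segment to a permutation of the naturals. -/
def extp (s : Σ n : ℕ, Equiv.Perm (Fin n)) : Equiv.Perm ℕ :=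
  s.2.extendDomain (Fin.equivSubtype : Fin s.1 ≃ {i // i < s.1})

theorem exists_tau : ∃ τ : ℕ → Equiv.Perm ℕ, ∀ (n : ℕ) (σ : Equiv.Perm (Fin n)),
    ∃ k, ∀ i : Fin n, τ k i = σ i := by
  obtain ⟨e, he⟩ := exists_surjective_nat (Σ n : ℕ, Equiv.Perm (Fin n))
  refine ⟨fun k => extp (e k), ?_⟩
  intro n σ
  obtain ⟨k, hk⟩ := he ⟨n, σ⟩
  refine ⟨k, ?_⟩
  intro i
  have h1 : extp (e k) = extp ⟨n, σ⟩ := congrArg extp hk
  have := Equiv.Perm.extendDomain_apply_image σ (Fin.equivSubtype : Fin n ≃ {i // i < n}) i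
  simp only [h1]
  simpa [extp] using this

/-- The negation of the preceding statement: Every connected graph of bounded degree coarsely embeds, with its path metric, into the word metric of some group generated by a finite set. -/
theorem result :
    ¬ (∀ (V : Type) (G : SimpleGraph V), G.Connected →
      (∃ D : ℕ, ∀ v : V, (G.neighborSet v).encard ≤ (D : ℕ∞)) →
      ∃ (Γ : Type) (inst : Group Γ) (S : Finset Γ),
        Subgroup.closure (S : Set Γ) = ⊤ ∧
        ∃ f : V → Γ,
          (∀ R : ℕ, ∃ K : ℕ, ∀ x y : V, G.dist x y ≤ R →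
              (SimpleGraph.fromRel (fun a b : Γ => ∃ s ∈ S, b = a * s)).dist (f x) (f y) ≤ K) ∧
          (∀ K : ℕ, ∃ R : ℕ, ∀ x y : V,
              (SimpleGraph.fromRel (fun a b : Γ => ∃ s ∈ S, b = a * s)).dist (f x) (f y) ≤ K →
              G.dist x y ≤ R)) := by
  classical
  intro H
  obtain ⟨τ, hτ⟩ := exists_tau
  obtain ⟨Γ, _, S, hS, f, hf1, hf2⟩ := H (ℕ × ℕ) (gr τ) (gr_connected τ) ⟨6, fun v => by
    have h1 : (gr τ).neighborSet v ⊆ (nbr τ v : Set (ℕ × ℕ)) := by
      intro w hw
      exact mem_nbr_of_adj τ hw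
    refine (Set.encard_le_encard h1).trans ?_
    rw [Set.encard_coe_eq_coe_finsetCard]
    exact_mod_cast nbr_card τ v⟩

  obtain ⟨K, hK⟩ := hf1 1
  obtain ⟨R, hR⟩ := hf2 0
  obtain ⟨B, hB⟩ := cay_ball S K
  obtain ⟨M, hM⟩ := ball_bound τ R
  -- adjacent or equal vertices have difference in `B`
  have hadj : ∀ x y : ℕ × ℕ, (x = y ∨ (gr τ).Adj x y) → (f x)⁻¹ * f y ∈ B := by
    intro x y hxy
    have hd : (gr τ).dist x y ≤ 1 := by
      rcases hxy with rfl | h
      · simp
      · exact (SimpleGraph.dist_eq_one_iff_adj.2 h).le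
    obtain ⟨p, hp⟩ := (cay_reach S hS (f x) (f y)).exists_walk_length_eq_dist
    exact hB _ _ p (by rw [hp]; exact hK x y hd)
  -- fibres are bounded
  have hrk : ∀ k j : ℕ, rk (fun i => f (k, i)) j < M := by
    intro k j
    obtain ⟨F, hF, hF'⟩ := hM (k, j)
    refine lt_of_lt_of_le ?_ hF
    unfold rk
    have hsub : ((insert j ((Finset.range j).filter (fun i => f (k, i) = f (k, j)))).image
        (fun i => ((k, i) : ℕ × ℕ))) ⊆ F := by
      intro w hw
      simp only [Finset.mem_image, Finset.mem_insert, Finset.mem_filter, Finset.mem_range] at hw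
      obtain ⟨i, hi, rfl⟩ := hw
      have hfi : f (k, j) = f (k, i) := by
        rcases hi with rfl | hi
        · rfl
        · exact hi.2.symm
      obtain ⟨p, hp⟩ := (gr_connected τ).exists_walk_length_eq_dist (k, j) (k, i)
      refine hF' _ p ?_
      rw [hp]
      refine hR _ _ ?_
      rw [hfi]
      simp
    have hc := Finset.card_le_card hsub
    rw [Finset.card_image_of_injective _ (fun a b h => by simpa using h),
      Finset.card_insert_of_notMem (by simp)] at hc
    convert Nat.lt_of_succ_le hc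
  -- the code
  have hrow : ∀ k j : ℕ, (f (k, j))⁻¹ * f (k, j + 1) ∈ B := by
    intro k j
    refine hadj _ _ (Or.inr ?_)
    rw [gr, SimpleGraph.fromRel_adj]
    exact ⟨by simp, Or.inl (Or.inl rfl)⟩
  have hcol : ∀ k j : ℕ, (f (k, j))⁻¹ * f (k, τ k j) ∈ B := by
    intro k j
    refine hadj _ _ ?_
    by_cases h : ((k, j) : ℕ × ℕ) = (k, τ k j)
    · exact Or.inl h
    · right
      rw [gr, SimpleGraph.fromRel_adj]
      exact ⟨h, Or.inl (Or.inr (Or.inr rfl))⟩
  have count : ∀ n : ℕ, n.factorial ≤ (B.card * (B.card * M)) ^ n := by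
    intro n
    choose κ hκ using hτ n
    let code : Equiv.Perm (Fin n) → (Fin n → (B × (B × Fin M))) := fun σ j =>
      (⟨_, hrow (κ σ) j⟩, ⟨_, hcol (κ σ) j⟩, ⟨rk (fun i => f (κ σ, i)) (τ (κ σ) j), hrk _ _⟩)
    have hinj : Function.Injective code := by
      intro σ σ' h
      have h1 : ∀ j : Fin n, (f (κ σ, j))⁻¹ * f (κ σ, (j : ℕ) + 1)
          = (f (κ σ', j))⁻¹ * f (κ σ', (j : ℕ) + 1) := by
        intro j
        have := congrFun h j
        simp only [code, Prod.mk.injEq, Subtype.mk.injEq] at this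
        exact this.1
      have h2 : ∀ j : Fin n, (f (κ σ, j))⁻¹ * f (κ σ, τ (κ σ) j)
          = (f (κ σ', j))⁻¹ * f (κ σ', τ (κ σ') j) := by
        intro j
        have := congrFun h j
        simp only [code, Prod.mk.injEq, Subtype.mk.injEq] at this
        exact this.2.1
      have h3 : ∀ j : Fin n, rk (fun i => f (κ σ, i)) (τ (κ σ) j)
          = rk (fun i => f (κ σ', i)) (τ (κ σ') j) := by
        intro j
        have := congrFun h j
        simp only [code, Prod.mk.injEq, Fin.mk.injEq] at this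
        exact this.2.2
      have h4 : ∀ j : ℕ, j < n → (f (κ σ, 0))⁻¹ * f (κ σ, j)
          = (f (κ σ', 0))⁻¹ * f (κ σ', j) := by
        intro j
        induction j with
        | zero => intro _; simp
        | succ j ih =>
          intro hj
          have a1 := ih (by omega)
          have a2 := h1 ⟨j, by omega⟩
          simp only at a2
          calc (f (κ σ, 0))⁻¹ * f (κ σ, j + 1)
              = ((f (κ σ, 0))⁻¹ * f (κ σ, j)) * ((f (κ σ, j))⁻¹ * f (κ σ, j + 1)) := by group
            _ = ((f (κ σ', 0))⁻¹ * f (κ σ', j)) * ((f (κ σ', j))⁻¹ * f (κ σ', j + 1)) := by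
                rw [a1, a2]
            _ = _ := by group
      ext j
      have e1 : τ (κ σ) j = σ j := hκ σ j
      have e2 : τ (κ σ') j = σ' j := hκ σ' j
      have g1 := h2 j
      have g2 := h3 j
      rw [e1, e2] at g1 g2
      have g3 := h4 j j.2
      have g4 := h4 (σ j) (σ j).2
      have g5 := h4 (σ' j) (σ' j).2
      -- values at `σ j` and `σ' j` agree in row `κ σ`
      have g6 : f (κ σ, (σ j : ℕ)) = f (κ σ, (σ' j : ℕ)) := by
        have : (f (κ σ, 0))⁻¹ * f (κ σ, (σ j : ℕ)) = (f (κ σ, 0))⁻¹ * f (κ σ, (σ' j : ℕ)) := by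
          calc (f (κ σ, 0))⁻¹ * f (κ σ, (σ j : ℕ))
              = ((f (κ σ, 0))⁻¹ * f (κ σ, j)) * ((f (κ σ, j))⁻¹ * f (κ σ, (σ j : ℕ))) := by group
            _ = ((f (κ σ', 0))⁻¹ * f (κ σ', j)) * ((f (κ σ', j))⁻¹ * f (κ σ', (σ' j : ℕ))) := by
                rw [g3, g1]
            _ = (f (κ σ', 0))⁻¹ * f (κ σ', (σ' j : ℕ)) := by group
            _ = _ := g5.symm
        exact mul_left_cancel this
      have g7 : rk (fun i => f (κ σ', i)) (σ' j : ℕ) = rk (fun i => f (κ σ, i)) (σ' j : ℕ) := by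
        apply rk_congr
        intro i hi
        have b1 := h4 i (hi.trans (σ' j).2)
        constructor
        · intro hh
          have : (f (κ σ, 0))⁻¹ * f (κ σ, i) = (f (κ σ, 0))⁻¹ * f (κ σ, (σ' j : ℕ)) := by
            rw [b1, g5, hh]
          exact mul_left_cancel this
        · intro hh
          have : (f (κ σ', 0))⁻¹ * f (κ σ', i) = (f (κ σ', 0))⁻¹ * f (κ σ', (σ' j : ℕ)) := by
            rw [← b1, ← g5, hh]
          exact mul_left_cancel this
      have g8 := eq_of_rk_eq (fun i => f (κ σ, i)) g6 (g2.trans g7)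
      exact g8
    have := Fintype.card_le_of_injective code hinj
    rw [Fintype.card_perm, Fintype.card_fin] at this
    simpa [Fintype.card_prod, Fintype.card_coe] using this
  obtain ⟨n, hn⟩ := (Nat.eventually_pow_lt_factorial_sub (B.card * (B.card * M)) 0).exists
  exact absurd (count n) (by simpa using hn)

end Pool.Agent.S13418
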