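import Pool.Statements.S13718

set_option autoImplicit false
open Pool Pool.MP_a761c9_gt

namespace Pool.Agent.S13718

open MeasureTheory Set

/-- the plane -/
abbrev V := EuclideanSpace ℝ (Fin 2)

/-- support function -/
noncomputable def sp (K : Set V) (v : V) : ℝ :=
  sSup ((fun y : V => @inner ℝ V _ y v) '' K)

/-- negative part of the smaller of the two opposite support values -/
noncomputable def mneg (K : Set V) (v : V) : ℝ :=
  max 0 (max (-(sp K v)) (-(sp K (-v))))

noncomputable def gE (K : Set V) : ℝ :=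
  ∫ v : V, sp K v * Real.exp (-‖v‖ ^ 2)

noncomputable def gM (K : Set V) : ℝ :=
  ∫ v : V, mneg K v * Real.exp (-‖v‖ ^ 2)

open Classical in
noncomputable def tau (K : Set V) : ℝ :=
  if gM K = 0 then 1 else gE K / (gE K + gM K)

/-- the support function of the new set -/
noncomputable def TT (K : Set V) (v : V) : ℝ :=
  ((1 + tau K) / 4) * (sp K v + sp K (-v)) + (tau K / 2) * mneg K v

/-- the counterexample symmetrization -/
def DD (K : Set V) : Set V := {y | ∀ v : V, @inner ℝ V _ y v ≤ TT K v}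

lemma sp_le {K : Set V} (hK : IsCompact K) (v : V) {y : V} (hy : y ∈ K) :
    @inner ℝ V _ y v ≤ sp K v := by
  apply le_csSup
  · exact (hK.image (by fun_prop)).bddAbove
  · exact ⟨y, hy, rfl⟩

lemma sp_att {K : Set V} (hK : IsCompact K) (hn : K.Nonempty) (v : V) :
    ∃ y ∈ K, @inner ℝ V _ y v = sp K v := by
  obtain ⟨y, hy, h⟩ := hK.exists_sSup_image_eq hn
    (f := fun y : V => @inner ℝ V _ y v) (by fun_prop)
  exact ⟨y, hy, h.symm⟩

lemma sp_cont {K : Set V} (hK : IsCompact K) : Continuous (sp K) := by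
  have := hK.continuous_sSup (f := fun v y : V => @inner ℝ V _ y v)
    (by simp only [Function.HasUncurry.uncurry, id]; fun_prop)
  exact this

lemma sp_bound {K : Set V} (hK : IsCompact K) (hn : K.Nonempty) :
    ∃ R : ℝ, 0 ≤ R ∧ ∀ v, |sp K v| ≤ R * ‖v‖ := by
  obtain ⟨R, hR⟩ := hK.isBounded.exists_norm_le
  obtain ⟨y0, hy0⟩ := hn
  refine ⟨R, le_trans (norm_nonneg _) (hR y0 hy0), fun v => ?_⟩
  obtain ⟨y, hy, h⟩ := sp_att hK ⟨y0, hy0⟩ v
  rw [← h]
  calc |@inner ℝ V _ y v| ≤ ‖y‖ * ‖v‖ := abs_real_inner_le_norm y v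
    _ ≤ R * ‖v‖ := by gcongr; exact hR y hy

lemma sp_sum_nonneg {K : Set V} (hK : IsCompact K) (hn : K.Nonempty) (v : V) :
    0 ≤ sp K v + sp K (-v) := by
  obtain ⟨y, hy⟩ := hn
  have h1 := sp_le hK v hy
  have h2 := sp_le hK (-v) hy
  rw [inner_neg_right] at h2
  linarith

lemma sp_mono {K L : Set V} (hL : IsCompact L) (hn : K.Nonempty) (hK : IsCompact K)
    (h : K ⊆ L) (v : V) : sp K v ≤ sp L v := by
  obtain ⟨y, hy, e⟩ := sp_att hK hn v
  rw [← e]
  exact sp_le hL v (h hy)

lemma exp_bd : Integrable (fun v : V => ‖v‖ * Real.exp (-‖v‖ ^ 2)) := by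
  have h := (GaussianFourier.integrable_cexp_neg_mul_sq_norm_add (V := V) (b := ((1/2 : ℝ) : ℂ))
    (by simp) 0 0).norm
  refine Integrable.mono' h (by fun_prop) (Filter.Eventually.of_forall fun v => ?_)
  rw [Real.norm_of_nonneg (by positivity), Complex.norm_exp]
  have e : (-((1/2 : ℝ) : ℂ) * (‖v‖ : ℂ) ^ 2 + 0 * (@inner ℝ V _ 0 v : ℝ)).re = -(1/2) * ‖v‖ ^ 2 := by
    rw [zero_mul, add_zero]
    have : (-((1/2 : ℝ) : ℂ) * (‖v‖ : ℂ) ^ 2) = ((-(1/2) * ‖v‖ ^ 2 : ℝ) : ℂ) := by
      push_cast; ring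
    rw [this, Complex.ofReal_re]
  rw [e]
  have h1 : ‖v‖ ≤ Real.exp (‖v‖ ^ 2 / 2) := by
    have := Real.add_one_le_exp (‖v‖ ^ 2 / 2)
    nlinarith [sq_nonneg (‖v‖ - 1)]
  calc ‖v‖ * Real.exp (-‖v‖ ^ 2) ≤ Real.exp (‖v‖ ^ 2 / 2) * Real.exp (-‖v‖ ^ 2) := by gcongr
    _ = Real.exp (-(1/2) * ‖v‖ ^ 2) := by rw [← Real.exp_add]; congr 1; ring

lemma int_of_bound {g : V → ℝ} (hg : Continuous g) {R : ℝ} (hR : ∀ v, |g v| ≤ R * ‖v‖) :
    Integrable (fun v : V => g v * Real.exp (-‖v‖ ^ 2)) := by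
  refine Integrable.mono' (exp_bd.const_mul R) (by fun_prop)
    (Filter.Eventually.of_forall fun v => ?_)
  rw [Real.norm_eq_abs, abs_mul, abs_of_pos (Real.exp_pos _), ← mul_assoc]
  gcongr
  exact hR v

lemma sp_int {K : Set V} (hK : IsCompact K) (hn : K.Nonempty) :
    Integrable (fun v : V => sp K v * Real.exp (-‖v‖ ^ 2)) := by
  obtain ⟨R, _, hR⟩ := sp_bound hK hn
  exact int_of_bound (sp_cont hK) hR

lemma spn_int {K : Set V} (hK : IsCompact K) (hn : K.Nonempty) :
    Integrable (fun v : V => sp K (-v) * Real.exp (-‖v‖ ^ 2)) := by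
  obtain ⟨R, _, hR⟩ := sp_bound hK hn
  refine int_of_bound ((sp_cont hK).comp continuous_neg) (R := R) fun v => ?_
  simpa using hR (-v)

lemma spn_eq (K : Set V) :
    ∫ v : V, sp K (-v) * Real.exp (-‖v‖ ^ 2) = gE K := by
  unfold gE
  rw [← integral_neg_eq_self]
  simp

lemma mneg_cont {K : Set V} (hK : IsCompact K) : Continuous (mneg K) := by
  have h := sp_cont hK
  unfold mneg
  fun_prop

lemma mneg_nonneg (K : Set V) (v : V) : 0 ≤ mneg K v := le_max_left _ _

lemma mneg_int {K : Set V} (hK : IsCompact K) (hn : K.Nonempty) :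
    Integrable (fun v : V => mneg K v * Real.exp (-‖v‖ ^ 2)) := by
  obtain ⟨R, hR0, hR⟩ := sp_bound hK hn
  refine int_of_bound (mneg_cont hK) (R := R) fun v => ?_
  rw [abs_of_nonneg (mneg_nonneg K v)]
  have h1 := (abs_le.1 (hR v)).1
  have h2 := (abs_le.1 (hR (-v))).1
  rw [norm_neg] at h2
  refine max_le (by positivity) (max_le (by linarith) (by linarith))

lemma mneg_anti {K L : Set V} (hL : IsCompact L) (hn : K.Nonempty) (hK : IsCompact K)
    (h : K ⊆ L) (v : V) : mneg L v ≤ mneg K v := by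
  have h1 := sp_mono hL hn hK h v
  have h2 := sp_mono hL hn hK h (-v)
  unfold mneg
  gcongr

lemma gE_nonneg {K : Set V} (hK : IsCompact K) (hn : K.Nonempty) : 0 ≤ gE K := by
  have h : gE K + gE K = ∫ v : V, (sp K v + sp K (-v)) * Real.exp (-‖v‖ ^ 2) := by
    simp_rw [add_mul]
    rw [integral_add (sp_int hK hn) (spn_int hK hn), spn_eq]
    rfl
  have h2 : 0 ≤ ∫ v : V, (sp K v + sp K (-v)) * Real.exp (-‖v‖ ^ 2) := by
    apply integral_nonneg
    intro v
    exact mul_nonneg (sp_sum_nonneg hK hn v) (Real.exp_pos _).le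
  linarith

lemma gM_nonneg (K : Set V) : 0 ≤ gM K := by
  apply integral_nonneg
  intro v
  exact mul_nonneg (mneg_nonneg K v) (Real.exp_pos _).le

lemma gE_mono {K L : Set V} (hL : IsCompact L) (hn : K.Nonempty) (hK : IsCompact K)
    (h : K ⊆ L) : gE K ≤ gE L := by
  apply integral_mono (sp_int hK hn) (sp_int hL (hn.mono h))
  intro v
  have := sp_mono hL hn hK h v
  dsimp only
  gcongr

lemma gM_anti {K L : Set V} (hL : IsCompact L) (hn : K.Nonempty) (hK : IsCompact K)
    (h : K ⊆ L) : gM L ≤ gM K := by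
  apply integral_mono (mneg_int hL (hn.mono h)) (mneg_int hK hn)
  intro v
  have := mneg_anti hL hn hK h v
  dsimp only
  gcongr

lemma tau_mem {K : Set V} (hK : IsCompact K) (hn : K.Nonempty) : 0 ≤ tau K ∧ tau K ≤ 1 := by
  unfold tau
  have h1 := gE_nonneg hK hn
  have h2 := gM_nonneg K
  split_ifs with h
  · simp
  · have h3 : 0 < gM K := lt_of_le_of_ne h2 (Ne.symm h)
    constructor
    · positivity
    · rw [div_le_one (by linarith)]; linarith

lemma tau_mono {K L : Set V} (hL : IsCompact L) (hn : K.Nonempty) (hK : IsCompact K)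
    (h : K ⊆ L) : tau K ≤ tau L := by
  have hE := gE_mono hL hn hK h
  have hM := gM_anti hL hn hK h
  have h1 := gE_nonneg hK hn
  have h2 := gM_nonneg L
  by_cases hL0 : gM L = 0
  · have : tau L = 1 := by simp [tau, hL0]
    rw [this]
    exact (tau_mem hK hn).2
  · have h3 : 0 < gM L := lt_of_le_of_ne h2 (Ne.symm hL0)
    have hK0 : gM K ≠ 0 := by
      have : 0 < gM K := by linarith
      exact this.ne'
    have e1 : tau L = gE L / (gE L + gM L) := by simp [tau, hL0]
    have e2 : tau K = gE K / (gE K + gM K) := by simp [tau, hK0]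
    rw [e1, e2, div_le_div_iff₀ (by linarith) (by linarith)]
    nlinarith

lemma tau_eq {K : Set V} (hK : IsCompact K) (hn : K.Nonempty) :
    tau K * (gE K + gM K) = gE K := by
  have h1 := gE_nonneg hK hn
  have h2 := gM_nonneg K
  by_cases h : gM K = 0
  · simp [tau, h]
  · have h3 : 0 < gM K := lt_of_le_of_ne h2 (Ne.symm h)
    have e2 : tau K = gE K / (gE K + gM K) := by simp [tau, h]
    rw [e2]
    field_simp

lemma TT_symm (K : Set V) (v : V) : TT K (-v) = TT K v := by
  unfold TT mneg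
  rw [neg_neg, add_comm (sp K (-v)), max_comm (-(sp K (-v)))]

lemma TT_nonneg {K : Set V} (hK : IsCompact K) (hn : K.Nonempty) (v : V) : 0 ≤ TT K v := by
  have h1 := tau_mem hK hn
  have h2 := sp_sum_nonneg hK hn v
  have h3 := mneg_nonneg K v
  unfold TT
  have := h1.1
  positivity

/-- the three linear bounds -/
lemma TT_ge {K : Set V} (hK : IsCompact K) (hn : K.Nonempty) (v : V) :
    ((1 + tau K) / 4) * (sp K v + sp K (-v)) ≤ TT K v ∧
    ((1 - tau K) / 4) * sp K v + ((1 + tau K) / 4) * sp K (-v) ≤ TT K v ∧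
    ((1 + tau K) / 4) * sp K v + ((1 - tau K) / 4) * sp K (-v) ≤ TT K v := by
  have h1 := (tau_mem hK hn).1
  have h3 := mneg_nonneg K v
  have h4 : -(sp K v) ≤ mneg K v := le_trans (le_max_left _ _) (le_max_right _ _)
  have h5 : -(sp K (-v)) ≤ mneg K v := le_trans (le_max_right _ _) (le_max_right _ _)
  unfold TT
  refine ⟨?_, ?_, ?_⟩ <;> nlinarith

lemma TT_eq {K : Set V} (v : V) :
    TT K v = ((1 + tau K) / 4) * (sp K v + sp K (-v)) ∨
    TT K v = ((1 - tau K) / 4) * sp K v + ((1 + tau K) / 4) * sp K (-v) ∨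
    TT K v = ((1 + tau K) / 4) * sp K v + ((1 - tau K) / 4) * sp K (-v) := by
  unfold TT mneg
  rcases max_choice 0 (max (-(sp K v)) (-(sp K (-v)))) with h | h
  · left; rw [h]; ring
  · rcases max_choice (-(sp K v)) (-(sp K (-v))) with h' | h'
    · right; left; rw [h, h']; ring
    · right; right; rw [h, h']; ring

lemma TT_mono {K L : Set V} (hL : IsCompact L) (hn : K.Nonempty) (hK : IsCompact K)
    (h : K ⊆ L) (v : V) : TT K v ≤ TT L v := by
  have t1 := tau_mem hK hn
  have t2 := tau_mem hL (hn.mono h)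
  have tm := tau_mono hL hn hK h
  have s1 := sp_mono hL hn hK h v
  have s2 := sp_mono hL hn hK h (-v)
  have n1 := sp_sum_nonneg hK hn v
  have n2 := sp_sum_nonneg hL (hn.mono h) v
  have m2 := mneg_nonneg L v
  have step1 : TT K v ≤ ((1 + tau K) / 4) * (sp L v + sp L (-v)) + (tau K / 2) * mneg L v := by
    have g := mneg_nonneg L v
    have g1 : -(sp L v) ≤ mneg L v := le_trans (le_max_left _ _) (le_max_right _ _)
    have g2 : -(sp L (-v)) ≤ mneg L v := le_trans (le_max_right _ _) (le_max_right _ _)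
    rcases TT_eq (K := K) v with e | e | e
    · rw [e]; nlinarith
    · rw [e]; nlinarith
    · rw [e]; nlinarith
  refine le_trans step1 ?_
  unfold TT
  nlinarith

lemma DD_closed (K : Set V) : IsClosed (DD K) := by
  have : DD K = ⋂ v : V, {y | @inner ℝ V _ y v ≤ TT K v} := by
    ext y; simp [DD]
  rw [this]
  exact isClosed_iInter fun v => isClosed_le (by fun_prop) continuous_const

lemma DD_convex (K : Set V) : Convex ℝ (DD K) := by
  intro x hx y hy a b ha hb hab v
  have h1 := hx v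
  have h2 := hy v
  rw [inner_add_left, real_inner_smul_left, real_inner_smul_left]
  calc a * @inner ℝ V _ x v + b * @inner ℝ V _ y v ≤ a * TT K v + b * TT K v := by gcongr
    _ = TT K v := by rw [← add_mul, hab, one_mul]

lemma DD_bounded {K : Set V} (hK : IsCompact K) (hn : K.Nonempty) :
    Bornology.IsBounded (DD K) := by
  obtain ⟨R, hR0, hR⟩ := sp_bound hK hn
  have t := tau_mem hK hn
  have hb : ∀ v, TT K v ≤ (2 * R) * ‖v‖ := by
    intro v
    have h1 := abs_le.1 (hR v)
    have h2 := abs_le.1 (hR (-v))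
    rw [norm_neg] at h2
    have hm : mneg K v ≤ R * ‖v‖ :=
      max_le (by positivity) (max_le (by linarith) (by linarith))
    have hm0 := mneg_nonneg K v
    have hv : 0 ≤ R * ‖v‖ := by positivity
    unfold TT
    nlinarith
  rw [isBounded_iff_forall_norm_le]
  refine ⟨2 * R, fun y hy => ?_⟩
  have h := le_trans (hy y) (hb y)
  rw [real_inner_self_eq_norm_mul_norm] at h
  by_cases h0 : ‖y‖ = 0
  · rw [h0]; positivity
  · have : 0 < ‖y‖ := lt_of_le_of_ne (norm_nonneg _) (Ne.symm h0)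
    exact le_of_mul_le_mul_right h this

lemma DD_compact {K : Set V} (hK : IsCompact K) (hn : K.Nonempty) : IsCompact (DD K) :=
  Metric.isCompact_of_isClosed_isBounded (DD_closed K) (DD_bounded hK hn)

lemma DD_zero {K : Set V} (hK : IsCompact K) (hn : K.Nonempty) : (0 : V) ∈ DD K := by
  intro v
  rw [inner_zero_left]
  exact TT_nonneg hK hn v

/-- the support function of the new set is the prescribed one -/
lemma sp_DD {K : Set V} (hK : IsCompact K) (hn : K.Nonempty) (v : V) :
    sp (DD K) v = TT K v := by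
  apply le_antisymm
  · obtain ⟨y, hy, e⟩ := sp_att (DD_compact hK hn) ⟨0, DD_zero hK hn⟩ v
    rw [← e]
    exact hy v
  · obtain ⟨a, ha, ea⟩ := sp_att hK hn v
    obtain ⟨b, hb, eb⟩ := sp_att hK hn (-v)
    have t := tau_mem hK hn
    have hbv : @inner ℝ V _ b v = -(sp K (-v)) := by
      rw [← eb, inner_neg_right, neg_neg]
    rcases TT_eq (K := K) v with e | e | e
    · have hy : ((1 + tau K) / 4) • (a - b) ∈ DD K := by
        intro w
        refine le_trans ?_ (TT_ge hK hn w).1
        have g1 := sp_le hK w ha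
        have g2 := sp_le hK (-w) hb
        rw [inner_neg_right] at g2
        rw [real_inner_smul_left, inner_sub_left]
        have : 0 ≤ (1 + tau K) / 4 := by linarith
        gcongr
        linarith
      refine le_trans (le_of_eq ?_) (sp_le (DD_compact hK hn) v hy)
      rw [e, real_inner_smul_left, inner_sub_left, ea, hbv]
      ring
    · have hy : ((1 - tau K) / 4) • a - ((1 + tau K) / 4) • b ∈ DD K := by
        intro w
        refine le_trans ?_ (TT_ge hK hn w).2.1
        have g1 := sp_le hK w ha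
        have g2 := sp_le hK (-w) hb
        rw [inner_neg_right] at g2
        rw [inner_sub_left, real_inner_smul_left, real_inner_smul_left]
        nlinarith
      refine le_trans (le_of_eq ?_) (sp_le (DD_compact hK hn) v hy)
      rw [e, inner_sub_left, real_inner_smul_left, real_inner_smul_left, ea, hbv]
      ring
    · have hy : ((1 + tau K) / 4) • a - ((1 - tau K) / 4) • b ∈ DD K := by
        intro w
        refine le_trans ?_ (TT_ge hK hn w).2.2
        have g1 := sp_le hK w ha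
        have g2 := sp_le hK (-w) hb
        rw [inner_neg_right] at g2
        rw [inner_sub_left, real_inner_smul_left, real_inner_smul_left]
        nlinarith
      refine le_trans (le_of_eq ?_) (sp_le (DD_compact hK hn) v hy)
      rw [e, inner_sub_left, real_inner_smul_left, real_inner_smul_left, ea, hbv]
      ring

lemma DD_mw {K : Set V} (hK : IsCompact K) (hn : K.Nonempty) : gE (DD K) = gE K := by
  have h : gE (DD K) = ∫ v : V, (((1 + tau K) / 4) * (sp K v * Real.exp (-‖v‖ ^ 2)) +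
      ((1 + tau K) / 4) * (sp K (-v) * Real.exp (-‖v‖ ^ 2)) +
      (tau K / 2) * (mneg K v * Real.exp (-‖v‖ ^ 2))) := by
    unfold gE
    congr 1
    ext v
    rw [sp_DD hK hn]
    unfold TT
    ring
  have i1 := (sp_int hK hn).const_mul ((1 + tau K) / 4)
  have i2 := (spn_int hK hn).const_mul ((1 + tau K) / 4)
  have i3 := (mneg_int hK hn).const_mul (tau K / 2)
  have i12 : Integrable (fun v : V => ((1 + tau K) / 4) * (sp K v * Real.exp (-‖v‖ ^ 2)) +
      ((1 + tau K) / 4) * (sp K (-v) * Real.exp (-‖v‖ ^ 2))) := i1.add i2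
  rw [h, integral_add i12 i3, integral_add i1 i2, integral_const_mul, integral_const_mul,
    integral_const_mul, spn_eq]
  have h2 := tau_eq hK hn
  change (1 + tau K) / 4 * gE K + (1 + tau K) / 4 * gE K + tau K / 2 * gM K = gE K
  linarith

lemma sep {K : Set V} (hK : IsCompact K) (hc : Convex ℝ K) {y : V}
    (h : ∀ v, @inner ℝ V _ y v ≤ sp K v) (hn : K.Nonempty) : y ∈ K := by
  by_contra hy
  obtain ⟨f, u, h1, h2⟩ := geometric_hahn_banach_closed_point hc hK.isClosed hy
  let w := (InnerProductSpace.toDual ℝ V).symm f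
  have hw : ∀ x, f x = @inner ℝ V _ x w := by
    intro x
    rw [real_inner_comm]
    simp [w]
  obtain ⟨a, ha, ea⟩ := sp_att hK hn w
  have h3 := h1 a ha
  have h4 := h w
  rw [hw] at h2 h3
  linarith

lemma DD_fix {K : Set V} (hK : IsCompact K) (hn : K.Nonempty) (hc : Convex ℝ K)
    (hs : ∀ x ∈ K, -x ∈ K) : DD K = K := by
  have hsp : ∀ v, sp K (-v) = sp K v := by
    have key : ∀ v, sp K (-v) ≤ sp K v := by
      intro v
      obtain ⟨a, ha, ea⟩ := sp_att hK hn (-v)
      rw [← ea, inner_neg_right, ← inner_neg_left]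
      exact sp_le hK v (hs a ha)
    intro v
    apply le_antisymm (key v)
    have := key (-v)
    rwa [neg_neg] at this
  have h0 : ∀ v, 0 ≤ sp K v := by
    intro v
    have := sp_sum_nonneg hK hn v
    rw [hsp] at this
    linarith
  have hm : ∀ v, mneg K v = 0 := by
    intro v
    unfold mneg
    rw [hsp, max_self]
    exact max_eq_left (by linarith [h0 v])
  have hM : gM K = 0 := by
    unfold gM
    simp [hm]
  have ht : tau K = 1 := by simp [tau, hM]
  have hT : ∀ v, TT K v = sp K v := by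
    intro v
    unfold TT
    rw [ht, hm, hsp]
    ring
  ext y
  constructor
  · intro hy
    apply sep hK hc _ hn
    intro v
    rw [← hT]
    exact hy v
  · intro hy v
    rw [hT]
    exact sp_le hK v hy

/-- The negation of the preceding statement: Let D map convex bodies (or compact convex sets) in R^n to H-symmetric ones. Suppose D is monotone, preserves mean width and fixes H-symmetric sets. Then D sends every translate K+x of an H-symmetric K, with x orthogonal to H, back to K. -/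
theorem result :
    ¬ (∀ (n i : ℕ), i < n →
  ∀ (H : Submodule ℝ (EuclideanSpace ℝ (Fin n))), Module.finrank ℝ H = i →
  ∀ (b : Bool) (D : Set (EuclideanSpace ℝ (Fin n)) → Set (EuclideanSpace ℝ (Fin n))),
  (∀ K : Set (EuclideanSpace ℝ (Fin n)),
      (IsCompact K ∧ Convex ℝ K ∧ K.Nonempty ∧ (b = true → (interior K).Nonempty)) →
      ((IsCompact (D K) ∧ Convex ℝ (D K) ∧ (D K).Nonempty ∧
          (b = true → (interior (D K)).Nonempty)) ∧
        (∀ x ∈ D K, ∀ y ∈ H, ∀ z ∈ Hᗮ, x = y + z → y - z ∈ D K))) →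
  (∀ K L : Set (EuclideanSpace ℝ (Fin n)),
      (IsCompact K ∧ Convex ℝ K ∧ K.Nonempty ∧ (b = true → (interior K).Nonempty)) →
      (IsCompact L ∧ Convex ℝ L ∧ L.Nonempty ∧ (b = true → (interior L).Nonempty)) →
      K ⊆ L → D K ⊆ D L) →
  (∀ K : Set (EuclideanSpace ℝ (Fin n)),
      (IsCompact K ∧ Convex ℝ K ∧ K.Nonempty ∧ (b = true → (interior K).Nonempty)) →
      (∫ v : EuclideanSpace ℝ (Fin n),
          sSup ((fun y : EuclideanSpace ℝ (Fin n) =>
              @inner ℝ (EuclideanSpace ℝ (Fin n)) _ y v) '' D K) * Real.exp (-‖v‖ ^ 2)) =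
        ∫ v : EuclideanSpace ℝ (Fin n),
          sSup ((fun y : EuclideanSpace ℝ (Fin n) =>
              @inner ℝ (EuclideanSpace ℝ (Fin n)) _ y v) '' K) * Real.exp (-‖v‖ ^ 2)) →
  (∀ K : Set (EuclideanSpace ℝ (Fin n)),
      (IsCompact K ∧ Convex ℝ K ∧ K.Nonempty ∧ (b = true → (interior K).Nonempty)) →
      (∀ x ∈ K, ∀ y ∈ H, ∀ z ∈ Hᗮ, x = y + z → y - z ∈ K) →
      D K = K) →
  ∀ K : Set (EuclideanSpace ℝ (Fin n)),
    (IsCompact K ∧ Convex ℝ K ∧ K.Nonempty ∧ (b = true → (interior K).Nonempty)) →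
    (∀ x ∈ K, ∀ y ∈ H, ∀ z ∈ Hᗮ, x = y + z → y - z ∈ K) →
    ∀ x ∈ Hᗮ, D ((fun y : EuclideanSpace ℝ (Fin n) => y + x) '' K) = K) := by
  intro hall
  have hsymm : ∀ K : Set V, (∀ x ∈ K, ∀ y ∈ (⊥ : Submodule ℝ V), ∀ z ∈ (⊥ : Submodule ℝ V)ᗮ,
      x = y + z → y - z ∈ K) ↔ (∀ x ∈ K, -x ∈ K) := by
    intro K
    constructor
    · intro h x hx
      have := h x hx 0 (Submodule.zero_mem _) x (by simp) (by simp)
      simpa using this
    · intro h x hx y hy z _ hxyz
      rw [Submodule.mem_bot] at hy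
      subst hy
      rw [zero_add] at hxyz
      subst hxyz
      simpa using h x hx
  let e1 : V := EuclideanSpace.single 0 1
  let e2 : V := EuclideanSpace.single 1 1
  let K0 : Set V := segment ℝ (-e1) e1
  have h11 : @inner ℝ V _ e1 e1 = 1 := by simp [e1]
  have h12 : @inner ℝ V _ e1 e2 = 0 := by simp [e1, e2, PiLp.inner_apply, Fin.sum_univ_two]
  have h21 : @inner ℝ V _ e2 e1 = 0 := by simp [e1, e2, PiLp.inner_apply, Fin.sum_univ_two]
  have h22 : @inner ℝ V _ e2 e2 = 1 := by simp [e2]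
  have hK0c : IsCompact K0 := by
    have : K0 = convexHull ℝ {-e1, e1} := (convexHull_pair _ _).symm
    rw [this]
    exact Set.Finite.isCompact_convexHull (𝕜 := ℝ) (Set.toFinite _)
  have hK0v : Convex ℝ K0 := convex_segment _ _
  have hK0s : ∀ x ∈ K0, -x ∈ K0 := by
    intro x hx
    obtain ⟨a, b, ha, hb, hab, rfl⟩ := hx
    refine ⟨b, a, hb, ha, by linarith, ?_⟩
    simp only [smul_neg]
    abel
  have he1 : e1 ∈ K0 := right_mem_segment _ _ _
  have hK0i : ∀ x ∈ K0, @inner ℝ V _ x e2 = 0 := by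
    intro x hx
    obtain ⟨a, b, ha, hb, hab, rfl⟩ := hx
    rw [inner_add_left, real_inner_smul_left, real_inner_smul_left, inner_neg_left, h12]
    simp
  have hK0i1 : ∀ x ∈ K0, |@inner ℝ V _ x e1| ≤ 1 := by
    intro x hx
    obtain ⟨a, b, ha, hb, hab, rfl⟩ := hx
    rw [inner_add_left, real_inner_smul_left, real_inner_smul_left, inner_neg_left, h11, abs_le]
    constructor <;> linarith
  have main := hall 2 0 (by norm_num) (⊥ : Submodule ℝ V) (by simp) false DD
    (by
      intro K hK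
      refine ⟨⟨DD_compact hK.1 hK.2.2.1, DD_convex K, ⟨0, DD_zero hK.1 hK.2.2.1⟩, by simp⟩, ?_⟩
      rw [hsymm]
      intro x hx v
      have := hx (-v)
      rw [TT_symm] at this
      rwa [inner_neg_right, ← inner_neg_left] at this)
    (by
      intro K L hK hL h y hy v
      exact le_trans (hy v) (TT_mono hL.1 hK.2.2.1 hK.1 h v))
    (by
      intro K hK
      exact DD_mw hK.1 hK.2.2.1)
    (by
      intro K hK hs
      rw [hsymm] at hs
      exact DD_fix hK.1 hK.2.2.1 hK.2.1 hs)
    K0 ⟨hK0c, hK0v, ⟨e1, he1⟩, by simp⟩ ((hsymm K0).2 hK0s) e2 (by simp)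
  set K1 : Set V := (fun y : V => y + e2) '' K0 with hK1
  have hK1c : IsCompact K1 := hK0c.image (by fun_prop)
  have hK1n : K1.Nonempty := ⟨e1 + e2, ⟨e1, he1, rfl⟩⟩
  have t := tau_mem hK1c hK1n
  -- support values of the translate
  have s1 : ∀ w : V, (w = e1 ∨ w = -e1) → sp K1 w = 1 := by
    intro w hw
    apply le_antisymm
    · obtain ⟨y, hy, ey⟩ := sp_att hK1c hK1n w
      obtain ⟨x, hx, rfl⟩ := hy
      rw [← ey]
      have hx1 := abs_le.1 (hK0i1 x hx)
      rcases hw with rfl | rfl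
      · rw [inner_add_left, h21]; linarith [hx1.2]
      · rw [inner_neg_right, inner_add_left, h21]; linarith [hx1.1]
    · rcases hw with rfl | rfl
      · have := sp_le hK1c e1 (y := e1 + e2) ⟨e1, he1, rfl⟩
        rw [inner_add_left, h11, h21] at this
        linarith
      · have := sp_le hK1c (-e1) (y := -e1 + e2) ⟨-e1, hK0s _ he1, rfl⟩
        rw [inner_neg_right, inner_add_left, inner_neg_left, h11, h21] at this
        linarith
  have s2 : sp K1 e2 = 1 ∧ sp K1 (-e2) = -1 := by
    constructor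
    · obtain ⟨y, hy, ey⟩ := sp_att hK1c hK1n e2
      obtain ⟨x, hx, rfl⟩ := hy
      rw [← ey, inner_add_left, h22, hK0i x hx]
      norm_num
    · obtain ⟨y, hy, ey⟩ := sp_att hK1c hK1n (-e2)
      obtain ⟨x, hx, rfl⟩ := hy
      rw [← ey, inner_neg_right, inner_add_left, h22, hK0i x hx]
      norm_num
  have T1 : TT K1 e1 = (1 + tau K1) / 2 := by
    have a := s1 e1 (Or.inl rfl)
    have b := s1 (-e1) (Or.inr rfl)
    unfold TT mneg
    rw [a, b]
    norm_num
    ring
  have T2 : TT K1 e2 = tau K1 / 2 := by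
    unfold TT mneg
    rw [s2.1, s2.2]
    norm_num
  -- compare
  have c1 : 1 ≤ TT K1 e1 := by
    have : e1 ∈ DD K1 := by rw [main]; exact he1
    have := this e1
    rwa [h11] at this
  have c2 : TT K1 e2 ≤ 0 := by
    rw [← sp_DD hK1c hK1n e2, main]
    obtain ⟨y, hy, ey⟩ := sp_att hK0c ⟨e1, he1⟩ e2
    rw [← ey, hK0i y hy]
  linarith

end Pool.Agent.S13718
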