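import Pool.Statements.S14237

set_option autoImplicit false
open Pool Pool.MP_f624f5_gt

namespace Pool.Agent.S14237

open Set TopologicalSpace

/-- In a ccc compact Hausdorff space, for every closed `N` there is a countable family of
continuous functions whose cozero sets are each inside `N` or disjoint from `N`, and have
dense union. -/
theorem exists_family {X : Type} [TopologicalSpace X] [T2Space X] [CompactSpace X]
    (hccc : ∀ F : Set (Set X), (∀ U ∈ F, IsOpen U ∧ U.Nonempty) →
      F.PairwiseDisjoint id → F.Countable)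
    (N : Set X) (hN : IsClosed N) :
    ∃ W : Set (C(X, ℝ)), W.Countable ∧
      (∀ f ∈ W, {x | f x ≠ 0} ⊆ N ∨ Disjoint {x | f x ≠ 0} N) ∧
      Dense (⋃ f ∈ W, {x | f x ≠ 0}) := by
  classical
  let good : Set X → Prop := fun U => U.Nonempty ∧ (∃ f : C(X, ℝ), U = {x | f x ≠ 0}) ∧
    (U ⊆ N ∨ Disjoint U N)
  let S : Set (Set (Set X)) := {F | (∀ U ∈ F, good U) ∧ F.PairwiseDisjoint id}
  obtain ⟨F, hF⟩ : ∃ m, Maximal (· ∈ S) m := by
    apply zorn_subset
    intro c hcS hc
    refine ⟨⋃₀ c, ⟨?_, ?_⟩, fun s hs => subset_sUnion_of_mem hs⟩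
    · rintro U ⟨F, hFc, hUF⟩
      exact (hcS hFc).1 U hUF
    · exact (pairwiseDisjoint_sUnion hc.directedOn).2 fun F hFc => (hcS hFc).2
  have hgood : ∀ U ∈ F, good U := hF.1.1
  have hdisj : F.PairwiseDisjoint id := hF.1.2
  have hopen : ∀ f : C(X, ℝ), IsOpen {x | f x ≠ 0} := fun f =>
    isOpen_ne_fun f.continuous continuous_const
  have hFc : F.Countable := by
    apply hccc F _ hdisj
    intro U hU
    obtain ⟨h1, ⟨f, rfl⟩, -⟩ := hgood U hU
    exact ⟨hopen f, h1⟩
  have hex : ∀ U : Set X, ∃ f : C(X, ℝ), U ∈ F → U = {x | f x ≠ 0} := by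
    intro U
    by_cases hU : U ∈ F
    · obtain ⟨-, ⟨f, hf⟩, -⟩ := hgood U hU
      exact ⟨f, fun _ => hf⟩
    · exact ⟨0, fun h => absurd h hU⟩
  choose g hg using hex
  refine ⟨g '' F, hFc.image g, ?_, ?_⟩
  · rintro f ⟨U, hU, rfl⟩
    rw [← hg U hU]
    exact (hgood U hU).2.2
  · rw [dense_iff_inter_open]
    intro V hV hVne
    by_contra hcon
    have hVF : ∀ U ∈ F, Disjoint V U := by
      intro U hU
      rw [Set.disjoint_left]
      intro x hxV hxU
      apply hcon
      refine ⟨x, hxV, ?_⟩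
      simp only [mem_iUnion]
      refine ⟨g U, mem_image_of_mem g hU, ?_⟩
      rw [← hg U hU]
      exact hxU
    obtain ⟨V', hV'o, hV'ne, hV'V, hV'N⟩ : ∃ V' : Set X, IsOpen V' ∧ V'.Nonempty ∧ V' ⊆ V ∧
        (V' ⊆ N ∨ Disjoint V' N) := by
      by_cases h : (V ∩ Nᶜ).Nonempty
      · exact ⟨V ∩ Nᶜ, hV.inter hN.isOpen_compl, h, inter_subset_left,
          Or.inr (disjoint_compl_left.mono_left inter_subset_right)⟩
      · refine ⟨V, hV, hVne, Subset.rfl, Or.inl ?_⟩
        intro x hx
        by_contra hxN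
        exact h ⟨x, hx, hxN⟩
    obtain ⟨p, hp⟩ := hV'ne
    obtain ⟨f, hf0, hf1, -⟩ := exists_continuous_zero_one_of_isClosed hV'o.isClosed_compl
      (isClosed_singleton (x := p)) (by
        rw [Set.disjoint_singleton_right]
        exact fun h => h hp)
    have hfsub : {x | f x ≠ 0} ⊆ V' := by
      intro x hx
      by_contra hxV
      exact hx (hf0 hxV)
    have hfp : p ∈ {x | f x ≠ 0} := by
      have : f p = 1 := hf1 rfl
      simp [this]
    have hUgood : good {x | f x ≠ 0} := by
      refine ⟨⟨p, hfp⟩, ⟨f, rfl⟩, ?_⟩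
      rcases hV'N with h | h
      · exact Or.inl (hfsub.trans h)
      · exact Or.inr (h.mono_left hfsub)
    have hins : insert {x | f x ≠ 0} F ∈ S := by
      refine ⟨?_, ?_⟩
      · intro U hU
        rcases hU with rfl | hU
        · exact hUgood
        · exact hgood U hU
      · apply hdisj.insert
        intro U hU _
        exact (hVF U hU).mono_left (hfsub.trans hV'V)
    have hle := hF.2 hins (subset_insert _ _)
    have hmem : {x | f x ≠ 0} ∈ F := hle (mem_insert _ _)
    exact Set.disjoint_left.1 (hVF _ hmem) (hV'V hp) hfp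

/-- Countably many functions on a compact space are realised on a separable closed set. -/
theorem exists_twin_set {X : Type} [TopologicalSpace X] [CompactSpace X]
    (F : Set (C(X, ℝ))) (hF : F.Countable) :
    ∃ D : Set X, D.Countable ∧ ∀ S : Set X, IsClosed S → D ⊆ S →
      ∀ x, ∃ y ∈ S, ∀ f ∈ F, f y = f x := by
  have : Countable F := hF.to_subtype
  let e : X → (F → ℝ) := fun x f => f.1 x
  have he : Continuous e := continuous_pi fun f => f.1.continuous
  obtain ⟨c, hc, hcd⟩ := TopologicalSpace.exists_countable_dense (Set.range e)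
  let g : Set.range e → X := fun p => p.2.choose
  have hg : ∀ p : Set.range e, e (g p) = p.1 := fun p => p.2.choose_spec
  refine ⟨g '' c, hc.image g, ?_⟩
  intro S hS hDS x
  have hcl : IsClosed (e '' S) := (hS.isCompact.image he).isClosed
  have huniv : (Subtype.val ⁻¹' (e '' S) : Set (Set.range e)) = Set.univ := by
    apply Set.eq_univ_of_univ_subset
    rw [← hcd.closure_eq]
    apply closure_minimal _ (hcl.preimage continuous_subtype_val)
    intro p hp
    exact ⟨g p, hDS ⟨p, hp, rfl⟩, hg p⟩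
  have hx : (⟨e x, mem_range_self x⟩ : Set.range e) ∈
      (Subtype.val ⁻¹' (e '' S) : Set (Set.range e)) := by
    rw [huniv]; trivial
  obtain ⟨y, hyS, hy⟩ := hx
  exact ⟨y, hyS, fun f hf => congrFun hy ⟨f, hf⟩⟩

/-- A compact Hausdorff space with a countable network is metrizable. -/
theorem metrizable_of_network {X : Type} [TopologicalSpace X] [T2Space X] [CompactSpace X]
    (𝒩 : Set (Set X)) (h𝒩 : 𝒩.Countable)
    (hnet : ∀ x : X, ∀ U : Set X, IsOpen U → x ∈ U → ∃ N ∈ 𝒩, x ∈ N ∧ N ⊆ U) :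
    TopologicalSpace.MetrizableSpace X := by
  classical
  have hex : ∀ p : Set X × Set X, ∃ f : C(X, ℝ),
      Disjoint (closure p.1) (closure p.2) →
        EqOn f 0 (closure p.1) ∧ EqOn f 1 (closure p.2) := by
    intro p
    by_cases h : Disjoint (closure p.1) (closure p.2)
    · obtain ⟨f, h0, h1, -⟩ := exists_continuous_zero_one_of_isClosed
        (isClosed_closure (s := p.1)) (isClosed_closure (s := p.2)) h
      exact ⟨f, fun _ => ⟨h0, h1⟩⟩
    · exact ⟨0, fun h' => absurd h' h⟩
  choose F hF using hex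
  have : Countable 𝒩 := h𝒩.to_subtype
  let e : X → (𝒩 × 𝒩 → ℝ) := fun x p => F (p.1.1, p.2.1) x
  have he : Continuous e := continuous_pi fun p => (F (p.1.1, p.2.1)).continuous
  have hinj : Function.Injective e := by
    intro x y hxy
    by_contra hne
    obtain ⟨U, hxU, hU, V, hyV, hV, hUV⟩ := exists_open_nhds_disjoint_closure hne
    obtain ⟨N₁, hN₁, hxN₁, hN₁U⟩ := hnet x U hU hxU
    obtain ⟨N₂, hN₂, hyN₂, hN₂V⟩ := hnet y V hV hyV
    have hd : Disjoint (closure N₁) (closure N₂) :=
      hUV.mono (closure_mono hN₁U) (closure_mono hN₂V)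
    obtain ⟨h0, h1⟩ := hF (N₁, N₂) hd
    have h := congrFun hxy (⟨N₁, hN₁⟩, ⟨N₂, hN₂⟩)
    have hx0 : F (N₁, N₂) x = 0 := h0 (subset_closure hxN₁)
    have hy1 : F (N₁, N₂) y = 1 := h1 (subset_closure hyN₂)
    have h' : F (N₁, N₂) x = F (N₁, N₂) y := h
    rw [hx0, hy1] at h'
    exact zero_ne_one h'
  exact (he.isClosedEmbedding hinj).isEmbedding.metrizableSpace

/-- Every compact Hausdorff space in which disjoint families of nonempty open sets are countable (ccc) and which is monotonically monolithic, in Tkachuk's sense with well-ordered chain continuity, is metrizable. -/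
theorem result :
    ∀ (X : Type) [TopologicalSpace X] [T2Space X] [CompactSpace X],
      (∀ F : Set (Set X), (∀ U ∈ F, IsOpen U ∧ U.Nonempty) → F.PairwiseDisjoint id → F.Countable) →
      (∃ O : Set X → Set (Set X),
        (∀ A : Set X, Cardinal.mk ↥(O A) ≤ max (Cardinal.mk ↥A) Cardinal.aleph0) ∧
        (∀ A : Set X, ∀ x ∈ closure A, ∀ U : Set X, IsOpen U → x ∈ U →
            ∃ N ∈ O A, x ∈ N ∧ N ⊆ U) ∧
        (∀ A B : Set X, A ⊆ B → O A ⊆ O B) ∧
        (∀ (ι : Type) [LinearOrder ι] [WellFoundedLT ι] (A : ι → Set X),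
            Monotone A → O (⋃ i, A i) = ⋃ i, O (A i))) →
      TopologicalSpace.MetrizableSpace X := by
  intro X _ _ _ hccc ⟨O, hcard, hnet, hmono, hchain⟩
  classical
  have hOc : ∀ A : Set X, A.Countable → (O A).Countable := by
    intro A hA
    have h1 : Cardinal.mk ↥A ≤ Cardinal.aleph0 := Cardinal.le_aleph0_iff_set_countable.2 hA
    have h2 := hcard A
    rw [max_eq_right h1] at h2
    exact Cardinal.le_aleph0_iff_set_countable.1 h2
  have hfam : ∀ N : Set X, ∃ W : Set (C(X, ℝ)), W.Countable ∧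
      (∀ f ∈ W, {x | f x ≠ 0} ⊆ closure N ∨ Disjoint {x | f x ≠ 0} (closure N)) ∧
      Dense (⋃ f ∈ W, {x | f x ≠ 0}) := fun N =>
    exists_family hccc (closure N) isClosed_closure
  choose W hWc hWd hWdense using hfam
  have htwin : ∀ F : Set (C(X, ℝ)), ∃ D : Set X, F.Countable → D.Countable ∧
      ∀ S : Set X, IsClosed S → D ⊆ S → ∀ x, ∃ y ∈ S, ∀ f ∈ F, f y = f x := by
    intro F
    by_cases hF : F.Countable
    · obtain ⟨D, hD⟩ := exists_twin_set F hF
      exact ⟨D, fun _ => hD⟩
    · exact ⟨∅, fun h => absurd h hF⟩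
  choose D hD using htwin
  let Φ : Set X → Set (C(X, ℝ)) := fun A => ⋃ N ∈ O A, W N
  have hΦc : ∀ A : Set X, A.Countable → (Φ A).Countable := fun A hA =>
    (hOc A hA).biUnion fun N _ => hWc N
  let A : ℕ → Set X := fun n => Nat.rec ∅ (fun _ B => B ∪ D (Φ B)) n
  have hAs : ∀ n, A (n + 1) = A n ∪ D (Φ (A n)) := fun n => rfl
  have hAc : ∀ n, (A n).Countable := by
    intro n
    induction n with
    | zero => exact Set.countable_empty
    | succ n ih =>
      rw [hAs]
      exact ih.union (hD (Φ (A n)) (hΦc _ ih)).1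
  have hAmono : Monotone A := monotone_nat_of_le_succ fun n => by
    rw [hAs]; exact subset_union_left
  have hOA : O (⋃ n, A n) = ⋃ n, O (A n) := hchain ℕ A hAmono
  have hUc : (⋃ n, A n).Countable := countable_iUnion hAc
  have hOUc : (O (⋃ n, A n)).Countable := hOc _ hUc
  -- twins
  have htw : ∀ x : X, ∃ y ∈ closure (⋃ n, A n), ∀ N ∈ O (⋃ n, A n), ∀ f ∈ W N, f y = f x := by
    intro x
    let C : ℕ → Set X := fun n => {y | y ∈ closure (⋃ n, A n) ∧ ∀ f ∈ Φ (A n), f y = f x}
    have hCclosed : ∀ n, IsClosed (C n) := by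
      intro n
      have : C n = closure (⋃ n, A n) ∩ ⋂ f ∈ Φ (A n), {y | f y = f x} := by
        ext y
        simp [C]
      rw [this]
      apply isClosed_closure.inter
      apply isClosed_biInter
      intro f _
      exact isClosed_eq f.continuous continuous_const
    have hCne : ∀ n, (C n).Nonempty := by
      intro n
      obtain ⟨y, hy, hyf⟩ := (hD (Φ (A n)) (hΦc _ (hAc n))).2 (closure (⋃ n, A n))
        isClosed_closure (by
          have h1 : D (Φ (A n)) ⊆ A (n + 1) := by rw [hAs]; exact subset_union_right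
          exact (h1.trans (subset_iUnion A (n + 1))).trans subset_closure) x
      exact ⟨y, hy, hyf⟩
    have hCanti : ∀ n, C (n + 1) ⊆ C n := by
      intro n y hy
      refine ⟨hy.1, fun f hf => hy.2 f ?_⟩
      have : O (A n) ⊆ O (A (n + 1)) := hmono _ _ (hAmono (Nat.le_succ n))
      exact biUnion_subset_biUnion_left this hf
    obtain ⟨y, hy⟩ := IsCompact.nonempty_iInter_of_sequence_nonempty_isCompact_isClosed C hCanti
      hCne (hCclosed 0).isCompact hCclosed
    rw [mem_iInter] at hy
    refine ⟨y, (hy 0).1, ?_⟩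
    intro N hN f hf
    rw [hOA, mem_iUnion] at hN
    obtain ⟨n, hn⟩ := hN
    exact (hy n).2 f (mem_biUnion hn hf)
  -- generic points
  have hGdense : Dense (⋂ N ∈ O (⋃ n, A n), ⋃ f ∈ W N, {x | f x ≠ 0}) := by
    apply dense_biInter_of_isOpen
    · intro N _
      exact isOpen_biUnion fun f _ => isOpen_ne_fun f.continuous continuous_const
    · exact hOUc
    · intro N _
      exact hWdense N
  have hGsub : (⋂ N ∈ O (⋃ n, A n), ⋃ f ∈ W N, {x | f x ≠ 0}) ⊆ closure (⋃ n, A n) := by
    intro x hx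
    obtain ⟨y, hy, hyf⟩ := htw x
    by_cases hxy : y = x
    · rw [← hxy]; exact hy
    exfalso
    obtain ⟨U, hyU, hU, V, hxV, hV, hUV⟩ := exists_open_nhds_disjoint_closure hxy
    obtain ⟨N, hN, hyN, hNU⟩ := hnet _ y hy U hU hyU
    have hx' := mem_iInter₂.1 hx N hN
    rw [mem_iUnion₂] at hx'
    obtain ⟨f, hf, hfx⟩ := hx'
    have hfy : f y ≠ 0 := by
      rw [hyf N hN f hf]; exact hfx
    rcases hWd N f hf with h | h
    · have hxN : x ∈ closure N := h hfx
      exact Set.disjoint_left.1 hUV (closure_mono hNU hxN) (subset_closure hxV)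
    · exact Set.disjoint_left.1 h hfy (subset_closure hyN)
  have hdense : Dense (⋃ n, A n) := by
    rw [dense_iff_closure_eq]
    apply Set.eq_univ_of_univ_subset
    rw [← hGdense.closure_eq]
    exact closure_minimal hGsub isClosed_closure
  apply metrizable_of_network (O (⋃ n, A n)) hOUc
  intro x U hU hxU
  exact hnet _ x (hdense x) U hU hxU

end Pool.Agent.S14237
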