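import Pool.Statements.S14374
import Pool.Agent.Helper85.BFC.Meas
import Pool.Agent.Helper85.BFC.Graph
import Pool.Agent.Helper85.BFC.Acyclic
import Pool.Agent.Helper85.BFC.HyperA
import Pool.Agent.Helper85.BFC.HyperB
import Pool.Agent.Helper85.BFC.Final

set_option autoImplicit false
open Pool Pool.MP_0e746a_lc

namespace Pool.Agent.S14374

/-- The negation of the preceding statement: Every hyperfinite Borel 3-regular forest on a standard Borel space has, for each ε>0, a Borel homomorphism to some Kneser graph K(n,k) with k>0 and n/k<2+ε; equivalently its Borel fractional chromatic number is 2. -/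
theorem result :
    ¬ (∀ (X : Type) [MeasurableSpace X] [StandardBorelSpace X] (G : SimpleGraph X),
    MeasurableSet {p : X × X | G.Adj p.1 p.2} →
    (∀ x, (G.neighborSet x).ncard = 3) →
    G.IsAcyclic →
    (∃ F : ℕ → X → X → Prop,
      (∀ m, Equivalence (F m)) ∧
      (∀ m, MeasurableSet {p : X × X | F m p.1 p.2}) ∧
      (∀ m x, {y | F m x y}.Finite) ∧
      (∀ m x y, F m x y → F (m + 1) x y) ∧
      (∀ x y, G.Reachable x y ↔ ∃ m, F m x y)) →
    ∀ ε : ℝ, 0 < ε → ∃ n k : ℕ, 0 < k ∧ (n : ℝ) < (2 + ε) * (k : ℝ) ∧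
      ∃ f : X → Finset (Fin n), (∀ x, (f x).card = k) ∧
        (∀ s, MeasurableSet (f ⁻¹' {s})) ∧
        (∀ x y, G.Adj x y → Disjoint (f x) (f y))) := by
  intro H
  have hS : StandardBorelSpace Helper85.BFC.YY :=
    (Helper85.BFC.measurableSet_YV).standardBorel
  obtain ⟨n, k, hk, hnk, f, hf1, hf2, hf3⟩ := H Helper85.BFC.YY Helper85.BFC.GG
    Helper85.BFC.GG_meas Helper85.BFC.GG_reg Helper85.BFC.GG_acyclic
    ⟨fun m y y' => Helper85.BFC.FF m y.1 y'.1, Helper85.BFC.FF_equiv, Helper85.BFC.FF_meas,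
      Helper85.BFC.FF_finite, Helper85.BFC.FF_mono, Helper85.BFC.GG_reach⟩
    (1 / 2000) (by norm_num)
  exact Helper85.BFC.no_hom n k hk hnk f hf1 hf2 hf3

end Pool.Agent.S14374
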