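import Pool.Statements.S14678
import Pool.Agent.Helper20.Ent.Star
import Pool.Agent.Helper75.Assemble

/-!
The cone of linear information inequalities for four random variables is not semialgebraic.

Key inequality (`Pool.Agent.Helper20.Ent.star`), for all `s` and all random variables `a, b, c, d`:
`I(a;b) <= 2^{-s} I(b;cd|a) + (2 s + 1) (I(a;b|c) + I(a;b|d) + I(c;d) + I(a;c|b) + I(a;d|b)
  + I(c;d|a))`.
Together with `c, d` independent rare bits, `a = c AND d`, `b = c OR d`, it shows that the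
boundary of a two-dimensional affine section of the cone behaves like `log (1/t)`.
-/

set_option autoImplicit false
open Pool Pool.MP_4da6ae_lc

namespace Pool.Agent.S14678

theorem star75 : Pool.Agent.Helper75.EntS.Star := by
  intro N p X h0 h1
  have hHf : Pool.Agent.Helper75.EntS.Hf p X = Pool.Agent.Helper20.Ent.Hf p X := rfl
  have hemp : Pool.Agent.Helper20.Ent.Hf p X ∅ = 0 := by
    rw [Pool.Agent.Helper20.Ent.Hf_eq_hh]
    exact Pool.Agent.Helper20.Ent.hh_empty ⟨h0, h1⟩ X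
  rw [hHf]
  have e1 : Pool.Agent.Helper75.EntS.I (Pool.Agent.Helper20.Ent.Hf p X) {1} {2, 3} {0}
      = Pool.Agent.Helper20.Ent.fB (Pool.Agent.Helper20.Ent.Hf p X) := by
    unfold Pool.Agent.Helper75.EntS.I Pool.Agent.Helper20.Ent.fB
    rw [show ({1} : Finset (Fin 4)) ∪ {0} = {0, 1} by decide,
      show ({2, 3} : Finset (Fin 4)) ∪ {0} = {0, 2, 3} by decide,
      show ({1} : Finset (Fin 4)) ∪ {2, 3} ∪ {0} = {0, 1, 2, 3} by decide]
  have e2 : Pool.Agent.Helper75.EntS.sH (Pool.Agent.Helper20.Ent.Hf p X)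
      = Pool.Agent.Helper20.Ent.fH (Pool.Agent.Helper20.Ent.Hf p X) := by
    unfold Pool.Agent.Helper75.EntS.sH Pool.Agent.Helper75.EntS.I Pool.Agent.Helper20.Ent.fH
    rw [hemp,
      show ({0} : Finset (Fin 4)) ∪ {2} = {0, 2} by decide,
      show ({1} : Finset (Fin 4)) ∪ {2} = {1, 2} by decide,
      show ({0} : Finset (Fin 4)) ∪ {1} ∪ {2} = {0, 1, 2} by decide,
      show ({0} : Finset (Fin 4)) ∪ {3} = {0, 3} by decide,
      show ({1} : Finset (Fin 4)) ∪ {3} = {1, 3} by decide,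
      show ({0} : Finset (Fin 4)) ∪ {1} ∪ {3} = {0, 1, 3} by decide,
      show ({2} : Finset (Fin 4)) ∪ ∅ = {2} by decide,
      show ({3} : Finset (Fin 4)) ∪ ∅ = {3} by decide,
      show ({2} : Finset (Fin 4)) ∪ {3} ∪ ∅ = {2, 3} by decide,
      show ({0} : Finset (Fin 4)) ∪ {1} = {0, 1} by decide,
      show ({2} : Finset (Fin 4)) ∪ {1} = {1, 2} by decide,
      show ({0, 2} : Finset (Fin 4)) ∪ {1} = {0, 1, 2} by decide,
      show ({3} : Finset (Fin 4)) ∪ {1} = {1, 3} by decide,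
      show ({0, 3} : Finset (Fin 4)) ∪ {1} = {0, 1, 3} by decide,
      show ({2} : Finset (Fin 4)) ∪ {0} = {0, 2} by decide,
      show ({3} : Finset (Fin 4)) ∪ {0} = {0, 3} by decide,
      show ({2} : Finset (Fin 4)) ∪ {3} ∪ {0} = {0, 2, 3} by decide]
    ring
  have e3 : Pool.Agent.Helper75.EntS.I (Pool.Agent.Helper20.Ent.Hf p X) {0} {1} ∅
      = Pool.Agent.Helper20.Ent.fx (Pool.Agent.Helper20.Ent.Hf p X) := by
    unfold Pool.Agent.Helper75.EntS.I Pool.Agent.Helper20.Ent.fx
    rw [hemp, show ({0} : Finset (Fin 4)) ∪ ∅ = {0} by decide,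
      show ({1} : Finset (Fin 4)) ∪ ∅ = {1} by decide,
      show ({0} : Finset (Fin 4)) ∪ {1} ∪ ∅ = {0, 1} by decide]
    ring
  rw [e1, e2, e3]
  exact ⟨Pool.Agent.Helper20.Ent.fB_nonneg N p X h0 h1,
    Pool.Agent.Helper20.Ent.fH_nonneg N p X h0 h1,
    fun s => Pool.Agent.Helper20.Ent.star s N p X h0 h1⟩

/-- The negation of the preceding statement: For every k ≥ 4, the set of coefficient vectors c with ∑_S c_S·H(X_S) ≥ 0 for all k-tuples of finite random variables is a finite union of sets {f = 0, g_1 > 0, …, g_m > 0} with real polynomials f, g_i. -/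
theorem result :
    ¬ (∀ k : ℕ, 4 ≤ k →
      ∃ (n m : ℕ) (f : Fin n → MvPolynomial (Finset (Fin k)) ℝ)
        (g : Fin n → Fin m → MvPolynomial (Finset (Fin k)) ℝ),
        ∀ c : Finset (Fin k) → ℝ,
          ((∀ (N : ℕ) (p : Fin N → ℝ) (X : Fin k → Fin N → Fin N),
              (∀ ω, 0 ≤ p ω) → ∑ ω, p ω = 1 →
                0 ≤ ∑ S : Finset (Fin k), c S *
                  (-∑ ω, p ω * Real.log
                    (∑ ω', if (∀ i ∈ S, X i ω' = X i ω) then p ω' else 0))) ↔
            ∃ j, MvPolynomial.eval c (f j) = 0 ∧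
              ∀ l, 0 < MvPolynomial.eval c (g j l))) :=
  Pool.Agent.Helper75.EntS.final star75

end Pool.Agent.S14678
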