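import Pool.Statements.S15550

set_option autoImplicit false
open Pool Pool.MP_e6ce3e_lc

namespace Pool.Agent.S15550

open Set

/-- A set with a bound on the left, all of whose closed left intervals are countable, is countable
if every well-founded subset is countable. -/
lemma countable_up {L : Type} [LinearOrder L]
    (h1 : ∀ S : Set L, S.WellFoundedOn (· < ·) → S.Countable) (x : L) :
    {y : L | x ≤ y ∧ (Icc x y).Countable}.Countable := by
  classical
  set A : Set L := {y : L | x ≤ y ∧ (Icc x y).Countable} with hA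
  -- a well-order on L
  let r : L → L → Prop := WellOrderingRel
  have hr : IsWellOrder L r := inferInstance
  have hwf : WellFounded r := hr.wf
  let S : Set L := {a | a ∈ A ∧ ∀ b ∈ A, r b a → b < a}
  have hSr : ∀ a ∈ S, ∀ b ∈ S, a < b → r a b := by
    intro a ha b hb hab
    rcases trichotomous_of r a b with h | h | h
    · exact h
    · exact absurd h (ne_of_lt hab)
    · exact absurd (ha.2 b hb.1 h) (not_lt_of_gt hab)
  have hSwf : S.WellFoundedOn (· < ·) := by
    rw [Set.wellFoundedOn_iff]
    refine Subrelation.wf ?_ hwf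
    rintro a b ⟨hab, ha, hb⟩
    exact hSr a ha b hb hab
  have hSc : S.Countable := h1 S hSwf
  have hcof : A ⊆ ⋃ s ∈ S, Icc x s := by
    intro a ha
    -- the r-least element of {b ∈ A | a ≤ b}
    have hne : {b | b ∈ A ∧ a ≤ b}.Nonempty := ⟨a, ha, le_refl a⟩
    let m := hwf.min {b | b ∈ A ∧ a ≤ b} hne
    have hm : m ∈ {b | b ∈ A ∧ a ≤ b} := hwf.min_mem _ hne
    have hmS : m ∈ S := by
      refine ⟨hm.1, ?_⟩
      intro b hb hbm
      have : ¬ (a ≤ b) := by
        intro hab
        have hbmem : b ∈ {b | b ∈ A ∧ a ≤ b} := ⟨hb, hab⟩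
        exact hwf.not_lt_min _ hbmem hbm
      exact lt_of_lt_of_le (not_le.mp this) hm.2
    simp only [mem_iUnion]
    exact ⟨m, hmS, ha.1, hm.2⟩
  refine Set.Countable.mono hcof ?_
  refine Set.Countable.biUnion hSc ?_
  intro s hs
  exact hs.1.2

/-- The mirror image of `countable_up`. -/
lemma countable_down {L : Type} [LinearOrder L]
    (h2 : ∀ S : Set L, S.WellFoundedOn (· > ·) → S.Countable) (x : L) :
    {y : L | y ≤ x ∧ (Icc y x).Countable}.Countable := by
  have h1 : ∀ S : Set Lᵒᵈ, S.WellFoundedOn (· < ·) → S.Countable := fun S hS => h2 S hS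
  have := countable_up (L := Lᵒᵈ) h1 x
  refine Set.Countable.mono ?_ this
  rintro y ⟨hy, hc⟩
  refine ⟨hy, ?_⟩
  refine Set.Countable.mono ?_ hc
  rintro z ⟨hz1, hz2⟩
  exact ⟨hz2, hz1⟩

/-- A short uncountable linear order contains a copy of the rationals all of whose intervals are
uncountable. -/
lemma exists_thick_rat {L : Type} [LinearOrder L]
    (h1 : ∀ S : Set L, S.WellFoundedOn (· < ·) → S.Countable)
    (h2 : ∀ S : Set L, S.WellFoundedOn (· > ·) → S.Countable)
    (hL : ¬ (Set.univ : Set L).Countable) :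
    ∃ e : ℚ → L, StrictMono e ∧ ∀ q r : ℚ, q < r → ¬ (Ioo (e q) (e r)).Countable := by
  classical
  let s : Setoid L :=
    { r := fun x y => (uIcc x y).Countable
      iseqv :=
        { refl := fun x => by simp
          symm := fun {x y} h => by rwa [uIcc_comm]
          trans := fun {x y z} h h' => (h.union h').mono uIcc_subset_uIcc_union_uIcc } }
  have hs : ∀ x y : L, s.r x y ↔ (uIcc x y).Countable := fun x y => Iff.rfl
  have hclass : ∀ x : L, {y : L | s.r x y}.Countable := by
    intro x
    refine ((countable_up h1 x).union (countable_down h2 x)).mono ?_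
    intro y hy
    rcases le_total x y with h | h
    · left
      refine ⟨h, ?_⟩
      have : (uIcc x y).Countable := hy
      rwa [uIcc_of_le h] at this
    · right
      refine ⟨h, ?_⟩
      have : (uIcc x y).Countable := hy
      rwa [uIcc_of_ge h] at this
  let rep : L → L := fun x => (Quotient.mk s x).out
  have hrep : ∀ x, s.r (rep x) x := fun x => Quotient.mk_out (s := s) x
  have hrep' : ∀ x y, s.r x y → rep x = rep y := by
    intro x y h
    show (Quotient.mk s x).out = (Quotient.mk s y).out
    rw [Quotient.sound (s := s) h]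
  let D : Set L := {x | rep x = x}
  have hrepD : ∀ x, rep x ∈ D := fun x => hrep' _ _ (hrep x)
  have hDne : ∀ x ∈ D, ∀ y ∈ D, x ≠ y → ¬ s.r x y := by
    intro x hx y hy hxy h
    apply hxy
    have := hrep' x y h
    rw [hx, hy] at this
    exact this
  -- D nontrivial
  have hDnt : Nontrivial D := by
    have hne : (Set.univ : Set L).Nonempty := by
      rw [Set.nonempty_iff_ne_empty]
      rintro h
      exact hL (by rw [h]; exact Set.countable_empty)
    obtain ⟨x0, -⟩ := hne
    have : ∃ y, ¬ s.r x0 y := by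
      by_contra hcon
      push Not at hcon
      apply hL
      refine (hclass x0).mono ?_
      intro y _
      exact hcon y
    obtain ⟨y0, hy0⟩ := this
    refine ⟨⟨⟨rep x0, hrepD x0⟩, ⟨rep y0, hrepD y0⟩, ?_⟩⟩
    intro h
    have h' : rep x0 = rep y0 := congrArg Subtype.val h
    apply hy0
    have e1 := hrep x0
    have e2 := hrep y0
    rw [h'] at e1
    exact s.iseqv.trans (s.iseqv.symm e1) e2
  have hDd : DenselyOrdered D := by
    refine ⟨?_⟩
    rintro ⟨x, hx⟩ ⟨y, hy⟩ hxy
    have hxy' : x < y := hxy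
    by_contra hcon
    push Not at hcon
    have hnr : ¬ s.r x y := hDne x hx y hy (ne_of_lt hxy')
    apply hnr
    rw [hs, uIcc_of_le hxy'.le]
    refine ((hclass x).union (hclass y)).mono ?_
    intro z hz
    by_contra hz'
    rw [mem_union, not_or] at hz'
    obtain ⟨hzx, hzy⟩ := hz'
    have hzx' : ¬ s.r x z := hzx
    have hzy' : ¬ s.r y z := hzy
    have hrz := hrep z
    have hx1 : x < rep z := by
      by_contra hle
      push Not at hle
      apply hzx'
      rw [hs, uIcc_of_le hz.1]
      rw [hs, uIcc_of_le (hle.trans hz.1)] at hrz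
      exact hrz.mono (Icc_subset_Icc_left hle)
    have hy1 : rep z < y := by
      by_contra hle
      push Not at hle
      apply hzy'
      rw [hs, uIcc_of_ge hz.2]
      rw [hs, uIcc_of_ge (hz.2.trans hle)] at hrz
      exact hrz.mono (Icc_subset_Icc_right hle)
    exact absurd hy1 (not_lt_of_ge (hcon ⟨rep z, hrepD z⟩ hx1))
  obtain ⟨e⟩ := Order.embedding_from_countable_to_dense ℚ D
  refine ⟨fun q => (e q : L), ?_, ?_⟩
  · intro q r hqr
    exact e.strictMono hqr
  · intro q r hqr hc
    have hlt : (e q : L) < (e r : L) := e.strictMono hqr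
    apply hDne (e q) (e q).2 (e r) (e r).2 (ne_of_lt hlt)
    rw [hs, uIcc_of_le hlt.le]
    rw [← Ioo_union_both hlt.le]
    exact hc.union (by simp)

/-- The negation of the preceding statement: There is a linear order L with no uncountable well-ordered or reverse-well-ordered subset, of size at least aleph_1, mapping monotonically onto every size-aleph_1 linear order embeddable in it, but with no monotone surjection onto the rationals. -/
theorem result :
    ¬ (∃ (L : Type) (_ : LinearOrder L),
      (∀ S : Set L, S.WellFoundedOn (· < ·) → S.Countable) ∧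
      (∀ S : Set L, S.WellFoundedOn (· > ·) → S.Countable) ∧
      Cardinal.aleph 1 ≤ Cardinal.mk L ∧
      (∀ (K : Type) [LinearOrder K], Cardinal.mk K = Cardinal.aleph 1 →
          Nonempty (K ↪o L) → ∃ f : L → K, Monotone f ∧ Function.Surjective f) ∧
      ¬ ∃ f : L → ℚ, Monotone f ∧ Function.Surjective f) := by
  classical
  rintro ⟨L, inst, h1, h2, hcard, hsurj, hno⟩
  have hunc : ¬ (Set.univ : Set L).Countable := by
    intro h
    have : Cardinal.mk L ≤ Cardinal.aleph0 := by
      rw [Set.countable_univ_iff] at h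
      exact Cardinal.mk_le_aleph0_iff.mpr h
    exact absurd (hcard.trans this) (not_le.mpr Cardinal.aleph0_lt_aleph_one)
  obtain ⟨e, hemono, hethick⟩ := exists_thick_rat h1 h2 hunc
  have hbig : Cardinal.aleph 1 ≤ Cardinal.mk (Ioo (e 0) (e 1)) := by
    have h01 := hethick 0 1 (by norm_num)
    rw [← Cardinal.le_aleph0_iff_set_countable, not_le] at h01
    rw [← Order.succ_le_iff, Cardinal.succ_aleph0] at h01
    exact h01
  obtain ⟨U, hU, hUcard⟩ := Cardinal.le_mk_iff_exists_subset.mp hbig
  let K : Set L := (e '' Iic 0) ∪ (U ∪ e '' Ici 1)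
  have hKcard : Cardinal.mk K = Cardinal.aleph 1 := by
    apply le_antisymm
    · have hc1 : Cardinal.mk (e '' Iic (0:ℚ)) ≤ Cardinal.aleph 1 :=
        (Cardinal.le_aleph0_iff_set_countable.mpr ((Set.to_countable _).image e)).trans
          Cardinal.aleph0_lt_aleph_one.le
      have hc2 : Cardinal.mk (e '' Ici (1:ℚ)) ≤ Cardinal.aleph 1 :=
        (Cardinal.le_aleph0_iff_set_countable.mpr ((Set.to_countable _).image e)).trans
          Cardinal.aleph0_lt_aleph_one.le
      have hinf : Cardinal.aleph0 ≤ Cardinal.aleph 1 := Cardinal.aleph0_le_aleph 1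
      refine (Cardinal.mk_union_le _ _).trans ?_
      refine Cardinal.add_le_of_le hinf hc1 ?_
      refine (Cardinal.mk_union_le _ _).trans ?_
      exact Cardinal.add_le_of_le hinf hUcard.le hc2
    · rw [← hUcard]
      refine Cardinal.mk_le_mk_of_subset ?_
      intro u hu
      exact Or.inr (Or.inl hu)
  obtain ⟨g, hgm, hgs⟩ := hsurj K hKcard ⟨OrderEmbedding.subtype _⟩
  -- the collapsing map of K onto the rationals
  let φ : L → ℚ := fun x =>
    if h : ∃ q : ℚ, q ≤ 0 ∧ e q = x then h.choose
    else if h' : ∃ q : ℚ, 1 ≤ q ∧ e q = x then h'.choose - 1 else 0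
  have hφ1 : ∀ q : ℚ, q ≤ 0 → φ (e q) = q := by
    intro q hq
    have h : ∃ q' : ℚ, q' ≤ 0 ∧ e q' = e q := ⟨q, hq, rfl⟩
    have : φ (e q) = h.choose := dif_pos h
    rw [this]
    exact hemono.injective h.choose_spec.2
  have hφ2 : ∀ q : ℚ, 1 ≤ q → φ (e q) = q - 1 := by
    intro q hq
    have hn : ¬ ∃ q' : ℚ, q' ≤ 0 ∧ e q' = e q := by
      rintro ⟨q', hq', he⟩
      have := hemono.injective he
      linarith
    have h : ∃ q' : ℚ, 1 ≤ q' ∧ e q' = e q := ⟨q, hq, rfl⟩
    have : φ (e q) = h.choose - 1 := (dif_neg hn).trans (dif_pos h)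
    rw [this]
    have := hemono.injective h.choose_spec.2
    rw [this]
  have hφ3 : ∀ u ∈ U, φ u = 0 := by
    intro u hu
    have hu' := hU hu
    have hn : ¬ ∃ q' : ℚ, q' ≤ 0 ∧ e q' = u := by
      rintro ⟨q', hq', he⟩
      have h3 : e 0 < e q' := by rw [he]; exact hu'.1
      have := hemono.lt_iff_lt.mp h3
      linarith
    have hn' : ¬ ∃ q' : ℚ, 1 ≤ q' ∧ e q' = u := by
      rintro ⟨q', hq', he⟩
      have h3 : e q' < e 1 := by rw [he]; exact hu'.2
      have := hemono.lt_iff_lt.mp h3
      linarith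
    exact (dif_neg hn).trans (dif_neg hn')
  apply hno
  refine ⟨fun x => φ (g x), ?_, ?_⟩
  · have key : ∀ x ∈ K, ∀ y ∈ K, x ≤ y → φ x ≤ φ y := by
      rintro x (⟨q, hq, rfl⟩ | hx | ⟨q, hq, rfl⟩) y (⟨r, hr, rfl⟩ | hy | ⟨r, hr, rfl⟩) hxy
      · rw [hφ1 q hq, hφ1 r hr]; exact hemono.le_iff_le.mp hxy
      · rw [hφ1 q hq, hφ3 y hy]; exact hq
      · rw [hφ1 q hq, hφ2 r hr]
        have hq' : q ≤ 0 := hq
        have hr' : 1 ≤ r := hr
        linarith
      · exfalso
        have hr' : r ≤ 0 := hr
        have h3 := (hU hx).1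
        have h4 : e r ≤ e 0 := hemono.monotone hr'
        exact absurd (lt_of_lt_of_le h3 (hxy.trans h4)) (lt_irrefl _)
      · rw [hφ3 x hx, hφ3 y hy]
      · rw [hφ3 x hx, hφ2 r hr]
        have hr' : 1 ≤ r := hr
        linarith
      · exfalso
        have hq' : 1 ≤ q := hq
        have hr' : r ≤ 0 := hr
        have := hemono.le_iff_le.mp hxy
        linarith
      · exfalso
        have hq' : 1 ≤ q := hq
        have h3 := (hU hy).2
        have h4 : e 1 ≤ e q := hemono.monotone hq'
        exact absurd (lt_of_le_of_lt (h4.trans hxy) h3) (lt_irrefl _)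
      · rw [hφ2 q hq, hφ2 r hr]
        have := hemono.le_iff_le.mp hxy
        linarith
    intro x y hxy
    exact key _ (g x).2 _ (g y).2 (hgm hxy)
  · intro q
    rcases le_or_gt q 0 with hq | hq
    · obtain ⟨x, hx⟩ := hgs ⟨e q, Or.inl ⟨q, hq, rfl⟩⟩
      refine ⟨x, ?_⟩
      show φ (g x) = q
      rw [hx]
      exact hφ1 q hq
    · have hq1 : (1:ℚ) ≤ q + 1 := by linarith
      obtain ⟨x, hx⟩ := hgs ⟨e (q + 1), Or.inr (Or.inr ⟨q + 1, hq1, rfl⟩)⟩
      refine ⟨x, ?_⟩
      show φ (g x) = q
      rw [hx]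
      show φ (e (q + 1)) = q
      rw [hφ2 (q + 1) hq1]
      ring

end Pool.Agent.S15550
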