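import Pool.Statements.S15571
import Pool.Agent.Downey.Final

set_option autoImplicit false
open Pool Pool.MP_eab2ec_lc

namespace Pool.Agent.S15571

/-- There is a linear order on ℕ such that a total function on ℕ is noncomputable exactly when it is Turing equivalent to some isomorphic copy of the order on ℕ; that is, its degree spectrum is all nonzero degrees. -/
theorem result :
    ∃ R : ℕ → ℕ → Bool,
      (∀ a, R a a = true) ∧
      (∀ a b c, R a b = true → R b c = true → R a c = true) ∧
      (∀ a b, R a b = true → R b a = true → a = b) ∧
      (∀ a b, R a b = true ∨ R b a = true) ∧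
      ∀ X : ℕ → ℕ, ((¬ Computable X) ↔
        ∃ S : ℕ → ℕ → Bool,
          (∃ e : ℕ ≃ ℕ, ∀ a b, R a b = S (e a) (e b)) ∧
          TuringReducible
            (PFun.lift (fun p : ℕ => (S (Nat.unpair p).1 (Nat.unpair p).2).toNat))
            (PFun.lift X) ∧
          TuringReducible (PFun.lift X)
            (PFun.lift (fun p : ℕ => (S (Nat.unpair p).1 (Nat.unpair p).2).toNat))) :=
  Pool.Agent.Downey.main

end Pool.Agent.S15571
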