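import Pool.Statements.S15620

/-!
We show that Ramsey's theorem for pairs and three colours is not strongly omnisciently computably
reducible to Ramsey's theorem for pairs and two colours.

Outline.  Fix a countable family of enumeration operators `W e` containing all oracle
computations.  A sufficiently sparse and homogeneous infinite set `G = {γ 0 < γ 1 < ...}` is built
with the Ramsey theorem for open sets and for pairs.  The colouring `f` of pairs is the level of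
disagreement (0, 1 or 2) of labels in `ℕ × ℕ`, labels being constant on the blocks
`[γ (2 t), γ (2 t + 2))`.  Given any two-colouring `g`, three nested levels of ultrafilters and two
colours give, by the pigeonhole principle, two levels of the same `g`-colour, and mixing these two
levels generically gives a `g`-homogeneous set which computes no infinite `f`-homogeneous set.
-/

set_option autoImplicit false
open Pool Pool.MP_f4da35_lc

namespace Pool.Agent.S15620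

/-- Codes for functions recursive in one oracle. -/
inductive OCode : Type
  | zero | succ | left | right | oracle
  | pair (a b : OCode)
  | comp (a b : OCode)
  | prec (a b : OCode)
  | rfind (a : OCode)
deriving Countable

/-- Evaluation of a code with oracle `g`. -/
def OCode.eval (g : ℕ →. ℕ) : OCode → (ℕ →. ℕ)
  | OCode.zero => fun _ => 0
  | OCode.succ => Nat.succ
  | OCode.left => fun n => (Nat.unpair n).1
  | OCode.right => fun n => (Nat.unpair n).2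
  | OCode.oracle => g
  | OCode.pair a b => fun n => (Nat.pair <$> OCode.eval g a n <*> OCode.eval g b n)
  | OCode.comp a b => fun n => OCode.eval g b n >>= OCode.eval g a
  | OCode.prec a b => fun p =>
      let (x, n) := Nat.unpair p
      n.rec (OCode.eval g a x) fun y IH => do
        let i ← IH
        OCode.eval g b (Nat.pair x (Nat.pair y i))
  | OCode.rfind a => fun x =>
      Nat.rfind fun n => (fun m => m = 0) <$> OCode.eval g a (Nat.pair x n)

theorem exists_code {g f : ℕ →. ℕ} (h : Nat.RecursiveIn {g} f) : ∃ c : OCode, c.eval g = f := by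
  induction h with
  | zero => exact ⟨OCode.zero, rfl⟩
  | succ => exact ⟨OCode.succ, rfl⟩
  | left => exact ⟨OCode.left, rfl⟩
  | right => exact ⟨OCode.right, rfl⟩
  | oracle g' hg' =>
      rw [Set.mem_singleton_iff] at hg'
      subst hg'
      exact ⟨OCode.oracle, rfl⟩
  | pair _ _ ih1 ih2 =>
      obtain ⟨a, rfl⟩ := ih1
      obtain ⟨b, rfl⟩ := ih2
      exact ⟨OCode.pair a b, rfl⟩
  | comp _ _ ih1 ih2 =>
      obtain ⟨a, rfl⟩ := ih1
      obtain ⟨b, rfl⟩ := ih2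
      exact ⟨OCode.comp a b, rfl⟩
  | prec _ _ ih1 ih2 =>
      obtain ⟨a, rfl⟩ := ih1
      obtain ⟨b, rfl⟩ := ih2
      exact ⟨OCode.prec a b, rfl⟩
  | rfind _ ih =>
      obtain ⟨a, rfl⟩ := ih
      exact ⟨OCode.rfind a, rfl⟩

/-- The oracle given by a Boolean characteristic function. -/
def orc (H : ℕ → Bool) : ℕ →. ℕ := fun m => Part.some (Bool.toNat (H m))

/-- `R` holds for all `H'` agreeing with `H` below some bound. -/
def Near (H : ℕ → Bool) (R : (ℕ → Bool) → Prop) : Prop :=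
  ∃ u : ℕ, ∀ H' : ℕ → Bool, (∀ x < u, H' x = H x) → R H'

theorem Near.triv {H : ℕ → Bool} {R : (ℕ → Bool) → Prop} (h : ∀ H', R H') : Near H R :=
  ⟨0, fun H' _ => h H'⟩

theorem Near.mono {H : ℕ → Bool} {R S : (ℕ → Bool) → Prop} (h : ∀ H', R H' → S H')
    (hR : Near H R) : Near H S := by
  obtain ⟨u, hu⟩ := hR
  exact ⟨u, fun H' hH' => h H' (hu H' hH')⟩

theorem Near.and {H : ℕ → Bool} {R S : (ℕ → Bool) → Prop} (hR : Near H R) (hS : Near H S) :
    Near H (fun H' => R H' ∧ S H') := by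
  obtain ⟨u, hu⟩ := hR
  obtain ⟨v, hv⟩ := hS
  exact ⟨max u v, fun H' hH' => ⟨hu H' fun x hx => hH' x (lt_of_lt_of_le hx (le_max_left _ _)),
    hv H' fun x hx => hH' x (lt_of_lt_of_le hx (le_max_right _ _))⟩⟩

theorem Near.all_lt {H : ℕ → Bool} {R : ℕ → (ℕ → Bool) → Prop} (n : ℕ)
    (hR : ∀ m < n, Near H (R m)) : Near H (fun H' => ∀ m < n, R m H') := by
  induction n with
  | zero => exact Near.triv fun H' m hm => absurd hm (Nat.not_lt_zero m)
  | succ n ih =>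
      have h1 := ih fun m hm => hR m (Nat.lt_succ_of_lt hm)
      have h2 := hR n (Nat.lt_succ_self n)
      refine Near.mono ?_ (h1.and h2)
      rintro H' ⟨ha, hb⟩ m hm
      rcases Nat.lt_succ_iff_lt_or_eq.mp hm with h | rfl
      · exact ha m h
      · exact hb

theorem eval_cont (H : ℕ → Bool) (c : OCode) :
    ∀ n v : ℕ, v ∈ c.eval (orc H) n → Near H (fun H' => v ∈ c.eval (orc H') n) := by
  induction c with
  | zero => intro n v h; exact Near.triv fun H' => h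
  | succ => intro n v h; exact Near.triv fun H' => h
  | left => intro n v h; exact Near.triv fun H' => h
  | right => intro n v h; exact Near.triv fun H' => h
  | oracle =>
      intro n v h
      refine ⟨n + 1, fun H' hH' => ?_⟩
      simp only [OCode.eval, orc] at h ⊢
      rw [hH' n (Nat.lt_succ_self n)]
      exact h
  | pair a b iha ihb =>
      intro n v h
      simp only [OCode.eval, Seq.seq, Part.mem_bind_iff, Part.map_eq_map,
        Part.mem_map_iff] at h ⊢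
      obtain ⟨_, ⟨x, hx, rfl⟩, y, hy, rfl⟩ := h
      refine Near.mono ?_ ((iha n x hx).and (ihb n y hy))
      rintro H' ⟨h1, h2⟩
      exact ⟨_, ⟨x, h1, rfl⟩, y, h2, rfl⟩
  | comp a b iha ihb =>
      intro n v h
      obtain ⟨w, hw, hv⟩ := Part.mem_bind_iff.mp h
      refine Near.mono ?_ ((ihb n w hw).and (iha w v hv))
      rintro H' ⟨h1, h2⟩
      exact Part.mem_bind_iff.mpr ⟨w, h1, h2⟩
  | prec a b iha ihb =>
      intro p
      simp only [OCode.eval]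
      generalize (Nat.unpair p).1 = x
      generalize (Nat.unpair p).2 = n
      induction n with
      | zero => intro v h; exact iha x v h
      | succ n ihn =>
          intro v h
          simp only [Part.bind_eq_bind, Part.mem_bind_iff] at h ihn ⊢
          obtain ⟨w, hw, hv⟩ := h
          refine Near.mono ?_ ((ihn w hw).and (ihb _ v hv))
          rintro H' ⟨h1, h2⟩
          exact ⟨w, h1, h2⟩
  | rfind a iha =>
      intro x v h
      obtain ⟨h1, h2⟩ := Nat.mem_rfind.mp h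
      obtain ⟨w, hw, hw0⟩ := (Part.mem_map_iff _).mp h1
      have n1 : Near H (fun H' => true ∈ (fun m => decide (m = 0)) <$>
          a.eval (orc H') (Nat.pair x v)) := by
        refine Near.mono ?_ (iha _ w hw)
        intro H' h'
        exact (Part.mem_map_iff _).mpr ⟨w, h', hw0⟩
      have n2 : Near H (fun H' => ∀ m < v, false ∈ (fun m => decide (m = 0)) <$>
          a.eval (orc H') (Nat.pair x m)) := by
        refine Near.all_lt (R := fun m H' => false ∈ (fun m => decide (m = 0)) <$>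
          a.eval (orc H') (Nat.pair x m)) v ?_
        intro m hm
        obtain ⟨w', hw', hw0'⟩ := (Part.mem_map_iff _).mp (h2 hm)
        refine Near.mono ?_ (iha _ w' hw')
        intro H' h'
        exact (Part.mem_map_iff _).mpr ⟨w', h', hw0'⟩
      refine Near.mono ?_ (n1.and n2)
      rintro H' ⟨k1, k2⟩
      exact Nat.mem_rfind.mpr ⟨k1, fun {m} hm => k2 m hm⟩


/-- Infinite sets agreeing with `σ` below `b` and contained in `X` from `b` on. -/
def Box (σ : Finset ℕ) (b : ℕ) (X : Set ℕ) : Set (Set ℕ) :=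
  {H | H.Infinite ∧ (∀ x < b, x ∈ H ↔ x ∈ σ) ∧ ∀ x ∈ H, b ≤ x → x ∈ X}

theorem Box.mono {σ : Finset ℕ} {b : ℕ} {X Y : Set ℕ} (h : ∀ x ∈ X, b ≤ x → x ∈ Y) :
    Box σ b X ⊆ Box σ b Y := by
  rintro H ⟨h1, h2, h3⟩
  exact ⟨h1, h2, fun x hx hb => h x (h3 x hx hb) hb⟩

/-- Passing to a larger bound. -/
theorem Box.up {σ : Finset ℕ} {b d : ℕ} {X : Set ℕ} (hσ : ∀ x ∈ σ, x < b) (hbd : b ≤ d) :
    Box σ d X ⊆ Box σ b X := by
  rintro H ⟨h1, h2, h3⟩
  refine ⟨h1, fun x hx => h2 x (lt_of_lt_of_le hx hbd), fun x hx hb => ?_⟩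
  by_cases hd : d ≤ x
  · exact h3 x hx hd
  · exact absurd (hσ x ((h2 x (not_le.mp hd)).mp hx)) (not_lt.mpr hb)

theorem inf_gt {Y : Set ℕ} (hY : Y.Infinite) (a : ℕ) : {z ∈ Y | a < z}.Infinite := by
  intro hfin
  apply hY
  refine (hfin.union (Set.finite_Iic a)).subset ?_
  intro x hx
  by_cases h : a < x
  · exact Or.inl ⟨hx, h⟩
  · exact Or.inr (not_lt.mp h)

theorem fusion (D : ℕ → Set ℕ → Prop)
    (hher : ∀ n X Y, Y ⊆ X → Y.Infinite → D n X → D n Y)
    (hden : ∀ n X, X.Infinite → ∃ Y ⊆ X, Y.Infinite ∧ D n Y)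
    (X : Set ℕ) (hX : X.Infinite) :
    ∃ Z ⊆ X, Z.Infinite ∧ ∀ a ∈ Z, D a {z ∈ Z | a < z} := by
  classical
  -- states
  let S := {p : ℕ × Set ℕ // p.2.Infinite ∧ p.2 ⊆ X ∧ p.1 ∈ X ∧ D p.1 p.2 ∧ ∀ z ∈ p.2, p.1 < z}
  have key : ∀ Y : Set ℕ, Y.Infinite → Y ⊆ X → ∃ s : S, s.1.1 ∈ Y ∧ s.1.2 ⊆ Y := by
    intro Y hY hYX
    obtain ⟨a, ha⟩ := hY.nonempty
    obtain ⟨Z, hZ, hZi, hD⟩ := hden a _ (inf_gt hY a)
    refine ⟨⟨(a, Z), hZi, fun z hz => hYX (hZ hz).1, hYX ha, hD, fun z hz => (hZ hz).2⟩, ha,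
      fun z hz => (hZ hz).1⟩
  have step : ∀ s : S, ∃ t : S, t.1.1 ∈ s.1.2 ∧ t.1.2 ⊆ s.1.2 := fun s => key _ s.2.1 s.2.2.1
  choose nx hnx1 hnx2 using step
  obtain ⟨s0, -, -⟩ := key X hX subset_rfl
  let sq : ℕ → S := fun n => Nat.rec s0 (fun _ s => nx s) n
  have hsq : ∀ n, sq (n + 1) = nx (sq n) := fun n => rfl
  have hsub : ∀ n m, (sq (n + m)).1.2 ⊆ (sq n).1.2 := by
    intro n m
    induction m with
    | zero => exact subset_rfl
    | succ m ih =>
        have : sq (n + (m + 1)) = nx (sq (n + m)) := hsq (n + m)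
        rw [this]
        exact (hnx2 _).trans ih
  have hmem : ∀ n m, n < m → (sq m).1.1 ∈ (sq n).1.2 := by
    intro n m hnm
    obtain ⟨k, rfl⟩ := Nat.exists_eq_add_of_lt hnm
    have : sq (n + k + 1) = nx (sq (n + k)) := hsq (n + k)
    rw [this]
    exact hsub n k (hnx1 _)
  have hlt : ∀ n m, n < m → (sq n).1.1 < (sq m).1.1 := fun n m hnm =>
    (sq n).2.2.2.2.2 _ (hmem n m hnm)
  have hmono : StrictMono (fun n => (sq n).1.1) := fun n m hnm => hlt n m hnm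
  have hinf : (Set.range (fun n => (sq n).1.1)).Infinite :=
    Set.infinite_range_of_injective hmono.injective
  refine ⟨Set.range (fun n => (sq n).1.1), ?_, hinf, ?_⟩
  · rintro _ ⟨n, rfl⟩
    exact (sq n).2.2.2.1
  · rintro _ ⟨n, rfl⟩
    refine hher _ (sq n).1.2 _ ?_ (inf_gt hinf _) (sq n).2.2.2.2.1
    rintro _ ⟨⟨m, rfl⟩, hm⟩
    exact hmem n m (hmono.lt_iff_lt.mp hm)

theorem dense_all {ι : Type} [DecidableEq ι] (D : ι → Set ℕ → Prop)
    (hher : ∀ i X Y, Y ⊆ X → Y.Infinite → D i X → D i Y)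
    (hden : ∀ i X, X.Infinite → ∃ Y ⊆ X, Y.Infinite ∧ D i Y)
    (s : Finset ι) (X : Set ℕ) (hX : X.Infinite) :
    ∃ Y ⊆ X, Y.Infinite ∧ ∀ i ∈ s, D i Y := by
  induction s using Finset.induction_on with
  | empty => exact ⟨X, subset_rfl, hX, fun i hi => absurd hi (Finset.notMem_empty i)⟩
  | insert j s hj ih =>
      obtain ⟨Y, hYX, hY, hD⟩ := ih
      obtain ⟨Z, hZY, hZ, hDZ⟩ := hden j Y hY
      refine ⟨Z, hZY.trans hYX, hZ, fun i hi => ?_⟩
      rcases Finset.mem_insert.mp hi with rfl | h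
      · exact hDZ
      · exact hher i Y Z hZY hZ (hD i h)

/-- Openness of a property of sets of naturals. -/
def OpenProp (P : Set ℕ → Prop) : Prop :=
  ∀ H, P H → ∃ u, ∀ H' : Set ℕ, (∀ x < u, x ∈ H' ↔ x ∈ H) → P H'

/-- Ramsey theorem for open sets, relative to a stem. -/
theorem open_ramsey (P : Set ℕ → Prop) (hP : OpenProp P) (σ : Finset ℕ) (b : ℕ)
    (hσ : ∀ x ∈ σ, x < b) (X : Set ℕ) (hX : X.Infinite) :
    ∃ Y ⊆ X, Y.Infinite ∧ ((∀ H ∈ Box σ b Y, P H) ∨ (∀ H ∈ Box σ b Y, ¬ P H)) := by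
  classical
  let acc : Finset ℕ → ℕ → Set ℕ → Prop := fun τ d Y => ∀ H ∈ Box τ d Y, P H
  let rej : Finset ℕ → ℕ → Set ℕ → Prop := fun τ d Y => ∀ Z ⊆ Y, Z.Infinite → ¬ acc τ d Z
  have acc_her : ∀ τ d (Y Z : Set ℕ), Z ⊆ Y → acc τ d Y → acc τ d Z := by
    intro τ d Y Z hZ h H hH
    exact h H (Box.mono (fun x hx _ => hZ hx) hH)
  have rej_her : ∀ τ d (Y Z : Set ℕ), Z ⊆ Y → rej τ d Y → rej τ d Z := by
    intro τ d Y Z hZ h U hU
    exact h U (hU.trans hZ)
  have dec : ∀ τ d (Y : Set ℕ), Y.Infinite → ∃ Z ⊆ Y, Z.Infinite ∧ (acc τ d Z ∨ rej τ d Z) := by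
    intro τ d Y hY
    by_cases h : ∃ Z ⊆ Y, Z.Infinite ∧ acc τ d Z
    · obtain ⟨Z, h1, h2, h3⟩ := h
      exact ⟨Z, h1, h2, Or.inl h3⟩
    · push Not at h
      exact ⟨Y, subset_rfl, hY, Or.inr h⟩
  -- rejection persists to larger bounds
  have rej_up : ∀ τ d d' (Y : Set ℕ), (∀ x ∈ τ, x < d) → d ≤ d' → rej τ d Y → rej τ d' Y := by
    intro τ d d' Y hτ hdd h Z hZ hZi hacc
    refine h {z ∈ Z | d' < z} (fun z hz => hZ hz.1) (inf_gt hZi d') ?_
    rintro H ⟨h1, h2, h3⟩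
    refine hacc H ⟨h1, ?_, ?_⟩
    · intro x hx
      by_cases hxd : x < d
      · exact h2 x hxd
      · constructor
        · intro hxH
          exact absurd (h3 x hxH (not_lt.mp hxd)).2 (by omega)
        · intro hxt
          exact absurd (hτ x hxt) hxd
    · intro x hx hxd
      exact (h3 x hx (hdd.trans hxd)).1
  obtain ⟨X1, hX1X, hX1, h1⟩ := dec σ b X hX
  rcases h1 with h1 | h1
  · exact ⟨X1, hX1X, hX1, Or.inl h1⟩
  -- fusion: decide everything
  obtain ⟨Z0, hZ0X, hZ0, hdec⟩ := fusion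
    (fun a Y => ∀ τ ∈ (Finset.range (a + 1)).powerset, acc τ (a + 1) Y ∨ rej τ (a + 1) Y)
    (by
      intro n Y Z hZY _ h τ hτ
      rcases h τ hτ with h | h
      · exact Or.inl (acc_her _ _ _ _ hZY h)
      · exact Or.inr (rej_her _ _ _ _ hZY h))
    (by
      intro n Y hY
      refine dense_all (fun τ Y => acc τ (n + 1) Y ∨ rej τ (n + 1) Y) ?_ ?_ _ Y hY
      · intro τ Y Z hZY _ h
        rcases h with h | h
        · exact Or.inl (acc_her _ _ _ _ hZY h)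
        · exact Or.inr (rej_her _ _ _ _ hZY h)
      · intro τ Y hY
        exact dec τ (n + 1) Y hY)
    X1 hX1
  have hdec' : ∀ a ∈ Z0, ∀ τ : Finset ℕ, (∀ x ∈ τ, x < a + 1) →
      acc τ (a + 1) Z0 ∨ rej τ (a + 1) Z0 := by
    intro a ha τ hτ
    rcases hdec a ha τ (Finset.mem_powerset.mpr fun x hx => Finset.mem_range.mpr (hτ x hx))
      with h | h
    · left
      intro H hH
      have hsub : ∀ x ∈ Z0, a + 1 ≤ x → x ∈ {z ∈ Z0 | a < z} := fun x hx hax => ⟨hx, hax⟩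
      exact h H (Box.mono hsub hH)
    · right
      intro U hU hUi hacc
      have hsub : {z ∈ U | a < z} ⊆ {z ∈ Z0 | a < z} := fun z hz => ⟨hU hz.1, hz.2⟩
      exact h {z ∈ U | a < z} hsub (inf_gt hUi a) (acc_her _ _ U _ (fun z hz => hz.1) hacc)
  have hrej0 : rej σ b Z0 := rej_her _ _ _ _ hZ0X h1
  -- rejection passes to almost all one-point extensions
  have ext : ∀ τ d, (∀ x ∈ τ, x < d) → rej τ d Z0 →
      ∃ k, ∀ n ∈ Z0, k ≤ n → rej (insert n τ) (n + 1) Z0 := by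
    intro τ d hτ hrej
    by_contra hcon
    push Not at hcon
    let A : Set ℕ := {n ∈ Z0 | d ≤ n ∧ acc (insert n τ) (n + 1) Z0}
    have hAinf : A.Infinite := by
      refine Set.infinite_of_not_bddAbove ?_
      rintro ⟨a, ha⟩
      obtain ⟨n, hn, hkn, hnr⟩ := hcon (max (a + 1) d)
      refine absurd (ha (a := n) ⟨hn, le_trans (le_max_right _ _) hkn, ?_⟩)
        (not_le.mpr (lt_of_lt_of_le (Nat.lt_succ_self a) (le_trans (le_max_left _ _) hkn)))
      rcases hdec' n hn (insert n τ) (by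
        intro x hx
        rcases Finset.mem_insert.mp hx with rfl | hx
        · exact Nat.lt_succ_self _
        · exact Nat.lt_succ_of_lt (lt_of_lt_of_le (hτ x hx)
            (le_trans (le_max_right _ _) hkn))) with h | h
      · exact h
      · exact absurd h hnr
    refine hrej A (fun n hn => hn.1) hAinf ?_
    rintro H ⟨hH1, hH2, hH3⟩
    -- least element of `H` from `d` on
    have hne : {x ∈ H | d ≤ x}.Nonempty := by
      obtain ⟨x, hx, hdx⟩ := (inf_gt hH1 d).nonempty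
      exact ⟨x, hx, hdx.le⟩
    let n := sInf {x ∈ H | d ≤ x}
    have hn : n ∈ {x ∈ H | d ≤ x} := Nat.sInf_mem hne
    have hmin : ∀ x ∈ H, d ≤ x → n ≤ x := fun x hx hdx => Nat.sInf_le ⟨hx, hdx⟩
    have hnA : n ∈ A := hH3 n hn.1 hn.2
    refine hnA.2.2 H ⟨hH1, ?_, ?_⟩
    · intro x hx
      rw [Finset.mem_insert]
      constructor
      · intro hxH
        by_cases hxd : x < d
        · exact Or.inr ((hH2 x hxd).mp hxH)
        · left
          exact le_antisymm (Nat.lt_succ_iff.mp hx) (hmin x hxH (not_lt.mp hxd))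
      · rintro (rfl | hxt)
        · exact hn.1
        · exact (hH2 x (hτ x hxt)).mpr hxt
    · intro x hx hxn
      exact (hH3 x hx (by have := hn.2; omega)).1
  -- thinning by a second fusion
  obtain ⟨k0, hk0⟩ := ext σ b hσ hrej0
  have hZ0' : {z ∈ Z0 | max k0 b < z}.Infinite := inf_gt hZ0 _
  obtain ⟨Z1, hZ1Z0, hZ1, hthin⟩ := fusion
    (fun a Y => ∀ τ ∈ (Finset.range (a + 1)).powerset, (∀ x ∈ τ, x < a + 1) →
      rej τ (a + 1) Z0 → ∀ n ∈ Y, n ∈ Z0 → rej (insert n τ) (n + 1) Z0)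
    (fun n Y Z hZY _ h τ hτ hτ' hr m hm => h τ hτ hτ' hr m (hZY hm))
    (by
      intro a Y hY
      refine dense_all (fun τ Y => (∀ x ∈ τ, x < a + 1) → rej τ (a + 1) Z0 →
        ∀ n ∈ Y, n ∈ Z0 → rej (insert n τ) (n + 1) Z0) ?_ ?_ _ Y hY
      · intro τ Y Z hZY _ h hτ hr n hn
        exact h hτ hr n (hZY hn)
      · intro τ Y hY
        by_cases hτ : (∀ x ∈ τ, x < a + 1) ∧ rej τ (a + 1) Z0
        · obtain ⟨k, hk⟩ := ext τ (a + 1) hτ.1 hτ.2
          exact ⟨{y ∈ Y | k < y}, fun y hy => hy.1, inf_gt hY k,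
            fun _ _ n hn hnZ => hk n hnZ hn.2.le⟩
        · exact ⟨Y, subset_rfl, hY, fun h1 h2 => absurd ⟨h1, h2⟩ hτ⟩)
    _ hZ0'
  have hall : ∀ ρ : Finset ℕ, (∀ x ∈ ρ, x ∈ Z1) → ∀ d, b ≤ d → (∀ x ∈ ρ, x < d) →
      rej (σ ∪ ρ) d Z0 := by
    intro ρ
    induction ρ using Finset.induction_on_max with
    | empty =>
        intro _ d hbd _
        rw [Finset.union_empty]
        exact rej_up _ _ _ _ hσ hbd hrej0
    | insert n ρ hmax ih =>
        intro hρ d hbd hd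
        have hnZ1 : n ∈ Z1 := hρ n (Finset.mem_insert_self _ _)
        have hn0 := hZ1Z0 hnZ1
        have hk0n : k0 ≤ n := le_trans (le_max_left _ _) (le_of_lt hn0.2)
        have hbn : b ≤ n := le_trans (le_max_right _ _) (le_of_lt hn0.2)
        have hnd : n < d := hd n (Finset.mem_insert_self _ _)
        rw [Finset.union_insert]
        refine rej_up _ (n + 1) d _ ?_ hnd ?_
        · intro x hx
          rcases Finset.mem_insert.mp hx with rfl | hx
          · exact Nat.lt_succ_self _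
          · rcases Finset.mem_union.mp hx with hx | hx
            · exact Nat.lt_succ_of_lt (lt_of_lt_of_le (hσ x hx) hbn)
            · exact Nat.lt_succ_of_lt (hmax x hx)
        · rcases ρ.eq_empty_or_nonempty with rfl | hne
          · rw [Finset.union_empty]
            exact hk0 n hn0.1 hk0n
          · -- the largest element of `ρ`
            have hm := Finset.max'_mem ρ hne
            have hmZ1 : ρ.max' hne ∈ Z1 := hρ _ (Finset.mem_insert_of_mem hm)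
            have hbm : b ≤ ρ.max' hne :=
              le_trans (le_max_right _ _) (le_of_lt (hZ1Z0 hmZ1).2)
            have hlt : ∀ x ∈ σ ∪ ρ, x < ρ.max' hne + 1 := by
              intro x hx
              rcases Finset.mem_union.mp hx with hx | hx
              · exact Nat.lt_succ_of_lt (lt_of_lt_of_le (hσ x hx) hbm)
              · exact Nat.lt_succ_of_le (Finset.le_max' _ _ hx)
            refine hthin _ hmZ1 (σ ∪ ρ) ?_ hlt ?_ n ⟨hnZ1, hmax _ hm⟩ hn0.1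
            · exact Finset.mem_powerset.mpr fun x hx => Finset.mem_range.mpr (hlt x hx)
            · refine ih (fun x hx => hρ x (Finset.mem_insert_of_mem hx)) _ (by omega) ?_
              intro x hx
              exact hlt x (Finset.mem_union_right _ hx)
  refine ⟨Z1, fun z hz => hX1X (hZ0X (hZ1Z0 hz).1), hZ1, Or.inr ?_⟩
  rintro H ⟨hH1, hH2, hH3⟩ hPH
  obtain ⟨u, hu⟩ := hP H hPH
  -- the stem of `H` below `max u b`
  let ρ : Finset ℕ := (Finset.range (max u b)).filter (fun x => x ∈ H ∧ b ≤ x)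
  have hρ : ∀ x, x ∈ ρ ↔ x < max u b ∧ x ∈ H ∧ b ≤ x := by
    intro x
    simp only [ρ, Finset.mem_filter, Finset.mem_range]
  refine hall ρ (fun x hx => hH3 x ((hρ x).mp hx).2.1 ((hρ x).mp hx).2.2) (max u b)
    (le_max_right _ _) (fun x hx => ((hρ x).mp hx).1) Z0 subset_rfl hZ0 ?_
  rintro H' ⟨h1, h2, h3⟩
  refine hu H' fun x hx => ?_
  rw [h2 x (lt_of_lt_of_le hx (le_max_left _ _)), Finset.mem_union, hρ]
  by_cases hxb : x < b
  · rw [hH2 x hxb]
    constructor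
    · rintro (h | h)
      · exact h
      · exact absurd h.2.2 (not_le.mpr hxb)
    · exact Or.inl
  · constructor
    · rintro (h | h)
      · exact absurd (hσ x h) hxb
      · exact h.2.1
    · intro h
      exact Or.inr ⟨lt_of_lt_of_le hx (le_max_left _ _), h, not_lt.mp hxb⟩

/-- Ramsey theorem for pairs and two colours. -/
theorem pair_ramsey (c : ℕ → ℕ → Prop) (X : Set ℕ) (hX : X.Infinite) :
    ∃ Y ⊆ X, Y.Infinite ∧ ((∀ x ∈ Y, ∀ y ∈ Y, x < y → c x y) ∨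
      (∀ x ∈ Y, ∀ y ∈ Y, x < y → ¬ c x y)) := by
  classical
  obtain ⟨Z, hZX, hZ, h⟩ := fusion
    (fun a Y => (∀ y ∈ Y, c a y) ∨ (∀ y ∈ Y, ¬ c a y))
    (by
      intro n Y Z hZY _ h
      rcases h with h | h
      · exact Or.inl fun y hy => h y (hZY hy)
      · exact Or.inr fun y hy => h y (hZY hy))
    (by
      intro n Y hY
      by_cases h : {y ∈ Y | c n y}.Infinite
      · exact ⟨_, fun y hy => hy.1, h, Or.inl fun y hy => hy.2⟩
      · refine ⟨{y ∈ Y | ¬ c n y}, fun y hy => hy.1, ?_, Or.inr fun y hy => hy.2⟩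
        intro hfin
        apply hY
        refine ((Set.not_infinite.mp h).union hfin).subset ?_
        intro y hy
        by_cases hc : c n y
        · exact Or.inl ⟨hy, hc⟩
        · exact Or.inr ⟨hy, hc⟩)
    X hX
  by_cases h1 : {a ∈ Z | ∀ y ∈ {z ∈ Z | a < z}, c a y}.Infinite
  · refine ⟨_, fun a ha => hZX ha.1, h1, Or.inl ?_⟩
    intro x hx y hy hxy
    exact hx.2 y ⟨hy.1, hxy⟩
  · refine ⟨{a ∈ Z | ∀ y ∈ {z ∈ Z | a < z}, ¬ c a y}, fun a ha => hZX ha.1, ?_, Or.inr ?_⟩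
    · intro hfin
      apply hZ
      refine ((Set.not_infinite.mp h1).union hfin).subset ?_
      intro a ha
      rcases h a ha with h | h
      · exact Or.inl ⟨ha, h⟩
      · exact Or.inr ⟨ha, h⟩
    · intro x hx y hy hxy
      exact hx.2 y ⟨hy.1, hxy⟩

/-- Enumeration operators are open. -/
def OpenOp (W : Set ℕ → Set ℕ) : Prop :=
  ∀ H n, n ∈ W H → ∃ u, ∀ H' : Set ℕ, (∀ x < u, x ∈ H' ↔ x ∈ H) → n ∈ W H'

theorem OpenOp.exists {W : Set ℕ → Set ℕ} (hW : OpenOp W) (T : ℕ → Prop) :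
    OpenProp (fun H => ∃ n, T n ∧ n ∈ W H) := by
  rintro H ⟨n, hT, hn⟩
  obtain ⟨u, hu⟩ := hW H n hn
  exact ⟨u, fun H' hH' => ⟨n, hT, hu H' hH'⟩⟩

/-- Uniform decision for pairs `x < y` of elements of a set. -/
def Unif (W : Set ℕ → Set ℕ) (σ : Finset ℕ) (X : Set ℕ) : Prop :=
  (∀ x ∈ X, ∀ y ∈ X, x < y → ∀ H ∈ Box σ (y + 1) X, ∃ n, (x ≤ n ∧ n < y) ∧ n ∈ W H) ∨
  (∀ x ∈ X, ∀ y ∈ X, x < y → ∀ H ∈ Box σ (y + 1) X, ¬ ∃ n, (x ≤ n ∧ n < y) ∧ n ∈ W H)

theorem Unif.her {W : Set ℕ → Set ℕ} {σ : Finset ℕ} {X Y : Set ℕ} (hYX : Y ⊆ X)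
    (h : Unif W σ X) : Unif W σ Y := by
  rcases h with h | h
  · exact Or.inl fun x hx y hy hxy H hH =>
      h x (hYX hx) y (hYX hy) hxy H (Box.mono (fun z hz _ => hYX hz) hH)
  · exact Or.inr fun x hx y hy hxy H hH =>
      h x (hYX hx) y (hYX hy) hxy H (Box.mono (fun z hz _ => hYX hz) hH)

theorem Unif.dense {W : Set ℕ → Set ℕ} (hW : OpenOp W) (σ : Finset ℕ) (a : ℕ)
    (hσ : ∀ x ∈ σ, x < a) (X : Set ℕ) (hX : X.Infinite) :
    ∃ Y ⊆ X, Y.Infinite ∧ Unif W σ Y := by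
  classical
  obtain ⟨Z, hZX, hZ, hdec⟩ := fusion
    (fun y Y => ∀ x ∈ Finset.range y, a ≤ y →
      ((∀ H ∈ Box σ (y + 1) Y, ∃ n, (x ≤ n ∧ n < y) ∧ n ∈ W H) ∨
      (∀ H ∈ Box σ (y + 1) Y, ¬ ∃ n, (x ≤ n ∧ n < y) ∧ n ∈ W H)))
    (by
      intro y Y Z hZY _ h x hx hay
      rcases h x hx hay with h | h
      · exact Or.inl fun H hH => h H (Box.mono (fun z hz _ => hZY hz) hH)
      · exact Or.inr fun H hH => h H (Box.mono (fun z hz _ => hZY hz) hH))
    (by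
      intro y Y hY
      refine dense_all (fun x Y => a ≤ y →
        ((∀ H ∈ Box σ (y + 1) Y, ∃ n, (x ≤ n ∧ n < y) ∧ n ∈ W H) ∨
        (∀ H ∈ Box σ (y + 1) Y, ¬ ∃ n, (x ≤ n ∧ n < y) ∧ n ∈ W H))) ?_ ?_ _ Y hY
      · intro x Y Z hZY _ h hay
        rcases h hay with h | h
        · exact Or.inl fun H hH => h H (Box.mono (fun z hz _ => hZY hz) hH)
        · exact Or.inr fun H hH => h H (Box.mono (fun z hz _ => hZY hz) hH)
      · intro x Y hY
        by_cases hay : a ≤ y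
        · obtain ⟨Z, h1, h2, h3⟩ := open_ramsey _ (hW.exists fun n => x ≤ n ∧ n < y) σ (y + 1)
            (fun x hx => by have := hσ x hx; omega) Y hY
          exact ⟨Z, h1, h2, fun _ => h3⟩
        · exact ⟨Y, subset_rfl, hY, fun h => absurd h hay⟩)
    {x ∈ X | a < x} (inf_gt hX a)
  have hdec' : ∀ y ∈ Z, ∀ x, x < y →
      ((∀ H ∈ Box σ (y + 1) Z, ∃ n, (x ≤ n ∧ n < y) ∧ n ∈ W H) ∨
      (∀ H ∈ Box σ (y + 1) Z, ¬ ∃ n, (x ≤ n ∧ n < y) ∧ n ∈ W H)) := by
    intro y hy x hxy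
    have hsub : ∀ z ∈ Z, y + 1 ≤ z → z ∈ {z ∈ Z | y < z} := fun z hz hyz => ⟨hz, hyz⟩
    rcases hdec y hy x (Finset.mem_range.mpr hxy) (hZX hy).2.le with h | h
    · exact Or.inl fun H hH => h H (Box.mono hsub hH)
    · exact Or.inr fun H hH => h H (Box.mono hsub hH)
  obtain ⟨Y, hYZ, hY, hc⟩ := pair_ramsey
    (fun x y => ∀ H ∈ Box σ (y + 1) Z, ∃ n, (x ≤ n ∧ n < y) ∧ n ∈ W H) Z hZ
  refine ⟨Y, fun y hy => (hZX (hYZ hy)).1, hY, ?_⟩
  rcases hc with hc | hc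
  · exact Or.inl fun x hx y hy hxy H hH =>
      hc x hx y hy hxy H (Box.mono (fun z hz _ => hYZ hz) hH)
  · refine Or.inr fun x hx y hy hxy H hH => ?_
    rcases hdec' y (hYZ hy) x hxy with h | h
    · exact absurd h (hc x hx y hy hxy)
    · exact h H (Box.mono (fun z hz _ => hYZ hz) hH)

/-- Decision of `W H` having an element `≥ m`. -/
def Dec (W : Set ℕ → Set ℕ) (σ : Finset ℕ) (a m : ℕ) (X : Set ℕ) : Prop :=
  (∀ H ∈ Box σ (a + 1) X, ∃ n, m ≤ n ∧ n ∈ W H) ∨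
  (∀ H ∈ Box σ (a + 1) X, ¬ ∃ n, m ≤ n ∧ n ∈ W H)

theorem Dec.her {W : Set ℕ → Set ℕ} {σ : Finset ℕ} {a m : ℕ} {X Y : Set ℕ} 
    (hYX : ∀ y ∈ Y, a + 1 ≤ y → y ∈ X)
    (h : Dec W σ a m X) : Dec W σ a m Y := by
  rcases h with h | h
  · exact Or.inl fun H hH => h H (Box.mono hYX hH)
  · exact Or.inr fun H hH => h H (Box.mono hYX hH)

/-- The generic set. -/
theorem exists_generic (W : ℕ → Set ℕ → Set ℕ) (hW : ∀ e, OpenOp (W e)) :
    ∃ G : Set ℕ, G.Infinite ∧ ∀ a ∈ G, ∀ e ≤ a, ∀ σ : Finset ℕ, (∀ x ∈ σ, x < a + 1) →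
      (∀ m ≤ a, Dec (W e) σ a m G) ∧ Unif (W e) σ {z ∈ G | a < z} := by
  classical
  obtain ⟨G, -, hG, h⟩ := fusion
    (fun a Y => ∀ i : ℕ × ℕ × Finset ℕ, i ∈ (Finset.range (a + 1) ×ˢ Finset.range (a + 1) ×ˢ
        (Finset.range (a + 1)).powerset) → (∀ x ∈ i.2.2, x < a + 1) →
        Dec (W i.1) i.2.2 a i.2.1 Y ∧ Unif (W i.1) i.2.2 Y)
    (by
      intro a Y Z hZY _ h i hi hi'
      exact ⟨(h i hi hi').1.her fun z hz _ => hZY hz, (h i hi hi').2.her hZY⟩)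
    (by
      intro a Y hY
      refine dense_all (fun (i : ℕ × ℕ × Finset ℕ) Y => (∀ x ∈ i.2.2, x < a + 1) →
        Dec (W i.1) i.2.2 a i.2.1 Y ∧ Unif (W i.1) i.2.2 Y) ?_ ?_ _ Y hY
      · intro i Y Z hZY _ h hi'
        exact ⟨(h hi').1.her fun z hz _ => hZY hz, (h hi').2.her hZY⟩
      · intro i Y hY
        by_cases hi : ∀ x ∈ i.2.2, x < a + 1
        · obtain ⟨Z1, h1, h2, h3⟩ := open_ramsey _ ((hW i.1).exists fun n => i.2.1 ≤ n) i.2.2
            (a + 1) hi Y hY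
          obtain ⟨Z2, h4, h5, h6⟩ := Unif.dense (hW i.1) i.2.2 (a + 1) hi Z1 h2
          exact ⟨Z2, h4.trans h1, h5, fun _ => ⟨Dec.her (fun z hz _ => h4 hz) h3, h6⟩⟩
        · exact ⟨Y, subset_rfl, hY, fun h => absurd h hi⟩)
    Set.univ Set.infinite_univ
  refine ⟨G, hG, fun a ha e he σ hσ => ?_⟩
  have hσ' : σ ∈ (Finset.range (a + 1)).powerset :=
    Finset.mem_powerset.mpr fun x hx => Finset.mem_range.mpr (hσ x hx)
  have key : ∀ m ≤ a, Dec (W e) σ a m {z ∈ G | a < z} ∧ Unif (W e) σ {z ∈ G | a < z} := by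
    intro m hm
    refine h a ha (e, m, σ) ?_ hσ
    simp only [Finset.mem_product, Finset.mem_range]
    exact ⟨by omega, by omega, hσ'⟩
  have hsub : ∀ z ∈ G, a + 1 ≤ z → z ∈ {z ∈ G | a < z} := fun z hz haz => ⟨hz, haz⟩
  exact ⟨fun m hm => (key m hm).1.her hsub, (key 0 (Nat.zero_le _)).2⟩

/-- Union of an increasing chain of finite stems meeting a list of tasks. -/
theorem seq_union {S : Type} (σ : S → Finset ℕ) (b : S → ℕ) (hσ : ∀ s, ∀ x ∈ σ s, x < b s)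
    (R : ℕ → S → Prop)
    (step : ∀ n s, ∃ s', b s ≤ b s' ∧ (∀ x < b s, x ∈ σ s' ↔ x ∈ σ s) ∧
      (∃ x ∈ σ s', b s ≤ x) ∧ R n s')
    (s₀ : S) : ∃ H : Set ℕ, H.Infinite ∧ (∀ x < b s₀, x ∈ H ↔ x ∈ σ s₀) ∧
      (∀ n, ∃ s, n ≤ b s ∧ R n s ∧ ∀ x < b s, x ∈ H ↔ x ∈ σ s) := by
  choose nx h1 h2 h3 h4 using step
  let sq : ℕ → S := fun n => Nat.rec s₀ (fun n s => nx n s) n
  have hsq : ∀ n, sq (n + 1) = nx n (sq n) := fun n => rfl
  have hb : ∀ n m, b (sq n) ≤ b (sq (n + m)) := by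
    intro n m
    induction m with
    | zero => exact le_rfl
    | succ m ih =>
        have : sq (n + (m + 1)) = nx (n + m) (sq (n + m)) := hsq (n + m)
        rw [this]
        exact ih.trans (h1 _ _)
  have hagree : ∀ n m, ∀ x < b (sq n), x ∈ σ (sq (n + m)) ↔ x ∈ σ (sq n) := by
    intro n m
    induction m with
    | zero => exact fun x _ => Iff.rfl
    | succ m ih =>
        intro x hx
        have : sq (n + (m + 1)) = nx (n + m) (sq (n + m)) := hsq (n + m)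
        rw [this, h2 _ _ x (lt_of_lt_of_le hx (hb n m))]
        exact ih x hx
  have hlt : ∀ n, b (sq n) < b (sq (n + 1)) := by
    intro n
    obtain ⟨x, hx, hbx⟩ := h3 n (sq n)
    rw [hsq]
    exact lt_of_le_of_lt hbx (hσ _ x hx)
  have hgrow : ∀ n, n ≤ b (sq n) := by
    intro n
    induction n with
    | zero => exact Nat.zero_le _
    | succ n ih => exact Nat.succ_le_of_lt (lt_of_le_of_lt ih (hlt n))
  have hH : ∀ n, ∀ x < b (sq n), x ∈ {x | ∃ n, x ∈ σ (sq n)} ↔ x ∈ σ (sq n) := by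
    intro n x hx
    constructor
    · rintro ⟨m, hm⟩
      rcases le_total n m with h | h
      · obtain ⟨k, rfl⟩ := Nat.exists_eq_add_of_le h
        exact (hagree n k x hx).mp hm
      · obtain ⟨k, rfl⟩ := Nat.exists_eq_add_of_le h
        exact (hagree m k x (hσ _ x hm)).mpr hm
    · exact fun h => ⟨n, h⟩
  refine ⟨{x | ∃ n, x ∈ σ (sq n)}, ?_, hH 0, ?_⟩
  · refine Set.infinite_of_not_bddAbove ?_
    rintro ⟨a, ha⟩
    obtain ⟨x, hx, hbx⟩ := h3 (a + 1) (sq (a + 1))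
    have hxm : x ∈ {x | ∃ n, x ∈ σ (sq n)} := ⟨a + 1 + 1, by rw [hsq]; exact hx⟩
    have := ha hxm
    have := hgrow (a + 1)
    omega
  · intro n
    refine ⟨sq (n + 1), (hgrow n).trans (hlt n).le, ?_, hH (n + 1)⟩
    rw [hsq]
    exact h4 n (sq n)

/-- The label of a block. -/
def lab (t : ℕ) : ℕ × ℕ := Nat.unpair (Nat.unpair t).1

/-- The label of a number, relative to an increasing enumeration. -/
def Lab (γ : ℕ → ℕ) (n : ℕ) : ℕ × ℕ := lab (Nat.findGreatest (fun i => γ i ≤ n) n / 2)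

/-- The level of disagreement of two labels. -/
def dis (u v : ℕ × ℕ) : Fin 3 := if u = v then 0 else if u.1 = v.1 then 1 else 2

theorem find_eq {γ : ℕ → ℕ} (hγ : StrictMono γ) {i n : ℕ} (h1 : γ i ≤ n) (h2 : n < γ (i + 1)) :
    Nat.findGreatest (fun i => γ i ≤ n) n = i := by
  rw [Nat.findGreatest_eq_iff]
  refine ⟨(hγ.id_le i).trans h1, fun _ => h1, fun k hk _ hkn => ?_⟩
  have := hγ.monotone (show i + 1 ≤ k from hk)
  omega

theorem find_spec {γ : ℕ → ℕ} (hγ : StrictMono γ) {n : ℕ} (h0 : γ 0 ≤ n) :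
    γ (Nat.findGreatest (fun i => γ i ≤ n) n) ≤ n ∧
      n < γ (Nat.findGreatest (fun i => γ i ≤ n) n + 1) := by
  have h1 := Nat.findGreatest_spec (P := fun i => γ i ≤ n) (Nat.zero_le n) h0
  refine ⟨h1, ?_⟩
  by_contra hcon
  have h2 := not_lt.mp hcon
  have h3 := Nat.le_findGreatest (P := fun i => γ i ≤ n)
    (m := Nat.findGreatest (fun i => γ i ≤ n) n + 1) ((hγ.id_le _).trans h2) h2
  omega

theorem Lab_block {γ : ℕ → ℕ} (hγ : StrictMono γ) {t n : ℕ} (h1 : γ (2 * t) ≤ n)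
    (h2 : n < γ (2 * t + 2)) : Lab γ n = lab t := by
  unfold Lab
  rcases lt_or_ge n (γ (2 * t + 1)) with h | h
  · rw [find_eq hγ h1 h]
    congr 1
    omega
  · rw [find_eq hγ h h2]
    congr 1
    omega

theorem exists_lab (v : ℕ × ℕ) (K : ℕ) : ∃ t, K ≤ t ∧ lab t = v := by
  refine ⟨Nat.pair (Nat.pair v.1 v.2) K, Nat.right_le_pair _ _, ?_⟩
  simp [lab]

section TwoLevel

variable {ι : Type} (γ : ℕ → ℕ) (ρ : ℕ → ℕ → Prop) (p : ι → Filter ℕ) (P : Filter ℕ)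

/-- Valid states. -/
def Val (σ : Finset ℕ) (b : ℕ) (i : ι) : Prop :=
  (∀ x ∈ σ, x < b ∧ ∃ t, x = γ (2 * t + 1)) ∧ (∀ x ∈ σ, ∀ y ∈ σ, x < y → ρ x y) ∧
  (∀ x ∈ σ, ∀ᶠ y in p i, ρ x y) ∧ (∀ x ∈ σ, ∀ᶠ y in P, ρ x y) ∧
  (∀ᶠ x in p i, (∀ᶠ y in p i, ρ x y) ∧ (∀ᶠ y in P, ρ x y))

variable {γ ρ p P}

theorem Val.sub {σ τ : Finset ℕ} {b d : ℕ} {i : ι} (h : Val γ ρ p P σ b i)
    (hτ : ∀ x ∈ τ, x ∈ σ ∧ x < d) : Val γ ρ p P τ d i :=
  ⟨fun x hx => ⟨(hτ x hx).2, (h.1 x (hτ x hx).1).2⟩,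
   fun x hx y hy => h.2.1 x (hτ x hx).1 y (hτ y hy).1,
   fun x hx => h.2.2.1 x (hτ x hx).1, fun x hx => h.2.2.2.1 x (hτ x hx).1, h.2.2.2.2⟩

theorem Val.stay [∀ i, (p i).NeBot] (hp : ∀ i b, ∀ᶠ x in p i, b ≤ x ∧ ∃ t, x = γ (2 * t + 1))
    {σ : Finset ℕ} {b : ℕ} {i : ι} (h : Val γ ρ p P σ b i) {T : ℕ → Prop}
    (hT : ∀ᶠ x in p i, T x) :
    ∃ x, b ≤ x ∧ T x ∧ Val γ ρ p P (insert x σ) (x + 1) i := by
  have h1 : ∀ᶠ x in p i, ∀ y ∈ σ, ρ y x :=
    (Filter.eventually_all_finset σ).mpr fun y hy => h.2.2.1 y hy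
  obtain ⟨x, ⟨⟨⟨hbx, ht⟩, hTx⟩, hy⟩, hx1, hx2⟩ :=
    ((((hp i b).and hT).and h1).and h.2.2.2.2).exists
  refine ⟨x, hbx, hTx, ?_, ?_, ?_, ?_, h.2.2.2.2⟩
  · intro z hz
    rcases Finset.mem_insert.mp hz with rfl | hz
    · exact ⟨Nat.lt_succ_self _, ht⟩
    · exact ⟨by have := (h.1 z hz).1; omega, (h.1 z hz).2⟩
  · intro z hz w hw hzw
    rcases Finset.mem_insert.mp hz with hz1 | hz1
    · rcases Finset.mem_insert.mp hw with hw1 | hw1
      · omega
      · have := (h.1 w hw1).1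
        omega
    · rcases Finset.mem_insert.mp hw with hw1 | hw1
      · rw [hw1]
        exact hy z hz1
      · exact h.2.1 z hz1 w hw1 hzw
  · intro z hz
    rcases Finset.mem_insert.mp hz with rfl | hz
    · exact hx1
    · exact h.2.2.1 z hz
  · intro z hz
    rcases Finset.mem_insert.mp hz with rfl | hz
    · exact hx2
    · exact h.2.2.2.1 z hz

theorem Val.change {Q : Filter ι} [Q.NeBot]
    (hP : ∀ R : ℕ → Prop, (∀ᶠ x in P, R x) → ∀ᶠ i in Q, ∀ᶠ x in p i, R x)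
    (ha : ∀ᶠ i in Q, ∀ᶠ x in p i, (∀ᶠ y in p i, ρ x y) ∧ (∀ᶠ y in P, ρ x y))
    {σ : Finset ℕ} {b : ℕ} {i : ι} (h : Val γ ρ p P σ b i) {C : ι → Prop}
    (hC : ∀ᶠ i in Q, C i) : ∃ i', C i' ∧ Val γ ρ p P σ b i' := by
  have h1 : ∀ᶠ i in Q, ∀ x ∈ σ, ∀ᶠ y in p i, ρ x y :=
    (Filter.eventually_all_finset σ).mpr fun x hx => hP _ (h.2.2.2.1 x hx)
  obtain ⟨i', ⟨hC', h2⟩, h3⟩ := ((hC.and h1).and ha).exists
  exact ⟨i', hC', h.1, h.2.1, h2, h.2.2.2.1, h3⟩

/-- Infinite extension inside one filter. -/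
theorem Val.infinite [∀ i, (p i).NeBot]
    (hp : ∀ i b, ∀ᶠ x in p i, b ≤ x ∧ ∃ t, x = γ (2 * t + 1))
    {σ : Finset ℕ} {b : ℕ} {i : ι} (h : Val γ ρ p P σ b i) {T : ℕ → Prop}
    (hT : ∀ᶠ x in p i, T x) :
    ∃ H : Set ℕ, H.Infinite ∧ (∀ x < b, x ∈ H ↔ x ∈ σ) ∧ (∀ x ∈ H, b ≤ x → T x) ∧
      ∀ (v : ℕ) (τ : Finset ℕ), (∀ x, x ∈ τ ↔ x ∈ H ∧ x < v) → Val γ ρ p P τ v i := by
  let S := {s : Finset ℕ × ℕ // Val γ ρ p P s.1 s.2 i ∧ b ≤ s.2 ∧
    (∀ x < b, x ∈ s.1 ↔ x ∈ σ) ∧ ∀ x ∈ s.1, b ≤ x → T x}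
  have step : ∀ (n : ℕ) (s : S), ∃ s' : S, s.1.2 ≤ s'.1.2 ∧
      (∀ x < s.1.2, x ∈ s'.1.1 ↔ x ∈ s.1.1) ∧ (∃ x ∈ s'.1.1, s.1.2 ≤ x) ∧ True := by
    rintro _ ⟨⟨τ, d⟩, hv, hbd, hag, hT'⟩
    obtain ⟨x, hdx, hTx, hval⟩ := hv.stay hp hT
    refine ⟨⟨(insert x τ, x + 1), hval, ?_, ?_, ?_⟩, ?_, ?_, ⟨x, Finset.mem_insert_self _ _, hdx⟩,
      trivial⟩
    · simp only at hbd hdx ⊢
      omega
    · intro y hy
      have hyx : y ≠ x := by
        simp only at hbd hdx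
        omega
      simp only [Finset.mem_insert, hyx, false_or]
      exact hag y hy
    · intro y hy hby
      rcases Finset.mem_insert.mp hy with rfl | hy
      · exact hTx
      · exact hT' y hy hby
    · simp only at hdx ⊢
      omega
    · intro y hy
      simp only at hdx hy ⊢
      have hyx : y ≠ x := by omega
      simp only [Finset.mem_insert, hyx, false_or]
  obtain ⟨H, h1, h2, h3⟩ := seq_union (S := S) (fun s => s.1.1) (fun s => s.1.2)
    (fun s x hx => (s.2.1.1 x hx).1) (fun _ _ => True) step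
    ⟨(σ, b), h, le_rfl, fun x _ => Iff.rfl, fun x hx hbx => absurd (h.1 x hx).1 (not_lt.mpr hbx)⟩
  refine ⟨H, h1, h2, ?_, ?_⟩
  · intro x hx hbx
    obtain ⟨s, hs1, -, hs3⟩ := h3 (x + 1)
    exact s.2.2.2.2 x ((hs3 x (by omega)).mp hx) hbx
  · intro v τ hτ
    obtain ⟨s, hs1, -, hs3⟩ := h3 v
    refine s.2.1.sub fun x hx => ?_
    obtain ⟨hxH, hxv⟩ := (hτ x).mp hx
    exact ⟨(hs3 x (by omega)).mp hxH, hxv⟩

/-- The requirement that `W` does not produce an infinite set of one colour. -/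
def Req (γ : ℕ → ℕ) (W : Set ℕ → Set ℕ) (c : Fin 3) (σ : Finset ℕ) (b : ℕ) : Prop :=
  ∀ H ∈ Box σ b (Set.range γ), ¬ ((W H).Infinite ∧
    ∀ m ∈ W H, ∀ n ∈ W H, m ≠ n → dis (Lab γ m) (Lab γ n) = c)

theorem exists_dis_ne (c : Fin 3) : ∃ u v : ℕ × ℕ, dis u v ≠ c := by
  by_cases hc : c = 0
  · refine ⟨(0, 0), (0, 1), ?_⟩
    subst hc
    simp [dis]
  · refine ⟨(0, 0), (0, 0), ?_⟩
    simp only [dis, if_true]
    exact fun h => hc h.symm

theorem density {Q : Filter ι} [Q.NeBot] [∀ i, (p i).NeBot] (hγ : StrictMono γ)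
    (W : Set ℕ → Set ℕ) (hW : OpenOp W) (e : ℕ)
    (hG : ∀ a ∈ Set.range γ, e ≤ a → ∀ σ : Finset ℕ, (∀ x ∈ σ, x < a + 1) →
      (∀ m ≤ a, Dec W σ a m (Set.range γ)) ∧ Unif W σ {z ∈ Set.range γ | a < z})
    (hp : ∀ i b, ∀ᶠ x in p i, b ≤ x ∧ ∃ t, x = γ (2 * t + 1))
    (hP : ∀ R : ℕ → Prop, (∀ᶠ x in P, R x) → ∀ᶠ i in Q, ∀ᶠ x in p i, R x)
    (ha : ∀ᶠ i in Q, ∀ᶠ x in p i, (∀ᶠ y in p i, ρ x y) ∧ (∀ᶠ y in P, ρ x y))
    (c : Fin 3)
    (hc : (∀ v, ∀ᶠ i in Q, ∀ᶠ x in p i, dis v (Lab γ x) ≠ c) ∨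
      (∀ᶠ i in Q, ∃ T : ℕ → Prop, (∀ᶠ x in p i, T x) ∧
        ∀ x y, T x → T y → dis (Lab γ x) (Lab γ y) ≠ c))
    {σ : Finset ℕ} {b : ℕ} {i : ι} (h : Val γ ρ p P σ b i) :
    ∃ σ' b' i', Val γ ρ p P σ' b' i' ∧ b ≤ b' ∧ (∀ x < b, x ∈ σ' ↔ x ∈ σ) ∧ Req γ W c σ' b' := by
  classical
  by_contra hcon
  push Not at hcon
  have hge : ∀ k, k ≤ γ k := hγ.id_le
  -- progress
  have hprog : ∀ σ' b' i', Val γ ρ p P σ' b' i' → b ≤ b' → (∀ x < b, x ∈ σ' ↔ x ∈ σ) →
      ∀ T : ℕ → Prop, (∀ᶠ x in p i', T x) → ∀ m, ∃ σ'' b'' n, Val γ ρ p P σ'' b'' i' ∧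
      b' ≤ b'' ∧ (∀ x < b', x ∈ σ'' ↔ x ∈ σ') ∧ (∀ x ∈ σ'', b' ≤ x → T x) ∧ m ≤ n ∧
      ∀ H : Set ℕ, (∀ x < b'', x ∈ H ↔ x ∈ σ'') → n ∈ W H := by
    intro σ' b' i' hv hbb hag T hT m
    let a := γ (max b' (max m e))
    have ha1 : b' ≤ a := le_trans (le_max_left _ _) (hge _)
    have ha2 : m ≤ a := le_trans (le_trans (le_max_left _ _) (le_max_right _ _)) (hge _)
    have ha3 : e ≤ a := le_trans (le_trans (le_max_right _ _) (le_max_right _ _)) (hge _)
    have hσa : ∀ x ∈ σ', x < a + 1 := fun x hx => by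
      have := (hv.1 x hx).1
      omega
    have hv' : Val γ ρ p P σ' (a + 1) i' := hv.sub fun x hx => ⟨hx, hσa x hx⟩
    rcases (hG a ⟨_, rfl⟩ ha3 σ' hσa).1 m ha2 with hd | hd
    · obtain ⟨H, hH1, hH2, hH3, hH4⟩ := hv'.infinite hp hT
      have hHr : ∀ x ∈ H, ∃ t, x = γ (2 * t + 1) := by
        intro x hx
        refine ((hH4 (x + 1) ((Finset.range (x + 1)).filter (fun y => y ∈ H)) ?_).1 x ?_).2
        · intro y
          simp only [Finset.mem_filter, Finset.mem_range]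
          exact and_comm
        · simp only [Finset.mem_filter, Finset.mem_range]
          exact ⟨Nat.lt_succ_self _, hx⟩
      obtain ⟨n, hmn, hn⟩ := hd H ⟨hH1, hH2, fun x hx _ => by
        obtain ⟨t, rfl⟩ := hHr x hx
        exact ⟨_, rfl⟩⟩
      obtain ⟨u, hu⟩ := hW H n hn
      have hmem : ∀ x, x ∈ (Finset.range (max u (a + 1))).filter (fun y => y ∈ H) ↔
          x ∈ H ∧ x < max u (a + 1) := by
        intro y
        simp only [Finset.mem_filter, Finset.mem_range]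
        exact and_comm
      refine ⟨(Finset.range (max u (a + 1))).filter (fun y => y ∈ H), max u (a + 1), n,
        hH4 _ _ hmem, ?_, ?_, ?_, hmn, ?_⟩
      · exact le_trans (by omega) (le_max_right _ _)
      · intro x hx
        rw [hmem]
        have hxa : x < a + 1 := by omega
        rw [hH2 x hxa]
        exact ⟨fun h => h.1, fun h => ⟨h, lt_of_lt_of_le hxa (le_max_right _ _)⟩⟩
      · intro x hx hbx
        obtain ⟨hxH, -⟩ := (hmem x).mp hx
        by_cases hxa : x < a + 1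
        · have := (hv.1 x ((hH2 x hxa).mp hxH)).1
          omega
        · exact hH3 x hxH (not_lt.mp hxa)
      · intro H' hH'
        refine hu H' fun x hx => ?_
        rw [hH' x (lt_of_lt_of_le hx (le_max_left _ _)), hmem]
        exact ⟨fun h => h.1, fun h => ⟨h, lt_of_lt_of_le hx (le_max_left _ _)⟩⟩
    · exfalso
      refine hcon σ' (a + 1) i' hv' (by omega) hag ?_
      rintro H hH ⟨hinf, -⟩
      refine hd H hH ?_
      obtain ⟨n, hn, hmn⟩ := (inf_gt hinf m).nonempty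
      exact ⟨n, hmn.le, hn⟩
  -- no elements in skipped blocks
  have hunif : ∀ σ' b' i', Val γ ρ p P σ' b' i' → b ≤ b' → (∀ x < b, x ∈ σ' ↔ x ∈ σ) →
      ∀ a ∈ Set.range γ, b' ≤ a + 1 → e ≤ a → ∀ x ∈ Set.range γ, ∀ y ∈ Set.range γ,
      a < x → x < y → ∀ H ∈ Box σ' (y + 1) (Set.range γ), ¬ ∃ n, (x ≤ n ∧ n < y) ∧ n ∈ W H := by
    intro σ' b' i' hv hbb hag a har hba hea
    have hσa : ∀ x ∈ σ', x < a + 1 := fun x hx => by
      have := (hv.1 x hx).1
      omega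
    have hbox : ∀ y, a < y → Box σ' (y + 1) (Set.range γ) ⊆
        Box σ' (y + 1) {z ∈ Set.range γ | a < z} := by
      intro y hy
      refine Box.mono fun z hz hyz => ⟨hz, ?_⟩
      omega
    rcases (hG a har hea σ' hσa).2 with hd | hd
    · exfalso
      obtain ⟨u, v, huv⟩ := exists_dis_ne c
      obtain ⟨t1, ht1, hl1⟩ := exists_lab u (a + 1)
      obtain ⟨t2, ht2, hl2⟩ := exists_lab v (t1 + 1)
      have q1 : a < γ (2 * t1) := lt_of_lt_of_le (by omega) (hge _)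
      have q2 : γ (2 * t1) < γ (2 * t1 + 2) := hγ (by omega)
      have q3 : γ (2 * t1 + 2) ≤ γ (2 * t2) := hγ.monotone (by omega)
      have q4 : γ (2 * t2) < γ (2 * t2 + 2) := hγ (by omega)
      refine hcon σ' (γ (2 * t2 + 2) + 1) i' (hv.sub fun x hx => ⟨hx, ?_⟩) (by omega) hag ?_
      · have := hσa x hx
        omega
      · rintro H hH ⟨-, hhom⟩
        have hH1 : H ∈ Box σ' (γ (2 * t1 + 2) + 1) (Set.range γ) := by
          refine Box.up ?_ ?_ hH
          · intro x hx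
            have := hσa x hx
            omega
          · omega
        obtain ⟨n1, ⟨hn1, hn1'⟩, hnW1⟩ := hd _ ⟨⟨_, rfl⟩, q1⟩ _ ⟨⟨_, rfl⟩, q1.trans q2⟩ q2 H
          (hbox _ (q1.trans q2) hH1)
        obtain ⟨n2, ⟨hn2, hn2'⟩, hnW2⟩ := hd _ ⟨⟨_, rfl⟩, by omega⟩ _ ⟨⟨_, rfl⟩, by omega⟩ q4 H
          (hbox _ (by omega) hH)
        have := hhom n1 hnW1 n2 hnW2 (by omega)
        rw [Lab_block hγ hn1 hn1', Lab_block hγ hn2 hn2', hl1, hl2] at this
        exact huv this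
    · intro x hx y hy hax hxy H hH
      exact hd x ⟨hx, hax⟩ y ⟨hy, hax.trans hxy⟩ hxy H (hbox y (hax.trans hxy) hH)
  -- location
  have hloc : ∀ (H : Set ℕ) (i' : ι), H.Infinite → (∀ x < b, x ∈ H ↔ x ∈ σ) →
      (∀ (v : ℕ) (τ : Finset ℕ), (∀ x, x ∈ τ ↔ x ∈ H ∧ x < v) → Val γ ρ p P τ v i') →
      ∀ n ∈ W H, γ (max b e + 3) ≤ n → ∃ t, γ (2 * t) ≤ n ∧ n < γ (2 * t + 2) ∧
        γ (2 * t + 1) ∈ H := by
    intro H i' hHi hag hval n hn hKn
    have h0 : γ 0 ≤ n := le_trans (hγ.monotone (Nat.zero_le _)) hKn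
    obtain ⟨hj1, hj2⟩ := find_spec hγ h0
    generalize Nat.findGreatest (fun i => γ i ≤ n) n = j at hj1 hj2
    have hjK : max b e + 3 ≤ j := by
      by_contra hlt
      have := hγ.monotone (show j + 1 ≤ max b e + 3 by omega)
      omega
    have hbe1 : b ≤ max b e := le_max_left _ _
    have hbe2 : e ≤ max b e := le_max_right _ _
    obtain ⟨t, ht⟩ : ∃ t, t = j / 2 := ⟨_, rfl⟩
    have ht1 : 2 * t ≤ j := by omega
    have ht2 : j < 2 * t + 2 := by omega
    have r1 : γ (2 * t) ≤ n := le_trans (hγ.monotone ht1) hj1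
    have r2 : n < γ (2 * t + 2) := lt_of_lt_of_le hj2 (hγ.monotone ht2)
    refine ⟨t, r1, r2, ?_⟩
    by_contra hnot
    obtain ⟨s, hs⟩ : ∃ s, 2 * t = s + 1 := ⟨2 * t - 1, by omega⟩
    have hsge : max b e + 1 ≤ s := by omega
    have has := hge s
    have hmem : ∀ x, x ∈ (Finset.range (γ s + 1)).filter (fun y => y ∈ H) ↔
        x ∈ H ∧ x < γ s + 1 := by
      intro y
      simp only [Finset.mem_filter, Finset.mem_range]
      exact and_comm
    have hHr : ∀ x ∈ H, ∃ t, x = γ (2 * t + 1) := by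
      intro x hx
      refine ((hval (x + 1) ((Finset.range (x + 1)).filter (fun y => y ∈ H)) ?_).1 x ?_).2
      · intro y
        simp only [Finset.mem_filter, Finset.mem_range]
        exact and_comm
      · simp only [Finset.mem_filter, Finset.mem_range]
        exact ⟨Nat.lt_succ_self _, hx⟩
    refine hunif _ (γ s + 1) i' (hval _ _ hmem) (by omega) ?_ (γ s) ⟨s, rfl⟩ le_rfl (by omega)
      (γ (2 * t)) ⟨_, rfl⟩ (γ (2 * t + 2)) ⟨_, rfl⟩ (hγ (by omega)) (hγ (by omega)) H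
      ⟨hHi, ?_, ?_⟩ ⟨n, ⟨r1, r2⟩, hn⟩
    · intro x hx
      rw [hmem, ← hag x hx]
      exact ⟨fun h => h.1, fun h => ⟨h, by omega⟩⟩
    · intro x hx
      rw [hmem]
      constructor
      · intro hxH
        refine ⟨hxH, ?_⟩
        by_contra hge'
        obtain ⟨r, rfl⟩ := hHr x hxH
        have g1 : s < 2 * r + 1 := hγ.lt_iff_lt.mp (by omega)
        have g2 : 2 * r + 1 ≤ 2 * t + 2 := hγ.le_iff_le.mp (by omega)
        have g3 : r = t := by omega
        rw [g3] at hxH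
        exact hnot hxH
      · exact fun h => h.1
    · intro x hx _
      obtain ⟨r, rfl⟩ := hHr x hx
      exact ⟨_, rfl⟩
  have hbe1 : b ≤ max b e := le_max_left _ _
  rcases hc with hc | hc
  · -- escape
    obtain ⟨σ1, b1, n0, hv1, hb1, hag1, -, -, hn0⟩ :=
      hprog σ b i h le_rfl (fun _ _ => Iff.rfl) (fun _ => True) (Filter.Eventually.of_forall
        fun _ => trivial) 0
    obtain ⟨i', hi', hv1'⟩ := hv1.change hP ha (hc (Lab γ n0))
    obtain ⟨σ2, b2, n1, hv2, hb2, hag2, hT2, hmn, hn1⟩ :=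
      hprog σ1 b1 i' hv1' hb1 hag1 _ hi' (γ (max b e + 3 + b1) + n0 + 1)
    obtain ⟨H, hH1, hH2, hH3, hH4⟩ := hv2.infinite hp hi'
    have hHσ1 : ∀ x < b1, x ∈ H ↔ x ∈ σ1 := fun x hx =>
      (hH2 x (lt_of_lt_of_le hx hb2)).trans (hag2 x hx)
    have hHσ : ∀ x < b, x ∈ H ↔ x ∈ σ := fun x hx =>
      (hHσ1 x (lt_of_lt_of_le hx hb1)).trans (hag1 x hx)
    have hmono := hγ.monotone (show max b e + 3 ≤ max b e + 3 + b1 by omega)
    obtain ⟨t, ht1, ht2, ht3⟩ := hloc H i' hH1 hHσ hH4 n1 (hn1 H hH2) (by omega)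
    have hlt : max b e + 3 + b1 < 2 * t + 2 := hγ.lt_iff_lt.mp (by omega)
    have hge1 := hge (2 * t + 1)
    have hTt : dis (Lab γ n0) (Lab γ (γ (2 * t + 1))) ≠ c := by
      by_cases hlt2 : γ (2 * t + 1) < b2
      · exact hT2 _ ((hH2 _ hlt2).mp ht3) (by omega)
      · exact hH3 _ ht3 (not_lt.mp hlt2)
    have hle1 : γ (2 * t) ≤ γ (2 * t + 1) := hγ.monotone (by omega)
    have hlt1 : γ (2 * t + 1) < γ (2 * t + 2) := hγ (by omega)
    rw [Lab_block hγ hle1 hlt1, ← Lab_block hγ ht1 ht2] at hTt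
    refine hcon σ2 b2 i' hv2 (hb1.trans hb2) ?_ ?_
    · exact fun x hx => (hag2 x (lt_of_lt_of_le hx hb1)).trans (hag1 x hx)
    · rintro H' ⟨-, hH', -⟩ ⟨-, hhom⟩
      refine hTt (hhom n0 (hn0 H' fun x hx => ?_) n1 (hn1 H' hH') (by omega))
      exact (hH' x (lt_of_lt_of_le hx hb2)).trans (hag2 x hx)
  · -- stay
    obtain ⟨i', ⟨T, hT, hTT⟩, hv'⟩ := h.change hP ha hc
    obtain ⟨σ1, b1, n1, hv1, hb1, hag1, hT1, hmn1, hn1⟩ :=
      hprog σ b i' hv' le_rfl (fun _ _ => Iff.rfl) T hT (γ (max b e + 3))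
    obtain ⟨σ2, b2, n2, hv2, hb2, hag2, hT2, hmn2, hn2⟩ :=
      hprog σ1 b1 i' hv1 hb1 hag1 T hT (γ (max b e + 3) + n1 + 1)
    obtain ⟨H, hH1, hH2, hH3, hH4⟩ := hv2.infinite hp hT
    have hHσ1 : ∀ x < b1, x ∈ H ↔ x ∈ σ1 := fun x hx =>
      (hH2 x (lt_of_lt_of_le hx hb2)).trans (hag2 x hx)
    have hHσ : ∀ x < b, x ∈ H ↔ x ∈ σ := fun x hx =>
      (hHσ1 x (lt_of_lt_of_le hx hb1)).trans (hag1 x hx)
    have hnew : ∀ x ∈ H, b ≤ x → T x := by
      intro x hx hbx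
      by_cases hx1 : x < b1
      · exact hT1 x ((hHσ1 x hx1).mp hx) hbx
      · by_cases hx2 : x < b2
        · exact hT2 x ((hH2 x hx2).mp hx) (not_lt.mp hx1)
        · exact hH3 x hx (not_lt.mp hx2)
    have hTn : ∀ n ∈ W H, γ (max b e + 3) ≤ n → ∃ y, T y ∧ Lab γ y = Lab γ n := by
      intro n hn hle
      obtain ⟨t, ht1, ht2, ht3⟩ := hloc H i' hH1 hHσ hH4 n hn hle
      have hlt : max b e + 3 < 2 * t + 2 := hγ.lt_iff_lt.mp (by omega)
      have hge1 := hge (2 * t + 1)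
      have hle1 : γ (2 * t) ≤ γ (2 * t + 1) := hγ.monotone (by omega)
      have hlt1 : γ (2 * t + 1) < γ (2 * t + 2) := hγ (by omega)
      exact ⟨_, hnew _ ht3 (by omega), by
        rw [Lab_block hγ hle1 hlt1, ← Lab_block hγ ht1 ht2]⟩
    obtain ⟨y1, hy1, hl1⟩ := hTn n1 (hn1 H hHσ1) hmn1
    obtain ⟨y2, hy2, hl2⟩ := hTn n2 (hn2 H hH2) (by omega)
    have hne := hTT y1 y2 hy1 hy2
    rw [hl1, hl2] at hne
    refine hcon σ2 b2 i' hv2 (hb1.trans hb2) ?_ ?_
    · exact fun x hx => (hag2 x (lt_of_lt_of_le hx hb1)).trans (hag1 x hx)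
    · rintro H' ⟨-, hH', -⟩ ⟨-, hhom⟩
      refine hne (hhom n1 (hn1 H' fun x hx => ?_) n2 (hn2 H' hH') (by omega))
      exact (hH' x (lt_of_lt_of_le hx hb2)).trans (hag2 x hx)

theorem two_level {Q : Filter ι} [Q.NeBot] [∀ i, (p i).NeBot] (hγ : StrictMono γ)
    (W : ℕ → Set ℕ → Set ℕ) (hW : ∀ e, OpenOp (W e))
    (hG : ∀ a ∈ Set.range γ, ∀ e ≤ a, ∀ σ : Finset ℕ, (∀ x ∈ σ, x < a + 1) →
      (∀ m ≤ a, Dec (W e) σ a m (Set.range γ)) ∧ Unif (W e) σ {z ∈ Set.range γ | a < z})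
    (hp : ∀ i b, ∀ᶠ x in p i, b ≤ x ∧ ∃ t, x = γ (2 * t + 1))
    (hP : ∀ R : ℕ → Prop, (∀ᶠ x in P, R x) → ∀ᶠ i in Q, ∀ᶠ x in p i, R x)
    (ha : ∀ᶠ i in Q, ∀ᶠ x in p i, (∀ᶠ y in p i, ρ x y) ∧ (∀ᶠ y in P, ρ x y))
    (hc : ∀ c, (∀ v, ∀ᶠ i in Q, ∀ᶠ x in p i, dis v (Lab γ x) ≠ c) ∨
      (∀ᶠ i in Q, ∃ T : ℕ → Prop, (∀ᶠ x in p i, T x) ∧
        ∀ x y, T x → T y → dis (Lab γ x) (Lab γ y) ≠ c)) :
    ∃ H : Set ℕ, H.Infinite ∧ (∀ x ∈ H, ∀ y ∈ H, x < y → ρ x y) ∧
      ∀ e c, ¬ ((W e H).Infinite ∧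
        ∀ m ∈ W e H, ∀ n ∈ W e H, m ≠ n → dis (Lab γ m) (Lab γ n) = c) := by
  classical
  let S := {s : Finset ℕ × ℕ × ι // Val γ ρ p P s.1 s.2.1 s.2.2}
  obtain ⟨task, htask⟩ := exists_surjective_nat (ℕ × Fin 3)
  obtain ⟨i0, hi0⟩ := ha.exists
  have step : ∀ (n : ℕ) (s : S), ∃ s' : S, s.1.2.1 ≤ s'.1.2.1 ∧
      (∀ x < s.1.2.1, x ∈ s'.1.1 ↔ x ∈ s.1.1) ∧ (∃ x ∈ s'.1.1, s.1.2.1 ≤ x) ∧
      Req γ (W (task n).1) (task n).2 s'.1.1 s'.1.2.1 := by
    rintro n ⟨⟨σ, b, i⟩, hv⟩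
    obtain ⟨σ', b', i', hv', hb, hag, hreq⟩ := density hγ (W (task n).1) (hW _) (task n).1
      (fun a har he => hG a har _ he) hp hP ha (task n).2 (hc _) hv
    obtain ⟨x, hbx, -, hv''⟩ := hv'.stay hp (T := fun _ => True)
      (Filter.Eventually.of_forall fun _ => trivial)
    replace hb : b ≤ b' := hb
    refine ⟨⟨(insert x σ', x + 1, i'), hv''⟩, ?_, ?_, ⟨x, Finset.mem_insert_self _ _, ?_⟩, ?_⟩
    · simp only
      omega
    · intro y hy
      simp only at hy ⊢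
      have hyx : y ≠ x := by omega
      simp only [Finset.mem_insert, hyx, false_or]
      exact hag y hy
    · simp only
      omega
    · intro H hH
      refine hreq H ⟨hH.1, ?_, ?_⟩
      · intro y hy
        simp only at hH
        rw [hH.2.1 y (by omega)]
        have hyx : y ≠ x := by omega
        simp only [Finset.mem_insert, hyx, false_or]
      · intro y hy hby
        by_cases hyx : x + 1 ≤ y
        · exact hH.2.2 y hy hyx
        · obtain ⟨t, ht⟩ := (hv''.1 y ((hH.2.1 y (by simp only; omega)).mp hy)).2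
          exact ⟨_, ht.symm⟩
  have hv0 : Val γ ρ p P ∅ 0 i0 :=
    ⟨fun x hx => absurd hx (Finset.notMem_empty x), fun x hx => absurd hx (Finset.notMem_empty x),
     fun x hx => absurd hx (Finset.notMem_empty x), fun x hx => absurd hx (Finset.notMem_empty x),
     hi0⟩
  obtain ⟨H, h1, -, h3⟩ := seq_union (S := S) (fun s => s.1.1) (fun s => s.1.2.1)
    (fun s x hx => (s.2.1 x hx).1)
    (fun n s => Req γ (W (task n).1) (task n).2 s.1.1 s.1.2.1) step ⟨(∅, 0, i0), hv0⟩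
  refine ⟨H, h1, ?_, ?_⟩
  · intro x hx y hy hxy
    obtain ⟨s, hs1, -, hs3⟩ := h3 (y + 1)
    exact s.2.2.1 x ((hs3 x (by omega)).mp hx) y ((hs3 y (by omega)).mp hy) hxy
  · intro e c
    obtain ⟨n, hn⟩ := htask (e, c)
    obtain ⟨s, -, hs2, hs3⟩ := h3 n
    rw [hn] at hs2
    refine hs2 H ⟨h1, hs3, ?_⟩
    intro x hx _
    obtain ⟨s', hs1', -, hs3'⟩ := h3 (x + 1)
    obtain ⟨t, ht⟩ := (s'.2.1 x ((hs3' x (by omega)).mp hx)).2
    exact ⟨_, ht.symm⟩

end TwoLevel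

/-- Exponent of a two-colouring along two ultrafilters. -/
theorem exists_lim (g : ℕ → ℕ → Fin 2) (p q : Ultrafilter ℕ) :
    ∃ a : Fin 2, ∀ᶠ x in (p : Filter ℕ), ∀ᶠ y in (q : Filter ℕ), g x y = a := by
  have h1 : ∀ x, ∃ a : Fin 2, ∀ᶠ y in (q : Filter ℕ), g x y = a := by
    intro x
    have : ∀ᶠ y in (q : Filter ℕ), g x y = 0 ∨ g x y = 1 := by
      refine Filter.Eventually.of_forall fun y => ?_
      generalize g x y = z
      fin_cases z <;> simp
    rcases Ultrafilter.eventually_or.mp this with h | h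
    · exact ⟨0, h⟩
    · exact ⟨1, h⟩
  choose a ha using h1
  have : ∀ᶠ x in (p : Filter ℕ), a x = 0 ∨ a x = 1 := by
    refine Filter.Eventually.of_forall fun y => ?_
    generalize a y = z
    fin_cases z <;> simp
  rcases Ultrafilter.eventually_or.mp this with h | h
  · exact ⟨0, h.mono fun x hx => by rw [← hx]; exact ha x⟩
  · exact ⟨1, h.mono fun x hx => by rw [← hx]; exact ha x⟩

theorem exists_lim1 (g : ℕ → Fin 2) (p : Ultrafilter ℕ) :
    ∃ a : Fin 2, ∀ᶠ x in (p : Filter ℕ), g x = a := by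
  obtain ⟨a, ha⟩ := exists_lim (fun _ y => g y) p p
  exact ⟨a, (ha.exists).choose_spec⟩

theorem dis_self (u : ℕ × ℕ) : dis u u = 0 := by simp [dis]

theorem dis_ne_zero {u v : ℕ × ℕ} (h : u ≠ v) : dis u v ≠ 0 := by
  unfold dis
  rw [if_neg h]
  split_ifs <;> decide

theorem dis_two {u v : ℕ × ℕ} (h : u.1 ≠ v.1) : dis u v = 2 := by
  unfold dis
  rw [if_neg (fun h' => h (congrArg Prod.fst h')), if_neg h]

theorem dis_ne_two {u v : ℕ × ℕ} (h : u.1 = v.1) : dis u v ≠ 2 := by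
  unfold dis
  rw [if_pos h]
  split_ifs <;> decide

theorem pigeon (a b c : Fin 2) : a = b ∨ b = c ∨ a = c := by
  revert a b c
  decide

theorem main_comb (W : ℕ → Set ℕ → Set ℕ) (hW : ∀ e, OpenOp (W e)) :
    ∃ f : Finset ℕ → Fin 3, ∀ g : Finset ℕ → Fin 2, ∃ H : Set ℕ, H.Infinite ∧
      (∃ a, ∀ s : Finset ℕ, (∀ x ∈ s, x ∈ H) → s.card = 2 → g s = a) ∧
      ∀ e c, ¬ ((W e H).Infinite ∧
        ∀ s : Finset ℕ, (∀ x ∈ s, x ∈ W e H) → s.card = 2 → f s = c) := by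
  classical
  obtain ⟨G, hGi, hG⟩ := exists_generic W hW
  -- increasing enumeration
  obtain ⟨γ, hγ, hγG⟩ : ∃ γ : ℕ → ℕ, StrictMono γ ∧ Set.range γ = G := by
    refine ⟨Nat.nth (· ∈ G), Nat.nth_strictMono hGi, Nat.range_nth_of_infinite hGi⟩
  rw [← hγG] at hG
  let f : Finset ℕ → Fin 3 := fun s =>
    if ∀ x ∈ s, ∀ y ∈ s, Lab γ x = Lab γ y then 0
    else if ∀ x ∈ s, ∀ y ∈ s, (Lab γ x).1 = (Lab γ y).1 then 1 else 2
  have hf : ∀ m n, m ≠ n → f {m, n} = dis (Lab γ m) (Lab γ n) := by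
    intro m n _
    have e1 : (∀ x ∈ ({m, n} : Finset ℕ), ∀ y ∈ ({m, n} : Finset ℕ), Lab γ x = Lab γ y) ↔
        Lab γ m = Lab γ n := by
      simp only [Finset.mem_insert, Finset.mem_singleton, forall_eq_or_imp, forall_eq]
      constructor
      · exact fun h => h.1.2
      · exact fun h => ⟨⟨trivial, h⟩, h.symm, trivial⟩
    have e2 : (∀ x ∈ ({m, n} : Finset ℕ), ∀ y ∈ ({m, n} : Finset ℕ),
        (Lab γ x).1 = (Lab γ y).1) ↔ (Lab γ m).1 = (Lab γ n).1 := by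
      simp only [Finset.mem_insert, Finset.mem_singleton, forall_eq_or_imp, forall_eq]
      constructor
      · exact fun h => h.1.2
      · exact fun h => ⟨⟨trivial, h⟩, h.symm, trivial⟩
    simp only [f, dis, e1, e2]
  refine ⟨f, fun g => ?_⟩
  -- it suffices to work with increasing pairs
  suffices hmain : ∃ (a : Fin 2) (H : Set ℕ), H.Infinite ∧
      (∀ x ∈ H, ∀ y ∈ H, x < y → g {x, y} = a) ∧
      ∀ e c, ¬ ((W e H).Infinite ∧
        ∀ m ∈ W e H, ∀ n ∈ W e H, m ≠ n → dis (Lab γ m) (Lab γ n) = c) by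
    obtain ⟨a, H, h1, h2, h3⟩ := hmain
    refine ⟨H, h1, ⟨a, ?_⟩, ?_⟩
    · intro s hs hcard
      obtain ⟨x, y, hxy, rfl⟩ := Finset.card_eq_two.mp hcard
      rcases lt_or_gt_of_ne hxy with h | h
      · exact h2 x (hs x (by simp)) y (hs y (by simp)) h
      · rw [Finset.pair_comm]
        exact h2 y (hs y (by simp)) x (hs x (by simp)) h
    · rintro e c ⟨hinf, hhom⟩
      refine h3 e c ⟨hinf, fun m hm n hn hmn => ?_⟩
      rw [← hf m n hmn]
      refine hhom _ ?_ (Finset.card_pair hmn)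
      intro x hx
      rcases Finset.mem_insert.mp hx with rfl | hx
      · exact hm
      · rw [Finset.mem_singleton.mp hx]
        exact hn
  -- ultrafilters
  let Q : Ultrafilter ℕ := Filter.hyperfilter ℕ
  have hQne : ∀ k : ℕ, ∀ᶠ j in (Q : Filter ℕ), j ≠ k := by
    intro k
    exact Filter.hyperfilter_le_cofinite (Filter.eventually_cofinite_ne k)
  have hQge : ∀ k : ℕ, ∀ᶠ j in (Q : Filter ℕ), k ≤ j := by
    intro k
    have : {j : ℕ | k ≤ j} ∈ (Filter.cofinite : Filter ℕ) := by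
      rw [Filter.mem_cofinite]
      refine (Set.finite_lt_nat k).subset ?_
      intro j hj
      simpa using hj
    exact Filter.hyperfilter_le_cofinite this
  let Y : ℕ → ℕ → ℕ → ℕ := fun j l r => γ (2 * Nat.pair (Nat.pair j l) r + 1)
  let p : ℕ → ℕ → Ultrafilter ℕ := fun j l => Q.map (Y j l)
  let P1 : ℕ → Ultrafilter ℕ := fun j => Q.bind (p j)
  let P2 : Ultrafilter ℕ := Q.bind P1
  have hp_iff : ∀ j l (R : ℕ → Prop), (∀ᶠ x in (p j l : Filter ℕ), R x) ↔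
      ∀ᶠ r in (Q : Filter ℕ), R (Y j l r) := fun j l R => Iff.rfl
  have hP1_iff : ∀ j (R : ℕ → Prop), (∀ᶠ x in (P1 j : Filter ℕ), R x) ↔
      ∀ᶠ l in (Q : Filter ℕ), ∀ᶠ x in (p j l : Filter ℕ), R x := fun j R => Iff.rfl
  have hP2_iff : ∀ (R : ℕ → Prop), (∀ᶠ x in (P2 : Filter ℕ), R x) ↔
      ∀ᶠ j in (Q : Filter ℕ), ∀ᶠ x in (P1 j : Filter ℕ), R x := fun R => Iff.rfl
  have hpY : ∀ j l b, ∀ᶠ x in (p j l : Filter ℕ), b ≤ x ∧ ∃ t, x = γ (2 * t + 1) := by
    intro j l b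
    rw [hp_iff]
    refine (hQge b).mono fun r hr => ⟨?_, _, rfl⟩
    have h1 : r ≤ Nat.pair (Nat.pair j l) r := Nat.right_le_pair _ _
    have h2 : 2 * Nat.pair (Nat.pair j l) r + 1 ≤ γ (2 * Nat.pair (Nat.pair j l) r + 1) :=
      hγ.id_le _
    simp only [Y]
    omega
  have hP1Y : ∀ j b, ∀ᶠ x in (P1 j : Filter ℕ), b ≤ x ∧ ∃ t, x = γ (2 * t + 1) := by
    intro j b
    rw [hP1_iff]
    exact Filter.Eventually.of_forall fun l => hpY j l b
  have hplab : ∀ j l, ∀ᶠ x in (p j l : Filter ℕ), Lab γ x = (j, l) := by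
    intro j l
    rw [hp_iff]
    refine Filter.Eventually.of_forall fun r => ?_
    simp only [Y]
    rw [Lab_block hγ (t := Nat.pair (Nat.pair j l) r) (hγ.monotone (by omega)) (hγ (by omega))]
    simp [lab]
  have hP1lab : ∀ j, ∀ᶠ x in (P1 j : Filter ℕ), (Lab γ x).1 = j := by
    intro j
    rw [hP1_iff]
    exact Filter.Eventually.of_forall fun l => (hplab j l).mono fun x hx => by rw [hx]
  -- limit colours
  choose A hA using fun j l => exists_lim (fun x y => g {x, y}) (p j l) (p j l)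
  choose B hB using fun j l => exists_lim (fun x y => g {x, y}) (p j l) (P1 j)
  choose C hC using fun j l => exists_lim (fun x y => g {x, y}) (p j l) P2
  obtain ⟨a, ha⟩ := exists_lim A Q Q
  obtain ⟨b, hb⟩ := exists_lim B Q Q
  obtain ⟨c, hc⟩ := exists_lim C Q Q
  rcases pigeon a b c with h | h | h
  · -- levels 0 and 1
    subst h
    obtain ⟨j, hja, hjb⟩ := (ha.and hb).exists
    refine ⟨a, two_level (ι := ℕ) (γ := γ) (ρ := fun x y => g {x, y} = a)
      (p := fun l => (p j l : Filter ℕ)) (P := (P1 j : Filter ℕ)) (Q := (Q : Filter ℕ))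
      hγ W hW hG (fun l => hpY j l) ?_ ?_ ?_⟩
    · exact fun R hR => (hP1_iff j R).mp hR
    · filter_upwards [hja, hjb] with l h1 h2
      filter_upwards [hA j l, hB j l] with x h3 h4
      rw [h1] at h3
      rw [h2] at h4
      exact ⟨h3, h4⟩
    · intro c
      by_cases hc0 : c = 0
      · left
        intro v
        filter_upwards [hQne v.2] with l hl
        filter_upwards [hplab j l] with x hx
        rw [hx, hc0]
        exact dis_ne_zero fun h => hl (by rw [h])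
      · right
        refine Filter.Eventually.of_forall fun l => ⟨_, hplab j l, ?_⟩
        intro x y hx hy
        rw [hx, hy, dis_self]
        exact fun h => hc0 h.symm
  · -- levels 1 and 2
    subst h
    refine ⟨b, two_level (ι := ℕ) (γ := γ) (ρ := fun x y => g {x, y} = b)
      (p := fun j => (P1 j : Filter ℕ)) (P := (P2 : Filter ℕ)) (Q := (Q : Filter ℕ))
      hγ W hW hG hP1Y ?_ ?_ ?_⟩
    · exact fun R hR => (hP2_iff R).mp hR
    · filter_upwards [hb, hc] with j h1 h2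
      rw [hP1_iff]
      filter_upwards [h1, h2] with l h1 h2
      filter_upwards [hB j l, hC j l] with x h3 h4
      rw [h1] at h3
      rw [h2] at h4
      exact ⟨h3, h4⟩
    · intro c
      by_cases hc2 : c = 2
      · right
        refine Filter.Eventually.of_forall fun j => ⟨_, hP1lab j, ?_⟩
        intro x y hx hy
        rw [hc2]
        exact dis_ne_two (hx.trans hy.symm)
      · left
        intro v
        filter_upwards [hQne v.1] with j hj
        filter_upwards [hP1lab j] with x hx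
        rw [dis_two (fun h => hj (by rw [h, hx]))]
        exact fun h => hc2 h.symm
  · -- levels 0 and 2
    subst h
    let Q' : Ultrafilter (ℕ × ℕ) := Q.bind (fun j => Q.map (fun l => (j, l)))
    have hQ' : ∀ R : ℕ × ℕ → Prop, (∀ᶠ i in (Q' : Filter (ℕ × ℕ)), R i) ↔
      ∀ᶠ j in (Q : Filter ℕ), ∀ᶠ l in (Q : Filter ℕ), R (j, l) := fun R => Iff.rfl
    refine ⟨a, two_level (ι := ℕ × ℕ) (γ := γ) (ρ := fun x y => g {x, y} = a)
      (p := fun i => (p i.1 i.2 : Filter ℕ)) (P := (P2 : Filter ℕ)) (Q := (Q' : Filter (ℕ × ℕ)))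
      hγ W hW hG (fun i => hpY i.1 i.2) ?_ ?_ ?_⟩
    · intro R hR
      rw [hQ']
      exact (hP2_iff R).mp hR
    · rw [hQ']
      filter_upwards [ha, hc] with j h1 h2
      filter_upwards [h1, h2] with l h1 h2
      filter_upwards [hA j l, hC j l] with x h3 h4
      rw [h1] at h3
      rw [h2] at h4
      exact ⟨h3, h4⟩
    · intro c
      by_cases hc2 : c = 2
      · right
        refine Filter.Eventually.of_forall fun i => ⟨_, hplab i.1 i.2, ?_⟩
        intro x y hx hy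
        rw [hx, hy, dis_self, hc2]
        decide
      · left
        intro v
        rw [hQ']
        filter_upwards [hQne v.1] with j hj
        refine Filter.Eventually.of_forall fun l => ?_
        filter_upwards [hplab j l] with x hx
        rw [dis_two (fun h => hj (by rw [h, hx]))]
        exact fun h => hc2 h.symm


/-- For all n, k ≥ 2 and every (k+1)-colouring f of n-sets of naturals, some k-colouring g exists such that every infinite g-homogeneous set Turing-computes an infinite f-homogeneous set: this fails. -/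
theorem result :
    ¬ (∀ n k : ℕ, 2 ≤ n → 2 ≤ k →
      ∀ f : Finset ℕ → Fin (k + 1),
        ∃ g : Finset ℕ → Fin k,
          ∀ H : ℕ → Bool,
            Set.Infinite {m : ℕ | H m = true} →
            (∃ col : Fin k, ∀ s : Finset ℕ,
                (∀ x ∈ s, H x = true) → s.card = n → g s = col) →
            ∃ H' : ℕ → Bool,
              Set.Infinite {m : ℕ | H' m = true} ∧
              (∃ col : Fin (k + 1), ∀ s : Finset ℕ,
                (∀ x ∈ s, H' x = true) → s.card = n → f s = col) ∧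
              TuringReducible (fun m => Part.some (Bool.toNat (H' m)))
                (fun m => Part.some (Bool.toNat (H m)))) := by
  classical
  intro hall
  have : Nonempty OCode := ⟨OCode.zero⟩
  obtain ⟨enum, henum⟩ := exists_surjective_nat OCode
  let W : ℕ → Set ℕ → Set ℕ := fun e H =>
    {n | 1 ∈ (enum e).eval (orc (fun m => decide (m ∈ H))) n}
  have hW : ∀ e, OpenOp (W e) := by
    intro e H n hn
    obtain ⟨u, hu⟩ := eval_cont (fun m => decide (m ∈ H)) (enum e) n 1 hn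
    refine ⟨u, fun H' hH' => ?_⟩
    exact hu (fun m => decide (m ∈ H')) fun x hx => decide_eq_decide.mpr (hH' x hx)
  obtain ⟨f, hf⟩ := main_comb W hW
  obtain ⟨g, hg⟩ := hall 2 2 le_rfl le_rfl f
  obtain ⟨H, hHi, ⟨a, ha⟩, hreq⟩ := hf g
  obtain ⟨H', hHi', ⟨col, hcol⟩, hred⟩ := hg (fun m => decide (m ∈ H))
    (by simpa using hHi)
    ⟨a, fun s hs hcard => ha s (fun x hx => by simpa using hs x hx) hcard⟩
  obtain ⟨c, hc⟩ := exists_code (RecursiveIn.iff_nat.mp hred)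
  obtain ⟨e, he⟩ := henum c
  have hWH : W e H = {m | H' m = true} := by
    ext m
    change 1 ∈ (enum e).eval (orc (fun m => decide (m ∈ H))) m ↔ H' m = true
    rw [he]
    change 1 ∈ c.eval (fun m => Part.some (Bool.toNat (decide (m ∈ H)))) m ↔ H' m = true
    rw [hc, Part.mem_some_iff]
    cases H' m <;> simp
  refine hreq e col ⟨?_, ?_⟩
  · rw [hWH]
    exact hHi'
  · intro s hs hcard
    refine hcol s (fun x hx => ?_) hcard
    have := hs x hx
    rw [hWH] at this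
    exact this

end Pool.Agent.S15620
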