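import Pool.Statements.S17650
-- import your own Pool.Agent.* helpers here

set_option autoImplicit false
open Pool Pool.MP_869812_nt

namespace Pool.Agent.S17650

/-- The map `f = (35 x ^ 2 - 763 x - 16170) / (x ^ 2 - 179 x)` on rational vectors. -/
def F (v : Fin 2 → ℚ) : Fin 2 → ℚ :=
  ![35 * v 0 ^ 2 + (-763) * v 0 * v 1 + (-16170) * v 1 ^ 2,
    1 * v 0 ^ 2 + (-179) * v 0 * v 1 + 0 * v 1 ^ 2]

/-- The same map on integer pairs. -/
def fi (p : ℤ × ℤ) : ℤ × ℤ :=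
  (35 * p.1 ^ 2 + (-763) * p.1 * p.2 + (-16170) * p.2 ^ 2,
    1 * p.1 ^ 2 + (-179) * p.1 * p.2 + 0 * p.2 ^ 2)

/-- Integer pairs as rational vectors. -/
def vec (p : ℤ × ℤ) : Fin 2 → ℚ := ![(p.1 : ℚ), (p.2 : ℚ)]

theorem F_vec (p : ℤ × ℤ) : F (vec p) = vec (fi p) := by
  funext i
  fin_cases i <;> simp [F, vec, fi]

theorem F_iter_vec (n : ℕ) (p : ℤ × ℤ) : F^[n] (vec p) = vec (fi^[n] p) := by
  induction n generalizing p with
  | zero => rfl
  | succ n ih => rw [Function.iterate_succ_apply, Function.iterate_succ_apply, F_vec, ih]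

theorem F_smul (a : ℚ) (v : Fin 2 → ℚ) : F (a • v) = (a ^ 2) • F v := by
  funext i
  fin_cases i <;> simp [F] <;> ring

theorem F_iter_smul (n : ℕ) (a : ℚ) (v : Fin 2 → ℚ) : F^[n] (a • v) = (a ^ 2 ^ n) • F^[n] v := by
  induction n generalizing a v with
  | zero => simp
  | succ n ih =>
    rw [Function.iterate_succ_apply, Function.iterate_succ_apply, F_smul, ih, ← pow_mul, pow_succ,
      mul_comm (2 ^ n) 2]

/-- The sixteen points. -/
def pts : Fin 16 → ℤ × ℤ :=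
  ![(-245, 4), (-125, 9), (-66, 5), (-15, 11), (-7, 1), (0, 1), (1, 0), (11, 1), (11, 25),
    (35, 1), (55, 1), (179, 1), (210, 1), (385, 131), (539, 16), (616, 5)]

/-- The preperiodicity data `(m, n)` with `f ^ n = f ^ m` at the point. -/
def mn : Fin 16 → ℕ × ℕ :=
  ![(1, 2), (2, 3), (1, 4), (2, 3), (0, 1), (0, 3), (0, 3), (0, 1), (1, 2),
    (0, 3), (1, 2), (1, 4), (0, 1), (1, 4), (2, 3), (2, 3)]

theorem mn_ok : ∀ i : Fin 16, (mn i).1 < (mn i).2 ∧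
    (fi^[(mn i).2] (pts i)).1 * (fi^[(mn i).1] (pts i)).2 =
      (fi^[(mn i).2] (pts i)).2 * (fi^[(mn i).1] (pts i)).1 := by
  decide +kernel

theorem pts_ne : ∀ i j : Fin 16, (pts i).1 * (pts j).2 = (pts i).2 * (pts j).1 → i = j := by
  decide +kernel

theorem pts_nonzero : ∀ i : Fin 16, (pts i).1 ≠ 0 ∨ (pts i).2 ≠ 0 := by decide +kernel

theorem vec_ne_zero (i : Fin 16) : vec (pts i) ≠ 0 := by
  intro h
  have h0 : ((pts i).1 : ℚ) = 0 := congrFun h 0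
  have h1 : ((pts i).2 : ℚ) = 0 := congrFun h 1
  rcases pts_nonzero i with h2 | h2
  · exact h2 (by exact_mod_cast h0)
  · exact h2 (by exact_mod_cast h1)

/-- The sixteen points of the projective line. -/
def P (i : Fin 16) : Projectivization ℚ (Fin 2 → ℚ) := Projectivization.mk ℚ (vec (pts i)) (vec_ne_zero i)

theorem P_injective : Function.Injective P := by
  intro i j h
  unfold P at h
  rw [Projectivization.mk_eq_mk_iff'] at h
  obtain ⟨a, ha⟩ := h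
  have h0 : a * ((pts j).1 : ℚ) = ((pts i).1 : ℚ) := congrFun ha 0
  have h1 : a * ((pts j).2 : ℚ) = ((pts i).2 : ℚ) := congrFun ha 1
  apply pts_ne
  have h2 : ((pts i).1 : ℚ) * ((pts j).2 : ℚ) = ((pts i).2 : ℚ) * ((pts j).1 : ℚ) := by
    rw [← h0, ← h1]; ring
  exact_mod_cast h2

theorem P_mem (i : Fin 16) : ∃ m n : ℕ, m < n ∧
    (F^[n] (P i).rep) 0 * (F^[m] (P i).rep) 1 = (F^[n] (P i).rep) 1 * (F^[m] (P i).rep) 0 := by
  obtain ⟨u, hu⟩ := Projectivization.exists_smul_eq_mk_rep ℚ (vec (pts i)) (vec_ne_zero i)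
  have hu' : (P i).rep = (u : ℚ) • vec (pts i) := by
    unfold P; rw [← hu]; rfl
  obtain ⟨hlt, heq⟩ := mn_ok i
  refine ⟨(mn i).1, (mn i).2, hlt, ?_⟩
  rw [hu', F_iter_smul, F_iter_smul, F_iter_vec, F_iter_vec]
  have heq' : ((fi^[(mn i).2] (pts i)).1 : ℚ) * ((fi^[(mn i).1] (pts i)).2 : ℚ) =
      ((fi^[(mn i).2] (pts i)).2 : ℚ) * ((fi^[(mn i).1] (pts i)).1 : ℚ) := by exact_mod_cast heq
  show ((u : ℚ) ^ 2 ^ (mn i).2 * ((fi^[(mn i).2] (pts i)).1 : ℚ)) *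
      ((u : ℚ) ^ 2 ^ (mn i).1 * ((fi^[(mn i).1] (pts i)).2 : ℚ)) =
    ((u : ℚ) ^ 2 ^ (mn i).2 * ((fi^[(mn i).2] (pts i)).2 : ℚ)) *
      ((u : ℚ) ^ 2 ^ (mn i).1 * ((fi^[(mn i).1] (pts i)).1 : ℚ))
  linear_combination ((u : ℚ) ^ 2 ^ (mn i).2 * (u : ℚ) ^ 2 ^ (mn i).1) * heq'

/-- The negation of the preceding statement: For every degree-2 map of the projective line over ℚ, given by two quadratic forms with nonzero resultant, the set of rational points whose forward orbit is eventually periodic has at most 14 elements. -/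
theorem result :
    ¬ (∀ a b c d e g : ℚ,
      (a * g - c * d) ^ 2 - (a * e - b * d) * (b * g - c * e) ≠ 0 →
      ∀ Φ : (Fin 2 → ℚ) → (Fin 2 → ℚ),
        (∀ v : Fin 2 → ℚ,
          Φ v = ![a * v 0 ^ 2 + b * v 0 * v 1 + c * v 1 ^ 2,
                  d * v 0 ^ 2 + e * v 0 * v 1 + g * v 1 ^ 2]) →
        {p : Projectivization ℚ (Fin 2 → ℚ) |
            ∃ m n : ℕ, m < n ∧
              (Φ^[n] p.rep) 0 * (Φ^[m] p.rep) 1 = (Φ^[n] p.rep) 1 * (Φ^[m] p.rep) 0}.encard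
          ≤ (14 : ℕ∞)) := by
  intro h
  have h1 := h 35 (-763) (-16170) 1 (-179) 0 (by norm_num) F (fun v => rfl)
  have h2 : Set.range P ⊆ {p : Projectivization ℚ (Fin 2 → ℚ) |
            ∃ m n : ℕ, m < n ∧
              (F^[n] p.rep) 0 * (F^[m] p.rep) 1 = (F^[n] p.rep) 1 * (F^[m] p.rep) 0} := by
    rintro _ ⟨i, rfl⟩
    exact P_mem i
  have h3 : ENat.card (Fin 16) ≤ (14 : ℕ∞) :=
    (P_injective.encard_range.trans (Set.encard_le_encard h2)).trans h1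
  rw [ENat.card_eq_coe_fintype_card, Fintype.card_fin] at h3
  exact absurd h3 (by decide)

end Pool.Agent.S17650
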