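-- pseudoprimes between x and 2x
import Pool.Statements.S18403
import Pool.Agent.Helper95.PspFamily
import Pool.Agent.Helper95.PspMiddle
import Pool.Agent.Helper95.PspD00
import Pool.Agent.Helper95.PspD01
import Pool.Agent.Helper95.PspD02
import Pool.Agent.Helper95.PspD03
import Pool.Agent.Helper95.PspD04
import Pool.Agent.Helper95.PspD05
import Pool.Agent.Helper95.PspD06
import Pool.Agent.Helper95.PspD07
import Pool.Agent.Helper95.PspD08
import Pool.Agent.Helper95.PspD09
import Pool.Agent.Helper95.PspD10
import Pool.Agent.Helper95.PspD11
import Pool.Agent.Helper95.PspD12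
import Pool.Agent.Helper95.PspD13
import Pool.Agent.Helper95.PspD14
import Pool.Agent.Helper95.PspD15
import Pool.Agent.Helper95.PspD16
import Pool.Agent.Helper95.PspD17

set_option autoImplicit false
open Pool Pool.MP_c35068_nt

namespace Pool.Agent.S18403

open Pool.Agent.Helper95.Psp

theorem Q_all {E : ℕ} (h : 17674 ≤ E) : Q E := by
  rcases lt_or_ge E (580 * 64 * 121) with h1 | h1
  · exact Q_middle h h1
  · exact Q_large h1

theorem cov_all : Cov 171 (2 ^ 17674) := by
  refine covD00.trans ?_
  refine covD01.trans ?_
  refine covD02.trans ?_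
  refine covD03.trans ?_
  refine covD04.trans ?_
  refine covD05.trans ?_
  refine covD06.trans ?_
  refine covD07.trans ?_
  refine covD08.trans ?_
  refine covD09.trans ?_
  refine covD10.trans ?_
  refine covD11.trans ?_
  refine covD12.trans ?_
  refine covD13.trans ?_
  refine covD14.trans ?_
  refine covD15.trans ?_
  refine covD16.trans ?_
  exact covD17

/-- For every natural number x greater than 170 there is a composite n with x < n < 2x such that n divides 2^(n-1) - 1, i.e. a base-2 Fermat pseudoprime. -/
theorem result :
    ∀ x : ℕ, 170 < x → ∃ n : ℕ, x < n ∧ n < 2 * x ∧ Nat.FermatPsp n 2 := by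
  intro x hx
  rcases lt_or_ge x (2 ^ 17674) with h | h
  · exact cov_all x hx h
  · exact cov_of_Q (fun E hE => Q_all hE) x h

end Pool.Agent.S18403
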