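import Pool.Statements.S18665
-- import your own Pool.Agent.* helpers here
import Pool.Agent.Helper90.NTM.Main
import Pool.Agent.Helper90.NTM.Irr.Final
import Pool.Agent.Helper90.NTM.Irr.Sub

set_option autoImplicit false
open Classical
open Pool Pool.MP_db02d7_nt

namespace Pool.Agent.S18665

open Pool.Agent.Helper90.NoTwoMultiples in
lemma sup_eq (n : ℕ) :
    ((Finset.Icc 1 n).powerset.filter
      (fun A : Finset ℕ =>
        ∀ a ∈ A, ∀ b ∈ A, ∀ c ∈ A,
          a ≠ b → a ≠ c → b ≠ c → ¬ (a ∣ b ∧ a ∣ c))).sup Finset.card = f n := by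
  apply le_antisymm
  · apply Finset.sup_le
    intro A hA
    rw [Finset.mem_filter, Finset.mem_powerset] at hA
    exact le_maxAdm hA.1 hA.2
  · obtain ⟨A, hA, hA2, h3⟩ := exists_max (Finset.Icc 1 n)
    unfold f
    rw [← h3]
    exact Finset.le_sup (f := Finset.card)
      (Finset.mem_filter.2 ⟨Finset.mem_powerset.2 hA, hA2⟩)

/-- Let M(n) be the largest size of a subset of {1,…,n} in which no element divides two other distinct elements; then M(n)/n converges to a limit, and that limit is irrational. -/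
theorem result :
    ∃ L : ℝ,
      Filter.Tendsto
        (fun n : ℕ =>
          ((((Finset.Icc 1 n).powerset.filter
              (fun A : Finset ℕ =>
                ∀ a ∈ A, ∀ b ∈ A, ∀ c ∈ A,
                  a ≠ b → a ≠ c → b ≠ c → ¬ (a ∣ b ∧ a ∣ c))).sup Finset.card : ℕ) : ℝ)
            / (n : ℝ))
        Filter.atTop (nhds L) ∧ Irrational L := by
  refine ⟨Pool.Agent.Helper90.NTM.lam, ?_,
    Pool.Agent.Helper90.NTM.Irr.irr Pool.Agent.Helper90.NTM.Irr.subspaceQ⟩
  refine (Pool.Agent.Helper90.NTM.limit_of_exact Pool.Agent.Helper90.NTM.exact).congr ?_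
  intro n
  rw [← sup_eq n]

end Pool.Agent.S18665
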