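import Pool.Statements.S18823
import Pool.Agent.Collatz3.Rigid
import Pool.Agent.Collatz3.VMain
import Pool.Agent.Collatz3.Upper
import Pool.Agent.Collatz3.Deduce

set_option autoImplicit false
open Pool Pool.MP_e7ed3f_nt

namespace Pool.Agent.S18823

/-- For every positive integer a not divisible by 3, the limsup over k of log(number of n ≥ 1 whose k-th 3x+1 iterate T^k(n) equals a)/k equals log(4/3), where T(n)=n/2 if n even and (3n+1)/2 if n odd. -/
theorem result :
    ∀ a : ℕ, 0 < a → ¬ (3 ∣ a) →
      Filter.limsup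
        (fun k : ℕ =>
          Real.log ((Set.ncard {n : ℕ | 1 ≤ n ∧
            (fun m : ℕ => if m % 2 = 0 then m / 2 else (3 * m + 1) / 2)^[k] n = a} : ℕ) : ℝ)
            / (k : ℝ))
        Filter.atTop = Real.log (4 / 3) := by
  intro a ha h3
  have hl2 : 0 < Real.log 2 := Real.log_pos (by norm_num)
  have hl4 : 0 < Real.log (4 / 3) := Real.log_pos (by norm_num)
  have hug : Pool.Agent.Collatz3.UniformGrowth (4 * Real.log 2) (4 * Real.log (4 / 3)) :=
    Pool.Agent.Collatz3.rigidity (by positivity) (by positivity)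
      Pool.Agent.Collatz3.typical_four
  exact (Pool.Agent.Collatz3.tendsto_pre hug Pool.Agent.Collatz3.upper ha h3).limsup_eq

end Pool.Agent.S18823
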