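import Pool.Statements.S18951
import Pool.Agent.Helper92.Final

set_option autoImplicit false
open Pool Pool.MP_f2cfed_nt

namespace Pool.Agent.S18951

/-- There exist reals ξ, ζ such that, for some ε>0 and infinitely many Q, Q·‖qξ‖·‖qζ‖ ≥ ε for all 0<q≤Q, and for some c>0, √q·max(‖qξ‖,‖qζ‖) ≥ c for all q≥1 (‖·‖ = distance to nearest integer). -/
theorem result :
    ∃ ξ ζ : ℝ,
      (∃ ε : ℝ, 0 < ε ∧ ∀ N : ℕ, ∃ Q : ℕ, N ≤ Q ∧ 0 < Q ∧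
        ∀ q : ℕ, 0 < q → q ≤ Q →
          ε ≤ (Q : ℝ) * (|(q : ℝ) * ξ - (round ((q : ℝ) * ξ) : ℝ)| *
                          |(q : ℝ) * ζ - (round ((q : ℝ) * ζ) : ℝ)|)) ∧
      (∃ c : ℝ, 0 < c ∧ ∀ q : ℕ, 0 < q →
        c ≤ Real.sqrt (q : ℝ) *
          max |(q : ℝ) * ξ - (round ((q : ℝ) * ξ) : ℝ)|
              |(q : ℝ) * ζ - (round ((q : ℝ) * ζ) : ℝ)|) := by
  obtain ⟨ξ, hξ⟩ := Pool.Agent.Helper92.Bad.exists_point
  refine ⟨ξ, Real.sqrt 2, ⟨((2 : ℝ) ^ 1216)⁻¹, by positivity, ?_⟩, ((2 : ℝ) ^ 704)⁻¹, by positivity,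
    fun q hq => Pool.Agent.Helper92.Bad.bad_of ξ hξ q hq⟩
  intro N
  have h1 : N + 2 ≤ 2 ^ (32 * 16 ^ (N + 1)) := by
    calc N + 2 ≤ 2 ^ (N + 2) := Nat.lt_two_pow_self.le
      _ ≤ 2 ^ (32 * 16 ^ (N + 1)) := by
          apply Nat.pow_le_pow_right (by norm_num)
          have : N + 1 < 16 ^ (N + 1) := Nat.lt_pow_self (by norm_num)
          omega
  refine ⟨2 ^ (32 * 16 ^ (N + 1)) - 1, by omega, by omega, ?_⟩
  intro q hq hqQ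
  have h2 := Pool.Agent.Helper92.Bad.mult_of ξ hξ N q hq (by omega)
  set M : ℕ := 2 ^ (32 * 16 ^ (N + 1)) with hM
  have hMR : ((2 : ℝ) ^ (32 * 16 ^ (N + 1))) = (M : ℝ) := by rw [hM]; push_cast; rfl
  rw [hMR] at h2
  have hM2 : (2 : ℝ) ≤ M := by exact_mod_cast (by omega : 2 ≤ M)
  have hcast : ((M - 1 : ℕ) : ℝ) = (M : ℝ) - 1 := by
    rw [Nat.cast_sub (by omega)]; norm_num
  rw [hcast]
  set P := |(q : ℝ) * ξ - (round ((q : ℝ) * ξ) : ℝ)| *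
    |(q : ℝ) * Real.sqrt 2 - (round ((q : ℝ) * Real.sqrt 2) : ℝ)| with hP
  have hP0 : 0 ≤ P := by positivity
  have e : (2 : ℝ) ^ 1216 = 2 ^ 1215 * 2 := by rw [← pow_succ]
  rw [e, mul_inv]
  have h3 : (M : ℝ) / 2 * P ≤ ((M : ℝ) - 1) * P := by
    apply mul_le_mul_of_nonneg_right _ hP0
    linarith
  have h4 : ((2 : ℝ) ^ 1215)⁻¹ * 2⁻¹ ≤ (M : ℝ) / 2 * P := by
    have : (M : ℝ) / 2 * P = (M * P) * 2⁻¹ := by ring
    rw [this]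
    exact mul_le_mul_of_nonneg_right h2 (by norm_num)
  exact h4.trans h3

end Pool.Agent.S18951
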