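import Pool.Statements.S19040
import Pool.Agent.SSP.Final

set_option autoImplicit false
open Filter Topology
open Pool Pool.MP_fa740a_nt

namespace Pool.Agent.S19040

/-- The negation of the preceding statement: For any two elliptic curves over Q, neither with a CM j-invariant, whose Frobenius traces differ at some common good prime, and any integers r1, r2: (number of good primes p ≤ x with a_p = r1, r2)/log log x tends to a finite limit. -/
theorem result :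
    ¬ (∀ E₁ E₂ : WeierstrassCurve ℚ, E₁.Δ ≠ 0 → E₂.Δ ≠ 0 →
      E₁.c₄ ^ 3 / E₁.Δ ∉ ({0, 1728, -3375, 8000, -32768, 54000, 287496, -884736, -12288000,
          16581375, -884736000, -147197952000, -262537412640768000} : Set ℚ) →
      E₂.c₄ ^ 3 / E₂.Δ ∉ ({0, 1728, -3375, 8000, -32768, 54000, 287496, -884736, -12288000,
          16581375, -884736000, -147197952000, -262537412640768000} : Set ℚ) →
      (∃ p : ℕ, p.Prime ∧ ∃ W₁ W₂ : WeierstrassCurve ℤ,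
          (∃ C : WeierstrassCurve.VariableChange ℚ, C • E₁ = W₁.map (Int.castRingHom ℚ)) ∧
          (∃ C : WeierstrassCurve.VariableChange ℚ, C • E₂ = W₂.map (Int.castRingHom ℚ)) ∧
          ¬ ((p : ℤ) ∣ W₁.Δ) ∧ ¬ ((p : ℤ) ∣ W₂.Δ) ∧
          Nat.card {q : ZMod p × ZMod p // q.2 ^ 2 + (W₁.a₁ : ZMod p) * q.1 * q.2
              + (W₁.a₃ : ZMod p) * q.2 = q.1 ^ 3 + (W₁.a₂ : ZMod p) * q.1 ^ 2
              + (W₁.a₄ : ZMod p) * q.1 + (W₁.a₆ : ZMod p)} ≠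
          Nat.card {q : ZMod p × ZMod p // q.2 ^ 2 + (W₂.a₁ : ZMod p) * q.1 * q.2
              + (W₂.a₃ : ZMod p) * q.2 = q.1 ^ 3 + (W₂.a₂ : ZMod p) * q.1 ^ 2
              + (W₂.a₄ : ZMod p) * q.1 + (W₂.a₆ : ZMod p)}) →
      ∀ r₁ r₂ : ℤ, ∃ c : ℝ, Tendsto (fun x : ℝ =>
        ((Nat.card {p : ℕ // p.Prime ∧ (p : ℝ) ≤ x ∧
          (∃ W : WeierstrassCurve ℤ,
            (∃ C : WeierstrassCurve.VariableChange ℚ, C • E₁ = W.map (Int.castRingHom ℚ)) ∧
            ¬ ((p : ℤ) ∣ W.Δ) ∧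
            (p : ℤ) - (Nat.card {q : ZMod p × ZMod p // q.2 ^ 2 + (W.a₁ : ZMod p) * q.1 * q.2
              + (W.a₃ : ZMod p) * q.2 = q.1 ^ 3 + (W.a₂ : ZMod p) * q.1 ^ 2
              + (W.a₄ : ZMod p) * q.1 + (W.a₆ : ZMod p)} : ℤ) = r₁) ∧
          (∃ W : WeierstrassCurve ℤ,
            (∃ C : WeierstrassCurve.VariableChange ℚ, C • E₂ = W.map (Int.castRingHom ℚ)) ∧
            ¬ ((p : ℤ) ∣ W.Δ) ∧
            (p : ℤ) - (Nat.card {q : ZMod p × ZMod p // q.2 ^ 2 + (W.a₁ : ZMod p) * q.1 * q.2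
              + (W.a₃ : ZMod p) * q.2 = q.1 ^ 3 + (W.a₂ : ZMod p) * q.1 ^ 2
              + (W.a₄ : ZMod p) * q.1 + (W.a₆ : ZMod p)} : ℤ) = r₂)} : ℕ) : ℝ)
          / Real.log (Real.log x)) atTop (𝓝 c)) := by
  intro hall
  classical
  -- integral models
  set V₁ : WeierstrassCurve ℤ := ⟨0, -33, 0, 272, 0⟩ with hV₁
  set V₂ : WeierstrassCurve ℤ := ⟨0, 33, 0, 272, 0⟩ with hV₂
  have hΔ₁ : V₁.Δ = 1183744 := by
    simp only [hV₁, WeierstrassCurve.Δ, WeierstrassCurve.b₂, WeierstrassCurve.b₄,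
      WeierstrassCurve.b₆, WeierstrassCurve.b₈]
    norm_num
  have hΔ₂ : V₂.Δ = 1183744 := by
    simp only [hV₂, WeierstrassCurve.Δ, WeierstrassCurve.b₂, WeierstrassCurve.b₄,
      WeierstrassCurve.b₆, WeierstrassCurve.b₈]
    norm_num
  have hc₁ : V₁.c₄ = 4368 := by
    simp only [hV₁, WeierstrassCurve.c₄, WeierstrassCurve.b₂, WeierstrassCurve.b₄]
    norm_num
  have hc₂ : V₂.c₄ = 4368 := by
    simp only [hV₂, WeierstrassCurve.c₄, WeierstrassCurve.b₂, WeierstrassCurve.b₄]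
    norm_num
  set f := Int.castRingHom ℚ with hf
  have hj : (4368 : ℚ) ^ 3 / 1183744 ∉ ({0, 1728, -3375, 8000, -32768, 54000, 287496, -884736,
      -12288000, 16581375, -884736000, -147197952000, -262537412640768000} : Set ℚ) := by
    norm_num
  have hD1 : (V₁.map f).Δ = 1183744 := by rw [WeierstrassCurve.map_Δ, hΔ₁]; simp [hf]
  have hD2 : (V₂.map f).Δ = 1183744 := by rw [WeierstrassCurve.map_Δ, hΔ₂]; simp [hf]
  have hC1 : (V₁.map f).c₄ = 4368 := by rw [WeierstrassCurve.map_c₄, hc₁]; simp [hf]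
  have hC2 : (V₂.map f).c₄ = 4368 := by rw [WeierstrassCurve.map_c₄, hc₂]; simp [hf]
  have hone₁ : ∃ C : WeierstrassCurve.VariableChange ℚ, C • (V₁.map f) = V₁.map f :=
    ⟨1, one_smul _ _⟩
  have hone₂ : ∃ C : WeierstrassCurve.VariableChange ℚ, C • (V₂.map f) = V₂.map f :=
    ⟨1, one_smul _ _⟩
  obtain ⟨c, hc⟩ := hall (V₁.map f) (V₂.map f) (by rw [hD1]; norm_num) (by rw [hD2]; norm_num)
    (by rw [hC1, hD1]; exact hj) (by rw [hC2, hD2]; exact hj)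
    (by
      refine ⟨7, by norm_num, V₁, V₂, hone₁, hone₂, ?_, ?_, ?_⟩
      · rw [hΔ₁]; norm_num
      · rw [hΔ₂]; norm_num
      · simp only [hV₁, hV₂, Nat.card_eq_fintype_card]
        decide +kernel)
    0 0
  refine SSP.not_loglog ⟨c + 1, ?_⟩
  have h1 := hc.eventually (gt_mem_nhds (lt_add_one c))
  have h2 : ∀ᶠ x : ℝ in atTop, 0 < Real.log (Real.log x) :=
    (Real.tendsto_log_atTop.comp Real.tendsto_log_atTop).eventually_gt_atTop 0
  filter_upwards [h1, h2] with x hx hpos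
  rw [div_lt_iff₀ hpos] at hx
  refine le_trans ?_ hx.le
  rw [Nat.cast_le]
  have hfin : Finite {p : ℕ // p.Prime ∧ (p : ℝ) ≤ x ∧
          (∃ W : WeierstrassCurve ℤ,
            (∃ C : WeierstrassCurve.VariableChange ℚ, C • (V₁.map f) = W.map (Int.castRingHom ℚ)) ∧
            ¬ ((p : ℤ) ∣ W.Δ) ∧
            (p : ℤ) - (Nat.card {q : ZMod p × ZMod p // q.2 ^ 2 + (W.a₁ : ZMod p) * q.1 * q.2
              + (W.a₃ : ZMod p) * q.2 = q.1 ^ 3 + (W.a₂ : ZMod p) * q.1 ^ 2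
              + (W.a₄ : ZMod p) * q.1 + (W.a₆ : ZMod p)} : ℤ) = 0) ∧
          (∃ W : WeierstrassCurve ℤ,
            (∃ C : WeierstrassCurve.VariableChange ℚ, C • (V₂.map f) = W.map (Int.castRingHom ℚ)) ∧
            ¬ ((p : ℤ) ∣ W.Δ) ∧
            (p : ℤ) - (Nat.card {q : ZMod p × ZMod p // q.2 ^ 2 + (W.a₁ : ZMod p) * q.1 * q.2
              + (W.a₃ : ZMod p) * q.2 = q.1 ^ 3 + (W.a₂ : ZMod p) * q.1 ^ 2
              + (W.a₄ : ZMod p) * q.1 + (W.a₆ : ZMod p)} : ℤ) = 0)} := by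
    apply Set.Finite.to_subtype
    apply (Set.finite_Iic ⌊x⌋₊).subset
    rintro p ⟨-, hpx, -⟩
    exact Nat.le_floor hpx
  refine Nat.card_le_card_of_injective (Subtype.map (fun p : ℕ => p) ?_)
    (Subtype.map_injective _ (fun _ _ h => h))
  · rintro p ⟨⟨hpf, h4, hB⟩, hpx⟩
    have hp2 : p ≠ 2 := by rintro rfl; norm_num at h4
    have hp17 : p ≠ 17 := by rintro rfl; norm_num at h4
    have hnd : ¬ ((p : ℤ) ∣ 1183744) := by
      intro h
      have h' : p ∣ 1183744 := by exact_mod_cast h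
      have h3 : (1183744 : ℕ) = 2 ^ 12 * 17 ^ 2 := by norm_num
      rw [h3, hpf.out.dvd_mul] at h'
      rcases h' with h' | h'
      · exact hp2 ((Nat.prime_dvd_prime_iff_eq hpf.out Nat.prime_two).1 (hpf.out.dvd_of_dvd_pow h'))
      · exact hp17 ((Nat.prime_dvd_prime_iff_eq hpf.out (by norm_num)).1 (hpf.out.dvd_of_dvd_pow h'))
    refine ⟨hpf.out, hpx, ⟨V₁, hone₁, by rw [hΔ₁]; exact hnd, ?_⟩,
      ⟨V₂, hone₂, by rw [hΔ₂]; exact hnd, ?_⟩⟩
    · have e : (Nat.card {q : ZMod p × ZMod p // q.2 ^ 2 + (V₁.a₁ : ZMod p) * q.1 * q.2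
              + (V₁.a₃ : ZMod p) * q.2 = q.1 ^ 3 + (V₁.a₂ : ZMod p) * q.1 ^ 2
              + (V₁.a₄ : ZMod p) * q.1 + (V₁.a₆ : ZMod p)} : ℤ) =
          (Nat.card {q : ZMod p × ZMod p // q.2 ^ 2 =
            q.1 ^ 3 + (-33) * q.1 ^ 2 + 272 * q.1} : ℤ) := by
        congr 1
        apply Nat.card_congr
        apply Equiv.subtypeEquivRight
        intro q
        simp [hV₁]
      rw [e, SSP.card_curve p hp2 (fun x => x ^ 3 + (-33) * x ^ 2 + 272 * x),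
        SSP.sum_g1 p hp17 hB]
      ring
    · have e : (Nat.card {q : ZMod p × ZMod p // q.2 ^ 2 + (V₂.a₁ : ZMod p) * q.1 * q.2
              + (V₂.a₃ : ZMod p) * q.2 = q.1 ^ 3 + (V₂.a₂ : ZMod p) * q.1 ^ 2
              + (V₂.a₄ : ZMod p) * q.1 + (V₂.a₆ : ZMod p)} : ℤ) =
          (Nat.card {q : ZMod p × ZMod p // q.2 ^ 2 =
            q.1 ^ 3 + 33 * q.1 ^ 2 + 272 * q.1} : ℤ) := by
        congr 1
        apply Nat.card_congr
        apply Equiv.subtypeEquivRight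
        intro q
        simp [hV₂]
      rw [e, SSP.card_curve p hp2 (fun x => x ^ 3 + 33 * x ^ 2 + 272 * x),
        SSP.sum_g2 p hp17 hB]
      ring

end Pool.Agent.S19040
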