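import Pool.Statements.S19133
import Pool.Agent.MHL.Final
-- import your own Pool.Agent.* helpers here

set_option autoImplicit false
open MeasureTheory Filter
open Pool Pool.MP_0b18d4_pr

namespace Pool.Agent.S19133

/-- For the walk on the randomly oriented Manhattan lattice with turn probability 1/2, the annealed mean squared displacement E∣X_t∣^2 (which equals the variance, as the mean is zero) satisfies log E∣X_t∣^2 / log t → 4/3, i.e. it grows like t^{4/3} at the exponent level. -/
theorem result :
    Tendsto
      (fun t : ℕ =>
        Real.log
          (∫ ω : ℕ ⊕ (ℤ ⊕ ℤ) → Bool,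
            (fun p : ℤ × ℤ => ((p.1 : ℝ) ^ 2 + (p.2 : ℝ) ^ 2))
              (Nat.rec (motive := fun _ => ℤ × ℤ) ((0 : ℤ), (0 : ℤ))
                (fun n x =>
                  if ω (Sum.inl n) = true then
                    (x.1 + (if ω (Sum.inr (Sum.inl x.2)) = true then (1 : ℤ) else -1), x.2)
                  else
                    (x.1, x.2 + (if ω (Sum.inr (Sum.inr x.1)) = true then (1 : ℤ) else -1)))
                t)
            ∂(Measure.infinitePi
                (fun _ : ℕ ⊕ (ℤ ⊕ ℤ) => (PMF.uniformOfFintype Bool).toMeasure)))
          / Real.log (t : ℝ))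
      atTop (nhds (4 / 3 : ℝ)) := by
  exact MHL.law43

end Pool.Agent.S19133
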