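import Pool.Statements.S19309
import Pool.Agent.Helper54.UST.Main

set_option autoImplicit false
open Pool Pool.MP_5138de_pr

namespace Pool.Agent.S19309

open Pool.Agent.UST

/-- averages of indicators over the spanning trees -/
theorem av_ind_eq (n : ℕ) [NeZero n] (P : Tr n → Prop) :
    av (fun T : Tr n => ind (P T)) = ({T : Tr n | P T}.ncard : ℝ) / Fintype.card (Tr n) := by
  classical
  unfold av ind
  congr 1
  rw [Finset.sum_ite]
  simp only [Finset.sum_const, nsmul_eq_mul, mul_one, mul_zero, add_zero]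
  rw [Set.ncard_eq_toFinset_card']
  congr 2
  ext T
  simp

theorem val_ncard (n : ℕ) (P : SimpleGraph (V n) → Prop) :
    {H : SimpleGraph (V n) | H ≤ torus n ∧ H.IsTree ∧ P H}.ncard =
      {T : Tr n | P T.1}.ncard := by
  have : {H : SimpleGraph (V n) | H ≤ torus n ∧ H.IsTree ∧ P H} =
      Subtype.val '' {T : Tr n | P T.1} := by
    ext H
    simp only [Set.mem_setOf_eq, Set.mem_image]
    constructor
    · rintro ⟨h1, h2, h3⟩
      exact ⟨⟨H, h1, h2⟩, h3, rfl⟩
    · rintro ⟨T, hT, rfl⟩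
      exact ⟨T.2.1, T.2.2, hT⟩
  rw [this]
  exact Set.ncard_image_of_injective _ Subtype.val_injective

/-- For any bounded-away scaling γ_n and all δ,ε>0 there is c>0 such that, for all n, a uniform spanning tree of the 4D torus Z_n^4 has some vertex whose tree-ball of radius δγ_n n²(log n)^{1/6} has under c·n⁴ vertices with probability at most ε. -/
theorem result :
    ∀ γ : ℕ → ℝ, ∀ a b : ℝ, 0 < a → (∀ n : ℕ, a ≤ γ n ∧ γ n ≤ b) →
    ∀ δ : ℝ, 0 < δ → ∀ ε : ℝ, 0 < ε → ∃ c : ℝ, 0 < c ∧ ∀ n : ℕ, 1 ≤ n →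
      ((Set.ncard {H : SimpleGraph (Fin 4 → ZMod n) |
          H ≤ SimpleGraph.fromRel (fun x y : Fin 4 → ZMod n =>
                ∃ i : Fin 4, (∀ j : Fin 4, j ≠ i → x j = y j) ∧ y i = x i + 1) ∧
          H.IsTree ∧
          ∃ x : Fin 4 → ZMod n,
            ((Set.ncard {y : Fin 4 → ZMod n |
                (H.dist x y : ℝ) ≤ δ * γ n * (n : ℝ) ^ 2 * (Real.log (n : ℝ)) ^ ((1 : ℝ) / 6)} : ℕ) : ℝ)
              < c * (n : ℝ) ^ 4} : ℕ) : ℝ)
        ≤ ε * ((Set.ncard {H : SimpleGraph (Fin 4 → ZMod n) |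
          H ≤ SimpleGraph.fromRel (fun x y : Fin 4 → ZMod n =>
                ∃ i : Fin 4, (∀ j : Fin 4, j ≠ i → x j = y j) ∧ y i = x i + 1) ∧
          H.IsTree} : ℕ) : ℝ) := by
  intro γ a b ha hγ δ hδ ε hε
  obtain ⟨δ', hδ', n0, hmain⟩ := mainTr (δ * a) ε (mul_pos hδ ha) hε
  refine ⟨min δ' (1 / ((n0 : ℝ) + 1) ^ 4), lt_min hδ' (by positivity), ?_⟩
  intro n hn
  haveI : NeZero n := ⟨by omega⟩
  have hcard : (Set.ncard {H : SimpleGraph (Fin 4 → ZMod n) |
          H ≤ SimpleGraph.fromRel (fun x y : Fin 4 → ZMod n =>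
                ∃ i : Fin 4, (∀ j : Fin 4, j ≠ i → x j = y j) ∧ y i = x i + 1) ∧
          H.IsTree} : ℝ) = Fintype.card (Tr n) := by
    have h := val_ncard n (fun _ => True)
    simp only [and_true, Set.setOf_true, Set.ncard_univ] at h
    rw [Nat.card_eq_fintype_card] at h
    exact_mod_cast h
  have hN : (0 : ℝ) < (n : ℝ) ^ 4 := by
    have : (0 : ℝ) < n := by exact_mod_cast hn
    positivity
  have hlog : 0 ≤ Real.log (n : ℝ) := Real.log_nonneg (by exact_mod_cast hn)
  have hrad : 0 ≤ δ * γ n * (n : ℝ) ^ 2 * (Real.log (n : ℝ)) ^ ((1 : ℝ) / 6) := by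
    have := (hγ n).1
    have : 0 ≤ γ n := by linarith
    positivity
  rw [hcard]
  by_cases hn0 : n0 ≤ n
  · -- large n
    have key := hmain n hn0
    rw [av_ind_eq] at key
    by_cases hz : Fintype.card (Tr n) = 0
    · -- no spanning trees: cannot happen, but the bound is trivial
      have hempty : IsEmpty (Tr n) := Fintype.card_eq_zero_iff.mp hz
      have h0 : {H : SimpleGraph (V n) | H ≤ torus n ∧ H.IsTree ∧ ∃ x : V n,
          ((Set.ncard {y : V n | (H.dist x y : ℝ) ≤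
            δ * γ n * (n : ℝ) ^ 2 * (Real.log (n : ℝ)) ^ ((1 : ℝ) / 6)} : ℕ) : ℝ) <
              min δ' (1 / ((n0 : ℝ) + 1) ^ 4) * (n : ℝ) ^ 4} = ∅ := by
        ext H
        simp only [Set.mem_setOf_eq, Set.mem_empty_iff_false, iff_false]
        rintro ⟨h1, h2, -⟩
        exact hempty.elim ⟨H, h1, h2⟩
      have h0' := congrArg Set.ncard h0
      rw [Set.ncard_empty] at h0'
      have : (0 : ℝ) ≤ ε * (Fintype.card (Tr n) : ℝ) := by positivity
      refine le_trans (le_of_eq ?_) this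
      exact_mod_cast h0'
    · have hpos : (0 : ℝ) < Fintype.card (Tr n) := by
        exact_mod_cast Nat.pos_of_ne_zero hz
      rw [div_le_iff₀ hpos] at key
      refine le_trans ?_ key
      have hv := val_ncard n (fun H => ∃ x : V n,
          ((Set.ncard {y : V n | (H.dist x y : ℝ) ≤
            δ * γ n * (n : ℝ) ^ 2 * (Real.log (n : ℝ)) ^ ((1 : ℝ) / 6)} : ℕ) : ℝ) <
              min δ' (1 / ((n0 : ℝ) + 1) ^ 4) * (n : ℝ) ^ 4)
      have hsub : {T : Tr n | ∃ x : V n,
          ((Set.ncard {y : V n | (T.1.dist x y : ℝ) ≤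
            δ * γ n * (n : ℝ) ^ 2 * (Real.log (n : ℝ)) ^ ((1 : ℝ) / 6)} : ℕ) : ℝ) <
              min δ' (1 / ((n0 : ℝ) + 1) ^ 4) * (n : ℝ) ^ 4} ⊆
          {T : Tr n | ∃ x : V n, (nb T x ⌊δ * a * rr n⌋₊ : ℝ) < δ' * NN n} := by
        rintro T ⟨x, hx⟩
        refine ⟨x, ?_⟩
        have h1 : min δ' (1 / ((n0 : ℝ) + 1) ^ 4) * (n : ℝ) ^ 4 ≤ δ' * NN n := by
          unfold NN
          exact mul_le_mul_of_nonneg_right (min_le_left _ _) hN.le
        refine lt_of_le_of_lt ?_ (lt_of_lt_of_le hx h1)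
        have h2 : nb T x ⌊δ * a * rr n⌋₊ ≤ Set.ncard {y : V n | (T.1.dist x y : ℝ) ≤
            δ * γ n * (n : ℝ) ^ 2 * (Real.log (n : ℝ)) ^ ((1 : ℝ) / 6)} := by
          unfold nb
          apply Set.ncard_le_ncard _ (Set.toFinite _)
          intro y hy
          simp only [Set.mem_setOf_eq] at hy ⊢
          rw [← dst_eq_dist]
          have hrr : 0 ≤ δ * a * rr n := by
            unfold rr LL
            positivity
          have h3 : (dst T x y : ℝ) ≤ δ * a * rr n :=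
            le_trans (by exact_mod_cast hy) (Nat.floor_le hrr)
          refine le_trans h3 ?_
          have h4 : a ≤ γ n := (hγ n).1
          unfold rr LL
          have h5 : 0 ≤ (n : ℝ) ^ 2 * Real.log (n : ℝ) ^ ((1 : ℝ) / 6) := by positivity
          calc δ * a * ((n : ℝ) ^ 2 * Real.log (n : ℝ) ^ ((1 : ℝ) / 6))
              ≤ δ * γ n * ((n : ℝ) ^ 2 * Real.log (n : ℝ) ^ ((1 : ℝ) / 6)) := by
                apply mul_le_mul_of_nonneg_right _ h5
                exact mul_le_mul_of_nonneg_left h4 hδ.le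
            _ = _ := by ring
        exact_mod_cast h2
      have hle := Set.ncard_le_ncard hsub (Set.toFinite _)
      rw [← hv] at hle
      exact_mod_cast hle
  · -- small n
    push Not at hn0
    have h0 : {H : SimpleGraph (V n) | H ≤ torus n ∧ H.IsTree ∧ ∃ x : V n,
        ((Set.ncard {y : V n | (H.dist x y : ℝ) ≤
          δ * γ n * (n : ℝ) ^ 2 * (Real.log (n : ℝ)) ^ ((1 : ℝ) / 6)} : ℕ) : ℝ) <
            min δ' (1 / ((n0 : ℝ) + 1) ^ 4) * (n : ℝ) ^ 4} = ∅ := by
      ext H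
      simp only [Set.mem_setOf_eq, Set.mem_empty_iff_false, iff_false]
      rintro ⟨-, -, x, hx⟩
      have h1 : min δ' (1 / ((n0 : ℝ) + 1) ^ 4) * (n : ℝ) ^ 4 ≤ 1 := by
        refine le_trans (mul_le_mul_of_nonneg_right (min_le_right _ _) hN.le) ?_
        rw [div_mul_eq_mul_div, one_mul, div_le_one (by positivity)]
        have : (n : ℝ) ≤ (n0 : ℝ) + 1 := by
          have : (n : ℝ) < n0 := by exact_mod_cast hn0
          linarith
        gcongr
      have h2 : 1 ≤ Set.ncard {y : V n | (H.dist x y : ℝ) ≤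
          δ * γ n * (n : ℝ) ^ 2 * (Real.log (n : ℝ)) ^ ((1 : ℝ) / 6)} := by
        rw [Nat.one_le_iff_ne_zero, ← Nat.pos_iff_ne_zero, Set.ncard_pos (Set.toFinite _)]
        refine ⟨x, ?_⟩
        simp only [Set.mem_setOf_eq, SimpleGraph.dist_self, Nat.cast_zero]
        exact hrad
      have h3 : (1 : ℝ) ≤ (Set.ncard {y : V n | (H.dist x y : ℝ) ≤
          δ * γ n * (n : ℝ) ^ 2 * (Real.log (n : ℝ)) ^ ((1 : ℝ) / 6)} : ℝ) := by
        exact_mod_cast h2
      linarith
    have h0' := congrArg Set.ncard h0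
    rw [Set.ncard_empty] at h0'
    have : (0 : ℝ) ≤ ε * (Fintype.card (Tr n) : ℝ) := by positivity
    refine le_trans (le_of_eq ?_) this
    exact_mod_cast h0'

end Pool.Agent.S19309
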