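import Pool.Statements.S19550
import Pool.Agent.Helper96.BM4

set_option autoImplicit false
open MeasureTheory Pointwise
open Pool Pool.MP_a5e374_pr

namespace Pool.Agent.S19550

/-- The negation of the preceding statement: For every κ ≤ 1/2 and every symmetric κ-concave law of (U,V) in the plane with densities for U, V, U+V: the square-root Rényi entropy power of U+V is at most that of U plus that of V, for all p>1 and for p=1 when entropies are finite. -/
theorem result :
    ¬ (∀ κ : EReal, κ ≤ ((1/2 : ℝ) : EReal) →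
  ∀ μ : Measure (ℝ × ℝ), IsProbabilityMeasure μ →
    μ.map (fun x => -x) = μ →
    (∀ A B : Set (ℝ × ℝ), IsCompact A → IsCompact B → 0 < μ A → 0 < μ B →
      ∀ t : ℝ, 0 < t → t < 1 →
        (if κ = ⊥ then min (μ A).toReal (μ B).toReal
         else if κ = 0 then (μ A).toReal ^ t * (μ B).toReal ^ (1 - t)
         else (t * (μ A).toReal ^ κ.toReal + (1 - t) * (μ B).toReal ^ κ.toReal) ^ (1 / κ.toReal))
        ≤ (μ (t • A + (1 - t) • B)).toReal) →
  ∀ fU fV fW : ℝ → ℝ, Measurable fU → Measurable fV → Measurable fW →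
    (∀ x, 0 ≤ fU x) → (∀ x, 0 ≤ fV x) → (∀ x, 0 ≤ fW x) →
    μ.map Prod.fst = volume.withDensity (fun x => ENNReal.ofReal (fU x)) →
    μ.map Prod.snd = volume.withDensity (fun x => ENNReal.ofReal (fV x)) →
    μ.map (fun x => x.1 + x.2) = volume.withDensity (fun x => ENNReal.ofReal (fW x)) →
    (∀ p : ENNReal, 1 < p →
      eLpNorm fW p volume ^ (-((1 - p⁻¹)⁻¹).toReal) ≤
        eLpNorm fU p volume ^ (-((1 - p⁻¹)⁻¹).toReal)
          + eLpNorm fV p volume ^ (-((1 - p⁻¹)⁻¹).toReal)) ∧
    (Integrable (fun x => Real.negMulLog (fU x)) →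
      Integrable (fun x => Real.negMulLog (fV x)) →
      Integrable (fun x => Real.negMulLog (fW x)) →
      Real.exp (∫ x, Real.negMulLog (fW x)) ≤
        Real.exp (∫ x, Real.negMulLog (fU x)) + Real.exp (∫ x, Real.negMulLog (fV x)))) := by
  intro H
  have h := (H ⊥ bot_le Pool.Agent.Helper96.mu
    (by unfold Pool.Agent.Helper96.mu; infer_instance)
    Pool.Agent.Helper96.map_neg_mu
    (by
      intro A B hA hB hA0 hB0 t ht0 ht1
      rw [if_pos rfl]
      have : IsProbabilityMeasure Pool.Agent.Helper96.mu := by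
        unfold Pool.Agent.Helper96.mu; infer_instance
      have h1 := Pool.Agent.Helper96.mu_concave hA hB hA0 hB0 ht0 ht1
      have h2 := ENNReal.toReal_mono (measure_ne_top _ _) h1
      rwa [ENNReal.toReal_min (measure_ne_top _ _) (measure_ne_top _ _)] at h2)
    Pool.Agent.Helper96.gU Pool.Agent.Helper96.gV Pool.Agent.Helper96.gW
    Pool.Agent.Helper96.measurable_gU Pool.Agent.Helper96.measurable_gV
    Pool.Agent.Helper96.continuous_gW.measurable
    (fun x => (Pool.Agent.Helper96.gU_pos x).le) Pool.Agent.Helper96.gV_nonneg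
    Pool.Agent.Helper96.gW_nonneg
    Pool.Agent.Helper96.map_fst Pool.Agent.Helper96.map_snd Pool.Agent.Helper96.map_sum).1 2
    (by norm_num)
  rw [Pool.Agent.Helper96.eLpNorm_two_pow _ Pool.Agent.Helper96.gW_nonneg,
    Pool.Agent.Helper96.eLpNorm_two_pow _ (fun x => (Pool.Agent.Helper96.gU_pos x).le),
    Pool.Agent.Helper96.eLpNorm_two_pow _ Pool.Agent.Helper96.gV_nonneg,
    Pool.Agent.Helper96.lintegral_gU_sq, Pool.Agent.Helper96.lintegral_gV_sq] at h
  have h3 := Pool.Agent.Helper96.lintegral_gW_sq_lt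
  have h4 : (ENNReal.ofReal (1/69))⁻¹ < (∫⁻ x, ENNReal.ofReal (Pool.Agent.Helper96.gW x ^ 2))⁻¹ :=
    ENNReal.inv_lt_inv.2 h3
  have h5 : (ENNReal.ofReal (1/6))⁻¹ + (ENNReal.ofReal (1/63))⁻¹ = (ENNReal.ofReal (1/69))⁻¹ := by
    rw [← ENNReal.ofReal_inv_of_pos (by norm_num), ← ENNReal.ofReal_inv_of_pos (by norm_num),
      ← ENNReal.ofReal_inv_of_pos (by norm_num), ← ENNReal.ofReal_add (by norm_num) (by norm_num)]
    norm_num
  rw [h5] at h
  exact absurd (lt_of_lt_of_le h4 h) (lt_irrefl _)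


end Pool.Agent.S19550
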